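import Pool.Agent.W_fd120a_h8.Basic

set_option autoImplicit false

open Finset Polynomial
open scoped Classical

namespace FDP

theorem Acoef_ev (u g : ℚ) (F : ℤ[X][X]) :
    ev u g F = (F.map (eval₂RingHom (Int.castRingHom ℚ) u)).eval g := by
  unfold ev
  rw [coe_eval₂RingHom, eval_map]

theorem Acoef_hasse_map (φ : ℤ[X] →+* ℚ) (m : ℕ) (F : ℤ[X][X]) :
    (hasseDeriv m F).map φ = hasseDeriv m (F.map φ) := by
  ext n
  rw [coeff_map, hasseDeriv_coeff, hasseDeriv_coeff, coeff_map, map_mul, map_natCast]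

theorem Acoef_hasse_coeff (m : ℕ) (F : ℤ[X][X]) (j i : ℕ) :
    ((hasseDeriv m F).coeff j).coeff i = ((j + m).choose m : ℤ) * (F.coeff (j + m)).coeff i := by
  rw [hasseDeriv_coeff, coeff_natCast_mul]

theorem Acoef_tdg_hasse (m : ℕ) (F : ℤ[X][X]) : tdg (hasseDeriv m F) ≤ tdg F - m := by
  rw [tdg_le_iff]
  intro j i hij
  rw [Acoef_hasse_coeff] at hij
  have h1 : (F.coeff (j + m)).coeff i ≠ 0 := by
    intro h
    rw [h, mul_zero] at hij
    exact hij rfl
  have h3 := (tdg_le_iff F (tdg F)).1 le_rfl (j + m) i h1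
  omega

/-- the lowest coefficient at the point of a line -/
theorem Acoef_key (e : ℕ) (Ψ : ℤ[X][X]) (he : tdg Ψ ≤ e) (v : Ln) (hy : v.2.1 ≠ 0)
    (_h0 : Ψ.map (eval₂RingHom (Int.castRingHom ℚ) ((v.1 : ℚ) / v.2.1)) ≠ 0) (a : ℕ)
    (ha : a = (taylor ((v.2.2 : ℚ) / v.2.1)
      (Ψ.map (eval₂RingHom (Int.castRingHom ℚ) ((v.1 : ℚ) / v.2.1)))).natTrailingDegree) :
    a ≤ e ∧ ((hm (e - a) (hasseDeriv a Ψ) v : ℤ) : ℚ) = (v.2.1 : ℚ) ^ (e - a) *
      (taylor ((v.2.2 : ℚ) / v.2.1)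
        (Ψ.map (eval₂RingHom (Int.castRingHom ℚ) ((v.1 : ℚ) / v.2.1)))).trailingCoeff := by
  have hy' : (v.2.1 : ℚ) ≠ 0 := by exact_mod_cast hy
  constructor
  · rw [ha]
    refine (natTrailingDegree_le_natDegree _).trans ?_
    rw [natDegree_taylor]
    refine natDegree_map_le.trans ?_
    exact (natDegree_le_tdg Ψ).trans he
  · have h1 : tdg (hasseDeriv a Ψ) ≤ e - a := (Acoef_tdg_hasse a Ψ).trans (by omega)
    rw [hm_cast (k := ℚ) (e - a) (hasseDeriv a Ψ) h1 v ((v.1 : ℚ) / v.2.1)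
      ((v.2.2 : ℚ) / v.2.1) (div_mul_cancel₀ _ hy') (div_mul_cancel₀ _ hy'), Acoef_ev,
      Acoef_hasse_map, ← taylor_coeff, trailingCoeff, ← ha]

/-- Let `F` be of total degree at most `d`, with coefficients at most `H`, and let `v` be a line with
entries at most `M`, not exceptional for `F`.  There is a non-zero integer `A`, of controlled size,
divisible by all the values at `v` of the divisors of `F` that do not vanish at `v`, and by the
values of the `Γ`-derivative of the divisors of `F` that have a simple zero at `v`.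
Proof.  Put `u = x / y`, `g = c / y` in `ℚ` and `f = F(u, Γ) ∈ ℚ[Γ]`, non-zero by hypothesis; let
`m = rootMultiplicity g f` and `A = hm (d - m) (hasseDeriv m F) v`; so
`A = y ^ (d - m) * (hasseDeriv m f)(g)`, which is the lowest non-zero coefficient of `taylor g f`.
The coefficients of `hasseDeriv m F` are at most `2 ^ d * H` in absolute value (binomials
`choose j m ≤ 2 ^ j`, `j ≤ d`), and the total degree drops by at least `m`; use `hm_abs_le`.
If `F = Ψ * R` then `tdg Ψ + tdg R = tdg F`.  If `Ψ(u,g) ≠ 0`, the lowest coefficient of `taylor g f`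
is `Ψ(u,g)` times that of `R(u,Γ)`, so `A = hm (tdg Ψ) Ψ v * (y ^ (d - m - tdg Ψ) * (hasseDeriv m R)(u,g))`
and the second factor is an integer because `tdg (hasseDeriv m R) ≤ tdg R - m ≤ d - tdg Ψ - m`
(if `m > tdg R` then `hasseDeriv m R = 0`, impossible).  If `Ψ(u,g) = 0 ≠ Ψ_Γ(u,g)` the same with
`Ψ_Γ(u,g)` and `m - 1`. -/
theorem exists_A (d : ℕ) (F : ℤ[X][X]) (hF : F ≠ 0) (hd : tdg F ≤ d) (H M : ℤ) (hM : 1 ≤ M)
    (hFH : ∀ j i, |(F.coeff j).coeff i| ≤ H) (v : Ln) (hy : v.2.1 ≠ 0)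
    (h1 : |v.1| ≤ M) (h2 : |v.2.1| ≤ M) (h3 : |v.2.2| ≤ M) (hne : ¬ Exc F v) :
    ∃ A : ℤ, A ≠ 0 ∧ |A| ≤ (d + 1) ^ 2 * (2 ^ d * H) * M ^ d ∧
      ∀ Ψ : ℤ[X][X], Ψ ∣ F →
        (¬ Van Ψ v → hm (tdg Ψ) Ψ v ∣ A) ∧
        (Van Ψ v → ¬ Van (derivative Ψ) v → hm (tdg Ψ - 1) (derivative Ψ) v ∣ A) := by
  have hy' : (v.2.1 : ℚ) ≠ 0 := by exact_mod_cast hy
  obtain ⟨φ, hφ⟩ : ∃ φ : ℤ[X] →+* ℚ,
    φ = eval₂RingHom (Int.castRingHom ℚ) ((v.1 : ℚ) / v.2.1) := ⟨_, rfl⟩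
  obtain ⟨g, hg⟩ : ∃ g : ℚ, g = (v.2.2 : ℚ) / v.2.1 := ⟨_, rfl⟩
  have hf : F.map φ ≠ 0 := by
    rw [hφ]
    exact hne
  obtain ⟨m, hm1⟩ : ∃ m, m = (taylor g (F.map φ)).natTrailingDegree := ⟨_, rfl⟩
  have hkey : ∀ (e : ℕ) (Ψ : ℤ[X][X]), tdg Ψ ≤ e → Ψ.map φ ≠ 0 → ∀ a : ℕ,
      a = (taylor g (Ψ.map φ)).natTrailingDegree →
      a ≤ e ∧ ((hm (e - a) (hasseDeriv a Ψ) v : ℤ) : ℚ) = (v.2.1 : ℚ) ^ (e - a) *
        (taylor g (Ψ.map φ)).trailingCoeff := by
    intro e Ψ he h0 a ha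
    rw [hφ] at h0 ha ⊢
    rw [hg] at ha ⊢
    exact Acoef_key e Ψ he v hy h0 a ha
  obtain ⟨hmd, hA⟩ := hkey d F hd hf m hm1
  have htc : ∀ p : ℚ[X], p ≠ 0 → (taylor g p).trailingCoeff ≠ 0 := by
    intro p hp
    rw [trailingCoeff_nonzero_iff_nonzero]
    intro h
    exact hp ((taylor_eq_zero g p).1 h)
  refine ⟨hm (d - m) (hasseDeriv m F) v, ?_, ?_, ?_⟩
  · intro h
    rw [h, Int.cast_zero] at hA
    rcases mul_eq_zero.1 hA.symm with h4 | h4
    · exact hy' (eq_zero_of_pow_eq_zero h4)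
    · exact htc _ hf h4
  · have hH : 0 ≤ H := (abs_nonneg _).trans (hFH 0 0)
    have hc : ∀ j i, |((hasseDeriv m F).coeff j).coeff i| ≤ 2 ^ d * H := by
      intro j i
      rw [Acoef_hasse_coeff]
      by_cases h0 : (F.coeff (j + m)).coeff i = 0
      · rw [h0, mul_zero, abs_zero]
        positivity
      · have h4 := (tdg_le_iff F d).1 hd (j + m) i h0
        have h5 : (j + m).choose m ≤ 2 ^ d :=
          (Nat.choose_le_two_pow _ _).trans (Nat.pow_le_pow_right (by norm_num) (by omega))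
        have h6 : (((j + m).choose m : ℕ) : ℤ) ≤ 2 ^ d := by exact_mod_cast h5
        rw [abs_mul, Nat.abs_cast]
        exact mul_le_mul h6 (hFH _ _) (abs_nonneg _) (by positivity)
    refine (hm_abs_le (d - m) (hasseDeriv m F) v (2 ^ d * H) M hM hc h1 h2 h3).trans ?_
    have h4 : (((d - m : ℕ) : ℤ) + 1) ^ 2 ≤ ((d : ℤ) + 1) ^ 2 := by
      have h5 : ((d - m : ℕ) : ℤ) ≤ (d : ℤ) := by exact_mod_cast Nat.sub_le _ _
      exact pow_le_pow_left₀ (by positivity) (by linarith) 2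
    have h6 : M ^ (d - m) ≤ M ^ d := pow_le_pow_right₀ hM (Nat.sub_le _ _)
    have hM0 : 0 ≤ M := by omega
    exact mul_le_mul (mul_le_mul_of_nonneg_right h4 (by positivity)) h6 (by positivity)
      (by positivity)
  · intro Ψ hΨ
    obtain ⟨R, hR⟩ := hΨ
    have hfm : F.map φ = Ψ.map φ * R.map φ := by rw [hR, Polynomial.map_mul]
    have hψ0 : Ψ.map φ ≠ 0 := fun h => hf (by rw [hfm, h, zero_mul])
    have hr0 : R.map φ ≠ 0 := fun h => hf (by rw [hfm, h, mul_zero])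
    have hΨ0 : Ψ ≠ 0 := fun h => hF (by rw [hR, h, zero_mul])
    have hR0 : R ≠ 0 := fun h => hF (by rw [hR, h, mul_zero])
    have htd : tdg Ψ + tdg R ≤ d := by
      rw [← tdg_mul Ψ R hΨ0 hR0, ← hR]
      exact hd
    obtain ⟨a, ha⟩ : ∃ a, a = (taylor g (Ψ.map φ)).natTrailingDegree := ⟨_, rfl⟩
    obtain ⟨b, hb⟩ : ∃ b, b = (taylor g (R.map φ)).natTrailingDegree := ⟨_, rfl⟩
    have htψ : taylor g (Ψ.map φ) ≠ 0 := fun h => hψ0 ((taylor_eq_zero g _).1 h)
    have htr : taylor g (R.map φ) ≠ 0 := fun h => hr0 ((taylor_eq_zero g _).1 h)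
    have hmab : m = a + b := by
      rw [hm1, hfm, taylor_mul, natTrailingDegree_mul htψ htr, ha, hb]
    obtain ⟨hae, hAψ⟩ := hkey (tdg Ψ) Ψ le_rfl hψ0 a ha
    obtain ⟨hbe, hAr⟩ := hkey (d - tdg Ψ) R (by omega) hr0 b hb
    have htcm : (taylor g (F.map φ)).trailingCoeff =
        (taylor g (Ψ.map φ)).trailingCoeff * (taylor g (R.map φ)).trailingCoeff := by
      rw [← coeff_mul_natTrailingDegree_add_natTrailingDegree, ← ha, ← hb, ← hmab, hm1,
        ← taylor_mul, ← hfm]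
      rfl
    have hprod : hm (d - m) (hasseDeriv m F) v =
        hm (tdg Ψ - a) (hasseDeriv a Ψ) v * hm (d - tdg Ψ - b) (hasseDeriv b R) v := by
      have h4 : ((hm (d - m) (hasseDeriv m F) v : ℤ) : ℚ) =
          ((hm (tdg Ψ - a) (hasseDeriv a Ψ) v * hm (d - tdg Ψ - b) (hasseDeriv b R) v : ℤ) : ℚ) := by
        rw [Int.cast_mul, hA, hAψ, hAr, htcm]
        have h5 : (v.2.1 : ℚ) ^ (d - m) =
            (v.2.1 : ℚ) ^ (tdg Ψ - a) * (v.2.1 : ℚ) ^ (d - tdg Ψ - b) := by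
          rw [← pow_add]
          congr 1
          omega
        rw [h5]
        ring
      exact_mod_cast h4
    have hvan : ∀ G : ℤ[X][X], Van G v ↔ (G.map φ).eval g = 0 := by
      intro G
      unfold Van
      rw [Acoef_ev, hφ, hg]
    constructor
    · intro hv
      rw [hvan, ← taylor_coeff_zero] at hv
      have ha0 : a = 0 := by
        rw [ha]
        exact Nat.le_zero.1 (natTrailingDegree_le_of_ne_zero hv)
      subst ha0
      rw [hprod]
      have h4 : hm (tdg Ψ - 0) (hasseDeriv 0 Ψ) v = hm (tdg Ψ) Ψ v := by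
        rw [Nat.sub_zero, hasseDeriv_zero']
      rw [h4]
      exact dvd_mul_right _ _
    · intro hv hv'
      rw [hvan, ← taylor_coeff_zero] at hv
      rw [hvan, ← derivative_map, ← taylor_coeff_one] at hv'
      have ha1 : a = 1 := by
        have h4 : a ≤ 1 := by
          rw [ha]
          exact natTrailingDegree_le_of_ne_zero hv'
        have h5 : a ≠ 0 := by
          intro h
          have h6 := htc _ hψ0
          rw [trailingCoeff, ← ha, h] at h6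
          exact h6 hv
        omega
      subst ha1
      rw [hprod]
      have h4 : hm (tdg Ψ - 1) (hasseDeriv 1 Ψ) v = hm (tdg Ψ - 1) (derivative Ψ) v := by
        rw [hasseDeriv_one']
      rw [h4]
      exact dvd_mul_right _ _

end FDP
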