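import Pool.Agent.W_fd120a_h8.GDefs

set_option autoImplicit false

open Finset
open scoped Classical

namespace FDP

open FD120

theorem AdmVV_mem {b L : ℕ} {P : ℤ} {res : ℤ → ℤ} {U V : ℤ} {v : Ln}
    (hv : v ∈ VV b L P res U V) :
    |v.1| ≤ (L : ℤ) ^ (b + 3) ∧ |v.2.1| ≤ (L : ℤ) ^ (b + 3) ∧ |v.2.2| ≤ (L : ℤ) ^ (51 * b + 7) ∧
    P ≤ v.1 * U + v.2.1 * V ∧ v.1 * U + v.2.1 * V < 2 * P ∧ Prime (v.1 * U + v.2.1 * V) ∧
    (v.1 * U + v.2.1 * V) ∣ U * v.2.2 - v.2.1 * res (v.1 * U + v.2.1 * V) := by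
  unfold VV at hv
  rw [mem_filter, mem_product, mem_product, mem_Icc, mem_Icc, mem_Icc] at hv
  obtain ⟨⟨h1, h2, h3⟩, h4, h5⟩ := hv
  obtain ⟨h6, h7, h8⟩ := PP_mem h4
  exact ⟨abs_le.2 h1, abs_le.2 h2, abs_le.2 h3, h6, h7, h8, h5⟩

/-- a divisor of a prime that is smaller is a unit -/
theorem AdmVV_unit {g Q : ℤ} (hQ : Prime Q) (hg : g ∣ Q) (h0 : 0 < g) (hlt : g < Q) : g = 1 := by
  obtain ⟨k, hk⟩ := hg
  rcases hQ.irreducible.isUnit_or_isUnit hk with h | h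
  · rcases Int.isUnit_iff.1 h with h1 | h1
    · exact h1
    · omega
  · rcases Int.isUnit_iff.1 h with h1 | h1
    · rw [h1, mul_one] at hk
      omega
    · rw [h1] at hk
      omega

/-- The lines of a chart are admissible.  Let `Q = x U + y V ∈ PP P` be a prime,
`L ^ (50b-2) ≤ U ≤ L ^ (50b+2) < P ≤ Q`, `0 ≤ V < U`, `|x|, |y| ≤ L ^ (b+3)`.
`y ≠ 0`: otherwise `U ∣ Q`, but `1 < U < Q`.  `gcd(x, y) ∣ Q` and `0 < |y| < Q`, so it is 1.
`gcd(U, V) ∣ Q` and `U < Q` so it is 1; `gcd(U, Q) = 1`.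
`lift`: `U c ≡ y res Q` modulo `Q` determines `c` modulo `Q ≥ L ^ (51b)`, and `|c| ≤ L ^ (51b+7)`: at
most `2 L^7 + 1` values.
`inj`: if `dt v w = dt v' w` then `v - v'` (directions) is an integral multiple `k` of the primitive
direction of `w`, so `Q_v - Q_v' = k Q_w`, but `|Q_v - Q_v'| < P ≤ Q_w`, so `k = 0`: at most one
direction, and at most `2 L^7 + 1` lifts. -/
theorem adm_VV (b L : ℕ) (N P : ℤ) (h : Par b L N P) (res : ℤ → ℤ) (U V : ℤ) (hU : 1 ≤ U)
    (hV0 : 0 ≤ V) (hVU : V < U) (hlow : P ≤ U * (L : ℤ) ^ (b + 2))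
    (hup : U ≤ (L : ℤ) ^ (50 * b + 2)) : Adm b L (VV b L P res U V) := by
  have hb := h.hb
  have hL1 : (1 : ℤ) < L := by
    have := h.hL
    exact_mod_cast (by omega : 1 < L)
  have hLge : (10 ^ 6 : ℤ) ≤ L := by exact_mod_cast h.hL
  have hLP : (L : ℤ) ^ (b + 3) < P :=
    (pow_lt_pow_right₀ hL1 (by omega : b + 3 < 51 * b)).trans_le h.P1
  have hUP : U < P :=
    hup.trans_lt ((pow_lt_pow_right₀ hL1 (by omega : 50 * b + 2 < 51 * b)).trans_le h.P1)
  have hU1 : 1 < U := by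
    by_contra hc
    have hU' : U = 1 := by omega
    rw [hU', one_mul] at hlow
    have h1 : (L : ℤ) ^ (b + 2) < P :=
      (pow_lt_pow_right₀ hL1 (by omega : b + 2 < 51 * b)).trans_le h.P1
    exact absurd hlow (not_le.2 h1)
  have hP0 : 0 < P := by linarith
  have hynz : ∀ v ∈ VV b L P res U V, v.2.1 ≠ 0 := by
    intro v hv h0
    obtain ⟨h1, h2, h3, h4, h5, h6, h7⟩ := AdmVV_mem hv
    rw [h0, zero_mul, add_zero] at h4 h6
    have := AdmVV_unit h6 (Dvd.intro_left _ rfl) (by omega) (by linarith)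
    omega
  have hcop : ∀ v ∈ VV b L P res U V, IsCoprime v.1 v.2.1 := by
    intro v hv
    obtain ⟨h1, h2, h3, h4, h5, h6, h7⟩ := AdmVV_mem hv
    have hy := hynz v hv
    rw [Int.isCoprime_iff_gcd_eq_one]
    have hg0 : 0 < Int.gcd v.1 v.2.1 := Int.gcd_pos_of_ne_zero_right _ hy
    have hgd : (Int.gcd v.1 v.2.1 : ℤ) ∣ v.1 * U + v.2.1 * V :=
      dvd_add ((Int.gcd_dvd_left _ _).mul_right _) ((Int.gcd_dvd_right _ _).mul_right _)
    have hgy : (Int.gcd v.1 v.2.1 : ℤ) ≤ |v.2.1| :=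
      Int.le_of_dvd (abs_pos.2 hy) ((dvd_abs _ _).2 (Int.gcd_dvd_right _ _))
    have h8 := AdmVV_unit h6 hgd (by exact_mod_cast hg0) (by linarith)
    exact_mod_cast h8
  have hlift : ∀ x y : ℤ,
      ((VV b L P res U V).filter (fun v => v.1 = x ∧ v.2.1 = y)).card ≤ L ^ 10 := by
    intro x y
    rcases ((VV b L P res U V).filter (fun v => v.1 = x ∧ v.2.1 = y)).eq_empty_or_nonempty with
      h0 | ⟨v0, hv0⟩
    · rw [h0, card_empty]
      exact Nat.zero_le _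
    rw [mem_filter] at hv0
    obtain ⟨hv0, hx0, hy0⟩ := hv0
    obtain ⟨h1, h2, h3, h4, h5, h6, h7⟩ := AdmVV_mem hv0
    rw [hx0, hy0] at h4 h5 h6 h7
    set Q : ℤ := x * U + y * V with hQ
    have hQL : (L : ℤ) ^ (51 * b) ≤ Q := h.P1.trans h4
    have hLb0 : (0 : ℤ) < (L : ℤ) ^ (51 * b) := by positivity
    have hsub : (VV b L P res U V).filter (fun v => v.1 = x ∧ v.2.1 = y) ⊆
        (Icc (-(2 * (L : ℤ) ^ 7)) (2 * (L : ℤ) ^ 7)).image
          (fun t => ((x, y, v0.2.2 + Q * t) : Ln)) := by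
      intro v hv
      rw [mem_filter] at hv
      obtain ⟨hv, hx, hy⟩ := hv
      obtain ⟨g1, g2, g3, g4, g5, g6, g7⟩ := AdmVV_mem hv
      rw [hx, hy, ← hQ] at g7
      have hd : Q ∣ U * (v.2.2 - v0.2.2) := by
        have e : U * (v.2.2 - v0.2.2) = (U * v.2.2 - y * res Q) - (U * v0.2.2 - y * res Q) := by
          ring
        rw [e]
        exact dvd_sub g7 h7
      have hd' : Q ∣ v.2.2 - v0.2.2 := by
        rcases h6.dvd_or_dvd hd with h8 | h8
        · have := Int.le_of_dvd (by omega) h8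
          omega
        · exact h8
      obtain ⟨t, ht⟩ := hd'
      rw [mem_image]
      refine ⟨t, ?_, ?_⟩
      · rw [mem_Icc, ← abs_le]
        have h9 : |Q * t| ≤ 2 * (L : ℤ) ^ (51 * b + 7) := by
          rw [← ht]
          calc |v.2.2 - v0.2.2| ≤ |v.2.2| + |v0.2.2| := abs_sub _ _
            _ ≤ 2 * (L : ℤ) ^ (51 * b + 7) := by linarith
        rw [abs_mul, abs_of_pos (by linarith : (0 : ℤ) < Q)] at h9
        have h10 : (L : ℤ) ^ (51 * b) * |t| ≤ (L : ℤ) ^ (51 * b) * (2 * (L : ℤ) ^ 7) := by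
          calc (L : ℤ) ^ (51 * b) * |t| ≤ Q * |t| :=
                mul_le_mul_of_nonneg_right hQL (abs_nonneg _)
            _ ≤ 2 * (L : ℤ) ^ (51 * b + 7) := h9
            _ = (L : ℤ) ^ (51 * b) * (2 * (L : ℤ) ^ 7) := by rw [pow_add]; ring
        exact le_of_mul_le_mul_left h10 hLb0
      · have e : v0.2.2 + Q * t = v.2.2 := by rw [← ht]; ring
        rw [e, ← hx, ← hy]
    refine (card_le_card hsub).trans (card_image_le.trans ?_)
    rw [Int.card_Icc]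
    have h11 : (2 * (L : ℤ) ^ 7 + 1 - -(2 * (L : ℤ) ^ 7)).toNat = 4 * L ^ 7 + 1 := by
      have : (2 * (L : ℤ) ^ 7 + 1 - -(2 * (L : ℤ) ^ 7)) = ((4 * L ^ 7 + 1 : ℕ) : ℤ) := by
        push_cast
        ring
      rw [this, Int.toNat_natCast]
    rw [h11]
    have hL := h.hL
    have h12 : 1 ≤ L ^ 7 := Nat.one_le_pow _ _ (by omega)
    have h13 : 5 ≤ L ^ 3 := by
      calc 5 ≤ L := by omega
        _ ≤ L ^ 3 := Nat.le_self_pow (by norm_num) _
    calc 4 * L ^ 7 + 1 ≤ 5 * L ^ 7 := by omega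
      _ ≤ L ^ 3 * L ^ 7 := Nat.mul_le_mul_right _ h13
      _ = L ^ 10 := by rw [← pow_add]
  refine ⟨hcop, hynz, ?_, ?_, ?_, hlift, ?_⟩
  · intro v hv
    exact (AdmVV_mem hv).1.trans (pow_le_pow_right₀ hL1.le (by omega))
  · intro v hv
    exact (AdmVV_mem hv).2.1.trans (pow_le_pow_right₀ hL1.le (by omega))
  · intro v hv
    exact (AdmVV_mem hv).2.2.1.trans (pow_le_pow_right₀ hL1.le (by omega))
  · intro w hw D
    rcases ((VV b L P res U V).filter (fun v => dt v w = D)).eq_empty_or_nonempty with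
      h0 | ⟨v0, hv0⟩
    · rw [h0, card_empty]
      exact Nat.zero_le _
    rw [mem_filter] at hv0
    obtain ⟨hv0, hD0⟩ := hv0
    refine (card_le_card ?_).trans (hlift v0.1 v0.2.1)
    intro v hv
    rw [mem_filter] at hv ⊢
    obtain ⟨hv, hD⟩ := hv
    refine ⟨hv, ?_⟩
    obtain ⟨-, -, -, a4, a5, -, -⟩ := AdmVV_mem hv0
    obtain ⟨-, -, -, b4, b5, -, -⟩ := AdmVV_mem hv
    obtain ⟨-, -, -, c4, c5, -, -⟩ := AdmVV_mem hw
    have hwy := hynz w hw
    have e1 : (v.1 - v0.1) * w.2.1 = w.1 * (v.2.1 - v0.2.1) := by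
      unfold dt at hD hD0
      linear_combination hD - hD0
    have hdv : w.2.1 ∣ v.2.1 - v0.2.1 := by
      have h8 : w.2.1 ∣ w.1 * (v.2.1 - v0.2.1) := ⟨v.1 - v0.1, by rw [← e1]; ring⟩
      exact (hcop w hw).symm.dvd_of_dvd_mul_left h8
    obtain ⟨k, hk⟩ := hdv
    have e2 : v.1 - v0.1 = k * w.1 := by
      rw [hk] at e1
      have h9 : (v.1 - v0.1 - k * w.1) * w.2.1 = 0 := by linear_combination e1
      rcases mul_eq_zero.1 h9 with h10 | h10
      · linarith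
      · exact absurd h10 hwy
    have e3 : (v.1 * U + v.2.1 * V) - (v0.1 * U + v0.2.1 * V) = k * (w.1 * U + w.2.1 * V) := by
      linear_combination U * e2 + V * hk
    have hk0 : k = 0 := by
      by_contra hk0
      rcases lt_or_gt_of_ne hk0 with h9 | h9
      · have h10 : k * (w.1 * U + w.2.1 * V) ≤ -1 * (w.1 * U + w.2.1 * V) :=
          mul_le_mul_of_nonneg_right (by omega) (by linarith)
        linarith
      · have h10 : 1 * (w.1 * U + w.2.1 * V) ≤ k * (w.1 * U + w.2.1 * V) :=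
          mul_le_mul_of_nonneg_right (by omega) (by linarith)
        linarith
    rw [hk0] at e2 hk
    constructor
    · linarith
    · linarith

end FDP
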