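import Pool.Agent.W_fd120a_h8.Basic

set_option autoImplicit false

open Finset Polynomial
open scoped Classical

namespace FDP

/-- If the lines `v`, `w` meet in a lattice point and have determinant `± D`, `D` a large prime, then
`D` divides the value at `w` of every polynomial that vanishes at `v`.
Proof.  In the field `ZMod D` the `y`-coordinates are non-zero (`0 < |y| ≤ L ^ (b + 10) < D`);
`D ∣ x y' - x' y` by hypothesis, and `c x' - c' x = ± s D`, `c y' - c' y = ± t D` for the common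
lattice point `(s, t)`; so `x / y = x' / y'` and `c / y = c' / y'` in `ZMod D`; use `hm_cast` in `ℚ`
and in `ZMod D`. -/
theorem edge_dvd (b L : ℕ) (hb : 12 ≤ b) (hL : 2 ≤ L) (v w : Ln)
    (hv0 : v.2.1 ≠ 0) (hw0 : w.2.1 ≠ 0)
    (hv : |v.2.1| ≤ (L : ℤ) ^ (b + 10)) (hw : |w.2.1| ≤ (L : ℤ) ^ (b + 10))
    (D : ℕ) (hD : D.Prime) (hDL : L ^ (2 * b - 1) < D) (hdet : |dt v w| = (D : ℤ))
    (z : ℤ × ℤ) (hz1 : On v z) (hz2 : On w z) (Ψ : ℤ[X][X]) (hΨ : Van Ψ v) (e : ℕ)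
    (he : tdg Ψ ≤ e) :
    (D : ℤ) ∣ hm e Ψ w := by
  haveI : Fact D.Prime := ⟨hD⟩
  have hpow : (L : ℤ) ^ (b + 10) < (D : ℤ) := by
    have h1 : L ^ (b + 10) ≤ L ^ (2 * b - 1) := Nat.pow_le_pow_right (by omega) (by omega)
    exact_mod_cast lt_of_le_of_lt h1 hDL
  have hne : ∀ y : ℤ, y ≠ 0 → |y| ≤ (L : ℤ) ^ (b + 10) → (y : ZMod D) ≠ 0 := by
    intro y hy0 hy h
    rw [ZMod.intCast_zmod_eq_zero_iff_dvd] at h
    have h2 := Int.le_of_dvd (abs_pos.2 hy0) ((dvd_abs _ _).2 h)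
    exact absurd (lt_of_le_of_lt (h2.trans hy) hpow) (lt_irrefl _)
  have hy := hne _ hv0 hv
  have hy' := hne _ hw0 hw
  -- determinant
  have hdz : ((dt v w : ℤ) : ZMod D) = 0 := by
    rw [ZMod.intCast_zmod_eq_zero_iff_dvd, ← dvd_abs, hdet]
  have e1 : (v.1 : ZMod D) * (w.2.1 : ZMod D) = (w.1 : ZMod D) * (v.2.1 : ZMod D) := by
    have h : ((v.1 * w.2.1 - w.1 * v.2.1 : ℤ) : ZMod D) = 0 := hdz
    push_cast at h
    exact sub_eq_zero.1 h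
  have e2 : (v.2.2 : ZMod D) * (w.2.1 : ZMod D) = (w.2.2 : ZMod D) * (v.2.1 : ZMod D) := by
    have h1 : v.2.2 * w.2.1 - w.2.2 * v.2.1 = - z.2 * dt v w := by
      have a1 : v.2.2 = v.2.1 * z.1 - v.1 * z.2 := hz1
      have a2 : w.2.2 = w.2.1 * z.1 - w.1 * z.2 := hz2
      rw [a1, a2]
      unfold dt
      ring
    have h2 : ((v.2.2 * w.2.1 - w.2.2 * v.2.1 : ℤ) : ZMod D) = 0 := by
      rw [h1, Int.cast_mul, hdz, mul_zero]
    push_cast at h2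
    exact sub_eq_zero.1 h2
  -- over `ℚ`
  have hq : (v.2.1 : ℚ) ≠ 0 := by exact_mod_cast hv0
  have h0 : hm e Ψ v = 0 := by
    have h := hm_cast (k := ℚ) e Ψ he v ((v.1 : ℚ) / v.2.1) ((v.2.2 : ℚ) / v.2.1)
      (div_mul_cancel₀ _ hq) (div_mul_cancel₀ _ hq)
    have h' : ev ((v.1 : ℚ) / v.2.1) ((v.2.2 : ℚ) / v.2.1) Ψ = 0 := hΨ
    rw [h', mul_zero] at h
    exact_mod_cast h
  -- modulo `D`
  have h1 := hm_cast (k := ZMod D) e Ψ he v ((v.1 : ZMod D) / v.2.1) ((v.2.2 : ZMod D) / v.2.1)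
    (div_mul_cancel₀ _ hy) (div_mul_cancel₀ _ hy)
  rw [h0, Int.cast_zero] at h1
  have h2 : ev ((v.1 : ZMod D) / v.2.1) ((v.2.2 : ZMod D) / v.2.1) Ψ = 0 := by
    rcases mul_eq_zero.1 h1.symm with h | h
    · exact absurd h (pow_ne_zero _ hy)
    · exact h
  have h3 := hm_cast (k := ZMod D) e Ψ he w ((v.1 : ZMod D) / v.2.1) ((v.2.2 : ZMod D) / v.2.1)
    (by rw [div_mul_eq_mul_div, e1, mul_div_cancel_right₀ _ hy])
    (by rw [div_mul_eq_mul_div, e2, mul_div_cancel_right₀ _ hy])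
  rw [h2, mul_zero] at h3
  exact (ZMod.intCast_zmod_eq_zero_iff_dvd _ _).1 h3

end FDP
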