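import Pool.Agent.W_fd120a_h8.Basic

set_option autoImplicit false

open Finset Polynomial
open scoped Classical

namespace FDP

attribute [local instance] Matrix.seminormedAddCommGroup in
/-- Siegel's lemma in integral form; the system may be empty -/
theorem sg_siegel {α β : Type} [Fintype α] [Fintype β] (A : Matrix α β ℤ) (C : ℤ) (hC : 1 ≤ C)
    (hA : ∀ i j, |A i j| ≤ C) (hαβ : Fintype.card α < Fintype.card β) (k : ℕ)
    (hk : Fintype.card α ≤ k * (Fintype.card β - Fintype.card α)) :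
    ∃ t : β → ℤ, t ≠ 0 ∧ A.mulVec t = 0 ∧ ∀ j, |t j| ≤ ((Fintype.card β : ℤ) * C) ^ k := by
  have hβ : 1 ≤ (Fintype.card β : ℤ) := by
    have : 0 < Fintype.card β := by omega
    exact_mod_cast this
  have hbase : 1 ≤ (Fintype.card β : ℤ) * C := by nlinarith
  rcases Nat.eq_zero_or_pos (Fintype.card α) with h0 | h0
  · have he : IsEmpty α := Fintype.card_eq_zero_iff.1 h0
    have hne : Nonempty β := Fintype.card_pos_iff.1 (by omega)
    refine ⟨fun _ => 1, ?_, ?_, ?_⟩
    · intro h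
      have := congrFun h hne.some
      simp at this
    · funext i
      exact he.elim i
    · intro j
      rw [abs_one]
      exact one_le_pow₀ hbase
  · obtain ⟨t, ht0, htA, ht⟩ := Int.Matrix.exists_ne_zero_int_vec_norm_le A hαβ h0
    refine ⟨t, ht0, htA, fun j => ?_⟩
    have hCr : (1 : ℝ) ≤ C := by exact_mod_cast hC
    have hnorm : ‖A‖ ≤ (C : ℝ) := by
      rw [Matrix.norm_le_iff (by linarith)]
      intro i j
      rw [Int.norm_eq_abs]
      exact_mod_cast hA i j
    have hbr : (1 : ℝ) ≤ (Fintype.card β : ℝ) * C := by exact_mod_cast hbase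
    have hexp : ((Fintype.card α : ℕ) : ℝ) / ((Fintype.card β : ℝ) - Fintype.card α) ≤ (k : ℝ) := by
      have h1 : (0 : ℝ) < (Fintype.card β : ℝ) - Fintype.card α := by
        have : (Fintype.card α : ℝ) < Fintype.card β := by exact_mod_cast hαβ
        linarith
      rw [div_le_iff₀ h1]
      have h2 : ((Fintype.card β - Fintype.card α : ℕ) : ℝ) =
          (Fintype.card β : ℝ) - Fintype.card α := Nat.cast_sub hαβ.le
      rw [← h2]
      exact_mod_cast hk
    have h3 : ‖t j‖ ≤ ((Fintype.card β : ℝ) * C) ^ (k : ℝ) := by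
      refine (norm_le_pi_norm t j).trans (ht.trans ?_)
      have h4 : (Fintype.card β : ℝ) * max 1 ‖A‖ ≤ (Fintype.card β : ℝ) * C :=
        mul_le_mul_of_nonneg_left (max_le hCr hnorm) (by positivity)
      refine (Real.rpow_le_rpow (by positivity) h4 ?_).trans
        (Real.rpow_le_rpow_of_exponent_le hbr hexp)
      apply div_nonneg (by positivity)
      have : (Fintype.card α : ℝ) < Fintype.card β := by exact_mod_cast hαβ
      linarith
    rw [Int.norm_eq_abs, Real.rpow_natCast] at h3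
    exact_mod_cast h3

/-- the exponents of a polynomial of total degree at most `d` -/
abbrev SgI (d : ℕ) : Type := Σ j : Fin (d + 1), Fin (d + 1 - j.val)

theorem sg_card (d : ℕ) : 2 * Fintype.card (SgI d) = (d + 1) * (d + 2) := by
  rw [Fintype.card_sigma]
  simp only [Fintype.card_fin]
  rw [← Finset.sum_range (fun j => d + 1 - j)]
  have h := Finset.sum_range_reflect (fun j => j + 1) (d + 1)
  have h1 : ∑ j ∈ range (d + 1), (d + 1 - j) = ∑ j ∈ range (d + 1), (j + 1) := by
    rw [← h]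
    apply Finset.sum_congr rfl
    intro j hj
    rw [Finset.mem_range] at hj
    omega
  rw [h1]
  induction d with
  | zero => simp
  | succ d ih =>
    have h2 : ∑ j ∈ range (d + 1), (d + 1 - j) = ∑ j ∈ range (d + 1), (j + 1) := by
      rw [← Finset.sum_range_reflect (fun j => j + 1) (d + 1)]
      apply Finset.sum_congr rfl
      intro j hj
      rw [Finset.mem_range] at hj
      omega
    have h3 := ih (Finset.sum_range_reflect (fun j => j + 1) (d + 1)) h2
    rw [Finset.sum_range_succ, mul_add, h3]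
    ring

/-- the polynomial with the given coefficients -/
noncomputable def sgPol (d : ℕ) (t : SgI d → ℤ) : ℤ[X][X] :=
  ∑ p : SgI d, monomial p.1.val (monomial p.2.val (t p))

theorem sgPol_coeff (d : ℕ) (t : SgI d → ℤ) (p : SgI d) :
    ((sgPol d t).coeff p.1.val).coeff p.2.val = t p := by
  unfold sgPol
  rw [finsetSum_coeff, finsetSum_coeff, Finset.sum_eq_single p]
  · rw [coeff_monomial, if_pos rfl, coeff_monomial, if_pos rfl]
  · intro q _ hq
    rw [coeff_monomial]
    split_ifs with h1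
    · rw [coeff_monomial, if_neg]
      intro h2
      apply hq
      obtain ⟨⟨j, hj⟩, ⟨i, hi⟩⟩ := p
      obtain ⟨⟨j', hj'⟩, ⟨i', hi'⟩⟩ := q
      simp only at h1 h2
      subst h1 h2
      rfl
    · rw [coeff_zero]
  · intro h
    exact absurd (Finset.mem_univ p) h

theorem sgPol_coeff_zero (d : ℕ) (t : SgI d → ℤ) (j i : ℕ) (h : d < i + j) :
    ((sgPol d t).coeff j).coeff i = 0 := by
  unfold sgPol
  rw [finsetSum_coeff, finsetSum_coeff]
  apply Finset.sum_eq_zero
  intro q _
  rw [coeff_monomial]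
  split_ifs with h1
  · rw [coeff_monomial, if_neg]
    intro h2
    have h3 := q.1.2
    have h4 := q.2.2
    omega
  · rw [coeff_zero]

theorem sgPol_tdg (d : ℕ) (t : SgI d → ℤ) : tdg (sgPol d t) ≤ d := by
  rw [tdg_le_iff]
  intro j i h
  by_contra hcon
  exact h (sgPol_coeff_zero d t j i (by omega))

theorem sgPol_bound (d : ℕ) (t : SgI d → ℤ) (B : ℤ) (hB : 0 ≤ B) (ht : ∀ p, |t p| ≤ B)
    (j i : ℕ) : |((sgPol d t).coeff j).coeff i| ≤ B := by
  by_cases h : i + j ≤ d
  · have h1 := sgPol_coeff d t ⟨⟨j, by omega⟩, ⟨i, by simp only; omega⟩⟩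
    simp only at h1
    rw [h1]
    exact ht _
  · rw [sgPol_coeff_zero d t j i (by omega), abs_zero]
    exact hB

theorem sgPol_ne_zero (d : ℕ) (t : SgI d → ℤ) (ht : t ≠ 0) : sgPol d t ≠ 0 := by
  intro h
  apply ht
  funext p
  rw [← sgPol_coeff d t p, h]
  simp

/-- the row of the linear system given by the line `v` -/
def sgRow (d : ℕ) (v : Ln) (p : SgI d) : ℤ :=
  v.1 ^ p.2.val * v.2.2 ^ p.1.val * v.2.1 ^ (d - p.2.val - p.1.val)

theorem sg_hm (d : ℕ) (F : ℤ[X][X]) (v : Ln) :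
    hm d F v = ∑ p : SgI d, sgRow d v p * (F.coeff p.1.val).coeff p.2.val := by
  unfold hm
  rw [Fintype.sum_sigma, Finset.sum_range]
  apply Finset.sum_congr rfl
  intro j _
  rw [Finset.sum_range]
  apply Finset.sum_congr rfl
  intro i _
  unfold sgRow
  ring

theorem sg_hm_pol (d : ℕ) (t : SgI d → ℤ) (v : Ln) :
    hm d (sgPol d t) v = ∑ p : SgI d, sgRow d v p * t p := by
  rw [sg_hm]
  apply Finset.sum_congr rfl
  intro p _
  rw [sgPol_coeff]

theorem sgRow_abs (d : ℕ) (v : Ln) (M : ℤ) (hM : 1 ≤ M) (h1 : |v.1| ≤ M) (h2 : |v.2.1| ≤ M)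
    (h3 : |v.2.2| ≤ M) (p : SgI d) : |sgRow d v p| ≤ M ^ d := by
  unfold sgRow
  rw [abs_mul, abs_mul, abs_pow, abs_pow, abs_pow]
  have h4 := p.1.2
  have h5 := p.2.2
  have hM0 : 0 ≤ M := by linarith
  calc |v.1| ^ p.2.val * |v.2.2| ^ p.1.val * |v.2.1| ^ (d - p.2.val - p.1.val)
      ≤ M ^ p.2.val * M ^ p.1.val * M ^ (d - p.2.val - p.1.val) := by
        gcongr
    _ = M ^ d := by
        rw [← pow_add, ← pow_add]
        congr 1
        omega

/-- Siegel's lemma: a form of degree `d` with small coefficients that vanishes on `V0`.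
Proof.  Unknowns: the coefficients `f i j`, `i + j ≤ d`; their number is `n = (d+1)(d+2)/2 ≥ 2 |V0|`.
The matrix of the system `hm d F v = 0` has entries `x^i c^j y^(d-i-j)`, at most `M ^ d`.  If `V0` is
empty take `F = 1`.  Otherwise `Int.Matrix.exists_ne_zero_int_vec_norm_le` (Mathlib) gives a non-zero
solution with entries at most `(n * max 1 ‖A‖) ^ (m / (n - m)) ≤ n * M ^ d`, as `m = |V0| ≤ n - m`. -/
theorem exists_form (d : ℕ) (M : ℤ) (hM : 1 ≤ M) (V0 : Finset Ln)
    (h1 : ∀ v ∈ V0, |v.1| ≤ M) (h2 : ∀ v ∈ V0, |v.2.1| ≤ M) (h3 : ∀ v ∈ V0, |v.2.2| ≤ M)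
    (hcard : 4 * V0.card ≤ (d + 1) * (d + 2)) :
    ∃ F : ℤ[X][X], F ≠ 0 ∧ tdg F ≤ d ∧
      (∀ j i, |(F.coeff j).coeff i| ≤ (d + 1) * (d + 2) * M ^ d) ∧ ∀ v ∈ V0, hm d F v = 0 := by
  have hn := sg_card d
  have hn0 : 0 < (d + 1) * (d + 2) := by positivity
  have hMd : (1 : ℤ) ≤ M ^ d := one_le_pow₀ hM
  obtain ⟨t, ht0, htA, ht⟩ := sg_siegel (Matrix.of fun (v : V0) (p : SgI d) => sgRow d v.1 p)
    (M ^ d) hMd (fun v p => sgRow_abs d v.1 M hM (h1 _ v.2) (h2 _ v.2) (h3 _ v.2) p)
    (by rw [Fintype.card_coe]; omega) 1 (by rw [Fintype.card_coe]; omega)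
  have hcast : 2 * (Fintype.card (SgI d) : ℤ) = (d + 1) * (d + 2) := by exact_mod_cast hn
  have hle : ((Fintype.card (SgI d) : ℤ) * M ^ d) ^ 1 ≤ (d + 1) * (d + 2) * M ^ d := by
    rw [pow_one, ← hcast]
    have : 0 ≤ (Fintype.card (SgI d) : ℤ) * M ^ d := by positivity
    nlinarith
  refine ⟨sgPol d t, sgPol_ne_zero d t ht0, sgPol_tdg d t, ?_, ?_⟩
  · exact sgPol_bound d t _ (by positivity) fun p => (ht p).trans hle
  · intro v hv
    rw [sg_hm_pol]
    exact congrFun htA ⟨v, hv⟩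

/-- The bounded representative of a curve through many points.  Let `Z` be a set of lines with
entries at most `M` on which some non-zero polynomial of total degree at most `e` vanishes.  Then a
non-zero integer polynomial of total degree at most `e` and small height vanishes on `Z`.
Proof.  Let `n = (e+1)(e+2)/2` and let `A` be the matrix of the evaluations `hm e · v`, `v ∈ Z`
(`|Z|` rows, `n` columns, entries at most `M ^ e`).  It has a non-zero kernel vector, so its rank is
`r < n`; choose `r` linearly independent rows (over `ℚ`) spanning the row space; Siegel's lemma for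
these `r < n` equations gives a non-zero integer solution with entries at most
`(n * M ^ e) ^ (r / (n - r)) ≤ (n * M ^ e) ^ n` (if `r = 0` take `1`), and it is killed by all the rows. -/
theorem exists_bounded_form (e : ℕ) (M : ℤ) (hM : 1 ≤ M) (Z : Finset Ln)
    (h1 : ∀ v ∈ Z, |v.1| ≤ M) (h2 : ∀ v ∈ Z, |v.2.1| ≤ M) (h3 : ∀ v ∈ Z, |v.2.2| ≤ M)
    (P : ℤ[X][X]) (hP : P ≠ 0) (hPe : tdg P ≤ e) (hPZ : ∀ v ∈ Z, hm e P v = 0) :
    ∃ F : ℤ[X][X], F ≠ 0 ∧ tdg F ≤ e ∧
      (∀ j i, |(F.coeff j).coeff i| ≤ (((e + 1) * (e + 2) : ℤ) * M ^ e) ^ ((e + 1) * (e + 2))) ∧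
      ∀ v ∈ Z, hm e F v = 0 := by
  have hn := sg_card e
  have hMd : (1 : ℤ) ≤ M ^ e := one_le_pow₀ hM
  -- the rows over the rationals
  let r : Ln → (SgI e → ℚ) := fun v p => (sgRow e v p : ℚ)
  obtain ⟨b, hbs, hbspan, hbli⟩ := exists_linearIndependent ℚ (r '' (Z : Set Ln))
  have hbfin : b.Finite := (Z.finite_toSet.image r).subset hbs
  have : Fintype b := hbfin.fintype
  -- the kernel vector
  let pv : SgI e → ℚ := fun p => ((P.coeff p.1.val).coeff p.2.val : ℚ)
  have hpv : pv ≠ 0 := by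
    intro h
    apply hP
    ext j i
    rw [coeff_zero, coeff_zero]
    by_contra hcon
    have h4 := (tdg_le_iff P e).1 hPe j i hcon
    have h5 := congrFun h ⟨⟨j, by omega⟩, ⟨i, by simp only; omega⟩⟩
    apply hcon
    have h6 : ((P.coeff j).coeff i : ℚ) = 0 := h5
    exact_mod_cast h6
  let φ : (SgI e → ℚ) →ₗ[ℚ] ℚ := ∑ p, pv p • LinearMap.proj p
  have hφ : ∀ x, φ x = ∑ p, pv p * x p := by
    intro x
    simp [φ]
  have hφ0 : φ ≠ 0 := by
    intro h
    obtain ⟨p, hp⟩ := Function.ne_iff.1 hpv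
    have h4 := hφ pv
    rw [h, LinearMap.zero_apply] at h4
    have h5 : ∀ q ∈ (Finset.univ : Finset (SgI e)), 0 ≤ pv q * pv q := fun q _ => mul_self_nonneg _
    have h6 := (Finset.sum_eq_zero_iff_of_nonneg h5).1 h4.symm p (Finset.mem_univ p)
    exact hp (mul_self_eq_zero.1 h6)
  have hbker : ∀ x ∈ b, φ x = 0 := by
    intro x hx
    obtain ⟨v, hv, rfl⟩ := hbs hx
    rw [hφ]
    have h4 := hPZ v hv
    rw [sg_hm] at h4
    have h5 := congrArg (fun z : ℤ => (z : ℚ)) h4
    push_cast at h5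
    rw [← h5]
    apply Finset.sum_congr rfl
    intro p _
    show ((P.coeff p.1.val).coeff p.2.val : ℚ) * (sgRow e v p : ℚ) = _
    rw [mul_comm]
  have hcardb : Fintype.card b < Fintype.card (SgI e) := by
    have h4 : Submodule.span ℚ b ≤ LinearMap.ker φ := by
      rw [Submodule.span_le]
      intro x hx
      exact LinearMap.mem_ker.2 (hbker x hx)
    have h5 : LinearMap.ker φ < ⊤ := by
      rw [lt_top_iff_ne_top, Ne, LinearMap.ker_eq_top]
      exact hφ0
    have h6 : Module.finrank ℚ (Submodule.span ℚ b) < Module.finrank ℚ (SgI e → ℚ) :=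
      Submodule.finrank_lt (lt_of_le_of_lt h4 h5).ne
    have h7 : Module.finrank ℚ (Submodule.span ℚ b) = Fintype.card b := by
      rw [finrank_span_set_eq_card hbli, Set.toFinset_card]
    rw [h7, Module.finrank_fintype_fun_eq_card] at h6
    exact h6
  have hch : ∀ x : b, ∃ v ∈ Z, r v = x.1 := fun x => hbs x.2
  choose w hwZ hw using hch
  obtain ⟨t, ht0, htA, ht⟩ := sg_siegel (Matrix.of fun (x : b) (p : SgI e) => sgRow e (w x) p)
    (M ^ e) hMd
    (fun v p => sgRow_abs e _ M hM (h1 _ (hwZ v)) (h2 _ (hwZ v)) (h3 _ (hwZ v)) p)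
    hcardb (Fintype.card (SgI e)) (by
      have h4 : 1 ≤ Fintype.card (SgI e) - Fintype.card b := by omega
      calc Fintype.card b ≤ Fintype.card (SgI e) * 1 := by omega
        _ ≤ _ := Nat.mul_le_mul_left _ h4)
  have hcast : 2 * (Fintype.card (SgI e) : ℤ) = (e + 1) * (e + 2) := by exact_mod_cast hn
  have hle : ((Fintype.card (SgI e) : ℤ) * M ^ e) ^ Fintype.card (SgI e) ≤
      (((e + 1) * (e + 2) : ℤ) * M ^ e) ^ ((e + 1) * (e + 2)) := by
    have h4 : (Fintype.card (SgI e) : ℤ) * M ^ e ≤ ((e + 1) * (e + 2) : ℤ) * M ^ e := by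
      rw [← hcast]
      have : 0 ≤ (Fintype.card (SgI e) : ℤ) * M ^ e := by positivity
      nlinarith
    have h5 : 1 ≤ ((e + 1) * (e + 2) : ℤ) * M ^ e := by
      have h6 : (1 : ℤ) ≤ (e + 1) * (e + 2) := by nlinarith
      nlinarith
    exact (pow_le_pow_left₀ (by positivity) h4 _).trans (pow_le_pow_right₀ h5 (by omega))
  refine ⟨sgPol e t, sgPol_ne_zero e t ht0, sgPol_tdg e t, ?_, ?_⟩
  · exact sgPol_bound e t _ (by positivity) fun p => (ht p).trans hle
  · intro v hv
    rw [sg_hm_pol]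
    -- the functional of t kills the span
    let ψ : (SgI e → ℚ) →ₗ[ℚ] ℚ := ∑ p, (t p : ℚ) • LinearMap.proj p
    have hψ : ∀ x, ψ x = ∑ p, (t p : ℚ) * x p := by
      intro x
      simp [ψ]
    have hψr : ∀ v, ψ (r v) = ((∑ p : SgI e, sgRow e v p * t p : ℤ) : ℚ) := by
      intro v
      rw [hψ]
      push_cast
      apply Finset.sum_congr rfl
      intro p _
      rw [mul_comm]
    have h4 : Submodule.span ℚ b ≤ LinearMap.ker ψ := by
      rw [Submodule.span_le]
      intro x hx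
      rw [SetLike.mem_coe, LinearMap.mem_ker]
      have h5 := hw ⟨x, hx⟩
      simp only at h5
      rw [← h5, hψr]
      have h6 := congrFun htA ⟨x, hx⟩
      have h7 : ∑ p : SgI e, sgRow e (w ⟨x, hx⟩) p * t p = 0 := h6
      rw [h7, Int.cast_zero]
    have h5 : r v ∈ Submodule.span ℚ b := by
      rw [hbspan]
      exact Submodule.subset_span ⟨v, hv, rfl⟩
    have h6 := LinearMap.mem_ker.1 (h4 h5)
    rw [hψr] at h6
    exact_mod_cast h6

end FDP
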