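import Pool.Agent.W_fd120a_h8.PC
import Pool.Agent.W_fd120a_h8.Cong
import Pool.Agent.W_fd120a_h8.Siegel

set_option autoImplicit false

open Finset Polynomial
open scoped Classical

namespace FDP

theorem local_six (d : ℕ) (hd : 1 ≤ d) : (d + 1) * (d + 2) ≤ 6 ^ d := by
  induction d, hd using Nat.le_induction with
  | base => norm_num
  | succ n hn ih =>
    rw [pow_succ]
    nlinarith

theorem local_four (d : ℕ) : (d + 1) ^ 2 ≤ 4 ^ d := by
  induction d with
  | zero => norm_num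
  | succ n ih =>
    have h1 : (n + 1 + 1) ^ 2 ≤ (n + 1) ^ 2 * 4 := by
      have h2 : (n + 1) ^ 2 * 4 = (n + 1 + 1) ^ 2 + (3 * n ^ 2 + 4 * n) := by ring
      omega
    rw [pow_succ 4 n]
    exact h1.trans (Nat.mul_le_mul_right 4 ih)

/-- the height of the form -/
theorem local_height (b L d : ℕ) (hb : 1000 ≤ b) (hL : 1000 ≤ L) (hd : 1 ≤ d) :
    ((d : ℤ) + 1) * (d + 2) * ((L : ℤ) ^ (51 * b + 10)) ^ d ≤ (L : ℤ) ^ (52 * b * d) := by
  have h1 : (d + 1) * (d + 2) ≤ L ^ d := (local_six d hd).trans (Nat.pow_le_pow_left (by omega) d)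
  have h2 : ((d : ℤ) + 1) * (d + 2) ≤ (L : ℤ) ^ d := by exact_mod_cast h1
  have hL1 : (1 : ℤ) ≤ L := by exact_mod_cast (show 1 ≤ L by omega)
  calc ((d : ℤ) + 1) * (d + 2) * ((L : ℤ) ^ (51 * b + 10)) ^ d
      ≤ (L : ℤ) ^ d * ((L : ℤ) ^ (51 * b + 10)) ^ d :=
        mul_le_mul_of_nonneg_right h2 (by positivity)
    _ = (L : ℤ) ^ ((51 * b + 11) * d) := by
        rw [← pow_mul, ← pow_add]
        congr 1
        ring
    _ ≤ (L : ℤ) ^ (52 * b * d) :=
        pow_le_pow_right₀ hL1 (Nat.mul_le_mul_right d (by omega))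

/-- the size of the numbers `A w` -/
theorem local_A (b L d : ℕ) (hb : 1000 ≤ b) (hL : 1000 ≤ L) (hd : 1 ≤ d) :
    ((d : ℤ) + 1) ^ 2 * (2 ^ d * (L : ℤ) ^ (52 * b * d)) * ((L : ℤ) ^ (51 * b + 10)) ^ d <
      ((L ^ (2 * b - 1) : ℕ) : ℤ) ^ (60 * d + 1) := by
  have h1 : (d + 1) ^ 2 * 2 ^ d ≤ L ^ d := by
    calc (d + 1) ^ 2 * 2 ^ d ≤ 4 ^ d * 2 ^ d := Nat.mul_le_mul_right _ (local_four d)
      _ = 8 ^ d := by rw [← Nat.mul_pow]
      _ ≤ L ^ d := Nat.pow_le_pow_left (by omega) d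
  have h2 : ((d : ℤ) + 1) ^ 2 * 2 ^ d ≤ (L : ℤ) ^ d := by exact_mod_cast h1
  have hL1 : (1 : ℤ) < L := by exact_mod_cast (show 1 < L by omega)
  calc ((d : ℤ) + 1) ^ 2 * (2 ^ d * (L : ℤ) ^ (52 * b * d)) * ((L : ℤ) ^ (51 * b + 10)) ^ d
      = (((d : ℤ) + 1) ^ 2 * 2 ^ d) * ((L : ℤ) ^ (52 * b * d) * ((L : ℤ) ^ (51 * b + 10)) ^ d) := by
        ring
    _ ≤ (L : ℤ) ^ d * ((L : ℤ) ^ (52 * b * d) * ((L : ℤ) ^ (51 * b + 10)) ^ d) :=
        mul_le_mul_of_nonneg_right h2 (by positivity)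
    _ = (L : ℤ) ^ ((103 * b + 11) * d) := by
        rw [← pow_mul, ← pow_add, ← pow_add]
        congr 1
        ring
    _ < (L : ℤ) ^ ((2 * b - 1) * (60 * d + 1)) := by
        refine pow_lt_pow_right₀ hL1 ?_
        obtain ⟨c, hc⟩ : ∃ c, 2 * b - 1 = c := ⟨_, rfl⟩
        rw [hc]
        have hc1 : 2 * b = c + 1 := by omega
        nlinarith
    _ = ((L ^ (2 * b - 1) : ℕ) : ℤ) ^ (60 * d + 1) := by
        push_cast
        rw [← pow_mul]

/-- the number of bad neighbours -/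
theorem local_bad (b L d : ℕ) (hL : 1000 ≤ L) (V : Finset Ln) (hV : Adm b L V)
    (G : Finset (Ln × Ln)) (hG : ∀ e ∈ G, e.1 ∈ V ∧ e.2 ∈ V ∧ IsEdge b L e.1 e.2)
    (V0 : Finset Ln) (hV0 : V0 ⊆ V) (w : Ln) (hw : w ∈ V) (A : ℤ) (hA : A ≠ 0)
    (hAl : |A| < ((L ^ (2 * b - 1) : ℕ) : ℤ) ^ (60 * d + 1)) :
    (V0.filter (fun v => (v, w) ∈ G ∧ ((dt v w).natAbs : ℤ) ∣ A)).card ≤ d * L ^ 11 := by
  set T := V0.filter (fun v => (v, w) ∈ G ∧ ((dt v w).natAbs : ℤ) ∣ A) with hT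
  set f : Ln → ℕ := fun v => (dt v w).natAbs with hf
  have h1 : T.card ≤ (2 * L ^ 10) * (T.image f).card := by
    refine Finset.card_le_mul_card_image _ _ ?_
    intro p _
    have hsub : T.filter (fun v => f v = p) ⊆
        V.filter (fun v => dt v w = (p : ℤ)) ∪ V.filter (fun v => dt v w = -(p : ℤ)) := by
      intro v hv
      rw [mem_filter] at hv
      have h2 : v ∈ V := hV0 (mem_filter.1 hv.1).1
      have h3 : (dt v w).natAbs = p := hv.2
      rw [mem_union, mem_filter, mem_filter]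
      rcases Int.natAbs_eq (dt v w) with h4 | h4
      · left
        exact ⟨h2, by rw [h4, h3]⟩
      · right
        exact ⟨h2, by rw [h4, h3]⟩
    refine (Finset.card_le_card hsub).trans ((Finset.card_union_le _ _).trans ?_)
    have h4 := hV.inj w hw (p : ℤ)
    have h5 := hV.inj w hw (-(p : ℤ))
    omega
  have h2 : (T.image f).card ≤ 60 * d := by
    have h3 := primeDiv_card A hA (L ^ (2 * b - 1)) (60 * d) (Nat.one_le_pow _ _ (by omega)) hAl
      (T.image f) (by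
        intro p hp
        obtain ⟨v, hv, rfl⟩ := mem_image.1 hp
        obtain ⟨-, hvG, -⟩ := mem_filter.1 hv
        obtain ⟨D, hD1, hD2, -, hD3, -⟩ := (hG _ hvG).2.2
        have h4 : (dt v w).natAbs = D := by
          have h5 : |dt v w| = (D : ℤ) := hD3
          rw [Int.abs_eq_natAbs] at h5
          exact_mod_cast h5
        show (dt v w).natAbs.Prime ∧ L ^ (2 * b - 1) < (dt v w).natAbs
        rw [h4]
        exact ⟨hD1, hD2⟩)
    refine le_trans ?_ h3
    refine Finset.card_le_card_of_injOn (fun p : ℕ => (p : ℤ)) ?_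
      (fun p _ p' _ h => by simpa using h)
    intro p hp
    obtain ⟨v, hv, rfl⟩ := mem_image.1 (Finset.mem_coe.1 hp)
    have h5 := (mem_filter.1 hv).2.2
    rw [Finset.mem_coe, Finset.mem_filter]
    refine ⟨?_, h5⟩
    exact (@Finset.mem_sup _ _ (fun a b => Classical.propDecidable (a = b)) _ _ _).2
      ⟨f v, Finset.mem_coe.1 hp, Finset.mem_singleton_self _⟩
  calc T.card ≤ (2 * L ^ 10) * (T.image f).card := h1
    _ ≤ (2 * L ^ 10) * (60 * d) := Nat.mul_le_mul_left _ h2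
    _ = d * (L ^ 10 * 120) := by ring
    _ ≤ d * (L ^ 10 * L) := by gcongr; omega
    _ = d * L ^ 11 := by ring

/-- The local theorem, first form.
Proof.  Let `n = |V| ≤ L ^ (2b+31)` (`adm_card`), `g = L ^ (2b-q-32)`; by `high_degree` at least
`L ^ (2b-q-32)` lines have degree at least `g` in `G`.  Put `d = L ^ (q+75)` and let `V0` be a set of
`(d+1)(d+2)/4` (rounded down) of these lines (possible: `d ^ 2 ≤ L ^ (2b-q-32)`).  `exists_form` (with
`M = L ^ (51b+10)`) gives `F ≠ 0`, `tdg F ≤ d`, coefficients at most `(d+1)(d+2) M ^ d ≤ L ^ (52 b d)`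
(as `(d+1)(d+2) ≤ 6 ^ d`), vanishing on `V0`.  Let `X0` be the set of the exceptional lines
(`exc_card`: at most `2 d L ^ 10`, and `8 d L ^ 10 ≤ g`).  For `w ∈ V`, not exceptional, let `A w` be
given by `exists_A`; `0 < |A w| ≤ L ^ (104 b d) < (L ^ (2b-1)) ^ (60 d + 1)`, so at most `60 d` primes
`D > L ^ (2b-1)` divide `A w` (`primeDiv_card`).  Call `(v, w)` bad if `w ∉ X0` and the prime `|dt v w|`
divides `A w`: for every `w` there are at most `60 d * 2 * L ^ 10 ≤ d L ^ 11` bad `v ∈ V0` (`Adm.inj`).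
`select` (with `β = d L ^ 11`: `4 n β ≤ |V0| g`) gives `v ∈ V0` with at least `g / 2` neighbours `w`,
neither bad nor exceptional; let `W` be their set.  Let `Ψ` be an irreducible factor of `F` that
vanishes at `v` (`exists_factor`).  For `w ∈ W`, with `D = |dt v w|`: `D ∣ hm (tdg Ψ) Ψ w`
(`edge_dvd`), and if `Ψ` did not vanish at `w` then `hm (tdg Ψ) Ψ w ∣ A w`, so `D ∣ A w`, impossible.
So `Ψ` vanishes on `W`.  If `tdg Ψ = 1`, `linear_case` gives the point `z` (the edge is `(v, w)` for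
any `w ∈ W`; `|W| ≥ g / 2 ≥ L ^ (2b-q-33)`).  If `tdg Ψ ≥ 2`, `point_count` gives
`|W| ≤ d ^ 3 L ^ 18 + L ^ (b + b/4 + 14) + d L ^ 11 < g / 2`, a contradiction: this is where
`q ≤ b / 2 - 140` is used (`3 (q + 75) + 18 + 1 < 2b - q - 34` and `b + b/4 + 15 < 2b - q - 34`). -/
theorem local1 (b : ℕ) (hb : 1000 ≤ b) (h4 : 4 ∣ b) : LocalThm b (b / 2 - 140) 33 := by
  obtain ⟨L1, hL1⟩ := point_count b hb h4
  refine ⟨max L1 1000, fun L hL q hq V hV G hG hGc => ?_⟩
  have hL1' : L1 ≤ L := (le_max_left _ _).trans hL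
  have hL0 : 1000 ≤ L := (le_max_right _ _).trans hL
  have hpos : 0 < L := by omega
  have hLZ : (1 : ℤ) ≤ L := by exact_mod_cast hpos
  -- size of `V`
  have hn := adm_card b L (by omega) V hV
  obtain ⟨g, hg⟩ : ∃ g, g = L ^ (2 * b - q - 32) := ⟨_, rfl⟩
  have hgpos : 0 < g := by
    rw [hg]
    exact Nat.pow_pos hpos
  have hg1 : 2 * g * V.card ≤ G.card := by
    calc 2 * g * V.card ≤ L * g * L ^ (2 * b + 31) := by gcongr; omega
      _ = L ^ (4 * b - q) := by
          rw [hg, ← pow_succ', ← pow_add]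
          congr 1
          omega
      _ ≤ G.card := hGc
  obtain ⟨Hi, hHi⟩ : ∃ Hi, Hi = V.filter (fun v => g ≤ (V.filter (fun w => (v, w) ∈ G)).card) :=
    ⟨_, rfl⟩
  have hhd : G.card ≤ 2 * V.card * Hi.card := by
    rw [hHi]
    convert high_degree V G (fun e he => ⟨(hG e he).1, (hG e he).2.1⟩) g hg1
  have hHic : L ^ (2 * b - q - 32) ≤ Hi.card := by
    have h1 : L ^ (2 * b + 31) * L ^ (2 * b - q - 31) ≤ L ^ (2 * b + 31) * (2 * Hi.card) := by
      calc L ^ (2 * b + 31) * L ^ (2 * b - q - 31) = L ^ (4 * b - q) := by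
            rw [← pow_add]
            congr 1
            omega
        _ ≤ G.card := hGc
        _ ≤ 2 * V.card * Hi.card := hhd
        _ ≤ 2 * L ^ (2 * b + 31) * Hi.card := by gcongr
        _ = L ^ (2 * b + 31) * (2 * Hi.card) := by ring
    have h2 : L ^ (2 * b - q - 31) ≤ 2 * Hi.card :=
      Nat.le_of_mul_le_mul_left h1 (Nat.pow_pos hpos)
    have h3 : L ^ (2 * b - q - 31) = L ^ (2 * b - q - 32) * L := by
      rw [← pow_succ]
      congr 1
      omega
    rw [h3] at h2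
    have h4 : L ^ (2 * b - q - 32) * 2 ≤ L ^ (2 * b - q - 32) * L := by gcongr; omega
    omega
  -- the form
  obtain ⟨d, hd⟩ : ∃ d, d = L ^ (q + 75) := ⟨_, rfl⟩
  have hd1000 : 1000 ≤ d := by
    rw [hd]
    calc 1000 ≤ L ^ 1 := by rw [pow_one]; exact hL0
      _ ≤ L ^ (q + 75) := Nat.pow_le_pow_right hpos (by omega)
  have hd1 : 1 ≤ d := by omega
  have hcard0 : (d + 1) * (d + 2) / 4 ≤ Hi.card := by
    have h1 : (d + 1) * (d + 2) / 4 ≤ d ^ 2 := by
      apply Nat.div_le_of_le_mul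
      nlinarith
    have h2 : d ^ 2 ≤ L ^ (2 * b - q - 32) := by
      rw [hd, ← pow_mul]
      exact Nat.pow_le_pow_right hpos (by omega)
    exact h1.trans (h2.trans hHic)
  obtain ⟨V0, hV0Hi, hV0c⟩ := Finset.exists_subset_card_eq hcard0
  have hV0V : V0 ⊆ V := hV0Hi.trans (by rw [hHi]; exact Finset.filter_subset _ _)
  have hV04 : d ^ 2 ≤ 4 * V0.card := by
    rw [hV0c]
    have h1 : (d + 1) * (d + 2) < 4 * ((d + 1) * (d + 2) / 4) + 4 := by
      omega
    have h2 : (d + 1) * (d + 2) = d ^ 2 + 3 * d + 2 := by ring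
    omega
  have hV0ne : V0.Nonempty := by
    rw [← Finset.card_pos]
    have h1 : 0 < d ^ 2 := Nat.pow_pos hd1
    omega
  obtain ⟨M, hM⟩ : ∃ M : ℤ, M = (L : ℤ) ^ (51 * b + 10) := ⟨_, rfl⟩
  have hM1 : 1 ≤ M := by
    rw [hM]
    exact one_le_pow₀ hLZ
  have hbM : ∀ v ∈ V, |v.1| ≤ M ∧ |v.2.1| ≤ M ∧ |v.2.2| ≤ M := by
    intro v hv
    have h1 : (L : ℤ) ^ (b + 10) ≤ M := by
      rw [hM]
      exact pow_le_pow_right₀ hLZ (by omega)
    refine ⟨(hV.bx v hv).trans h1, (hV.bdy v hv).trans h1, ?_⟩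
    rw [hM]
    exact hV.bc v hv
  obtain ⟨F, hF0, hFd, hFH0, hFV0⟩ := exists_form d M hM1 V0 (fun v hv => (hbM v (hV0V hv)).1)
    (fun v hv => (hbM v (hV0V hv)).2.1) (fun v hv => (hbM v (hV0V hv)).2.2) (by
      rw [hV0c]
      exact Nat.mul_div_le _ _)
  have hFH : ∀ j i, |(F.coeff j).coeff i| ≤ (L : ℤ) ^ (52 * b * d) := by
    intro j i
    refine (hFH0 j i).trans ?_
    rw [hM]
    exact local_height b L d hb hL0 hd1
  -- exceptional lines
  obtain ⟨X0, hX0⟩ : ∃ X0, X0 = V.filter (fun v => Exc F v) := ⟨_, rfl⟩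
  have hX0c : 4 * X0.card ≤ g := by
    have h1 := exc_card b L V hV F hF0
    rw [← hX0] at h1
    calc 4 * X0.card ≤ 4 * (2 * tdg F * L ^ 10) := by gcongr
      _ ≤ 4 * (2 * d * L ^ 10) := by gcongr
      _ = 8 * (d * L ^ 10) := by ring
      _ ≤ L * (d * L ^ 10) := by gcongr; omega
      _ = L ^ (q + 86) := by
          rw [hd]
          ring
      _ ≤ g := by
          rw [hg]
          exact Nat.pow_le_pow_right hpos (by omega)
  -- the numbers `A w`
  have hAex : ∀ w ∈ V, w ∉ X0 → ∃ A : ℤ, A ≠ 0 ∧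
      |A| < ((L ^ (2 * b - 1) : ℕ) : ℤ) ^ (60 * d + 1) ∧
      ∀ Ψ : ℤ[X][X], Ψ ∣ F → ¬ Van Ψ w → hm (tdg Ψ) Ψ w ∣ A := by
    intro w hw hwX
    have hexc : ¬ Exc F w := by
      intro h
      apply hwX
      rw [hX0, mem_filter]
      exact ⟨hw, h⟩
    obtain ⟨A, hA0, hA1, hA2⟩ := exists_A d F hF0 hFd ((L : ℤ) ^ (52 * b * d)) M hM1 hFH w
      (hV.ynz w hw) (hbM w hw).1 (hbM w hw).2.1 (hbM w hw).2.2 hexc
    refine ⟨A, hA0, ?_, fun Ψ hΨ h => (hA2 Ψ hΨ).1 h⟩
    rw [hM] at hA1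
    exact lt_of_le_of_lt hA1 (local_A b L d hb hL0 hd1)
  choose! A hA0 hA1 hA2 using hAex
  -- selection
  obtain ⟨v, hvV0, hvg⟩ := select V G (fun e he => (hG e he).2.1) V0 hV0ne g (d * L ^ 11)
    (fun v hv => by
      have h1 := hV0Hi hv
      rw [hHi, mem_filter] at h1
      convert h1.2)
    (fun v w => w ∉ X0 ∧ ((dt v w).natAbs : ℤ) ∣ A w)
    (fun w hw => by
      by_cases hwX : w ∈ X0
      · have h1 : V0.filter (fun v => (v, w) ∈ G ∧ w ∉ X0 ∧ ((dt v w).natAbs : ℤ) ∣ A w) = ∅ := by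
          refine Finset.filter_false_of_mem ?_
          intro v _ h
          exact h.2.1 hwX
        have h2 : (V0.filter
            (fun v => (v, w) ∈ G ∧ w ∉ X0 ∧ ((dt v w).natAbs : ℤ) ∣ A w)).card ≤ d * L ^ 11 := by
          rw [h1, Finset.card_empty]
          exact Nat.zero_le _
        convert h2
      · have h2 : (V0.filter
            (fun v => (v, w) ∈ G ∧ w ∉ X0 ∧ ((dt v w).natAbs : ℤ) ∣ A w)).card ≤ d * L ^ 11 := by
          refine le_trans (Finset.card_le_card ?_)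
            (local_bad b L d hL0 V hV G hG V0 hV0V w hw (A w) (hA0 w hw hwX) (hA1 w hw hwX))
          intro v hv
          rw [mem_filter] at hv ⊢
          exact ⟨hv.1, hv.2.1, hv.2.2.2⟩
        convert h2)
    X0 hX0c (by
      have h1 : 16 * (V.card * (d * L ^ 11)) ≤ d ^ 2 * g := by
        calc 16 * (V.card * (d * L ^ 11)) ≤ L * (L ^ (2 * b + 31) * (d * L ^ 11)) := by
              gcongr; omega
          _ = d * L ^ (2 * b + 43) := by
              have : L ^ (2 * b + 43) = L * (L ^ (2 * b + 31) * L ^ 11) := by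
                rw [← pow_add, ← pow_succ']
              rw [this]
              ring
          _ = d * (L ^ (q + 75) * L ^ (2 * b - q - 32)) := by
              rw [← pow_add]
              congr 2
              omega
          _ = d ^ 2 * g := by
              rw [← hd, ← hg]
              ring
      have h2 : d ^ 2 * g ≤ 4 * V0.card * g := Nat.mul_le_mul_right _ hV04
      have h3 : 4 * V0.card * g = 4 * (V0.card * g) := by ring
      omega)
  have hvV := hV0V hvV0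
  have hvy := hV.ynz v hvV
  obtain ⟨W, hW⟩ : ∃ W, W = V.filter (fun w => (v, w) ∈ G ∧
      ¬ (w ∉ X0 ∧ ((dt v w).natAbs : ℤ) ∣ A w) ∧ w ∉ X0) := ⟨_, rfl⟩
  have hWg : g ≤ 2 * W.card := by
    rw [hW]
    convert hvg
  have hWmem : ∀ w ∈ W, w ∈ V ∧ (v, w) ∈ G ∧ ¬ ((dt v w).natAbs : ℤ) ∣ A w ∧ w ∉ X0 := by
    intro w hw
    rw [hW, mem_filter] at hw
    exact ⟨hw.1, hw.2.1, fun h => hw.2.2.1 ⟨hw.2.2.2, h⟩, hw.2.2.2⟩
  have hWne : W.Nonempty := by
    rw [← Finset.card_pos]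
    omega
  -- the component
  have hFv : Van F v := (van_iff d F hFd v hvy).2 (hFV0 v hvV0)
  obtain ⟨Ψ, hΨ1, hΨ2, hΨ3⟩ := exists_factor F hF0 v hFv
  have hΨd : tdg Ψ ≤ d := by
    obtain ⟨R, hR⟩ := hΨ2
    have hR0 : R ≠ 0 := by
      rintro rfl
      rw [mul_zero] at hR
      exact hF0 hR
    have h1 := tdg_mul Ψ R hΨ1.ne_zero hR0
    rw [← hR] at h1
    omega
  have hWV : ∀ w ∈ W, Van Ψ w := by
    intro w hw
    obtain ⟨hwV, hwG, hwA, hwX⟩ := hWmem w hw
    by_contra hcon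
    apply hwA
    obtain ⟨D, hD1, hD2, -, hD3, z, hz1, hz2⟩ := (hG _ hwG).2.2
    have h1 := edge_dvd b L (by omega) (by omega) v w hvy (hV.ynz w hwV) (hV.bdy v hvV)
      (hV.bdy w hwV) D hD1 hD2 hD3 z hz1 hz2 Ψ hΨ3 (tdg Ψ) le_rfl
    have h2 : (dt v w).natAbs = D := by
      have h5 : |dt v w| = (D : ℤ) := hD3
      rw [Int.abs_eq_natAbs] at h5
      exact_mod_cast h5
    rw [h2]
    exact h1.trans (hA2 w hwV hwX Ψ hΨ2 hcon)
  rcases Nat.lt_or_ge (tdg Ψ) 2 with he | he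
  · -- the linear case
    have he1 : tdg Ψ = 1 := by
      have := one_le_tdg Ψ hΨ1 v hΨ3
      omega
    obtain ⟨z, hz1, hz2⟩ := linear_case Ψ he1 v hvy hΨ3 W hWne (by
      intro w hw
      obtain ⟨hwV, hwG, -, -⟩ := hWmem w hw
      obtain ⟨D, hD1, hD2, -, hD3, z, hz1, hz2⟩ := (hG _ hwG).2.2
      refine ⟨hV.ynz w hwV, hWV w hw, ?_, z, hz1, hz2⟩
      intro h0
      have h5 : |dt v w| = (D : ℤ) := hD3
      rw [h0, abs_zero] at h5
      have h6 := hD1.pos
      omega)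
    obtain ⟨w, hw⟩ := hWne
    refine ⟨(v, w), (hWmem w hw).2.1, z, hz1, hz2 w hw, ?_⟩
    have h1 : W ⊆ V.filter (fun v => On v z) := by
      intro w' hw'
      rw [mem_filter]
      exact ⟨(hWmem w' hw').1, hz2 w' hw'⟩
    have h2 := Finset.card_le_card h1
    have h3 : g = L ^ (2 * b - q - 33) * L := by
      rw [hg, ← pow_succ]
      congr 1
      omega
    have h4 : L ^ (2 * b - q - 33) * 2 ≤ L ^ (2 * b - q - 33) * L := by gcongr; omega
    omega
  · -- the curve case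
    exfalso
    have hPCH : PCH b L V d F Ψ :=
      { adm := hV
        hd1 := hd1
        hdL := by
          rw [hd]
          exact Nat.pow_le_pow_right hpos (by omega)
        F0 := hF0
        Fd := hFd
        FH := hFH
        dvd := hΨ2
        irr := hΨ1
        e2 := he }
    have h1 := hL1 L hL1' V d F Ψ hPCH (by
      rw [hd, ← pow_add]
      exact Nat.pow_le_pow_right hpos (by omega))
    have h2 : W.card ≤ (V.filter (fun v => Van Ψ v)).card := by
      refine Finset.card_le_card fun w hw => ?_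
      rw [mem_filter]
      exact ⟨(hWmem w hw).1, hWV w hw⟩
    obtain ⟨g', hg'⟩ : ∃ g', g' = L ^ (2 * b - q - 34) := ⟨_, rfl⟩
    have hg'pos : 0 < g' := by
      rw [hg']
      exact Nat.pow_pos hpos
    have h3 : d ^ 2 * tdg Ψ * L ^ 18 ≤ g' := by
      calc d ^ 2 * tdg Ψ * L ^ 18 ≤ d ^ 2 * d * L ^ 18 := by gcongr
        _ = L ^ (3 * (q + 75) + 18) := by
            rw [← pow_succ, hd, ← pow_mul, ← pow_add, Nat.mul_comm (q + 75) (2 + 1)]
        _ ≤ g' := by
            rw [hg']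
            exact Nat.pow_le_pow_right hpos (by omega)
    have h4 : L ^ (b + b / 4 + 14) ≤ g' := by
      rw [hg']
      exact Nat.pow_le_pow_right hpos (by omega)
    have h5 : d * L ^ 11 ≤ g' := by
      rw [hd, ← pow_add, hg']
      exact Nat.pow_le_pow_right hpos (by omega)
    have h6 : g = g' * L ^ 2 := by
      rw [hg, hg', ← pow_add]
      congr 1
      omega
    have h7 : g' * 7 ≤ g' * L ^ 2 := by
      refine Nat.mul_le_mul_left _ ?_
      nlinarith
    omega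

end FDP
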