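import Pool.Agent.W_fd120a_h8.PCA
import Pool.Agent.W_fd120a_h8.Siegel
import Pool.Agent.W_fd120a_h8.Local

set_option autoImplicit false

open Finset Polynomial
open scoped Classical

namespace FDP

theorem bform_sq (e : ℕ) (he : 1 ≤ e) : (e + 1) * (e + 2) ≤ 6 * e ^ 2 := by
  nlinarith

/-- Medium degree.
Proof.  Let `e = tdg Ψ`, `Z` the set of the points, `M = L^(51b+10)`.  `exists_bounded_form`
(Siegel.lean, with `P = Ψ`) gives `F1 ≠ 0`, `tdg F1 ≤ e`, coefficients at most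
`((e+1)(e+2) M^e) ^ ((e+1)(e+2)) ≤ L^(52 b * 6 e^3)` (as `(e+1)(e+2) ≤ 6 e^2` and
`(e+1)(e+2) M^e ≤ L^(52 b e)`, `local_height` in Local.lean or directly), vanishing on `Z`
(`van_iff`).  If `Ψ ∤ F1` then `|Z| ≤ 2 e^2 L^10` by `bezout_card`.  If `Ψ ∣ F1`, apply `pcA` with
`F = F1` and `d = 6 e^3 ≤ L^b`: `|Z| ≤ 36 e^7 L^18`. -/
theorem medium_degree (b : ℕ) (hb : 1000 ≤ b) : ∃ L0 : ℕ, ∀ L, L0 ≤ L →
    ∀ (V : Finset Ln), Adm b L V → ∀ Ψ : ℤ[X][X], Irreducible Ψ → 1 ≤ Ψ.natDegree →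
    110 * b < tdg Ψ → tdg Ψ ≤ L ^ 60 →
    (V.filter (fun v => Van Ψ v)).card ≤ tdg Ψ ^ 7 * L ^ 30 := by
  obtain ⟨LA, hA⟩ := pcA b (by omega)
  refine ⟨max LA 1000, fun L hL V hV Ψ hΨ h1 hdeg hdeg2 => ?_⟩
  have hLA : LA ≤ L := (le_max_left _ _).trans hL
  have hL0 : 1000 ≤ L := (le_max_right _ _).trans hL
  have hpos : 0 < L := by omega
  have hLZ : (1 : ℤ) ≤ L := by exact_mod_cast hpos
  obtain ⟨e, he⟩ : ∃ e, e = tdg Ψ := ⟨_, rfl⟩
  rw [← he] at hdeg hdeg2 ⊢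
  have he1 : 1 ≤ e := by omega
  obtain ⟨M, hM⟩ : ∃ M : ℤ, M = (L : ℤ) ^ (51 * b + 10) := ⟨_, rfl⟩
  have hM1 : 1 ≤ M := by
    rw [hM]
    exact one_le_pow₀ hLZ
  have hMb : (L : ℤ) ^ (b + 10) ≤ M := by
    rw [hM]
    exact pow_le_pow_right₀ hLZ (by omega)
  obtain ⟨Z, hZ⟩ : ∃ Z, Z = V.filter (fun v => Van Ψ v) := ⟨_, rfl⟩
  have hZV : ∀ v ∈ Z, v ∈ V ∧ Van Ψ v := by
    intro v hv
    rw [hZ, Finset.mem_filter] at hv
    exact hv
  obtain ⟨F, hF0, hFe, hFH, hFZ⟩ := exists_bounded_form e M hM1 Z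
    (fun v hv => (hV.bx v (hZV v hv).1).trans hMb)
    (fun v hv => (hV.bdy v (hZV v hv).1).trans hMb)
    (fun v hv => by rw [hM]; exact hV.bc v (hZV v hv).1)
    Ψ hΨ.ne_zero (by omega)
    (fun v hv => (van_iff e Ψ (by omega) v (hV.ynz v (hZV v hv).1)).1 (hZV v hv).2)
  have hFV : ∀ v ∈ Z, Van F v := fun v hv =>
    (van_iff e F hFe v (hV.ynz v (hZV v hv).1)).2 (hFZ v hv)
  have hL20 : 36 ≤ L := by omega
  rw [← hZ]
  by_cases hdvd : Ψ ∣ F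
  · -- the point count
    have hd : PCH b L V (6 * e ^ 3) F Ψ := by
      refine ⟨hV, ?_, ?_, hF0, ?_, ?_, hdvd, hΨ, by omega⟩
      · have : 1 ≤ e ^ 3 := Nat.one_le_pow _ _ he1
        omega
      · calc 6 * e ^ 3 ≤ L * (L ^ 60) ^ 3 := by gcongr; omega
          _ = L ^ 181 := by rw [← pow_mul, ← pow_succ']
          _ ≤ L ^ b := Nat.pow_le_pow_right hpos (by omega)
      · have : e ≤ e ^ 3 := Nat.le_self_pow (by norm_num) e
        omega
      · intro j i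
        refine (hFH j i).trans ?_
        have h2 := local_height b L e hb hL0 he1
        rw [← hM] at h2
        have h3 : (1 : ℤ) ≤ ((e : ℤ) + 1) * (e + 2) * M ^ e := by
          have h4 : (1 : ℤ) ≤ M ^ e := one_le_pow₀ hM1
          have h5 : (1 : ℤ) ≤ ((e : ℤ) + 1) * (e + 2) := by nlinarith
          nlinarith
        calc (((e : ℤ) + 1) * (e + 2) * M ^ e) ^ ((e + 1) * (e + 2))
            ≤ ((L : ℤ) ^ (52 * b * e)) ^ ((e + 1) * (e + 2)) :=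
              pow_le_pow_left₀ (by linarith) h2 _
          _ = (L : ℤ) ^ (52 * b * e * ((e + 1) * (e + 2))) := by rw [← pow_mul]
          _ ≤ (L : ℤ) ^ (52 * b * (6 * e ^ 3)) := by
              refine pow_le_pow_right₀ hLZ ?_
              calc 52 * b * e * ((e + 1) * (e + 2)) ≤ 52 * b * e * (6 * e ^ 2) :=
                    Nat.mul_le_mul_left _ (bform_sq e he1)
                _ = 52 * b * (6 * e ^ 3) := by ring
    have h2 := hA L hLA V (6 * e ^ 3) F Ψ hd h1 (by omega)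
    rw [← hZ, ← he] at h2
    calc Z.card ≤ (6 * e ^ 3) ^ 2 * e * L ^ 18 := h2
      _ = e ^ 7 * (36 * L ^ 18) := by ring
      _ ≤ e ^ 7 * (L * L ^ 18) := by gcongr
      _ = e ^ 7 * L ^ 19 := by rw [← pow_succ']
      _ ≤ e ^ 7 * L ^ 30 := Nat.mul_le_mul_left _ (Nat.pow_le_pow_right hpos (by norm_num))
  · have h2 := bezout_card b L V hV Ψ F hΨ h1 hdvd
    have h3 : Z ⊆ V.filter (fun v => Van Ψ v ∧ Van F v) := by
      intro v hv
      rw [Finset.mem_filter]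
      exact ⟨(hZV v hv).1, (hZV v hv).2, hFV v hv⟩
    have h4 : e ^ 2 ≤ e ^ 7 := Nat.pow_le_pow_right he1 (by norm_num)
    rw [← he] at h2
    calc Z.card ≤ _ := Finset.card_le_card h3
      _ ≤ 2 * (e * tdg F) * L ^ 10 := h2
      _ ≤ 2 * (e * e) * L ^ 10 := by gcongr
      _ = e ^ 2 * (2 * L ^ 10) := by ring
      _ ≤ e ^ 7 * (L * L ^ 10) := by gcongr; omega
      _ = e ^ 7 * L ^ 11 := by rw [← pow_succ']
      _ ≤ e ^ 7 * L ^ 30 := Nat.mul_le_mul_left _ (Nat.pow_le_pow_right hpos (by norm_num))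

end FDP
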