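import Pool.Agent.W_fd120a_h8.Defs

set_option autoImplicit false

open Finset Polynomial
open scoped Classical

namespace FDP

/-- Characterisation of `tdg F ≤ d`. -/
theorem tdg_le_iff (F : ℤ[X][X]) (d : ℕ) :
    tdg F ≤ d ↔ ∀ j i, (F.coeff j).coeff i ≠ 0 → i + j ≤ d := by
  unfold tdg
  rw [Finset.sup_le_iff]
  constructor
  · intro h j i hij
    have hj : F.coeff j ≠ 0 := by
      intro h0
      rw [h0, coeff_zero] at hij
      exact hij rfl
    have h1 := h j (mem_support_iff.2 hj)
    have h2 : i ≤ (F.coeff j).natDegree := le_natDegree_of_ne_zero hij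
    omega
  · intro h j hj
    have h1 : F.coeff j ≠ 0 := mem_support_iff.1 hj
    exact h j _ (by rwa [coeff_natDegree, ne_eq, leadingCoeff_eq_zero])

/-- the homomorphism `U ↦ U T`, `Γ ↦ Γ T` -/
noncomputable def Basic_hom : ℤ[X][X] →+* ℤ[X][X][X] :=
  eval₂RingHom (R := ℤ[X]) (S := ℤ[X][X][X]) (eval₂RingHom (R := ℤ) (S := ℤ[X][X][X])
    (Int.castRingHom ℤ[X][X][X]) (C (C X) * X)) (C X * X)

theorem Basic_hom_monomial (j i : ℕ) (a : ℤ) :
    Basic_hom (monomial j (monomial i a)) = monomial (i + j) (monomial j (monomial i a)) := by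
  unfold Basic_hom
  rw [coe_eval₂RingHom, eval₂_monomial, coe_eval₂RingHom, eval₂_monomial]
  have h1 : (monomial (i + j) (monomial j (monomial i a)) : (ℤ[X][X])[X]) =
      C (monomial j (monomial i a)) * X ^ (i + j) := (C_mul_X_pow_eq_monomial).symm
  have h2 : (monomial j (monomial i a) : ℤ[X][X]) = C (monomial i a) * X ^ j :=
    (C_mul_X_pow_eq_monomial).symm
  have h3 : (monomial i a : ℤ[X]) = C a * X ^ i := (C_mul_X_pow_eq_monomial).symm
  have h4 : (Int.castRingHom ((ℤ[X][X])[X])) a = C (C (C a)) := by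
    simp only [eq_intCast, map_intCast]
  rw [h1, h2, h3, h4]
  simp only [map_mul, map_pow]
  ring

theorem Basic_hom_coeff (F : ℤ[X][X]) (k j i : ℕ) :
    (((Basic_hom F).coeff k).coeff j).coeff i = if i + j = k then (F.coeff j).coeff i else 0 := by
  induction F using Polynomial.induction_on' with
  | add p q hp hq =>
    rw [map_add, coeff_add, coeff_add, coeff_add, hp, hq, coeff_add, coeff_add]
    split_ifs <;> simp
  | monomial n f =>
    induction f using Polynomial.induction_on' with
    | add p q hp hq =>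
      rw [map_add, map_add, coeff_add, coeff_add, coeff_add, hp, hq, coeff_add, coeff_add]
      split_ifs <;> simp
    | monomial m a =>
      rw [Basic_hom_monomial, coeff_monomial]
      by_cases h1 : m + n = k
      · rw [if_pos h1, coeff_monomial]
        by_cases h2 : n = j
        · rw [if_pos h2, coeff_monomial]
          by_cases h3 : m = i
          · subst h1 h2 h3
            simp
          · rw [if_neg h3]
            simp
        · rw [if_neg h2, coeff_zero]
          simp
      · rw [if_neg h1, coeff_zero, coeff_zero, coeff_monomial]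
        by_cases h2 : n = j
        · rw [if_pos h2, coeff_monomial]
          by_cases h3 : m = i
          · subst h2 h3
            rw [if_neg h1]
          · rw [if_neg h3, ite_self]
        · rw [if_neg h2, coeff_zero, ite_self]

theorem Basic_hom_natDegree (F : ℤ[X][X]) : (Basic_hom F).natDegree = tdg F := by
  apply le_antisymm
  · rw [natDegree_le_iff_coeff_eq_zero]
    intro k hk
    ext j i
    rw [Basic_hom_coeff, coeff_zero, coeff_zero]
    split_ifs with h
    · by_contra h1
      have := (tdg_le_iff F (tdg F)).1 le_rfl j i h1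
      omega
    · rfl
  · rw [tdg_le_iff]
    intro j i hij
    apply le_natDegree_of_ne_zero
    intro h
    have h1 := Basic_hom_coeff F (i + j) j i
    rw [h, coeff_zero, coeff_zero, if_pos rfl] at h1
    exact hij h1.symm

theorem Basic_hom_ne_zero {F : ℤ[X][X]} (hF : F ≠ 0) : Basic_hom F ≠ 0 := by
  intro h
  apply hF
  ext j i
  have h1 := Basic_hom_coeff F (i + j) j i
  rw [h, coeff_zero, coeff_zero, coeff_zero, if_pos rfl] at h1
  rw [← h1, coeff_zero, coeff_zero]

/-- The total degree is additive.  Proof: apply the ring homomorphism `ℤ[U][Γ] → (ℤ[U][Γ])[T]`,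
`U ↦ U T`, `Γ ↦ Γ T`; the degree in `T` of the image of `F` is `tdg F` (the coefficient of `T ^ k`
is the homogeneous part of degree `k`), and `natDegree_mul` holds over a domain. -/
theorem tdg_mul (F G : ℤ[X][X]) (hF : F ≠ 0) (hG : G ≠ 0) : tdg (F * G) = tdg F + tdg G := by
  rw [← Basic_hom_natDegree, ← Basic_hom_natDegree, ← Basic_hom_natDegree, map_mul,
    natDegree_mul (Basic_hom_ne_zero hF) (Basic_hom_ne_zero hG)]

theorem natDegree_le_tdg (F : ℤ[X][X]) : F.natDegree ≤ tdg F := by
  by_cases hF : F = 0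
  · rw [hF, natDegree_zero]
    exact Nat.zero_le _
  · have h1 : F.natDegree ∈ F.support := by
      rw [mem_support_iff, coeff_natDegree, ne_eq, leadingCoeff_eq_zero]
      exact hF
    have h2 := Finset.le_sup (f := fun j => (F.coeff j).natDegree + j) h1
    exact le_trans (Nat.le_add_left _ _) h2

theorem coeff_natDegree_le_tdg (F : ℤ[X][X]) (j : ℕ) : (F.coeff j).natDegree ≤ tdg F := by
  by_cases hj : F.coeff j = 0
  · rw [hj, natDegree_zero]
    exact Nat.zero_le _
  · have h2 := Finset.le_sup (f := fun j => (F.coeff j).natDegree + j) (mem_support_iff.2 hj)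
    exact le_trans (Nat.le_add_right _ _) h2

theorem tdg_derivative_le (F : ℤ[X][X]) : tdg (derivative F) ≤ tdg F - 1 := by
  rw [tdg_le_iff]
  intro j i hij
  have h1 : (F.coeff (j + 1)).coeff i ≠ 0 := by
    intro h
    apply hij
    have h2 : ((F.coeff (j + 1)) * ((j : ℤ[X]) + 1)) = (F.coeff (j + 1)) * C ((j : ℤ) + 1) := by
      simp
    rw [coeff_derivative, h2, coeff_mul_C, h, zero_mul]
  have h3 := (tdg_le_iff F (tdg F)).1 le_rfl (j + 1) i h1
  omega

/-- the evaluation as a double sum -/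
theorem Basic_ev {k : Type*} [CommRing k] (d : ℕ) (F : ℤ[X][X]) (hd : tdg F ≤ d) (u g : k) :
    ev u g F = ∑ j ∈ Finset.range (d + 1), ∑ i ∈ Finset.range (d + 1 - j),
      ((F.coeff j).coeff i : k) * u ^ i * g ^ j := by
  have h0 : F.natDegree < d + 1 := by
    have := natDegree_le_tdg F
    omega
  unfold ev
  rw [coe_eval₂RingHom, eval₂_eq_sum_range' _ h0]
  refine Finset.sum_congr rfl fun j hj => ?_
  rw [Finset.mem_range] at hj
  have h1 : (F.coeff j).natDegree < d + 1 - j := by
    by_cases hj0 : F.coeff j = 0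
    · rw [hj0, natDegree_zero]
      omega
    · have h2 := Finset.le_sup (f := fun j => (F.coeff j).natDegree + j) (mem_support_iff.2 hj0)
      have h3 : (F.coeff j).natDegree + j ≤ tdg F := h2
      omega
  rw [coe_eval₂RingHom, eval₂_eq_sum_range' _ h1, Finset.sum_mul]
  refine Finset.sum_congr rfl fun i _ => ?_
  rw [eq_intCast]

/-- In any commutative ring in which `u y = x` and `g y = c`. -/
theorem hm_cast {k : Type*} [CommRing k] (d : ℕ) (F : ℤ[X][X]) (hd : tdg F ≤ d) (v : Ln) (u g : k)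
    (hu : u * (v.2.1 : k) = (v.1 : k)) (hg : g * (v.2.1 : k) = (v.2.2 : k)) :
    ((hm d F v : ℤ) : k) = (v.2.1 : k) ^ d * ev u g F := by
  rw [Basic_ev d F hd u g]
  unfold hm
  rw [Finset.mul_sum]
  push_cast
  refine Finset.sum_congr rfl fun j hj => ?_
  rw [Finset.mul_sum]
  refine Finset.sum_congr rfl fun i hi => ?_
  rw [Finset.mem_range] at hi hj
  rw [← hu, ← hg]
  have h1 : (v.2.1 : k) ^ d = (v.2.1 : k) ^ i * (v.2.1 : k) ^ j * (v.2.1 : k) ^ (d - i - j) := by
    rw [← pow_add, ← pow_add]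
    congr 1
    omega
  rw [h1]
  ring

theorem van_iff (d : ℕ) (F : ℤ[X][X]) (hd : tdg F ≤ d) (v : Ln) (hy : v.2.1 ≠ 0) :
    Van F v ↔ hm d F v = 0 := by
  have hy' : (v.2.1 : ℚ) ≠ 0 := by exact_mod_cast hy
  have h := hm_cast (k := ℚ) d F hd v ((v.1 : ℚ) / v.2.1) ((v.2.2 : ℚ) / v.2.1)
    (div_mul_cancel₀ _ hy') (div_mul_cancel₀ _ hy')
  unfold Van
  constructor
  · intro h1
    rw [h1, mul_zero] at h
    exact_mod_cast h
  · intro h1
    rw [h1, Int.cast_zero] at h
    rcases mul_eq_zero.1 h.symm with h2 | h2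
    · exact absurd (eq_zero_of_pow_eq_zero h2) hy'
    · exact h2

theorem hm_abs_le (d : ℕ) (F : ℤ[X][X]) (v : Ln) (H M : ℤ) (hM : 1 ≤ M)
    (hF : ∀ j i, |(F.coeff j).coeff i| ≤ H)
    (h1 : |v.1| ≤ M) (h2 : |v.2.1| ≤ M) (h3 : |v.2.2| ≤ M) :
    |hm d F v| ≤ (d + 1) ^ 2 * H * M ^ d := by
  have hH : 0 ≤ H := (abs_nonneg _).trans (hF 0 0)
  have hM0 : 0 ≤ M := by omega
  have hterm : ∀ j ∈ Finset.range (d + 1), ∀ i ∈ Finset.range (d + 1 - j),
      |(F.coeff j).coeff i * v.1 ^ i * v.2.2 ^ j * v.2.1 ^ (d - i - j)| ≤ H * M ^ d := by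
    intro j hj i hi
    rw [Finset.mem_range] at hi hj
    have e1 : M ^ d = M ^ i * M ^ j * M ^ (d - i - j) := by
      rw [← pow_add, ← pow_add]
      congr 1
      omega
    rw [abs_mul, abs_mul, abs_mul, abs_pow, abs_pow, abs_pow, e1]
    have a1 : |v.1| ^ i ≤ M ^ i := pow_le_pow_left₀ (abs_nonneg _) h1 i
    have a2 : |v.2.2| ^ j ≤ M ^ j := pow_le_pow_left₀ (abs_nonneg _) h3 j
    have a3 : |v.2.1| ^ (d - i - j) ≤ M ^ (d - i - j) := pow_le_pow_left₀ (abs_nonneg _) h2 _
    calc |(F.coeff j).coeff i| * |v.1| ^ i * |v.2.2| ^ j * |v.2.1| ^ (d - i - j)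
        ≤ H * M ^ i * M ^ j * M ^ (d - i - j) := by
          have b1 : |(F.coeff j).coeff i| * |v.1| ^ i ≤ H * M ^ i :=
            mul_le_mul (hF j i) a1 (by positivity) hH
          have b2 : |(F.coeff j).coeff i| * |v.1| ^ i * |v.2.2| ^ j ≤ H * M ^ i * M ^ j :=
            mul_le_mul b1 a2 (by positivity) (by positivity)
          exact mul_le_mul b2 a3 (by positivity) (by positivity)
      _ = H * (M ^ i * M ^ j * M ^ (d - i - j)) := by ring
  unfold hm
  calc |∑ j ∈ Finset.range (d + 1), ∑ i ∈ Finset.range (d + 1 - j),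
        (F.coeff j).coeff i * v.1 ^ i * v.2.2 ^ j * v.2.1 ^ (d - i - j)|
      ≤ ∑ j ∈ Finset.range (d + 1), ((d : ℤ) + 1) * (H * M ^ d) := by
        refine (Finset.abs_sum_le_sum_abs _ _).trans (Finset.sum_le_sum fun j hj => ?_)
        refine (Finset.abs_sum_le_sum_abs _ _).trans ?_
        calc ∑ i ∈ Finset.range (d + 1 - j),
              |(F.coeff j).coeff i * v.1 ^ i * v.2.2 ^ j * v.2.1 ^ (d - i - j)|
            ≤ ∑ i ∈ Finset.range (d + 1 - j), H * M ^ d :=
              Finset.sum_le_sum fun i hi => hterm j hj i hi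
          _ = ((d + 1 - j : ℕ) : ℤ) * (H * M ^ d) := by
              rw [Finset.sum_const, Finset.card_range, nsmul_eq_mul]
          _ ≤ ((d : ℤ) + 1) * (H * M ^ d) := by
              apply mul_le_mul_of_nonneg_right _ (by positivity)
              have : d + 1 - j ≤ d + 1 := Nat.sub_le _ _
              exact_mod_cast this
    _ = (d + 1) ^ 2 * H * M ^ d := by
        rw [Finset.sum_const, Finset.card_range, nsmul_eq_mul]
        push_cast
        ring

end FDP
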