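import Pool.Agent.W_fd120a_h8.Roots

set_option autoImplicit false

open Finset Polynomial
open scoped Classical

namespace FDP

/-- weight of a column of the Sylvester matrix -/
noncomputable def bezW (Ψ Φ : ℤ[X][X]) (m n : ℕ) (j : Fin (m + n)) : ℕ :=
  j.addCases (fun j₁ : Fin m => tdg Φ + (j₁ : ℕ)) (fun j₁ : Fin n => tdg Ψ + (j₁ : ℕ))

theorem bez_coeff (F : ℤ[X][X]) (k : ℕ) (h : F.coeff k ≠ 0) :
    (F.coeff k).natDegree + k ≤ tdg F := by
  unfold tdg
  exact Finset.le_sup (f := fun j => (F.coeff j).natDegree + j) (mem_support_iff.2 h)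

theorem bez_entry (Ψ Φ : ℤ[X][X]) (m n : ℕ) (i j : Fin (m + n))
    (h : sylvester Ψ Φ m n i j ≠ 0) :
    (sylvester Ψ Φ m n i j).natDegree + (i : ℕ) ≤ bezW Ψ Φ m n j := by
  induction j using Fin.addCases with
  | left j₁ =>
    simp only [sylvester, Matrix.of_apply, Fin.addCases_left, bezW] at h ⊢
    split_ifs at h ⊢ with hi
    · have h1 := bez_coeff Φ _ h
      rw [Set.mem_Icc] at hi
      omega
    · exact absurd rfl h
  | right j₁ =>
    simp only [sylvester, Matrix.of_apply, Fin.addCases_right, bezW] at h ⊢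
    split_ifs at h ⊢ with hi
    · have h1 := bez_coeff Ψ _ h
      rw [Set.mem_Icc] at hi
      omega
    · exact absurd rfl h

/-- Degree of a resultant.  Proof: the Sylvester matrix of `Ψ`, `Φ` (with `m = deg_Γ Ψ`,
`n = deg_Γ Φ`) has at the place of the coefficient `Ψ.coeff k` an entry of degree at most
`tdg Ψ - k`; giving weights to the rows and the columns, every term of the determinant has degree at
most `m (tdg Φ - n) + n (tdg Ψ - m) + m n ≤ tdg Ψ * tdg Φ`. -/
theorem resultant_natDegree_le (Ψ Φ : ℤ[X][X]) :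
    (resultant Ψ Φ Ψ.natDegree Φ.natDegree).natDegree ≤ tdg Ψ * tdg Φ := by
  set m := Ψ.natDegree with hm
  set n := Φ.natDegree with hn
  have hmb : m ≤ tdg Ψ := natDegree_le_tdg Ψ
  have hna : n ≤ tdg Φ := natDegree_le_tdg Φ
  unfold resultant
  rw [Matrix.det_apply]
  apply Polynomial.natDegree_sum_le_of_forall_le
  intro σ _
  have h0 : (Equiv.Perm.sign σ • ∏ i, sylvester Ψ Φ m n (σ i) i).natDegree ≤
      (∏ i, sylvester Ψ Φ m n (σ i) i).natDegree := by
    rw [Units.smul_def]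
    exact Polynomial.natDegree_smul_le _ _
  refine h0.trans ?_
  by_cases hz : ∃ i, sylvester Ψ Φ m n (σ i) i = 0
  · obtain ⟨i, hi⟩ := hz
    have h1 : ∏ i, sylvester Ψ Φ m n (σ i) i = 0 :=
      Finset.prod_eq_zero (f := fun i => sylvester Ψ Φ m n (σ i) i) (mem_univ i) hi
    rw [h1]
    simp
  · push Not at hz
    have h1 : (∏ i, sylvester Ψ Φ m n (σ i) i).natDegree ≤
        ∑ i, (sylvester Ψ Φ m n (σ i) i).natDegree := Polynomial.natDegree_prod_le _ _
    have h2 : ∑ i, (sylvester Ψ Φ m n (σ i) i).natDegree + ∑ i, ((σ i : Fin (m + n)) : ℕ) ≤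
        ∑ i, bezW Ψ Φ m n i := by
      rw [← Finset.sum_add_distrib]
      exact Finset.sum_le_sum fun i _ => bez_entry Ψ Φ m n (σ i) i (hz i)
    have h3 : ∑ i, ((σ i : Fin (m + n)) : ℕ) = ∑ i : Fin (m + n), (i : ℕ) :=
      Equiv.sum_comp σ (fun i : Fin (m + n) => (i : ℕ))
    have h4 : ∑ i : Fin (m + n), (i : ℕ) = ∑ i : Fin m, (i : ℕ) + (n * m + ∑ i : Fin n, (i : ℕ)) := by
      rw [Fin.sum_univ_add]
      simp [Finset.sum_add_distrib]
    have h5 : ∑ i, bezW Ψ Φ m n i =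
        (m * tdg Φ + ∑ i : Fin m, (i : ℕ)) + (n * tdg Ψ + ∑ i : Fin n, (i : ℕ)) := by
      rw [Fin.sum_univ_add]
      simp [bezW, Finset.sum_add_distrib]
    rw [h3, h4, h5] at h2
    obtain ⟨a, ha⟩ := Nat.exists_eq_add_of_le hna
    obtain ⟨b, hb⟩ := Nat.exists_eq_add_of_le hmb
    rw [ha, hb] at h2 ⊢
    have h6 : (m + b) * (n + a) = m * n + m * a + b * n + b * a := by ring
    have h7 : m * (n + a) + n * (m + b) = m * n + m * n + m * a + n * b := by ring
    have h8 : n * m = m * n := mul_comm _ _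
    have h9 : n * b = b * n := mul_comm _ _
    rw [h6]
    have h10 : (0 : ℕ) ≤ b * a := Nat.zero_le _
    nlinarith

/-- Bezout.  `R` is the resultant with respect to `Γ`.  It is non-zero because over the fraction
field `K` of `ℤ[U]` the polynomial `Ψ` is irreducible (Gauss: it is irreducible, of positive degree,
so primitive: `IsPrimitive.irreducible_iff_irreducible_map_fraction_map`) and does not divide `Φ`
(Gauss again), so `Ψ`, `Φ` are coprime in `K[Γ]` (`resultant_ne_zero`, `resultant_map_map`); and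
`exists_mul_add_mul_eq_C_resultant` shows that it vanishes at the common zeros. -/
theorem bezout (Ψ Φ : ℤ[X][X]) (hΨ : Irreducible Ψ) (h1 : 1 ≤ Ψ.natDegree) (hΦ : ¬ Ψ ∣ Φ) :
    ∃ R : ℤ[X], R ≠ 0 ∧ R.natDegree ≤ tdg Ψ * tdg Φ ∧
      ∀ u g : ℚ, ev u g Ψ = 0 → ev u g Φ = 0 → R.eval₂ (Int.castRingHom ℚ) u = 0 := by
  refine ⟨resultant Ψ Φ Ψ.natDegree Φ.natDegree, ?_, resultant_natDegree_le Ψ Φ, ?_⟩
  · set K := FractionRing ℤ[X] with hK
    have hinj : Function.Injective (algebraMap ℤ[X] K) := IsFractionRing.injective _ _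
    have hprim : Ψ.IsPrimitive := hΨ.isPrimitive (by omega)
    have hirr : Irreducible (Ψ.map (algebraMap ℤ[X] K)) :=
      hprim.irreducible_iff_irreducible_map_fraction_map.1 hΨ
    have hnd : ¬ Ψ.map (algebraMap ℤ[X] K) ∣ Φ.map (algebraMap ℤ[X] K) := by
      rintro ⟨Q, hQ⟩
      have h2 : Ψ.map (algebraMap ℤ[X] K) * Q ∈ lifts (algebraMap ℤ[X] K) := by
        rw [← hQ]
        exact ⟨Φ, rfl⟩
      rw [hprim.map_mul_mem_lifts_iff] at h2
      obtain ⟨G, hG⟩ := h2
      apply hΦ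
      refine ⟨G, ?_⟩
      apply Polynomial.map_injective _ hinj
      rw [Polynomial.map_mul, hQ, ← hG]
      rfl
    have hcop : IsCoprime (Ψ.map (algebraMap ℤ[X] K)) (Φ.map (algebraMap ℤ[X] K)) :=
      (EuclideanDomain.dvd_or_coprime _ _ hirr).resolve_left hnd
    have h3 := resultant_ne_zero _ _ hcop
    rw [natDegree_map_eq_of_injective hinj, natDegree_map_eq_of_injective hinj,
      resultant_map_map] at h3
    intro h4
    rw [h4, map_zero] at h3
    exact h3 rfl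
  · intro u g hu hg
    obtain ⟨p, q, -, -, hpq⟩ := exists_mul_add_mul_eq_C_resultant (m := Ψ.natDegree)
      (n := Φ.natDegree) Ψ Φ le_rfl le_rfl (Or.inl (by omega))
    have h2 := congrArg (ev u g) hpq
    rw [map_add, map_mul, map_mul, hu, hg, zero_mul, zero_mul, add_zero] at h2
    have h3 : ev u g (C (resultant Ψ Φ Ψ.natDegree Φ.natDegree)) =
        (resultant Ψ Φ Ψ.natDegree Φ.natDegree).eval₂ (Int.castRingHom ℚ) u := by
      simp [ev]
    rw [← h3, ← h2]

/-- Bezout for lines: combine `bezout` and `root_card`. -/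
theorem bezout_card (b L : ℕ) (V : Finset Ln) (hV : Adm b L V) (Ψ Φ : ℤ[X][X])
    (hΨ : Irreducible Ψ) (h1 : 1 ≤ Ψ.natDegree) (hΦ : ¬ Ψ ∣ Φ) :
    (V.filter (fun v => Van Ψ v ∧ Van Φ v)).card ≤ 2 * (tdg Ψ * tdg Φ) * L ^ 10 := by
  obtain ⟨R, hR, hRd, hRv⟩ := bezout Ψ Φ hΨ h1 hΦ
  have h2 := root_card b L V hV R hR
  have hsub : V.filter (fun v => Van Ψ v ∧ Van Φ v) ⊆
      V.filter (fun v => R.eval₂ (Int.castRingHom ℚ) ((v.1 : ℚ) / v.2.1) = 0) := by
    intro v hv
    rw [mem_filter] at hv ⊢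
    exact ⟨hv.1, hRv _ _ hv.2.1 hv.2.2⟩
  calc _ ≤ _ := Finset.card_le_card hsub
    _ ≤ 2 * R.natDegree * L ^ 10 := h2
    _ ≤ 2 * (tdg Ψ * tdg Φ) * L ^ 10 :=
      Nat.mul_le_mul_right _ (Nat.mul_le_mul_left _ hRd)

end FDP
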