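import Pool.Agent.W_fd120a_h8.Basic

set_option autoImplicit false

open Finset Polynomial
open scoped Classical

namespace FDP

/-- the value of a polynomial of total degree at most one -/
theorem Lin_hm (Ψ : ℤ[X][X]) (w : Ln) : hm 1 Ψ w = (Ψ.coeff 0).coeff 0 * w.2.1 +
    (Ψ.coeff 0).coeff 1 * w.1 + (Ψ.coeff 1).coeff 0 * w.2.2 := by
  unfold hm
  simp only [Finset.sum_range_succ, Finset.sum_range_zero, zero_add, Nat.sub_zero, pow_zero,
    mul_one, Nat.reduceAdd, Nat.reduceSub, pow_one]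

/-- The linear case.  `Ψ = α U + β Γ + δ` (total degree 1) vanishes at `v` and at all `w ∈ W`, that is
`α x + β c + δ y = 0`.  If `β = 0` then `v` and `w` have the same slope, impossible as
`dt v w ≠ 0`.  If `β ≠ 0` all these lines pass through the rational point `(-δ/β, α/β)`, which is the
only common point of `v` and `w`, hence equal to the lattice point on `v` and `w`. -/
theorem linear_case (Ψ : ℤ[X][X]) (hΨ : tdg Ψ = 1) (v : Ln) (hv0 : v.2.1 ≠ 0) (hv : Van Ψ v)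
    (W : Finset Ln) (hW0 : W.Nonempty)
    (hW : ∀ w ∈ W, w.2.1 ≠ 0 ∧ Van Ψ w ∧ dt v w ≠ 0 ∧ ∃ z, On v z ∧ On w z) :
    ∃ z : ℤ × ℤ, On v z ∧ ∀ w ∈ W, On w z := by
  obtain ⟨w0, hw0⟩ := hW0
  obtain ⟨α, hα⟩ : ∃ α, α = (Ψ.coeff 0).coeff 1 := ⟨_, rfl⟩
  obtain ⟨β, hβ⟩ : ∃ β, β = (Ψ.coeff 1).coeff 0 := ⟨_, rfl⟩
  obtain ⟨δ, hδ⟩ : ∃ δ, δ = (Ψ.coeff 0).coeff 0 := ⟨_, rfl⟩
  have hvan : ∀ w : Ln, w.2.1 ≠ 0 → Van Ψ w → δ * w.2.1 + α * w.1 + β * w.2.2 = 0 := by
    intro w hw1 hw2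
    have h := (van_iff 1 Ψ hΨ.le w hw1).1 hw2
    rwa [Lin_hm, ← hα, ← hβ, ← hδ] at h
  have hv1 := hvan v hv0 hv
  obtain ⟨hw1, hw2, hw3, ⟨s, t⟩, hz1, hz2⟩ := hW w0 hw0
  have hw4 := hvan w0 hw1 hw2
  unfold dt at hw3
  unfold On at hz1 hz2
  simp only at hz1 hz2
  by_cases hβ0 : β = 0
  · -- then `α ≠ 0`
    exfalso
    have hα0 : α ≠ 0 := by
      intro hα0
      have h1 : tdg Ψ ≤ 0 := by
        rw [tdg_le_iff]
        intro j i hij
        have h2 := (tdg_le_iff Ψ 1).1 hΨ.le j i hij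
        by_contra h3
        have h4 : (j = 0 ∧ i = 1) ∨ (j = 1 ∧ i = 0) := by omega
        rcases h4 with ⟨rfl, rfl⟩ | ⟨rfl, rfl⟩
        · exact hij (hα ▸ hα0)
        · exact hij (hβ ▸ hβ0)
      omega
    rw [hβ0, zero_mul, add_zero] at hv1 hw4
    have h5 : α * (v.1 * w0.2.1 - w0.1 * v.2.1) = 0 := by
      linear_combination w0.2.1 * hv1 - v.2.1 * hw4
    rcases mul_eq_zero.1 h5 with h6 | h6
    · exact hα0 h6
    · exact hw3 h6
  · have hB : (v.1 * w0.2.1 - w0.1 * v.2.1) * (β * t - α) = 0 := by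
      linear_combination -(v.2.1 * β) * hz2 + (w0.2.1 * β) * hz1 - w0.2.1 * hv1 + v.2.1 * hw4
    have hB0 : β * t - α = 0 := by
      rcases mul_eq_zero.1 hB with h | h
      · exact absurd h hw3
      · exact h
    have hA : v.2.1 * (β * s + δ) = 0 := by
      linear_combination hv1 - β * hz1 + v.1 * hB0
    have hA0 : β * s + δ = 0 := by
      rcases mul_eq_zero.1 hA with h | h
      · exact absurd h hv0
      · exact h
    refine ⟨(s, t), hz1, fun w hw => ?_⟩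
    obtain ⟨h1, h2, -, -⟩ := hW w hw
    have h3 := hvan w h1 h2
    unfold On
    simp only
    have h4 : β * (w.2.2 - (w.2.1 * s - w.1 * t)) = 0 := by
      linear_combination h3 - w.2.1 * hA0 + w.1 * hB0
    rcases mul_eq_zero.1 h4 with h5 | h5
    · exact absurd h5 hβ0
    · omega

/-- An irreducible polynomial with a zero at a line (`y ≠ 0`) which does not depend on `Γ` has total
degree 1 (it is `± (y U - x)`, by Gauss). -/
theorem natDegree_zero_case (Ψ : ℤ[X][X]) (hΨ : Irreducible Ψ) (h0 : Ψ.natDegree = 0) (v : Ln)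
    (hv0 : v.2.1 ≠ 0) (hv : Van Ψ v) : tdg Ψ ≤ 1 := by
  obtain ⟨p, hp⟩ : ∃ p : ℤ[X], Ψ = C p := ⟨_, eq_C_of_natDegree_eq_zero h0⟩
  have hpi : Irreducible p := by
    rw [hp] at hΨ
    refine ⟨fun hu => hΨ.not_isUnit (hu.map C), fun a b hab => ?_⟩
    have h1 := hΨ.isUnit_or_isUnit (a := C a) (b := C b) (by rw [← C_mul, ← hab])
    rcases h1 with h1 | h1
    · exact Or.inl (isUnit_C.1 h1)
    · exact Or.inr (isUnit_C.1 h1)
  have hroot : (p.map (Int.castRingHom ℚ)).IsRoot ((v.1 : ℚ) / v.2.1) := by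
    unfold Van ev at hv
    rw [hp, coe_eval₂RingHom, eval₂_C, coe_eval₂RingHom] at hv
    rw [IsRoot.def, eval_map]
    exact hv
  have hdeg : p.natDegree ≤ 1 := by
    by_cases hd : p.natDegree = 0
    · omega
    · have h1 : p.IsPrimitive := hpi.isPrimitive hd
      have h2 := (IsPrimitive.Int.irreducible_iff_irreducible_map_cast h1).1 hpi
      have h3 := degree_eq_one_of_irreducible_of_root h2 hroot
      have h4 : (p.map (Int.castRingHom ℚ)).natDegree = 1 := natDegree_eq_of_degree_eq_some h3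
      rw [natDegree_map_eq_of_injective Int.cast_injective] at h4
      omega
  rw [tdg_le_iff]
  intro j i hij
  rw [hp, coeff_C] at hij
  split_ifs at hij with hj
  · have := le_natDegree_of_ne_zero hij
    omega
  · exact absurd (coeff_zero i) hij

/-- A polynomial with a zero at some line, irreducible, is not constant. -/
theorem one_le_tdg (Ψ : ℤ[X][X]) (hΨ : Irreducible Ψ) (v : Ln) (hv : Van Ψ v) : 1 ≤ tdg Ψ := by
  by_contra h
  have h0 : tdg Ψ ≤ 0 := by omega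
  have h1 : Ψ = C (C ((Ψ.coeff 0).coeff 0)) := by
    ext j i
    by_cases hij : (Ψ.coeff j).coeff i = 0
    · rw [hij, coeff_C]
      split_ifs with hj
      · rw [coeff_C]
        split_ifs with hi
        · subst hj hi
          exact hij.symm
        · rfl
      · rw [coeff_zero]
    · have h2 := (tdg_le_iff Ψ 0).1 h0 j i hij
      have hj : j = 0 := by omega
      have hi : i = 0 := by omega
      subst hj hi
      rw [coeff_C_zero, coeff_C_zero]
  obtain ⟨a, ha⟩ : ∃ a : ℤ, a = (Ψ.coeff 0).coeff 0 := ⟨_, rfl⟩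
  rw [← ha] at h1
  unfold Van ev at hv
  rw [h1, coe_eval₂RingHom, eval₂_C, coe_eval₂RingHom, eval₂_C, eq_intCast] at hv
  have h2 : a = 0 := by exact_mod_cast hv
  rw [h2, C_0, C_0] at h1
  exact hΨ.ne_zero h1

/-- A non-zero polynomial that vanishes at a line has an irreducible factor that vanishes there. -/
theorem exists_factor (F : ℤ[X][X]) (hF : F ≠ 0) (v : Ln) (hv : Van F v) :
    ∃ Ψ : ℤ[X][X], Irreducible Ψ ∧ Ψ ∣ F ∧ Van Ψ v := by
  obtain ⟨f, hf1, hf2⟩ := WfDvdMonoid.exists_factors F hF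
  unfold Van at hv ⊢
  have h1 : ev ((v.1 : ℚ) / v.2.1) ((v.2.2 : ℚ) / v.2.1) f.prod = 0 := by
    have h2 := hf2.map (ev ((v.1 : ℚ) / v.2.1) ((v.2.2 : ℚ) / v.2.1))
    rw [hv] at h2
    exact (associated_zero_iff_eq_zero _).1 h2
  rw [map_multiset_prod, Multiset.prod_eq_zero_iff, Multiset.mem_map] at h1
  obtain ⟨Ψ, hΨ1, hΨ2⟩ := h1
  exact ⟨Ψ, hf1 Ψ hΨ1, (Multiset.dvd_prod hΨ1).trans hf2.dvd, hΨ2⟩

end FDP
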