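import Pool.Agent.W_fd120a_h8.PCC

set_option autoImplicit false

open Finset Polynomial
open scoped Classical

namespace FDP

/-- the form of a polynomial of degree one in `Γ` -/
theorem PCC2_hm (n : ℕ) (F : ℤ[X][X]) (hF : F.natDegree = 1) (v : Ln) :
    hm (n + 1) F v = hx (n + 1) (F.coeff 0) v.1 v.2.1 + v.2.2 * hx n (F.coeff 1) v.1 v.2.1 := by
  unfold hm hx
  rw [Finset.sum_range_succ', Finset.sum_range_succ']
  have h0 : ∀ k ∈ Finset.range n, ∑ i ∈ Finset.range (n + 1 + 1 - (k + 1 + 1)),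
      (F.coeff (k + 1 + 1)).coeff i * v.1 ^ i * v.2.2 ^ (k + 1 + 1) *
        v.2.1 ^ (n + 1 - i - (k + 1 + 1)) = 0 := by
    intro k _
    have h1 : F.coeff (k + 1 + 1) = 0 := coeff_eq_zero_of_natDegree_lt (by omega)
    rw [h1]
    simp
  rw [Finset.sum_eq_zero h0, zero_add, add_comm, Finset.mul_sum]
  congr 1
  · refine Finset.sum_congr (by simp) fun i _ => ?_
    simp
  · refine Finset.sum_congr (by simp) fun i _ => ?_
    have h2 : n + 1 - i - (0 + 1) = n - i := by omega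
    rw [h2]
    simp only [zero_add, pow_one]
    ring

/-- counting the points with the help of the divisors of `R` -/
theorem PCC2_card (e : ℕ) (he : 2 ≤ e) (E A : ℤ[X]) (hE : E ≠ 0) (hEd : E.natDegree ≤ e - 1)
    (B : ℕ) (R : ℤ) (hR : R ≠ 0) (Z : Finset Ln)
    (h : ∀ v ∈ Z, |v.1| ≤ B ∧ |v.2.1| ≤ B ∧ v.2.1 ≠ 0 ∧
      hx (e - 1) E v.1 v.2.1 ∣ R ∧ hx (e - 1) E v.1 v.2.1 ≠ 0 ∧
      v.2.2 * hx (e - 1) E v.1 v.2.1 = hx e A v.1 v.2.1) :
    Z.card ≤ 2 * e * (2 * B + 1) * (2 * R.natAbs.divisors.card) := by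
  have hinj : Set.InjOn (fun v : Ln => ((v.1, v.2.1) : ℤ × ℤ)) Z := by
    intro v hv w hw hvw
    obtain ⟨x, y, c⟩ := v
    obtain ⟨x', y', c'⟩ := w
    simp only [Prod.mk.injEq] at hvw
    obtain ⟨rfl, rfl⟩ := hvw
    have h1 := h _ hv
    have h2 := h _ hw
    simp only at h1 h2
    have h3 : c * hx (e - 1) E x y = c' * hx (e - 1) E x y := by
      rw [h1.2.2.2.2.2, h2.2.2.2.2.2]
    rw [mul_right_cancel₀ h1.2.2.2.2.1 h3]
  rw [← Finset.card_image_of_injOn hinj]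
  set P := Z.image (fun v : Ln => ((v.1, v.2.1) : ℤ × ℤ)) with hP
  set Δ : Finset ℤ := R.natAbs.divisors.image (fun n : ℕ => (n : ℤ)) ∪
    R.natAbs.divisors.image (fun n : ℕ => -(n : ℤ)) with hΔ
  have hΔc : Δ.card ≤ 2 * R.natAbs.divisors.card := by
    refine (Finset.card_union_le _ _).trans ?_
    have h1 := Finset.card_image_le (s := R.natAbs.divisors) (f := fun n : ℕ => (n : ℤ))
    have h2 := Finset.card_image_le (s := R.natAbs.divisors) (f := fun n : ℕ => -(n : ℤ))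
    omega
  have hPm : ∀ w ∈ P, hx (e - 1) E w.1 w.2 ∈ Δ := by
    intro w hw
    rw [hP, Finset.mem_image] at hw
    obtain ⟨v, hv, rfl⟩ := hw
    have h1 := (h v hv).2.2.2.1
    simp only
    have h2 : (hx (e - 1) E v.1 v.2.1).natAbs ∈ R.natAbs.divisors := by
      rw [Nat.mem_divisors]
      exact ⟨Int.natAbs_dvd_natAbs.2 h1, Int.natAbs_ne_zero.2 hR⟩
    rw [hΔ, Finset.mem_union, Finset.mem_image, Finset.mem_image]
    rcases Int.natAbs_eq (hx (e - 1) E v.1 v.2.1) with h3 | h3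
    · left
      exact ⟨_, h2, h3.symm⟩
    · right
      exact ⟨_, h2, h3.symm⟩
  refine (Finset.card_le_mul_card_image_of_maps_to hPm (2 * e * (2 * B + 1)) ?_).trans
    (Nat.mul_le_mul_left _ hΔc)
  intro δ hδ
  have hδ0 : δ ≠ 0 := by
    rw [hΔ, Finset.mem_union, Finset.mem_image, Finset.mem_image] at hδ
    rcases hδ with ⟨n, hn, rfl⟩ | ⟨n, hn, rfl⟩
    · have := Nat.pos_of_mem_divisors hn
      omega
    · have := Nat.pos_of_mem_divisors hn
      omega
  have h1 := hx_fibre (e - 1) (by omega) E hE hEd B δ hδ0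
    (P.filter (fun w => hx (e - 1) E w.1 w.2 = δ)) (by
      intro w hw
      rw [Finset.mem_filter] at hw
      obtain ⟨hw1, hw2⟩ := hw
      rw [hP, Finset.mem_image] at hw1
      obtain ⟨v, hv, rfl⟩ := hw1
      exact ⟨(h v hv).1, (h v hv).2.1, (h v hv).2.2.1, hw2⟩)
  have h2 : e - 1 + 1 = e := by omega
  rw [h2] at h1
  exact h1

/-- Point count, bounded degree, `deg_Γ Ψ = 1`.
Proof.  Let `e = tdg Ψ ≥ 2`, `Z` the set of the points.  `exists_bounded_form` (with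
`M = L ^ (51 b + 10)`, `P = Ψ`) gives `F1 ≠ 0`, `tdg F1 ≤ e`, coefficients at most
`H = ((e+1)(e+2) M ^ e) ^ ((e+1)(e+2))`, vanishing on `Z`.  If `Ψ ∤ F1`, `bezout_card` bounds `|Z|`.
If `Ψ ∣ F1` then `F1 = k Ψ` with `k` a non-zero integer (`tdg_mul`), so the coefficients of `Ψ` are at
most `H`.  Put `E = Ψ.coeff 1`, `A = - Ψ.coeff 0`: they are relatively prime (`Ψ` is irreducible of
degree 1 in `Γ`), `E ≠ 0`, and `c * hx (e-1) E x y = hx e A x y` for all `(x, y, c) ∈ Z`.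
`ratio_bound` gives `R` of size at most `L ^ C(b)`; `R` has at most `L` divisors for `L` large
(`FD120.divisor_bound`); for each of the at most `2 L` values `δ` of `hx (e-1) E x y` the number of
pairs `(x, y)` is at most `2 e (2 L ^ (b+10) + 1)` (`hx_fibre`), and `c` is determined by `(x, y)`. -/
theorem pcC (b : ℕ) (hb : 12 ≤ b) : ∃ L0 : ℕ, ∀ L, L0 ≤ L → ∀ (V : Finset Ln) (d : ℕ)
    (F Ψ : ℤ[X][X]), PCH b L V d F Ψ → Ψ.natDegree = 1 → tdg Ψ ≤ 110 * b →
    (V.filter (fun v => Van Ψ v)).card ≤ L ^ (b + 14) := by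
  obtain ⟨E0, hE0⟩ : ∃ E0 : ℕ, E0 = 110 * b := ⟨_, rfl⟩
  obtain ⟨h, hh⟩ : ∃ h : ℕ, h = (1 + (51 * b + 10) * E0) * ((E0 + 1) * (E0 + 2)) := ⟨_, rfl⟩
  obtain ⟨r, hr⟩ : ∃ r : ℕ, r = (h + 1) * (4 * (E0 + 1)) := ⟨_, rfl⟩
  have hr0 : 0 < r := by rw [hr]; positivity
  obtain ⟨C, hC, hdiv⟩ := FD120.divisor_bound (1 / (2 * (r : ℝ))) (by positivity)
  refine ⟨(E0 + 1) * (E0 + 2) + 2 * (E0 + 1) + ⌈C ^ 2⌉₊ + 1320 * b + 2 * E0 ^ 2 + 10, ?_⟩
  intro L hL V d F Ψ hP hdeg htdg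
  have hL1 : (E0 + 1) * (E0 + 2) ≤ L := by omega
  have hL2 : 2 * (E0 + 1) ≤ L := by omega
  have hL3 : ⌈C ^ 2⌉₊ ≤ L := by omega
  have hL4 : 1320 * b ≤ L := by omega
  have hL5 : 2 * E0 ^ 2 ≤ L := by omega
  have hLpos : 1 ≤ L := by omega
  clear hL
  rw [← hE0] at htdg
  obtain ⟨hadm, -, -, -, -, -, -, hirr, he2⟩ := hP
  obtain ⟨e, he⟩ : ∃ e : ℕ, e = tdg Ψ := ⟨_, rfl⟩
  rw [← he] at htdg he2
  have hΨ0 : Ψ ≠ 0 := hirr.ne_zero
  set Z := V.filter (fun v => Van Ψ v) with hZ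
  have hLZ : (1 : ℤ) ≤ L := by exact_mod_cast hLpos
  obtain ⟨M, hM⟩ : ∃ M : ℤ, M = (L : ℤ) ^ (51 * b + 10) := ⟨_, rfl⟩
  have hM1 : 1 ≤ M := by rw [hM]; exact one_le_pow₀ hLZ
  have hLM : (L : ℤ) ^ (b + 10) ≤ M := by rw [hM]; exact pow_le_pow_right₀ hLZ (by omega)
  have hZV : ∀ v ∈ Z, v ∈ V ∧ Van Ψ v := fun v hv => by
    rw [hZ, Finset.mem_filter] at hv; exact hv
  have hZhm : ∀ v ∈ Z, hm e Ψ v = 0 := fun v hv =>
    (van_iff e Ψ (by rw [he]) v (hadm.ynz v (hZV v hv).1)).1 (hZV v hv).2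
  obtain ⟨F1, hF10, hF1t, hF1H, hF1Z⟩ := exists_bounded_form e M hM1 Z
    (fun v hv => (hadm.bx v (hZV v hv).1).trans hLM)
    (fun v hv => (hadm.bdy v (hZV v hv).1).trans hLM)
    (fun v hv => by rw [hM]; exact hadm.bc v (hZV v hv).1) Ψ hΨ0 (by rw [he]) hZhm
  by_cases hdvd : Ψ ∣ F1
  swap
  · -- Bezout
    have h1 := bezout_card b L V hadm Ψ F1 hirr (by rw [hdeg]) hdvd
    have h2 : Z.card ≤ (V.filter (fun v => Van Ψ v ∧ Van F1 v)).card := by
      apply Finset.card_le_card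
      intro v hv
      rw [Finset.mem_filter]
      exact ⟨(hZV v hv).1, (hZV v hv).2,
        (van_iff e F1 hF1t v (hadm.ynz v (hZV v hv).1)).2 (hF1Z v hv)⟩
    calc Z.card ≤ 2 * (tdg Ψ * tdg F1) * L ^ 10 := h2.trans h1
      _ ≤ 2 * E0 ^ 2 * L ^ 10 := by
          apply Nat.mul_le_mul_right
          apply Nat.mul_le_mul_left
          rw [sq]
          exact Nat.mul_le_mul (by rw [← he]; exact htdg) (hF1t.trans htdg)
      _ ≤ L * L ^ 10 := Nat.mul_le_mul_right _ hL5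
      _ = L ^ 11 := by ring
      _ ≤ L ^ (b + 14) := Nat.pow_le_pow_right hLpos (by omega)
  · obtain ⟨Q, hQ⟩ := hdvd
    have hQ0 : Q ≠ 0 := by
      rintro rfl
      rw [mul_zero] at hQ
      exact hF10 hQ
    have hQt : tdg Q = 0 := by
      have h1 := tdg_mul Ψ Q hΨ0 hQ0
      rw [← hQ, ← he] at h1
      omega
    obtain ⟨k, hk⟩ : ∃ k : ℤ, Q = Polynomial.C (Polynomial.C k) := by
      have h1 := natDegree_le_tdg Q
      rw [hQt] at h1
      have h2 := coeff_natDegree_le_tdg Q 0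
      rw [hQt] at h2
      rw [eq_C_of_natDegree_le_zero h1]
      refine ⟨(Q.coeff 0).coeff 0, ?_⟩
      rw [← eq_C_of_natDegree_le_zero h2]
    have hk0 : k ≠ 0 := by
      rintro rfl
      apply hQ0
      rw [hk]
      simp
    obtain ⟨H, hH⟩ : ∃ H : ℤ, H = (((e + 1) * (e + 2) : ℤ) * M ^ e) ^ ((e + 1) * (e + 2)) :=
      ⟨_, rfl⟩
    have hbase : (1 : ℤ) ≤ ((e + 1) * (e + 2) : ℤ) * M ^ e := by
      have h1 : (1 : ℤ) ≤ M ^ e := one_le_pow₀ hM1
      have h2 : (1 : ℤ) ≤ ((e + 1) * (e + 2) : ℤ) := by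
        have h3 : (1 : ℕ) ≤ (e + 1) * (e + 2) := Nat.mul_pos (by omega) (by omega)
        exact_mod_cast h3
      exact one_le_mul_of_one_le_of_one_le h2 h1
    have hH1 : 1 ≤ H := by rw [hH]; exact one_le_pow₀ hbase
    have hΨH : ∀ j i, |(Ψ.coeff j).coeff i| ≤ H := by
      intro j i
      have h1 := hF1H j i
      rw [← hH, hQ, hk, coeff_mul_C, coeff_mul_C, abs_mul] at h1
      have h2 : 1 ≤ |k| := Int.one_le_abs hk0
      have h3 : |(Ψ.coeff j).coeff i| * 1 ≤ |(Ψ.coeff j).coeff i| * |k| :=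
        mul_le_mul_of_nonneg_left h2 (abs_nonneg _)
      rw [mul_one] at h3
      exact h3.trans h1
    -- the two coefficients
    have hE : Ψ.coeff 1 ≠ 0 := by
      have h1 : Ψ.leadingCoeff ≠ 0 := leadingCoeff_ne_zero.2 hΨ0
      rwa [leadingCoeff, hdeg] at h1
    have hprim : Ψ.IsPrimitive := hirr.isPrimitive (by rw [hdeg]; exact one_ne_zero)
    have hEd : (Ψ.coeff 1).natDegree ≤ e - 1 := by
      have h1 := (tdg_le_iff Ψ e).1 (by rw [he]) 1 (Ψ.coeff 1).natDegree (by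
        rw [coeff_natDegree]; exact leadingCoeff_ne_zero.2 hE)
      omega
    have hAd : (-Ψ.coeff 0).natDegree ≤ e := by
      rw [natDegree_neg, he]
      exact coeff_natDegree_le_tdg Ψ 0
    have hhigh : ∀ j, 2 ≤ j → Ψ.coeff j = 0 := fun j hj =>
      coeff_eq_zero_of_natDegree_lt (by omega)
    have hcop : IsRelPrime (Ψ.coeff 1) (-Ψ.coeff 0) := by
      intro D hD1 hD2
      apply hprim
      rw [C_dvd_iff_dvd_coeff]
      intro j
      rcases Nat.lt_or_ge j 2 with hj | hj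
      · interval_cases j
        · exact (dvd_neg.1 hD2)
        · exact hD1
      · rw [hhigh j hj]
        exact dvd_zero _
    have htop : (Ψ.coeff 1).coeff (e - 1) ≠ 0 ∨ (-Ψ.coeff 0).coeff e ≠ 0 := by
      by_contra hcon
      push Not at hcon
      obtain ⟨hc1, hc2⟩ := hcon
      rw [coeff_neg, neg_eq_zero] at hc2
      have h1 : tdg Ψ ≤ e - 1 := by
        rw [tdg_le_iff]
        intro j i hij
        have h2 := (tdg_le_iff Ψ e).1 (by rw [he]) j i hij
        by_contra h3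
        have h4 : i + j = e := by omega
        rcases Nat.lt_or_ge j 2 with hj | hj
        · interval_cases j
          · apply hij
            rw [add_zero] at h4
            rw [h4]; exact hc2
          · apply hij
            have h5 : i = e - 1 := by omega
            rw [h5]; exact hc1
        · apply hij
          rw [hhigh j hj, coeff_zero]
      omega
    obtain ⟨R, hR0, hRb, hRd⟩ := ratio_bound e he2 H hH1 (Ψ.coeff 1) (-Ψ.coeff 0) hE hEd hAd hcop
      htop (fun i => hΨH 1 i) (fun i => by rw [coeff_neg, abs_neg]; exact hΨH 0 i)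
    have hrel : ∀ v ∈ Z, v.2.2 * hx (e - 1) (Ψ.coeff 1) v.1 v.2.1 =
        hx e (-Ψ.coeff 0) v.1 v.2.1 := by
      intro v hv
      have h1 := hZhm v hv
      obtain ⟨n, hn⟩ : ∃ n, e = n + 1 := ⟨e - 1, by omega⟩
      rw [hn, PCC2_hm n Ψ hdeg v] at h1
      rw [hn, Nat.add_sub_cancel]
      have h2 : hx (n + 1) (-Ψ.coeff 0) v.1 v.2.1 = -hx (n + 1) (Ψ.coeff 0) v.1 v.2.1 := by
        unfold hx
        rw [← Finset.sum_neg_distrib]
        refine Finset.sum_congr rfl fun i _ => ?_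
        rw [coeff_neg]; ring
      rw [h2]
      linarith
    have hcount := PCC2_card e he2 (Ψ.coeff 1) (-Ψ.coeff 0) hE hEd (L ^ (b + 10)) R hR0 Z (by
      intro v hv
      obtain ⟨hvV, -⟩ := hZV v hv
      have h1 := hRd v.1 v.2.1 (hadm.cop v hvV) (hadm.ynz v hvV)
        ⟨v.2.2, by rw [← hrel v hv]; ring⟩
      refine ⟨?_, ?_, hadm.ynz v hvV, h1.1, h1.2, hrel v hv⟩
      · push_cast; exact hadm.bx v hvV
      · push_cast; exact hadm.bdy v hvV)
    -- the size of `R`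
    have heE : (e + 1) * (e + 2) ≤ (E0 + 1) * (E0 + 2) :=
      Nat.mul_le_mul (by omega) (by omega)
    have hHL : H ≤ (L : ℤ) ^ h := by
      have h1 : ((e + 1) * (e + 2) : ℤ) ≤ L := by
        have : (e + 1) * (e + 2) ≤ L := heE.trans hL1
        exact_mod_cast this
      have h2 : M ^ e ≤ (L : ℤ) ^ ((51 * b + 10) * E0) := by
        rw [hM, ← pow_mul]
        exact pow_le_pow_right₀ hLZ (Nat.mul_le_mul_left _ htdg)
      have h3 : ((e + 1) * (e + 2) : ℤ) * M ^ e ≤ (L : ℤ) ^ (1 + (51 * b + 10) * E0) := by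
        rw [pow_add, pow_one]
        exact mul_le_mul h1 h2 (by positivity) (by positivity)
      rw [hH]
      calc (((e + 1) * (e + 2) : ℤ) * M ^ e) ^ ((e + 1) * (e + 2))
          ≤ (((L : ℤ) ^ (1 + (51 * b + 10) * E0))) ^ ((e + 1) * (e + 2)) :=
            pow_le_pow_left₀ (by linarith) h3 _
        _ ≤ (((L : ℤ) ^ (1 + (51 * b + 10) * E0))) ^ ((E0 + 1) * (E0 + 2)) :=
            pow_le_pow_right₀ (one_le_pow₀ hLZ) heE
        _ = (L : ℤ) ^ h := by rw [hh, ← pow_mul]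
    have hRL : R.natAbs ≤ L ^ r := by
      have h1 : (2 * (e + 1) * H : ℤ) ≤ (L : ℤ) ^ (h + 1) := by
        have h2 : (2 * (e + 1) : ℤ) ≤ L := by
          have : 2 * (e + 1) ≤ L := le_trans (Nat.mul_le_mul_left 2 (by omega)) hL2
          exact_mod_cast this
        rw [pow_succ']
        exact mul_le_mul h2 hHL (by linarith) (by positivity)
      have h0 : (0 : ℤ) ≤ 2 * (e + 1) * H := by positivity
      have h3 : |R| ≤ (L : ℤ) ^ r := by
        refine hRb.trans ?_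
        calc (2 * (e + 1) * H : ℤ) ^ (4 * (e + 1)) ≤ ((L : ℤ) ^ (h + 1)) ^ (4 * (e + 1)) :=
              pow_le_pow_left₀ h0 h1 _
          _ ≤ ((L : ℤ) ^ (h + 1)) ^ (4 * (E0 + 1)) :=
              pow_le_pow_right₀ (one_le_pow₀ hLZ) (Nat.mul_le_mul_left _ (by omega))
          _ = (L : ℤ) ^ r := by rw [hr, ← pow_mul]
      have h4 : ((R.natAbs : ℕ) : ℤ) ≤ ((L ^ r : ℕ) : ℤ) := by
        rw [Int.natCast_natAbs]
        push_cast
        exact h3
      exact_mod_cast h4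
    have hdivL : R.natAbs.divisors.card ≤ L := by
      have h1 := hdiv R.natAbs (Int.natAbs_pos.2 hR0)
      have h2 : ((R.natAbs : ℕ) : ℝ) ^ (1 / (2 * (r : ℝ))) ≤ Real.sqrt L := by
        calc ((R.natAbs : ℕ) : ℝ) ^ (1 / (2 * (r : ℝ))) ≤ ((L : ℝ) ^ r) ^ (1 / (2 * (r : ℝ))) := by
              apply Real.rpow_le_rpow (by positivity) _ (by positivity)
              exact_mod_cast hRL
          _ = Real.sqrt L := by
              rw [← Real.rpow_natCast, ← Real.rpow_mul (by positivity), Real.sqrt_eq_rpow]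
              congr 1
              have : (r : ℝ) ≠ 0 := by positivity
              field_simp
      have h3 : C ≤ Real.sqrt L := by
        apply Real.le_sqrt_of_sq_le
        refine (Nat.le_ceil _).trans ?_
        exact_mod_cast hL3
      have h4 : (R.natAbs.divisors.card : ℝ) ≤ L := by
        calc (R.natAbs.divisors.card : ℝ) ≤ C * ((R.natAbs : ℕ) : ℝ) ^ (1 / (2 * (r : ℝ))) := h1
          _ ≤ Real.sqrt L * Real.sqrt L :=
              mul_le_mul h3 h2 (by positivity) (Real.sqrt_nonneg _)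
          _ = L := Real.mul_self_sqrt (by positivity)
      exact_mod_cast h4
    have hB1 : 1 ≤ L ^ (b + 10) := Nat.one_le_pow _ _ hLpos
    calc Z.card ≤ 2 * e * (2 * L ^ (b + 10) + 1) * (2 * R.natAbs.divisors.card) := hcount
      _ ≤ 2 * E0 * (3 * L ^ (b + 10)) * (2 * L) :=
          Nat.mul_le_mul (Nat.mul_le_mul (by omega) (by omega)) (by omega)
      _ = (1320 * b) * (L * L ^ (b + 10)) := by rw [hE0]; ring
      _ ≤ L * (L * L ^ (b + 10)) := Nat.mul_le_mul_right _ hL4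
      _ = L ^ (b + 12) := by ring
      _ ≤ L ^ (b + 14) := Nat.pow_le_pow_right hLpos (by omega)

end FDP
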