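import Pool.Agent.W_fd120a_h8.PCB2
import Pool.Agent.W_fd120a_h8.PCC2
import Pool.Agent.W_fd120a_h8.Lin

set_option autoImplicit false

open Finset Polynomial
open scoped Classical

namespace FDP

/-- Small degree: `natDegree_zero_case` (no point, as `tdg Ψ ≥ 2`), `pcC` (natDegree one), `pcB2`. -/
theorem small_degree (b : ℕ) (hb : 1000 ≤ b) : ∃ L0 : ℕ, ∀ L, L0 ≤ L →
    ∀ (V : Finset Ln) (d : ℕ) (F Ψ : ℤ[X][X]), PCH b L V d F Ψ → d * L ^ 2 ≤ L ^ (b + 12) →
    tdg Ψ ≤ 110 * b →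
    (V.filter (fun v => Van Ψ v)).card ≤ L ^ (b + 30) + d * L ^ 11 := by
  obtain ⟨L2, h2⟩ := pcB2 b hb
  obtain ⟨L3, h3⟩ := pcC b (by omega)
  refine ⟨L2 + L3 + 1, fun L hL V d F Ψ h hd ht => ?_⟩
  rcases Nat.eq_zero_or_pos Ψ.natDegree with h0 | h0
  · have hemp : V.filter (fun v => Van Ψ v) = ∅ := by
      rw [Finset.filter_eq_empty_iff]
      intro v hv hvan
      have h5 := natDegree_zero_case Ψ h.irr h0 v (h.adm.ynz v hv) hvan
      have h6 := h.e2
      omega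
    rw [hemp]
    simp
  · rcases Nat.lt_or_ge Ψ.natDegree 2 with h1 | h1
    · refine (h3 L (by omega) V d F Ψ h (by omega) ht).trans ?_
      refine le_trans ?_ (Nat.le_add_right _ _)
      exact Nat.pow_le_pow_right (by omega) (by omega)
    · exact h2 L (by omega) V d F Ψ h hd h1 ht

end FDP
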