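import Pool.Agent.W_fd120a_h8.GDefs

set_option autoImplicit false

open Finset
open scoped Classical

namespace FDP

open FD120

/-- Thue's lemma (pigeonhole on the `(B+1)^2 > D` pairs `(y, y')`, `0 ≤ y, y' ≤ B`). -/
theorem thue (B D : ℕ) (hD0 : 0 < D) (hD : D < (B + 1) ^ 2) (Q Q' : ℤ) :
    ∃ y y' : ℤ, (y ≠ 0 ∨ y' ≠ 0) ∧ |y| ≤ B ∧ |y'| ≤ B ∧ (D : ℤ) ∣ Q * y' - Q' * y := by
  have : NeZero D := ⟨by omega⟩
  have hcard : Fintype.card (ZMod D) < Fintype.card (Fin (B + 1) × Fin (B + 1)) := by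
    rw [ZMod.card, Fintype.card_prod, Fintype.card_fin, ← sq]
    exact hD
  obtain ⟨a, a', hne, heq⟩ := Fintype.exists_ne_map_eq_of_card_lt
    (fun a : Fin (B + 1) × Fin (B + 1) =>
      (((Q * (a.2 : ℕ) - Q' * (a.1 : ℕ) : ℤ)) : ZMod D)) hcard
  refine ⟨(a.1 : ℕ) - (a'.1 : ℕ), (a.2 : ℕ) - (a'.2 : ℕ), ?_, ?_, ?_, ?_⟩
  · by_contra h
    push Not at h
    apply hne
    have h1 : (a.1 : ℕ) = (a'.1 : ℕ) := by omega
    have h2 : (a.2 : ℕ) = (a'.2 : ℕ) := by omega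
    exact Prod.ext (Fin.ext h1) (Fin.ext h2)
  · have h1 := a.1.2
    have h2 := a'.1.2
    rw [abs_le]
    constructor <;> omega
  · have h1 := a.2.2
    have h2 := a'.2.2
    rw [abs_le]
    constructor <;> omega
  · rw [← sub_eq_zero, ← Int.cast_sub, ZMod.intCast_zmod_eq_zero_iff_dvd] at heq
    have h1 : Q * (((a.2 : ℕ) : ℤ) - ((a'.2 : ℕ) : ℤ)) - Q' * (((a.1 : ℕ) : ℤ) - ((a'.1 : ℕ) : ℤ)) =
        Q * ((a.2 : ℕ) : ℤ) - Q' * ((a.1 : ℕ) : ℤ) -
          (Q * ((a'.2 : ℕ) : ℤ) - Q' * ((a'.1 : ℕ) : ℤ)) := by ring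
    rw [h1]
    exact heq

/-- Coprime version.  `D` prime, `B < D < (B+1)^2`, `D` divides neither `Q` nor `Q'`: both `y`, `y'` are
non-zero (`D ∣ Q y'` would force `y' = 0`); divide by the gcd, which is prime to `D`. -/
theorem thue_coprime (B D : ℕ) (hDp : D.Prime) (hB : B < D) (hD : D < (B + 1) ^ 2) (Q Q' : ℤ)
    (hQ : ¬ (D : ℤ) ∣ Q) (hQ' : ¬ (D : ℤ) ∣ Q') :
    ∃ y y' : ℤ, IsCoprime y y' ∧ y ≠ 0 ∧ y' ≠ 0 ∧ |y| ≤ B ∧ |y'| ≤ B ∧
      (D : ℤ) ∣ Q * y' - Q' * y := by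
  obtain ⟨y, y', h0, h1, h2, h3⟩ := thue B D hDp.pos hD Q Q'
  have hp : Prime (D : ℤ) := Nat.prime_iff_prime_int.1 hDp
  have hsmall : ∀ t : ℤ, |t| ≤ B → (D : ℤ) ∣ t → t = 0 := by
    intro t ht hd
    by_contra h
    have h4 := Int.le_of_dvd (abs_pos.2 h) ((dvd_abs _ _).2 hd)
    have h5 : (B : ℤ) < D := by exact_mod_cast hB
    omega
  have hy : y ≠ 0 := by
    intro hy
    rw [hy, mul_zero, sub_zero] at h3
    rcases hp.dvd_or_dvd h3 with h4 | h4
    · exact hQ h4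
    · exact h0.elim (fun h => h hy) (fun h => h (hsmall y' h2 h4))
  have hy' : y' ≠ 0 := by
    intro hy'
    rw [hy', mul_zero, zero_sub, dvd_neg] at h3
    rcases hp.dvd_or_dvd h3 with h4 | h4
    · exact hQ' h4
    · exact hy (hsmall y h1 h4)
  obtain ⟨g, z, z', hg, hcop, hz, hz'⟩ := Int.exists_gcd_one' (m := y) (n := y')
    (Int.gcd_pos_of_ne_zero_left _ hy)
  have hg1 : (1 : ℤ) ≤ g := by exact_mod_cast hg
  have hz0 : z ≠ 0 := fun h => hy (by rw [hz, h, zero_mul])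
  have hz0' : z' ≠ 0 := fun h => hy' (by rw [hz', h, zero_mul])
  have hle : ∀ t t' : ℤ, t' = t * g → |t| ≤ |t'| := by
    intro t t' ht
    rw [ht, abs_mul, abs_of_nonneg (by omega : (0 : ℤ) ≤ g)]
    exact le_mul_of_one_le_right (abs_nonneg _) hg1
  have hgle : (g : ℤ) ≤ |y| := by
    rw [hz, abs_mul, abs_of_nonneg (by omega : (0 : ℤ) ≤ g)]
    have : 1 ≤ |z| := Int.one_le_abs hz0
    nlinarith
  refine ⟨z, z', Int.isCoprime_iff_gcd_eq_one.2 hcop, hz0, hz0', (hle z y hz).trans h1,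
    (hle z' y' hz').trans h2, ?_⟩
  have h4 : (D : ℤ) ∣ (Q * z' - Q' * z) * g := by
    have h5 : (Q * z' - Q' * z) * g = Q * y' - Q' * y := by
      rw [hz, hz']
      ring
    rw [h5]
    exact h3
  rcases hp.dvd_or_dvd h4 with h5 | h5
  · exact h5
  · exfalso
    have h6 := hsmall g (by rw [abs_of_nonneg (by omega : (0 : ℤ) ≤ g)]; omega) h5
    omega

/-- From a coprime pair `(y, y')` with `Q y' - Q' y = D U`, `U ≥ 1`, a chart (without the bounds):
`α y + β y' = 1`, `V = (α Q + β Q') mod U`; then `y V ≡ Q`, `y' V ≡ Q'` modulo `U`, and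
`x = (Q - y V) / U`, `x' = (Q' - y' V) / U` satisfy `x y' - x' y = D`. -/
theorem chart_of_pair (Q Q' y y' U D : ℤ) (hcop : IsCoprime y y') (hU : 1 ≤ U)
    (h : Q * y' - Q' * y = D * U) :
    ∃ V x x' : ℤ, 0 ≤ V ∧ V < U ∧ Q = x * U + y * V ∧ Q' = x' * U + y' * V ∧
      x * y' - x' * y = D := by
  obtain ⟨α, β, hαβ⟩ := hcop
  have hU0 : U ≠ 0 := by omega
  obtain ⟨V, hV⟩ : ∃ V, V = (α * Q + β * Q') % U := ⟨_, rfl⟩
  obtain ⟨r, hr⟩ : ∃ r, r = (α * Q + β * Q') / U := ⟨_, rfl⟩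
  have h1 : α * Q + β * Q' = U * r + V := by
    rw [hV, hr]
    exact (Int.mul_ediv_add_emod _ _).symm
  have hQx : Q = (y * r + β * D) * U + y * V := by
    linear_combination (-Q) * hαβ + y * h1 + β * h
  have hQx' : Q' = (y' * r - α * D) * U + y' * V := by
    linear_combination (-Q') * hαβ + y' * h1 - α * h
  refine ⟨V, y * r + β * D, y' * r - α * D, ?_, ?_, hQx, hQx', ?_⟩
  · rw [hV]
    exact Int.emod_nonneg _ hU0
  · rw [hV]
    exact Int.emod_lt_of_pos _ (by omega)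
  · have h2 : U * ((y * r + β * D) * y' - (y' * r - α * D) * y) = U * D := by
      linear_combination h - y' * hQx + y * hQx'
    exact mul_left_cancel₀ hU0 h2

/-- a value in the box is not zero -/
theorem ChartEx_ne (b L : ℕ) (N P : ℤ) (h : Par b L N P) (Q Q' : ℤ) (hQ : Q ∈ PP P)
    (hQ' : Q' ∈ PP P) (hne : Q ≠ Q') (y y' : ℤ) (h0 : y ≠ 0 ∨ y' ≠ 0)
    (h1 : |y| ≤ (L : ℤ) ^ b) (_h2 : |y'| ≤ (L : ℤ) ^ b) : Q * y' - Q' * y ≠ 0 := by
  intro heq
  obtain ⟨hQ1, hQ2, hQp⟩ := PP_mem hQ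
  obtain ⟨hQ1', hQ2', hQp'⟩ := PP_mem hQ'
  have hL : (1 : ℤ) < L := by
    have := h.hL
    exact_mod_cast (by omega : 1 < L)
  have hb := h.hb
  have hlt : (L : ℤ) ^ b < P := by
    have h3 : (L : ℤ) ^ b < (L : ℤ) ^ (51 * b) := pow_lt_pow_right₀ hL (by omega)
    exact h3.trans_le h.P1
  have hPpos : 0 < P := lt_of_le_of_lt (by positivity) hlt
  have hsmall : ∀ t : ℤ, |t| ≤ (L : ℤ) ^ b → Q ∣ t → t = 0 := by
    intro t ht hd
    by_contra h'
    have h4 := Int.le_of_dvd (abs_pos.2 h') ((dvd_abs _ _).2 hd)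
    omega
  have hdvd : Q ∣ Q' * y := ⟨y', by linear_combination -heq⟩
  have hy : y = 0 := by
    rcases hQp.dvd_or_dvd hdvd with h3 | h3
    · exfalso
      apply hne
      have h4 : Associated Q Q' := hQp.associated_of_dvd hQp' h3
      rcases Int.associated_iff.1 h4 with h5 | h5
      · exact h5
      · omega
    · exact hsmall y h1 h3
  have hy' : y' = 0 := by
    rw [hy, mul_zero, sub_zero] at heq
    rcases mul_eq_zero.1 heq with h3 | h3
    · omega
    · exact h3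
  exact h0.elim (fun h => h hy) (fun h => h hy')

/-- few pairs with a small value -/
theorem ChartEx_pairs (B K Q Q' P : ℤ) (hB : 0 ≤ B) (hK : 0 ≤ K) (hP : 0 < P) (hQ : P ≤ Q) :
    ((((Finset.Icc (-B) B) ×ˢ (Finset.Icc (-B) B)).filter
      (fun p : ℤ × ℤ => |Q * p.2 - Q' * p.1| < P * K)).card : ℤ) ≤ (2 * K) * (2 * B + 1) := by
  have hcard : (Finset.Icc (-B) B).card = (2 * B + 1).toNat := by
    rw [Int.card_Icc]
    congr 1
    ring
  have h := Finset.card_le_mul_card_image_of_maps_to (f := fun p : ℤ × ℤ => p.1)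
    (s := ((Finset.Icc (-B) B) ×ˢ (Finset.Icc (-B) B)).filter
      (fun p : ℤ × ℤ => |Q * p.2 - Q' * p.1| < P * K)) (t := Finset.Icc (-B) B)
    (fun p hp => by
      rw [Finset.mem_filter, Finset.mem_product] at hp
      exact hp.1.1) (2 * K).toNat (fun y _ => by
      rcases Finset.eq_empty_or_nonempty ((((Finset.Icc (-B) B) ×ˢ (Finset.Icc (-B) B)).filter
        (fun p : ℤ × ℤ => |Q * p.2 - Q' * p.1| < P * K)).filter (fun p => p.1 = y)) with he | he
      · rw [he, Finset.card_empty]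
        exact Nat.zero_le _
      obtain ⟨p0, hp0, hmin⟩ := Finset.exists_min_image _ (fun p : ℤ × ℤ => p.2) he
      rw [Finset.mem_filter, Finset.mem_filter] at hp0
      have hinj := Finset.card_le_card_of_injOn (fun p : ℤ × ℤ => p.2)
        (s := (((Finset.Icc (-B) B) ×ˢ (Finset.Icc (-B) B)).filter
          (fun p : ℤ × ℤ => |Q * p.2 - Q' * p.1| < P * K)).filter (fun p => p.1 = y))
        (t := Finset.Ico p0.2 (p0.2 + 2 * K)) (fun p hp => by
          have hp1 := hmin p hp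
          rw [Finset.mem_coe, Finset.mem_filter, Finset.mem_filter] at hp
          rw [Finset.mem_coe, Finset.mem_Ico]
          refine ⟨hp1, ?_⟩
          have e1 := hp0.1.2
          have e2 := hp.1.2
          rw [hp0.2] at e1
          rw [hp.2] at e2
          rw [abs_lt] at e1 e2
          by_contra hcon
          push Not at hcon
          have e3 : Q * (p.2 - p0.2) < 2 * (P * K) := by linarith [e1.1, e2.2]
          have e4 : P * (2 * K) ≤ Q * (p.2 - p0.2) := by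
            have e5 : 2 * K ≤ p.2 - p0.2 := by linarith
            calc P * (2 * K) ≤ Q * (2 * K) := mul_le_mul_of_nonneg_right hQ (by linarith)
              _ ≤ Q * (p.2 - p0.2) := mul_le_mul_of_nonneg_left e5 (by linarith)
          linarith) (fun p hp p' hp' hpp => by
          rw [Finset.mem_coe, Finset.mem_filter] at hp hp'
          exact Prod.ext (hp.2.trans hp'.2.symm) hpp)
      refine hinj.trans (le_of_eq ?_)
      rw [Int.card_Ico]
      congr 1
      ring)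
  rw [hcard] at h
  have h1 : ((((Finset.Icc (-B) B) ×ˢ (Finset.Icc (-B) B)).filter
      (fun p : ℤ × ℤ => |Q * p.2 - Q' * p.1| < P * K)).card : ℤ) ≤
      (((2 * K).toNat * (2 * B + 1).toNat : ℕ) : ℤ) := by exact_mod_cast h
  refine h1.trans (le_of_eq ?_)
  rw [Nat.cast_mul, Int.toNat_of_nonneg (by linarith), Int.toNat_of_nonneg (by linarith)]

/-- few large prime divisors -/
theorem ChartEx_div (L m M k : ℕ) (hL : 1 < L) (T : Finset ℕ) (v : ℤ) (hv : v ≠ 0)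
    (hT : ∀ D ∈ T, D.Prime ∧ L ^ m < D ∧ (D : ℤ) ∣ v) (hvM : |v| < (L : ℤ) ^ M)
    (hk : M ≤ m * (k + 1)) : T.card ≤ k := by
  by_contra hcon
  push Not at hcon
  have h1 : ∏ D ∈ T, D ∣ v.natAbs := Finset.prod_primes_dvd _
    (fun D hD => Nat.prime_iff.1 (hT D hD).1)
    (fun D hD => Int.natCast_dvd.1 (hT D hD).2.2)
  have h2 : ∏ D ∈ T, D ≤ v.natAbs := Nat.le_of_dvd (Int.natAbs_pos.2 hv) h1
  have h3 : (L ^ m) ^ T.card ≤ ∏ D ∈ T, D := by
    rw [← Finset.prod_const]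
    exact Finset.prod_le_prod' fun D hD => (hT D hD).2.1.le
  have h4 : v.natAbs < L ^ M := by
    have h5 : ((v.natAbs : ℕ) : ℤ) < ((L ^ M : ℕ) : ℤ) := by
      rw [Int.natCast_natAbs]
      push_cast
      exact hvM
    exact_mod_cast h5
  have h5 : L ^ M ≤ (L ^ m) ^ T.card := by
    rw [← pow_mul]
    exact Nat.pow_le_pow_right (by omega) (hk.trans (Nat.mul_le_mul_left _ (by omega)))
  omega

/-- (version with natural numbers) The number of `D` for which a small value occurs.  For `(y, y') ≠ 0` in the box the integer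
`Q y' - Q' y` is non-zero (`Q ≠ Q'` are primes larger than `L ^ b`); the pairs with
`|Q y' - Q' y| < P L ^ (b-2)` are at most `(2 L^b + 1)(2 L^(b-2) + 1) ≤ 9 L ^ (2b-2)` (for fixed `y`,
`y'` lies in an interval of length `2 L ^ (b-2)`), and each value, being less than `L ^ (52b+1)`, has
at most `27` prime divisors larger than `L ^ (2b-1)`. -/
theorem ChartEx_small_card (b L : ℕ) (N P : ℤ) (h : Par b L N P) (Q Q' : ℤ) (hQ : Q ∈ PP P)
    (hQ' : Q' ∈ PP P) (hne : Q ≠ Q') :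
    (((Finset.Ioc (L ^ (2 * b - 1)) (L ^ (2 * b))).filter Nat.Prime).filter
      (fun D : ℕ => ∃ y y' : ℤ, (y ≠ 0 ∨ y' ≠ 0) ∧ |y| ≤ (L : ℤ) ^ b ∧ |y'| ≤ (L : ℤ) ^ b ∧
        (D : ℤ) ∣ Q * y' - Q' * y ∧ |Q * y' - Q' * y| < P * (L : ℤ) ^ (b - 2))).card ≤
      243 * L ^ (2 * b - 2) := by
  obtain ⟨hQ1, hQ2, hQp⟩ := PP_mem hQ
  have hL := h.hL
  have hb := h.hb
  have hLz : (1000000 : ℤ) ≤ (L : ℤ) := by exact_mod_cast hL
  have hPpos : 0 < P := lt_of_lt_of_le (by positivity) h.P1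
  obtain ⟨S, hS⟩ : ∃ S : Finset (ℤ × ℤ), S =
    ((Finset.Icc (-(L : ℤ) ^ b) ((L : ℤ) ^ b)) ×ˢ (Finset.Icc (-(L : ℤ) ^ b) ((L : ℤ) ^ b))).filter
      (fun p : ℤ × ℤ => |Q * p.2 - Q' * p.1| < P * (L : ℤ) ^ (b - 2)) := ⟨_, rfl⟩
  have hSc : S.card ≤ 9 * L ^ (2 * b - 2) := by
    have h1 := ChartEx_pairs ((L : ℤ) ^ b) ((L : ℤ) ^ (b - 2)) Q Q' P (by positivity)
      (by positivity) hPpos hQ1
    rw [← hS] at h1
    have h2 : (1 : ℤ) ≤ (L : ℤ) ^ b := one_le_pow₀ (by linarith)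
    have h3 : (0 : ℤ) < (L : ℤ) ^ (b - 2) := by positivity
    have h4 : (L : ℤ) ^ (2 * b - 2) = (L : ℤ) ^ (b - 2) * (L : ℤ) ^ b := by
      rw [← pow_add]
      congr 1
      omega
    have h5 : (S.card : ℤ) ≤ ((9 * L ^ (2 * b - 2) : ℕ) : ℤ) := by
      push_cast
      rw [h4]
      nlinarith
    exact_mod_cast h5
  have hsub : (((Finset.Ioc (L ^ (2 * b - 1)) (L ^ (2 * b))).filter Nat.Prime).filter
      (fun D : ℕ => ∃ y y' : ℤ, (y ≠ 0 ∨ y' ≠ 0) ∧ |y| ≤ (L : ℤ) ^ b ∧ |y'| ≤ (L : ℤ) ^ b ∧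
        (D : ℤ) ∣ Q * y' - Q' * y ∧ |Q * y' - Q' * y| < P * (L : ℤ) ^ (b - 2))) ⊆
      S.biUnion (fun p => if (p.1 ≠ 0 ∨ p.2 ≠ 0) then
        ((Finset.Ioc (L ^ (2 * b - 1)) (L ^ (2 * b))).filter
          (fun D : ℕ => D.Prime ∧ (D : ℤ) ∣ Q * p.2 - Q' * p.1)) else ∅) := by
    intro D hD
    rw [Finset.mem_filter, Finset.mem_filter] at hD
    obtain ⟨⟨hD1, hD2⟩, y, y', h0, h1, h2, h3, h4⟩ := hD
    rw [Finset.mem_biUnion]
    refine ⟨(y, y'), ?_, ?_⟩
    · rw [hS, Finset.mem_filter, Finset.mem_product, Finset.mem_Icc, Finset.mem_Icc]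
      exact ⟨⟨abs_le.1 h1, abs_le.1 h2⟩, h4⟩
    · simp only
      rw [if_pos h0, Finset.mem_filter]
      exact ⟨hD1, hD2, h3⟩
  refine (Finset.card_le_card hsub).trans ?_
  refine (Finset.card_biUnion_le_card_mul S _ 27 fun p hp => ?_).trans ?_
  · split_ifs with h0
    · rw [hS, Finset.mem_filter, Finset.mem_product, Finset.mem_Icc, Finset.mem_Icc] at hp
      obtain ⟨⟨h1, h2⟩, h3⟩ := hp
      refine ChartEx_div L (2 * b - 1) (52 * b) 27 (by omega) _ (Q * p.2 - Q' * p.1)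
        (ChartEx_ne b L N P h Q Q' hQ hQ' hne p.1 p.2 h0 (abs_le.2 h1) (abs_le.2 h2))
        (fun D hD => ?_) ?_ (by omega)
      · rw [Finset.mem_filter, Finset.mem_Ioc] at hD
        exact ⟨hD.2.1, hD.1.1, hD.2.2⟩
      · refine h3.trans_le ?_
        have h4 : (L : ℤ) ^ (52 * b) = (L : ℤ) ^ (51 * b) * (L : ℤ) ^ (b - 2) * (L : ℤ) ^ 2 := by
          rw [← pow_add, ← pow_add]
          congr 1
          omega
        rw [h4]
        have h5 := h.P2
        have h6 : (0 : ℤ) < (L : ℤ) ^ (b - 2) := by positivity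
        have h7 : (0 : ℤ) < (L : ℤ) ^ (51 * b) := by positivity
        have h8 : (4 : ℤ) ≤ (L : ℤ) ^ 2 := by nlinarith
        calc P * (L : ℤ) ^ (b - 2) ≤ 4 * (L : ℤ) ^ (51 * b) * (L : ℤ) ^ (b - 2) :=
              mul_le_mul_of_nonneg_right h5 h6.le
          _ = (L : ℤ) ^ (51 * b) * (L : ℤ) ^ (b - 2) * 4 := by ring
          _ ≤ (L : ℤ) ^ (51 * b) * (L : ℤ) ^ (b - 2) * (L : ℤ) ^ 2 :=
              mul_le_mul_of_nonneg_left h8 (by positivity)
    · rw [Finset.card_empty]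
      exact Nat.zero_le _
  · calc S.card * 27 ≤ 9 * L ^ (2 * b - 2) * 27 := Nat.mul_le_mul_right _ hSc
      _ = 243 * L ^ (2 * b - 2) := by ring

/-- The number of `D` for which a small value occurs.  For `(y, y') ≠ 0` in the box the integer
`Q y' - Q' y` is non-zero (`Q ≠ Q'` are primes larger than `L ^ b`); the pairs with
`|Q y' - Q' y| < P L ^ (b-2)` are at most `(2 L^b + 1)(2 L^(b-2) + 1) ≤ 9 L ^ (2b-2)` (for fixed `y`,
`y'` lies in an interval of length `2 L ^ (b-2)`), and each value, being less than `L ^ (52b+1)`, has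
at most `27` prime divisors larger than `L ^ (2b-1)`. -/
theorem small_card (b L : ℕ) (N P : ℤ) (h : Par b L N P) (Q Q' : ℤ) (hQ : Q ∈ PP P)
    (hQ' : Q' ∈ PP P) (hne : Q ≠ Q') :
    (((Finset.Ioc (L ^ (2 * b - 1)) (L ^ (2 * b))).filter Nat.Prime).filter
      (fun D => ∃ y y' : ℤ, (y ≠ 0 ∨ y' ≠ 0) ∧ |y| ≤ (L : ℤ) ^ b ∧ |y'| ≤ (L : ℤ) ^ b ∧
        (D : ℤ) ∣ Q * y' - Q' * y ∧ |Q * y' - Q' * y| < P * (L : ℤ) ^ (b - 2))).card ≤
      243 * L ^ (2 * b - 2) := by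
  refine le_trans ?_ (ChartEx_small_card b L N P h Q Q' hQ hQ' hne)
  refine le_trans (Finset.card_le_card (t := ((((Finset.Ioc (L ^ (2 * b - 1))
    (L ^ (2 * b))).filter Nat.Prime).filter
      (fun D : ℕ => ∃ y y' : ℤ, (y ≠ 0 ∨ y' ≠ 0) ∧ |y| ≤ (L : ℤ) ^ b ∧ |y'| ≤ (L : ℤ) ^ b ∧
        (D : ℤ) ∣ Q * y' - Q' * y ∧ |Q * y' - Q' * y| < P * (L : ℤ) ^ (b - 2)))).image
        (fun a : ℕ => (a : ℤ))) ?_) Finset.card_image_le
  intro D hD
  rw [Finset.mem_filter] at hD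
  obtain ⟨h1, h2⟩ := hD
  simp only [Finset.bind_def, Finset.pure_def, Finset.mem_sup, Finset.mem_singleton] at h1
  obtain ⟨a, ha, h4⟩ := h1
  rw [Finset.mem_image]
  refine ⟨a, ?_, h4.symm⟩
  rw [Finset.mem_filter]
  refine ⟨ha, ?_⟩
  rw [h4] at h2
  exact h2

/-- At least half of the primes `D` are good.  Proof.  If `D` is not in the set of `small_card`, take
`(y, y')` from `thue_coprime` with `B = L ^ b` (change the sign of the pair so that
`Q y' - Q' y > 0`; it is non-zero as in `small_card`), `U = (Q y' - Q' y) / D`, and `chart_of_pair`.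
`U ≥ P L^(b-2) / L^(2b)`, that is `P ≤ U L ^ (b+2)`; `U ≤ 4 P L^b / L^(2b-1) ≤ L ^ (50b+2)`;
`|x| ≤ (2P + L^b U) / U ≤ 2 L^(b+2) + L^b ≤ L ^ (b+3)`.  And
`243 L^(2b-2) ≤ L ^ (2b-1) / 2`, `Par.pD`. -/
theorem GD_card (b L : ℕ) (N P : ℤ) (h : Par b L N P) (Q Q' : ℤ) (hQ : Q ∈ PP P)
    (hQ' : Q' ∈ PP P) (hne : Q ≠ Q') :
    L ^ (2 * b - 1) ≤ 2 * (GD b L P Q Q').card := by
  obtain ⟨hQ1, hQ2, hQp⟩ := PP_mem hQ
  obtain ⟨hQ1', hQ2', hQp'⟩ := PP_mem hQ'
  have hL := h.hL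
  have hb := h.hb
  have hLz : (1000000 : ℤ) ≤ (L : ℤ) := by exact_mod_cast hL
  have hPpos : 0 < P := lt_of_lt_of_le (by positivity) h.P1
  have hbad := ChartEx_small_card b L N P h Q Q' hQ hQ' hne
  obtain ⟨A, hA⟩ : ∃ A : Finset ℕ, A =
    (Finset.Ioc (L ^ (2 * b - 1)) (L ^ (2 * b))).filter Nat.Prime := ⟨_, rfl⟩
  have hpD := h.pD
  rw [← hA] at hbad hpD
  obtain ⟨p, hp⟩ : ∃ p : ℕ → Prop, p = fun D : ℕ => ∃ y y' : ℤ, (y ≠ 0 ∨ y' ≠ 0) ∧
    |y| ≤ (L : ℤ) ^ b ∧ |y'| ≤ (L : ℤ) ^ b ∧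
        (D : ℤ) ∣ Q * y' - Q' * y ∧ |Q * y' - Q' * y| < P * (L : ℤ) ^ (b - 2) := ⟨_, rfl⟩
  have hbad' : (A.filter p).card ≤ 243 * L ^ (2 * b - 2) := by
    subst hp
    exact hbad
  have hsplit := Finset.card_filter_add_card_filter_not (s := A) p
  have hgood : (A.filter (fun D => ¬ p D)).card ≤ (GD b L P Q Q').card := by
    apply Finset.card_le_card
    intro D hD
    rw [Finset.mem_filter] at hD
    obtain ⟨hDA, hDp⟩ := hD
    have hDA' := hDA
    rw [hA, Finset.mem_filter, Finset.mem_Ioc] at hDA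
    obtain ⟨⟨hD1, hD2⟩, hDpr⟩ := hDA
    unfold GD
    rw [← hA, Finset.mem_filter]
    refine ⟨hDA', ?_⟩
    -- the prime `D` divides neither `Q` nor `Q'`
    have hDz : (D : ℤ) ≤ (L : ℤ) ^ (2 * b) := by exact_mod_cast hD2
    have hDz1 : (L : ℤ) ^ (2 * b - 1) < (D : ℤ) := by exact_mod_cast hD1
    have hDP : (D : ℤ) < P := by
      have h1 : (L : ℤ) ^ (2 * b) < (L : ℤ) ^ (51 * b) :=
        pow_lt_pow_right₀ (by linarith) (by omega)
      exact (hDz.trans_lt h1).trans_le h.P1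
    have hDprime : Prime (D : ℤ) := Nat.prime_iff_prime_int.1 hDpr
    have hnd : ∀ R : ℤ, P ≤ R → Prime R → ¬ (D : ℤ) ∣ R := by
      intro R hR hRp hd
      have h4 : Associated (D : ℤ) R := hDprime.associated_of_dvd hRp hd
      rcases Int.associated_iff.1 h4 with h5 | h5 <;> omega
    have hB : L ^ b < D := by
      refine lt_of_le_of_lt ?_ hD1
      exact Nat.pow_le_pow_right (by omega) (by omega)
    have hDB : D < (L ^ b + 1) ^ 2 := by
      have h1 : L ^ (2 * b) = (L ^ b) ^ 2 := by rw [← pow_mul, mul_comm]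
      rw [h1] at hD2
      exact lt_of_le_of_lt hD2 (Nat.pow_lt_pow_left (Nat.lt_succ_self _) (by norm_num))
    obtain ⟨y, y', hcop, hy, hy', hyB, hyB', hdvd⟩ := thue_coprime (L ^ b) D hDpr hB hDB Q Q'
      (hnd Q hQ1 hQp) (hnd Q' hQ1' hQp')
    push_cast at hyB hyB'
    have hne0 := ChartEx_ne b L N P h Q Q' hQ hQ' hne y y' (Or.inl hy) hyB hyB'
    have hlow : P * (L : ℤ) ^ (b - 2) ≤ |Q * y' - Q' * y| := by
      by_contra hcon
      push Not at hcon
      apply hDp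
      rw [hp]
      exact ⟨y, y', Or.inl hy, hyB, hyB', hdvd, hcon⟩
    -- the chart for a pair with positive value
    have key : ∀ y y' : ℤ, IsCoprime y y' → |y| ≤ (L : ℤ) ^ b → |y'| ≤ (L : ℤ) ^ b →
        (D : ℤ) ∣ Q * y' - Q' * y → 0 < Q * y' - Q' * y →
        P * (L : ℤ) ^ (b - 2) ≤ Q * y' - Q' * y → ∃ c, HasChart b L P ((Q, Q'), D) c := by
      intro y y' hcop hyB hyB' hdvd hpos hlow
      obtain ⟨U, hU⟩ := hdvd
      have hDpos : (0 : ℤ) < D := by exact_mod_cast hDpr.pos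
      have hU1 : 1 ≤ U := by
        by_contra hcon
        push Not at hcon
        have : (D : ℤ) * U ≤ 0 := mul_nonpos_of_nonneg_of_nonpos hDpos.le (by omega)
        omega
      obtain ⟨V, x, x', hV0, hVU, hQx, hQx', hdet⟩ := chart_of_pair Q Q' y y' U D hcop hU1 hU
      have hLb : (1 : ℤ) ≤ (L : ℤ) ^ b := one_le_pow₀ (by linarith)
      -- lower bound for `U`
      have hUlow : P ≤ U * (L : ℤ) ^ (b + 2) := by
        have h1 : P * (L : ℤ) ^ (b - 2) ≤ (U * (L : ℤ) ^ (b + 2)) * (L : ℤ) ^ (b - 2) := by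
          have h2 : (L : ℤ) ^ (b + 2) * (L : ℤ) ^ (b - 2) = (L : ℤ) ^ (2 * b) := by
            rw [← pow_add]
            congr 1
            omega
          rw [mul_assoc, h2]
          calc P * (L : ℤ) ^ (b - 2) ≤ (D : ℤ) * U := by rw [← hU]; exact hlow
            _ ≤ (L : ℤ) ^ (2 * b) * U := mul_le_mul_of_nonneg_right hDz (by omega)
            _ = U * (L : ℤ) ^ (2 * b) := mul_comm _ _
        exact le_of_mul_le_mul_right h1 (by positivity)
      have hUup : U ≤ (L : ℤ) ^ (50 * b + 2) := by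
        have h1 : Q * y' - Q' * y ≤ 4 * P * (L : ℤ) ^ b := by
          have e1 : Q * y' ≤ 2 * P * (L : ℤ) ^ b := by
            calc Q * y' ≤ Q * (L : ℤ) ^ b :=
                  mul_le_mul_of_nonneg_left ((le_abs_self _).trans hyB') (by omega)
              _ ≤ 2 * P * (L : ℤ) ^ b := mul_le_mul_of_nonneg_right hQ2.le (by positivity)
          have e2 : -(Q' * y) ≤ 2 * P * (L : ℤ) ^ b := by
            calc -(Q' * y) = Q' * (-y) := by ring
              _ ≤ Q' * (L : ℤ) ^ b :=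
                  mul_le_mul_of_nonneg_left ((neg_le_abs _).trans hyB) (by omega)
              _ ≤ 2 * P * (L : ℤ) ^ b := mul_le_mul_of_nonneg_right hQ2'.le (by positivity)
          linarith
        have h2 : U * (L : ℤ) ^ (2 * b - 1) ≤ (L : ℤ) ^ (50 * b + 2) * (L : ℤ) ^ (2 * b - 1) := by
          have h3 : (L : ℤ) ^ (50 * b + 2) * (L : ℤ) ^ (2 * b - 1) =
              (L : ℤ) ^ (51 * b) * (L : ℤ) ^ b * (L : ℤ) := by
            rw [← pow_add, ← pow_add, ← pow_succ]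
            congr 1
            omega
          rw [h3]
          have h4 : U * (L : ℤ) ^ (2 * b - 1) ≤ (D : ℤ) * U := by
            rw [mul_comm]
            exact mul_le_mul_of_nonneg_right hDz1.le (by omega)
          have h5 := h.P2
          have h6 : (0 : ℤ) < (L : ℤ) ^ (51 * b) := by positivity
          calc U * (L : ℤ) ^ (2 * b - 1) ≤ Q * y' - Q' * y := by rw [hU]; exact h4
            _ ≤ 4 * P * (L : ℤ) ^ b := h1
            _ ≤ 4 * (4 * (L : ℤ) ^ (51 * b)) * (L : ℤ) ^ b :=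
                mul_le_mul_of_nonneg_right (by linarith) (by positivity)
            _ = (L : ℤ) ^ (51 * b) * (L : ℤ) ^ b * 16 := by ring
            _ ≤ (L : ℤ) ^ (51 * b) * (L : ℤ) ^ b * (L : ℤ) :=
                mul_le_mul_of_nonneg_left (by linarith) (by positivity)
        exact le_of_mul_le_mul_right h2 (by positivity)
      have hmono : (L : ℤ) ^ b ≤ (L : ℤ) ^ (b + 3) :=
        pow_le_pow_right₀ (by linarith) (by omega)
      have hx : ∀ R t x : ℤ, R < 2 * P → P ≤ R → |t| ≤ (L : ℤ) ^ b → R = x * U + t * V →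
          |x| ≤ (L : ℤ) ^ (b + 3) := by
        intro R t x hR hR' ht hRx
        have h1 : |x| * U ≤ (L : ℤ) ^ (b + 3) * U := by
          have h2 : |x| * U = |x * U| := by rw [abs_mul, abs_of_pos (by omega : 0 < U)]
          have h3 : x * U = R - t * V := by rw [hRx]; ring
          have h4 : |t * V| ≤ (L : ℤ) ^ b * U := by
            rw [abs_mul, abs_of_nonneg hV0]
            exact mul_le_mul ht hVU.le hV0 (by positivity)
          have h5 : |R - t * V| ≤ 2 * P + (L : ℤ) ^ b * U := by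
            refine (abs_sub _ _).trans ?_
            rw [abs_of_nonneg (by omega : 0 ≤ R)]
            linarith
          have h6 : 2 * P + (L : ℤ) ^ b * U ≤ (L : ℤ) ^ (b + 3) * U := by
            have h7 : (L : ℤ) ^ (b + 3) = (L : ℤ) ^ (b + 2) * L := pow_succ _ _
            have h8 : (L : ℤ) ^ (b + 2) = (L : ℤ) ^ b * L ^ 2 := pow_add _ _ _
            have h9 : (L : ℤ) ^ b * U ≤ (L : ℤ) ^ (b + 2) * U := by
              rw [h8]
              apply mul_le_mul_of_nonneg_right _ (by omega)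
              exact le_mul_of_one_le_right (by positivity) (one_le_pow₀ (by linarith))
            have h10 : 0 ≤ (L : ℤ) ^ (b + 2) * U := by positivity
            have h11 : 3 * ((L : ℤ) ^ (b + 2) * U) ≤ (L : ℤ) * ((L : ℤ) ^ (b + 2) * U) :=
              mul_le_mul_of_nonneg_right (by linarith) h10
            have h12 : (L : ℤ) * ((L : ℤ) ^ (b + 2) * U) = (L : ℤ) ^ (b + 3) * U := by
              rw [h7]
              ring
            have h13 : U * (L : ℤ) ^ (b + 2) = (L : ℤ) ^ (b + 2) * U := mul_comm _ _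
            linarith
          rw [h2, h3]
          exact h5.trans h6
        exact le_of_mul_le_mul_right h1 (by omega)
      refine ⟨(U, V, (x, y), (x', y')), ?_⟩
      exact ⟨hU1, hV0, hVU, hQx, hQx', hdet, hx Q y x hQ2 hQ1 hyB hQx, hyB.trans hmono,
        hx Q' y' x' hQ2' hQ1' hyB' hQx', hyB'.trans hmono, hUlow, hUup⟩
    rcases lt_or_gt_of_ne hne0 with hneg | hpos
    · refine key (-y) (-y') hcop.neg_neg (by rwa [abs_neg]) (by rwa [abs_neg]) ?_ ?_ ?_
      · have h1 : Q * -y' - Q' * -y = -(Q * y' - Q' * y) := by ring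
        rw [h1, dvd_neg]
        exact hdvd
      · linarith
      · rw [abs_of_neg hneg] at hlow
        linarith
    · refine key y y' hcop hyB hyB' hdvd hpos ?_
      rwa [abs_of_pos hpos] at hlow
  have hfin : L ^ (2 * b - 1) = L * L ^ (2 * b - 2) := by
    rw [← pow_succ']
    congr 1
    omega
  have h486 : 486 * L ^ (2 * b - 2) ≤ L * L ^ (2 * b - 2) :=
    Nat.mul_le_mul_right _ (by omega)
  omega

/-- The chosen chart. -/
theorem ch_spec (b L : ℕ) (N P : ℤ) (res : ℤ → ℤ) (i : ℕ) (τ : (ℤ × ℤ) × ℕ)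
    (hτ : τ ∈ TR b L N P res i) : HasChart b L P τ (ch b L P τ) := by
  unfold TR at hτ
  rw [Finset.mem_filter] at hτ
  have h1 := hτ.2
  unfold GD at h1
  rw [Finset.mem_filter] at h1
  have h2 : ∃ c, HasChart b L P τ c := h1.2
  unfold ch
  rw [dif_pos h2]
  exact h2.choose_spec

end FDP
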