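import Mathlib

set_option autoImplicit false

open Finset Polynomial

namespace FDP

/-- Determinants of polynomial values at points that are congruent modulo `p`.
Proof by induction on `r`.  Subtract the first column from the others:
`h i (s j) - h i (s 0) = (s j - s 0) * h' i j (s j)` where `h i - C (h i (s 0)) = (X - C (s 0)) * g i`
in `ℤ[X]`, so that `h i (s j) - h i (s 0) = (s j - s 0) * (g i).eval (s j)`; take the factors
`s j - s 0` (`j ≥ 1`, each divisible by `p`, `r - 1` of them) out of the columns and expand along the
first column: the minors are determinants of the same kind, of size `r - 1`, for the polynomials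
`g i`.  Total: `(r - 1) + (r - 1)(r - 2)/2 = r (r - 1)/2`. -/
theorem poly_det (p : ℤ) (r : ℕ) (h : Fin r → ℤ[X]) (s : Fin r → ℤ)
    (hs : ∀ i j, p ∣ s i - s j) :
    p ^ (r * (r - 1) / 2) ∣ Matrix.det (Matrix.of fun i j => (h i).eval (s j)) := by
  induction r with
  | zero => simp
  | succ n ih =>
    have hg : ∀ i, ∃ g : ℤ[X], h i - C ((h i).eval (s 0)) = (X - C (s 0)) * g := by
      intro i
      exact X_sub_C_dvd_sub_C_eval
    choose g hg using hg
    have hge : ∀ i (x : ℤ), (h i).eval x - (h i).eval (s 0) = (x - s 0) * (g i).eval x := by
      intro i x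
      have := congrArg (Polynomial.eval x) (hg i)
      simpa using this
    have key : Matrix.det (Matrix.of fun i j => (h i).eval (s j)) =
        (∏ j : Fin (n + 1), (Fin.cases (motive := fun _ => ℤ) 1
          (fun j : Fin n => s j.succ - s 0) j)) *
        Matrix.det (Matrix.of fun i j : Fin (n + 1) => (Fin.cases (motive := fun _ => ℤ)
          ((h i).eval (s 0)) (fun j : Fin n => (g i).eval (s j.succ)) j)) := by
      rw [← Matrix.det_mul_row, ← Matrix.det_transpose]
      conv_rhs => rw [← Matrix.det_transpose]
      apply Matrix.det_eq_of_forall_row_eq_smul_add_const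
        (fun j : Fin (n + 1) => Fin.cases (motive := fun _ => ℤ) 0 (fun _ => 1) j) 0 rfl
      intro j i
      refine Fin.cases ?_ (fun j => ?_) j
      · simp
      · have := hge i (s j.succ)
        simp only [Matrix.transpose_apply, Matrix.of_apply, Fin.cases_succ, Fin.cases_zero]
        linarith
    rw [key, Nat.triangle_succ n, add_comm, pow_add]
    apply mul_dvd_mul
    · rw [Fin.prod_univ_succ]
      simp only [Fin.cases_zero, Fin.cases_succ, one_mul]
      have h1 : p ^ n = ∏ _j : Fin n, p := by simp
      rw [h1]
      exact Finset.prod_dvd_prod_of_dvd _ _ (fun j _ => hs _ _)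
    · rw [Matrix.det_succ_column_zero]
      apply Finset.dvd_sum
      intro i _
      apply Dvd.dvd.mul_left
      exact ih (fun a => g (i.succAbove a)) (fun b => s b.succ) (fun a b => hs _ _)

end FDP
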