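import Pool.Agent.W_fd120a_h8.Hens
import Pool.Agent.W_fd120a_h8.PolyDet

set_option autoImplicit false

open Finset Polynomial
open scoped Classical

namespace FDP

/-- evaluation at integers, seen in a ring -/
theorem ClassDet_ev_cast {k : Type*} [CommRing k] (u g : ℤ) (F : ℤ[X][X]) :
    ev (u : k) (g : k) F = ((ev u g F : ℤ) : k) := by
  have h : (ev (u : k) (g : k)) = (Int.castRingHom k).comp (ev u g) := by
    apply Polynomial.ringHom_ext
    · intro a
      simp only [ev, coe_eval₂RingHom, eval₂_C, RingHom.comp_apply]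
      rw [Polynomial.hom_eval₂, eq_intCast (Int.castRingHom k) u]
      congr 1
    · simp [ev]
  rw [h]
  rfl

/-- evaluation of a monomial -/
theorem ClassDet_ev_mon {k : Type*} [CommRing k] (u g : k) (a b : ℕ) :
    ev u g (C (X ^ a) * X ^ b) = u ^ a * g ^ b := by
  unfold ev
  rw [coe_eval₂RingHom, eval₂_mul, eval₂_pow, eval₂_X, eval₂_C, coe_eval₂RingHom, eval₂_pow,
    eval₂_X]

/-- a polynomial evaluated at an integer, seen in a ring -/
theorem ClassDet_eval_cast {k : Type*} [CommRing k] (h : ℤ[X]) (s : ℤ) :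
    h.eval₂ (Int.castRingHom k) (s : k) = ((h.eval s : ℤ) : k) := by
  rw [← eq_intCast (Int.castRingHom k) s, Polynomial.eval₂_at_apply, eq_intCast]

/-- Divisibility of the determinant of `r` monomials at `r` points of the curve in one class mod `p`
(the monomials need not be distinct, nor the points).
Proof.  If `r = 0` trivial.  Put `K = r (r-1)/2 + 1`, `R = ZMod (p ^ K)`; the `y i` are units of `R`,
put `u i = x i / y i`, `g i = c i / y i`; choose integers `u0`, `g0` with `u0 y_0 ≡ x_0`,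
`g0 y_0 ≡ c_0` modulo `p`; `Ψ` vanishes at `(u i, g i)` in `R` (`hm_cast`, `van_iff`), `Ψ(u0, g0) ≡ 0`
and `Ψ_Γ(u0, g0) ≢ 0` modulo `p`.  By `hensel_param_fun`, for every monomial `U^a Γ^b` there is
`h ∈ ℤ[X]` with `(u i)^a (g i)^b = h (u i - u0)` in `R` for all `i`.  Let `s i` be an integer
representing `u i - u0`; it is divisible by `p`.  The matrix of the statement is congruent modulo
`p ^ K` to the matrix `(y i)^q * (h k)(s i)`, whose determinant is divisible by `p ^ (r (r-1)/2)` by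
`poly_det`. -/
theorem class_det (p : ℕ) (hp : p.Prime) (Ψ : ℤ[X][X]) (r : ℕ) (v : Fin r → Ln) (q : ℕ)
    (m : Fin r → ℕ × ℕ) (hmq : ∀ k, (m k).1 + (m k).2 ≤ q)
    (hy : ∀ i, ¬ (p : ℤ) ∣ (v i).2.1) (hcl : ∀ i j, SameCl p (v i) (v j))
    (hvan : ∀ i, Van Ψ (v i))
    (hns : ∀ i, ¬ (p : ℤ) ∣ hm (tdg Ψ - 1) (derivative Ψ) (v i)) :
    (p : ℤ) ^ (r * (r - 1) / 2) ∣ Matrix.det (Matrix.of fun k i =>
      (v i).1 ^ (m k).1 * (v i).2.2 ^ (m k).2 * (v i).2.1 ^ (q - (m k).1 - (m k).2)) := by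
  rcases Nat.eq_zero_or_pos r with hr | hr
  · subst hr
    simp
  have hpz : Prime (p : ℤ) := Nat.prime_iff_prime_int.1 hp
  obtain ⟨K, hK⟩ : ∃ K, K = r * (r - 1) / 2 + 1 := ⟨_, rfl⟩
  have hK1 : 1 ≤ K := by omega
  have hpK : (p : ℤ) ∣ (p : ℤ) ^ K := dvd_pow_self _ (by omega)
  -- inverses of the y i
  have hinv : ∀ i, ∃ a : ℤ, (p : ℤ) ^ K ∣ a * (v i).2.1 - 1 := by
    intro i
    have h1 : IsCoprime (v i).2.1 ((p : ℤ) ^ K) :=
      IsCoprime.pow_right ((hpz.coprime_iff_not_dvd.2 (hy i)).symm)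
    obtain ⟨a, b, hab⟩ := h1
    exact ⟨a, -b, by linear_combination hab⟩
  choose a ha using hinv
  let i0 : Fin r := ⟨0, hr⟩
  let u : Fin r → ℤ := fun i => (v i).1 * a i
  let g : Fin r → ℤ := fun i => (v i).2.2 * a i
  have hu : ∀ i, (p : ℤ) ^ K ∣ u i * (v i).2.1 - (v i).1 := by
    intro i
    have h := Dvd.dvd.mul_left (ha i) (v i).1
    have e : u i * (v i).2.1 - (v i).1 = (v i).1 * (a i * (v i).2.1 - 1) := by
      simp only [u]
      ring
    rw [e]
    exact h
  have hg : ∀ i, (p : ℤ) ^ K ∣ g i * (v i).2.1 - (v i).2.2 := by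
    intro i
    have h := Dvd.dvd.mul_left (ha i) (v i).2.2
    have e : g i * (v i).2.1 - (v i).2.2 = (v i).2.2 * (a i * (v i).2.1 - 1) := by
      simp only [g]
      ring
    rw [e]
    exact h
  have castK : ∀ z w : ℤ, (p : ℤ) ^ K ∣ z - w → (z : ZMod (p ^ K)) = (w : ZMod (p ^ K)) := by
    intro z w h
    have h2 : ((z - w : ℤ) : ZMod (p ^ K)) = 0 := by
      rw [ZMod.intCast_zmod_eq_zero_iff_dvd]
      exact_mod_cast h
    push_cast at h2
    exact sub_eq_zero.1 h2
  have castp : ∀ z w : ℤ, (p : ℤ) ∣ z - w → (z : ZMod p) = (w : ZMod p) := by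
    intro z w h
    have h2 : ((z - w : ℤ) : ZMod p) = 0 := by
      rw [ZMod.intCast_zmod_eq_zero_iff_dvd]
      exact h
    push_cast at h2
    exact sub_eq_zero.1 h2
  have huK : ∀ i, (u i : ZMod (p ^ K)) * ((v i).2.1 : ZMod (p ^ K)) = ((v i).1 : ZMod (p ^ K)) := by
    intro i
    have h := castK _ _ (hu i)
    push_cast at h
    exact h
  have hgK : ∀ i, (g i : ZMod (p ^ K)) * ((v i).2.1 : ZMod (p ^ K)) =
      ((v i).2.2 : ZMod (p ^ K)) := by
    intro i
    have h := castK _ _ (hg i)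
    push_cast at h
    exact h
  have hyu : ∀ i, IsUnit ((v i).2.1 : ZMod (p ^ K)) := by
    intro i
    have h := castK _ _ (ha i)
    push_cast at h
    exact IsUnit.of_mul_eq_one _ ((mul_comm _ _).trans h)
  -- vanishing
  have hev : ∀ i, ev (u i : ZMod (p ^ K)) (g i : ZMod (p ^ K)) Ψ = 0 := by
    intro i
    have hy0 : (v i).2.1 ≠ 0 := by
      intro h
      exact hy i (by rw [h]; exact dvd_zero _)
    have h0 := (van_iff (tdg Ψ) Ψ le_rfl (v i) hy0).1 (hvan i)
    have h1 := hm_cast (k := ZMod (p ^ K)) (tdg Ψ) Ψ le_rfl (v i) (u i) (g i) (huK i) (hgK i)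
    rw [h0, Int.cast_zero] at h1
    exact ((hyu i).pow _).mul_right_eq_zero.1 h1.symm
  have h0 : (p : ℤ) ∣ ev (u i0) (g i0) Ψ := by
    have h := hev i0
    rw [ClassDet_ev_cast, ZMod.intCast_zmod_eq_zero_iff_dvd] at h
    refine hpK.trans ?_
    exact_mod_cast h
  have h1 : ¬ (p : ℤ) ∣ ev (u i0) (g i0) (derivative Ψ) := by
    intro h
    apply hns i0
    have e1 : (u i0 : ZMod p) * ((v i0).2.1 : ZMod p) = ((v i0).1 : ZMod p) := by
      have h := castp _ _ (hpK.trans (hu i0))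
      push_cast at h
      exact h
    have e2 : (g i0 : ZMod p) * ((v i0).2.1 : ZMod p) = ((v i0).2.2 : ZMod p) := by
      have h := castp _ _ (hpK.trans (hg i0))
      push_cast at h
      exact h
    have h2 := hm_cast (k := ZMod p) (tdg Ψ - 1) (derivative Ψ) (tdg_derivative_le Ψ) (v i0)
      (u i0) (g i0) e1 e2
    rw [ClassDet_ev_cast, (ZMod.intCast_zmod_eq_zero_iff_dvd _ _).2 h, mul_zero] at h2
    exact (ZMod.intCast_zmod_eq_zero_iff_dvd _ _).1 h2
  -- congruences modulo p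
  have hdu : ∀ i, (p : ℤ) ∣ u i - u i0 := by
    intro i
    have h2 : (p : ℤ) ∣ (v i).2.1 * (v i0).2.1 * (u i - u i0) := by
      have e : (v i).2.1 * (v i0).2.1 * (u i - u i0) =
          (v i0).2.1 * (u i * (v i).2.1 - (v i).1) - (v i).2.1 * (u i0 * (v i0).2.1 - (v i0).1)
          + ((v i).1 * (v i0).2.1 - (v i0).1 * (v i).2.1) := by ring
      rw [e]
      exact dvd_add (dvd_sub ((hpK.trans (hu i)).mul_left _) ((hpK.trans (hu i0)).mul_left _))
        (hcl i i0).1
    rcases hpz.dvd_mul.1 h2 with h3 | h3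
    · rcases hpz.dvd_mul.1 h3 with h4 | h4
      · exact absurd h4 (hy i)
      · exact absurd h4 (hy i0)
    · exact h3
  have hdg : ∀ i, (p : ℤ) ∣ g i - g i0 := by
    intro i
    have h2 : (p : ℤ) ∣ (v i).2.1 * (v i0).2.1 * (g i - g i0) := by
      have e : (v i).2.1 * (v i0).2.1 * (g i - g i0) =
          (v i0).2.1 * (g i * (v i).2.1 - (v i).2.2) - (v i).2.1 * (g i0 * (v i0).2.1 - (v i0).2.2)
          + ((v i).2.2 * (v i0).2.1 - (v i0).2.2 * (v i).2.1) := by ring
      rw [e]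
      exact dvd_add (dvd_sub ((hpK.trans (hg i)).mul_left _) ((hpK.trans (hg i0)).mul_left _))
        (hcl i i0).2
    rcases hpz.dvd_mul.1 h2 with h3 | h3
    · rcases hpz.dvd_mul.1 h3 with h4 | h4
      · exact absurd h4 (hy i)
      · exact absurd h4 (hy i0)
    · exact h3
  -- the Hensel parametrisation
  choose H hH using fun k : Fin r =>
    hensel_param_fun p K hp hK1 Ψ (u i0) (g i0) h0 h1 (C (X ^ (m k).1) * X ^ (m k).2)
  have hHi : ∀ k i, (u i : ZMod (p ^ K)) ^ (m k).1 * (g i : ZMod (p ^ K)) ^ (m k).2 =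
      (((H k).eval (u i - u i0) : ℤ) : ZMod (p ^ K)) := by
    intro k i
    have h := hH k (u i) (g i) ?_ ?_ (hev i)
    · rw [ClassDet_ev_mon] at h
      rw [h, ← Int.cast_sub, ClassDet_eval_cast]
    · obtain ⟨t, ht⟩ := hdu i
      refine ⟨(t : ZMod (p ^ K)), ?_⟩
      rw [← Int.cast_sub, ht]
      push_cast
      rfl
    · obtain ⟨t, ht⟩ := hdg i
      refine ⟨(t : ZMod (p ^ K)), ?_⟩
      rw [← Int.cast_sub, ht]
      push_cast
      rfl
  -- the determinant
  have hdet : ((Matrix.det (Matrix.of fun k i =>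
      (v i).1 ^ (m k).1 * (v i).2.2 ^ (m k).2 * (v i).2.1 ^ (q - (m k).1 - (m k).2)) : ℤ) :
        ZMod (p ^ K)) = ((Matrix.det (Matrix.of fun k i => (v i).2.1 ^ q *
          (Matrix.of fun k i => (H k).eval (u i - u i0)) k i) : ℤ) : ZMod (p ^ K)) := by
    have e := fun (M : Matrix (Fin r) (Fin r) ℤ) => (Int.castRingHom (ZMod (p ^ K))).map_det M
    simp only [eq_intCast] at e
    rw [e, e]
    congr 1
    ext k i
    simp only [RingHom.mapMatrix_apply, Matrix.map_apply, Matrix.of_apply, eq_intCast]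
    push_cast
    rw [← huK i, ← hgK i, ← hHi k i]
    have hsplit : ((v i).2.1 : ZMod (p ^ K)) ^ q = ((v i).2.1 : ZMod (p ^ K)) ^ (m k).1 *
        ((v i).2.1 : ZMod (p ^ K)) ^ (m k).2 *
        ((v i).2.1 : ZMod (p ^ K)) ^ (q - (m k).1 - (m k).2) := by
      rw [← pow_add, ← pow_add]
      congr 1
      have := hmq k
      omega
    rw [hsplit]
    ring
  have hdvd : (p : ℤ) ^ K ∣ Matrix.det (Matrix.of fun k i =>
      (v i).1 ^ (m k).1 * (v i).2.2 ^ (m k).2 * (v i).2.1 ^ (q - (m k).1 - (m k).2)) -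
      Matrix.det (Matrix.of fun k i => (v i).2.1 ^ q *
          (Matrix.of fun k i => (H k).eval (u i - u i0)) k i) := by
    have h2 := sub_eq_zero.2 hdet
    rw [← Int.cast_sub, ZMod.intCast_zmod_eq_zero_iff_dvd] at h2
    exact_mod_cast h2
  have hpd := poly_det (p : ℤ) r H (fun i => u i - u i0) (by
    intro i j
    have : u i - u i0 - (u j - u i0) = (u i - u i0) - (u j - u i0) := rfl
    rw [this]
    exact dvd_sub (hdu i) (hdu j))
  have hrow := Matrix.det_mul_row (fun i => (v i).2.1 ^ q)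
    (Matrix.of fun k i => (H k).eval (u i - u i0))
  have hfin : (p : ℤ) ^ (r * (r - 1) / 2) ∣ Matrix.det (Matrix.of fun k i => (v i).2.1 ^ q *
          (Matrix.of fun k i => (H k).eval (u i - u i0)) k i) := by
    rw [hrow]
    exact hpd.mul_left _
  have hle : (p : ℤ) ^ (r * (r - 1) / 2) ∣ (p : ℤ) ^ K := pow_dvd_pow _ (by omega)
  have := dvd_add (hle.trans hdvd) hfin
  simpa using this

end FDP
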