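import Pool.Agent.W_fd120a_h8.RankF
import Pool.Agent.W_fd120a_h8.Siegel

set_option autoImplicit false

open Finset Polynomial
open scoped Classical

namespace FDP

/-- elements of `C` whose vectors are a basis of the span -/
theorem rankG_basis (k : ℕ) (C : Finset Ln) :
    ∃ v : Fin (rk k C) → Ln, (∀ i, v i ∈ C) ∧ LinearIndependent ℚ (fun i => evv k (v i)) ∧
      Submodule.span ℚ (Set.range (fun i => evv k (v i))) =
        Submodule.span ℚ (evv k '' (C : Set Ln)) := by
  obtain ⟨b, hbs, hbspan, hbli⟩ := exists_linearIndependent ℚ (evv k '' (C : Set Ln))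
  have hbfin : b.Finite := (C.finite_toSet.image (evv k)).subset hbs
  have : Fintype b := hbfin.fintype
  have hcard : Fintype.card b = rk k C := by
    unfold rk
    rw [← hbspan, finrank_span_set_eq_card hbli, Set.toFinset_card]
  have e : Fin (rk k C) ≃ b := (Fintype.equivFinOfCardEq hcard).symm
  have hch : ∀ x : b, ∃ v ∈ C, evv k v = x.1 := fun x => by
    obtain ⟨v, hv, hvx⟩ := hbs x.2
    exact ⟨v, hv, hvx⟩
  choose w hw1 hw2 using hch
  have hfun : (fun i => evv k (w (e i))) = (fun x : b => (x : Mon k → ℚ)) ∘ e := by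
    funext i
    exact hw2 _
  refine ⟨fun i => w (e i), fun i => hw1 _, ?_, ?_⟩
  · rw [hfun]
    exact LinearIndependent.comp hbli e e.injective
  · rw [hfun, e.surjective.range_comp, Subtype.range_coe, hbspan]

/-- a square submatrix of full rank -/
theorem rankG_cols {r : ℕ} {β : Type} [Fintype β] (A : Matrix (Fin r) β ℚ)
    (hA : LinearIndependent ℚ A.row) : ∃ m : Fin r → β, IsUnit (Matrix.of fun i j => A j (m i)) := by
  have h1 : A.rank = r := by
    rw [LinearIndependent.rank_matrix hA, Fintype.card_fin]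
  rw [Matrix.rank_eq_finrank_span_cols] at h1
  obtain ⟨b, hbs, hbspan, hbli⟩ := exists_linearIndependent ℚ (Set.range A.col)
  have hbfin : b.Finite := (Set.finite_range A.col).subset hbs
  have : Fintype b := hbfin.fintype
  have hcard : Fintype.card b = r := by
    rw [← hbspan, finrank_span_set_eq_card hbli, Set.toFinset_card] at h1
    exact h1
  have e : Fin r ≃ b := (Fintype.equivFinOfCardEq hcard).symm
  have hch : ∀ x : b, ∃ v : β, A.col v = x.1 := fun x => hbs x.2
  choose w hw using hch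
  refine ⟨fun i => w (e i), ?_⟩
  rw [← Matrix.linearIndependent_rows_iff_isUnit]
  have hfun : (Matrix.of fun i j => A j (w (e i))).row = (fun x : b => (x : Fin r → ℚ)) ∘ e := by
    funext i
    exact hw _
  rw [hfun]
  exact LinearIndependent.comp hbli e e.injective

/-- A non-zero minor of size the rank: choose `rk k C` elements of `C` with linearly independent
vectors `evv k`, and then as many monomials (columns / rows) with non-zero determinant. -/
theorem exists_det_ne (k : ℕ) (C : Finset Ln) :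
    ∃ (v : Fin (rk k C) → Ln) (m : Fin (rk k C) → ℕ × ℕ), (∀ i, v i ∈ C) ∧
      (∀ i, (m i).1 + (m i).2 ≤ k) ∧ Matrix.det (Matrix.of fun i j =>
        (v j).1 ^ (m i).1 * (v j).2.2 ^ (m i).2 * (v j).2.1 ^ (k - (m i).1 - (m i).2)) ≠ 0 := by
  obtain ⟨v, hv, hli, -⟩ := rankG_basis k C
  obtain ⟨m, hm⟩ := rankG_cols (Matrix.of fun (j : Fin (rk k C)) (x : Mon k) => evv k (v j) x) hli
  refine ⟨v, fun i => (m i).1, hv, fun i => (Finset.mem_filter.1 (m i).2).2, ?_⟩
  intro h0
  rw [Matrix.isUnit_iff_isUnit_det] at hm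
  apply hm.ne_zero
  have h3 : (Matrix.of fun i j =>
      (Matrix.of fun (j : Fin (rk k C)) (x : Mon k) => evv k (v j) x) j (m i)) =
      (Matrix.of fun i j => (v j).1 ^ (m i).1.1 * (v j).2.2 ^ (m i).1.2 *
        (v j).2.1 ^ (k - (m i).1.1 - (m i).1.2)).map (Int.castRingHom ℚ) := by
    ext i j
    simp [evv]
  rw [h3, ← RingHom.mapMatrix_apply, ← RingHom.map_det, h0, map_zero]

/-- the form as a linear functional of the vector of monomials -/
theorem rankG_hm (k : ℕ) (F : ℤ[X][X]) (v : Ln) :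
    ((hm k F v : ℤ) : ℚ) = ∑ m : Mon k, ((F.coeff m.1.2).coeff m.1.1 : ℚ) * evv k v m := by
  unfold hm evv
  rw [Finset.sum_coe_sort (Mon k) (fun m => ((F.coeff m.2).coeff m.1 : ℚ) *
    ((v.1 : ℚ) ^ m.1 * (v.2.2 : ℚ) ^ m.2 * (v.2.1 : ℚ) ^ (k - m.1 - m.2)))]
  rw [Finset.sum_sigma']
  push_cast
  symm
  refine Finset.sum_bij' (fun m _ => (⟨m.2, m.1⟩ : Σ _ : ℕ, ℕ)) (fun x _ => (x.2, x.1)) ?_ ?_ ?_ ?_ ?_
  · intro m hm
    obtain ⟨h1, h2⟩ := Finset.mem_filter.1 hm
    rw [Finset.mem_sigma, Finset.mem_range, Finset.mem_range]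
    simp only
    omega
  · rintro ⟨j, i⟩ hx
    rw [Finset.mem_sigma, Finset.mem_range, Finset.mem_range] at hx
    simp only at hx
    unfold Mon
    rw [Finset.mem_filter, Finset.mem_product, Finset.mem_range, Finset.mem_range]
    simp only
    omega
  · rintro m -
    rfl
  · rintro ⟨j, i⟩ -
    rfl
  · rintro m -
    simp only
    ring

/-- A form of degree `k` with small coefficients that vanishes on a set of small rank.
Proof.  Choose `V0 ⊆ A` of `rk k A` elements whose vectors `evv k` span the span for `A`;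
`exists_form` for `V0`; the vanishing of `hm k F v` is linear in `evv k v`. -/
theorem exists_form_of_rk (k : ℕ) (M : ℤ) (hM : 1 ≤ M) (A : Finset Ln)
    (h1 : ∀ v ∈ A, |v.1| ≤ M) (h2 : ∀ v ∈ A, |v.2.1| ≤ M) (h3 : ∀ v ∈ A, |v.2.2| ≤ M)
    (hrk : 4 * rk k A ≤ (k + 1) * (k + 2)) :
    ∃ F : ℤ[X][X], F ≠ 0 ∧ tdg F ≤ k ∧
      (∀ j i, |(F.coeff j).coeff i| ≤ (k + 1) * (k + 2) * M ^ k) ∧ ∀ v ∈ A, hm k F v = 0 := by
  obtain ⟨v, hv, -, hspan⟩ := rankG_basis k A
  have hV0 : ∀ w ∈ Finset.univ.image v, w ∈ A := by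
    intro w hw
    obtain ⟨i, -, rfl⟩ := Finset.mem_image.1 hw
    exact hv i
  obtain ⟨F, hF0, hFd, hFb, hF⟩ := exists_form k M hM (Finset.univ.image v)
    (fun w hw => h1 w (hV0 w hw)) (fun w hw => h2 w (hV0 w hw)) (fun w hw => h3 w (hV0 w hw)) (by
      have h4 : (Finset.univ.image v).card ≤ rk k A := by
        refine Finset.card_image_le.trans ?_
        rw [Finset.card_univ, Fintype.card_fin]
      omega)
  refine ⟨F, hF0, hFd, hFb, fun w hw => ?_⟩
  let ψ : (Mon k → ℚ) →ₗ[ℚ] ℚ := ∑ m : Mon k, ((F.coeff m.1.2).coeff m.1.1 : ℚ) • LinearMap.proj m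
  have hψ : ∀ u : Ln, ψ (evv k u) = ((hm k F u : ℤ) : ℚ) := by
    intro u
    rw [rankG_hm]
    simp [ψ]
  have h4 : Submodule.span ℚ (Set.range (fun i => evv k (v i))) ≤ LinearMap.ker ψ := by
    rw [Submodule.span_le]
    rintro _ ⟨i, rfl⟩
    rw [SetLike.mem_coe, LinearMap.mem_ker, hψ,
      hF (v i) (Finset.mem_image.2 ⟨i, Finset.mem_univ i, rfl⟩), Int.cast_zero]
  have h5 : evv k w ∈ Submodule.span ℚ (Set.range (fun i => evv k (v i))) := by
    rw [hspan]
    exact Submodule.subset_span ⟨w, hw, rfl⟩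
  have h6 := LinearMap.mem_ker.1 (h4 h5)
  rw [hψ] at h6
  exact_mod_cast h6

end FDP
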