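import Pool.Agent.W_fd120a_h8.MultDet
import Pool.Agent.W_fd120a_h8.RankG

set_option autoImplicit false

open Finset Polynomial
open scoped Classical

namespace FDP

theorem ClassRk_entry (b L k : ℕ) (hL : 2 ≤ L) (V : Finset Ln) (hV : Adm b L V) (v : Ln)
    (hv : v ∈ V) (m : ℕ × ℕ) (hm : m.1 + m.2 ≤ k) :
    |v.1 ^ m.1 * v.2.2 ^ m.2 * v.2.1 ^ (k - m.1 - m.2)| ≤ ((L : ℤ) ^ (51 * b + 10)) ^ k := by
  have hL1 : (1 : ℤ) ≤ (L : ℤ) := by exact_mod_cast (by omega : 1 ≤ L)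
  have hM : (L : ℤ) ^ (b + 10) ≤ (L : ℤ) ^ (51 * b + 10) := pow_le_pow_right₀ hL1 (by omega)
  have h0 : (0 : ℤ) ≤ (L : ℤ) ^ (51 * b + 10) := by positivity
  have h1 : |v.1| ^ m.1 ≤ ((L : ℤ) ^ (51 * b + 10)) ^ m.1 :=
    pow_le_pow_left₀ (abs_nonneg _) ((hV.bx v hv).trans hM) _
  have h2 : |v.2.2| ^ m.2 ≤ ((L : ℤ) ^ (51 * b + 10)) ^ m.2 :=
    pow_le_pow_left₀ (abs_nonneg _) (hV.bc v hv) _
  have h3 : |v.2.1| ^ (k - m.1 - m.2) ≤ ((L : ℤ) ^ (51 * b + 10)) ^ (k - m.1 - m.2) :=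
    pow_le_pow_left₀ (abs_nonneg _) ((hV.bdy v hv).trans hM) _
  rw [abs_mul, abs_mul, abs_pow, abs_pow, abs_pow]
  have h4 : ((L : ℤ) ^ (51 * b + 10)) ^ k = ((L : ℤ) ^ (51 * b + 10)) ^ m.1 *
      ((L : ℤ) ^ (51 * b + 10)) ^ m.2 * ((L : ℤ) ^ (51 * b + 10)) ^ (k - m.1 - m.2) := by
    rw [← pow_add, ← pow_add]
    congr 1
    omega
  rw [h4]
  exact mul_le_mul (mul_le_mul h1 h2 (by positivity) (by positivity)) h3 (by positivity)
    (by positivity)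

/-- The rank of the set of the points of the curve in one class modulo `p`.
Proof.  Let `m = mlt p a.1 a.2 Ψ`, `r = rk k C`, `j = 250 b k`, and suppose `r > 500 b k m = 2 j m`
(so `r ≥ 1`).  Let `Δ ≠ 0` be the determinant of `exists_det_ne`.  By `mult_det`,
`p ^ (j (r - j m)) ∣ Δ`, and `j (r - j m) ≥ j r / 2 = 125 b k r`, so
`L ^ (125 b k r) ≤ p ^ (125 b k r) ≤ |Δ|`.  On the other hand
`|Δ| ≤ r! ((L^(51b+10))^k)^r ≤ L^(2 b r) L^((51b+10) k r) < L ^ (125 b k r)`, as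
`r ≤ (k+1)(k+2)/2 ≤ k^2 ≤ L^(2b)` (`rk_le`, `k ≥ 4`). -/
theorem class_rk (b L : ℕ) (hb : 1 ≤ b) (hL : 2 ≤ L) (V : Finset Ln) (hV : Adm b L V)
    (Ψ : ℤ[X][X]) (p : ℕ) (hp : p.Prime) (h : ∃ j i, ¬ (p : ℤ) ∣ (Ψ.coeff j).coeff i)
    (hpL : L < p) (k : ℕ) (hk : 4 ≤ k) (hkL : k ≤ L ^ b) (C : Finset Ln) (hC : C ⊆ V)
    (hy : ∀ v ∈ C, ¬ (p : ℤ) ∣ v.2.1) (a : ℕ × ℕ) (hcl : ∀ v ∈ C, cls p v = a)
    (hvan : ∀ v ∈ C, Van Ψ v) :
    rk k C ≤ 500 * b * k * mlt p a.1 a.2 Ψ := by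
  by_contra hcon
  rw [not_le] at hcon
  obtain ⟨v, mm, hv, hmq, hdet⟩ := exists_det_ne k C
  have h1 := mult_det p hp Ψ h a (rk k C) v k mm hmq (fun i => hy _ (hv i))
    (fun i => hcl _ (hv i)) (fun i => hvan _ (hv i)) (250 * b * k)
  have h2 := Matrix.det_le (A := Matrix.of fun i j =>
      (v j).1 ^ (mm i).1 * (v j).2.2 ^ (mm i).2 * (v j).2.1 ^ (k - (mm i).1 - (mm i).2))
      (abv := (AbsoluteValue.abs : AbsoluteValue ℤ ℤ)) (x := ((L : ℤ) ^ (51 * b + 10)) ^ k)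
      (fun i j => ClassRk_entry b L k hL V hV (v j) (hC (hv j)) (mm i) (hmq i))
  rw [Fintype.card_fin, nsmul_eq_mul] at h2
  have hrk := rk_le k C
  generalize hr : rk k C = r at *
  generalize hm0 : mlt p a.1 a.2 Ψ = m0 at *
  generalize hD : (Matrix.of fun i j =>
      (v j).1 ^ (mm i).1 * (v j).2.2 ^ (mm i).2 * (v j).2.1 ^ (k - (mm i).1 - (mm i).2)).det = D at *
  have h3 : (p : ℤ) ^ (250 * b * k * (r - 250 * b * k * m0)) ≤ |D| :=
    Int.le_of_dvd (abs_pos.2 hdet) ((dvd_abs _ _).2 h1)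
  have hr1 : 1 ≤ r := by omega
  have hpL1 : (1 : ℤ) ≤ (p : ℤ) := by exact_mod_cast hp.one_lt.le
  have hL1 : (1 : ℤ) ≤ (L : ℤ) := by exact_mod_cast (by omega : 1 ≤ L)
  have h4 : 125 * b * k * r ≤ 250 * b * k * (r - 250 * b * k * m0) := by
    have h5 : r ≤ 2 * (r - 250 * b * k * m0) := by
      have : 500 * b * k * m0 = 2 * (250 * b * k * m0) := by ring
      rw [this] at hcon
      omega
    calc 125 * b * k * r ≤ 125 * b * k * (2 * (r - 250 * b * k * m0)) :=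
          Nat.mul_le_mul_left _ h5
      _ = 250 * b * k * (r - 250 * b * k * m0) := by ring
  have h6 : (L : ℤ) ^ (125 * b * k * r) ≤ |D| := by
    refine le_trans ?_ h3
    have hLp : (L : ℤ) ≤ (p : ℤ) := by exact_mod_cast hpL.le
    refine le_trans (pow_le_pow_left₀ (by positivity) hLp _) ?_
    exact pow_le_pow_right₀ hpL1 h4
  have h7 : r ≤ L ^ (2 * b) := by
    have h8 : r ≤ k ^ 2 := by nlinarith
    refine h8.trans ?_
    rw [mul_comm 2 b, pow_mul]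
    exact Nat.pow_le_pow_left hkL 2
  have h8 : ((r.factorial : ℕ) : ℤ) ≤ (L : ℤ) ^ (2 * b * r) := by
    have : r.factorial ≤ L ^ (2 * b * r) := by
      refine (Nat.factorial_le_pow r).trans ?_
      rw [pow_mul]
      exact Nat.pow_le_pow_left h7 r
    exact_mod_cast this
  have h9 : |D| ≤ (L : ℤ) ^ (2 * b * r) * (((L : ℤ) ^ (51 * b + 10)) ^ k) ^ r :=
    le_trans h2 (mul_le_mul_of_nonneg_right h8 (by positivity))
  rw [← pow_mul, ← pow_mul, ← pow_add] at h9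
  have h10 : (L : ℤ) ^ (2 * b * r + (51 * b + 10) * k * r) < (L : ℤ) ^ (125 * b * k * r) := by
    refine pow_lt_pow_right₀ (by exact_mod_cast (by omega : 1 < L)) ?_
    have h11 : 1 ≤ b * k * r := Nat.succ_le_of_lt (by positivity)
    have h12 : 2 * b * r ≤ b * k * r := by
      have : 2 * b ≤ b * k := by nlinarith
      exact Nat.mul_le_mul_right r this
    have h13 : (51 * b + 10) * k * r ≤ 61 * (b * k * r) := by
      have : (51 * b + 10) ≤ 61 * b := by omega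
      calc (51 * b + 10) * k * r ≤ (61 * b) * k * r :=
            Nat.mul_le_mul_right r (Nat.mul_le_mul_right k this)
        _ = 61 * (b * k * r) := by ring
    have h14 : 125 * b * k * r = 125 * (b * k * r) := by ring
    rw [h14]
    omega
  rw [mul_assoc (51 * b + 10) k r] at h10
  exact absurd (h6.trans h9) (not_le.2 h10)

end FDP
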