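import Pool.Agent.W_fd120a_h8.Basic

set_option autoImplicit false

open Finset Polynomial
open scoped Classical

namespace FDP

/-- Coprime pairs with the same quotient are equal up to sign. -/
theorem roots_pair_eq {x y x' y' : ℤ} (h : IsCoprime x y) (h' : IsCoprime x' y')
    (hy : y ≠ 0) (hy' : y' ≠ 0) (he : (x : ℚ) / y = (x' : ℚ) / y') :
    (x', y') = (x, y) ∨ (x', y') = (-x, -y) := by
  have hyq : (y : ℚ) ≠ 0 := by exact_mod_cast hy
  have hyq' : (y' : ℚ) ≠ 0 := by exact_mod_cast hy'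
  have h1 : x * y' = x' * y := by
    rw [div_eq_div_iff hyq hyq'] at he
    exact_mod_cast he
  have d1 : y ∣ y' := by
    have : y ∣ x * y' := ⟨x', by rw [h1]; ring⟩
    exact h.symm.dvd_of_dvd_mul_left this
  have d2 : y' ∣ y := by
    have : y' ∣ x' * y := ⟨x, by rw [← h1]; ring⟩
    exact h'.symm.dvd_of_dvd_mul_left this
  have h2 : y' = y ∨ y' = -y := Int.associated_iff.1 (associated_of_dvd_dvd d2 d1)
  rcases h2 with h2 | h2
  · left
    rw [h2] at h1
    have h3 : x = x' := mul_right_cancel₀ hy h1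
    rw [h2, h3]
  · right
    rw [h2] at h1
    have h3 : -x = x' := mul_right_cancel₀ hy (by rw [← h1]; ring)
    rw [h2, h3]

/-- At most `2 * deg R * L ^ 10` lines of an admissible set have slope a root of `R ≠ 0`: there are
at most `deg R` values of `x / y`, each determines the coprime pair `(x, y)` up to sign, and each
pair has at most `L ^ 10` lifts (`Adm.lift`). -/
theorem root_card (b L : ℕ) (V : Finset Ln) (hV : Adm b L V) (R : ℤ[X]) (hR : R ≠ 0) :
    (V.filter (fun v => R.eval₂ (Int.castRingHom ℚ) ((v.1 : ℚ) / v.2.1) = 0)).card ≤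
      2 * R.natDegree * L ^ 10 := by
  set W := V.filter (fun v => R.eval₂ (Int.castRingHom ℚ) ((v.1 : ℚ) / v.2.1) = 0) with hW
  set f : Ln → ℤ × ℤ := fun v => (v.1, v.2.1) with hf
  set P := W.image f with hP
  set g : ℤ × ℤ → ℚ := fun z => (z.1 : ℚ) / z.2 with hg
  have h1 : W.card ≤ L ^ 10 * P.card := by
    apply Finset.card_le_mul_card_image
    rintro ⟨x, y⟩ _
    refine le_trans (Finset.card_le_card ?_) (hV.lift x y)
    intro v hv
    rw [mem_filter] at hv ⊢
    obtain ⟨hv1, hv2⟩ := hv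
    rw [hW, mem_filter] at hv1
    simp only [hf, Prod.mk.injEq] at hv2
    exact ⟨hv1.1, hv2⟩
  have hPmem : ∀ z ∈ P, IsCoprime z.1 z.2 ∧ z.2 ≠ 0 ∧
      R.eval₂ (Int.castRingHom ℚ) (g z) = 0 := by
    intro z hz
    rw [hP, mem_image] at hz
    obtain ⟨v, hv, rfl⟩ := hz
    rw [hW, mem_filter] at hv
    exact ⟨hV.cop v hv.1, hV.ynz v hv.1, hv.2⟩
  have h2 : P.card ≤ 2 * (P.image g).card := by
    apply Finset.card_le_mul_card_image
    intro u hu
    obtain ⟨z, hz, rfl⟩ := mem_image.1 hu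
    have hsub : P.filter (fun w => g w = g z) ⊆ {z, (-z.1, -z.2)} := by
      intro w hw
      rw [mem_filter] at hw
      obtain ⟨hw1, hw2⟩ := hw
      obtain ⟨a1, a2, _⟩ := hPmem z hz
      obtain ⟨b1, b2, _⟩ := hPmem w hw1
      have := roots_pair_eq a1 b1 a2 b2 (by simpa [hg] using hw2.symm)
      rw [mem_insert, mem_singleton]
      rcases this with h | h
      · left; exact h
      · right; exact h
    exact (Finset.card_le_card hsub).trans (Finset.card_le_two)
  have h3 : (P.image g).card ≤ R.natDegree := by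
    have hinj : Function.Injective (Int.castRingHom ℚ) := Int.cast_injective
    have hR' : R.map (Int.castRingHom ℚ) ≠ 0 := by
      rwa [Ne, Polynomial.map_eq_zero_iff hinj]
    have hsub : P.image g ⊆ (R.map (Int.castRingHom ℚ)).roots.toFinset := by
      intro u hu
      obtain ⟨z, hz, rfl⟩ := mem_image.1 hu
      rw [Multiset.mem_toFinset, Polynomial.mem_roots hR', Polynomial.IsRoot, Polynomial.eval_map]
      exact (hPmem z hz).2.2
    calc (P.image g).card ≤ (R.map (Int.castRingHom ℚ)).roots.toFinset.card :=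
          Finset.card_le_card hsub
      _ ≤ (R.map (Int.castRingHom ℚ)).roots.card := Multiset.toFinset_card_le _
      _ ≤ (R.map (Int.castRingHom ℚ)).natDegree := Polynomial.card_roots' _
      _ ≤ R.natDegree := Polynomial.natDegree_map_le
  calc W.card ≤ L ^ 10 * P.card := h1
    _ ≤ L ^ 10 * (2 * (P.image g).card) := Nat.mul_le_mul_left _ h2
    _ ≤ L ^ 10 * (2 * R.natDegree) := Nat.mul_le_mul_left _ (Nat.mul_le_mul_left _ h3)
    _ = 2 * R.natDegree * L ^ 10 := by ring

/-- Exceptional lines: some coefficient `F.coeff j` is non-zero and vanishes at the slope. -/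
theorem exc_card (b L : ℕ) (V : Finset Ln) (hV : Adm b L V) (F : ℤ[X][X]) (hF : F ≠ 0) :
    (V.filter (fun v => Exc F v)).card ≤ 2 * tdg F * L ^ 10 := by
  obtain ⟨j, hj⟩ : ∃ j, F.coeff j ≠ 0 := by
    by_contra hcon
    push Not at hcon
    exact hF (Polynomial.ext fun j => by rw [hcon j, coeff_zero])
  have h1 := root_card b L V hV (F.coeff j) hj
  have hsub : V.filter (fun v => Exc F v) ⊆
      V.filter (fun v => (F.coeff j).eval₂ (Int.castRingHom ℚ) ((v.1 : ℚ) / v.2.1) = 0) := by
    intro v hv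
    rw [mem_filter] at hv ⊢
    refine ⟨hv.1, ?_⟩
    have h2 : (F.map (eval₂RingHom (Int.castRingHom ℚ) ((v.1 : ℚ) / v.2.1))).coeff j = 0 := by
      have h3 := hv.2
      unfold Exc at h3
      rw [h3, coeff_zero]
    rw [coeff_map] at h2
    simpa using h2
  calc (V.filter (fun v => Exc F v)).card ≤ _ := Finset.card_le_card hsub
    _ ≤ 2 * (F.coeff j).natDegree * L ^ 10 := h1
    _ ≤ 2 * tdg F * L ^ 10 :=
      Nat.mul_le_mul_right _ (Nat.mul_le_mul_left _ (coeff_natDegree_le_tdg F j))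

/-- The size of an admissible set. -/
theorem adm_card (b L : ℕ) (hL : 10 ≤ L) (V : Finset Ln) (hV : Adm b L V) :
    V.card ≤ L ^ (2 * b + 31) := by
  set f : Ln → ℤ × ℤ := fun v => (v.1, v.2.1) with hf
  set M : ℕ := L ^ (b + 10) with hM
  have hM1 : 1 ≤ M := Nat.one_le_pow _ _ (by omega)
  have h1 : V.card ≤ L ^ 10 * (V.image f).card := by
    apply Finset.card_le_mul_card_image
    rintro ⟨x, y⟩ _
    refine le_trans (Finset.card_le_card ?_) (hV.lift x y)
    intro v hv
    rw [mem_filter] at hv ⊢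
    obtain ⟨hv1, hv2⟩ := hv
    simp only [hf, Prod.mk.injEq] at hv2
    exact ⟨hv1, hv2⟩
  have hsub : V.image f ⊆ (Finset.Icc (-(M : ℤ)) M) ×ˢ (Finset.Icc (-(M : ℤ)) M) := by
    intro z hz
    obtain ⟨v, hv, rfl⟩ := mem_image.1 hz
    have h2 := abs_le.1 (hV.bx v hv)
    have h3 := abs_le.1 (hV.bdy v hv)
    rw [mem_product, mem_Icc, mem_Icc]
    have hMc : (M : ℤ) = (L : ℤ) ^ (b + 10) := by rw [hM]; push_cast; rfl
    rw [hMc]
    exact ⟨h2, h3⟩
  have h2 : (V.image f).card ≤ (3 * M) * (3 * M) := by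
    have hc : (Finset.Icc (-(M : ℤ)) M).card ≤ 3 * M := by
      rw [Int.card_Icc]; omega
    calc (V.image f).card ≤ _ := Finset.card_le_card hsub
      _ = (Finset.Icc (-(M : ℤ)) M).card * (Finset.Icc (-(M : ℤ)) M).card := card_product _ _
      _ ≤ (3 * M) * (3 * M) := Nat.mul_le_mul hc hc
  calc V.card ≤ L ^ 10 * (V.image f).card := h1
    _ ≤ L ^ 10 * ((3 * M) * (3 * M)) := Nat.mul_le_mul_left _ h2
    _ = 9 * (L ^ 10 * (M * M)) := by ring
    _ ≤ L * (L ^ 10 * (M * M)) := Nat.mul_le_mul_right _ (by omega)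
    _ = L ^ (2 * b + 31) := by
      rw [hM, ← pow_add, ← pow_add, ← pow_succ']
      congr 1
      ring

end FDP
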