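import Pool.Agent.W_fd120a_h8.Nbr
import Pool.Agent.W_fd120a_h8.Roots

set_option autoImplicit false

open Finset Polynomial
open scoped Classical

namespace FDP

/-- The edges whose left end lies in a set of at most `M` elements, of degrees at most `K`. -/
theorem clean_left (G : Finset (Ln × Ln)) (V1 V2 : Finset Ln) (hG : ∀ e ∈ G, e.1 ∈ V1 ∧ e.2 ∈ V2)
    (P : Ln → Ln → Prop) (K : ℕ)
    (hK : ∀ v ∈ V1, (V2.filter (fun w => (v, w) ∈ G ∧ P v w)).card ≤ K) :
    (G.filter (fun e => P e.1 e.2)).card ≤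
      K * (V1.filter (fun v => ∃ w, (v, w) ∈ G ∧ P v w)).card := by
  set B := G.filter (fun e => P e.1 e.2) with hB
  have h1 : B.card ≤ K * (B.image Prod.fst).card := by
    apply Finset.card_le_mul_card_image
    intro v hv
    obtain ⟨e, he, rfl⟩ := mem_image.1 hv
    rw [hB, mem_filter] at he
    refine le_trans ?_ (hK e.1 (hG e he.1).1)
    refine Finset.card_le_card_of_injOn Prod.snd ?_ ?_
    · intro x hx
      rw [mem_coe, mem_filter, hB, mem_filter] at hx
      rw [mem_coe, mem_filter]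
      refine ⟨(hG x hx.1.1).2, ?_, ?_⟩
      · rw [← hx.2]
        exact hx.1.1
      · rw [← hx.2]
        exact hx.1.2
    · intro x hx y hy hxy
      rw [mem_coe, mem_filter] at hx hy
      exact Prod.ext (hx.2.trans hy.2.symm) hxy
  refine h1.trans (Nat.mul_le_mul_left _ (Finset.card_le_card ?_))
  intro v hv
  obtain ⟨e, he, rfl⟩ := mem_image.1 hv
  rw [hB, mem_filter] at he
  rw [mem_filter]
  exact ⟨(hG e he.1).1, e.2, he.1, he.2⟩

/-- The same for the right ends. -/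
theorem clean_right (G : Finset (Ln × Ln)) (V1 V2 : Finset Ln) (hG : ∀ e ∈ G, e.1 ∈ V1 ∧ e.2 ∈ V2)
    (P : Ln → Ln → Prop) (K : ℕ)
    (hK : ∀ w ∈ V2, (V1.filter (fun v => (v, w) ∈ G ∧ P v w)).card ≤ K) :
    (G.filter (fun e => P e.1 e.2)).card ≤
      K * (V2.filter (fun w => ∃ v, (v, w) ∈ G ∧ P v w)).card := by
  set B := G.filter (fun e => P e.1 e.2) with hB
  have h1 : B.card ≤ K * (B.image Prod.snd).card := by
    apply Finset.card_le_mul_card_image
    intro w hw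
    obtain ⟨e, he, rfl⟩ := mem_image.1 hw
    rw [hB, mem_filter] at he
    refine le_trans ?_ (hK e.2 (hG e he.1).2)
    refine Finset.card_le_card_of_injOn Prod.fst ?_ ?_
    · intro x hx
      rw [mem_coe, mem_filter, hB, mem_filter] at hx
      rw [mem_coe, mem_filter]
      refine ⟨(hG x hx.1.1).1, ?_, ?_⟩
      · rw [← hx.2]
        exact hx.1.1
      · rw [← hx.2]
        exact hx.1.2
    · intro x hx y hy hxy
      rw [mem_coe, mem_filter] at hx hy
      exact Prod.ext hxy (hx.2.trans hy.2.symm)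
  refine h1.trans (Nat.mul_le_mul_left _ (Finset.card_le_card ?_))
  intro w hw
  obtain ⟨e, he, rfl⟩ := mem_image.1 hw
  rw [hB, mem_filter] at he
  rw [mem_filter]
  exact ⟨(hG e he.1).2, e.1, he.1, he.2⟩

/-- The number of edges against `|V1|` and `|V2|`. -/
theorem clean_sizes {b L : ℕ} (hL : 1 ≤ L) {V V1 V2 : Finset Ln} {G : Finset (Ln × Ln)} {g1 g2 : ℕ}
    (h : Sys b L 1 V V1 V2 G g1 g2) :
    V1.card * L ^ (b + 499) ≤ G.card ∧ V2.card * L ^ (b + 499) ≤ G.card ∧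
      g1 * L ^ (b + 498) ≤ G.card ∧ g2 * L ^ (b + 498) ≤ G.card := by
  have hG : 0 < G.card := Finset.card_pos.2 h.ne
  have hle : G.card ≤ V1.card * V2.card := by
    rw [← card_product]
    refine Finset.card_le_card fun e he => ?_
    rw [mem_product]
    exact ⟨(h.edge e he).1, (h.edge e he).2.1⟩
  have hn1 : 0 < V1.card := by
    by_contra hcon
    have : V1.card = 0 := by omega
    rw [this, zero_mul] at hle
    omega
  have hn2 : 0 < V2.card := by
    by_contra hcon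
    have : V2.card = 0 := by omega
    rw [this, mul_zero] at hle
    omega
  have l1 := h.lo1
  have l2 := h.lo2
  rw [pow_one] at l1 l2
  have k1 : V1.card * L ^ (b + 499) ≤ G.card := by
    have : L * (V1.card * L ^ (b + 499)) ≤ L * G.card := by
      calc L * (V1.card * L ^ (b + 499)) = V1.card * L ^ (b + 500) := by ring
        _ ≤ V1.card * g1 := Nat.mul_le_mul_left _ h.big1
        _ ≤ L * G.card := l1
    exact Nat.le_of_mul_le_mul_left this hL
  have k2 : V2.card * L ^ (b + 499) ≤ G.card := by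
    have : L * (V2.card * L ^ (b + 499)) ≤ L * G.card := by
      calc L * (V2.card * L ^ (b + 499)) = V2.card * L ^ (b + 500) := by ring
        _ ≤ V2.card * g2 := Nat.mul_le_mul_left _ h.big2
        _ ≤ L * G.card := l2
    exact Nat.le_of_mul_le_mul_left this hL
  have m1 : L ^ (b + 499) ≤ V1.card := by
    have : V2.card * L ^ (b + 499) ≤ V2.card * V1.card := by
      rw [mul_comm V2.card V1.card]
      exact k2.trans hle
    exact Nat.le_of_mul_le_mul_left this hn2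
  have m2 : L ^ (b + 499) ≤ V2.card := by
    have : V1.card * L ^ (b + 499) ≤ V1.card * V2.card := k1.trans hle
    exact Nat.le_of_mul_le_mul_left this hn1
  refine ⟨k1, k2, ?_, ?_⟩
  · have : L * (g1 * L ^ (b + 498)) ≤ L * G.card := by
      calc L * (g1 * L ^ (b + 498)) = L ^ (b + 499) * g1 := by ring
        _ ≤ V1.card * g1 := Nat.mul_le_mul_right _ m1
        _ ≤ L * G.card := l1
    exact Nat.le_of_mul_le_mul_left this hL
  · have : L * (g2 * L ^ (b + 498)) ≤ L * G.card := by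
      calc L * (g2 * L ^ (b + 498)) = L ^ (b + 499) * g2 := by ring
        _ ≤ V2.card * g2 := Nat.mul_le_mul_right _ m2
        _ ≤ L * G.card := l2
    exact Nat.le_of_mul_le_mul_left this hL

/-- Removal of the exceptional vertices and of the bad edges.
Proof.  `n1 = |V1|`, `n2 = |V2|`, `e = |G|`: `n1 g1 ≤ L e`, `n2 g2 ≤ L e`, `e ≤ n1 n2`, so
`n1 ≥ g2 / L`, `n2 ≥ g1 / L`.  Remove from `G` the edges with an exceptional end (`exc_card`: at most
`2 d L^10` vertices, of degrees at most `g1 L` resp. `g2 L`; `2 d L^10 g1 L ≤ e / 100` because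
`e ≥ n1 g1 / L ≥ g1 g2 / L^2` and `g2 ≥ L^(b+500)`, `d ≤ L^(b-400)`), and the edges `(v, w)` such that
some divisor of `F` vanishes at `v` and not at `w`, or at `w` and not at `v`: by `bad_nbrs` at most
`n2 d L^11 + n1 d L^11 ≤ 2 L e d L^11 / L^(b+500) ≤ e / 100`. -/
theorem clean (b : ℕ) (hb : 1000 ≤ b) : ∃ L0 : ℕ, ∀ L, L0 ≤ L →
    ∀ (V V1 V2 : Finset Ln) (G : Finset (Ln × Ln)) (g1 g2 : ℕ), Sys b L 1 V V1 V2 G g1 g2 →
    ∀ (d : ℕ) (F : ℤ[X][X]), 1 ≤ d → d ≤ L ^ (b - 400) → F ≠ 0 → tdg F ≤ d →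
    (∀ j i, |(F.coeff j).coeff i| ≤ (L : ℤ) ^ (52 * b * d)) →
    ∃ G2 : Finset (Ln × Ln), G2 ⊆ G ∧ 8 * (G \ G2).card ≤ G.card ∧
      ∀ e ∈ G2, ∀ Ψ : ℤ[X][X], Ψ ∣ F → (Van Ψ e.1 ↔ Van Ψ e.2) := by
  obtain ⟨L1, hL1⟩ := bad_nbrs b hb
  refine ⟨max L1 64, fun L hL V V1 V2 G g1 g2 h d F hd hdL hF htd hF2 => ?_⟩
  have hLL1 : L1 ≤ L := by omega
  have hL64 : 64 ≤ L := by omega
  obtain ⟨s1, s2, s3, s4⟩ := clean_sizes (by omega : 1 ≤ L) h
  have hG : ∀ e ∈ G, e.1 ∈ V1 ∧ e.2 ∈ V2 := fun e he => ⟨(h.edge e he).1, (h.edge e he).2.1⟩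
  have hexc := exc_card b L V h.adm F hF
  set B1 := G.filter (fun e => Exc F e.1) with hB1
  set B2 := G.filter (fun e => Exc F e.2) with hB2
  set B3 := G.filter (fun e => ¬ Exc F e.2 ∧ ∃ Ψ : ℤ[X][X], Ψ ∣ F ∧ Van Ψ e.1 ∧ ¬ Van Ψ e.2) with hB3
  set B4 := G.filter (fun e => ¬ Exc F e.1 ∧ ∃ Ψ : ℤ[X][X], Ψ ∣ F ∧ Van Ψ e.2 ∧ ¬ Van Ψ e.1) with hB4
  have hpow : L ^ (b - 400) * L ^ 11 * 64 ≤ L ^ (b + 498) := by
    calc L ^ (b - 400) * L ^ 11 * 64 ≤ L ^ (b - 400) * L ^ 11 * L := Nat.mul_le_mul_left _ hL64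
      _ = L ^ (b - 400 + 12) := by ring
      _ ≤ L ^ (b + 498) := Nat.pow_le_pow_right (by omega) (by omega)
  have hpow2 : L ^ (b + 498) ≤ L ^ (b + 499) := Nat.pow_le_pow_right (by omega) (by omega)
  have c1 : B1.card ≤ (g1 * L) * (2 * d * L ^ 10) := by
    refine (clean_left G V1 V2 hG (fun v w => Exc F v) (g1 * L) ?_).trans
      (Nat.mul_le_mul_left _ ?_)
    · intro v hv
      have := h.up1 v hv
      rw [pow_one] at this
      refine le_trans (Finset.card_le_card ?_) this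
      intro w hw
      rw [mem_filter] at hw ⊢
      exact ⟨hw.1, hw.2.1⟩
    · refine le_trans (Finset.card_le_card ?_) (hexc.trans ?_)
      · intro v hv
        rw [mem_filter] at hv ⊢
        obtain ⟨w, hw⟩ := hv.2
        exact ⟨h.s1 hv.1, hw.2⟩
      · exact Nat.mul_le_mul_right _ (Nat.mul_le_mul_left _ htd)
  have c2 : B2.card ≤ (g2 * L) * (2 * d * L ^ 10) := by
    refine (clean_right G V1 V2 hG (fun v w => Exc F w) (g2 * L) ?_).trans
      (Nat.mul_le_mul_left _ ?_)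
    · intro w hw
      have := h.up2 w hw
      rw [pow_one] at this
      refine le_trans (Finset.card_le_card ?_) this
      intro v hv
      rw [mem_filter] at hv ⊢
      exact ⟨hv.1, hv.2.1⟩
    · refine le_trans (Finset.card_le_card ?_) (hexc.trans ?_)
      · intro w hw
        rw [mem_filter] at hw ⊢
        obtain ⟨v, hv⟩ := hw.2
        exact ⟨h.s2 hw.1, hv.2⟩
      · exact Nat.mul_le_mul_right _ (Nat.mul_le_mul_left _ htd)
  have c3 : B3.card ≤ (d * L ^ 11) * V2.card := by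
    suffices hs : ∀ w ∈ V2, (V1.filter (fun v => (v, w) ∈ G ∧
        (¬ Exc F w ∧ ∃ Ψ : ℤ[X][X], Ψ ∣ F ∧ Van Ψ v ∧ ¬ Van Ψ w))).card ≤ d * L ^ 11 by
      have key := (clean_right G V1 V2 hG
        (fun v w => ¬ Exc F w ∧ ∃ Ψ : ℤ[X][X], Ψ ∣ F ∧ Van Ψ v ∧ ¬ Van Ψ w) (d * L ^ 11)
        (fun w hw => le_trans (le_of_eq (by congr 1; ext x; simp only [mem_filter])) (hs w hw))).trans
          (Nat.mul_le_mul_left _ (Finset.card_filter_le _ _))
      refine le_trans (le_of_eq ?_) key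
      rw [hB3]
      congr 1
      ext x
      simp only [mem_filter]
    intro w hw
    by_cases hex : Exc F w
    · rw [Finset.filter_false_of_mem]
      · simp
      · intro v hv hcon
        exact hcon.2.1 hex
    · refine le_trans (Finset.card_le_card ?_)
        (hL1 L hLL1 V h.adm d F hd hF htd hF2 w (h.s2 hw) hex)
      intro v hv
      rw [mem_filter] at hv ⊢
      exact ⟨h.s1 hv.1, (h.edge _ hv.2.1).2.2, hv.2.2.2⟩
  have c4 : B4.card ≤ (d * L ^ 11) * V1.card := by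
    suffices hs : ∀ v ∈ V1, (V2.filter (fun w => (v, w) ∈ G ∧
        (¬ Exc F v ∧ ∃ Ψ : ℤ[X][X], Ψ ∣ F ∧ Van Ψ w ∧ ¬ Van Ψ v))).card ≤ d * L ^ 11 by
      have key := (clean_left G V1 V2 hG
        (fun v w => ¬ Exc F v ∧ ∃ Ψ : ℤ[X][X], Ψ ∣ F ∧ Van Ψ w ∧ ¬ Van Ψ v) (d * L ^ 11)
        (fun w hw => le_trans (le_of_eq (by congr 1; ext x; simp only [mem_filter])) (hs w hw))).trans
          (Nat.mul_le_mul_left _ (Finset.card_filter_le _ _))
      refine le_trans (le_of_eq ?_) key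
      rw [hB4]
      congr 1
      ext x
      simp only [mem_filter]
    intro v hv
    by_cases hex : Exc F v
    · rw [Finset.filter_false_of_mem]
      · simp
      · intro w hw hcon
        exact hcon.2.1 hex
    · refine le_trans (Finset.card_le_card ?_)
        (hL1 L hLL1 V h.adm d F hd hF htd hF2 v (h.s1 hv) hex)
      intro w hw
      rw [mem_filter] at hw ⊢
      exact ⟨h.s2 hw.1, (h.edge _ hw.2.1).2.2.symm, hw.2.2.2⟩
  have d1 : 32 * B1.card ≤ G.card := by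
    calc 32 * B1.card ≤ 32 * ((g1 * L) * (2 * d * L ^ 10)) := Nat.mul_le_mul_left _ c1
      _ = g1 * (d * L ^ 11 * 64) := by ring
      _ ≤ g1 * (L ^ (b - 400) * L ^ 11 * 64) :=
          Nat.mul_le_mul_left _ (Nat.mul_le_mul_right _ (Nat.mul_le_mul_right _ hdL))
      _ ≤ g1 * L ^ (b + 498) := Nat.mul_le_mul_left _ hpow
      _ ≤ G.card := s3
  have d2 : 32 * B2.card ≤ G.card := by
    calc 32 * B2.card ≤ 32 * ((g2 * L) * (2 * d * L ^ 10)) := Nat.mul_le_mul_left _ c2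
      _ = g2 * (d * L ^ 11 * 64) := by ring
      _ ≤ g2 * (L ^ (b - 400) * L ^ 11 * 64) :=
          Nat.mul_le_mul_left _ (Nat.mul_le_mul_right _ (Nat.mul_le_mul_right _ hdL))
      _ ≤ g2 * L ^ (b + 498) := Nat.mul_le_mul_left _ hpow
      _ ≤ G.card := s4
  have d3 : 32 * B3.card ≤ G.card := by
    calc 32 * B3.card ≤ 32 * ((d * L ^ 11) * V2.card) := Nat.mul_le_mul_left _ c3
      _ ≤ 64 * ((d * L ^ 11) * V2.card) := Nat.mul_le_mul_right _ (by norm_num)
      _ = V2.card * (d * L ^ 11 * 64) := by ring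
      _ ≤ V2.card * (L ^ (b - 400) * L ^ 11 * 64) :=
          Nat.mul_le_mul_left _ (Nat.mul_le_mul_right _ (Nat.mul_le_mul_right _ hdL))
      _ ≤ V2.card * L ^ (b + 499) := Nat.mul_le_mul_left _ (hpow.trans hpow2)
      _ ≤ G.card := s2
  have d4 : 32 * B4.card ≤ G.card := by
    calc 32 * B4.card ≤ 32 * ((d * L ^ 11) * V1.card) := Nat.mul_le_mul_left _ c4
      _ ≤ 64 * ((d * L ^ 11) * V1.card) := Nat.mul_le_mul_right _ (by norm_num)
      _ = V1.card * (d * L ^ 11 * 64) := by ring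
      _ ≤ V1.card * (L ^ (b - 400) * L ^ 11 * 64) :=
          Nat.mul_le_mul_left _ (Nat.mul_le_mul_right _ (Nat.mul_le_mul_right _ hdL))
      _ ≤ V1.card * L ^ (b + 499) := Nat.mul_le_mul_left _ (hpow.trans hpow2)
      _ ≤ G.card := s1
  refine ⟨G \ (B1 ∪ B2 ∪ B3 ∪ B4), Finset.sdiff_subset, ?_, ?_⟩
  · have hsub : G \ (G \ (B1 ∪ B2 ∪ B3 ∪ B4)) ⊆ B1 ∪ B2 ∪ B3 ∪ B4 := by
      intro x hx
      rw [mem_sdiff, mem_sdiff] at hx
      by_contra hcon
      exact hx.2 ⟨hx.1, hcon⟩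
    have e1 := Finset.card_le_card hsub
    have e2 : (B1 ∪ B2 ∪ B3 ∪ B4).card ≤ B1.card + B2.card + B3.card + B4.card := by
      refine (Finset.card_union_le _ _).trans (Nat.add_le_add_right ?_ _)
      refine (Finset.card_union_le _ _).trans (Nat.add_le_add_right ?_ _)
      exact Finset.card_union_le _ _
    omega
  · intro e he Ψ hΨ
    rw [mem_sdiff, mem_union, mem_union, mem_union] at he
    obtain ⟨heG, hne⟩ := he
    push Not at hne
    obtain ⟨⟨⟨n1, n2⟩, n3⟩, n4⟩ := hne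
    rw [hB1, mem_filter] at n1
    rw [hB2, mem_filter] at n2
    rw [hB3, mem_filter] at n3
    rw [hB4, mem_filter] at n4
    have x1 : ¬ Exc F e.1 := fun hx => n1 ⟨heG, hx⟩
    have x2 : ¬ Exc F e.2 := fun hx => n2 ⟨heG, hx⟩
    constructor
    · intro hv
      by_contra hw
      exact n3 ⟨heG, x2, Ψ, hΨ, hv, hw⟩
    · intro hv
      by_contra hw
      exact n4 ⟨heG, x1, Ψ, hΨ, hv, hw⟩

end FDP
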