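import Pool.Agent.W_fd120a_h8.Lin
import Pool.Agent.W_fd120a_h8.Bez

set_option autoImplicit false

open Finset Polynomial
open scoped Classical

namespace FDP

theorem Factors_tdg_one : tdg (1 : ℤ[X][X]) = 0 := by
  have h : tdg (1 : ℤ[X][X]) ≤ 0 := by
    rw [tdg_le_iff]
    intro j i hij
    by_contra h0
    apply hij
    rw [coeff_one]
    split_ifs with h1
    · rw [coeff_one, if_neg (by omega)]
    · exact coeff_zero i
  omega

theorem Factors_tdg_assoc {F G : ℤ[X][X]} (hF : F ≠ 0) (h : Associated F G) : tdg F = tdg G := by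
  obtain ⟨u, rfl⟩ := h
  have h1 : tdg ((u : ℤ[X][X]) * ((u⁻¹ : ℤ[X][X]ˣ) : ℤ[X][X])) = 0 := by
    rw [Units.mul_inv, Factors_tdg_one]
  rw [tdg_mul _ _ (Units.ne_zero u) (Units.ne_zero _)] at h1
  rw [tdg_mul _ _ hF (Units.ne_zero u)]
  omega

theorem Factors_tdg_prod (M : Multiset (ℤ[X][X])) (hM : ∀ Ψ ∈ M, Ψ ≠ 0) :
    tdg M.prod = (M.map tdg).sum := by
  induction M using Multiset.induction_on with
  | empty => rw [Multiset.prod_zero, Factors_tdg_one, Multiset.map_zero, Multiset.sum_zero]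
  | cons a M ih =>
    have h1 : M.prod ≠ 0 := by
      intro h0
      rw [Multiset.prod_eq_zero_iff] at h0
      exact hM 0 (Multiset.mem_cons_of_mem h0) rfl
    rw [Multiset.prod_cons, Multiset.map_cons, Multiset.sum_cons,
      tdg_mul _ _ (hM a (Multiset.mem_cons_self a M)) h1,
      ih fun Ψ hΨ => hM Ψ (Multiset.mem_cons_of_mem hΨ)]

theorem Factors_van_assoc {F G : ℤ[X][X]} (h : Associated F G) {v : Ln} (hv : Van F v) :
    Van G v := by
  obtain ⟨u, rfl⟩ := h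
  unfold Van at hv ⊢
  rw [map_mul, hv, zero_mul]

theorem Factors_C_irr {p : ℤ[X]} (hΨ : Irreducible (C p : ℤ[X][X])) : Irreducible p := by
  refine ⟨fun hu => hΨ.not_isUnit (hu.map C), fun a b hab => ?_⟩
  have h1 := hΨ.isUnit_or_isUnit (a := C a) (b := C b) (by rw [← C_mul, ← hab])
  rcases h1 with h1 | h1
  · exact Or.inl (isUnit_C.1 h1)
  · exact Or.inr (isUnit_C.1 h1)

theorem Factors_root {p : ℤ[X]} {v : Ln} (hv : Van (C p) v) :
    (p.map (Int.castRingHom ℚ)).eval ((v.1 : ℚ) / v.2.1) = 0 := by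
  unfold Van ev at hv
  rw [coe_eval₂RingHom, eval₂_C, coe_eval₂RingHom] at hv
  rw [eval_map]
  exact hv

theorem Factors_pos {p : ℤ[X]} (hp : Irreducible p) {r : ℚ}
    (hr : (p.map (Int.castRingHom ℚ)).eval r = 0) : p.natDegree ≠ 0 := by
  intro h0
  have h1 := eq_C_of_natDegree_eq_zero h0
  rw [h1, map_C, eval_C, eq_intCast] at hr
  have h2 : p.coeff 0 = 0 := by exact_mod_cast hr
  rw [h2, C_0] at h1
  exact hp.ne_zero h1

theorem Factors_zero_case {Ψ Ψ' : ℤ[X][X]} (hΨ : Irreducible Ψ) (hΨ' : Irreducible Ψ')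
    (h0 : Ψ.natDegree = 0) (h0' : Ψ'.natDegree = 0) {v : Ln} (hv : Van Ψ v) (hv' : Van Ψ' v) :
    Ψ ∣ Ψ' := by
  obtain ⟨p, hp⟩ : ∃ p : ℤ[X], Ψ = C p := ⟨_, eq_C_of_natDegree_eq_zero h0⟩
  obtain ⟨q, hq⟩ : ∃ q : ℤ[X], Ψ' = C q := ⟨_, eq_C_of_natDegree_eq_zero h0'⟩
  subst hp hq
  have hpi := Factors_C_irr hΨ
  have hqi := Factors_C_irr hΨ'
  have hpr := Factors_root hv
  have hqr := Factors_root hv'
  have hpp : p.IsPrimitive := hpi.isPrimitive (Factors_pos hpi hpr)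
  have hqp : q.IsPrimitive := hqi.isPrimitive (Factors_pos hqi hqr)
  have hpm := (IsPrimitive.Int.irreducible_iff_irreducible_map_cast hpp).1 hpi
  have hdvd : p.map (Int.castRingHom ℚ) ∣ q.map (Int.castRingHom ℚ) := by
    rcases EuclideanDomain.dvd_or_coprime _ (q.map (Int.castRingHom ℚ)) hpm with h | h
    · exact h
    · exfalso
      obtain ⟨a, b, hab⟩ := h
      have h1 := congrArg (eval ((v.1 : ℚ) / v.2.1)) hab
      rw [eval_add, eval_mul, eval_mul, hpr, hqr, mul_zero, mul_zero, add_zero, eval_one] at h1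
      exact zero_ne_one h1
  have h2 := (IsPrimitive.Int.dvd_iff_map_cast_dvd_map_cast p q hpp).2 hdvd
  exact map_dvd C h2

theorem Factors_inter (b L : ℕ) (V : Finset Ln) (hV : Adm b L V) {Ψ Ψ' : ℤ[X][X]}
    (hΨ : Irreducible Ψ) (hΨ' : Irreducible Ψ') (hne : ¬ Associated Ψ Ψ') :
    (V.filter (fun v => Van Ψ v ∧ Van Ψ' v)).card ≤ 2 * (tdg Ψ * tdg Ψ') * L ^ 10 := by
  have h1 : ¬ Ψ ∣ Ψ' := fun h => hne (hΨ.associated_of_dvd hΨ' h)
  have h2 : ¬ Ψ' ∣ Ψ := fun h => hne (hΨ'.associated_of_dvd hΨ h).symm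
  rcases Nat.eq_zero_or_pos Ψ.natDegree with h3 | h3
  · rcases Nat.eq_zero_or_pos Ψ'.natDegree with h4 | h4
    · have h5 : V.filter (fun v => Van Ψ v ∧ Van Ψ' v) = ∅ := by
        rw [Finset.filter_eq_empty_iff]
        rintro v - ⟨hv, hv'⟩
        exact h1 (Factors_zero_case hΨ hΨ' h3 h4 hv hv')
      rw [h5, Finset.card_empty]
      exact Nat.zero_le _
    · have h5 := bezout_card b L V hV Ψ' Ψ hΨ' h4 h2
      have h6 : V.filter (fun v => Van Ψ v ∧ Van Ψ' v) =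
          V.filter (fun v => Van Ψ' v ∧ Van Ψ v) := by
        refine Finset.filter_congr fun v _ => ?_
        exact and_comm
      rw [h6, mul_comm (tdg Ψ)]
      exact h5
  · exact bezout_card b L V hV Ψ Ψ' hΨ h3 h1

/-- The irreducible factors of a form, up to association, and their intersections.
Proof.  Take the set of `UniqueFactorizationMonoid.normalizedFactors F` (`ℤ[X][X]` is a normalised
UFD); the sum of the degrees is at most `tdg F` because `F` is, up to a unit, the product of the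
normalised factors (`tdg_mul`).  Two different ones `Ψ`, `Ψ'` are not associated, so `Ψ ∤ Ψ'`; if one
of them has positive `natDegree` apply `bezout_card`; if both have `natDegree` zero they have no
common zero (an irreducible polynomial of `ℤ[U]` with the rational root `x / y` is associated to the
primitive polynomial of degree one with this root; compare `natDegree_zero_case` in Lin.lean). -/
theorem factors (b L : ℕ) (V : Finset Ln) (hV : Adm b L V) (F : ℤ[X][X]) (hF : F ≠ 0) :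
    ∃ S : Finset (ℤ[X][X]), (∀ Ψ ∈ S, Irreducible Ψ ∧ Ψ ∣ F) ∧
      (∀ v : Ln, Van F v → ∃ Ψ ∈ S, Van Ψ v) ∧ ∑ Ψ ∈ S, tdg Ψ ≤ tdg F ∧
      ∀ Ψ ∈ S, ∀ Ψ' ∈ S, Ψ ≠ Ψ' →
        (V.filter (fun v => Van Ψ v ∧ Van Ψ' v)).card ≤ 2 * (tdg Ψ * tdg Ψ') * L ^ 10 := by
  obtain ⟨M, hM⟩ : ∃ M : Multiset (ℤ[X][X]), M = UniqueFactorizationMonoid.normalizedFactors F :=
    ⟨_, rfl⟩
  have hirr : ∀ Ψ ∈ M, Irreducible Ψ := fun Ψ hΨ =>
    UniqueFactorizationMonoid.irreducible_of_normalized_factor Ψ (hM ▸ hΨ)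
  refine ⟨M.toFinset, ?_, ?_, ?_, ?_⟩
  · intro Ψ hΨ
    rw [Multiset.mem_toFinset] at hΨ
    exact ⟨hirr Ψ hΨ, UniqueFactorizationMonoid.dvd_of_mem_normalizedFactors (hM ▸ hΨ)⟩
  · intro v hv
    obtain ⟨Ψ, h1, h2, h3⟩ := exists_factor F hF v hv
    obtain ⟨q, hq, hq2⟩ := UniqueFactorizationMonoid.exists_mem_normalizedFactors_of_dvd hF h1 h2
    refine ⟨q, ?_, Factors_van_assoc hq2 h3⟩
    rw [Multiset.mem_toFinset, hM]
    exact hq
  · have h1 : tdg M.prod = tdg F := by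
      have h2 : Associated M.prod F := by
        rw [hM]
        exact UniqueFactorizationMonoid.prod_normalizedFactors hF
      have h3 : M.prod ≠ 0 := by
        intro h0
        rw [h0] at h2
        exact hF ((associated_zero_iff_eq_zero _).1 h2.symm)
      exact Factors_tdg_assoc h3 h2
    rw [← h1, Factors_tdg_prod M fun Ψ hΨ => (hirr Ψ hΨ).ne_zero, Finset.sum_multiset_map_count]
    refine Finset.sum_le_sum fun Ψ hΨ => ?_
    rw [Multiset.mem_toFinset] at hΨ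
    rw [smul_eq_mul]
    exact Nat.le_mul_of_pos_left _ (Multiset.count_pos.2 hΨ)
  · intro Ψ hΨ Ψ' hΨ' hne
    rw [Multiset.mem_toFinset] at hΨ hΨ'
    refine Factors_inter b L V hV (hirr Ψ hΨ) (hirr Ψ' hΨ') ?_
    intro ha
    apply hne
    have n1 := UniqueFactorizationMonoid.normalize_normalized_factor Ψ (hM ▸ hΨ)
    have n2 := UniqueFactorizationMonoid.normalize_normalized_factor Ψ' (hM ▸ hΨ')
    rw [← n1, ← n2]
    exact normalize_eq_normalize_iff_associated.2 ha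

/-- Consequence: the sum over the factors of the numbers of points is at most
`|U| + 2 (tdg F) ^ 2 L ^ 10`.  (For `v ∈ U` the number of factors that vanish at `v` is at most one
more than the number of ordered pairs of different factors that vanish at `v`.) -/
theorem factors_sum (b L : ℕ) (V : Finset Ln) (F : ℤ[X][X]) (S : Finset (ℤ[X][X]))
    (hS : ∑ Ψ ∈ S, tdg Ψ ≤ tdg F)
    (hS2 : ∀ Ψ ∈ S, ∀ Ψ' ∈ S, Ψ ≠ Ψ' →
        (V.filter (fun v => Van Ψ v ∧ Van Ψ' v)).card ≤ 2 * (tdg Ψ * tdg Ψ') * L ^ 10)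
    (U : Finset Ln) (hU : U ⊆ V) :
    ∑ Ψ ∈ S, (U.filter (fun v => Van Ψ v)).card ≤ U.card + 2 * tdg F ^ 2 * L ^ 10 := by
  obtain ⟨n, hn⟩ : ∃ n : Ln → ℕ, n = fun v => (S.filter (fun Ψ => Van Ψ v)).card := ⟨_, rfl⟩
  have h1 : ∑ Ψ ∈ S, (U.filter (fun v => Van Ψ v)).card = ∑ v ∈ U, n v := by
    rw [hn]
    simp only [Finset.card_filter]
    rw [Finset.sum_comm]
  have h2 : ∀ v ∈ U, n v ≤ 1 + ((S.offDiag).filter (fun x => Van x.1 v ∧ Van x.2 v)).card := by
    intro v _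
    have h3 : (S.offDiag).filter (fun x => Van x.1 v ∧ Van x.2 v) =
        (S.filter (fun Ψ => Van Ψ v)).offDiag := by
      ext x
      simp only [Finset.mem_filter, Finset.mem_offDiag]
      tauto
    rw [h3, Finset.offDiag_card]
    have h4 : n v = (S.filter (fun Ψ => Van Ψ v)).card := by rw [hn]
    rw [← h4]
    rcases Nat.lt_or_ge (n v) 2 with h5 | h5
    · omega
    · have h6 : n v + n v ≤ n v * n v := by nlinarith
      omega
  have h3 : ∑ v ∈ U, ((S.offDiag).filter (fun x => Van x.1 v ∧ Van x.2 v)).card =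
      ∑ x ∈ S.offDiag, (U.filter (fun v => Van x.1 v ∧ Van x.2 v)).card := by
    simp only [Finset.card_filter]
    rw [Finset.sum_comm]
  have h4 : ∑ x ∈ S.offDiag, (U.filter (fun v => Van x.1 v ∧ Van x.2 v)).card ≤
      ∑ x ∈ S ×ˢ S, 2 * (tdg x.1 * tdg x.2) * L ^ 10 := by
    calc ∑ x ∈ S.offDiag, (U.filter (fun v => Van x.1 v ∧ Van x.2 v)).card
        ≤ ∑ x ∈ S.offDiag, 2 * (tdg x.1 * tdg x.2) * L ^ 10 := by
          refine Finset.sum_le_sum fun x hx => ?_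
          rw [Finset.mem_offDiag] at hx
          refine (Finset.card_le_card ?_).trans (hS2 x.1 hx.1 x.2 hx.2.1 hx.2.2)
          exact Finset.filter_subset_filter _ hU
      _ ≤ ∑ x ∈ S ×ˢ S, 2 * (tdg x.1 * tdg x.2) * L ^ 10 := by
          refine Finset.sum_le_sum_of_subset ?_
          intro x hx
          rw [Finset.mem_offDiag] at hx
          exact Finset.mem_product.2 ⟨hx.1, hx.2.1⟩
  have h5 : ∑ x ∈ S ×ˢ S, 2 * (tdg x.1 * tdg x.2) * L ^ 10 =
      2 * (∑ Ψ ∈ S, tdg Ψ) ^ 2 * L ^ 10 := by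
    rw [← Finset.sum_mul, ← Finset.mul_sum, pow_two, Finset.sum_mul_sum, Finset.sum_product]
  have h6 : (∑ Ψ ∈ S, tdg Ψ) ^ 2 ≤ tdg F ^ 2 := Nat.pow_le_pow_left hS 2
  rw [h1]
  calc ∑ v ∈ U, n v ≤ ∑ v ∈ U, (1 + ((S.offDiag).filter (fun x => Van x.1 v ∧ Van x.2 v)).card) :=
        Finset.sum_le_sum h2
    _ = U.card + ∑ x ∈ S.offDiag, (U.filter (fun v => Van x.1 v ∧ Van x.2 v)).card := by
        rw [Finset.sum_add_distrib, h3, Finset.sum_const, smul_eq_mul, mul_one]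
    _ ≤ U.card + 2 * (∑ Ψ ∈ S, tdg Ψ) ^ 2 * L ^ 10 := by
        rw [← h5]
        exact Nat.add_le_add_left h4 _
    _ ≤ U.card + 2 * tdg F ^ 2 * L ^ 10 := by
        refine Nat.add_le_add_left (Nat.mul_le_mul_right _ (Nat.mul_le_mul_left _ h6)) _

end FDP
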