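import Pool.Agent.W_fd120a_h8.Curve
import Pool.Agent.W_fd120a_h8.Clean
import Pool.Agent.W_fd120a_h8.Factors

set_option autoImplicit false

open Finset Polynomial
open scoped Classical

namespace FDP

theorem comp_arith {b L d e n1 n2 g2 : ℕ} (hb : 1000 ≤ b) (hL : 2 ≤ L) (he : 0 < e)
    (hde : d * e ≤ L ^ 20 * (n1 * n2)) (hlo : n2 * g2 ≤ L ^ 1 * e) (hbig : L ^ (b + 500) ≤ g2)
    (hdL : d ≤ L ^ (b - 400)) : 2 * d ^ 2 * L ^ 10 ≤ n1 := by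
  have hL0 : 0 < L := by omega
  have hg : 0 < g2 := lt_of_lt_of_le (pow_pos hL0 _) hbig
  have h1 : d * g2 ≤ L ^ 21 * n1 := by
    have h2 : (d * g2) * e ≤ (L ^ 21 * n1) * e := by
      calc (d * g2) * e = (d * e) * g2 := by ring
        _ ≤ (L ^ 20 * (n1 * n2)) * g2 := Nat.mul_le_mul_right _ hde
        _ = L ^ 20 * n1 * (n2 * g2) := by ring
        _ ≤ L ^ 20 * n1 * (L ^ 1 * e) := Nat.mul_le_mul_left _ hlo
        _ = (L ^ 21 * n1) * e := by ring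
    exact Nat.le_of_mul_le_mul_right h2 he
  have h3 : (2 * d ^ 2 * L ^ 10) * g2 ≤ n1 * g2 := by
    calc (2 * d ^ 2 * L ^ 10) * g2 = 2 * L ^ 10 * d * (d * g2) := by ring
      _ ≤ 2 * L ^ 10 * L ^ (b - 400) * (L ^ 21 * n1) :=
          Nat.mul_le_mul (Nat.mul_le_mul_left _ hdL) h1
      _ = 2 * (L ^ (b - 400) * L ^ 31) * n1 := by ring
      _ ≤ L ^ 1 * (L ^ (b - 400) * L ^ 31) * n1 := by
          refine Nat.mul_le_mul_right _ (Nat.mul_le_mul_right _ ?_)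
          rw [pow_one]
          exact hL
      _ = L ^ (1 + (b - 400 + 31)) * n1 := by rw [pow_add, pow_add]
      _ ≤ L ^ (b + 500) * n1 :=
          Nat.mul_le_mul_right _ (Nat.pow_le_pow_right hL0 (by omega))
      _ ≤ g2 * n1 := Nat.mul_le_mul_right _ hbig
      _ = n1 * g2 := by ring
  exact Nat.le_of_mul_le_mul_right h3 hg

/-- Passage to an irreducible component.
Proof.  `curve` (`lam = 1`) gives `d, F, V1', V2'`, `clean` gives `G2`; let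
`G3 = {e ∈ G2 : e.1 ∈ V1', e.2 ∈ V2'}`, `|G3| ≥ |G|/2 - |G|/8 ≥ |G|/4`.  Let `S` be given by `factors`.
Every `e ∈ G3` has a `Ψ ∈ S` that vanishes at `e.1`, hence at `e.2`.  For `Ψ ∈ S` let
`U1 Ψ = {v ∈ V1 : Ψ vanishes at v}`, `U2 Ψ` similarly, `G Ψ = {e ∈ G3 : Ψ vanishes at e.1 and e.2}`;
so `Σ |G Ψ| ≥ |G|/4`.  By `factors_sum`, `Σ |U1 Ψ| ≤ n1 + 2 d^2 L^10 ≤ 2 n1`, where
`d e ≤ L^20 n1 n2` and `n2 g2 ≤ L e` give `d ≤ L^21 n1 / g2`, so
`2 d^2 L^10 ≤ 2 L^(b-400) L^31 n1 / L^(b+500) ≤ n1`; the same for `U2`.  The `Ψ` with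
`|U1 Ψ| g1 > L^2 |G Ψ|` have `Σ |G Ψ| < 2 n1 g1 / L^2 ≤ 2 |G| / L`, the same for `U2`; hence for some
`Ψ ∈ S` neither holds and `G Ψ` is not empty (otherwise `Σ |G Ψ| ≤ 4 |G| / L < |G|/4`). -/
theorem component (b : ℕ) (hb : 1000 ≤ b) : ∃ L0 : ℕ, ∀ L, L0 ≤ L →
    ∀ (V V1 V2 : Finset Ln) (G : Finset (Ln × Ln)) (g1 g2 : ℕ), Sys b L 1 V V1 V2 G g1 g2 →
    ∃ (d : ℕ) (F Ψ : ℤ[X][X]) (U1 U2 : Finset Ln) (G' : Finset (Ln × Ln)), G' ⊆ G ∧
      Sys b L 2 V U1 U2 G' g1 g2 ∧ 1 ≤ d ∧ d ≤ L ^ (b - 400) ∧ F ≠ 0 ∧ tdg F ≤ d ∧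
      (∀ j i, |(F.coeff j).coeff i| ≤ (L : ℤ) ^ (52 * b * d)) ∧ Ψ ∣ F ∧ Irreducible Ψ ∧
      (∀ v ∈ U1, Van Ψ v) ∧ (∀ v ∈ U2, Van Ψ v) := by
  obtain ⟨Lc, hLc⟩ := curve b hb
  obtain ⟨Lk, hLk⟩ := clean b hb
  refine ⟨max 17 (max Lc Lk), fun L hL V V1 V2 G g1 g2 hS => ?_⟩
  have hL17 : 17 ≤ L := (le_max_left _ _).trans hL
  have hL1 : Lc ≤ L := ((le_max_left _ _).trans (le_max_right _ _)).trans hL
  have hL2 : Lk ≤ L := ((le_max_right _ _).trans (le_max_right _ _)).trans hL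
  obtain ⟨d, F, V1', V2', hV1', hV2', hd1, hde, hdL, hF0, hFd, hFH, hvan1, hvan2, hG⟩ :=
    hLc L hL1 1 (by norm_num) V V1 V2 G g1 g2 hS
  obtain ⟨G2, hG2, hG2c, hG2v⟩ := hLk L hL2 V V1 V2 G g1 g2 hS d F hd1 hdL hF0 hFd hFH
  obtain ⟨S, hSirr, hSvan, hSsum, hSint⟩ := factors b L V hS.adm F hF0
  have he : 0 < G.card := Finset.card_pos.2 hS.ne
  have hn1 : 2 * d ^ 2 * L ^ 10 ≤ V1.card :=
    comp_arith hb (by omega) he hde hS.lo2 hS.big2 hdL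
  have hn2 : 2 * d ^ 2 * L ^ 10 ≤ V2.card :=
    comp_arith hb (by omega) he (by rw [mul_comm V2.card]; exact hde) hS.lo1 hS.big1 hdL
  have hFd2 : 2 * tdg F ^ 2 * L ^ 10 ≤ 2 * d ^ 2 * L ^ 10 :=
    Nat.mul_le_mul_right _ (Nat.mul_le_mul_left _ (Nat.pow_le_pow_left hFd 2))
  have hU1 : ∑ Ψ ∈ S, (V1.filter (fun v => Van Ψ v)).card ≤ 2 * V1.card := by
    have := factors_sum b L V F S hSsum hSint V1 hS.s1
    omega
  have hU2 : ∑ Ψ ∈ S, (V2.filter (fun v => Van Ψ v)).card ≤ 2 * V2.card := by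
    have := factors_sum b L V F S hSsum hSint V2 hS.s2
    omega
  set G3 : Finset (Ln × Ln) := G2.filter (fun e => e.1 ∈ V1' ∧ e.2 ∈ V2') with hG3
  have hG3c : G.card ≤ 4 * G3.card := by
    have h1 : G.filter (fun e => e.1 ∈ V1' ∧ e.2 ∈ V2') ⊆ G3 ∪ (G \ G2) := by
      intro e he
      rw [Finset.mem_filter] at he
      rw [Finset.mem_union, Finset.mem_sdiff, hG3, Finset.mem_filter]
      by_cases h : e ∈ G2
      · exact Or.inl ⟨h, he.2⟩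
      · exact Or.inr ⟨he.1, h⟩
    have h2 := (Finset.card_le_card h1).trans (Finset.card_union_le _ _)
    omega
  have hG3G : G3 ⊆ G := (Finset.filter_subset _ _).trans hG2
  have hcov : G3 ⊆ S.biUnion (fun Ψ => G3.filter (fun e => Van Ψ e.1 ∧ Van Ψ e.2)) := by
    intro e he
    have he' := he
    rw [hG3, Finset.mem_filter] at he'
    obtain ⟨Ψ, hΨ, hΨv⟩ := hSvan e.1 (hvan1 e.1 he'.2.1)
    rw [Finset.mem_biUnion]
    refine ⟨Ψ, hΨ, Finset.mem_filter.2 ⟨he, hΨv, ?_⟩⟩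
    exact (hG2v e he'.1 Ψ (hSirr Ψ hΨ).2).1 hΨv
  have hsum : G3.card ≤ ∑ Ψ ∈ S, (G3.filter (fun e => Van Ψ e.1 ∧ Van Ψ e.2)).card :=
    (Finset.card_le_card hcov).trans Finset.card_biUnion_le
  obtain ⟨Ψ, hΨS, hΨ1, hΨ2, hΨne⟩ : ∃ Ψ ∈ S,
      (V1.filter (fun v => Van Ψ v)).card * g1 ≤
        L ^ 2 * (G3.filter (fun e => Van Ψ e.1 ∧ Van Ψ e.2)).card ∧
      (V2.filter (fun v => Van Ψ v)).card * g2 ≤
        L ^ 2 * (G3.filter (fun e => Van Ψ e.1 ∧ Van Ψ e.2)).card ∧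
      (G3.filter (fun e => Van Ψ e.1 ∧ Van Ψ e.2)).Nonempty := by
    by_contra hcon
    push Not at hcon
    have h1 : ∀ Ψ ∈ S, L ^ 2 * (G3.filter (fun e => Van Ψ e.1 ∧ Van Ψ e.2)).card ≤
        (V1.filter (fun v => Van Ψ v)).card * g1 + (V2.filter (fun v => Van Ψ v)).card * g2 := by
      intro Ψ hΨ
      by_cases ha : (V1.filter (fun v => Van Ψ v)).card * g1 ≤
        L ^ 2 * (G3.filter (fun e => Van Ψ e.1 ∧ Van Ψ e.2)).card
      · by_cases hb' : (V2.filter (fun v => Van Ψ v)).card * g2 ≤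
          L ^ 2 * (G3.filter (fun e => Van Ψ e.1 ∧ Van Ψ e.2)).card
        · have h2 := hcon Ψ hΨ ha hb'
          rw [h2, Finset.card_empty]
          omega
        · omega
      · omega
    have h2 := Finset.sum_le_sum h1
    rw [← Finset.mul_sum, Finset.sum_add_distrib, ← Finset.sum_mul, ← Finset.sum_mul] at h2
    have h3 : L ^ 2 * G3.card ≤ 4 * (L * G.card) := by
      have h4 := hS.lo1
      have h5 := hS.lo2
      rw [pow_one] at h4 h5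
      calc L ^ 2 * G3.card
          ≤ L ^ 2 * ∑ Ψ ∈ S, (G3.filter (fun e => Van Ψ e.1 ∧ Van Ψ e.2)).card :=
            Nat.mul_le_mul_left _ hsum
        _ ≤ (∑ Ψ ∈ S, (V1.filter (fun v => Van Ψ v)).card) * g1 +
            (∑ Ψ ∈ S, (V2.filter (fun v => Van Ψ v)).card) * g2 := h2
        _ ≤ (2 * V1.card) * g1 + (2 * V2.card) * g2 :=
            Nat.add_le_add (Nat.mul_le_mul_right _ hU1) (Nat.mul_le_mul_right _ hU2)
        _ = 2 * (V1.card * g1) + 2 * (V2.card * g2) := by ring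
        _ ≤ 2 * (L * G.card) + 2 * (L * G.card) := by omega
        _ = 4 * (L * G.card) := by ring
    have h6 : L ^ 2 * G.card ≤ 16 * (L * G.card) := by
      calc L ^ 2 * G.card ≤ L ^ 2 * (4 * G3.card) := Nat.mul_le_mul_left _ hG3c
        _ = 4 * (L ^ 2 * G3.card) := by ring
        _ ≤ 4 * (4 * (L * G.card)) := Nat.mul_le_mul_left _ h3
        _ = 16 * (L * G.card) := by ring
    have h7 : L * (L * G.card) ≤ 16 * (L * G.card) := by
      calc L * (L * G.card) = L ^ 2 * G.card := by ring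
        _ ≤ 16 * (L * G.card) := h6
    have h8 : L ≤ 16 := Nat.le_of_mul_le_mul_right h7 (Nat.mul_pos (by omega) he)
    omega
  have hGG : G3.filter (fun e => Van Ψ e.1 ∧ Van Ψ e.2) ⊆ G :=
    (Finset.filter_subset _ _).trans hG3G
  refine ⟨d, F, Ψ, V1.filter (fun v => Van Ψ v), V2.filter (fun v => Van Ψ v),
    G3.filter (fun e => Van Ψ e.1 ∧ Van Ψ e.2), hGG, ?_, hd1, hdL, hF0, hFd, hFH,
    (hSirr Ψ hΨS).2, (hSirr Ψ hΨS).1, fun v hv => (Finset.mem_filter.1 hv).2,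
    fun v hv => (Finset.mem_filter.1 hv).2⟩
  refine ⟨hS.adm, (Finset.filter_subset _ _).trans hS.s1, (Finset.filter_subset _ _).trans hS.s2,
    ?_, ?_, ?_, hΨ1, hΨ2, hS.big1, hS.big2, hΨne⟩
  · intro e he
    have h1 := hS.edge e (hGG he)
    have h2 := (Finset.mem_filter.1 he).2
    exact ⟨Finset.mem_filter.2 ⟨h1.1, h2.1⟩, Finset.mem_filter.2 ⟨h1.2.1, h2.2⟩, h1.2.2⟩
  · intro v hv
    refine le_trans (Finset.card_le_card ?_) ((hS.up1 v (Finset.mem_filter.1 hv).1).trans ?_)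
    · intro w hw
      rw [Finset.mem_filter] at hw ⊢
      exact ⟨(Finset.mem_filter.1 hw.1).1, hGG hw.2⟩
    · exact Nat.mul_le_mul_left _ (Nat.pow_le_pow_right (by omega) (by norm_num))
  · intro w hw
    refine le_trans (Finset.card_le_card ?_) ((hS.up2 w (Finset.mem_filter.1 hw).1).trans ?_)
    · intro v hv
      rw [Finset.mem_filter] at hv ⊢
      exact ⟨(Finset.mem_filter.1 hv.1).1, hGG hv.2⟩
    · exact Nat.mul_le_mul_left _ (Nat.pow_le_pow_right (by omega) (by norm_num))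

end FDP
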