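import Mathlib

set_option autoImplicit false

open Finset
open scoped Classical

namespace FDP

/-- first moment: averages of functions of one coordinate -/
theorem samp_one {ι : Type*} [Fintype ι] [DecidableEq ι] (k : ℕ) (a : ι) (h : Fin k → ℤ) :
    (k : ℤ) * ∑ f : ι → Fin k, h (f a) = ((k : ℤ) ^ Fintype.card ι) * ∑ j, h j := by
  have key : ∑ f : ι → Fin k, h (f a) = ∏ i : ι, ∑ j : Fin k, (if i = a then h j else 1) := by
    rw [Finset.prod_univ_sum, Fintype.piFinset_univ]
    refine Finset.sum_congr rfl fun f _ => ?_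
    rw [Finset.prod_eq_single a]
    · simp
    · intro b _ hb
      simp [hb]
    · simp
  rw [key, ← Finset.mul_prod_erase univ _ (Finset.mem_univ a)]
  have h2 : ∏ x ∈ univ.erase a, ∑ j : Fin k, (if x = a then h j else (1 : ℤ)) =
      (k : ℤ) ^ (Fintype.card ι - 1) := by
    rw [← Finset.card_univ, ← Finset.card_erase_of_mem (Finset.mem_univ a)]
    rw [← Finset.prod_const]
    refine Finset.prod_congr rfl fun x hx => ?_
    have : x ≠ a := Finset.ne_of_mem_erase hx
    simp [this]
  rw [h2]
  have h3 : 0 < Fintype.card ι := Fintype.card_pos_iff.mpr ⟨a⟩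
  have h4 : (k : ℤ) ^ Fintype.card ι = k * (k : ℤ) ^ (Fintype.card ι - 1) := by
    rw [← pow_succ']
    congr 1
    omega
  rw [h4]
  simp
  ring

/-- second moment, off diagonal -/
theorem samp_two {ι : Type*} [Fintype ι] [DecidableEq ι] (k : ℕ) (a b : ι) (hab : a ≠ b) (h : Fin k → ℤ)
    (h0 : ∑ j, h j = 0) :
    ∑ f : ι → Fin k, h (f a) * h (f b) = 0 := by
  have key : ∑ f : ι → Fin k, h (f a) * h (f b) =
      ∏ i : ι, ∑ j : Fin k, (if i = a then h j else 1) * (if i = b then h j else 1) := by
    rw [Finset.prod_univ_sum, Fintype.piFinset_univ]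
    refine Finset.sum_congr rfl fun f _ => ?_
    rw [Finset.prod_mul_distrib, Finset.prod_eq_single a, Finset.prod_eq_single b]
    · simp
    · intro c _ hc
      simp [hc]
    · simp
    · intro c _ hc
      simp [hc]
    · simp
  rw [key]
  refine Finset.prod_eq_zero (Finset.mem_univ a) ?_
  simp [hab, h0]

/-- Chebyshev: few functions are bad for `S` -/
theorem samp_cheb {ι : Type*} [Fintype ι] [DecidableEq ι] (k : ℕ) (hk : 1 ≤ k) (S : Finset ι) (z : Fin k) :
    (univ.filter (fun f : ι → Fin k => 2 * k * (S.filter (fun a => f a = z)).card < S.card)).card *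
      S.card ≤ 4 * k * k ^ Fintype.card ι := by
  rcases Nat.eq_zero_or_pos S.card with hS | hS
  · rw [hS]
    simp
  set y : Fin k → ℤ := fun j => if j = z then (k : ℤ) - 1 else -1 with hy
  have hy0 : ∑ j, y j = 0 := by
    have : ∀ j, y j = (if j = z then (k : ℤ) else 0) - 1 := by
      intro j
      simp only [hy]
      split_ifs <;> ring
    simp [this]
  have hy2 : ∑ j, y j * y j ≤ (k : ℤ) * k := by
    have : ∀ j, y j * y j = (if j = z then (k : ℤ) * (k - 2) else 0) + 1 := by
      intro j
      simp only [hy]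
      split_ifs <;> ring
    simp only [this, Finset.sum_add_distrib]
    simp
    have : (1 : ℤ) ≤ k := by exact_mod_cast hk
    nlinarith
  -- second moment
  have hsec : ∑ f : ι → Fin k, (∑ a ∈ S, y (f a)) ^ 2 ≤ (k : ℤ) * S.card * (k : ℤ) ^ Fintype.card ι := by
    have h1 : ∑ f : ι → Fin k, (∑ a ∈ S, y (f a)) ^ 2 =
        ∑ a ∈ S, ∑ f : ι → Fin k, y (f a) * y (f a) := by
      have : ∀ f : ι → Fin k, (∑ a ∈ S, y (f a)) ^ 2 = ∑ a ∈ S, ∑ b ∈ S, y (f a) * y (f b) := by
        intro f
        rw [sq, Finset.sum_mul_sum]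
      simp only [this]
      rw [Finset.sum_comm]
      refine Finset.sum_congr rfl fun a ha => ?_
      rw [Finset.sum_comm]
      rw [Finset.sum_eq_single a]
      · intro b _ hb
        exact samp_two k a b (Ne.symm hb) y hy0
      · intro h
        exact absurd ha h
    rw [h1]
    have h2 : ∀ a ∈ S, ∑ f : ι → Fin k, y (f a) * y (f a) ≤ (k : ℤ) * (k : ℤ) ^ Fintype.card ι := by
      intro a _
      have := samp_one k a (fun j => y j * y j)
      have hkp : (0 : ℤ) < k := by exact_mod_cast hk
      have hp : (0 : ℤ) < (k : ℤ) ^ Fintype.card ι := by positivity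
      have h3 : (k : ℤ) * ∑ f : ι → Fin k, y (f a) * y (f a) ≤
          (k : ℤ) * ((k : ℤ) * (k : ℤ) ^ Fintype.card ι) := by
        rw [this]
        nlinarith
      exact le_of_mul_le_mul_left h3 hkp
    calc ∑ a ∈ S, ∑ f : ι → Fin k, y (f a) * y (f a)
        ≤ ∑ a ∈ S, (k : ℤ) * (k : ℤ) ^ Fintype.card ι := Finset.sum_le_sum h2
      _ = _ := by
        rw [Finset.sum_const, nsmul_eq_mul]
        ring
  -- bad functions contribute
  have hbad : ∀ f ∈ univ.filter (fun f : ι → Fin k =>
      2 * k * (S.filter (fun a => f a = z)).card < S.card),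
      (S.card : ℤ) ^ 2 ≤ 4 * (∑ a ∈ S, y (f a)) ^ 2 := by
    intro f hf
    rw [Finset.mem_filter] at hf
    have h1 : ∑ a ∈ S, y (f a) = (k : ℤ) * (S.filter (fun a => f a = z)).card - S.card := by
      have : ∀ a, y (f a) = (if f a = z then (k : ℤ) else 0) - 1 := by
        intro j
        simp only [hy]
        split_ifs <;> ring
      simp only [this, Finset.sum_sub_distrib]
      rw [← Finset.sum_filter]
      simp
      ring
    have h2 : (2 : ℤ) * k * (S.filter (fun a => f a = z)).card < S.card := by exact_mod_cast hf.2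
    rw [h1]
    have h3 : (0 : ℤ) ≤ (k : ℤ) * (S.filter (fun a => f a = z)).card := by positivity
    nlinarith
  have hfin : ((univ.filter (fun f : ι → Fin k =>
      2 * k * (S.filter (fun a => f a = z)).card < S.card)).card : ℤ) * (S.card : ℤ) ^ 2 ≤
      4 * ((k : ℤ) * S.card * (k : ℤ) ^ Fintype.card ι) := by
    calc ((univ.filter (fun f : ι → Fin k =>
      2 * k * (S.filter (fun a => f a = z)).card < S.card)).card : ℤ) * (S.card : ℤ) ^ 2
        = ∑ f ∈ univ.filter (fun f : ι → Fin k =>
      2 * k * (S.filter (fun a => f a = z)).card < S.card), (S.card : ℤ) ^ 2 := by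
          rw [Finset.sum_const, nsmul_eq_mul]
      _ ≤ ∑ f ∈ univ.filter (fun f : ι → Fin k =>
      2 * k * (S.filter (fun a => f a = z)).card < S.card), 4 * (∑ a ∈ S, y (f a)) ^ 2 :=
          Finset.sum_le_sum hbad
      _ ≤ ∑ f : ι → Fin k, 4 * (∑ a ∈ S, y (f a)) ^ 2 :=
          Finset.sum_le_sum_of_subset_of_nonneg (Finset.filter_subset _ _)
            (fun f _ _ => by positivity)
      _ = 4 * ∑ f : ι → Fin k, (∑ a ∈ S, y (f a)) ^ 2 := by rw [Finset.mul_sum]
      _ ≤ _ := by linarith
  have hSz : (0 : ℤ) < S.card := by exact_mod_cast hS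
  have : (((univ.filter (fun f : ι → Fin k =>
      2 * k * (S.filter (fun a => f a = z)).card < S.card)).card * S.card : ℕ) : ℤ) ≤
      ((4 * k * k ^ Fintype.card ι : ℕ) : ℤ) := by
    push_cast
    have h5 : (((univ.filter (fun f : ι → Fin k =>
      2 * k * (S.filter (fun a => f a = z)).card < S.card)).card : ℤ) * S.card) * S.card ≤
      (4 * k * (k : ℤ) ^ Fintype.card ι) * S.card := by
      nlinarith [hfin]
    exact le_of_mul_le_mul_right h5 hSz
  exact_mod_cast this

/-- Random sampling.  Proof: take a uniformly random function `f : V1 → Fin k` and `V0 = f⁻¹(0)`.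
`E |V0| = |V1| / k`, so `P(|V0| > 4 |V1| / k) ≤ 1/4` (if `V1` is empty everything is trivial).  For a
fixed `w`, `X = |N w ∩ V0|` is binomial with mean `m / k`, `m = |N w| ≥ D`, and variance at most
`m / k`, so `P(2 k X < m) ≤ (m/k) / (m/(2k))^2 = 4 k / m ≤ 4 k / D` (Chebyshev); hence the expected
weight of the bad `w` is at most `(4 k / D) W`, and it exceeds `16 k W / D` with probability at most
`1/4`.  (Count functions instead of probabilities; the second moment is a sum over pairs.) -/
theorem sample {α β : Type*} (V1 : Finset α) (V2 : Finset β) (N : β → Finset α)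
    (hN : ∀ w ∈ V2, N w ⊆ V1) (wt : β → ℕ) (k D : ℕ) (hk : 1 ≤ k) (hD0 : 1 ≤ D)
    (hD : ∀ w ∈ V2, D ≤ (N w).card) :
    ∃ V0 ⊆ V1, V0.card * k ≤ 4 * V1.card ∧
      D * ∑ w ∈ V2.filter (fun w => 2 * k * (N w ∩ V0).card < (N w).card), wt w ≤
        16 * k * ∑ w ∈ V2, wt w := by
  rcases Nat.eq_zero_or_pos (∑ w ∈ V2, wt w) with hW | hW
  · refine ⟨∅, by simp, by simp, ?_⟩
    have h1 : ∑ w ∈ V2.filter (fun w => 2 * k * (N w ∩ ∅).card < (N w).card), wt w ≤
        ∑ w ∈ V2, wt w := Finset.sum_le_sum_of_subset (Finset.filter_subset _ _)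
    rw [hW] at h1
    have h2 := Nat.le_zero.mp h1
    rw [h2]
    simp
  have hV2 : V2.Nonempty := by
    by_contra h
    rw [Finset.not_nonempty_iff_eq_empty] at h
    rw [h] at hW
    simp at hW
  have hV1 : 0 < V1.card := by
    obtain ⟨w, hw⟩ := hV2
    have := hD w hw
    have h2 := Finset.card_le_card (hN w hw)
    omega
  obtain ⟨z⟩ : Nonempty (Fin k) := ⟨⟨0, hk⟩⟩
  set W := ∑ w ∈ V2, wt w with hWdef
  set n := Fintype.card V1 with hn
  have hn1 : n = V1.card := by rw [hn, Fintype.card_coe]
  -- the sets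
  let V0 : (V1 → Fin k) → Finset α := fun f =>
    (univ.filter (fun a : V1 => f a = z)).map (Function.Embedding.subtype _)
  have hV0sub : ∀ f, V0 f ⊆ V1 := by
    intro f a ha
    simp only [V0, Finset.mem_map, Function.Embedding.coe_subtype] at ha
    obtain ⟨b, _, rfl⟩ := ha
    exact b.2
  let bw : (V1 → Fin k) → ℕ := fun f =>
    ∑ w ∈ V2.filter (fun w => 2 * k * (N w ∩ V0 f).card < (N w).card), wt w
  -- first moment
  have hfirst : ∑ f : V1 → Fin k, (V0 f).card * k = k ^ n * V1.card := by
    have h1 : ∀ f : V1 → Fin k, ((V0 f).card : ℤ) = ∑ a : V1, (if f a = z then (1 : ℤ) else 0) := by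
      intro f
      simp only [V0, Finset.card_map]
      simp
    have h2 : ∑ f : V1 → Fin k, ((V0 f).card : ℤ) * k = (k : ℤ) ^ n * V1.card := by
      calc ∑ f : V1 → Fin k, ((V0 f).card : ℤ) * k
          = ∑ a : V1, (k : ℤ) * ∑ f : V1 → Fin k, (if f a = z then (1 : ℤ) else 0) := by
            simp only [h1]
            rw [← Finset.sum_mul, Finset.sum_comm, mul_comm, Finset.mul_sum]
        _ = ∑ a : V1, (k : ℤ) ^ n := by
            refine Finset.sum_congr rfl fun a _ => ?_
            have := samp_one k a (fun j => if j = z then (1 : ℤ) else 0)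
            rw [this]
            simp [hn]
        _ = _ := by
            rw [Finset.sum_const, nsmul_eq_mul, Finset.card_univ, ← hn, hn1]
            ring
    exact_mod_cast h2
  -- bad weight
  have hsecond : D * ∑ f : V1 → Fin k, bw f ≤ 4 * k * k ^ n * W := by
    have h1 : ∑ f : V1 → Fin k, bw f = ∑ w ∈ V2,
        (univ.filter (fun f : V1 → Fin k => 2 * k * (N w ∩ V0 f).card < (N w).card)).card * wt w := by
      simp only [bw, Finset.sum_filter]
      rw [Finset.sum_comm]
      refine Finset.sum_congr rfl fun w _ => ?_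
      rw [← Finset.sum_filter, Finset.sum_const, smul_eq_mul]
    rw [h1, hWdef, Finset.mul_sum, Finset.mul_sum]
    refine Finset.sum_le_sum fun w hw => ?_
    -- the set S of elements of V1 in N w
    let S : Finset V1 := univ.filter (fun a : V1 => (a : α) ∈ N w)
    have hS : S.card = (N w).card := by
      have : S.map (Function.Embedding.subtype _) = N w := by
        ext a
        simp only [S, Finset.mem_map, Finset.mem_filter, Finset.mem_univ, true_and,
          Function.Embedding.coe_subtype]
        constructor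
        · rintro ⟨b, hb, rfl⟩
          exact hb
        · intro ha
          exact ⟨⟨a, hN w hw ha⟩, ha, rfl⟩
      rw [← this, Finset.card_map]
    have hS2 : ∀ f : V1 → Fin k, (N w ∩ V0 f).card = (S.filter (fun a => f a = z)).card := by
      intro f
      have : (S.filter (fun a => f a = z)).map (Function.Embedding.subtype _) = N w ∩ V0 f := by
        ext a
        simp only [S, V0, Finset.mem_map, Finset.mem_filter, Finset.mem_univ, true_and,
          Function.Embedding.coe_subtype, Finset.mem_inter]
        constructor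
        · rintro ⟨b, ⟨hb, hb2⟩, rfl⟩
          exact ⟨hb, b, hb2, rfl⟩
        · rintro ⟨ha, b, hb, rfl⟩
          exact ⟨b, ⟨ha, hb⟩, rfl⟩
      rw [← this, Finset.card_map]
    have hch := samp_cheb k hk S z
    have h3 : (univ.filter (fun f : V1 → Fin k => 2 * k * (N w ∩ V0 f).card < (N w).card)) =
        (univ.filter (fun f : V1 → Fin k =>
          2 * k * (S.filter (fun a => f a = z)).card < S.card)) := by
      ext f
      simp only [Finset.mem_filter, Finset.mem_univ, true_and]
      rw [hS2 f, hS]
    rw [h3]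
    have h4 : D ≤ S.card := by rw [hS]; exact hD w hw
    calc D * ((univ.filter (fun f : V1 → Fin k =>
          2 * k * (S.filter (fun a => f a = z)).card < S.card)).card * wt w)
        = ((univ.filter (fun f : V1 → Fin k =>
          2 * k * (S.filter (fun a => f a = z)).card < S.card)).card * D) * wt w := by ring
      _ ≤ ((univ.filter (fun f : V1 → Fin k =>
          2 * k * (S.filter (fun a => f a = z)).card < S.card)).card * S.card) * wt w := by gcongr
      _ ≤ (4 * k * k ^ n) * wt w := Nat.mul_le_mul_right _ hch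
  -- choose
  by_contra hcon
  push Not at hcon
  have hall : ∀ f : V1 → Fin k, 64 * k * W * V1.card <
      16 * k * W * ((V0 f).card * k) + 4 * V1.card * (D * bw f) := by
    intro f
    by_cases h1 : (V0 f).card * k ≤ 4 * V1.card
    · have h2 := hcon (V0 f) (hV0sub f) h1
      have h3 : 4 * V1.card * (16 * k * W) < 4 * V1.card * (D * bw f) :=
        Nat.mul_lt_mul_of_pos_left h2 (by omega)
      calc 64 * k * W * V1.card = 4 * V1.card * (16 * k * W) := by ring
        _ < 4 * V1.card * (D * bw f) := h3
        _ ≤ _ := Nat.le_add_left _ _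
    · push Not at h1
      have hpos : 0 < 16 * k * W := by positivity
      calc 64 * k * W * V1.card = 16 * k * W * (4 * V1.card) := by ring
        _ < 16 * k * W * ((V0 f).card * k) := Nat.mul_lt_mul_of_pos_left h1 hpos
        _ ≤ _ := Nat.le_add_right _ _
  have hne : (univ : Finset (V1 → Fin k)).Nonempty := ⟨fun _ => z, Finset.mem_univ _⟩
  have hsum := Finset.sum_lt_sum_of_nonempty hne (fun f _ => hall f)
  rw [Finset.sum_const, Finset.sum_add_distrib, ← Finset.mul_sum, ← Finset.mul_sum,
    ← Finset.mul_sum, hfirst, Finset.card_univ, Fintype.card_fun, Fintype.card_fin, smul_eq_mul,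
    ← hn] at hsum
  have hfin : 16 * k * W * (k ^ n * V1.card) + 4 * V1.card * (D * ∑ f : V1 → Fin k, bw f) ≤
      16 * k * W * (k ^ n * V1.card) + 4 * V1.card * (4 * k * k ^ n * W) := by gcongr
  have hlt := lt_of_lt_of_le hsum hfin
  have : 16 * k * W * (k ^ n * V1.card) + 4 * V1.card * (4 * k * k ^ n * W) ≤
      k ^ n * (64 * k * W * V1.card) := by
    have h0 : 0 ≤ k * W * (k ^ n * V1.card) := Nat.zero_le _
    nlinarith
  exact absurd (lt_of_lt_of_le hlt this) (lt_irrefl _)

end FDP
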