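import Pool.Agent.W_fd120a_h8.Nbr
import Pool.Agent.W_fd120a_h8.Samp

set_option autoImplicit false

open Finset Polynomial
open scoped Classical

namespace FDP

theorem curve_card2 (V1 : Finset Ln) (G : Finset (Ln × Ln))
    (hG : ∀ e ∈ G, e.1 ∈ V1) (T : Finset Ln) :
    (G.filter (fun e => e.2 ∈ T)).card = ∑ w ∈ T, (V1.filter (fun v => (v, w) ∈ G)).card := by
  rw [Finset.card_eq_sum_card_fiberwise (f := fun e : Ln × Ln => e.2) (t := T)]
  · refine Finset.sum_congr rfl fun w hw => ?_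
    refine Finset.card_bij (fun e _ => e.1) ?_ ?_ ?_
    · intro e he
      rw [mem_filter, mem_filter] at he
      rw [mem_filter]
      obtain ⟨⟨h1, h2⟩, h3⟩ := he
      refine ⟨hG e h1, ?_⟩
      rw [← h3]
      exact h1
    · intro e he e' he' h
      rw [mem_filter, mem_filter] at he he'
      exact Prod.ext h (he.2.trans he'.2.symm)
    · intro v hv
      rw [mem_filter] at hv
      refine ⟨(v, w), ?_, rfl⟩
      rw [mem_filter, mem_filter]
      exact ⟨⟨hv.2, hw⟩, rfl⟩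
  · intro e he
    exact (mem_filter.1 (Finset.mem_coe.1 he)).2

theorem curve_card1 (V2 : Finset Ln) (G : Finset (Ln × Ln))
    (T : Finset Ln) (n : ℕ) (hn : ∀ v ∈ T, (V2.filter (fun w => (v, w) ∈ G)).card ≤ n) :
    (G.filter (fun e => e.1 ∈ T ∧ e.2 ∈ V2)).card ≤ T.card * n := by
  rw [Finset.card_eq_sum_card_fiberwise (f := fun e : Ln × Ln => e.1) (t := T)]
  · have h : ∀ v ∈ T, ((G.filter (fun e => e.1 ∈ T ∧ e.2 ∈ V2)).filter
        (fun e => e.1 = v)).card ≤ n := by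
      intro v hv
      refine le_trans ?_ (hn v hv)
      refine Finset.card_le_card_of_injOn (fun e => e.2) ?_ ?_
      · intro e he
        rw [Finset.mem_coe, mem_filter, mem_filter] at he
        rw [Finset.mem_coe, mem_filter]
        obtain ⟨⟨h1, _, h2⟩, h3⟩ := he
        refine ⟨h2, ?_⟩
        rw [← h3]
        exact h1
      · intro e he e' he' h
        rw [Finset.mem_coe, mem_filter, mem_filter] at he he'
        exact Prod.ext (he.2.trans he'.2.symm) h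
    calc _ ≤ ∑ v ∈ T, n := Finset.sum_le_sum h
      _ = T.card * n := by rw [Finset.sum_const, smul_eq_mul]
  · intro e he
    exact (mem_filter.1 (Finset.mem_coe.1 he)).2.1

/-- `P n ≤ e` with `P = L ^ (b + 497)` -/
theorem curve_P (b L lam n g e : ℕ) (hL : 1 ≤ L) (hlam : lam ≤ 3) (h1 : n * g ≤ L ^ lam * e)
    (h2 : L ^ (b + 500) ≤ g) : n * L ^ (b + 497) ≤ e := by
  have h3 : n * L ^ (b + 497) * L ^ 3 ≤ e * L ^ 3 := by
    calc n * L ^ (b + 497) * L ^ 3 = n * L ^ (b + 500) := by rw [mul_assoc, ← pow_add]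
      _ ≤ n * g := Nat.mul_le_mul_left _ h2
      _ ≤ L ^ lam * e := h1
      _ ≤ L ^ 3 * e := Nat.mul_le_mul_right _ (Nat.pow_le_pow_right hL hlam)
      _ = e * L ^ 3 := Nat.mul_comm _ _
  exact Nat.le_of_mul_le_mul_right h3 (Nat.pow_pos hL)

/-- the choice of `d` -/
theorem curve_d (b L n1 n2 e : ℕ) (hb : 1000 ≤ b) (hL : 1000 ≤ L) (he : 1 ≤ e)
    (hn1 : n1 ≤ L ^ (2 * b + 31)) (h2 : n2 * L ^ (b + 497) ≤ e) :
    ∃ d, 1 ≤ d ∧ L ^ 12 * (n1 * n2) ≤ d * e ∧ d * e ≤ L ^ 12 * (n1 * n2) + e ∧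
      d ≤ L ^ (b - 400) := by
  refine ⟨L ^ 12 * (n1 * n2) / e + 1, Nat.le_add_left _ _, ?_, ?_, ?_⟩
  · have h := Nat.div_add_mod (L ^ 12 * (n1 * n2)) e
    have h' := Nat.mod_lt (L ^ 12 * (n1 * n2)) he
    calc L ^ 12 * (n1 * n2) = e * (L ^ 12 * (n1 * n2) / e) + L ^ 12 * (n1 * n2) % e := h.symm
      _ ≤ e * (L ^ 12 * (n1 * n2) / e) + e := by omega
      _ = (L ^ 12 * (n1 * n2) / e + 1) * e := by ring
  · rw [add_mul, one_mul]
    have := Nat.div_mul_le_self (L ^ 12 * (n1 * n2)) e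
    omega
  · have h3 : L ^ 12 * (n1 * n2) ≤ e * L ^ (b - 454) := by
      have h4 : L ^ 12 * (n1 * n2) * L ^ (b + 497) ≤ e * L ^ (b - 454) * L ^ (b + 497) := by
        calc L ^ 12 * (n1 * n2) * L ^ (b + 497) = L ^ 12 * n1 * (n2 * L ^ (b + 497)) := by ring
          _ ≤ L ^ 12 * L ^ (2 * b + 31) * e := by gcongr
          _ = e * L ^ (2 * b + 43) := by
              rw [← pow_add, Nat.mul_comm]
              congr 2
              omega
          _ = e * L ^ (b - 454) * L ^ (b + 497) := by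
              rw [mul_assoc, ← pow_add, show b - 454 + (b + 497) = 2 * b + 43 by omega]
      exact Nat.le_of_mul_le_mul_right h4 (Nat.pow_pos (by omega))
    have h5 : L ^ 12 * (n1 * n2) / e ≤ L ^ (b - 454) := Nat.div_le_of_le_mul h3
    have h6 : L ^ (b - 454) * 2 ≤ L ^ (b - 400) := by
      calc L ^ (b - 454) * 2 ≤ L ^ (b - 454) * L ^ 54 := by
            refine Nat.mul_le_mul_left _ ?_
            calc 2 ≤ L := by omega
              _ = L ^ 1 := (pow_one _).symm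
              _ ≤ L ^ 54 := Nat.pow_le_pow_right (by omega) (by omega)
        _ = L ^ (b - 400) := by
            rw [← pow_add, show b - 454 + 54 = b - 400 by omega]
    have h7 : 1 ≤ L ^ (b - 454) := Nat.one_le_pow _ _ (by omega)
    omega

/-- the choice of `k` -/
theorem curve_k (n1 d : ℕ) (hd : 1 ≤ d) :
    ∃ k, 1 ≤ k ∧ 16 * n1 ≤ k * d ^ 2 ∧ k * d ^ 2 ≤ 16 * n1 + d ^ 2 := by
  have hd2 : 0 < d ^ 2 := Nat.pow_pos hd
  refine ⟨16 * n1 / d ^ 2 + 1, Nat.le_add_left _ _, ?_, ?_⟩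
  · have h := Nat.div_add_mod (16 * n1) (d ^ 2)
    have h' := Nat.mod_lt (16 * n1) hd2
    calc 16 * n1 = d ^ 2 * (16 * n1 / d ^ 2) + 16 * n1 % d ^ 2 := h.symm
      _ ≤ d ^ 2 * (16 * n1 / d ^ 2) + d ^ 2 := by omega
      _ = (16 * n1 / d ^ 2 + 1) * d ^ 2 := by ring
  · rw [add_mul, one_mul]
    have := Nat.div_mul_le_self (16 * n1) (d ^ 2)
    omega

/-- the choice of `D` -/
theorem curve_D (n2 e : ℕ) (hn2 : 1 ≤ n2) (h : 4 * n2 ≤ e) :
    ∃ D, 1 ≤ D ∧ 4 * n2 * D ≤ e ∧ e ≤ 8 * n2 * D := by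
  have h1 : 1 ≤ e / (4 * n2) := (Nat.one_le_div_iff (by omega)).2 h
  refine ⟨e / (4 * n2), h1, Nat.mul_div_le _ _, ?_⟩
  have h2 := Nat.div_add_mod e (4 * n2)
  have h3 := Nat.mod_lt e (show 0 < 4 * n2 by omega)
  have h4 : 4 * n2 * 1 ≤ 4 * n2 * (e / (4 * n2)) := Nat.mul_le_mul_left _ h1
  have h5 : 8 * n2 * (e / (4 * n2)) = 4 * n2 * (e / (4 * n2)) + 4 * n2 * (e / (4 * n2)) := by ring
  omega

/-- the bound of the weight of the bad lines -/
theorem curve_bad (b L n1 n2 e d k D B : ℕ) (hL : 1000 ≤ L) (hd1 : 1 ≤ d)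
    (hd : L ^ 12 * (n1 * n2) ≤ d * e) (h2 : n2 * L ^ (b + 497) ≤ e) (he : 1 ≤ e)
    (hk : k * d ^ 2 ≤ 16 * n1 + d ^ 2) (hD : e ≤ 8 * n2 * D) (hB : D * B ≤ 16 * k * e) :
    8 * B ≤ e := by
  have h3 : B ≤ 128 * k * n2 := by
    have h4 : e * B ≤ e * (128 * k * n2) := by
      calc e * B ≤ 8 * n2 * D * B := Nat.mul_le_mul_right _ hD
        _ = 8 * n2 * (D * B) := by ring
        _ ≤ 8 * n2 * (16 * k * e) := Nat.mul_le_mul_left _ hB
        _ = e * (128 * k * n2) := by ring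
    exact Nat.le_of_mul_le_mul_left h4 he
  have h5 : 1024 * k * n2 ≤ e := by
    have hd2 : 0 < d ^ 2 := Nat.pow_pos hd1
    have h6 : 1024 * k * n2 * d ^ 2 ≤ e * d ^ 2 := by
      have h7 : 2 * (16384 * (n1 * n2)) ≤ e * d ^ 2 := by
        calc 2 * (16384 * (n1 * n2)) = 32768 * (n1 * n2) := by ring
          _ ≤ L ^ 12 * (n1 * n2) := by
              refine Nat.mul_le_mul_right _ ?_
              calc 32768 ≤ 1000 ^ 12 := by norm_num
                _ ≤ L ^ 12 := Nat.pow_le_pow_left hL 12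
          _ ≤ d * e := hd
          _ = e * (d * 1) := by ring
          _ ≤ e * (d * d) := by gcongr
          _ = e * d ^ 2 := by ring
      have h8 : 2 * (1024 * n2 * d ^ 2) ≤ e * d ^ 2 := by
        calc 2 * (1024 * n2 * d ^ 2) = (n2 * 2048) * d ^ 2 := by ring
          _ ≤ (n2 * L ^ (b + 497)) * d ^ 2 := by
              refine Nat.mul_le_mul_right _ (Nat.mul_le_mul_left _ ?_)
              calc 2048 ≤ 1000 ^ 2 := by norm_num
                _ ≤ L ^ 2 := Nat.pow_le_pow_left hL 2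
                _ ≤ L ^ (b + 497) := Nat.pow_le_pow_right (by omega) (by omega)
          _ ≤ e * d ^ 2 := Nat.mul_le_mul_right _ h2
      have h9 : 1024 * k * n2 * d ^ 2 ≤ 16384 * (n1 * n2) + 1024 * n2 * d ^ 2 := by
        calc 1024 * k * n2 * d ^ 2 = 1024 * n2 * (k * d ^ 2) := by ring
          _ ≤ 1024 * n2 * (16 * n1 + d ^ 2) := Nat.mul_le_mul_left _ hk
          _ = 16384 * (n1 * n2) + 1024 * n2 * d ^ 2 := by ring
      omega
    exact Nat.le_of_mul_le_mul_right h6 hd2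
  have h6 : 8 * B ≤ 8 * (128 * k * n2) := Nat.mul_le_mul_left _ h3
  have h7 : 8 * (128 * k * n2) = 1024 * k * n2 := by ring
  omega

/-- the good lines have many neighbours in the sample -/
theorem curve_good (b L n1 n2 e d k m c : ℕ) (hb : 1000 ≤ b) (hL : 1000 ≤ L) (hd1 : 1 ≤ d)
    (hk1 : 1 ≤ k) (hn2 : 1 ≤ n2)
    (hd : L ^ 12 * (n1 * n2) ≤ d * e) (hdb : d ≤ L ^ (b - 400)) (h2 : n2 * L ^ (b + 497) ≤ e)
    (hk : k * d ^ 2 ≤ 16 * n1 + d ^ 2) (hm : e ≤ 4 * n2 * m) (hc : m ≤ 2 * k * c) :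
    d * L ^ 11 ≤ c := by
  have h3 : 8 * n2 * k * (d * L ^ 11) ≤ e := by
    have h4 : 8 * n2 * k * (d * L ^ 11) * d ≤ e * d := by
      have h5 : 2 * (128 * (n1 * n2) * L ^ 11) ≤ e * d := by
        calc 2 * (128 * (n1 * n2) * L ^ 11) = 256 * L ^ 11 * (n1 * n2) := by ring
          _ ≤ L * L ^ 11 * (n1 * n2) := by
              refine Nat.mul_le_mul_right _ (Nat.mul_le_mul_right _ ?_)
              omega
          _ = L ^ 12 * (n1 * n2) := by ring
          _ ≤ d * e := hd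
          _ = e * d := Nat.mul_comm _ _
      have h6 : 2 * (8 * n2 * d ^ 2 * L ^ 11) ≤ e * d := by
        calc 2 * (8 * n2 * d ^ 2 * L ^ 11) = n2 * (16 * d * L ^ 11) * d := by ring
          _ ≤ n2 * (L * L ^ (b - 400) * L ^ 11) * d := by
              gcongr
              omega
          _ = n2 * L ^ (b - 388) * d := by
              rw [← pow_succ', ← pow_add, show b - 400 + 1 + 11 = b - 388 by omega]
          _ ≤ n2 * L ^ (b + 497) * d := by
              gcongr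
              · omega
              · omega
          _ ≤ e * d := Nat.mul_le_mul_right _ h2
      have h7 : 8 * n2 * k * (d * L ^ 11) * d ≤
          128 * (n1 * n2) * L ^ 11 + 8 * n2 * d ^ 2 * L ^ 11 := by
        calc 8 * n2 * k * (d * L ^ 11) * d = 8 * n2 * L ^ 11 * (k * d ^ 2) := by ring
          _ ≤ 8 * n2 * L ^ 11 * (16 * n1 + d ^ 2) := Nat.mul_le_mul_left _ hk
          _ = 128 * (n1 * n2) * L ^ 11 + 8 * n2 * d ^ 2 * L ^ 11 := by ring
      omega
    exact Nat.le_of_mul_le_mul_right h4 hd1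
  have h4 : 8 * n2 * k * (d * L ^ 11) ≤ 8 * n2 * k * c := by
    calc 8 * n2 * k * (d * L ^ 11) ≤ e := h3
      _ ≤ 4 * n2 * m := hm
      _ ≤ 4 * n2 * (2 * k * c) := Nat.mul_le_mul_left _ hc
      _ = 8 * n2 * k * c := by ring
  exact Nat.le_of_mul_le_mul_left h4 (by positivity)

/-- A curve of small degree through most of the edges.
Proof.  `n1 = |V1|`, `n2 = |V2|`, `e = |G|`; `n1 g1 ≤ L^3 e`, `n2 g2 ≤ L^3 e` (for `L ≥ 1`,
`lam ≤ 3`), `n1, n2 ≤ |V| ≤ L^(2b+31)` (`adm_card`), `g1, g2 ≥ L^(b+500)`.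
Let `d = L^12 n1 n2 / e + 1` (floor): `d ≤ L^(b-454) + 1 ≤ L^(b-400)`, and
`d e ≤ L^12 n1 n2 + e ≤ L^20 n1 n2` (`e ≤ n1 n2`).  Let `k = 16 n1 / d^2 + 1` (floor).
Let `V2f` be the set of `w ∈ V2` with `e ≤ 4 n2 deg w` (`deg w` the number of `v ∈ V1` with
`(v, w) ∈ G`); the other `w` carry at most `e/4` edges.  `sample` (for `V1`, `V2f`,
`N w = {v ∈ V1 : (v, w) ∈ G}`, `wt w = deg w`, `D = e / (4 n2)`, floor, `≥ e / (8 n2)`, `≥ 1`) gives
`V0 ⊆ V1` with `4 |V0| ≤ 16 n1 / k ≤ d^2 ≤ (d+1)(d+2)`, and the bad `w` have total weight at most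
`16 k e / D ≤ 128 k n2 ≤ e / 8` (since `n1 n2 ≤ d e / L^12` and `n2 ≤ L^3 e / g2`).  `exists_form`
(Siegel.lean, `M = L^(51b+10)`) and `local_height` (Local.lean) give `F`, vanishing on `V0`
(`van_iff`).  For the good `w ∈ V2f`: `|N w ∩ V0| ≥ deg w / (2k) ≥ e / (8 k n2) ≥ d L^11`
(`8 k n2 d L^11 ≤ 128 n1 n2 L^11 / d + 8 n2 d L^11 ≤ e`), so `F` vanishes at `w` by `nbrs_van`; let
`V2'` be the set of the good `w`; it carries at least `e - e/4 - e/8` edges.  Let
`V1' = {v ∈ V1 : v has at least d L^11 neighbours in V2'}`; `F` vanishes on `V1'` by `nbrs_van` and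
`IsEdge.symm`; the edges from the other `v` to `V2'` are at most `n1 d L^11 ≤ e / 8`
(`e ≥ n1 g1 / L^3`). -/
theorem curve (b : ℕ) (hb : 1000 ≤ b) : ∃ L0 : ℕ, ∀ L, L0 ≤ L → ∀ lam, lam ≤ 3 →
    ∀ (V V1 V2 : Finset Ln) (G : Finset (Ln × Ln)) (g1 g2 : ℕ), Sys b L lam V V1 V2 G g1 g2 →
    ∃ (d : ℕ) (F : ℤ[X][X]) (V1' V2' : Finset Ln), V1' ⊆ V1 ∧ V2' ⊆ V2 ∧ 1 ≤ d ∧
      d * G.card ≤ L ^ 20 * (V1.card * V2.card) ∧ d ≤ L ^ (b - 400) ∧ F ≠ 0 ∧ tdg F ≤ d ∧
      (∀ j i, |(F.coeff j).coeff i| ≤ (L : ℤ) ^ (52 * b * d)) ∧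
      (∀ v ∈ V1', Van F v) ∧ (∀ v ∈ V2', Van F v) ∧
      G.card ≤ 2 * (G.filter (fun e => e.1 ∈ V1' ∧ e.2 ∈ V2')).card := by
  obtain ⟨L1, hL1⟩ := nbrs_van b hb
  refine ⟨max L1 1000, fun L hL lam hlam V V1 V2 G g1 g2 hS => ?_⟩
  have hL1' : L1 ≤ L := (le_max_left _ _).trans hL
  have hL0 : 1000 ≤ L := (le_max_right _ _).trans hL
  have hpos : 0 < L := by omega
  have hLZ : (1 : ℤ) ≤ L := by exact_mod_cast hpos
  have hV := hS.adm
  have he : 1 ≤ G.card := Finset.card_pos.2 hS.ne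
  obtain ⟨e0, he0⟩ := hS.ne
  have hn1 : V1.card ≤ L ^ (2 * b + 31) :=
    (Finset.card_le_card hS.s1).trans (adm_card b L (by omega) V hV)
  have hn2pos : 1 ≤ V2.card := Finset.card_pos.2 ⟨e0.2, (hS.edge e0 he0).2.1⟩
  have hP1 : V1.card * L ^ (b + 497) ≤ G.card :=
    curve_P b L lam _ g1 _ hpos hlam hS.lo1 hS.big1
  have hP2 : V2.card * L ^ (b + 497) ≤ G.card :=
    curve_P b L lam _ g2 _ hpos hlam hS.lo2 hS.big2
  have hen : G.card ≤ V1.card * V2.card := by
    rw [← Finset.card_product]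
    refine Finset.card_le_card fun e heG => ?_
    rw [Finset.mem_product]
    exact ⟨(hS.edge e heG).1, (hS.edge e heG).2.1⟩
  obtain ⟨d, hd1, hdlo, hdhi, hdb⟩ := curve_d b L V1.card V2.card G.card hb hL0 he hn1 hP2
  obtain ⟨k, hk1, hklo, hkhi⟩ := curve_k V1.card d hd1
  have hbig4 : 4 ≤ L ^ (b + 497) := by
    calc 4 ≤ L ^ 1 := by rw [pow_one]; omega
      _ ≤ L ^ (b + 497) := Nat.pow_le_pow_right hpos (by omega)
  obtain ⟨D, hD1, hDlo, hDhi⟩ := curve_D V2.card G.card hn2pos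
    (le_trans (by rw [Nat.mul_comm]; exact Nat.mul_le_mul_left _ hbig4) hP2)
  -- the degrees
  obtain ⟨N, hN⟩ : ∃ N : Ln → Finset Ln, ∀ w, N w = V1.filter (fun v => (v, w) ∈ G) :=
    ⟨fun w => V1.filter (fun v => (v, w) ∈ G), fun _ => rfl⟩
  have hNsub : ∀ w, N w ⊆ V1 := by
    intro w
    rw [hN]
    exact Finset.filter_subset _ _
  have hcard2 : ∀ T : Finset Ln, (G.filter (fun e => e.2 ∈ T)).card = ∑ w ∈ T, (N w).card := by
    intro T
    simp only [hN]
    exact curve_card2 V1 G (fun e heG => (hS.edge e heG).1) T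
  obtain ⟨V2f, hV2f⟩ : ∃ V2f, V2f = V2.filter (fun w => G.card ≤ 4 * V2.card * (N w).card) :=
    ⟨_, rfl⟩
  have hV2fsub : V2f ⊆ V2 := by rw [hV2f]; exact Finset.filter_subset _ _
  have hV2fmem : ∀ w ∈ V2f, G.card ≤ 4 * V2.card * (N w).card := by
    intro w hw
    rw [hV2f, mem_filter] at hw
    exact hw.2
  have hDN : ∀ w ∈ V2f, D ≤ (N w).card := by
    intro w hw
    have h1 := hDlo.trans (hV2fmem w hw)
    exact Nat.le_of_mul_le_mul_left h1 (by omega)
  obtain ⟨V0, hV0sub, hV0c, hV0w⟩ := sample V1 V2f N (fun w _ => hNsub w)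
    (fun w => (N w).card) k D hk1 hD1 hDN
  -- the bad set
  obtain ⟨Bd, hBd⟩ : ∃ Bd, Bd = V2f.filter (fun w => 2 * k * (N w ∩ V0).card < (N w).card) :=
    ⟨_, rfl⟩
  have hBdc : 8 * ∑ w ∈ Bd, (N w).card ≤ G.card := by
    refine curve_bad b L V1.card V2.card G.card d k D _ hL0 hd1 hdlo hP2 he hkhi hDhi ?_
    have h1 : D * ∑ w ∈ Bd, (N w).card ≤ 16 * k * ∑ w ∈ V2f, (N w).card := by
      rw [hBd]
      refine le_trans (le_of_eq ?_) hV0w
      refine congrArg (fun x => D * x) (Finset.sum_congr ?_ fun _ _ => rfl)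
      ext w
      simp only [Finset.mem_filter]
      refine and_congr_right fun _ => ?_
      have e : ∀ (i1 i2 : DecidableEq Ln),
          (@Inter.inter (Finset Ln) (@Finset.instInter Ln i1) (N w) V0).card =
            (@Inter.inter (Finset Ln) (@Finset.instInter Ln i2) (N w) V0).card := by
        intro i1 i2
        rw [Subsingleton.elim i1 i2]
      exact ⟨fun h => lt_of_le_of_lt (le_of_eq (congrArg (fun x => 2 * k * x) (e _ _))) h,
        fun h => lt_of_le_of_lt (le_of_eq (congrArg (fun x => 2 * k * x) (e _ _))) h⟩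
    refine h1.trans (Nat.mul_le_mul_left _ ?_)
    rw [← hcard2]
    exact Finset.card_le_card (Finset.filter_subset _ _)
  -- the form
  have hV0V : V0 ⊆ V := hV0sub.trans hS.s1
  obtain ⟨M, hM⟩ : ∃ M : ℤ, M = (L : ℤ) ^ (51 * b + 10) := ⟨_, rfl⟩
  have hM1 : 1 ≤ M := by
    rw [hM]
    exact one_le_pow₀ hLZ
  have hbM : ∀ v ∈ V, |v.1| ≤ M ∧ |v.2.1| ≤ M ∧ |v.2.2| ≤ M := by
    intro v hv
    have h1 : (L : ℤ) ^ (b + 10) ≤ M := by
      rw [hM]
      exact pow_le_pow_right₀ hLZ (by omega)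
    refine ⟨(hV.bx v hv).trans h1, (hV.bdy v hv).trans h1, ?_⟩
    rw [hM]
    exact hV.bc v hv
  have hV04 : 4 * V0.card ≤ (d + 1) * (d + 2) := by
    have h1 : k * (4 * V0.card) ≤ k * d ^ 2 := by
      calc k * (4 * V0.card) = 4 * (V0.card * k) := by ring
        _ ≤ 4 * (4 * V1.card) := Nat.mul_le_mul_left _ hV0c
        _ = 16 * V1.card := by ring
        _ ≤ k * d ^ 2 := hklo
    have h2 := Nat.le_of_mul_le_mul_left h1 hk1
    nlinarith
  obtain ⟨F, hF0, hFd, hFH0, hFV0⟩ := exists_form d M hM1 V0 (fun v hv => (hbM v (hV0V hv)).1)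
    (fun v hv => (hbM v (hV0V hv)).2.1) (fun v hv => (hbM v (hV0V hv)).2.2) hV04
  have hFH : ∀ j i, |(F.coeff j).coeff i| ≤ (L : ℤ) ^ (52 * b * d) := by
    intro j i
    refine (hFH0 j i).trans ?_
    rw [hM]
    exact local_height b L d hb hL0 hd1
  have hFVan : ∀ v ∈ V0, Van F v := fun v hv =>
    (van_iff d F hFd v (hV.ynz v (hV0V hv))).2 (hFV0 v hv)
  -- the good lines of `V2`
  obtain ⟨V2', hV2'⟩ : ∃ V2', V2' = V2f.filter (fun w => w ∉ Bd) := ⟨_, rfl⟩
  have hV2'sub : V2' ⊆ V2 := by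
    rw [hV2']
    exact (Finset.filter_subset _ _).trans hV2fsub
  have hVan2 : ∀ w ∈ V2', Van F w := by
    intro w hw
    have hw2 := hV2'sub hw
    rw [hV2', mem_filter] at hw
    have hc : (N w).card ≤ 2 * k * (N w ∩ V0).card := by
      by_contra hcon
      apply hw.2
      rw [hBd, mem_filter]
      exact ⟨hw.1, not_le.1 hcon⟩
    refine hL1 L hL1' V hV d F hd1 hFd hFH w (hS.s2 hw2) (N w ∩ V0) ?_ ?_ ?_
    · exact Finset.inter_subset_right.trans hV0V
    · intro v hv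
      rw [Finset.mem_inter] at hv
      refine ⟨?_, hFVan v hv.2⟩
      have h1 := hv.1
      rw [hN, mem_filter] at h1
      exact (hS.edge _ h1.2).2.2
    · exact curve_good b L V1.card V2.card G.card d k (N w).card _ hb hL0 hd1 hk1 hn2pos hdlo hdb
        hP2 hkhi (hV2fmem w hw.1) hc
  -- the good lines of `V1`
  obtain ⟨V1', hV1'⟩ : ∃ V1', V1' =
      V1.filter (fun v => d * L ^ 11 ≤ (V2'.filter (fun w => (v, w) ∈ G)).card) := ⟨_, rfl⟩
  have hV1'sub : V1' ⊆ V1 := by rw [hV1']; exact Finset.filter_subset _ _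
  have hVan1 : ∀ v ∈ V1', Van F v := by
    intro v hv
    have hv1 := hV1'sub hv
    rw [hV1', mem_filter] at hv
    refine hL1 L hL1' V hV d F hd1 hFd hFH v (hS.s1 hv1) (V2'.filter (fun w => (v, w) ∈ G))
      ?_ ?_ hv.2
    · exact (Finset.filter_subset _ _).trans (hV2'sub.trans hS.s2)
    · intro w hw
      rw [mem_filter] at hw
      exact ⟨((hS.edge _ hw.2).2.2).symm, hVan2 w hw.1⟩
  refine ⟨d, F, V1', V2', hV1'sub, hV2'sub, hd1, ?_, hdb, hF0, hFd, hFH, hVan1, hVan2, ?_⟩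
  · calc d * G.card ≤ L ^ 12 * (V1.card * V2.card) + G.card := hdhi
      _ ≤ L ^ 12 * (V1.card * V2.card) + V1.card * V2.card := Nat.add_le_add_left hen _
      _ = (L ^ 12 + 1) * (V1.card * V2.card) := by ring
      _ ≤ L ^ 20 * (V1.card * V2.card) := by
          refine Nat.mul_le_mul_right _ ?_
          calc L ^ 12 + 1 ≤ L ^ 12 + L ^ 12 := Nat.add_le_add_left (Nat.one_le_pow _ _ hpos) _
            _ = L ^ 12 * 2 := by ring
            _ ≤ L ^ 12 * L ^ 8 := by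
                refine Nat.mul_le_mul_left _ ?_
                calc 2 ≤ L ^ 1 := by rw [pow_one]; omega
                  _ ≤ L ^ 8 := Nat.pow_le_pow_right hpos (by omega)
            _ = L ^ 20 := by rw [← pow_add]
  · -- counting the edges
    have hA : 4 * (G.filter (fun e => e.2 ∈ V2 \ V2f)).card ≤ G.card := by
      rw [hcard2]
      have h1 : V2.card * (4 * ∑ w ∈ V2 \ V2f, (N w).card) ≤ V2.card * G.card := by
        calc V2.card * (4 * ∑ w ∈ V2 \ V2f, (N w).card)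
            = ∑ w ∈ V2 \ V2f, 4 * V2.card * (N w).card := by
              rw [← Finset.mul_sum]
              ring
          _ ≤ ∑ w ∈ V2 \ V2f, G.card := by
              refine Finset.sum_le_sum fun w hw => ?_
              rw [Finset.mem_sdiff] at hw
              by_contra hcon
              apply hw.2
              rw [hV2f, mem_filter]
              exact ⟨hw.1, (not_le.1 hcon).le⟩
          _ = (V2 \ V2f).card * G.card := by rw [Finset.sum_const, smul_eq_mul]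
          _ ≤ V2.card * G.card :=
              Nat.mul_le_mul_right _ (Finset.card_le_card Finset.sdiff_subset)
      exact Nat.le_of_mul_le_mul_left h1 hn2pos
    have hB : 8 * (G.filter (fun e => e.2 ∈ Bd)).card ≤ G.card := by
      rw [hcard2]
      exact hBdc
    have hC : 8 * (G.filter (fun e => e.1 ∈ V1 \ V1' ∧ e.2 ∈ V2')).card ≤ G.card := by
      have h1 := curve_card1 V2' G (V1 \ V1') (d * L ^ 11) (by
        intro v hv
        rw [Finset.mem_sdiff] at hv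
        by_contra hcon
        apply hv.2
        rw [hV1', mem_filter]
        exact ⟨hv.1, (not_le.1 hcon).le⟩)
      calc 8 * (G.filter (fun e => e.1 ∈ V1 \ V1' ∧ e.2 ∈ V2')).card
          ≤ 8 * ((V1 \ V1').card * (d * L ^ 11)) := Nat.mul_le_mul_left _ h1
        _ ≤ L * (V1.card * (L ^ (b - 400) * L ^ 11)) := by
            gcongr
            · omega
            · exact Finset.sdiff_subset
        _ = V1.card * L ^ (b - 388) := by
            have : L ^ (b - 388) = L * (L ^ (b - 400) * L ^ 11) := by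
              rw [← pow_add, ← pow_succ', show b - 400 + 11 + 1 = b - 388 by omega]
            rw [this]
            ring
        _ ≤ V1.card * L ^ (b + 497) := by
            refine Nat.mul_le_mul_left _ (Nat.pow_le_pow_right hpos (by omega))
        _ ≤ G.card := hP1
    have hcov : G ⊆ (G.filter (fun e => e.2 ∈ V2 \ V2f)) ∪ ((G.filter (fun e => e.2 ∈ Bd)) ∪
        ((G.filter (fun e => e.1 ∈ V1 \ V1' ∧ e.2 ∈ V2')) ∪
          (G.filter (fun e => e.1 ∈ V1' ∧ e.2 ∈ V2')))) := by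
      intro e heG
      obtain ⟨h1, h2, -⟩ := hS.edge e heG
      simp only [Finset.mem_union, Finset.mem_filter, Finset.mem_sdiff]
      by_cases c1 : e.2 ∈ V2f
      · by_cases c2 : e.2 ∈ Bd
        · exact Or.inr (Or.inl ⟨heG, c2⟩)
        · have c3 : e.2 ∈ V2' := by
            rw [hV2', mem_filter]
            exact ⟨c1, c2⟩
          by_cases c4 : e.1 ∈ V1'
          · exact Or.inr (Or.inr (Or.inr ⟨heG, c4, c3⟩))
          · exact Or.inr (Or.inr (Or.inl ⟨heG, ⟨h1, c4⟩, c3⟩))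
      · exact Or.inl ⟨heG, h2, c1⟩
    have h1 := Finset.card_le_card hcov
    have h2 := Finset.card_union_le (G.filter (fun e => e.2 ∈ V2 \ V2f))
      ((G.filter (fun e => e.2 ∈ Bd)) ∪ ((G.filter (fun e => e.1 ∈ V1 \ V1' ∧ e.2 ∈ V2')) ∪
          (G.filter (fun e => e.1 ∈ V1' ∧ e.2 ∈ V2'))))
    have h3 := Finset.card_union_le (G.filter (fun e => e.2 ∈ Bd))
      ((G.filter (fun e => e.1 ∈ V1 \ V1' ∧ e.2 ∈ V2')) ∪
          (G.filter (fun e => e.1 ∈ V1' ∧ e.2 ∈ V2')))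
    have h4 := Finset.card_union_le (G.filter (fun e => e.1 ∈ V1 \ V1' ∧ e.2 ∈ V2'))
          (G.filter (fun e => e.1 ∈ V1' ∧ e.2 ∈ V2'))
    omega

end FDP
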