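import Mathlib

set_option autoImplicit false

/-!
Project MP_fd120a_nt, second part (helper8): `|S_N(a)| ≥ N ^ (0.985 - ε)` and `N ^ (0.99 - ε)`.
Definitions for the local theorem (lines of a lattice plane, plane curves).
-/

open Finset Polynomial
open scoped Classical

namespace FDP

/-- the line `y s - x t = c` of the lattice plane, coded by `(x, y, c)` -/
abbrev Ln := ℤ × ℤ × ℤ

/-- the determinant of the directions of two lines -/
def dt (v w : Ln) : ℤ := v.1 * w.2.1 - w.1 * v.2.1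

/-- the lattice point `z = (s, t)` lies on the line `v` -/
def On (v : Ln) (z : ℤ × ℤ) : Prop := v.2.2 = v.2.1 * z.1 - v.1 * z.2

/-- admissible sets of lines; `L ^ b` is the size of the directions -/
structure Adm (b L : ℕ) (V : Finset Ln) : Prop where
  cop : ∀ v ∈ V, IsCoprime v.1 v.2.1
  ynz : ∀ v ∈ V, v.2.1 ≠ 0
  bx : ∀ v ∈ V, |v.1| ≤ (L : ℤ) ^ (b + 10)
  bdy : ∀ v ∈ V, |v.2.1| ≤ (L : ℤ) ^ (b + 10)
  bc : ∀ v ∈ V, |v.2.2| ≤ (L : ℤ) ^ (51 * b + 10)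
  lift : ∀ x y : ℤ, (V.filter (fun v => v.1 = x ∧ v.2.1 = y)).card ≤ L ^ 10
  inj : ∀ w ∈ V, ∀ D : ℤ, (V.filter (fun v => dt v w = D)).card ≤ L ^ 10

/-- two lines of prime determinant `D ∈ (L ^ (2b-1), L ^ (2b)]` that meet in a lattice point -/
def IsEdge (b L : ℕ) (v w : Ln) : Prop :=
  ∃ D : ℕ, D.Prime ∧ L ^ (2 * b - 1) < D ∧ D ≤ L ^ (2 * b) ∧ |dt v w| = (D : ℤ) ∧
    ∃ z : ℤ × ℤ, On v z ∧ On w z

/-- The local theorem: if at least `L ^ (4b - q)` pairs of lines of `V` meet in lattice points (with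
prime determinant), then one of the meeting points lies on at least `L ^ (2b - q - C0)` lines. -/
def LocalThm (b q0 C0 : ℕ) : Prop :=
  ∃ L0 : ℕ, ∀ L, L0 ≤ L → ∀ q, q ≤ q0 → ∀ V : Finset Ln, Adm b L V → ∀ G : Finset (Ln × Ln),
    (∀ e ∈ G, e.1 ∈ V ∧ e.2 ∈ V ∧ IsEdge b L e.1 e.2) → L ^ (4 * b - q) ≤ G.card →
    ∃ e ∈ G, ∃ z : ℤ × ℤ, On e.1 z ∧ On e.2 z ∧
      L ^ (2 * b - q - C0) ≤ (V.filter (fun v => On v z)).card

/-- the total degree in `(U, Γ)` of a polynomial of `ℤ[U][Γ]` -/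
noncomputable def tdg (F : ℤ[X][X]) : ℕ := F.support.sup (fun j => (F.coeff j).natDegree + j)

/-- the evaluation at `(u, g)` -/
noncomputable def ev {k : Type*} [CommRing k] (u g : k) : ℤ[X][X] →+* k :=
  eval₂RingHom (eval₂RingHom (Int.castRingHom k) u) g

/-- `y ^ d * F (x / y, c / y)` at the line `(x, y, c)`, for `F` of total degree at most `d` -/
noncomputable def hm (d : ℕ) (F : ℤ[X][X]) (v : Ln) : ℤ :=
  ∑ j ∈ Finset.range (d + 1), ∑ i ∈ Finset.range (d + 1 - j),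
    (F.coeff j).coeff i * v.1 ^ i * v.2.2 ^ j * v.2.1 ^ (d - i - j)

/-- the curve `F = 0` passes through the point `(x / y, c / y)` -/
def Van (F : ℤ[X][X]) (v : Ln) : Prop := ev ((v.1 : ℚ) / v.2.1) ((v.2.2 : ℚ) / v.2.1) F = 0

/-- `F (x / y, Γ)` is the zero polynomial -/
def Exc (F : ℤ[X][X]) (v : Ln) : Prop :=
  F.map (eval₂RingHom (Int.castRingHom ℚ) ((v.1 : ℚ) / v.2.1)) = 0

/-- the two lines define the same point `(x / y, c / y)` modulo `p` -/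
def SameCl (p : ℕ) (v w : Ln) : Prop :=
  (p : ℤ) ∣ v.1 * w.2.1 - w.1 * v.2.1 ∧ (p : ℤ) ∣ v.2.2 * w.2.1 - w.2.2 * v.2.1

/-- the hypotheses of the point counts: `Ψ` is an irreducible factor, of total degree at least `2`,
of a form `F` of degree at most `d` and small height -/
structure PCH (b L : ℕ) (V : Finset Ln) (d : ℕ) (F Ψ : ℤ[X][X]) : Prop where
  adm : Adm b L V
  hd1 : 1 ≤ d
  hdL : d ≤ L ^ b
  F0 : F ≠ 0
  Fd : tdg F ≤ d
  FH : ∀ j i, |(F.coeff j).coeff i| ≤ (L : ℤ) ^ (52 * b * d)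
  dvd : Ψ ∣ F
  irr : Irreducible Ψ
  e2 : 2 ≤ tdg Ψ

end FDP
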