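import Mathlib

set_option autoImplicit false

open Finset

namespace FDP

theorem DetAB_card {ι : Type*} [Fintype ι] (r : ℕ) (s : Fin r → Fin r ⊕ ι)
    (hs : Function.Injective s) :
    r - Fintype.card ι ≤ (univ.filter (fun j : Fin r => (s j).isLeft = true)).card := by
  classical
  have h1 : (univ.filter (fun j : Fin r => ¬ (s j).isLeft = true)).card ≤
      ((univ : Finset ι).map Function.Embedding.inr : Finset (Fin r ⊕ ι)).card := by
    refine Finset.card_le_card_of_injOn s ?_ hs.injOn
    intro j hj
    have hj2 := (Finset.mem_filter.1 hj).2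
    rw [Finset.mem_coe, Finset.mem_map]
    cases h : s j with
    | inl x => rw [h] at hj2; exact absurd rfl hj2
    | inr x => exact ⟨x, Finset.mem_univ x, rfl⟩
  rw [Finset.card_map, Finset.card_univ] at h1
  have h2 := Finset.card_filter_add_card_filter_not (s := (univ : Finset (Fin r)))
    (fun j : Fin r => (s j).isLeft = true)
  rw [Finset.card_univ, Fintype.card_fin] at h2
  omega

/-- A determinant of a matrix of rank at most `N` modulo `q`.
Proof.  The `r` rows of `A * B + q • E`: expand by multilinearity (`MultilinearMap.map_add_univ`);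
in a term with more than `N = |ι|` rows from `A * B` these rows are linearly dependent over `ℚ`, and
the term vanishes; the other terms are divisible by `q ^ (r - N)`.  (Or: it is the determinant of the
block matrix with rows `(q E, A)` and `(-B, 1)`, `Matrix.det_fromBlocks_one₂₂`; the columns, resp. the
terms of the Leibniz formula.) -/
theorem det_AB {ι : Type*} [Fintype ι] [DecidableEq ι] (r : ℕ) (q : ℤ)
    (A : Matrix (Fin r) ι ℤ) (B : Matrix ι (Fin r) ℤ) (E : Matrix (Fin r) (Fin r) ℤ) :
    q ^ (r - Fintype.card ι) ∣ (A * B + q • E).det := by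
  have h1 : (A * B + q • E).det = (Matrix.fromBlocks (q • E) A (-B) 1).det := by
    rw [Matrix.det_fromBlocks_one₂₂, Matrix.mul_neg, sub_neg_eq_add, add_comm]
  rw [h1, Matrix.det_apply]
  refine Finset.dvd_sum fun σ _ => ?_
  have h2 : q ^ (r - Fintype.card ι) ∣
      ∏ i, (Matrix.fromBlocks (q • E) A (-B) 1) (σ i) i := by
    rw [Fintype.prod_sum_type]
    refine Dvd.dvd.mul_right ?_ _
    have h3 := DetAB_card r (fun j => σ (Sum.inl j)) (σ.injective.comp Sum.inl_injective)
    refine dvd_trans (pow_dvd_pow q h3) ?_
    rw [← Finset.prod_const, Finset.prod_filter]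
    refine Finset.prod_dvd_prod_of_dvd _ _ fun j _ => ?_
    split_ifs with h
    · cases hσ : σ (Sum.inl j) with
      | inl x =>
        rw [Matrix.fromBlocks_apply₁₁, Matrix.smul_apply, smul_eq_mul]
        exact dvd_mul_right _ _
      | inr x => rw [hσ] at h; exact absurd h (by simp)
    · exact one_dvd _
  rcases Int.units_eq_one_or (Equiv.Perm.sign σ) with h | h
  · rw [h, one_smul]; exact h2
  · rw [h, Units.neg_smul, one_smul]; exact (dvd_neg).2 h2

end FDP
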