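import Pool.Agent.W_fd120a_h8.GDefs

set_option autoImplicit false

open Finset
open scoped Classical

namespace FDP

open FD120

theorem Level_pos (b L : ℕ) (N P : ℤ) (h : Par b L N P) : 0 < P := by
  have h1 : (0 : ℤ) < L := by
    have := h.hL
    have : 0 < L := by omega
    exact_mod_cast this
  exact lt_of_lt_of_le (pow_pos h1 _) h.P1

theorem Level_PPcard (P : ℤ) (hP : 0 < P) : ((PP P).card : ℤ) ≤ P := by
  have h1 := Finset.card_filter_le (Finset.Ico P (2 * P)) (fun p => Prime p)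
  rw [Int.card_Ico] at h1
  have h2 : (PP P).card ≤ (2 * P - P).toNat := h1
  omega

theorem Level_PPcard' (b L : ℕ) (N P : ℤ) (h : Par b L N P) :
    (PP P).card ≤ 4 * L ^ (51 * b) := by
  have h1 := (Level_PPcard P (Level_pos b L N P h)).trans h.P2
  exact_mod_cast h1

theorem Level_II_ge (b L : ℕ) (N P : ℤ) (res : ℤ → ℤ) (h : Par b L N P) :
    L ^ (100 * b - 2) ≤ II N P res := by
  have hb := h.hb
  have hL := h.hL
  have hP := Level_pos b L N P h
  have hLz : (16 : ℤ) ≤ L := by
    have : 16 ≤ L := by omega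
    exact_mod_cast this
  have hLpos : (0 : ℤ) < L := by linarith
  have h16 : 16 * (L : ℤ) ^ (51 * b) ≤ (L : ℤ) ^ (51 * b + 1) := by
    rw [pow_succ']
    exact mul_le_mul_of_nonneg_right hLz (by positivity)
  have h1 : (L : ℤ) ^ (51 * b + 1) ≤ (L : ℤ) ^ (100 * b) :=
    pow_le_pow_right₀ (by linarith) (by omega)
  have h2 := II_lower N P res hP (by linarith [h.P2, h.N1])
  have h3 : (L : ℤ) ^ (51 * b - 1) * (L : ℤ) ^ (100 * b) ≤ ((PP P).card : ℤ) * N := by
    refine mul_le_mul ?_ h.N1 (by positivity) (by positivity)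
    exact_mod_cast h.pr
  have h4 : 4 * P * (II N P res : ℤ) ≤ (L : ℤ) ^ (51 * b + 1) * (II N P res : ℤ) := by
    refine mul_le_mul_of_nonneg_right ?_ (by positivity)
    linarith [h.P2]
  have h5 : (L : ℤ) ^ (51 * b + 1) * (L : ℤ) ^ (100 * b - 2) =
      (L : ℤ) ^ (51 * b - 1) * (L : ℤ) ^ (100 * b) := by
    rw [← pow_add, ← pow_add]
    congr 1
    omega
  have h6 : (L : ℤ) ^ (51 * b + 1) * (L : ℤ) ^ (100 * b - 2) ≤
      (L : ℤ) ^ (51 * b + 1) * (II N P res : ℤ) := by linarith
  have h7 := le_of_mul_le_mul_left h6 (by positivity)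
  exact_mod_cast h7

theorem Level_split (b L : ℕ) (N P : ℤ) (res : ℤ → ℤ) (h : Par b L N P) :
    II N P res ≤ ∑ i ∈ Finset.range (51 * b + 1), ∑ n ∈ SL N P res L i, rr P res n := by
  have hL := h.hL
  have hL1 : 1 < L := by omega
  have h1 : ∀ i, ∑ n ∈ SL N P res L i, rr P res n = ∑ n ∈ Finset.Icc 1 N,
      if L ^ i ≤ rr P res n ∧ rr P res n < L ^ (i + 1) then rr P res n else 0 := by
    intro i
    unfold SL
    rw [sum_filter]
  rw [II_eq, sum_congr rfl fun i _ => h1 i, sum_comm]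
  refine sum_le_sum fun n _ => ?_
  rcases Nat.eq_zero_or_pos (rr P res n) with h0 | h0
  · rw [h0]
    exact Nat.zero_le _
  · have h2 : L ^ Nat.log L (rr P res n) ≤ rr P res n := Nat.pow_log_le_self L (by omega)
    have h3 : rr P res n < L ^ (Nat.log L (rr P res n) + 1) := Nat.lt_pow_succ_log_self hL1 _
    have h4 : rr P res n < L ^ (51 * b + 1) := by
      have h5 : rr P res n ≤ (PP P).card := card_filter_le _ _
      have h6 := Level_PPcard' b L N P h
      have h7 : 4 * L ^ (51 * b) < L ^ (51 * b + 1) := by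
        rw [pow_succ']
        exact Nat.mul_lt_mul_of_pos_right (by omega) (by positivity)
      omega
    have h5 : Nat.log L (rr P res n) < 51 * b + 1 :=
      (Nat.pow_lt_pow_iff_right hL1).1 (h2.trans_lt h4)
    have h6 := single_le_sum (f := fun i => if L ^ i ≤ rr P res n ∧ rr P res n < L ^ (i + 1)
      then rr P res n else 0) (fun i _ => Nat.zero_le _) (mem_range.2 h5)
    refine le_trans (le_of_eq ?_) h6
    exact (if_pos ⟨h2, h3⟩).symm

theorem Level_off (L : ℕ) (N P : ℤ) (res : ℤ → ℤ) (i : ℕ) :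
    (L ^ i - 1) * ∑ n ∈ SL N P res L i, rr P res n ≤
      ∑ n ∈ SL N P res L i, ((CC P res n).offDiag).card := by
  rw [mul_sum]
  refine sum_le_sum fun n hn => ?_
  have h1 : (CC P res n).card = rr P res n := rfl
  rw [offDiag_card, h1, ← Nat.sub_one_mul]
  refine Nat.mul_le_mul_right _ ?_
  have := (mem_filter.1 hn).2.1
  omega

/-- Choice of the level.  Proof.  `II = ∑ n, rr n ≥ L ^ (100b-2)` (`II_lower`, `II_eq`, `Par.pr`,
`Par.P2`, `Par.N1`); the multiplicities are at most `#PP P ≤ P ≤ L ^ (51b+1)`, so by the pigeonhole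
principle some level `i ≤ 51 b + 1` has `∑ n ∈ SL, rr n ≥ L ^ (100b-2) / (51 b + 2) ≥ L ^ (100b-3)`
(`60 b ≤ L`).  As `SL ⊆ SS` (points of multiplicity at least 1),
`L ^ (100b-3) ≤ |SL| L ^ (i+1) < L ^ (98b+q0) L ^ (i+1)`, so `i + q0 + 3 ≥ 2b`.  By `pairs_le`
`(L ^ i - 1) L ^ (100b-3) ≤ ∑ n ∈ SL, rr n (rr n - 1) ≤ |PP P| ^ 2 ≤ L ^ (102b+2)`, so `i ≤ 2b + 5`.
Take `q = 2b - i` (natural subtraction). -/
theorem level (b L : ℕ) (N P : ℤ) (res : ℤ → ℤ) (q0 : ℕ) (h : Par b L N P) (hq0 : q0 + 10 ≤ b)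
    (hS : (SS N P res).card < L ^ (98 * b + q0)) : ∃ i q, Lev b L N P res q0 i q := by
  have hL1 : 1 < L := by
    have := h.hL
    omega
  have hb := h.hb
  obtain ⟨i, hi⟩ : ∃ i, L ^ (100 * b - 3) ≤ ∑ n ∈ SL N P res L i, rr P res n := by
    by_contra hcon
    push Not at hcon
    have h1 := Level_split b L N P res h
    have h2 := Level_II_ge b L N P res h
    have h3 : ∑ i ∈ Finset.range (51 * b + 1), ∑ n ∈ SL N P res L i, rr P res n ≤
        (51 * b + 1) * L ^ (100 * b - 3) := by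
      refine (sum_le_card_nsmul _ _ _ fun i _ => (hcon i).le).trans ?_
      rw [card_range, smul_eq_mul]
    have h4 : (51 * b + 1) * L ^ (100 * b - 3) < L * L ^ (100 * b - 3) := by
      refine Nat.mul_lt_mul_of_pos_right ?_ (by positivity)
      have := h.hbL
      omega
    have h5 : L * L ^ (100 * b - 3) = L ^ (100 * b - 2) := by
      rw [← pow_succ']
      congr 1
      omega
    omega
  have hA : 2 * b ≤ q0 + i + 3 := by
    have h1 : ∑ n ∈ SL N P res L i, rr P res n ≤ (SL N P res L i).card * L ^ (i + 1) := by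
      refine (sum_le_card_nsmul _ _ (L ^ (i + 1)) fun n hn => ?_).trans ?_
      · exact (mem_filter.1 hn).2.2.le
      · rw [smul_eq_mul]
    have h2 : (SL N P res L i).card ≤ (SS N P res).card := by
      refine card_le_card fun n hn => ?_
      obtain ⟨h3, h4, h5⟩ := mem_filter.1 hn
      have h6 : 0 < L ^ i := by positivity
      have h7 : rr P res n ≠ 0 := by omega
      obtain ⟨p, hp⟩ := card_ne_zero.1 h7
      obtain ⟨h8, h9⟩ := mem_filter.1 hp
      exact mem_filter.2 ⟨h3, p, h8, h9⟩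
    have h3 : L ^ (100 * b - 3) < L ^ (98 * b + q0 + (i + 1)) := by
      rw [pow_add L (98 * b + q0) (i + 1)]
      calc L ^ (100 * b - 3) ≤ (SL N P res L i).card * L ^ (i + 1) := hi.trans h1
        _ ≤ (SS N P res).card * L ^ (i + 1) := Nat.mul_le_mul_right _ h2
        _ < L ^ (98 * b + q0) * L ^ (i + 1) :=
            Nat.mul_lt_mul_of_pos_right hS (by positivity)
    have h4 := (Nat.pow_lt_pow_iff_right hL1).1 h3
    omega
  have hB : i ≤ 2 * b + 5 := by
    by_contra hcon
    push Not at hcon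
    have h1 := Level_off L N P res i
    have h2 : ∑ n ∈ SL N P res L i, ((CC P res n).offDiag).card ≤ (PP P).card ^ 2 := by
      refine le_trans ?_ (pairs_le N P res (Level_pos b L N P h) h.NP)
      exact sum_le_sum_of_subset_of_nonneg (filter_subset _ _) fun n _ _ => Nat.zero_le _
    have h3 : (PP P).card ^ 2 ≤ L ^ (102 * b + 1) := by
      have h4 := Level_PPcard' b L N P h
      calc (PP P).card ^ 2 ≤ (4 * L ^ (51 * b)) ^ 2 := Nat.pow_le_pow_left h4 2
        _ = 16 * L ^ (102 * b) := by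
            rw [mul_pow, ← pow_mul]
            congr 2
            ring
        _ ≤ L * L ^ (102 * b) := by
            refine Nat.mul_le_mul_right _ ?_
            have := h.hL
            omega
        _ = L ^ (102 * b + 1) := by rw [← pow_succ']
    have h5 : L ^ (2 * b + 5) ≤ L ^ i - 1 := by
      have h6 : L ^ (2 * b + 6) ≤ L ^ i := Nat.pow_le_pow_right (by omega) (by omega)
      have h7 : 2 * L ^ (2 * b + 5) ≤ L ^ (2 * b + 6) := by
        rw [pow_succ' L (2 * b + 5)]
        exact Nat.mul_le_mul_right _ hL1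
      have h8 : 0 < L ^ (2 * b + 5) := by positivity
      omega
    have h9 : L ^ (2 * b + 5) * L ^ (100 * b - 3) ≤ L ^ (102 * b + 1) :=
      calc L ^ (2 * b + 5) * L ^ (100 * b - 3)
          ≤ (L ^ i - 1) * ∑ n ∈ SL N P res L i, rr P res n := Nat.mul_le_mul h5 hi
        _ ≤ _ := h1.trans (h2.trans h3)
    rw [← pow_add] at h9
    have h10 := (Nat.pow_le_pow_iff_right hL1).1 h9
    omega
  exact ⟨i, 2 * b - i, by omega, by omega, by omega, by omega, hi⟩

/-- The number of pairs.  `|EL| = ∑ n ∈ SL, rr n (rr n - 1)`, the meeting point of two classes being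
unique (`CC_unique`), and `rr n - 1 ≥ L ^ i - 1`, `i ≥ 2b - q`. -/
theorem EL_card (b L : ℕ) (N P : ℤ) (res : ℤ → ℤ) (q0 i q : ℕ) (h : Par b L N P)
    (hl : Lev b L N P res q0 i q) : L ^ (102 * b - q - 4) ≤ (EL N P res L i).card := by
  have hL1 : 1 < L := by
    have := h.hL
    omega
  have hb := h.hb
  have hP := Level_pos b L N P h
  have h1 := Level_off L N P res i
  have h2 : ∑ n ∈ SL N P res L i, ((CC P res n).offDiag).card ≤ (EL N P res L i).card := by
    rw [← card_biUnion]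
    · refine card_le_card fun x hx => ?_
      rw [mem_biUnion] at hx
      obtain ⟨n, hn, hx⟩ := hx
      rw [mem_offDiag] at hx
      obtain ⟨h3, h4⟩ := mem_filter.1 hx.1
      obtain ⟨h5, h6⟩ := mem_filter.1 hx.2.1
      exact mem_filter.2 ⟨mem_product.2 ⟨h3, h5⟩, hx.2.2, n, hn, h4, h6⟩
    · intro n hn n' hn' hne
      rw [Function.onFun, disjoint_left]
      intro x hx hx'
      exact hne (CC_unique hP h.NP (mem_filter.1 hn).1 (mem_filter.1 hn').1 hx hx')
  have hq := hl.hqb
  have hi := hl.iq1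
  have h3 : L ^ (i - 1) ≤ L ^ i - 1 := by
    have h6 : L ^ i = L * L ^ (i - 1) := by
      rw [← pow_succ']
      congr 1
      omega
    have h7 : 2 * L ^ (i - 1) ≤ L * L ^ (i - 1) := Nat.mul_le_mul_right _ hL1
    have h8 : 0 < L ^ (i - 1) := by positivity
    omega
  calc L ^ (102 * b - q - 4) ≤ L ^ (i - 1 + (100 * b - 3)) :=
        Nat.pow_le_pow_right (by omega) (by omega)
    _ = L ^ (i - 1) * L ^ (100 * b - 3) := pow_add _ _ _
    _ ≤ (L ^ i - 1) * ∑ n ∈ SL N P res L i, rr P res n := Nat.mul_le_mul h3 hl.sum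
    _ ≤ _ := h1.trans h2

/-- The number of concurrent triples.  `rr n < L ^ (i+1) ≤ L ^ (2b-q+7)` and
`∑ n ∈ SL, rr n ≤ II ≤ L ^ (100b+2)` (`II_upper`). -/
theorem cube_sum (b L : ℕ) (N P : ℤ) (res : ℤ → ℤ) (q0 i q : ℕ) (h : Par b L N P)
    (hl : Lev b L N P res q0 i q) :
    ∑ n ∈ SL N P res L i, (rr P res n) ^ 3 ≤ L ^ (104 * b - 2 * q + 16) := by
  have hL1 : 1 < L := by
    have := h.hL
    omega
  have hb := h.hb
  have hP := Level_pos b L N P h
  have hq := hl.hqb
  have hi := hl.iq2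
  have h1 : II N P res ≤ L ^ (100 * b + 1) := by
    have h2 : (L : ℤ) ^ (51 * b) ≤ (L : ℤ) ^ (100 * b) :=
      pow_le_pow_right₀ (by exact_mod_cast hL1.le) (by omega)
    have h2' : 4 * (L : ℤ) ^ (51 * b) ≤ (L : ℤ) ^ (100 * b) := by
      have h21 : (L : ℤ) ^ (100 * b) = (L : ℤ) ^ (49 * b) * (L : ℤ) ^ (51 * b) := by
        rw [← pow_add]
        congr 1
        ring
      have h22 : (4 : ℤ) ≤ (L : ℤ) ^ (49 * b) := by
        have h23 : (L : ℤ) ≤ (L : ℤ) ^ (49 * b) := by
          refine le_self_pow₀ (by exact_mod_cast hL1.le) (by omega)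
        have := h.hL
        have h24 : (4 : ℤ) ≤ (L : ℤ) := by
          have : 4 ≤ L := by omega
          exact_mod_cast this
        linarith
      rw [h21]
      exact mul_le_mul_of_nonneg_right h22 (by positivity)
    have h3 := II_upper N P res hP (by linarith [h.P2, h.N1])
    have h4 := Level_PPcard P hP
    have hN0 : 0 < N := lt_of_lt_of_le (by positivity) h.N1
    have h5 : P * (II N P res : ℤ) ≤ P * (2 * N) := by
      refine h3.trans ?_
      calc 2 * N * ((PP P).card : ℤ) ≤ 2 * N * P := mul_le_mul_of_nonneg_left h4 (by positivity)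
        _ = P * (2 * N) := by ring
    have h6 := le_of_mul_le_mul_left h5 hP
    have h7 : 4 * (L : ℤ) ^ (100 * b) ≤ (L : ℤ) ^ (100 * b + 1) := by
      rw [pow_succ']
      refine mul_le_mul_of_nonneg_right ?_ (by positivity)
      have := h.hL
      have : 4 ≤ L := by omega
      exact_mod_cast this
    have h8 : (II N P res : ℤ) ≤ (L : ℤ) ^ (100 * b + 1) := by linarith [h.N2]
    exact_mod_cast h8
  have h2 : ∑ n ∈ SL N P res L i, rr P res n ≤ II N P res := by
    rw [II_eq]
    exact sum_le_sum_of_subset_of_nonneg (filter_subset _ _) fun n _ _ => Nat.zero_le _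
  have h3 : ∑ n ∈ SL N P res L i, (rr P res n) ^ 3 ≤
      L ^ (2 * (2 * b - q + 7)) * ∑ n ∈ SL N P res L i, rr P res n := by
    rw [mul_sum]
    refine sum_le_sum fun n hn => ?_
    have h4 : rr P res n ≤ L ^ (2 * b - q + 7) := by
      refine (mem_filter.1 hn).2.2.le.trans ?_
      exact Nat.pow_le_pow_right (by omega) (by omega)
    calc (rr P res n) ^ 3 = (rr P res n) ^ 2 * rr P res n := by ring
      _ ≤ (L ^ (2 * b - q + 7)) ^ 2 * rr P res n :=
          Nat.mul_le_mul_right _ (Nat.pow_le_pow_left h4 2)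
      _ = L ^ (2 * (2 * b - q + 7)) * rr P res n := by
          rw [← pow_mul, mul_comm (2 * b - q + 7) 2]
  calc ∑ n ∈ SL N P res L i, (rr P res n) ^ 3
      ≤ L ^ (2 * (2 * b - q + 7)) * L ^ (100 * b + 1) :=
        h3.trans (Nat.mul_le_mul_left _ (h2.trans h1))
    _ = L ^ (2 * (2 * b - q + 7) + (100 * b + 1)) := (pow_add _ _ _).symm
    _ ≤ _ := Nat.pow_le_pow_right (by omega) (by omega)

/-- The chosen meeting point. -/
theorem ptL_spec (N P : ℤ) (res : ℤ → ℤ) (L i : ℕ) (e : ℤ × ℤ) (he : e ∈ EL N P res L i) :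
    MeetL N P res L i e (ptL N P res L i e) := by
  have h1 : ∃ n, MeetL N P res L i e n := (mem_filter.1 he).2.2
  unfold ptL
  rw [dif_pos h1]
  exact h1.choose_spec

end FDP
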