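import Pool.Agent.W_fd120a_h8.AdmVV
import Pool.Agent.W_fd120a_h8.ChartEx
import Pool.Agent.W_fd120a_h8.Level

set_option autoImplicit false

open Finset
open scoped Classical

namespace FDP

open FD120

/-- the lower bound for `U` -/
theorem EdgeVV_U {b L : ℕ} {N P : ℤ} (h : Par b L N P) {U : ℤ}
    (hlow : P ≤ U * (L : ℤ) ^ (b + 2)) : (L : ℤ) ^ (50 * b - 2) ≤ U := by
  have hb := h.hb
  have hL0 : (0 : ℤ) < L := by
    have := h.hL
    exact_mod_cast (by omega : 0 < L)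
  have h1 : (L : ℤ) ^ (50 * b - 2) * (L : ℤ) ^ (b + 2) ≤ U * (L : ℤ) ^ (b + 2) := by
    rw [← pow_add]
    have e : 50 * b - 2 + (b + 2) = 51 * b := by omega
    rw [e]
    exact h.P1.trans hlow
  exact le_of_mul_le_mul_right h1 (by positivity)

/-- The point of the lattice plane over an integer `n ∈ [1, N]`: `n = s U + t V`, `0 ≤ t < U`
(`gcd(U, V) = 1`), so `|s|, |t| ≤ L ^ (50b+3)`. -/
theorem exists_point (b L : ℕ) (N P : ℤ) (h : Par b L N P) (U V n : ℤ) (hU : 1 ≤ U)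
    (hV0 : 0 ≤ V) (hVU : V < U) (hlow : P ≤ U * (L : ℤ) ^ (b + 2))
    (hup : U ≤ (L : ℤ) ^ (50 * b + 2)) (hcop : IsCoprime U V) (hn1 : 1 ≤ n) (hnN : n ≤ N) :
    ∃ s t : ℤ, n = s * U + t * V ∧ |s| ≤ (L : ℤ) ^ (50 * b + 3) ∧ |t| ≤ (L : ℤ) ^ (50 * b + 3) := by
  have hb := h.hb
  have hL1 : (1 : ℤ) < L := by
    have := h.hL
    exact_mod_cast (by omega : 1 < L)
  have hL2 : (2 : ℤ) < L := by
    have := h.hL
    exact_mod_cast (by omega : 2 < L)
  have hL0 : (0 : ℤ) < L := by linarith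
  obtain ⟨a, c, hac⟩ := hcop
  have h1 : (n * c) % U = n * c - U * ((n * c) / U) := by
    have := Int.emod_add_mul_ediv (n * c) U
    linarith
  have ht0 : 0 ≤ (n * c) % U := Int.emod_nonneg _ (by omega)
  have ht1 : (n * c) % U < U := Int.emod_lt_of_pos _ (by omega)
  obtain ⟨t, ht⟩ : ∃ t, t = (n * c) % U := ⟨_, rfl⟩
  rw [← ht] at ht0 ht1 h1
  obtain ⟨s, hs⟩ : ∃ s, s = n * a + V * ((n * c) / U) := ⟨_, rfl⟩
  have hst : n = s * U + t * V := by
    rw [hs, h1]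
    linear_combination (-n) * hac
  have hpow : (L : ℤ) ^ (50 * b + 2) ≤ (L : ℤ) ^ (50 * b + 3) :=
    pow_le_pow_right₀ hL1.le (by omega)
  refine ⟨s, t, hst, ?_, ?_⟩
  · have hUlow := EdgeVV_U h hlow
    have htV : t * V ≤ U * U := by
      calc t * V ≤ U * V := mul_le_mul_of_nonneg_right ht1.le hV0
        _ ≤ U * U := mul_le_mul_of_nonneg_left hVU.le (by omega)
    have htV0 : 0 ≤ t * V := mul_nonneg ht0 hV0
    rw [abs_le]
    constructor
    · by_contra hc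
      have hc' := not_le.1 hc
      have h2 : s * U < -(L : ℤ) ^ (50 * b + 3) * U := mul_lt_mul_of_pos_right hc' (by omega)
      have h3 : U * U ≤ (L : ℤ) ^ (50 * b + 3) * U :=
        mul_le_mul_of_nonneg_right (hup.trans hpow) (by omega)
      have h4 : -(L : ℤ) ^ (50 * b + 3) * U = -((L : ℤ) ^ (50 * b + 3) * U) := by ring
      linarith
    · by_contra hc
      have hc' := not_le.1 hc
      have h2 : (L : ℤ) ^ (50 * b + 3) * U < s * U := mul_lt_mul_of_pos_right hc' (by omega)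
      have h3 : (L : ℤ) ^ (50 * b + 3) * (L : ℤ) ^ (50 * b - 2) ≤ (L : ℤ) ^ (50 * b + 3) * U :=
        mul_le_mul_of_nonneg_left hUlow (by positivity)
      have h4 : (L : ℤ) ^ (50 * b + 3) * (L : ℤ) ^ (50 * b - 2) = L * (L : ℤ) ^ (100 * b) := by
        rw [← pow_add, ← pow_succ']
        congr 1
        omega
      have h5 : 2 * (L : ℤ) ^ (100 * b) ≤ L * (L : ℤ) ^ (100 * b) :=
        mul_le_mul_of_nonneg_right hL2.le (by positivity)
      have h6 := h.N2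
      linarith
  · rw [abs_of_nonneg ht0]
    linarith

/-- coprimality of the coordinates of a chart -/
theorem EdgeVV_cop {b L : ℕ} {N P : ℤ} (h : Par b L N P) {U V x y : ℤ} (hU : 1 ≤ U)
    (hup : U ≤ (L : ℤ) ^ (50 * b + 2)) (hQ : x * U + y * V ∈ PP P) : IsCoprime U V := by
  have hb := h.hb
  have hL1 : (1 : ℤ) < L := by
    have := h.hL
    exact_mod_cast (by omega : 1 < L)
  have hUP : U < P :=
    hup.trans_lt ((pow_lt_pow_right₀ hL1 (by omega : 50 * b + 2 < 51 * b)).trans_le h.P1)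
  obtain ⟨h4, h5, h6⟩ := PP_mem hQ
  rw [Int.isCoprime_iff_gcd_eq_one]
  have hg0 : 0 < Int.gcd U V := Int.gcd_pos_of_ne_zero_left _ (by omega)
  have hgd : (Int.gcd U V : ℤ) ∣ x * U + y * V :=
    dvd_add ((Int.gcd_dvd_left _ _).mul_left _) ((Int.gcd_dvd_right _ _).mul_left _)
  have hgU : (Int.gcd U V : ℤ) ≤ U := Int.le_of_dvd (by omega) (Int.gcd_dvd_left _ _)
  have h8 := AdmVV_unit h6 hgd (by exact_mod_cast hg0) (by linarith)
  exact_mod_cast h8

/-- a line through a point over `n` belongs to `VV` -/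
theorem EdgeVV_mem {b L : ℕ} {N P : ℤ} (h : Par b L N P) {res : ℤ → ℤ} {U V n s t x y : ℤ}
    (hn : n = s * U + t * V) (hs : |s| ≤ (L : ℤ) ^ (50 * b + 3)) (ht : |t| ≤ (L : ℤ) ^ (50 * b + 3))
    (hx : |x| ≤ (L : ℤ) ^ (b + 3)) (hy : |y| ≤ (L : ℤ) ^ (b + 3)) (hQ : x * U + y * V ∈ PP P)
    (hd : (x * U + y * V) ∣ n - res (x * U + y * V)) :
    ((x, y, y * s - x * t) : Ln) ∈ VV b L P res U V := by
  have hL2 : (2 : ℤ) < L := by
    have := h.hL
    exact_mod_cast (by omega : 2 < L)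
  unfold VV
  rw [mem_filter, mem_product, mem_product, mem_Icc, mem_Icc, mem_Icc]
  refine ⟨⟨abs_le.1 hx, abs_le.1 hy, ?_⟩, hQ, ?_⟩
  · rw [← abs_le]
    have h1 : |y * s| ≤ (L : ℤ) ^ (b + 3) * (L : ℤ) ^ (50 * b + 3) := by
      rw [abs_mul]
      exact mul_le_mul hy hs (abs_nonneg _) (by positivity)
    have h2 : |x * t| ≤ (L : ℤ) ^ (b + 3) * (L : ℤ) ^ (50 * b + 3) := by
      rw [abs_mul]
      exact mul_le_mul hx ht (abs_nonneg _) (by positivity)
    have h3 : (L : ℤ) ^ (51 * b + 7) = L * ((L : ℤ) ^ (b + 3) * (L : ℤ) ^ (50 * b + 3)) := by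
      rw [← pow_add, ← pow_succ']
      congr 1
      omega
    have h4 : 2 * ((L : ℤ) ^ (b + 3) * (L : ℤ) ^ (50 * b + 3)) ≤
        L * ((L : ℤ) ^ (b + 3) * (L : ℤ) ^ (50 * b + 3)) :=
      mul_le_mul_of_nonneg_right hL2.le (by positivity)
    have h5 : |y * s - x * t| ≤ |y * s| + |x * t| := abs_sub _ _
    change |y * s - x * t| ≤ _
    linarith
  · change (x * U + y * V) ∣ U * (y * s - x * t) - y * res (x * U + y * V)
    have e : U * (y * s - x * t) - y * res (x * U + y * V) =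
        y * (n - res (x * U + y * V)) - t * (x * U + y * V) := by
      rw [hn]
      ring
    rw [e]
    exact dvd_sub (hd.mul_left _) (Dvd.intro_left _ rfl)

/-- The edge of a triple.  Let `τ = ((Q, Q'), D)`, `(U, V, v, w)` its chart, `n` the meeting point and
`z = (s, t)` the point over `n` (`exists_point`).  The lines `ν = (v.1, v.2, v.2 s - v.1 t)` and
`ω = (w.1, w.2, w.2 s - w.1 t)` belong to `VV` (with `c = y s - x t` one has `U c = y n - t Q`, so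
`U c ≡ y res Q` modulo `Q`; `|c| ≤ 2 L^(b+3) L^(50b+3) ≤ L ^ (51b+7)`), and form an edge.
The lines of `VV` through `z` correspond injectively to elements of `PT` (a line `(x, y, c)` through
`z` with `R = x U + y V` has `U c = y n - t R`, so `y n ≡ y res R`, `R ∤ y`; two lines with the same `R`
through `z` have `(x - x') U = (y' - y) V`, `U ∣ y - y'`, so they are equal). -/
theorem edge_VV (b L : ℕ) (N P : ℤ) (h : Par b L N P) (res : ℤ → ℤ) (i : ℕ)
    (τ : (ℤ × ℤ) × ℕ) (hτ : τ ∈ TR b L N P res i) :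
    ∃ z : ℤ × ℤ, ∃ ν ω : Ln,
      ν ∈ VV b L P res (ch b L P τ).1 (ch b L P τ).2.1 ∧
      ω ∈ VV b L P res (ch b L P τ).1 (ch b L P τ).2.1 ∧
      IsEdge b L ν ω ∧ On ν z ∧ On ω z ∧ dt ν ω = (τ.2 : ℤ) ∧
      ν.1 * (ch b L P τ).1 + ν.2.1 * (ch b L P τ).2.1 = τ.1.1 ∧
      ω.1 * (ch b L P τ).1 + ω.2.1 * (ch b L P τ).2.1 = τ.1.2 ∧
      ((VV b L P res (ch b L P τ).1 (ch b L P τ).2.1).filter (fun v => On v z)).card ≤
        (PT b L N P res i τ).card := by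
  have hb := h.hb
  have hL1 : (1 : ℤ) < L := by
    have := h.hL
    exact_mod_cast (by omega : 1 < L)
  have hC : Chart b L P τ.1.1 τ.1.2 τ.2 (ch b L P τ).1 (ch b L P τ).2.1 (ch b L P τ).2.2.1
    (ch b L P τ).2.2.2 := ch_spec b L N P res i τ hτ
  have hPT : PT b L N P res i τ = (PP P).filter (fun R => R ∣ ptL N P res L i τ.1 - res R ∧
    ∃ x y : ℤ, |x| ≤ (L : ℤ) ^ (b + 10) ∧ |y| ≤ (L : ℤ) ^ (b + 10) ∧
      R = x * (ch b L P τ).1 + y * (ch b L P τ).2.1) := rfl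
  have hτ' := hτ
  unfold TR at hτ'
  rw [mem_filter, mem_product] at hτ'
  obtain ⟨⟨hEL, hIoc⟩, hGD⟩ := hτ'
  have hD : (τ.2 : ℕ).Prime := by
    unfold GD at hGD
    rw [mem_filter, mem_filter] at hGD
    exact hGD.1.2
  rw [mem_Ioc] at hIoc
  obtain ⟨hn, hdQ, hdQ'⟩ := ptL_spec N P res L i τ.1 hEL
  have hPPs : τ.1.1 ∈ PP P ∧ τ.1.2 ∈ PP P := by
    unfold EL at hEL
    rw [mem_filter, mem_product] at hEL
    exact hEL.1
  rw [hPT]
  generalize ch b L P τ = C at hC ⊢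
  obtain ⟨U, V, v, w⟩ := C
  obtain ⟨n, hnn⟩ : ∃ n, n = ptL N P res L i τ.1 := ⟨_, rfl⟩
  rw [← hnn] at hn hdQ hdQ' ⊢
  change Chart b L P τ.1.1 τ.1.2 τ.2 U V v w at hC
  have hU1 := hC.U1
  have eQ := hC.eQ
  have eQ' := hC.eQ'
  have hn1 : 1 ≤ n ∧ n ≤ N := by
    unfold SL at hn
    rw [mem_filter, mem_Icc] at hn
    exact hn.1
  have hQ1 : v.1 * U + v.2 * V ∈ PP P := eQ ▸ hPPs.1
  have hQ2 : w.1 * U + w.2 * V ∈ PP P := eQ' ▸ hPPs.2
  have hcop : IsCoprime U V := EdgeVV_cop h hU1 hC.Uup hQ1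
  obtain ⟨s, t, hst, hs, ht⟩ := exists_point b L N P h U V n hU1 hC.V0 hC.VU hC.Ulow hC.Uup hcop
    hn1.1 hn1.2
  have hdt : dt ((v.1, v.2, v.2 * s - v.1 * t) : Ln) ((w.1, w.2, w.2 * s - w.1 * t) : Ln) =
      (τ.2 : ℤ) := hC.det
  refine ⟨(s, t), (v.1, v.2, v.2 * s - v.1 * t), (w.1, w.2, w.2 * s - w.1 * t), ?_, ?_, ?_, rfl,
    rfl, hdt, eQ.symm, eQ'.symm, ?_⟩
  · exact EdgeVV_mem h hst hs ht hC.bv1 hC.bv2 hQ1 (eQ ▸ hdQ)
  · exact EdgeVV_mem h hst hs ht hC.bw1 hC.bw2 hQ2 (eQ' ▸ hdQ')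
  · refine ⟨τ.2, hD, hIoc.1, hIoc.2, ?_, (s, t), rfl, rfl⟩
    rw [hdt]
    exact abs_of_nonneg (by positivity)
  · change ((VV b L P res U V).filter (fun v => On v (s, t))).card ≤ _
    have hadm := adm_VV b L N P h res U V hU1 hC.V0 hC.VU hC.Ulow hC.Uup
    refine card_le_card_of_injOn (fun v : Ln => v.1 * U + v.2.1 * V) ?_ ?_
    · intro ν hν
      rw [mem_coe, mem_filter] at hν
      obtain ⟨hν, hon⟩ := hν
      obtain ⟨a1, a2, a3, a4, a5, a6, a7⟩ := AdmVV_mem hν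
      have hmem : ν.1 * U + ν.2.1 * V ∈ PP P := by
        unfold VV at hν
        rw [mem_filter] at hν
        exact hν.2.1
      rw [mem_coe, mem_filter]
      refine ⟨hmem, ?_, ν.1, ν.2.1, a1.trans (pow_le_pow_right₀ hL1.le (by omega)),
        a2.trans (pow_le_pow_right₀ hL1.le (by omega)), rfl⟩
      change (ν.1 * U + ν.2.1 * V) ∣ n - res (ν.1 * U + ν.2.1 * V)
      have hon' : ν.2.2 = ν.2.1 * s - ν.1 * t := hon
      have e : U * ν.2.2 - ν.2.1 * res (ν.1 * U + ν.2.1 * V) =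
          ν.2.1 * (n - res (ν.1 * U + ν.2.1 * V)) - t * (ν.1 * U + ν.2.1 * V) := by
        rw [hon', hst]
        ring
      rw [e] at a7
      have h8 : (ν.1 * U + ν.2.1 * V) ∣ ν.2.1 * (n - res (ν.1 * U + ν.2.1 * V)) := by
        have h9 := dvd_add a7 (Dvd.intro_left t (rfl : t * (ν.1 * U + ν.2.1 * V) = _))
        rwa [sub_add_cancel] at h9
      rcases a6.dvd_or_dvd h8 with h9 | h9
      · exfalso
        have h10 := Int.le_of_dvd (abs_pos.2 (hadm.ynz ν hν)) ((dvd_abs _ _).2 h9)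
        have h11 : (L : ℤ) ^ (b + 3) < P :=
          (pow_lt_pow_right₀ hL1 (by omega : b + 3 < 51 * b)).trans_le h.P1
        linarith
      · exact h9
    · intro ν hν ν' hν' he
      rw [mem_coe, mem_filter] at hν hν'
      obtain ⟨hν, hon⟩ := hν
      obtain ⟨hν', hon'⟩ := hν'
      obtain ⟨a1, a2, -, -, -, -, -⟩ := AdmVV_mem hν
      obtain ⟨b1, b2, -, -, -, -, -⟩ := AdmVV_mem hν'
      have he' : ν.1 * U + ν.2.1 * V = ν'.1 * U + ν'.2.1 * V := he
      have h1 : U ∣ (ν.2.1 - ν'.2.1) * V := ⟨ν'.1 - ν.1, by linear_combination he'⟩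
      have h2 : U ∣ ν.2.1 - ν'.2.1 := hcop.dvd_of_dvd_mul_right h1
      have hUlow := EdgeVV_U h hC.Ulow
      have h3 : 2 * (L : ℤ) ^ (b + 3) < U := by
        have h4 : (L : ℤ) ^ (b + 4) < (L : ℤ) ^ (50 * b - 2) :=
          pow_lt_pow_right₀ hL1 (by omega)
        have h5 : 2 * (L : ℤ) ^ (b + 3) ≤ (L : ℤ) ^ (b + 4) := by
          rw [pow_succ' _ (b + 3)]
          exact mul_le_mul_of_nonneg_right (by omega) (by positivity)
        linarith
      have hy : ν.2.1 = ν'.2.1 := by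
        by_contra hne
        have h4 := Int.le_of_dvd (abs_pos.2 (sub_ne_zero.2 hne)) ((dvd_abs _ _).2 h2)
        have h5 : |ν.2.1 - ν'.2.1| ≤ |ν.2.1| + |ν'.2.1| := abs_sub _ _
        linarith
      have hx : ν.1 = ν'.1 := by
        rw [hy] at he'
        have h6 : (ν.1 - ν'.1) * U = 0 := by linear_combination he'
        rcases mul_eq_zero.1 h6 with h7 | h7
        · linarith
        · omega
      have hc : ν.2.2 = ν'.2.2 := by
        have e1 : ν.2.2 = ν.2.1 * s - ν.1 * t := hon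
        have e2 : ν'.2.2 = ν'.2.1 * s - ν'.1 * t := hon'
        rw [e1, e2, hx, hy]
      exact Prod.ext hx (Prod.ext hy hc)

end FDP
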