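import Pool.Agent.W_fd120a_h34.Blk2

set_option autoImplicit false

open Finset Filter Topology
open scoped Classical

namespace FDP

/-- Many primes in `(y, L y]`, for `y` polynomially bounded in `L`.
Proof: `FD120.prime_block2` with `η = 1 / (4 (C + 1))`, applied to `x = ⌊L y / 2⌋`:
the block `[x, 2x)` has at least `x ^ (1 - η) ≥ y` primes when `L` is large, since `y ≤ L ^ C`
(small values of `x` do not occur: `x ≥ L / 2 - 1` is large). -/
theorem primes_range (C : ℕ) : ∃ L0 : ℕ, ∀ L, L0 ≤ L → ∀ y : ℕ, 1 ≤ y → y ≤ L ^ C →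
    y ≤ ((Finset.Ioc y (L * y)).filter Nat.Prime).card := by
  have hη : (0 : ℝ) < 1 / (4 * ((C : ℝ) + 1)) := by positivity
  obtain ⟨X0, hX0⟩ := eventually_atTop.1 (FD120.prime_block2 _ hη)
  refine ⟨2 * X0 + 16, fun L hL y hy hyC => ?_⟩
  set x := L * y / 2 with hx
  have hLy : L ≤ L * y := Nat.le_mul_of_pos_right L hy
  have h16y : 16 * y ≤ L * y := Nat.mul_le_mul_right y (by omega)
  have hxX : X0 ≤ x := by omega
  have hyx : y < x := by omega
  have h2x : 2 * x ≤ L * y := by omega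
  have h4x : L * y ≤ 4 * x := by omega
  have hblk := hX0 x hxX
  rw [FD120.blk_card] at hblk
  have hsub : (Finset.Ico x (2 * x)).filter Nat.Prime ⊆
      (Finset.Ioc y (L * y)).filter Nat.Prime := by
    intro p hp
    rw [Finset.mem_filter, Finset.mem_Ico] at hp
    rw [Finset.mem_filter, Finset.mem_Ioc]
    exact ⟨⟨by omega, by omega⟩, hp.2⟩
  have hcard := Finset.card_le_card hsub
  have hy0 : (0 : ℝ) < y := by exact_mod_cast hy
  have hL16 : (16 : ℝ) ≤ L := by exact_mod_cast (show 16 ≤ L by omega)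
  have hL0 : (0 : ℝ) < L := by linarith
  have hx0 : (0 : ℝ) < x := by exact_mod_cast (show 0 < x by omega)
  -- `x ^ η ≤ L ^ (1/4)`
  have hxL : (x : ℝ) ≤ (L : ℝ) ^ ((C : ℝ) + 1) := by
    have h1 : x ≤ L ^ (C + 1) := by
      calc x ≤ L * y := by omega
        _ ≤ L * L ^ C := Nat.mul_le_mul_left L hyC
        _ = L ^ (C + 1) := by rw [pow_succ]; ring
    have h2 : ((x : ℕ) : ℝ) ≤ ((L ^ (C + 1) : ℕ) : ℝ) := by exact_mod_cast h1
    have h3 : (L : ℝ) ^ ((C : ℝ) + 1) = (L : ℝ) ^ (C + 1) := by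
      rw [← Real.rpow_natCast (L : ℝ) (C + 1)]
      push_cast
      rfl
    rw [h3]
    exact_mod_cast h2
  have hpow : (x : ℝ) ^ (1 / (4 * ((C : ℝ) + 1))) ≤ (L : ℝ) ^ ((1 : ℝ) / 4) := by
    calc (x : ℝ) ^ (1 / (4 * ((C : ℝ) + 1)))
        ≤ ((L : ℝ) ^ ((C : ℝ) + 1)) ^ (1 / (4 * ((C : ℝ) + 1))) :=
          Real.rpow_le_rpow hx0.le hxL hη.le
      _ = (L : ℝ) ^ ((1 : ℝ) / 4) := by
          rw [← Real.rpow_mul hL0.le]
          congr 1
          have : (C : ℝ) + 1 ≠ 0 := by positivity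
          field_simp
  have hroot : (L : ℝ) ^ ((1 : ℝ) / 4) ≤ L / 4 := by
    have h1 : (L : ℝ) ^ ((1 : ℝ) / 4) ≤ (L : ℝ) ^ ((1 : ℝ) / 2) :=
      Real.rpow_le_rpow_of_exponent_le (by linarith) (by norm_num)
    have h2 : (L : ℝ) ^ ((1 : ℝ) / 2) ≤ L / 4 := by
      rw [← Real.sqrt_eq_rpow]
      apply Real.sqrt_le_iff.2
      constructor
      · positivity
      · nlinarith
    exact h1.trans h2
  have hmain : (y : ℝ) ≤ (x : ℝ) ^ (1 - 1 / (4 * ((C : ℝ) + 1))) := by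
    rw [Real.rpow_sub hx0, Real.rpow_one, le_div_iff₀ (Real.rpow_pos_of_pos hx0 _)]
    calc (y : ℝ) * (x : ℝ) ^ (1 / (4 * ((C : ℝ) + 1))) ≤ y * (L / 4) :=
          mul_le_mul_of_nonneg_left (hpow.trans hroot) hy0.le
      _ = ((L * y : ℕ) : ℝ) / 4 := by push_cast; ring
      _ ≤ ((4 * x : ℕ) : ℝ) / 4 := by
          apply div_le_div_of_nonneg_right _ (by norm_num)
          exact_mod_cast h4x
      _ = x := by push_cast; ring
  have hfin : (y : ℝ) ≤ (((Finset.Ioc y (L * y)).filter Nat.Prime).card : ℝ) := by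
    refine hmain.trans (hblk.trans ?_)
    exact_mod_cast hcard
  exact_mod_cast hfin

end FDP
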