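import Pool.Agent.W_fd120a_h8.GDefs
import Pool.Agent.W_fd120a_h8.PrimeRange
import Pool.Agent.W_fd120a_h34.Blk2

set_option autoImplicit false

open Finset Filter Topology
open scoped Classical

namespace FDP

open FD120

/-- `(L + 1) ^ m ≤ 2 L ^ m` if `2 m ≤ L` -/
theorem parEx_pow_le (L m : ℕ) (hm : 2 * m ≤ L) (hL : 1 ≤ L) :
    ((L : ℝ) + 1) ^ m ≤ 2 * (L : ℝ) ^ m := by
  have hL0 : (0 : ℝ) < L := by exact_mod_cast hL
  have h1 : ((L : ℝ) + 1) = L * (1 + 1 / L) := by field_simp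
  have h2 : (1 + 1 / (L : ℝ)) ≤ Real.exp (1 / L) := by
    rw [add_comm]
    exact Real.add_one_le_exp _
  have h3 : (1 + 1 / (L : ℝ)) ^ m ≤ Real.exp (1 / 2) := by
    calc (1 + 1 / (L : ℝ)) ^ m ≤ Real.exp (1 / L) ^ m :=
          pow_le_pow_left₀ (by positivity) h2 m
      _ = Real.exp (m * (1 / L)) := (Real.exp_nat_mul _ _).symm
      _ ≤ Real.exp (1 / 2) := by
          apply Real.exp_le_exp.2
          rw [mul_one_div, div_le_div_iff₀ hL0 (by norm_num)]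
          have : ((2 * m : ℕ) : ℝ) ≤ L := by exact_mod_cast hm
          push_cast at this
          linarith
  have h4 : Real.exp (1 / 2) ≤ 2 := by
    have h5 : Real.exp (1 / 2) ^ 2 = Real.exp 1 := by
      rw [← Real.exp_nat_mul]
      norm_num
    have h6 := Real.exp_one_lt_d9
    have h7 : 0 < Real.exp (1 / 2) := Real.exp_pos _
    nlinarith
  rw [h1, mul_pow]
  have h5 : (0 : ℝ) < (L : ℝ) ^ m := by positivity
  nlinarith [h3.trans h4]

/-- The parameters exist for large `N`: `L = ⌊N ^ (1 / (100 b))⌋`, `P = ⌈N ^ 0.51⌉`.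
`L ^ (100b) ≤ N ≤ (L+1) ^ (100b) ≤ 2 L ^ (100b)`, `P ≥ N ^ 0.51 ≥ L ^ (51b)`,
`P ≤ N ^ 0.51 + 1 ≤ 2 ^ 0.51 L ^ (51b) + 1`, `P ^ 2 ≥ N ^ 1.02`; `FD120.prime_block2` with
`η = 1 / (100 b)` gives `pr` (for `x = P`, `P ^ (1 - η) ≥ L ^ (51b-1)`), and `primes_range` with
`y = L ^ (2b-1)` gives `pD`. -/
theorem exists_par (b : ℕ) (hb : 1000 ≤ b) (L0 : ℕ) : ∀ᶠ N : ℕ in atTop, ∃ L : ℕ, L0 ≤ L ∧
    Par b L (N : ℤ) (⌈(N : ℝ) ^ (0.51 : ℝ)⌉₊ : ℤ) := by
  have hb0 : (0 : ℝ) < b := by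
    have : 0 < b := by omega
    exact_mod_cast this
  have hη : (0 : ℝ) < 1 / (100 * (b : ℝ)) := by positivity
  obtain ⟨X0, hX0⟩ := eventually_atTop.1 (prime_block2 _ hη)
  obtain ⟨L1, hL1⟩ := primes_range (2 * b - 1)
  obtain ⟨M, hM⟩ : ∃ M, M = L0 + L1 + X0 + 10 ^ 6 + 200 * b := ⟨_, rfl⟩
  filter_upwards [eventually_ge_atTop (M ^ (100 * b))] with N hN
  obtain ⟨x, hx⟩ : ∃ x : ℝ, x = (N : ℝ) ^ (1 / (100 * (b : ℝ))) := ⟨_, rfl⟩
  have hN0 : (0 : ℝ) ≤ N := Nat.cast_nonneg N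
  have hx0 : 0 ≤ x := by rw [hx]; exact Real.rpow_nonneg hN0 _
  have hxN : x ^ (100 * b) = N := by
    rw [hx, ← Real.rpow_natCast, ← Real.rpow_mul hN0]
    push_cast
    rw [one_div_mul_cancel (by positivity), Real.rpow_one]
  have hxP : x ^ (51 * b) = (N : ℝ) ^ (0.51 : ℝ) := by
    rw [hx, ← Real.rpow_natCast, ← Real.rpow_mul hN0]
    congr 1
    push_cast
    field_simp
    norm_num
  have hMx : (M : ℝ) ≤ x := by
    by_contra h
    push Not at h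
    have h1 : x ^ (100 * b) < (M : ℝ) ^ (100 * b) := pow_lt_pow_left₀ h hx0 (by omega)
    rw [hxN] at h1
    have h2 : ((M ^ (100 * b) : ℕ) : ℝ) ≤ N := by exact_mod_cast hN
    push_cast at h2
    linarith
  obtain ⟨L, hL⟩ : ∃ L : ℕ, L = ⌊x⌋₊ := ⟨_, rfl⟩
  have hLx : (L : ℝ) ≤ x := by rw [hL]; exact Nat.floor_le hx0
  have hxL : x ≤ (L : ℝ) + 1 := by rw [hL]; exact (Nat.lt_floor_add_one x).le
  have hML : M ≤ L := by rw [hL]; exact Nat.le_floor hMx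
  have hL0' : (0 : ℝ) ≤ L := Nat.cast_nonneg L
  have hL1' : (1 : ℝ) ≤ L := by exact_mod_cast (show 1 ≤ L by omega)
  obtain ⟨P, hP⟩ : ∃ P : ℕ, P = ⌈(N : ℝ) ^ (0.51 : ℝ)⌉₊ := ⟨_, rfl⟩
  have hP1 : x ^ (51 * b) ≤ P := by rw [hP, hxP]; exact Nat.le_ceil _
  have hP2 : (P : ℝ) ≤ x ^ (51 * b) + 1 := by
    rw [hP, hxP]
    exact (Nat.ceil_lt_add_one (Real.rpow_nonneg hN0 _)).le
  have hLP : (L : ℝ) ^ (51 * b) ≤ P := (pow_le_pow_left₀ hL0' hLx _).trans hP1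
  rw [← hP]
  refine ⟨L, by omega, ⟨hb, by omega, by omega, ?_, ?_, ?_, ?_, ?_, ?_, ?_⟩⟩
  · have h1 : (L : ℝ) ^ (100 * b) ≤ N := hxN ▸ pow_le_pow_left₀ hL0' hLx _
    exact_mod_cast h1
  · have h1 : (N : ℝ) ≤ 2 * (L : ℝ) ^ (100 * b) := by
      rw [← hxN]
      exact (pow_le_pow_left₀ hx0 hxL _).trans (parEx_pow_le L (100 * b) (by omega) (by omega))
    exact_mod_cast h1
  · exact_mod_cast hLP
  · have h1 : (P : ℝ) ≤ 4 * (L : ℝ) ^ (51 * b) := by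
      have h2 : x ^ (51 * b) ≤ 2 * (L : ℝ) ^ (51 * b) :=
        (pow_le_pow_left₀ hx0 hxL _).trans (parEx_pow_le L (51 * b) (by omega) (by omega))
      have h3 : (1 : ℝ) ≤ (L : ℝ) ^ (51 * b) := one_le_pow₀ hL1'
      linarith
    exact_mod_cast h1
  · have h1 : (N : ℝ) ≤ (P : ℝ) ^ 2 := by
      rw [← hxN]
      have h2 : x ^ (100 * b) ≤ x ^ (51 * b * 2) :=
        pow_le_pow_right₀ (hL1'.trans hLx) (by omega)
      rw [pow_mul x (51 * b) 2] at h2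
      exact h2.trans (pow_le_pow_left₀ (by positivity) hP1 2)
    exact_mod_cast h1
  · have hLL : L ≤ L ^ (51 * b) := Nat.le_self_pow (by omega) L
    have hLPn : L ^ (51 * b) ≤ P := by exact_mod_cast hLP
    have h1 := hX0 P (by omega)
    have h2 : ((L ^ (51 * b - 1) : ℕ) : ℝ) ≤ ((PP (P : ℤ)).card : ℝ) := by
      refine le_trans ?_ h1
      have h3 : ((L : ℝ) ^ (51 * b)) ^ (1 - 1 / (100 * (b : ℝ))) ≤
          (P : ℝ) ^ (1 - 1 / (100 * (b : ℝ))) := by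
        refine Real.rpow_le_rpow (by positivity) hLP ?_
        rw [sub_nonneg, div_le_one (by positivity)]
        have : (1000 : ℝ) ≤ b := by exact_mod_cast hb
        linarith
      refine le_trans ?_ h3
      rw [← Real.rpow_natCast (L : ℝ) (51 * b), ← Real.rpow_mul hL0']
      push_cast
      rw [← Real.rpow_natCast (L : ℝ) (51 * b - 1)]
      refine Real.rpow_le_rpow_of_exponent_le hL1' ?_
      rw [Nat.cast_sub (by omega)]
      push_cast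
      rw [mul_sub, mul_one]
      have h4 : 51 * (b : ℝ) * (1 / (100 * (b : ℝ))) = 51 / 100 := by
        field_simp
      rw [h4]
      linarith
    exact_mod_cast h2
  · have h1 := hL1 L (by omega) (L ^ (2 * b - 1)) (Nat.one_le_pow _ _ (by omega)) le_rfl
    have h2 : L * L ^ (2 * b - 1) = L ^ (2 * b) := by
      rw [← pow_succ']
      congr 1
      omega
    rw [h2] at h1
    exact h1

end FDP
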