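import Pool.Agent.W_fd120a_h8.Glob
import Pool.Agent.W_fd120a_h8.ParEx
import Pool.Agent.W_fd120a_h34.Main

set_option autoImplicit false

open Finset Filter Topology
open scoped Classical

namespace FDP

open FD120

/-- the sieved set of `[N ^ 0.51, hi)` and the one of the block -/
theorem final_sieved (N : ℕ) (hN : 2 ≤ N) (a : ℕ → ℤ) (hi : ℝ)
    (hhi : 2 * (N : ℝ) ^ (0.51 : ℝ) ≤ hi) :
    ((SS (N : ℤ) (⌈(N : ℝ) ^ (0.51 : ℝ)⌉₊ : ℤ) (fun z => a z.toNat)).card : ℝ) ≤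
      (N7c497599.sievedCard N a ((N : ℝ) ^ (0.51 : ℝ)) hi : ℝ) + ((N : ℝ) ^ (0.49 : ℝ) + 1) := by
  have hN1 : (1 : ℝ) < N := by exact_mod_cast hN
  have hN0 : (0 : ℝ) < N := by linarith
  have h51 : (1 : ℝ) < (N : ℝ) ^ (0.51 : ℝ) := Real.one_lt_rpow hN1 (by norm_num)
  have h51' : (N : ℝ) ^ (0.51 : ℝ) ≤ N := by
    have h := Real.rpow_le_rpow_of_exponent_le hN1.le (show (0.51 : ℝ) ≤ 1 by norm_num)
    rwa [Real.rpow_one] at h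
  have hQ1 : (N : ℝ) ^ (0.51 : ℝ) ≤ (⌈(N : ℝ) ^ (0.51 : ℝ)⌉₊ : ℝ) := Nat.le_ceil _
  have hQ2 : ((⌈(N : ℝ) ^ (0.51 : ℝ)⌉₊ : ℕ) : ℝ) < (N : ℝ) ^ (0.51 : ℝ) + 1 :=
    Nat.ceil_lt_add_one (by linarith)
  have hQ3 : 2 ≤ ⌈(N : ℝ) ^ (0.51 : ℝ)⌉₊ := by
    have h : 1 < ⌈(N : ℝ) ^ (0.51 : ℝ)⌉₊ := by
      rw [Nat.lt_ceil]
      simpa using h51
    exact h
  have hQN : ⌈(N : ℝ) ^ (0.51 : ℝ)⌉₊ ≤ N := Nat.ceil_le.2 h51'
  have h1 := SS_card_le N ⌈(N : ℝ) ^ (0.51 : ℝ)⌉₊ a ((N : ℝ) ^ (0.51 : ℝ)) hi hQ3 hQ1 hQ2 hhi hQN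
  have h2 : ((SS (N : ℤ) (⌈(N : ℝ) ^ (0.51 : ℝ)⌉₊ : ℤ) (fun z => a z.toNat)).card : ℝ) ≤
      (N7c497599.sievedCard N a ((N : ℝ) ^ (0.51 : ℝ)) hi : ℝ) +
        (((N / ⌈(N : ℝ) ^ (0.51 : ℝ)⌉₊ : ℕ) : ℝ) + 1) := by
    exact_mod_cast h1
  have h3 : ((N / ⌈(N : ℝ) ^ (0.51 : ℝ)⌉₊ : ℕ) : ℝ) ≤ (N : ℝ) ^ (0.49 : ℝ) := by
    refine (Nat.cast_div_le).trans ?_
    rw [div_le_iff₀ (by linarith)]
    have h4 : (N : ℝ) ^ (0.49 : ℝ) * (N : ℝ) ^ (0.51 : ℝ) = N := by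
      rw [← Real.rpow_add hN0]
      norm_num
    calc (N : ℝ) = (N : ℝ) ^ (0.49 : ℝ) * (N : ℝ) ^ (0.51 : ℝ) := h4.symm
      _ ≤ (N : ℝ) ^ (0.49 : ℝ) * (⌈(N : ℝ) ^ (0.51 : ℝ)⌉₊ : ℝ) :=
        mul_le_mul_of_nonneg_left hQ1 (Real.rpow_nonneg hN0.le _)
  linarith

/-- from `L` to `N` -/
theorem final_pow (b q0 L N : ℕ) (hb : 0 < b) (hN : 2 ≤ N) (hL : 1 ≤ L)
    (h2 : (N : ℝ) ≤ 2 * (L : ℝ) ^ (100 * b)) (α : ℝ) (hα1 : α ≤ 1)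
    (hα : α * (100 * b) ≤ 98 * b + q0) :
    (N : ℝ) ^ α / 2 ≤ (L : ℝ) ^ (98 * b + q0) := by
  have hN2 : (2 : ℝ) ≤ N := by exact_mod_cast hN
  have hN0 : (0 : ℝ) < N := by linarith
  have hL1 : (1 : ℝ) ≤ L := by exact_mod_cast hL
  have hL0 : (0 : ℝ) ≤ L := by linarith
  have hb0 : (0 : ℝ) < 100 * (b : ℝ) := by
    have : (0 : ℝ) < b := by exact_mod_cast hb
    linarith
  have h3 : (L : ℝ) ^ (98 * b + q0) = ((L : ℝ) ^ (100 * b)) ^ ((98 * b + q0) / (100 * b) : ℝ) := by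
    rw [← Real.rpow_natCast, ← Real.rpow_natCast, ← Real.rpow_mul hL0]
    congr 1
    push_cast
    field_simp
  rw [h3]
  have hN21 : (1 : ℝ) ≤ N / 2 := by linarith
  have h4 : (N : ℝ) / 2 ≤ (L : ℝ) ^ (100 * b) := by linarith
  have h5 : α ≤ (98 * b + q0) / (100 * b) := by
    rw [le_div_iff₀ hb0]
    exact hα
  have hpos : (0 : ℝ) ≤ (98 * b + q0) / (100 * b) := by positivity
  calc (N : ℝ) ^ α / 2 ≤ (N : ℝ) ^ α / 2 ^ α := by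
        apply div_le_div_of_nonneg_left (Real.rpow_nonneg hN0.le _) (by positivity)
        calc (2 : ℝ) ^ α ≤ 2 ^ (1 : ℝ) :=
              Real.rpow_le_rpow_of_exponent_le (by norm_num) hα1
          _ = 2 := Real.rpow_one 2
    _ = ((N : ℝ) / 2) ^ α := (Real.div_rpow hN0.le (by norm_num) α).symm
    _ ≤ ((N : ℝ) / 2) ^ ((98 * b + q0) / (100 * b) : ℝ) :=
        Real.rpow_le_rpow_of_exponent_le hN21 h5
    _ ≤ ((L : ℝ) ^ (100 * b)) ^ ((98 * b + q0) / (100 * b) : ℝ) :=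
        Real.rpow_le_rpow (by linarith) h4 hpos

/-- `asym` for `0 < θ` and small `ε` -/
theorem final_asym (θ K : ℝ) (hθ0 : 0 < θ) (hθ1 : θ ≤ 1) (C0 : ℕ) (hC0 : C0 ≤ 200)
    (hloc : ∀ b0 : ℕ, ∃ b q1 : ℕ, b0 ≤ b ∧ θ * b - K ≤ (q1 : ℝ) ∧ LocalThm b q1 C0)
    (ε : ℝ) (hε : 0 < ε) (hε1 : ε ≤ 0.1) :
    ∀ᶠ N : ℕ in atTop, ∀ (a : ℕ → ℤ) (hi : ℝ), 2 * (N : ℝ) ^ (0.51 : ℝ) ≤ hi →
      (N : ℝ) ^ (0.98 + θ / 100 - ε) ≤
        (N7c497599.sievedCard N a ((N : ℝ) ^ (0.51 : ℝ)) hi : ℝ) := by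
  obtain ⟨b0, hb0⟩ := exists_nat_ge ((|K| + 15) / θ + (|K| + 15) / (25 * ε) + 1000)
  obtain ⟨b, q1, hb, hq1, hL⟩ := hloc b0
  have hbR : (b0 : ℝ) ≤ b := by exact_mod_cast hb
  have hK0 : 0 ≤ |K| := abs_nonneg K
  have hK1 : K ≤ |K| := le_abs_self K
  have hA0 : 0 ≤ (|K| + 15) / θ := by positivity
  have hB0 : 0 ≤ (|K| + 15) / (25 * ε) := by positivity
  have hb1 : 1000 ≤ b := by
    have h : (1000 : ℝ) ≤ b := by linarith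
    exact_mod_cast h
  have hθb : |K| + 15 ≤ θ * b := by
    have h : (|K| + 15) / θ ≤ b := by linarith
    rw [div_le_iff₀ hθ0] at h
    linarith
  have hεb : |K| + 15 ≤ 25 * ε * b := by
    have h : (|K| + 15) / (25 * ε) ≤ b := by linarith
    rw [div_le_iff₀ (by positivity)] at h
    linarith
  have hq15 : 15 ≤ q1 := by
    have h : (15 : ℝ) ≤ q1 := by linarith
    exact_mod_cast h
  obtain ⟨q0, hq0⟩ : ∃ q0, q0 = min (q1 - 15) (b - 10) := ⟨_, rfl⟩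
  have hq0a : q0 + 15 ≤ q1 := by omega
  have hq0b : q0 + 10 ≤ b := by omega
  have hq0R : θ * b - (|K| + 15) ≤ (q0 : ℝ) := by
    rcases le_total (q1 - 15) (b - 10) with h | h
    · have h1 : q0 + 15 = q1 := by omega
      have h2 : (q0 : ℝ) + 15 = q1 := by exact_mod_cast h1
      linarith
    · have h1 : q0 + 10 = b := by omega
      have h2 : (q0 : ℝ) + 10 = b := by exact_mod_cast h1
      have h3 : θ * b ≤ 1 * b := mul_le_mul_of_nonneg_right hθ1 (Nat.cast_nonneg b)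
      linarith
  obtain ⟨L0, hL0⟩ := glob b q0 q1 C0 hL hq0a hq0b hC0
  have hcast : Tendsto (fun N : ℕ => (N : ℝ)) atTop atTop := tendsto_natCast_atTop_atTop
  have E1 : ∀ᶠ N : ℕ in atTop, (8 : ℝ) ≤ (N : ℝ) ^ (3 * ε / 4) :=
    ((tendsto_rpow_atTop (by positivity)).comp hcast).eventually_ge_atTop 8
  have E2 : ∀ᶠ N : ℕ in atTop, (16 : ℝ) ≤ (N : ℝ) ^ (0.4 : ℝ) :=
    ((tendsto_rpow_atTop (by norm_num)).comp hcast).eventually_ge_atTop 16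
  filter_upwards [exists_par b hb1 (L0 + 1), E1, E2, eventually_ge_atTop 2] with N e1 e2 e3 hN2
  intro a hi hhi
  obtain ⟨L, hLL, hP⟩ := e1
  have hN1 : (1 : ℝ) ≤ N := by
    have h : 1 ≤ N := by omega
    exact_mod_cast h
  have hN0 : (0 : ℝ) < N := by linarith
  have h1 := hL0 L (by omega) N _ (fun z => a z.toNat) hP
  have h1R : (L : ℝ) ^ (98 * b + q0) ≤
      ((SS (N : ℤ) (⌈(N : ℝ) ^ (0.51 : ℝ)⌉₊ : ℤ) (fun z => a z.toNat)).card : ℝ) := by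
    exact_mod_cast h1
  have h2 := final_sieved N hN2 a hi hhi
  have hN2R : (N : ℝ) ≤ 2 * (L : ℝ) ^ (100 * b) := by exact_mod_cast hP.N2
  have hα1 : 0.98 + θ / 100 - ε / 4 ≤ 1 := by linarith
  have h3 := final_pow b q0 L N (by omega) hN2 (by omega) hN2R (0.98 + θ / 100 - ε / 4) hα1 (by
    linarith)
  set M : ℝ := (N : ℝ) ^ (0.98 + θ / 100 - ε / 4) with hM
  have hM0 : 0 < M := Real.rpow_pos_of_pos hN0 _
  have h4 : (N : ℝ) ^ (0.98 + θ / 100 - ε) * 8 ≤ M := by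
    have h5 : M = (N : ℝ) ^ (0.98 + θ / 100 - ε) * (N : ℝ) ^ (3 * ε / 4) := by
      rw [hM, ← Real.rpow_add hN0]
      congr 1
      ring
    rw [h5]
    exact mul_le_mul_of_nonneg_left e2 (Real.rpow_nonneg hN0.le _)
  have h5 : (N : ℝ) ^ (0.49 : ℝ) * 16 ≤ M := by
    calc (N : ℝ) ^ (0.49 : ℝ) * 16 ≤ (N : ℝ) ^ (0.49 : ℝ) * (N : ℝ) ^ (0.4 : ℝ) :=
          mul_le_mul_of_nonneg_left e3 (Real.rpow_nonneg hN0.le _)
      _ = (N : ℝ) ^ (0.89 : ℝ) := by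
          rw [← Real.rpow_add hN0]
          norm_num
      _ ≤ M := by
          rw [hM]
          apply Real.rpow_le_rpow_of_exponent_le hN1
          linarith
  have h6 : (1 : ℝ) ≤ (N : ℝ) ^ (0.49 : ℝ) := Real.one_le_rpow hN1 (by norm_num)
  linarith

/-- The asymptotic form.  If `LocalThm b q1 C0` holds for arbitrarily large `b` with
`q1 ≥ θ b - K`, then `|S_N(a)| ≥ N ^ (0.98 + θ / 100 - ε)`.
Proof.  Choose `b` large (`b ≥ 1000`; `glob` and `exists_par` apply) in terms of `ε`, `θ`, `K`, and `q0 = min (q1 - 15) (b - 10)`;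
`L ≥ (N / 2) ^ (1 / (100 b))`, so `|SS| ≥ L ^ (98b+q0) ≥ (N/2) ^ (0.98 + q0 / (100 b))`, which is at
least `N ^ (0.98 + θ/100 - ε/2)`, up to the factor 2; by `FD120.SS_card_le` (with `a z.toNat`) the
sieved set of `[N ^ 0.51, hi)` has at least `|SS| - (N / Q + 1)` elements, and
`N / Q + 1 ≤ 2 N ^ 0.49`. -/
theorem asym (θ K : ℝ) (hθ0 : 0 ≤ θ) (hθ1 : θ ≤ 1) (C0 : ℕ) (hC0 : C0 ≤ 200)
    (hloc : ∀ b0 : ℕ, ∃ b q1 : ℕ, b0 ≤ b ∧ θ * b - K ≤ (q1 : ℝ) ∧ LocalThm b q1 C0)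
    (ε : ℝ) (hε : 0 < ε) :
    ∀ᶠ N : ℕ in atTop, ∀ (a : ℕ → ℤ) (hi : ℝ), 2 * (N : ℝ) ^ (0.51 : ℝ) ≤ hi →
      (N : ℝ) ^ (0.98 + θ / 100 - ε) ≤
        (N7c497599.sievedCard N a ((N : ℝ) ^ (0.51 : ℝ)) hi : ℝ) := by
  rcases hθ0.eq_or_lt with h0 | h0
  · filter_upwards [FD120.main, eventually_ge_atTop 1] with N hN hN1 a hi hhi
    refine le_trans ?_ (hN a hi hhi)
    apply Real.rpow_le_rpow_of_exponent_le (by exact_mod_cast hN1)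
    rw [← h0]
    linarith
  · filter_upwards [final_asym θ K h0 hθ1 C0 hC0 hloc (min ε 0.1) (lt_min hε (by norm_num))
      (min_le_right _ _), eventually_ge_atTop 1] with N hN hN1 a hi hhi
    refine le_trans ?_ (hN a hi hhi)
    apply Real.rpow_le_rpow_of_exponent_le (by exact_mod_cast hN1)
    have := min_le_left ε 0.1
    linarith

end FDP
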