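import Pool.Agent.W_fd120a_h8.Defs
import Pool.Agent.W_fd120a_h34.LemA

set_option autoImplicit false

/-!
Definitions for the global part.  `FD120.PP P` are the primes of `[P, 2P)`, `FD120.rr P res n` is the
number of `p ∈ PP P` with `p ∣ n - res p`, `FD120.SS N P res` is the sieved set.
-/

open Finset
open scoped Classical

namespace FDP

open FD120

/-- the parameters: `N ~ L ^ (100 b)`, `P ~ L ^ (51 b)` -/
structure Par (b L : ℕ) (N P : ℤ) : Prop where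
  hb : 1000 ≤ b
  hL : 10 ^ 6 ≤ L
  hbL : 60 * b ≤ L
  N1 : (L : ℤ) ^ (100 * b) ≤ N
  N2 : N ≤ 2 * (L : ℤ) ^ (100 * b)
  P1 : (L : ℤ) ^ (51 * b) ≤ P
  P2 : P ≤ 4 * (L : ℤ) ^ (51 * b)
  NP : N ≤ P ^ 2
  pr : L ^ (51 * b - 1) ≤ (PP P).card
  pD : L ^ (2 * b - 1) ≤
    ((Finset.Ioc (L ^ (2 * b - 1)) (L ^ (2 * b))).filter Nat.Prime).card

/-- the points of multiplicity in `[L ^ i, L ^ (i + 1))` -/
noncomputable def SL (N P : ℤ) (res : ℤ → ℤ) (L i : ℕ) : Finset ℤ :=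
  (Finset.Icc 1 N).filter (fun n => L ^ i ≤ rr P res n ∧ rr P res n < L ^ (i + 1))

/-- `n` is a common point, of level `i`, of the classes of `e.1` and `e.2` -/
def MeetL (N P : ℤ) (res : ℤ → ℤ) (L i : ℕ) (e : ℤ × ℤ) (n : ℤ) : Prop :=
  n ∈ SL N P res L i ∧ e.1 ∣ n - res e.1 ∧ e.2 ∣ n - res e.2

/-- the pairs of distinct primes whose classes meet in a point of level `i` -/
noncomputable def EL (N P : ℤ) (res : ℤ → ℤ) (L i : ℕ) : Finset (ℤ × ℤ) :=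
  (PP P ×ˢ PP P).filter (fun e => e.1 ≠ e.2 ∧ ∃ n, MeetL N P res L i e n)

/-- the meeting point -/
noncomputable def ptL (N P : ℤ) (res : ℤ → ℤ) (L i : ℕ) (e : ℤ × ℤ) : ℤ :=
  if h : ∃ n, MeetL N P res L i e n then h.choose else 0

/-- the level `i` and the defect `q` -/
structure Lev (b L : ℕ) (N P : ℤ) (res : ℤ → ℤ) (q0 i q : ℕ) : Prop where
  hq : q ≤ q0 + 3
  hqb : q + 7 ≤ b
  iq1 : 2 * b ≤ i + q
  iq2 : i + q ≤ 2 * b + 6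
  sum : L ^ (100 * b - 3) ≤ ∑ n ∈ SL N P res L i, rr P res n

/-- `Q = v.1 U + v.2 V`, `Q' = w.1 U + w.2 V`, with determinant `D` -/
structure Chart (b L : ℕ) (P Q Q' : ℤ) (D : ℕ) (U V : ℤ) (v w : ℤ × ℤ) : Prop where
  U1 : 1 ≤ U
  V0 : 0 ≤ V
  VU : V < U
  eQ : Q = v.1 * U + v.2 * V
  eQ' : Q' = w.1 * U + w.2 * V
  det : v.1 * w.2 - w.1 * v.2 = D
  bv1 : |v.1| ≤ (L : ℤ) ^ (b + 3)
  bv2 : |v.2| ≤ (L : ℤ) ^ (b + 3)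
  bw1 : |w.1| ≤ (L : ℤ) ^ (b + 3)
  bw2 : |w.2| ≤ (L : ℤ) ^ (b + 3)
  Ulow : P ≤ U * (L : ℤ) ^ (b + 2)
  Uup : U ≤ (L : ℤ) ^ (50 * b + 2)

/-- the existence of a chart; `c = (U, V, v, w)` -/
def HasChart (b L : ℕ) (P : ℤ) (τ : (ℤ × ℤ) × ℕ) (c : ℤ × ℤ × (ℤ × ℤ) × (ℤ × ℤ)) : Prop :=
  Chart b L P τ.1.1 τ.1.2 τ.2 c.1 c.2.1 c.2.2.1 c.2.2.2

/-- a chosen chart of the triple `τ = ((Q, Q'), D)` -/
noncomputable def ch (b L : ℕ) (P : ℤ) (τ : (ℤ × ℤ) × ℕ) : ℤ × ℤ × (ℤ × ℤ) × (ℤ × ℤ) :=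
  if h : ∃ c, HasChart b L P τ c then h.choose else 0

/-- the primes `D ∈ (L ^ (2b-1), L ^ (2b)]` for which `(Q, Q')` has a chart of determinant `D` -/
noncomputable def GD (b L : ℕ) (P Q Q' : ℤ) : Finset ℕ :=
  ((Finset.Ioc (L ^ (2 * b - 1)) (L ^ (2 * b))).filter Nat.Prime).filter
    (fun D => ∃ c, HasChart b L P ((Q, Q'), D) c)

/-- the triples `((Q, Q'), D)` -/
noncomputable def TR (b L : ℕ) (N P : ℤ) (res : ℤ → ℤ) (i : ℕ) : Finset ((ℤ × ℤ) × ℕ) :=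
  (EL N P res L i ×ˢ Finset.Ioc (L ^ (2 * b - 1)) (L ^ (2 * b))).filter
    (fun τ => τ.2 ∈ GD b L P τ.1.1 τ.1.2)

/-- the primes `R` of the chart of `τ` whose class contains the meeting point of `τ.1` -/
noncomputable def PT (b L : ℕ) (N P : ℤ) (res : ℤ → ℤ) (i : ℕ) (τ : (ℤ × ℤ) × ℕ) : Finset ℤ :=
  (PP P).filter (fun R => R ∣ ptL N P res L i τ.1 - res R ∧
    ∃ x y : ℤ, |x| ≤ (L : ℤ) ^ (b + 10) ∧ |y| ≤ (L : ℤ) ^ (b + 10) ∧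
      R = x * (ch b L P τ).1 + y * (ch b L P τ).2.1)

/-- the lines of the chart `(U, V)` -/
noncomputable def VV (b L : ℕ) (P : ℤ) (res : ℤ → ℤ) (U V : ℤ) : Finset Ln :=
  (Finset.Icc (-(L : ℤ) ^ (b + 3)) ((L : ℤ) ^ (b + 3)) ×ˢ
    (Finset.Icc (-(L : ℤ) ^ (b + 3)) ((L : ℤ) ^ (b + 3)) ×ˢ
      Finset.Icc (-(L : ℤ) ^ (51 * b + 7)) ((L : ℤ) ^ (51 * b + 7)))).filter
    (fun v => v.1 * U + v.2.1 * V ∈ PP P ∧
      (v.1 * U + v.2.1 * V) ∣ U * v.2.2 - v.2.1 * res (v.1 * U + v.2.1 * V))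

end FDP
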