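import Pool.Agent.W_fd120a_h8.Level
import Pool.Agent.W_fd120a_h8.ChartEx

set_option autoImplicit false

open Finset
open scoped Classical

namespace FDP

open FD120

theorem UniqD_TR (b L : ℕ) (N P : ℤ) (res : ℤ → ℤ) (i : ℕ) (e : ℤ × ℤ) (D : ℕ)
    (h : (e, D) ∈ TR b L N P res i) :
    e.1 ∈ PP P ∧ e.2 ∈ PP P ∧ D.Prime ∧ L ^ (2 * b - 1) < D ∧ D ≤ L ^ (2 * b) := by
  unfold TR at h
  rw [mem_filter, mem_product] at h
  obtain ⟨⟨h1, h2⟩, h3⟩ := h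
  unfold EL at h1
  rw [mem_filter, mem_product] at h1
  unfold GD at h3
  rw [mem_filter, mem_filter, Finset.mem_Ioc] at h3
  exact ⟨h1.1.1, h1.1.2, h3.1.2, h3.1.1.1, h3.1.1.2⟩

theorem UniqD_abs {x y a c X Y : ℤ} (hx : |x| ≤ X) (hy : |y| ≤ X) (ha : |a| ≤ Y) (hc : |c| ≤ Y) :
    |x * a + y * c| ≤ 2 * (X * Y) ∧ |x * a - y * c| ≤ 2 * (X * Y) := by
  have h1 : |x * a| ≤ X * Y := by
    rw [abs_mul]
    exact mul_le_mul hx ha (abs_nonneg _) ((abs_nonneg _).trans hx)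
  have h2 : |y * c| ≤ X * Y := by
    rw [abs_mul]
    exact mul_le_mul hy hc (abs_nonneg _) ((abs_nonneg _).trans hy)
  have h3 := abs_add_le (x * a) (y * c)
  have h4 := abs_sub (x * a) (y * c)
  constructor <;> linarith

/-- The algebraic part. -/
theorem UniqD_alg (b L : ℕ) (P : ℤ) (hL : 10 ^ 6 ≤ L) (hb : 1000 ≤ b)
    (hP1 : (L : ℤ) ^ (51 * b) ≤ P) (Q Q' : ℤ) (hQ : Prime Q) (hQP : P ≤ Q)
    (D1 D2 : ℕ) (hp1 : D1.Prime) (hp2 : D2.Prime) (hD1 : L ^ (2 * b - 1) < D1)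
    (hD1' : D1 ≤ L ^ (2 * b)) (hne : D1 ≠ D2)
    (U1 V1 U2 V2 : ℤ) (v1 w1 v2 w2 : ℤ × ℤ) (c1 : Chart b L P Q Q' D1 U1 V1 v1 w1)
    (c2 : Chart b L P Q Q' D2 U2 V2 v2 w2) (R x1 y1 x2 y2 : ℤ)
    (hx1 : |x1| ≤ (L : ℤ) ^ (b + 10)) (hy1 : |y1| ≤ (L : ℤ) ^ (b + 10))
    (_hx2 : |x2| ≤ (L : ℤ) ^ (b + 10)) (hy2 : |y2| ≤ (L : ℤ) ^ (b + 10))
    (hR1 : R = x1 * U1 + y1 * V1) (hR2 : R = x2 * U2 + y2 * V2) :
    ∃ α β : ℤ, |α| ≤ (L : ℤ) ^ 15 ∧ |β| ≤ (L : ℤ) ^ 15 ∧ R = α * Q + β * Q' := by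
  have hLz : (10 : ℤ) ^ 6 ≤ L := by exact_mod_cast hL
  have hL0 : (0 : ℤ) < L := by linarith
  have hL1 : (1 : ℤ) ≤ L := by linarith
  obtain ⟨A, hA⟩ : ∃ A, A = x1 * w1.2 - y1 * w1.1 := ⟨_, rfl⟩
  obtain ⟨B, hB⟩ : ∃ B, B = y1 * v1.1 - x1 * v1.2 := ⟨_, rfl⟩
  have hAb : |A| ≤ 2 * (L : ℤ) ^ (2 * b + 13) := by
    have h1 := (UniqD_abs hx1 hy1 c1.bw2 c1.bw1).2
    rw [← hA, ← pow_add] at h1
    have e1 : b + 10 + (b + 3) = 2 * b + 13 := by ring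
    rwa [e1] at h1
  have hBb : |B| ≤ 2 * (L : ℤ) ^ (2 * b + 13) := by
    have h1 := (UniqD_abs hy1 hx1 c1.bv1 c1.bv2).2
    rw [← hB, ← pow_add] at h1
    have e1 : b + 10 + (b + 3) = 2 * b + 13 := by ring
    rwa [e1] at h1
  have hDR : (D1 : ℤ) * R = A * Q + B * Q' := by
    have h1 := c1.eQ
    have h2 := c1.eQ'
    have h3 := c1.det
    rw [hR1, h1, h2, ← h3, hA, hB]
    ring
  -- the relation
  have hrel : (A * v2.1 + B * w2.1 - D1 * x2) * U2 + (A * v2.2 + B * w2.2 - D1 * y2) * V2 = 0 := by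
    have h1 := c2.eQ
    have h2 := c2.eQ'
    have h3 : (D1 : ℤ) * R = D1 * (x2 * U2 + y2 * V2) := by rw [← hR2]
    rw [hDR, h1, h2] at h3
    linear_combination h3
  have hDL : (D1 : ℤ) ≤ (L : ℤ) ^ (2 * b) := by exact_mod_cast hD1'
  have ha' : |A * v2.2 + B * w2.2 - D1 * y2| < (L : ℤ) ^ (3 * b + 17) := by
    have h1 := (UniqD_abs hAb hBb c2.bv2 c2.bw2).1
    have h2 : |(D1 : ℤ) * y2| ≤ (L : ℤ) ^ (2 * b) * (L : ℤ) ^ (b + 10) := by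
      rw [abs_mul, Nat.abs_cast]
      exact mul_le_mul hDL hy2 (abs_nonneg _) (by positivity)
    have h3 := abs_sub (A * v2.2 + B * w2.2) (D1 * y2)
    have e1 : 2 * (2 * (L : ℤ) ^ (2 * b + 13) * (L : ℤ) ^ (b + 3)) = 4 * (L : ℤ) ^ (3 * b + 16) := by
      have : (L : ℤ) ^ (3 * b + 16) = (L : ℤ) ^ (2 * b + 13) * (L : ℤ) ^ (b + 3) := by
        rw [← pow_add]
        congr 1
        ring
      rw [this]
      ring
    have e2 : (L : ℤ) ^ (2 * b) * (L : ℤ) ^ (b + 10) ≤ (L : ℤ) ^ (3 * b + 16) := by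
      rw [← pow_add]
      exact pow_le_pow_right₀ hL1 (by omega)
    have e3 : (L : ℤ) ^ (3 * b + 17) = (L : ℤ) * (L : ℤ) ^ (3 * b + 16) := by
      rw [← pow_succ']
    have e4 : (0 : ℤ) < (L : ℤ) ^ (3 * b + 16) := by positivity
    have e5 : 5 * (L : ℤ) ^ (3 * b + 16) < (L : ℤ) * (L : ℤ) ^ (3 * b + 16) :=
      mul_lt_mul_of_pos_right (by linarith) e4
    rw [e1] at h1
    linarith
  have hUlow : (L : ℤ) ^ (50 * b - 2) ≤ U2 := by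
    have h1 := hP1.trans c2.Ulow
    have e1 : (L : ℤ) ^ (51 * b) = (L : ℤ) ^ (50 * b - 2) * (L : ℤ) ^ (b + 2) := by
      rw [← pow_add]
      congr 1
      omega
    rw [e1] at h1
    exact le_of_mul_le_mul_right h1 (by positivity)
  have hUlow' : (L : ℤ) ^ (3 * b + 17) ≤ U2 :=
    (pow_le_pow_right₀ hL1 (by omega)).trans hUlow
  have hU0 : 0 < U2 := by linarith [c2.U1]
  have hUP : U2 < Q := by
    have h1 : U2 ≤ (L : ℤ) ^ (50 * b + 2) := c2.Uup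
    have h2 : (L : ℤ) ^ (50 * b + 2) < (L : ℤ) ^ (51 * b) :=
      pow_lt_pow_right₀ (by linarith) (by omega)
    linarith
  have hcop : IsCoprime U2 V2 := by
    rw [Int.isCoprime_iff_gcd_eq_one]
    have h1 : ((Int.gcd U2 V2 : ℕ) : ℤ) ∣ Q := by
      rw [c2.eQ]
      exact dvd_add (dvd_mul_of_dvd_right (Int.gcd_dvd_left _ _) _)
        (dvd_mul_of_dvd_right (Int.gcd_dvd_right _ _) _)
    have h2 : ((Int.gcd U2 V2 : ℕ) : ℤ) ≤ U2 := Int.le_of_dvd hU0 (Int.gcd_dvd_left _ _)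
    have h3 : Int.gcd U2 V2 ∣ Q.natAbs := by
      rwa [← Int.natCast_dvd]
    rcases (Nat.dvd_prime (Int.prime_iff_natAbs_prime.1 hQ)).1 h3 with h4 | h4
    · exact h4
    · exfalso
      rw [h4] at h2
      have h5 : Q ≤ (Q.natAbs : ℤ) := Int.le_natAbs
      linarith
  have hz' : A * v2.2 + B * w2.2 - D1 * y2 = 0 := by
    have h1 : U2 ∣ (A * v2.2 + B * w2.2 - D1 * y2) * V2 := by
      refine ⟨-(A * v2.1 + B * w2.1 - D1 * x2), ?_⟩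
      linear_combination hrel
    have h2 : U2 ∣ (A * v2.2 + B * w2.2 - D1 * y2) := hcop.dvd_of_dvd_mul_right h1
    exact Int.eq_zero_of_abs_lt_dvd h2 (ha'.trans_le hUlow')
  have hz : A * v2.1 + B * w2.1 - D1 * x2 = 0 := by
    rw [hz', zero_mul, add_zero] at hrel
    rcases mul_eq_zero.1 hrel with h | h
    · exact h
    · exact absurd h hU0.ne'
  have hdet2 := c2.det
  have hD1p : Prime (D1 : ℤ) := Nat.prime_iff_prime_int.1 hp1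
  have hnd : ¬ (D1 : ℤ) ∣ (D2 : ℤ) := by
    intro h
    rw [Int.natCast_dvd_natCast] at h
    exact hne ((Nat.prime_dvd_prime_iff_eq hp1 hp2).1 h)
  have hdA : (D1 : ℤ) ∣ A := by
    have h1 : (D1 : ℤ) ∣ A * D2 := by
      refine ⟨x2 * w2.2 - y2 * w2.1, ?_⟩
      rw [← hdet2]
      linear_combination w2.2 * hz - w2.1 * hz'
    exact (hD1p.dvd_or_dvd h1).resolve_right hnd
  have hdB : (D1 : ℤ) ∣ B := by
    have h1 : (D1 : ℤ) ∣ B * D2 := by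
      refine ⟨y2 * v2.1 - x2 * v2.2, ?_⟩
      rw [← hdet2]
      linear_combination v2.1 * hz' - v2.2 * hz
    exact (hD1p.dvd_or_dvd h1).resolve_right hnd
  obtain ⟨α, hα⟩ := hdA
  obtain ⟨β, hβ⟩ := hdB
  have hD0 : (0 : ℤ) < D1 := by exact_mod_cast hp1.pos
  have hbd : ∀ γ : ℤ, |(D1 : ℤ) * γ| ≤ 2 * (L : ℤ) ^ (2 * b + 13) → |γ| ≤ (L : ℤ) ^ 15 := by
    intro γ hγ
    rw [abs_mul, Nat.abs_cast] at hγ
    have h1 : (L : ℤ) ^ (2 * b - 1) ≤ D1 := by exact_mod_cast hD1.le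
    have h2 : (L : ℤ) ^ (2 * b - 1) * |γ| ≤ 2 * (L : ℤ) ^ (2 * b + 13) :=
      (mul_le_mul_of_nonneg_right h1 (abs_nonneg _)).trans hγ
    have e1 : (L : ℤ) ^ (2 * b + 13) = (L : ℤ) ^ (2 * b - 1) * (L : ℤ) ^ 14 := by
      rw [← pow_add]
      congr 1
      omega
    have h3 : (L : ℤ) ^ (2 * b - 1) * |γ| ≤ (L : ℤ) ^ (2 * b - 1) * (2 * (L : ℤ) ^ 14) := by
      rw [e1] at h2
      linarith
    have h4 := le_of_mul_le_mul_left h3 (by positivity)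
    have h5 : 2 * (L : ℤ) ^ 14 ≤ (L : ℤ) ^ 15 := by
      rw [pow_succ' (L : ℤ) 14]
      exact mul_le_mul_of_nonneg_right (by linarith) (by positivity)
    linarith
  refine ⟨α, β, hbd α (by rw [← hα]; exact hAb), hbd β (by rw [← hβ]; exact hBb), ?_⟩
  have h1 : (D1 : ℤ) * R = D1 * (α * Q + β * Q') := by
    rw [hDR, hα, hβ]
    ring
  exact mul_left_cancel₀ hD0.ne' h1

/-- The prime `D` is determined by three primes of the chart.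
Proof.  Let `(U1, V1)`, `g1` (rows `v`, `w`), `u1` and `(U2, V2)`, `g2`, `u2` be the charts of
`(e, D1)`, `(e, D2)` and the coordinates of `R` in them.  With column vectors `T_j = (U_j, V_j)`:
`g1 T1 = g2 T2 = (Q, Q')`, so `D1 T1 = adj(g1) g2 T2`, and
`D1 R = D1 u1 T1 = u1 adj(g1) g2 T2 = D1 u2 T2`.  The integral row vector `a = u1 adj(g1) g2 - D1 u2`
is orthogonal to `T2`, has entries at most `4 L^(3b+16) + L^(3b+10) < U2` (`U2 ≥ L ^ (50b-2)`), and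
`gcd(U2, V2) = 1` (it divides the prime `Q > U2`); so `U2` divides `a.2`, `a.2 = 0` and `a = 0`.  Hence
`u1 adj(g1) g2 ≡ 0` modulo the prime `D1`, and `g2` is invertible modulo `D1` (`D2 ≠ D1` is prime), so
`u1 adj(g1) = D1 (α, β)`, that is `u1 = α v + β w` and `R = α Q + β Q'`, and
`|α| = |det(u1, w)| / D1 ≤ 2 L^(2b+13) / L^(2b-1) ≤ L ^ 15`. -/
theorem uniq_D (b L : ℕ) (N P : ℤ) (h : Par b L N P) (res : ℤ → ℤ) (i : ℕ) (e : ℤ × ℤ)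
    (D1 D2 : ℕ) (h1 : (e, D1) ∈ TR b L N P res i) (h2 : (e, D2) ∈ TR b L N P res i)
    (hne : D1 ≠ D2) (R : ℤ) (hR1 : R ∈ PT b L N P res i (e, D1))
    (hR2 : R ∈ PT b L N P res i (e, D2)) :
    ∃ α β : ℤ, |α| ≤ (L : ℤ) ^ 15 ∧ |β| ≤ (L : ℤ) ^ 15 ∧ R = α * e.1 + β * e.2 := by
  obtain ⟨hQ, -, hp1, hD1, hD1'⟩ := UniqD_TR b L N P res i e D1 h1
  obtain ⟨-, -, hp2, -, -⟩ := UniqD_TR b L N P res i e D2 h2
  have c1 : Chart b L P e.1 e.2 D1 (ch b L P (e, D1)).1 (ch b L P (e, D1)).2.1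
    (ch b L P (e, D1)).2.2.1 (ch b L P (e, D1)).2.2.2 := ch_spec b L N P res i (e, D1) h1
  have c2 : Chart b L P e.1 e.2 D2 (ch b L P (e, D2)).1 (ch b L P (e, D2)).2.1
    (ch b L P (e, D2)).2.2.1 (ch b L P (e, D2)).2.2.2 := ch_spec b L N P res i (e, D2) h2
  unfold PT at hR1 hR2
  rw [mem_filter] at hR1 hR2
  obtain ⟨-, -, x1, y1, hx1, hy1, hr1⟩ := hR1
  obtain ⟨-, -, x2, y2, hx2, hy2, hr2⟩ := hR2
  unfold PP at hQ
  rw [mem_filter, Finset.mem_Ico] at hQ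
  exact UniqD_alg b L P h.hL h.hb h.P1 e.1 e.2 hQ.2 hQ.1.1 D1 D2 hp1 hp2 hD1 hD1' hne _ _ _ _ _ _
    _ _ c1 c2 R x1 y1 x2 y2 hx1 hy1 hx2 hy2 hr1 hr2

end FDP
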