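import Pool.Agent.W_fd120a_h8.ManyGood
import Pool.Agent.W_fd120a_h8.UniqD

set_option autoImplicit false

open Finset
open scoped Classical

namespace FDP

open FD120

/-- the combinations of `Q`, `Q'` with coefficients of size at most `L ^ 15` -/
noncomputable def glBad (L : ℕ) (e : ℤ × ℤ) : Finset ℤ :=
  (Finset.Icc (-(L : ℤ) ^ 15) ((L : ℤ) ^ 15) ×ˢ Finset.Icc (-(L : ℤ) ^ 15) ((L : ℤ) ^ 15)).image
    (fun x => x.1 * e.1 + x.2 * e.2)

theorem glBad_card (L : ℕ) (hL : 10 ^ 6 ≤ L) (e : ℤ × ℤ) : (glBad L e).card ≤ L ^ 32 := by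
  refine Finset.card_image_le.trans ?_
  rw [Finset.card_product, Int.card_Icc]
  have h1 : ((L : ℤ) ^ 15 + 1 - -(L : ℤ) ^ 15).toNat = 2 * L ^ 15 + 1 := by
    have h : ((L : ℤ) ^ 15 + 1 - -(L : ℤ) ^ 15) = ((2 * L ^ 15 + 1 : ℕ) : ℤ) := by
      push_cast; ring
    rw [h, Int.toNat_natCast]
  rw [h1]
  have h2 : 1 ≤ L ^ 15 := Nat.one_le_pow _ _ (by omega)
  have h3 : 2 * L ^ 15 + 1 ≤ 3 * L ^ 15 := by omega
  calc (2 * L ^ 15 + 1) * (2 * L ^ 15 + 1) ≤ (3 * L ^ 15) * (3 * L ^ 15) :=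
        Nat.mul_le_mul h3 h3
    _ = 9 * L ^ 30 := by ring
    _ ≤ L ^ 2 * L ^ 30 := by
        apply Nat.mul_le_mul_right
        calc 9 ≤ L := by omega
          _ ≤ L ^ 2 := Nat.le_self_pow (by norm_num) L
    _ = L ^ 32 := by ring

theorem glBad_mem (L : ℕ) (e : ℤ × ℤ) (R α β : ℤ) (hα : |α| ≤ (L : ℤ) ^ 15)
    (hβ : |β| ≤ (L : ℤ) ^ 15) (hR : R = α * e.1 + β * e.2) : R ∈ glBad L e := by
  rw [abs_le] at hα hβ
  refine Finset.mem_image.mpr ⟨(α, β), ?_, hR.symm⟩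
  rw [Finset.mem_product, Finset.mem_Icc, Finset.mem_Icc]
  exact ⟨hα, hβ⟩

/-- The pairs `(τ, R)` with `R` not a small combination are at most the number of the concurrent
triples. -/
theorem glPairs (b L : ℕ) (N P : ℤ) (res : ℤ → ℤ) (i : ℕ) (hp : Par b L N P)
    (GT : Finset ((ℤ × ℤ) × ℕ)) (hGT : GT ⊆ TR b L N P res i) :
    (GT.sigma (fun τ => (PT b L N P res i τ) \ glBad L τ.1)).card ≤
      ∑ n ∈ SL N P res L i, (rr P res n) ^ 3 := by
  have hT : ((SL N P res L i).sigma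
      (fun n => CC P res n ×ˢ (CC P res n ×ˢ CC P res n))).card =
      ∑ n ∈ SL N P res L i, (rr P res n) ^ 3 := by
    rw [Finset.card_sigma]
    refine Finset.sum_congr rfl (fun n _ => ?_)
    rw [Finset.card_product, Finset.card_product]
    have h : (CC P res n).card = rr P res n := by
      unfold CC rr
      congr
    rw [h]
    ring
  rw [← hT]
  apply Finset.card_le_card_of_injOn
    (fun x => (⟨ptL N P res L i x.1.1, (x.1.1.1, x.1.1.2, x.2)⟩ : Σ _ : ℤ, ℤ × ℤ × ℤ))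
  · rintro ⟨τ, R⟩ hx
    have hx' := Finset.mem_sigma.mp (Finset.mem_coe.mp hx)
    obtain ⟨hτ, hR⟩ := hx'
    have hτ2 : τ ∈ TR b L N P res i := hGT hτ
    have hR1 : R ∈ PT b L N P res i τ := (Finset.mem_sdiff.mp hR).1
    have hτ3 := (Finset.mem_filter.mp hτ2).1
    have hE : τ.1 ∈ EL N P res L i := (Finset.mem_product.mp hτ3).1
    have hsp := ptL_spec N P res L i τ.1 hE
    have hEP := (Finset.mem_filter.mp hE).1
    rw [Finset.mem_product] at hEP
    have hR2 := Finset.mem_filter.mp hR1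
    refine Finset.mem_coe.mpr (Finset.mem_sigma.mpr ⟨hsp.1, ?_⟩)
    refine Finset.mem_product.mpr ⟨?_, Finset.mem_product.mpr ⟨?_, ?_⟩⟩
    · exact Finset.mem_filter.mpr ⟨hEP.1, hsp.2.1⟩
    · exact Finset.mem_filter.mpr ⟨hEP.2, hsp.2.2⟩
    · exact Finset.mem_filter.mpr ⟨hR2.1, hR2.2.1⟩
  · rintro ⟨τ1, R1⟩ hx1 ⟨τ2, R2⟩ hx2 heq
    have hx1' := Finset.mem_sigma.mp (Finset.mem_coe.mp hx1)
    have hx2' := Finset.mem_sigma.mp (Finset.mem_coe.mp hx2)
    simp only [Sigma.mk.injEq, heq_eq_eq, Prod.mk.injEq] at heq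
    obtain ⟨-, h1, h2, h3⟩ := heq
    obtain ⟨e1, D1⟩ := τ1
    obtain ⟨e2, D2⟩ := τ2
    have he : e1 = e2 := Prod.ext h1 h2
    subst he
    subst h3
    by_cases hD : D1 = D2
    · subst hD; rfl
    · exfalso
      obtain ⟨α, β, hα, hβ, hR⟩ := uniq_D b L N P hp res i e1 D1 D2 (hGT hx1'.1) (hGT hx2'.1) hD
        R1 (Finset.mem_sdiff.mp hx1'.2).1 (Finset.mem_sdiff.mp hx2'.2).1
      exact (Finset.mem_sdiff.mp hx1'.2).2 (glBad_mem L e1 R1 α β hα hβ hR)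

/-- From the local theorem to the lower bound.
Proof.  Suppose `|SS| < L ^ (98b+q0)`; take `i`, `q` from `level`.  By `many_good` at least
`L ^ (104b-q-7)` triples `τ` have `|PT τ| ≥ κ = L ^ (2b-q-12-C0)`; at most `(2 L^15 + 1)^2 ≤ L ^ 32 ≤ κ / 2`
elements of `PT τ` are of the form `α Q + β Q'` with `|α|, |β| ≤ L ^ 15`.  For the other elements `R`
the map `(τ, R) ↦ (Q, Q', R)` is injective by `uniq_D`, and `Q`, `Q'`, `R` are primes of `PP P` whose
classes contain the point `n = ptL τ.1 ∈ SL`; so the number of pairs `(τ, R)` is at most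
`∑ n ∈ SL, rr n ^ 3 ≤ L ^ (104b-2q+16)` (`cube_sum`).  Hence
`L ^ (104b-q-7) * κ / 2 ≤ L ^ (104b-2q+16)`, false as `2 b > 36 + C0`. -/
theorem glob (b q0 q1 C0 : ℕ) (hloc : LocalThm b q1 C0) (hq : q0 + 15 ≤ q1) (hq0 : q0 + 10 ≤ b)
    (hC0 : C0 ≤ 200) : ∃ L0 : ℕ, ∀ L, L0 ≤ L → ∀ (N P : ℤ) (res : ℤ → ℤ), Par b L N P →
    L ^ (98 * b + q0) ≤ (SS N P res).card := by
  obtain ⟨L0, hL0⟩ := many_good b q1 C0 hloc
  refine ⟨L0, fun L hL N P res hp => ?_⟩
  by_contra hcon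
  have hcon' : (SS N P res).card < L ^ (98 * b + q0) := not_le.mp hcon
  obtain ⟨i, q, hl⟩ := level b L N P res q0 hp hq0 hcon'
  have hlq := hl.hq
  have hb := hp.hb
  have hL6 := hp.hL
  have hmg := hL0 L hL N P res q0 i q hp hl (by omega)
  have hcs := cube_sum b L N P res q0 i q hp hl
  set κ := L ^ (2 * b - q - 12 - C0) with hκ
  set GT := (TR b L N P res i).filter (fun τ => κ ≤ (PT b L N P res i τ).card) with hGT
  have hκ32 : 2 * L ^ 32 ≤ κ := by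
    calc 2 * L ^ 32 ≤ L * L ^ 32 := Nat.mul_le_mul_right _ (by omega)
      _ = L ^ 33 := by ring
      _ ≤ κ := Nat.pow_le_pow_right (by omega) (by omega)
  have hPG : ∀ τ ∈ GT, κ ≤ 2 * ((PT b L N P res i τ) \ glBad L τ.1).card := by
    intro τ hτ
    have h1 : κ ≤ (PT b L N P res i τ).card := (Finset.mem_filter.mp hτ).2
    have h2 := Finset.le_card_sdiff (glBad L τ.1) (PT b L N P res i τ)
    have h3 := glBad_card L hL6 τ.1
    omega
  have hX : GT.card * κ ≤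
      2 * (GT.sigma (fun τ => (PT b L N P res i τ) \ glBad L τ.1)).card := by
    rw [Finset.card_sigma, Finset.mul_sum]
    calc GT.card * κ = ∑ τ ∈ GT, κ := by rw [Finset.sum_const, smul_eq_mul]
      _ ≤ _ := Finset.sum_le_sum hPG
  have hX2 := glPairs b L N P res i hp GT (Finset.filter_subset _ _)
  have h1 : L ^ (104 * b - q - 7) * κ ≤ L ^ (104 * b - 2 * q + 16 + 1) := by
    calc L ^ (104 * b - q - 7) * κ ≤ GT.card * κ := Nat.mul_le_mul_right _ hmg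
      _ ≤ 2 * L ^ (104 * b - 2 * q + 16) :=
        hX.trans (Nat.mul_le_mul_left _ (hX2.trans hcs))
      _ ≤ L * L ^ (104 * b - 2 * q + 16) := Nat.mul_le_mul_right _ (by omega)
      _ = L ^ (104 * b - 2 * q + 16 + 1) := by
        generalize 104 * b - 2 * q + 16 = m
        ring
  rw [hκ, ← pow_add] at h1
  have h2 := (Nat.pow_le_pow_iff_right (show 1 < L by omega)).mp h1
  omega

end FDP
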