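import Mathlib

set_option autoImplicit false

open Finset
open scoped Classical

namespace FDP

theorem grouping_aux {ι : Type*} (A : Finset ι) (μ : ι → ℕ) (m : ℕ) (hm : 1 ≤ m)
    (hμ : ∀ a ∈ A, μ a ≤ m) :
    ∃ f : ι → ℕ, (∀ a ∈ A, f a ≤ (∑ a ∈ A, μ a) / m) ∧
      (∀ i, (∑ a ∈ A, if f a = i then μ a else 0) ≤ 2 * m) ∧
      ∀ i, (∑ a ∈ A, μ a) / m ≤ i →
        (∑ a ∈ A, if f a = i then μ a else 0) ≤ (∑ a ∈ A, μ a) - i * m := by
  induction A using Finset.induction with
  | empty => exact ⟨fun _ => 0, by simp, by simp, by simp⟩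
  | insert a A ha ih =>
    obtain ⟨f, h1, h2, h3⟩ := ih fun x hx => hμ x (Finset.mem_insert_of_mem hx)
    have hμa : μ a ≤ m := hμ a (Finset.mem_insert_self a A)
    set S := ∑ a ∈ A, μ a with hS
    have hS' : ∑ x ∈ insert a A, μ x = μ a + S := Finset.sum_insert ha
    let g : ι → ℕ := fun x => if x = a then S / m else f x
    have hga : g a = S / m := if_pos rfl
    have hgA : ∀ x ∈ A, g x = f x := fun x hx =>
      if_neg (by rintro rfl; exact ha hx)
    have hsum : ∀ i, (∑ x ∈ insert a A, if g x = i then μ x else 0) =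
        (if S / m = i then μ a else 0) + ∑ x ∈ A, if f x = i then μ x else 0 := by
      intro i
      rw [Finset.sum_insert ha, hga]
      congr 1
      exact Finset.sum_congr rfl fun x hx => by rw [hgA x hx]
    have hmono : S / m ≤ (μ a + S) / m := Nat.div_le_div_right (Nat.le_add_left _ _)
    have hSm : S / m * m ≤ S := Nat.div_mul_le_self S m
    have hSm2 : S < S / m * m + m := by
      have := Nat.lt_div_mul_add (a := S) (b := m) hm
      exact this
    refine ⟨g, ?_, ?_, ?_⟩
    · intro x hx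
      rw [hS']
      rcases Finset.mem_insert.1 hx with rfl | hx
      · rw [hga]; exact hmono
      · rw [hgA x hx]; exact (h1 x hx).trans hmono
    · intro i
      rw [hsum i]
      split_ifs with hi
      · have := h3 i hi.le
        subst hi
        omega
      · rw [zero_add]; exact h2 i
    · intro i hi
      rw [hS'] at hi ⊢
      rw [hsum i]
      have h4 := h3 i (hmono.trans hi)
      split_ifs with hi2
      · subst hi2
        omega
      · omega

/-- Grouping.  Order `A` and put `a` in the group `⌊(sum of the μ of the elements before a) / m⌋`. -/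
theorem grouping {ι : Type*} (A : Finset ι) (μ : ι → ℕ) (m T : ℕ) (hm : 1 ≤ m)
    (hμ : ∀ a ∈ A, μ a ≤ m) (hT : ∑ a ∈ A, μ a ≤ T) :
    ∃ f : ι → ℕ, (∀ a ∈ A, f a ≤ T / m) ∧ ∀ i, ∑ a ∈ A.filter (fun a => f a = i), μ a ≤ 2 * m := by
  obtain ⟨f, h1, h2, _⟩ := grouping_aux A μ m hm hμ
  exact ⟨f, fun a ha => (h1 a ha).trans (Nat.div_le_div_right hT), fun i => by
    rw [Finset.sum_filter]; exact h2 i⟩

end FDP
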