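import Pool.Agent.W_fd120a_h8.SumMlt

set_option autoImplicit false

open Finset Polynomial
open scoped Classical

namespace FDP

/-- Few heavy classes: the vertices `v ∈ U` with `mltv p Ψ v * L^2 > tdg Ψ` fall into at
most `p L^2` classes (`sum_mlt`, `prim`; `mltv p Ψ v = mlt p a.1 a.2 Ψ` for the class
`a = cls p v ∈ range p ×ˢ range p`). -/
theorem heavy_classes (L : ℕ) (Ψ : ℤ[X][X]) (hΨ : Irreducible Ψ) (h1 : 1 ≤ Ψ.natDegree) (p : ℕ)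
    (hp : p.Prime) (U : Finset Ln) :
    ((U.filter (fun v => tdg Ψ < mltv p Ψ v * L ^ 2)).image (cls p)).card ≤ p * L ^ 2 := by
  have : NeZero p := ⟨hp.ne_zero⟩
  obtain ⟨A, hA⟩ : ∃ A, A = (U.filter (fun v => tdg Ψ < mltv p Ψ v * L ^ 2)).image (cls p) :=
    ⟨_, rfl⟩
  rw [← hA]
  have hA1 : A ⊆ Finset.range p ×ˢ Finset.range p := by
    intro a ha
    rw [hA, Finset.mem_image] at ha
    obtain ⟨v, -, rfl⟩ := ha
    rw [Finset.mem_product, Finset.mem_range, Finset.mem_range]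
    exact ⟨ZMod.val_lt _, ZMod.val_lt _⟩
  have hA2 : ∀ a ∈ A, tdg Ψ + 1 ≤ mlt p a.1 a.2 Ψ * L ^ 2 := by
    intro a ha
    rw [hA, Finset.mem_image] at ha
    obtain ⟨v, hv, rfl⟩ := ha
    exact (Finset.mem_filter.1 hv).2
  have h2 := sum_mlt p hp Ψ (prim Ψ hΨ h1 p hp)
  rw [← Finset.sum_product'] at h2
  have h3 : A.card * (tdg Ψ + 1) ≤ (p * L ^ 2) * (tdg Ψ + 1) := by
    calc A.card * (tdg Ψ + 1) = ∑ a ∈ A, (tdg Ψ + 1) := by
          rw [Finset.sum_const, smul_eq_mul]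
      _ ≤ ∑ a ∈ A, mlt p a.1 a.2 Ψ * L ^ 2 := Finset.sum_le_sum hA2
      _ ≤ ∑ a ∈ Finset.range p ×ˢ Finset.range p, mlt p a.1 a.2 Ψ * L ^ 2 :=
          Finset.sum_le_sum_of_subset hA1
      _ = (∑ a ∈ Finset.range p ×ˢ Finset.range p, mlt p a.1 a.2 Ψ) * L ^ 2 :=
          (Finset.sum_mul _ _ _).symm
      _ ≤ (p * tdg Ψ) * L ^ 2 := Nat.mul_le_mul_right _ h2
      _ = (p * L ^ 2) * tdg Ψ := by ring
      _ ≤ (p * L ^ 2) * (tdg Ψ + 1) := Nat.mul_le_mul_left _ (Nat.le_succ _)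
  exact Nat.le_of_mul_le_mul_right h3 (Nat.succ_pos _)

end FDP
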