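import Pool.Agent.W_fd120a_h8.Basic

set_option autoImplicit false

open Finset Polynomial
open scoped Classical

namespace FDP

/-- ring homomorphisms commute with the evaluation -/
theorem hs_map_ev {k k' : Type*} [CommRing k] [CommRing k'] (θ : k →+* k') (u g : k)
    (F : ℤ[X][X]) : θ (ev u g F) = ev (θ u) (θ g) F := by
  have h : θ.comp (ev u g) = ev (θ u) (θ g) := by
    apply Polynomial.ringHom_ext'
    · apply Polynomial.ringHom_ext'
      · exact RingHom.ext_int _ _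
      · simp [ev]
    · simp [ev]
  exact congrArg (fun f : ℤ[X][X] →+* k' => f F) h

theorem hs_aeval {k : Type*} [CommRing k] (u g : k) (F : ℤ[X][X]) :
    aeval g (F.map (eval₂RingHom (Int.castRingHom k) u)) = ev u g F := by
  rw [aeval_def, Polynomial.eval₂_map]
  rfl

theorem hs_nilp {A : Type*} [CommRing A] (π : ℤ[X] →+* A) (p : ℕ)
    (h1 : IsNilpotent (π (C (p : ℤ)))) (h2 : IsNilpotent (π X)) (q : ℤ[X])
    (hq : (p : ℤ) ∣ q.coeff 0) : IsNilpotent (π q) := by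
  obtain ⟨a, ha⟩ := hq
  rw [← divX_mul_X_add q, map_add, map_mul, ha, C_mul, map_mul]
  exact Commute.isNilpotent_add (Commute.all _ _) (Commute.isNilpotent_mul_left (Commute.all _ _) h2)
    (Commute.isNilpotent_mul_right (Commute.all _ _) h1)

theorem hs_unit {A : Type*} [CommRing A] (π : ℤ[X] →+* A) (p : ℕ) (hp : p.Prime)
    (h1 : IsNilpotent (π (C (p : ℤ)))) (h2 : IsNilpotent (π X)) (q : ℤ[X])
    (hq : ¬ (p : ℤ) ∣ q.coeff 0) : IsUnit (π q) := by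
  have hcop : IsCoprime (p : ℤ) (q.coeff 0) :=
    (Prime.coprime_iff_not_dvd (Nat.prime_iff_prime_int.1 hp)).2 hq
  obtain ⟨a, b, hab⟩ := hcop
  have h3 : IsNilpotent (π (1 - C b * q)) := by
    apply hs_nilp π p h1 h2
    rw [coeff_sub, coeff_one_zero, coeff_C_mul]
    exact ⟨a, by linear_combination -hab⟩
  have h4 : IsUnit (π (C b * q)) := by
    have h5 := h3.isUnit_one_sub
    rw [← map_one π, ← map_sub] at h5
    simpa using h5
  rw [map_mul] at h4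
  exact isUnit_of_mul_isUnit_right h4

/-- the pair of facts needed for the Newton iteration -/
theorem hs_unique {k : Type*} [CommRing k] (u g r s : k) (Ψ : ℤ[X][X])
    (h1 : IsNilpotent (ev u g Ψ)) (h2 : IsUnit (ev u g (derivative Ψ)))
    (hr : IsNilpotent (g - r)) (hr0 : ev u r Ψ = 0) (hs : IsNilpotent (g - s))
    (hs0 : ev u s Ψ = 0) : r = s := by
  have h3 := existsUnique_nilpotent_sub_and_aeval_eq_zero
    (P := Ψ.map (eval₂RingHom (Int.castRingHom k) u)) (x := g) (by rw [hs_aeval]; exact h1)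
    (by rw [derivative_map, hs_aeval]; exact h2)
  exact h3.unique ⟨hr, by rw [hs_aeval]; exact hr0⟩ ⟨hs, by rw [hs_aeval]; exact hs0⟩

theorem hs_exists {k : Type*} [CommRing k] (u g : k) (Ψ : ℤ[X][X])
    (h1 : IsNilpotent (ev u g Ψ)) (h2 : IsUnit (ev u g (derivative Ψ))) :
    ∃ r, IsNilpotent (g - r) ∧ ev u r Ψ = 0 := by
  obtain ⟨r, ⟨hr, hr0⟩, -⟩ := existsUnique_nilpotent_sub_and_aeval_eq_zero
    (P := Ψ.map (eval₂RingHom (Int.castRingHom k) u)) (x := g) (by rw [hs_aeval]; exact h1)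
    (by rw [derivative_map, hs_aeval]; exact h2)
  exact ⟨r, hr, by rwa [hs_aeval] at hr0⟩

theorem hs_coeff_zero (u0 g0 : ℤ) (F : ℤ[X][X]) :
    (ev (C u0 + X : ℤ[X]) (C g0) F).coeff 0 = ev u0 g0 F := by
  have h := hs_map_ev (evalRingHom (0 : ℤ)) (C u0 + X : ℤ[X]) (C g0) F
  rw [coe_evalRingHom, ← coeff_zero_eq_eval_zero] at h
  rw [h]
  simp

/-- Parametrisation of the zeros of `Ψ` in a residue disc with `∂Ψ/∂Γ ≠ 0` modulo `p`.
Proof.  Let `A = (ZMod (p ^ K))[T] / (T ^ K)` (or work in `ℤ[T]` modulo the ideal `(p, T) ^ (2K)`): the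
ideal `(p, T)` is nilpotent.  Over `A` the polynomial `f(Γ) = Ψ(u0 + T, Γ)` has `f(g0)` nilpotent
(`f(g0) ≡ Ψ(u0, g0) ≡ 0` modulo `(p, T)`) and `f'(g0)` a unit, so
`Polynomial.existsUnique_nilpotent_sub_and_aeval_eq_zero` (Newton iteration) gives a root `h`, the
class of an integer polynomial.  For `u`, `g` as in the statement the map `T ↦ u - u0`, which is
nilpotent (`(u - u0) ^ K ∈ p ^ K = 0`), sends `h` to a root of `Ψ(u, Γ)` in `ZMod (p ^ K)` congruent to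
`g0`, hence to `g`, modulo nilpotents; by uniqueness in `ZMod (p ^ K)` it is `g`. -/
theorem hensel_param (p K : ℕ) (hp : p.Prime) (hK : 1 ≤ K) (Ψ : ℤ[X][X]) (u0 g0 : ℤ)
    (h0 : (p : ℤ) ∣ ev u0 g0 Ψ) (h1 : ¬ (p : ℤ) ∣ ev u0 g0 (derivative Ψ)) :
    ∃ h : ℤ[X], ∀ u g : ZMod (p ^ K),
      (∃ a : ZMod (p ^ K), u - (u0 : ZMod (p ^ K)) = p * a) →
      (∃ a : ZMod (p ^ K), g - (g0 : ZMod (p ^ K)) = p * a) → ev u g Ψ = 0 →
      g = h.eval₂ (Int.castRingHom (ZMod (p ^ K))) (u - (u0 : ZMod (p ^ K))) := by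
  let I : Ideal ℤ[X] := Ideal.span {C ((p : ℤ) ^ K), X ^ K}
  let π : ℤ[X] →+* ℤ[X] ⧸ I := Ideal.Quotient.mk I
  have hπp : IsNilpotent (π (C (p : ℤ))) := by
    refine ⟨K, ?_⟩
    rw [← map_pow, ← C_pow]
    exact Ideal.Quotient.eq_zero_iff_mem.2 (Ideal.subset_span (by simp))
  have hπX : IsNilpotent (π X) := by
    refine ⟨K, ?_⟩
    rw [← map_pow]
    exact Ideal.Quotient.eq_zero_iff_mem.2 (Ideal.subset_span (by simp))
  have e1 : IsNilpotent (ev (π (C u0 + X)) (π (C g0)) Ψ) := by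
    rw [← hs_map_ev]
    apply hs_nilp π p hπp hπX
    rw [hs_coeff_zero]
    exact h0
  have e2 : IsUnit (ev (π (C u0 + X)) (π (C g0)) (derivative Ψ)) := by
    rw [← hs_map_ev]
    apply hs_unit π p hp hπp hπX
    rw [hs_coeff_zero]
    exact h1
  obtain ⟨r, hr, hr0⟩ := hs_exists _ _ _ e1 e2
  obtain ⟨h, hh⟩ := Ideal.Quotient.mk_surjective r
  refine ⟨h, ?_⟩
  rintro u g ⟨a, ha⟩ ⟨b, hb⟩ hug
  have hpK : ((p : ZMod (p ^ K))) ^ K = 0 := by
    rw [← Nat.cast_pow]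
    exact ZMod.natCast_self _
  let θ : ℤ[X] →+* ZMod (p ^ K) :=
    eval₂RingHom (Int.castRingHom (ZMod (p ^ K))) (u - (u0 : ZMod (p ^ K)))
  have hθI : ∀ x ∈ I, θ x = 0 := by
    intro x hx
    have h2 : I ≤ RingHom.ker θ := by
      rw [Ideal.span_le]
      intro y hy
      rw [SetLike.mem_coe, RingHom.mem_ker]
      rcases hy with rfl | hy
      · show eval₂ _ _ (C ((p : ℤ) ^ K)) = 0
        rw [eval₂_C, map_pow, eq_intCast, Int.cast_natCast]
        exact hpK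
      · rw [Set.mem_singleton_iff] at hy
        rw [hy, map_pow]
        simp only [θ, coe_eval₂RingHom, eval₂_X]
        rw [ha, mul_pow, hpK, zero_mul]
    exact h2 hx
  let τ : ℤ[X] ⧸ I →+* ZMod (p ^ K) := Ideal.Quotient.lift I θ hθI
  have hτ : ∀ q : ℤ[X], τ (π q) = θ q := fun q => Ideal.Quotient.lift_mk I θ hθI
  have hτu : τ (π (C u0 + X)) = u := by
    rw [hτ]
    show eval₂ _ _ (C u0 + X) = u
    rw [eval₂_add, eval₂_C, eval₂_X, eq_intCast]
    ring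
  have hτg : τ (π (C g0)) = (g0 : ZMod (p ^ K)) := by
    rw [hτ]
    show eval₂ _ _ (C g0) = _
    rw [eval₂_C, eq_intCast]
  have hn : IsNilpotent (ev u ((g0 : ℤ) : ZMod (p ^ K)) Ψ) := by
    have h2 := e1.map τ
    rwa [hs_map_ev, hτu, hτg] at h2
  have hd : IsUnit (ev u ((g0 : ℤ) : ZMod (p ^ K)) (derivative Ψ)) := by
    have h2 := e2.map τ
    rwa [hs_map_ev, hτu, hτg] at h2
  refine hs_unique u ((g0 : ℤ) : ZMod (p ^ K)) g _ Ψ hn hd ?_ hug ?_ ?_
  · refine ⟨K, ?_⟩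
    have h2 : ((g0 : ℤ) : ZMod (p ^ K)) - g = p * (-b) := by linear_combination -hb
    rw [h2, mul_pow, hpK, zero_mul]
  · have h2 := hr.map τ
    rw [map_sub, hτg, ← hh] at h2
    exact h2
  · have h2 := congrArg τ hr0
    rw [hs_map_ev, hτu, map_zero, ← hh] at h2
    exact h2

/-- Consequence: every polynomial function is, on such a set of zeros, a polynomial in `u - u0`.
(Take `ev (C u0 + X) h Φ` computed in `ℤ[X]`.) -/
theorem hensel_param_fun (p K : ℕ) (hp : p.Prime) (hK : 1 ≤ K) (Ψ : ℤ[X][X]) (u0 g0 : ℤ)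
    (h0 : (p : ℤ) ∣ ev u0 g0 Ψ) (h1 : ¬ (p : ℤ) ∣ ev u0 g0 (derivative Ψ)) (Φ : ℤ[X][X]) :
    ∃ h : ℤ[X], ∀ u g : ZMod (p ^ K),
      (∃ a : ZMod (p ^ K), u - (u0 : ZMod (p ^ K)) = p * a) →
      (∃ a : ZMod (p ^ K), g - (g0 : ZMod (p ^ K)) = p * a) → ev u g Ψ = 0 →
      ev u g Φ = h.eval₂ (Int.castRingHom (ZMod (p ^ K))) (u - (u0 : ZMod (p ^ K))) := by
  obtain ⟨h, hh⟩ := hensel_param p K hp hK Ψ u0 g0 h0 h1
  refine ⟨ev (C u0 + X : ℤ[X]) h Φ, ?_⟩
  intro u g hu hg hug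
  have h2 := hh u g hu hg hug
  have h3 := hs_map_ev (eval₂RingHom (Int.castRingHom (ZMod (p ^ K))) (u - (u0 : ZMod (p ^ K))))
    (C u0 + X : ℤ[X]) h Φ
  rw [coe_eval₂RingHom] at h3
  rw [h3, ← h2, eval₂_add, eval₂_C, eval₂_X, eq_intCast]
  congr 2
  ring

end FDP
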