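import Pool.Agent.W_fd120a_h8.Nbr
import Pool.Agent.W_fd120a_h8.RankG

set_option autoImplicit false

open Finset Polynomial
open scoped Classical

namespace FDP

/-- Few edges start in a set of small rank.
Proof.  `exists_form_of_rk` (with `M = L^(51b+10)`; height: `local_height` in Local.lean) gives `Φ ≠ 0`,
`tdg Φ ≤ k < tdg Ψ` (so `Ψ ∤ Φ`, `tdg_mul`), vanishing on `A`.  The `w ∈ U2` with at least `k L^11`
neighbours in `A` are zeros of `Φ` (`nbrs_van`) and of `Ψ`, so they are at most `2 (tdg Ψ * k) L^10`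
(`bezout_card`), each has degree at most `g2 L^2`; the other `w` have less than `k L^11` neighbours in
`A`. -/
theorem light (b : ℕ) (hb : 1000 ≤ b) : ∃ L0 : ℕ, ∀ L, L0 ≤ L →
    ∀ (V U1 U2 : Finset Ln) (G : Finset (Ln × Ln)) (g1 g2 : ℕ), Sys b L 2 V U1 U2 G g1 g2 →
    ∀ Ψ : ℤ[X][X], Irreducible Ψ → 1 ≤ Ψ.natDegree → (∀ v ∈ U2, Van Ψ v) →
    ∀ k, 1 ≤ k → k < tdg Ψ → ∀ A : Finset Ln, A ⊆ U1 → 4 * rk k A ≤ (k + 1) * (k + 2) →
    (G.filter (fun e => e.1 ∈ A)).card ≤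
      U2.card * (k * L ^ 11) + 2 * (tdg Ψ * k) * L ^ 10 * (g2 * L ^ 2) := by
  obtain ⟨L0, hL0⟩ := nbrs_van b hb
  refine ⟨max L0 1000, fun L hL V U1 U2 G g1 g2 hS Ψ hΨ hΨ1 hΨv k hk1 hk A hA hrk => ?_⟩
  have hL1 : L0 ≤ L := (le_max_left _ _).trans hL
  have hL2 : 1000 ≤ L := (le_max_right _ _).trans hL
  have hV := hS.adm
  have hAV : A ⊆ V := hA.trans hS.s1
  have hLZ : (1 : ℤ) ≤ (L : ℤ) := by exact_mod_cast (show 1 ≤ L by omega)
  have hMle : (L : ℤ) ^ (b + 10) ≤ (L : ℤ) ^ (51 * b + 10) :=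
    pow_le_pow_right₀ hLZ (by omega)
  obtain ⟨Φ, hΦ0, hΦd, hΦH, hΦA⟩ := exists_form_of_rk k ((L : ℤ) ^ (51 * b + 10))
    (one_le_pow₀ hLZ) A (fun v hv => (hV.bx v (hAV hv)).trans hMle)
    (fun v hv => (hV.bdy v (hAV hv)).trans hMle) (fun v hv => hV.bc v (hAV hv)) hrk
  have hΦH2 : ∀ j i, |(Φ.coeff j).coeff i| ≤ (L : ℤ) ^ (52 * b * k) := fun j i =>
    (hΦH j i).trans (local_height b L k hb hL2 hk1)
  have hΦV : ∀ v ∈ A, Van Φ v := fun v hv =>
    (van_iff k Φ hΦd v (hV.ynz v (hAV hv))).2 (hΦA v hv)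
  -- the heavy neighbours
  obtain ⟨dg, hdg⟩ : ∃ dg : Ln → ℕ, ∀ w, dg w = (A.filter (fun v => (v, w) ∈ G)).card :=
    ⟨_, fun _ => rfl⟩
  obtain ⟨W, hW⟩ : ∃ W : Finset Ln, W = U2.filter (fun w => k * L ^ 11 ≤ dg w) := ⟨_, rfl⟩
  have hWV : W ⊆ V.filter (fun v => Van Ψ v ∧ Van Φ v) := by
    intro w hw
    rw [hW, mem_filter] at hw
    rw [mem_filter]
    refine ⟨hS.s2 hw.1, hΨv w hw.1, ?_⟩
    refine hL0 L hL1 V hV k Φ hk1 hΦd hΦH2 w (hS.s2 hw.1) (A.filter (fun v => (v, w) ∈ G))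
      ((filter_subset _ _).trans hAV) (fun v hv => ?_) ?_
    · rw [mem_filter] at hv
      exact ⟨(hS.edge _ hv.2).2.2, hΦV v hv.1⟩
    · rw [← hdg]
      exact hw.2
  have hnd : ¬ Ψ ∣ Φ := by
    rintro ⟨Q, hQ⟩
    have hQ0 : Q ≠ 0 := by
      rintro rfl
      rw [mul_zero] at hQ
      exact hΦ0 hQ
    have h1 := tdg_mul Ψ Q hΨ.ne_zero hQ0
    rw [← hQ] at h1
    omega
  have hWc : W.card ≤ 2 * (tdg Ψ * k) * L ^ 10 := by
    calc W.card ≤ _ := card_le_card hWV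
      _ ≤ 2 * (tdg Ψ * tdg Φ) * L ^ 10 := bezout_card b L V hV Ψ Φ hΨ hΨ1 hnd
      _ ≤ 2 * (tdg Ψ * k) * L ^ 10 :=
        Nat.mul_le_mul_right _ (Nat.mul_le_mul_left _ (Nat.mul_le_mul_left _ hΦd))
  -- the count
  have hmap : ∀ e ∈ G.filter (fun e => e.1 ∈ A), e.2 ∈ U2 := fun e he =>
    (hS.edge e (mem_filter.1 he).1).2.1
  have hfib : ∀ w ∈ U2, ((G.filter (fun e => e.1 ∈ A)).filter (fun e => e.2 = w)).card ≤
      k * L ^ 11 + (if w ∈ W then g2 * L ^ 2 else 0) := by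
    intro w hw
    have h1 : ((G.filter (fun e => e.1 ∈ A)).filter (fun e => e.2 = w)).card ≤ dg w := by
      rw [hdg]
      refine card_le_card_of_injOn (fun e => e.1) (fun e he => ?_) (fun e he f hf hef => ?_)
      · rw [mem_coe, mem_filter, mem_filter] at he
        rw [mem_coe, mem_filter]
        refine ⟨he.1.2, ?_⟩
        have h2 : (e.1, w) = e := by rw [← he.2]
        rw [h2]
        exact he.1.1
      · rw [mem_coe, mem_filter] at he hf
        exact Prod.ext hef (he.2.trans hf.2.symm)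
    by_cases hwW : w ∈ W
    · rw [if_pos hwW]
      have h2 : dg w ≤ g2 * L ^ 2 := by
        rw [hdg]
        refine (card_le_card ?_).trans (hS.up2 w hw)
        exact filter_subset_filter _ hA
      omega
    · rw [if_neg hwW]
      have h2 : dg w < k * L ^ 11 := by
        by_contra h
        push Not at h
        exact hwW (by rw [hW, mem_filter]; exact ⟨hw, h⟩)
      omega
  rw [card_eq_sum_card_fiberwise hmap]
  refine (sum_le_sum hfib).trans ?_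
  rw [sum_add_distrib, sum_const, smul_eq_mul, ← sum_filter, sum_const, smul_eq_mul]
  have h3 : (U2.filter (fun w => w ∈ W)).card ≤ W.card :=
    card_le_card (fun w hw => (mem_filter.1 hw).2)
  exact Nat.add_le_add_left (Nat.mul_le_mul_right _ (h3.trans hWc)) _

end FDP
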