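import Pool.Agent.W_fd120a_h8.Curve
import Pool.Agent.W_fd120a_h8.Bez

set_option autoImplicit false

open Finset Polynomial
open scoped Classical

namespace FDP

/-- A system supported by an irreducible curve of degree `E` has at least about `E g` vertices.
Proof.  `n1 = |U1|`, `n2 = |U2|`, `e = |G|`.  `curve` (`lam = 2`) gives `d', F', V1', V2'` with
`d' e ≤ L^20 n1 n2`, `F'` vanishing on `V2'`, `e ≤ 2 |{edges in V1' × V2'}|`.  If `Ψ ∤ F'` then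
`|V2'| ≤ 2 (E d') L^10` (`bezout_card`), so `e ≤ 2 |V2'| g2 L^2 ≤ 4 E d' L^12 g2`, and
`e^2 ≤ 4 E L^12 g2 d' e ≤ 4 E L^32 g2 n1 n2`; with `n1 g1 ≤ L^2 e`, `n2 g2 ≤ L^2 e` this gives
`g1 ≤ 4 E L^36 ≤ L^(b-360)`, impossible.  So `Ψ ∣ F'` and `E ≤ tdg F' ≤ d'` (`tdg_mul`), hence
`E e ≤ L^20 n1 n2`, and `n1 g1 ≤ L^2 e` gives `E g1 n1 ≤ L^2 E e ≤ L^22 n1 n2`, `E g1 ≤ L^22 n2`
(`n1 > 0`); similarly `E g2 ≤ L^22 n1`. -/
theorem size_lower (b : ℕ) (hb : 1000 ≤ b) : ∃ L0 : ℕ, ∀ L, L0 ≤ L →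
    ∀ (V U1 U2 : Finset Ln) (G : Finset (Ln × Ln)) (g1 g2 : ℕ), Sys b L 2 V U1 U2 G g1 g2 →
    ∀ Ψ : ℤ[X][X], Irreducible Ψ → 1 ≤ Ψ.natDegree → tdg Ψ ≤ L ^ (b - 400) →
    (∀ v ∈ U1, Van Ψ v) → (∀ v ∈ U2, Van Ψ v) →
    tdg Ψ * g1 ≤ L ^ 40 * U2.card ∧ tdg Ψ * g2 ≤ L ^ 40 * U1.card := by
  obtain ⟨L0, hL0⟩ := curve b hb
  refine ⟨max L0 4, fun L hL V U1 U2 G g1 g2 hS Ψ hΨ hΨ1 hΨE hv1 hv2 => ?_⟩
  have hL4 : 4 ≤ L := (le_max_right _ _).trans hL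
  have hL1 : 1 ≤ L := by omega
  obtain ⟨d, F, V1', V2', hV1', hV2', hd, hde, -, hF0, hFd, -, -, hF2, hG2⟩ :=
    hL0 L ((le_max_left _ _).trans hL) 2 (by norm_num) V U1 U2 G g1 g2 hS
  have he : 0 < G.card := Finset.card_pos.mpr hS.ne
  obtain ⟨e0, he0⟩ := hS.ne
  have hn1 : 0 < U1.card := Finset.card_pos.mpr ⟨e0.1, (hS.edge e0 he0).1⟩
  have hn2 : 0 < U2.card := Finset.card_pos.mpr ⟨e0.2, (hS.edge e0 he0).2.1⟩
  by_cases hdvd : Ψ ∣ F
  · obtain ⟨Q, rfl⟩ := hdvd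
    have hQ0 : Q ≠ 0 := right_ne_zero_of_mul hF0
    have hE : tdg Ψ ≤ d := by
      rw [tdg_mul Ψ Q (left_ne_zero_of_mul hF0) hQ0] at hFd
      omega
    have hEe : tdg Ψ * G.card ≤ L ^ 20 * (U1.card * U2.card) :=
      (Nat.mul_le_mul_right _ hE).trans hde
    have h22 : L ^ 22 ≤ L ^ 40 := Nat.pow_le_pow_right hL1 (by norm_num)
    constructor
    · refine le_trans ?_ (Nat.mul_le_mul_right _ h22)
      refine Nat.le_of_mul_le_mul_left (?_ : U1.card * (tdg Ψ * g1) ≤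
        U1.card * (L ^ 22 * U2.card)) hn1
      calc U1.card * (tdg Ψ * g1) = tdg Ψ * (U1.card * g1) := by ring
        _ ≤ tdg Ψ * (L ^ 2 * G.card) := Nat.mul_le_mul_left _ hS.lo1
        _ = L ^ 2 * (tdg Ψ * G.card) := by ring
        _ ≤ L ^ 2 * (L ^ 20 * (U1.card * U2.card)) := Nat.mul_le_mul_left _ hEe
        _ = U1.card * (L ^ 22 * U2.card) := by ring
    · refine le_trans ?_ (Nat.mul_le_mul_right _ h22)
      refine Nat.le_of_mul_le_mul_left (?_ : U2.card * (tdg Ψ * g2) ≤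
        U2.card * (L ^ 22 * U1.card)) hn2
      calc U2.card * (tdg Ψ * g2) = tdg Ψ * (U2.card * g2) := by ring
        _ ≤ tdg Ψ * (L ^ 2 * G.card) := Nat.mul_le_mul_left _ hS.lo2
        _ = L ^ 2 * (tdg Ψ * G.card) := by ring
        _ ≤ L ^ 2 * (L ^ 20 * (U1.card * U2.card)) := Nat.mul_le_mul_left _ hEe
        _ = U2.card * (L ^ 22 * U1.card) := by ring
  · exfalso
    have hcard : V2'.card ≤ 2 * (tdg Ψ * d) * L ^ 10 := by
      calc V2'.card ≤ (V.filter (fun v => Van Ψ v ∧ Van F v)).card := by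
            apply Finset.card_le_card
            intro w hw
            exact mem_filter.mpr ⟨hS.s2 (hV2' hw), hv2 w (hV2' hw), hF2 w hw⟩
        _ ≤ 2 * (tdg Ψ * tdg F) * L ^ 10 := bezout_card b L V hS.adm Ψ F hΨ hΨ1 hdvd
        _ ≤ 2 * (tdg Ψ * d) * L ^ 10 := by gcongr
    have hedges : (G.filter (fun e => e.1 ∈ V1' ∧ e.2 ∈ V2')).card ≤
        V2'.card * (g2 * L ^ 2) := by
      calc (G.filter (fun e => e.1 ∈ V1' ∧ e.2 ∈ V2')).card
          ≤ (V2'.biUnion (fun w => (U1.filter (fun v => (v, w) ∈ G)).image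
              (fun v => (v, w)))).card := by
            apply Finset.card_le_card
            rintro ⟨v, w⟩ hvw
            rw [mem_filter] at hvw
            rw [mem_biUnion]
            refine ⟨w, hvw.2.2, ?_⟩
            rw [mem_image]
            exact ⟨v, mem_filter.mpr ⟨hV1' hvw.2.1, hvw.1⟩, rfl⟩
        _ ≤ ∑ w ∈ V2', ((U1.filter (fun v => (v, w) ∈ G)).image (fun v => (v, w))).card :=
            Finset.card_biUnion_le
        _ ≤ ∑ w ∈ V2', (g2 * L ^ 2) := Finset.sum_le_sum fun w hw =>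
            Finset.card_image_le.trans (hS.up2 w (hV2' hw))
        _ = V2'.card * (g2 * L ^ 2) := by rw [Finset.sum_const, smul_eq_mul]
    have h1 : G.card ≤ 4 * (tdg Ψ * d) * L ^ 12 * g2 := by
      calc G.card ≤ 2 * (G.filter (fun e => e.1 ∈ V1' ∧ e.2 ∈ V2')).card := hG2
        _ ≤ 2 * (V2'.card * (g2 * L ^ 2)) := Nat.mul_le_mul_left _ hedges
        _ ≤ 2 * ((2 * (tdg Ψ * d) * L ^ 10) * (g2 * L ^ 2)) := by gcongr
        _ = 4 * (tdg Ψ * d) * L ^ 12 * g2 := by ring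
    have h2 : G.card * G.card * g1 ≤ G.card * G.card * (4 * tdg Ψ * L ^ 36) := by
      calc G.card * G.card * g1 ≤ (4 * (tdg Ψ * d) * L ^ 12 * g2) * G.card * g1 := by gcongr
        _ = 4 * tdg Ψ * L ^ 12 * g2 * g1 * (d * G.card) := by ring
        _ ≤ 4 * tdg Ψ * L ^ 12 * g2 * g1 * (L ^ 20 * (U1.card * U2.card)) := by gcongr
        _ = 4 * tdg Ψ * L ^ 32 * ((U1.card * g1) * (U2.card * g2)) := by ring
        _ ≤ 4 * tdg Ψ * L ^ 32 * ((L ^ 2 * G.card) * (L ^ 2 * G.card)) :=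
            Nat.mul_le_mul_left _ (Nat.mul_le_mul hS.lo1 hS.lo2)
        _ = G.card * G.card * (4 * tdg Ψ * L ^ 36) := by ring
    have h3 : g1 ≤ 4 * tdg Ψ * L ^ 36 := Nat.le_of_mul_le_mul_left h2 (Nat.mul_pos he he)
    have h4a : 4 * tdg Ψ ≤ L * L ^ (b - 400) := Nat.mul_le_mul hL4 hΨE
    have h4b : L * L ^ (b - 400) * L ^ 36 = L ^ (b - 363) := by
      have h4c : b - 400 + 1 + 36 = b - 363 := by omega
      rw [← pow_succ', ← pow_add, h4c]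
    have h4 : 4 * tdg Ψ * L ^ 36 ≤ L ^ (b - 363) := by
      rw [← h4b]
      exact Nat.mul_le_mul_right _ h4a
    have h5 : L ^ (b - 363) < L ^ (b + 500) := Nat.pow_lt_pow_right (by omega) (by omega)
    exact absurd (hS.big1.trans (h3.trans h4)) (not_le.mpr h5)

end FDP
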