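import Pool.Agent.W_fd120a_h8.Mult

set_option autoImplicit false

open Finset Polynomial
open scoped Classical

namespace FDP

theorem SumMlt_shift (p : ℕ) (u0 g0 : ℤ) (Ψ : ℤ[X][X]) :
    (sh u0 g0 Ψ).map (mapRingHom (Int.castRingHom (ZMod p))) =
      ((Ψ.map (mapRingHom (Int.castRingHom (ZMod p)))).map
        (compRingHom (X + C (u0 : ZMod p)))).comp (X + C (C (g0 : ZMod p))) := by
  have h : (mapRingHom (mapRingHom (Int.castRingHom (ZMod p)))).comp
      (ev (k := ℤ[X][X]) (C X + C (C u0)) (X + C (C g0))) =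
      (compRingHom (X + C (C (g0 : ZMod p)))).comp
        ((mapRingHom (compRingHom (X + C (u0 : ZMod p)))).comp
          (mapRingHom (mapRingHom (Int.castRingHom (ZMod p))))) := by
    apply Mult_ext
    · rw [RingHom.comp_apply, Mult_ev_X]
      simp
    · rw [RingHom.comp_apply, Mult_ev_CX]
      simp
  exact RingHom.congr_fun h Ψ

theorem SumMlt_coeff (p : ℕ) (u g : ZMod p) (e r : ℕ) (f' : (ZMod p)[X][X]) :
    ((((C ((X - C u) ^ e) * f').map (compRingHom (X + C u))).comp (X + C (C g))).coeff r).coeff e =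
      ((f'.map (evalRingHom u)).comp (X + C g)).coeff r := by
  have e1 : (C ((X - C u) ^ e) * f').map (compRingHom (X + C u)) =
      C (X ^ e) * f'.map (compRingHom (X + C u)) := by
    rw [Polynomial.map_mul, map_C, map_pow, coe_compRingHom_apply, sub_comp, X_comp, C_comp,
      add_sub_cancel_right]
  rw [e1, mul_comp, C_comp, coeff_C_mul]
  have e2 := coeff_X_pow_mul (((f'.map (compRingHom (X + C u))).comp (X + C (C g))).coeff r) e 0
  rw [zero_add] at e2
  rw [e2, coeff_zero_eq_eval_zero, ← coe_evalRingHom, ← coeff_map, Polynomial.map_comp,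
    Polynomial.map_map]
  have e3 : (evalRingHom (0 : ZMod p)).comp (compRingHom (X + C u)) = evalRingHom u := by
    apply Polynomial.ringHom_ext
    · intro a
      simp
    · simp
  have e4 : (X + C (C g)).map (evalRingHom (0 : ZMod p)) = X + C g := by
    simp
  rw [e3, e4]

theorem SumMlt_factor (p : ℕ) [Fact p.Prime] (f : (ZMod p)[X][X]) (hf : f ≠ 0) (u : ZMod p) :
    ∃ (e : ℕ) (f' : (ZMod p)[X][X]), f = C ((X - C u) ^ e) * f' ∧
      f'.map (evalRingHom u) ≠ 0 := by
  have hu : ¬ IsUnit (C (X - C u) : (ZMod p)[X][X]) := by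
    rw [isUnit_C]
    exact not_isUnit_X_sub_C u
  obtain ⟨e, f', hnd, he⟩ := WfDvdMonoid.max_power_factor' hf hu
  refine ⟨e, f', ?_, ?_⟩
  · rw [he, C_pow]
  · intro h0
    apply hnd
    rw [Polynomial.C_dvd_iff_dvd_coeff]
    intro i
    rw [dvd_iff_isRoot]
    have h1 : (f'.map (evalRingHom u)).coeff i = 0 := by
      rw [h0, coeff_zero]
    rw [coeff_map] at h1
    exact h1

theorem SumMlt_range (p : ℕ) [Fact p.Prime] (F : ZMod p → ℕ) :
    ∑ g ∈ Finset.range p, F (g : ZMod p) = ∑ a : ZMod p, F a := by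
  refine Finset.sum_nbij' (fun g => (g : ZMod p)) (fun a => a.val) ?_ ?_ ?_ ?_ ?_
  · intro g _
    exact Finset.mem_univ _
  · intro a _
    exact Finset.mem_range.2 (ZMod.val_lt a)
  · intro g hg
    exact ZMod.val_natCast_of_lt (Finset.mem_range.1 hg)
  · intro a _
    exact ZMod.natCast_zmod_val a
  · intro g _
    rfl

theorem SumMlt_roots (p : ℕ) [Fact p.Prime] (q : (ZMod p)[X]) :
    ∑ a : ZMod p, rootMultiplicity a q ≤ q.natDegree := by
  have h1 : ∀ a : ZMod p, rootMultiplicity a q = q.roots.count a := fun a =>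
    (count_roots q).symm
  simp only [h1]
  rw [Multiset.sum_count_eq_card (fun a _ => Finset.mem_univ a)]
  exact card_roots' q

/-- Sum of the multiplicities of a curve over the prime field.
Proof.  Work with `f ∈ k[U][Γ]`, `k = ZMod p`, non-zero, and
`m(u,g,f) = min {i + j : the coefficient of S^i T^j in f(u + S, g + T) is not zero}`; show
`Σ_{u,g ∈ k} m(u,g,f) ≤ p * tdg f` by strong induction on the total degree of `f`.  If `f(u0, Γ) = 0`
for some `u0 ∈ k` then `f = (U - u0) f'` (the total degree drops by one) and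
`m(u,g,f) ≤ m(u,g,f') + [u = u0]` (multiply the lowest homogeneous part of `f'(u+S,g+T)` by `S` or by
the non-zero constant `u - u0`), so the sum is at most `p * (tdg f - 1) + p`.  Otherwise
`m(u,g,f) ≤ rootMultiplicity g (f(u, Γ))` for all `(u, g)` (the coefficient of `S^0 T^j` in
`f(u+S,g+T)` is that of `T^j` in `f(u, g + T)`), and for every `u` the sum over `g` of the root
multiplicities is at most `deg f(u, Γ) ≤ tdg f`. -/
theorem sum_mlt (p : ℕ) (hp : p.Prime) (Ψ : ℤ[X][X])
    (h : ∃ j i, ¬ (p : ℤ) ∣ (Ψ.coeff j).coeff i) :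
    ∑ u ∈ Finset.range p, ∑ g ∈ Finset.range p, mlt p u g Ψ ≤ p * tdg Ψ := by
  have : Fact p.Prime := ⟨hp⟩
  obtain ⟨f, hf⟩ : ∃ f : (ZMod p)[X][X], f = Ψ.map (mapRingHom (Int.castRingHom (ZMod p))) :=
    ⟨_, rfl⟩
  have hfc : ∀ j i, (f.coeff j).coeff i = (((Ψ.coeff j).coeff i : ℤ) : ZMod p) := by
    intro j i
    rw [hf, coeff_map, coe_mapRingHom, coeff_map, eq_intCast]
  have hf0 : f ≠ 0 := by
    intro h0
    obtain ⟨j, i, hji⟩ := h
    apply hji
    rw [← ZMod.intCast_zmod_eq_zero_iff_dvd, ← hfc, h0, coeff_zero, coeff_zero]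
  have hfac := fun u : ZMod p => SumMlt_factor p f hf0 u
  choose e f' he hq using hfac
  -- the bound for the multiplicity
  have hm : ∀ u g : ℕ, mlt p u g Ψ ≤ e (u : ZMod p) +
      rootMultiplicity (g : ZMod p) ((f' (u : ZMod p)).map (evalRingHom (u : ZMod p))) := by
    intro u g
    apply Nat.sInf_le
    refine ⟨_, _, rfl, ?_⟩
    intro hdvd
    rw [← ZMod.intCast_zmod_eq_zero_iff_dvd] at hdvd
    obtain ⟨r, hr⟩ : ∃ r, r = rootMultiplicity (g : ZMod p)
      ((f' (u : ZMod p)).map (evalRingHom (u : ZMod p))) := ⟨_, rfl⟩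
    rw [← hr] at hdvd
    have h1 := SumMlt_shift p u g Ψ
    have h2 : (((sh u g Ψ).map (mapRingHom (Int.castRingHom (ZMod p)))).coeff r).coeff
        (e (u : ZMod p)) = 0 := by
      rw [coeff_map, coe_mapRingHom, coeff_map, eq_intCast]
      exact hdvd
    rw [h1, ← hf, Int.cast_natCast, Int.cast_natCast, he (u : ZMod p), SumMlt_coeff] at h2
    rw [rootMultiplicity_eq_natTrailingDegree] at hr
    have h3 : ((f' (u : ZMod p)).map (evalRingHom (u : ZMod p))).comp (X + C (g : ZMod p)) ≠ 0 := by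
      intro h0
      apply hq (u : ZMod p)
      rw [← taylor_apply] at h0
      exact (taylor_eq_zero _ _).1 h0
    apply h3
    rw [← trailingCoeff_eq_zero]
    rw [hr] at h2
    exact h2
  obtain ⟨n, hn⟩ : ∃ n, n = f.natDegree := ⟨_, rfl⟩
  have hlc : f.coeff n ≠ 0 := by
    rw [hn, coeff_natDegree, ne_eq, leadingCoeff_eq_zero]
    exact hf0
  have he1 : ∀ u, e u ≤ rootMultiplicity u (f.coeff n) := by
    intro u
    rw [le_rootMultiplicity_iff hlc]
    have h1 : f.coeff n = (X - C u) ^ e u * (f' u).coeff n := by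
      conv_lhs => rw [he u]
      rw [coeff_C_mul]
    exact ⟨_, h1⟩
  have hq1 : ∀ u, ((f' u).map (evalRingHom u)).natDegree ≤ n := by
    intro u
    refine natDegree_map_le.trans (le_of_eq ?_)
    have h1 : (X - C u) ^ e u ≠ 0 := pow_ne_zero _ (X_sub_C_ne_zero u)
    rw [hn]
    conv_rhs => rw [he u]
    rw [natDegree_C_mul h1]
  have hdeg : (f.coeff n).natDegree + n ≤ tdg Ψ := by
    have h1 : (f.coeff n).natDegree ≤ (Ψ.coeff n).natDegree := by
      rw [hf, coeff_map, coe_mapRingHom]
      exact natDegree_map_le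
    have h2 : Ψ.coeff n ≠ 0 := by
      intro h0
      apply hlc
      rw [hf, coeff_map, h0, map_zero]
    have h3 : (Ψ.coeff n).natDegree + n ≤ tdg Ψ :=
      Finset.le_sup (f := fun j => (Ψ.coeff j).natDegree + j) (mem_support_iff.2 h2)
    omega
  calc ∑ u ∈ Finset.range p, ∑ g ∈ Finset.range p, mlt p u g Ψ
      ≤ ∑ u ∈ Finset.range p, ∑ g ∈ Finset.range p, (e (u : ZMod p) +
          rootMultiplicity (g : ZMod p) ((f' (u : ZMod p)).map (evalRingHom (u : ZMod p)))) :=
        Finset.sum_le_sum fun u _ => Finset.sum_le_sum fun g _ => hm u g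
    _ = ∑ u : ZMod p, ∑ g : ZMod p, (e u + rootMultiplicity g ((f' u).map (evalRingHom u))) := by
        rw [← SumMlt_range p (fun u => ∑ g : ZMod p, (e u +
          rootMultiplicity g ((f' u).map (evalRingHom u))))]
        refine Finset.sum_congr rfl fun u _ => ?_
        exact SumMlt_range p (fun g => e (u : ZMod p) +
          rootMultiplicity g ((f' (u : ZMod p)).map (evalRingHom (u : ZMod p))))
    _ ≤ ∑ u : ZMod p, (p * rootMultiplicity u (f.coeff n) + n) := by
        refine Finset.sum_le_sum fun u _ => ?_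
        rw [Finset.sum_add_distrib, Finset.sum_const, Finset.card_univ, ZMod.card, smul_eq_mul]
        exact Nat.add_le_add (Nat.mul_le_mul_left _ (he1 u))
          ((SumMlt_roots p _).trans (hq1 u))
    _ = p * (∑ u : ZMod p, rootMultiplicity u (f.coeff n)) + p * n := by
        rw [Finset.sum_add_distrib, ← Finset.mul_sum, Finset.sum_const, Finset.card_univ,
          ZMod.card, smul_eq_mul]
    _ ≤ p * (f.coeff n).natDegree + p * n :=
        Nat.add_le_add_right (Nat.mul_le_mul_left _ (SumMlt_roots p _)) _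
    _ = p * ((f.coeff n).natDegree + n) := by ring
    _ ≤ p * tdg Ψ := Nat.mul_le_mul_left _ hdeg

end FDP
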