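import Pool.Agent.W_fd120a_h8.Light
import Pool.Agent.W_fd120a_h8.ClassRk
import Pool.Agent.W_fd120a_h8.SumMlt
import Pool.Agent.W_fd120a_h8.Grouping
import Pool.Agent.W_fd120a_h8.SizeLow

set_option autoImplicit false

open Finset Polynomial
open scoped Classical

namespace FDP

theorem LightSum_num (b L E : ℕ) (hb : 1 ≤ b) (hL : 8000 * b ≤ L) (hE : L ^ 16 < E) :
    4 ≤ E / 2 ∧ E / 2 < E ∧ 1 ≤ E / L ^ 2 ∧ E ≤ 2 * L ^ 2 * (E / L ^ 2) ∧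
      4 * (500 * b * (E / 2) * (2 * (E / L ^ 2))) ≤ (E / 2 + 1) * (E / 2 + 2) := by
  have hL1 : 8000 ≤ L := by omega
  have hL2 : L ≤ L ^ 2 := Nat.le_self_pow (by norm_num) L
  have hL16 : L ^ 2 ≤ L ^ 16 := Nat.pow_le_pow_right (by omega) (by norm_num)
  have hpos : 0 < L ^ 2 := by omega
  have hm : 1 ≤ E / L ^ 2 := Nat.div_pos (by omega) hpos
  obtain ⟨m, hmdef⟩ : ∃ m, m = E / L ^ 2 := ⟨_, rfl⟩
  obtain ⟨k, hkdef⟩ : ∃ k, k = E / 2 := ⟨_, rfl⟩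
  have h1 : m * L ^ 2 ≤ E := by rw [hmdef]; exact Nat.div_mul_le_self E (L ^ 2)
  have h2 : E < L ^ 2 * (m + 1) := by rw [hmdef]; exact Nat.lt_mul_div_succ E hpos
  rw [← hmdef] at hm ⊢
  rw [← hkdef]
  refine ⟨by omega, by omega, hm, ?_, ?_⟩
  · have h3 : L ^ 2 * 1 ≤ L ^ 2 * m := Nat.mul_le_mul_left _ hm
    have h4 : L ^ 2 * (m + 1) = L ^ 2 * m + L ^ 2 * 1 := by ring
    have h5 : 2 * L ^ 2 * m = L ^ 2 * m + L ^ 2 * m := by ring
    omega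
  · have h3 : m * L ^ 2 ≤ 2 * (k + 1) := by omega
    have h4 : (4000 * b * m) * L ^ 2 ≤ (k + 1) * L ^ 2 := by
      calc (4000 * b * m) * L ^ 2 = 4000 * b * (m * L ^ 2) := by ring
        _ ≤ 4000 * b * (2 * (k + 1)) := Nat.mul_le_mul_left _ h3
        _ = (k + 1) * (8000 * b) := by ring
        _ ≤ (k + 1) * L ^ 2 := Nat.mul_le_mul_left _ (hL.trans hL2)
    have h5 : 4000 * b * m ≤ k + 1 := Nat.le_of_mul_le_mul_right h4 hpos
    calc 4 * (500 * b * k * (2 * m)) = (4000 * b * m) * k := by ring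
      _ ≤ (k + 1) * (k + 2) := Nat.mul_le_mul h5 (by omega)

theorem LightSum_cls (p : ℕ) (hp : p.Prime) (v : Ln) :
    cls p v ∈ Finset.range p ×ˢ Finset.range p := by
  have : NeZero p := ⟨hp.ne_zero⟩
  unfold cls
  rw [Finset.mem_product, Finset.mem_range, Finset.mem_range]
  exact ⟨ZMod.val_lt _, ZMod.val_lt _⟩

/-- the rank of the vertices of a group -/
theorem LightSum_rk (b L : ℕ) (hb : 1 ≤ b) (hL : 2 ≤ L) (V U1 : Finset Ln) (hV : Adm b L V)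
    (hU : U1 ⊆ V) (Ψ : ℤ[X][X]) (hΨ : Irreducible Ψ) (hΨ1 : 1 ≤ Ψ.natDegree)
    (hvan : ∀ v ∈ U1, Van Ψ v) (p : ℕ) (hp : p.Prime) (hpL : L < p) (k : ℕ) (hk : 4 ≤ k)
    (hkL : k ≤ L ^ b) (B : Finset (ℕ × ℕ)) (m : ℕ)
    (hB : ∑ a ∈ B, mlt p a.1 a.2 Ψ ≤ 2 * m) :
    rk k (U1.filter (fun v => ¬ (p : ℤ) ∣ v.2.1 ∧ cls p v ∈ B)) ≤ 500 * b * k * (2 * m) := by
  have hsub : U1.filter (fun v => ¬ (p : ℤ) ∣ v.2.1 ∧ cls p v ∈ B) ⊆
      B.biUnion (fun a => U1.filter (fun v => ¬ (p : ℤ) ∣ v.2.1 ∧ cls p v = a)) := by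
    intro v hv
    rw [Finset.mem_filter] at hv
    rw [Finset.mem_biUnion]
    exact ⟨cls p v, hv.2.2, Finset.mem_filter.2 ⟨hv.1, hv.2.1, rfl⟩⟩
  calc rk k (U1.filter (fun v => ¬ (p : ℤ) ∣ v.2.1 ∧ cls p v ∈ B))
      ≤ rk k (B.biUnion (fun a => U1.filter (fun v => ¬ (p : ℤ) ∣ v.2.1 ∧ cls p v = a))) :=
        rk_mono k _ _ hsub
    _ ≤ ∑ a ∈ B, rk k (U1.filter (fun v => ¬ (p : ℤ) ∣ v.2.1 ∧ cls p v = a)) :=
        rk_biUnion k B _
    _ ≤ ∑ a ∈ B, 500 * b * k * mlt p a.1 a.2 Ψ := by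
        refine Finset.sum_le_sum fun a _ => ?_
        refine class_rk b L hb hL V hV Ψ p hp (prim Ψ hΨ hΨ1 p hp) hpL k hk hkL _
          ((Finset.filter_subset _ _).trans hU) ?_ a ?_ ?_
        · intro v hv
          exact (Finset.mem_filter.1 hv).2.1
        · intro v hv
          exact (Finset.mem_filter.1 hv).2.2
        · intro v hv
          exact hvan v (Finset.mem_filter.1 hv).1
    _ = 500 * b * k * ∑ a ∈ B, mlt p a.1 a.2 Ψ := by rw [Finset.mul_sum]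
    _ ≤ 500 * b * k * (2 * m) := Nat.mul_le_mul_left _ hB

theorem LightSum_pow (L a c d : ℕ) (h : a + c = d) : L ^ a * L ^ c = L ^ d := by
  rw [← pow_add, h]

/-- the final computation -/
theorem LightSum_fin (b L : ℕ) (hb : 1000 ≤ b) (hL : 400 ≤ L) (p E k n1 n2 g g1 g2 : ℕ)
    (hp : p ≤ L ^ 100) (hE : E ≤ L ^ (b - 400)) (hk : k ≤ E)
    (h1 : n1 * g1 ≤ L ^ 2 * g) (h2 : n2 * g2 ≤ L ^ 2 * g)
    (hg1 : L ^ (b + 500) ≤ g1) (hg2 : L ^ (b + 500) ≤ g2) (hs : E * g2 ≤ L ^ 40 * n1) :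
    100 * ((2 * p * L ^ 2 + 1) *
      (n2 * (k * L ^ 11) + 2 * (E * k) * L ^ 10 * (g2 * L ^ 2))) ≤ g := by
  have hL0 : 0 < L := by omega
  have hN : 2 * p * L ^ 2 + 1 ≤ L ^ 103 := by
    have e1 : L ^ 103 = L * (L ^ 100 * L ^ 2) := by ring
    have e2 : p * L ^ 2 ≤ L ^ 100 * L ^ 2 := Nat.mul_le_mul_right _ hp
    have e3 : 1 ≤ L ^ 100 * L ^ 2 := Nat.one_le_iff_ne_zero.2 (by positivity)
    have e4 : 3 * (L ^ 100 * L ^ 2) ≤ L * (L ^ 100 * L ^ 2) := Nat.mul_le_mul_right _ (by omega)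
    have e5 : 2 * p * L ^ 2 = 2 * (p * L ^ 2) := by ring
    rw [e1, e5]
    omega
  have hkL : k ≤ L ^ (b - 400) := hk.trans hE
  have hX : 400 * (n2 * L ^ (b - 286)) ≤ g := by
    have e1 : (n2 * L ^ (b - 286) * L ^ 784) * L ^ 2 ≤ g * L ^ 2 := by
      calc (n2 * L ^ (b - 286) * L ^ 784) * L ^ 2 = n2 * (L ^ (b - 286) * L ^ 784 * L ^ 2) := by
            ring
        _ = n2 * L ^ (b + 500) := by
            rw [LightSum_pow L (b - 286) 784 (b + 498) (by omega),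
              LightSum_pow L (b + 498) 2 (b + 500) (by omega)]
        _ ≤ n2 * g2 := Nat.mul_le_mul_left _ hg2
        _ ≤ g * L ^ 2 := by rw [mul_comm g]; exact h2
    have e2 := Nat.le_of_mul_le_mul_right e1 (by positivity)
    have e3 : 400 ≤ L ^ 784 := hL.trans (Nat.le_self_pow (Nat.succ_ne_zero 783) L)
    calc 400 * (n2 * L ^ (b - 286)) ≤ L ^ 784 * (n2 * L ^ (b - 286)) :=
          Nat.mul_le_mul_right _ e3
      _ = n2 * L ^ (b - 286) * L ^ 784 := by ring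
      _ ≤ g := e2
  have hY : 400 * (n1 * L ^ (b - 245)) ≤ g := by
    have e1 : (n1 * L ^ (b - 245) * L ^ 743) * L ^ 2 ≤ g * L ^ 2 := by
      calc (n1 * L ^ (b - 245) * L ^ 743) * L ^ 2 = n1 * (L ^ (b - 245) * L ^ 743 * L ^ 2) := by
            ring
        _ = n1 * L ^ (b + 500) := by
            rw [LightSum_pow L (b - 245) 743 (b + 498) (by omega),
              LightSum_pow L (b + 498) 2 (b + 500) (by omega)]
        _ ≤ n1 * g1 := Nat.mul_le_mul_left _ hg1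
        _ ≤ g * L ^ 2 := by rw [mul_comm g]; exact h1
    have e2 := Nat.le_of_mul_le_mul_right e1 (by positivity)
    have e3 : 400 ≤ L ^ 743 := hL.trans (Nat.le_self_pow (by norm_num) L)
    calc 400 * (n1 * L ^ (b - 245)) ≤ L ^ 743 * (n1 * L ^ (b - 245)) :=
          Nat.mul_le_mul_right _ e3
      _ = n1 * L ^ (b - 245) * L ^ 743 := by ring
      _ ≤ g := e2
  have hA : L ^ 103 * (n2 * (k * L ^ 11)) ≤ n2 * L ^ (b - 286) := by
    calc L ^ 103 * (n2 * (k * L ^ 11)) = n2 * (k * (L ^ 103 * L ^ 11)) := by ring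
      _ ≤ n2 * (L ^ (b - 400) * (L ^ 103 * L ^ 11)) :=
          Nat.mul_le_mul_left _ (Nat.mul_le_mul_right _ hkL)
      _ = n2 * L ^ (b - 286) := by
          rw [LightSum_pow L 103 11 114 (by omega), LightSum_pow L (b - 400) 114 (b - 286) (by omega)]
  have hB : L ^ 103 * (2 * (E * k) * L ^ 10 * (g2 * L ^ 2)) ≤ 2 * (n1 * L ^ (b - 245)) := by
    calc L ^ 103 * (2 * (E * k) * L ^ 10 * (g2 * L ^ 2))
        = 2 * ((E * g2) * (k * (L ^ 103 * L ^ 10 * L ^ 2))) := by ring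
      _ ≤ 2 * ((L ^ 40 * n1) * (L ^ (b - 400) * (L ^ 103 * L ^ 10 * L ^ 2))) :=
          Nat.mul_le_mul_left _ (Nat.mul_le_mul hs (Nat.mul_le_mul_right _ hkL))
      _ = 2 * (n1 * (L ^ 40 * (L ^ (b - 400) * (L ^ 103 * L ^ 10 * L ^ 2)))) := by ring
      _ = 2 * (n1 * L ^ (b - 245)) := by
          rw [LightSum_pow L 103 10 113 (by omega), LightSum_pow L 113 2 115 (by omega),
            LightSum_pow L (b - 400) 115 (b - 285) (by omega),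
            LightSum_pow L 40 (b - 285) (b - 245) (by omega)]
  calc 100 * ((2 * p * L ^ 2 + 1) *
      (n2 * (k * L ^ 11) + 2 * (E * k) * L ^ 10 * (g2 * L ^ 2)))
      ≤ 100 * (L ^ 103 * (n2 * (k * L ^ 11) + 2 * (E * k) * L ^ 10 * (g2 * L ^ 2))) :=
        Nat.mul_le_mul_left _ (Nat.mul_le_mul_right _ hN)
    _ = 100 * (L ^ 103 * (n2 * (k * L ^ 11)) +
          L ^ 103 * (2 * (E * k) * L ^ 10 * (g2 * L ^ 2))) := by rw [mul_add]
    _ ≤ g := by omega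

/-- The light classes modulo a small prime carry few edges.
Proof.  `E = tdg Ψ`, `k = E / 2` (floor; `4 ≤ k ≤ L^b`, `k < E`), `m = E / L^2` (floor, `≥ 1`,
`≥ E / (2 L^2)`), `μ a = mlt p a.1 a.2 Ψ`.  Let `A` be the set of the `a ∈ range p ×ˢ range p` with
`μ a * L^2 ≤ E`; `Σ_{a ∈ A} μ a ≤ p E` (`sum_mlt`, `prim`).  `grouping` (`T = p E`) gives
`f ≤ T / m ≤ 2 p L^2` with `Σ_{f a = i} μ a ≤ 2 m ≤ 2 E / L^2`.  For a group `i` let `A_i` be the set of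
the `v ∈ U1` with `p ∤ y`, `cls p v ∈ A`, `f (cls p v) = i`; by `class_rk` and `rk_biUnion`
`rk k A_i ≤ 500 b k * 2 m ≤ 1000 b k E / L^2`, so `4 rk k A_i ≤ (k+1)(k+2)` for `L` large
(`k + 1 ≥ E / 2`).  By `light` the edges from `A_i` are at most
`|U2| k L^11 + 2 E k L^12 g2`.  There are at most `2 p L^2 + 1 ≤ L^103` groups; the total is at most
`|U2| L^(b-400) L^114 + E L^(b-400) L^116 g2 ≤ |G| / 100`, because `|U2| g2 ≤ L^2 |G|`,
`g2 ≥ L^(b+500)`, and `|U2| ≥ E g1 / L^40 ≥ E L^(b+460)` (`size_lower`). -/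
theorem light_edges (b : ℕ) (hb : 1000 ≤ b) : ∃ L0 : ℕ, ∀ L, L0 ≤ L →
    ∀ (V U1 U2 : Finset Ln) (G : Finset (Ln × Ln)) (g1 g2 : ℕ), Sys b L 2 V U1 U2 G g1 g2 →
    ∀ Ψ : ℤ[X][X], Irreducible Ψ → 1 ≤ Ψ.natDegree → L ^ 16 < tdg Ψ → tdg Ψ ≤ L ^ (b - 400) →
    (∀ v ∈ U1, Van Ψ v) → (∀ v ∈ U2, Van Ψ v) → ∀ p : ℕ, p.Prime → L < p → p ≤ L ^ 100 →
    100 * (G.filter (fun e => ¬ (p : ℤ) ∣ e.1.2.1 ∧ mltv p Ψ e.1 * L ^ 2 ≤ tdg Ψ)).card ≤
      G.card := by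
  obtain ⟨L1, hL1⟩ := light b hb
  obtain ⟨L2, hL2⟩ := size_lower b hb
  refine ⟨L1 + L2 + 8000 * b, ?_⟩
  intro L hL V U1 U2 G g1 g2 hsys Ψ hΨ hΨ1 hE1 hE2 hv1 hv2 p hp hpL hpL2
  obtain ⟨E, hE⟩ : ∃ E, E = tdg Ψ := ⟨_, rfl⟩
  have hsize := (hL2 L (by omega) V U1 U2 G g1 g2 hsys Ψ hΨ hΨ1 hE2 hv1 hv2).2
  have hlight := hL1 L (by omega) V U1 U2 G g1 g2 hsys Ψ hΨ hΨ1 hv2
  rw [← hE] at hE1 hE2 hsize hlight ⊢
  obtain ⟨hk4, hkE, hm1, hEm, hnum⟩ := LightSum_num b L E (by omega) (by omega) hE1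
  obtain ⟨k, hk⟩ : ∃ k, k = E / 2 := ⟨_, rfl⟩
  obtain ⟨m, hm⟩ : ∃ m, m = E / L ^ 2 := ⟨_, rfl⟩
  rw [← hk] at hk4 hkE hnum
  rw [← hm] at hm1 hEm hnum
  have hLpos : 0 < L := by omega
  have hkLb : k ≤ L ^ b := by
    have h1 : L ^ (b - 400) ≤ L ^ b := Nat.pow_le_pow_right hLpos (by omega)
    omega
  obtain ⟨μ, hμ⟩ : ∃ μ : ℕ × ℕ → ℕ, μ = fun a => mlt p a.1 a.2 Ψ := ⟨_, rfl⟩
  obtain ⟨A, hA⟩ : ∃ A : Finset (ℕ × ℕ), A = (Finset.range p ×ˢ Finset.range p).filter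
    (fun a => μ a * L ^ 2 ≤ E) := ⟨_, rfl⟩
  have hAm : ∀ a ∈ A, μ a ≤ m := by
    intro a ha
    rw [hA, Finset.mem_filter] at ha
    rw [hm]
    have hL2pos : 0 < L ^ 2 := Nat.pow_pos hLpos
    exact (Nat.le_div_iff_mul_le hL2pos).2 ha.2
  have hAT : ∑ a ∈ A, μ a ≤ p * E := by
    calc ∑ a ∈ A, μ a ≤ ∑ a ∈ Finset.range p ×ˢ Finset.range p, μ a := by
          rw [hA]
          exact Finset.sum_le_sum_of_subset (Finset.filter_subset _ _)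
      _ = ∑ u ∈ Finset.range p, ∑ g ∈ Finset.range p, mlt p u g Ψ := by
          rw [Finset.sum_product, hμ]
      _ ≤ p * E := by
          rw [hE]
          exact sum_mlt p hp Ψ (prim Ψ hΨ hΨ1 p hp)
  obtain ⟨f, hf1, hf2⟩ := grouping A μ m (p * E) hm1 hAm hAT
  have hTm : p * E / m ≤ 2 * p * L ^ 2 := by
    rw [Nat.div_le_iff_le_mul (by omega)]
    have h1 : p * E ≤ p * (2 * L ^ 2 * m) := Nat.mul_le_mul_left _ hEm
    have h2 : p * (2 * L ^ 2 * m) = 2 * p * L ^ 2 * m := by ring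
    omega
  -- the groups
  obtain ⟨Ag, hAg⟩ : ∃ Ag : ℕ → Finset Ln, Ag = fun i => U1.filter
    (fun v => ¬ (p : ℤ) ∣ v.2.1 ∧ cls p v ∈ A.filter (fun a => f a = i)) := ⟨_, rfl⟩
  have hrk : ∀ i, 4 * rk k (Ag i) ≤ (k + 1) * (k + 2) := by
    intro i
    have h1 : rk k (Ag i) ≤ 500 * b * k * (2 * m) := by
      rw [hAg]
      refine LightSum_rk b L (by omega) (by omega) V U1 hsys.adm hsys.s1 Ψ hΨ hΨ1 hv1 p hp hpL k
        hk4 hkLb (A.filter (fun a => f a = i)) m ?_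
      have h2 := hf2 i
      rw [hμ] at h2
      exact h2
    exact (Nat.mul_le_mul_left 4 h1).trans hnum
  have hcard : ∀ i, (G.filter (fun e => e.1 ∈ Ag i)).card ≤
      U2.card * (k * L ^ 11) + 2 * (E * k) * L ^ 10 * (g2 * L ^ 2) := by
    intro i
    refine hlight k (by omega) hkE (Ag i) ?_ (hrk i)
    rw [hAg]
    exact Finset.filter_subset _ _
  have hsub : G.filter (fun e => ¬ (p : ℤ) ∣ e.1.2.1 ∧ mltv p Ψ e.1 * L ^ 2 ≤ E) ⊆
      (Finset.range (2 * p * L ^ 2 + 1)).biUnion (fun i => G.filter (fun e => e.1 ∈ Ag i)) := by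
    intro e he
    rw [Finset.mem_filter] at he
    obtain ⟨heG, hey, hem⟩ := he
    have hcA : cls p e.1 ∈ A := by
      rw [hA, Finset.mem_filter]
      refine ⟨LightSum_cls p hp e.1, ?_⟩
      rw [hμ]
      exact hem
    rw [Finset.mem_biUnion]
    refine ⟨f (cls p e.1), ?_, ?_⟩
    · rw [Finset.mem_range]
      have := hf1 _ hcA
      omega
    · rw [Finset.mem_filter, hAg]
      refine ⟨heG, Finset.mem_filter.2 ⟨(hsys.edge e heG).1, hey, ?_⟩⟩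
      exact Finset.mem_filter.2 ⟨hcA, rfl⟩
  have htot : (G.filter (fun e => ¬ (p : ℤ) ∣ e.1.2.1 ∧ mltv p Ψ e.1 * L ^ 2 ≤ E)).card ≤
      (2 * p * L ^ 2 + 1) * (U2.card * (k * L ^ 11) + 2 * (E * k) * L ^ 10 * (g2 * L ^ 2)) := by
    calc _ ≤ _ := Finset.card_le_card hsub
      _ ≤ ∑ i ∈ Finset.range (2 * p * L ^ 2 + 1), (G.filter (fun e => e.1 ∈ Ag i)).card :=
          Finset.card_biUnion_le
      _ ≤ ∑ _i ∈ Finset.range (2 * p * L ^ 2 + 1),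
          (U2.card * (k * L ^ 11) + 2 * (E * k) * L ^ 10 * (g2 * L ^ 2)) :=
          Finset.sum_le_sum fun i _ => hcard i
      _ = _ := by rw [Finset.sum_const, Finset.card_range, smul_eq_mul]
  exact (Nat.mul_le_mul_left 100 htot).trans (LightSum_fin b L hb (by omega) p E k U1.card U2.card
    G.card g1 g2 hpL2 hE2 hkE.le hsys.lo1 hsys.lo2 hsys.big1 hsys.big2 hsize)

end FDP
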