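import Pool.Agent.W_fd120a_h8.S2Defs
import Pool.Agent.W_fd120a_h8.Local

set_option autoImplicit false

open Finset Polynomial
open scoped Classical

namespace FDP

/-- If the class of `v` modulo `p` contains a zero of the form, then `p` divides the value of the
form at `v`. -/
private theorem cov_van_dvd (p : ℕ) (hp : p.Prime) (V0 : Finset Ln) (hy0 : ∀ w ∈ V0, w.2.1 ≠ 0)
    (d : ℕ) (Φ : ℤ[X][X]) (hd : tdg Φ ≤ d) (hV0 : ∀ w ∈ V0, Van Φ w) (v : Ln)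
    (hv : Cov p V0 v) : (p : ℤ) ∣ hm d Φ v := by
  haveI : Fact p.Prime := ⟨hp⟩
  obtain ⟨hpv, w, hw, hpw, hcl⟩ := hv
  have hy : (v.2.1 : ZMod p) ≠ 0 := fun h =>
    hpv ((ZMod.intCast_zmod_eq_zero_iff_dvd _ _).1 h)
  have hy' : (w.2.1 : ZMod p) ≠ 0 := fun h =>
    hpw ((ZMod.intCast_zmod_eq_zero_iff_dvd _ _).1 h)
  have e1 : (w.1 : ZMod p) * (w.2.1 : ZMod p)⁻¹ = (v.1 : ZMod p) * (v.2.1 : ZMod p)⁻¹ :=
    ZMod.val_injective p (congrArg Prod.fst hcl)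
  have e2 : (w.2.2 : ZMod p) * (w.2.1 : ZMod p)⁻¹ = (v.2.2 : ZMod p) * (v.2.1 : ZMod p)⁻¹ :=
    ZMod.val_injective p (congrArg Prod.snd hcl)
  have h0 : hm d Φ w = 0 := (van_iff d Φ hd w (hy0 w hw)).1 (hV0 w hw)
  have h1 := hm_cast (k := ZMod p) d Φ hd w ((w.1 : ZMod p) * (w.2.1 : ZMod p)⁻¹)
    ((w.2.2 : ZMod p) * (w.2.1 : ZMod p)⁻¹) (inv_mul_cancel_right₀ hy' _)
    (inv_mul_cancel_right₀ hy' _)
  rw [h0, Int.cast_zero] at h1
  have h2 : ev ((w.1 : ZMod p) * (w.2.1 : ZMod p)⁻¹) ((w.2.2 : ZMod p) * (w.2.1 : ZMod p)⁻¹) Φ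
      = 0 := by
    rcases mul_eq_zero.1 h1.symm with h | h
    · exact absurd h (pow_ne_zero _ hy')
    · exact h
  rw [e1, e2] at h2
  have h3 := hm_cast (k := ZMod p) d Φ hd v ((v.1 : ZMod p) * (v.2.1 : ZMod p)⁻¹)
    ((v.2.2 : ZMod p) * (v.2.1 : ZMod p)⁻¹) (inv_mul_cancel_right₀ hy _)
    (inv_mul_cancel_right₀ hy _)
  rw [h2, mul_zero] at h3
  exact (ZMod.intCast_zmod_eq_zero_iff_dvd _ _).1 h3

/-- the size of the values of the form -/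
private theorem cov_van_size (b L d : ℕ) (hb : 1000 ≤ b) (hL : 1000 ≤ L) (hd : d ≤ L ^ 16) :
    ((d : ℤ) + 1) ^ 2 * (L : ℤ) ^ (52 * b * d) * ((L : ℤ) ^ (51 * b + 10)) ^ d <
      ((L ^ 20 : ℕ) : ℤ) ^ (6 * b * L ^ 16 + 1) := by
  have h1 : (d + 1) ^ 2 ≤ L ^ d :=
    (local_four d).trans (Nat.pow_le_pow_left (by omega) d)
  have h2 : ((d : ℤ) + 1) ^ 2 ≤ (L : ℤ) ^ d := by exact_mod_cast h1
  have hL1 : (1 : ℤ) < L := by exact_mod_cast (show 1 < L by omega)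
  calc ((d : ℤ) + 1) ^ 2 * (L : ℤ) ^ (52 * b * d) * ((L : ℤ) ^ (51 * b + 10)) ^ d
      = ((d : ℤ) + 1) ^ 2 * ((L : ℤ) ^ (52 * b * d) * ((L : ℤ) ^ (51 * b + 10)) ^ d) := by
        ring
    _ ≤ (L : ℤ) ^ d * ((L : ℤ) ^ (52 * b * d) * ((L : ℤ) ^ (51 * b + 10)) ^ d) :=
        mul_le_mul_of_nonneg_right h2 (by positivity)
    _ = (L : ℤ) ^ ((103 * b + 11) * d) := by
        rw [← pow_mul, ← pow_add, ← pow_add]
        congr 1
        ring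
    _ < (L : ℤ) ^ (20 * (6 * b * L ^ 16 + 1)) := by
        refine pow_lt_pow_right₀ hL1 ?_
        calc (103 * b + 11) * d ≤ (103 * b + 11) * L ^ 16 := Nat.mul_le_mul_left _ hd
          _ ≤ (120 * b) * L ^ 16 := Nat.mul_le_mul_right _ (by omega)
          _ < 20 * (6 * b * L ^ 16 + 1) := by
              have : 20 * (6 * b * L ^ 16 + 1) = (120 * b) * L ^ 16 + 20 := by ring
              omega
    _ = ((L ^ 20 : ℕ) : ℤ) ^ (6 * b * L ^ 16 + 1) := by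
        push_cast
        rw [← pow_mul]

/-- If a form of degree at most `L ^ 16` vanishes on `V0`, and the class of `v` contains an element of
`V0` for at least `L ^ 20 / 2` primes of `(L ^ 20, L ^ 21]`, then the form vanishes at `v`.
Proof.  Let `p` be such a prime, `w ∈ V0` with `p ∤ y(w)`, `p ∤ y(v)`, `cls p w = cls p v`.  In
`ZMod p` put `u = x/y`, `g = c/y` (the same for `v` and `w`): `hm d Φ w = 0` gives
`ev u g Φ = 0` and so `hm d Φ v = 0` in `ZMod p` (`hm_cast`), `p ∣ hm d Φ v`.  As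
`|hm d Φ v| ≤ (d+1)^2 L^(52bd) L^((51b+10)d) ≤ L^(104 b L^16) < (L^20)^(6 b L^16 + 1)` (`hm_abs_le`),
at most `6 b L^16 < L^20 / 2` primes larger than `L^20` divide `hm d Φ v` unless it is zero
(`primeDiv_card_nat`). -/
theorem cov_van (b : ℕ) (hb : 1000 ≤ b) : ∃ L0 : ℕ, ∀ L, L0 ≤ L → ∀ V : Finset Ln, Adm b L V →
    ∀ V0 : Finset Ln, V0 ⊆ V → ∀ (d : ℕ) (Φ : ℤ[X][X]), 1 ≤ d → d ≤ L ^ 16 → tdg Φ ≤ d →
    (∀ j i, |(Φ.coeff j).coeff i| ≤ (L : ℤ) ^ (52 * b * d)) → (∀ w ∈ V0, Van Φ w) →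
    ∀ v ∈ V, L ^ 20 ≤ 2 * ((PrS L).filter (fun p => Cov p V0 v)).card → Van Φ v := by
  refine ⟨1000 + 12 * b, fun L hL V hV V0 hV0V d Φ _ hdL hΦd hΦH hΦ0 v hv hcov => ?_⟩
  have hL0 : 1000 ≤ L := by omega
  have hLZ : (1 : ℤ) ≤ L := by exact_mod_cast (show 1 ≤ L by omega)
  rw [van_iff d Φ hΦd v (hV.ynz v hv)]
  by_contra hne
  have hM : (L : ℤ) ^ (b + 10) ≤ (L : ℤ) ^ (51 * b + 10) := pow_le_pow_right₀ hLZ (by omega)
  have h1 := hm_abs_le d Φ v ((L : ℤ) ^ (52 * b * d)) ((L : ℤ) ^ (51 * b + 10))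
    (one_le_pow₀ hLZ) hΦH ((hV.bx v hv).trans hM) ((hV.bdy v hv).trans hM) (hV.bc v hv)
  have h2 := primeDiv_card_nat (hm d Φ v) hne (L ^ 20) (6 * b * L ^ 16)
    (Nat.one_le_pow _ _ (by omega)) (lt_of_le_of_lt h1 (cov_van_size b L d hb hL0 hdL))
    (PrS L) (by
      intro p hp
      unfold PrS at hp
      rw [mem_filter, mem_Ioc] at hp
      exact ⟨hp.2, hp.1.1⟩)
  have h3 : ((PrS L).filter (fun p => Cov p V0 v)).card ≤
      ((PrS L).filter (fun p : ℕ => (p : ℤ) ∣ hm d Φ v)).card := by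
    refine Finset.card_le_card fun p hp => ?_
    rw [mem_filter] at hp ⊢
    refine ⟨hp.1, cov_van_dvd p ?_ V0 (fun w hw => hV.ynz w (hV0V hw)) d Φ hΦd hΦ0 v hp.2⟩
    have h := hp.1
    unfold PrS at h
    exact (mem_filter.1 h).2
  have h4 : 2 * (6 * b * L ^ 16) < L ^ 20 := by
    calc 2 * (6 * b * L ^ 16) = (12 * b) * L ^ 16 := by ring
      _ < L * L ^ 16 := Nat.mul_lt_mul_of_pos_right (by omega) (Nat.pow_pos (by omega))
      _ = L ^ 17 := by ring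
      _ ≤ L ^ 20 := Nat.pow_le_pow_right (by omega) (by omega)
  have h5 := h3.trans h2
  omega

end FDP
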