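import Pool.Agent.W_fd120a_h8.WalshA
import Pool.Agent.W_fd120a_h8.WalshB
import Pool.Agent.W_fd120a_h8.SizeLow

set_option autoImplicit false

open Finset Polynomial
open scoped Classical

namespace FDP

/-- the edges whose first vertex lies on a curve coprime to `Ψ` are few -/
theorem Walsh_edges (b L : ℕ) (V U1 U2 : Finset Ln) (G : Finset (Ln × Ln)) (g1 g2 : ℕ)
    (hS : Sys b L 2 V U1 U2 G g1 g2) (Ψ Φ : ℤ[X][X]) (hΨ : Irreducible Ψ) (h1 : 1 ≤ Ψ.natDegree)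
    (hΦ : ¬ Ψ ∣ Φ) (hv : ∀ v ∈ U1, Van Ψ v) (hd : tdg Φ ≤ L ^ 16) :
    (G.filter (fun e => Van Φ e.1)).card ≤ 2 * (tdg Ψ * L ^ 16) * L ^ 10 * (g1 * L ^ 2) := by
  set W : Finset Ln := V.filter (fun v => Van Ψ v ∧ Van Φ v) with hW
  have hWc : W.card ≤ 2 * (tdg Ψ * L ^ 16) * L ^ 10 := by
    refine (bezout_card b L V hS.adm Ψ Φ hΨ h1 hΦ).trans ?_
    gcongr
  have hsub : G.filter (fun e => Van Φ e.1) ⊆
      (W ∩ U1).biUnion (fun v => (U2.filter (fun w => (v, w) ∈ G)).image (fun w => (v, w))) := by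
    intro e he
    rw [mem_filter] at he
    obtain ⟨he1, he2⟩ := he
    obtain ⟨hu1, hu2, _⟩ := hS.edge e he1
    rw [mem_biUnion]
    refine ⟨e.1, ?_, ?_⟩
    · rw [mem_inter, hW, mem_filter]
      exact ⟨⟨hS.s1 hu1, hv _ hu1, he2⟩, hu1⟩
    · rw [mem_image]
      exact ⟨e.2, mem_filter.2 ⟨hu2, he1⟩, rfl⟩
  calc (G.filter (fun e => Van Φ e.1)).card
      ≤ ((W ∩ U1).biUnion
          (fun v => (U2.filter (fun w => (v, w) ∈ G)).image (fun w => (v, w)))).card :=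
        card_le_card hsub
    _ ≤ ∑ v ∈ W ∩ U1, ((U2.filter (fun w => (v, w) ∈ G)).image (fun w => (v, w))).card :=
        card_biUnion_le
    _ ≤ ∑ _v ∈ W ∩ U1, g1 * L ^ 2 := by
        apply sum_le_sum
        intro v hvv
        exact card_image_le.trans (hS.up1 v (mem_inter.1 hvv).2)
    _ = (W ∩ U1).card * (g1 * L ^ 2) := by rw [sum_const, smul_eq_mul]
    _ ≤ W.card * (g1 * L ^ 2) := Nat.mul_le_mul_right _ (card_le_card inter_subset_left)
    _ ≤ _ := Nat.mul_le_mul_right _ hWc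

/-- exchange of the summations -/
theorem Walsh_exch (S : Finset ℕ) (G : Finset (Ln × Ln)) (V0 : Finset Ln) (Φ : ℤ[X][X])
    (hS : 0 < S.card)
    (hc : 100 * ∑ p ∈ S, (G.filter (fun e => ¬ Cov p V0 e.1)).card ≤ 3 * S.card * G.card)
    (hv : ∀ e ∈ G, ¬ Van Φ e.1 → 2 * (S.filter (fun p => Cov p V0 e.1)).card < S.card) :
    G.card ≤ 2 * (G.filter (fun e => Van Φ e.1)).card := by
  set G0 := G.filter (fun e => ¬ Van Φ e.1) with hG0
  have h1 : ∀ e ∈ G0, S.card ≤ 2 * (S.filter (fun p => ¬ Cov p V0 e.1)).card := by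
    intro e he
    rw [hG0, mem_filter] at he
    have h2 := hv e he.1 he.2
    have h3 := card_filter_add_card_filter_not (s := S) (fun p => Cov p V0 e.1)
    omega
  have h2 : G0.card * S.card ≤ 2 * ∑ p ∈ S, (G.filter (fun e => ¬ Cov p V0 e.1)).card := by
    calc G0.card * S.card = ∑ _e ∈ G0, S.card := by rw [sum_const, smul_eq_mul]
      _ ≤ ∑ e ∈ G0, 2 * (S.filter (fun p => ¬ Cov p V0 e.1)).card := sum_le_sum h1
      _ = 2 * ∑ e ∈ G0, (S.filter (fun p => ¬ Cov p V0 e.1)).card := by rw [mul_sum]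
      _ = 2 * ∑ p ∈ S, (G0.filter (fun e => ¬ Cov p V0 e.1)).card := by
          congr 1
          simp only [card_filter]
          rw [sum_comm]
      _ ≤ 2 * ∑ p ∈ S, (G.filter (fun e => ¬ Cov p V0 e.1)).card := by
          apply Nat.mul_le_mul_left
          apply sum_le_sum
          intro p _
          apply card_le_card
          apply filter_subset_filter
          rw [hG0]
          exact filter_subset _ _
  have h3 : 50 * (G0.card * S.card) ≤ 3 * S.card * G.card := by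
    calc 50 * (G0.card * S.card)
        ≤ 50 * (2 * ∑ p ∈ S, (G.filter (fun e => ¬ Cov p V0 e.1)).card) :=
          Nat.mul_le_mul_left _ h2
      _ = 100 * ∑ p ∈ S, (G.filter (fun e => ¬ Cov p V0 e.1)).card := by ring
      _ ≤ _ := hc
  have h4 : 50 * G0.card ≤ 3 * G.card := by
    have : S.card * (50 * G0.card) ≤ S.card * (3 * G.card) := by
      calc S.card * (50 * G0.card) = 50 * (G0.card * S.card) := by ring
        _ ≤ _ := h3
        _ = S.card * (3 * G.card) := by ring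
    exact Nat.le_of_mul_le_mul_left this hS
  have h5 := card_filter_add_card_filter_not (s := G) (fun e => Van Φ e.1)
  rw [← hG0] at h5
  omega

/-- Walsh's argument: the degree of the curve is bounded by a small power.
Proof.  Suppose `E = tdg Ψ > L^16`, and take `V0` from `walsh_cover`.  `exists_form` (Siegel.lean, with
`M = L^(51b+10)`) with `d' = L^16` (`4 |V0| ≤ 20 L^28 ≤ d'^2`) and `local_height` (Local.lean) give
`Φ ≠ 0`, `tdg Φ ≤ d' < E`, vanishing on `V0` (`van_iff`).  `|PrS L| ≥ L^20` (`primes_range`).  If `Φ`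
does not vanish at `v ∈ U1` then, by `cov_van`, less than `L^20 / 2 ≤ |PrS L| / 2` of the primes of
`PrS L` satisfy `Cov p V0 v`; exchanging the summations, the edges `e` with `Φ(e.1) ≠ 0` are at most
`6 |G| / 100`.  The vertices `v` with `Φ(v) = Ψ(v) = 0` are at most `2 (E d') L^10` (`bezout_card`,
`Ψ ∤ Φ` by `tdg_mul`), of degree at most `g1 L^2`; so `|G| / 2 ≤ 2 E L^26 g1 L^2`; but
`|U1| g1 ≤ L^2 |G|` and `|U1| ≥ E g2 / L^40 ≥ E L^(b+460)` (`size_lower`), contradiction. -/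
theorem walsh (b : ℕ) (hb : 1000 ≤ b) : ∃ L0 : ℕ, ∀ L, L0 ≤ L →
    ∀ (V U1 U2 : Finset Ln) (G : Finset (Ln × Ln)) (g1 g2 : ℕ), Sys b L 2 V U1 U2 G g1 g2 →
    ∀ Ψ : ℤ[X][X], Irreducible Ψ → 1 ≤ Ψ.natDegree → tdg Ψ ≤ L ^ (b - 400) →
    (∀ v ∈ U1, Van Ψ v) → (∀ v ∈ U2, Van Ψ v) → tdg Ψ ≤ L ^ 16 := by
  obtain ⟨L1, hL1⟩ := walsh_cover b hb
  obtain ⟨L2, hL2⟩ := cov_van b hb
  obtain ⟨L3, hL3⟩ := size_lower b hb
  obtain ⟨L4, hL4⟩ := primes_range 20
  refine ⟨L1 + L2 + L3 + L4 + 1000, ?_⟩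
  intro L hL V U1 U2 G g1 g2 hS Ψ hΨ hdeg htdg hv1 hv2
  by_contra hlt
  rw [not_le] at hlt
  obtain ⟨V0, hV0, hV0c, hcov⟩ := hL1 L (by omega) V U1 U2 G g1 g2 hS Ψ hΨ hdeg hlt htdg hv1 hv2
  have hLpos : 1 ≤ L := by omega
  have hV0V : V0 ⊆ V := hV0.trans hS.s1
  have hadm := hS.adm
  have hZ : (1 : ℤ) ≤ (L : ℤ) := by exact_mod_cast hLpos
  have hM : (1 : ℤ) ≤ (L : ℤ) ^ (51 * b + 10) := one_le_pow₀ hZ
  have hMb : (L : ℤ) ^ (b + 10) ≤ (L : ℤ) ^ (51 * b + 10) := pow_le_pow_right₀ hZ (by omega)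
  obtain ⟨Φ, hΦ0, hΦd, hΦH, hΦv⟩ := exists_form (L ^ 16) ((L : ℤ) ^ (51 * b + 10)) hM V0
    (fun v hv => (hadm.bx v (hV0V hv)).trans hMb) (fun v hv => (hadm.bdy v (hV0V hv)).trans hMb)
    (fun v hv => hadm.bc v (hV0V hv)) (by
      have h1 : 20 * L ^ 28 ≤ L ^ 4 * L ^ 28 := by
        apply Nat.mul_le_mul_right
        calc 20 ≤ 1000 ^ 1 := by norm_num
          _ ≤ L ^ 1 := Nat.pow_le_pow_left (by omega) 1
          _ ≤ L ^ 4 := Nat.pow_le_pow_right hLpos (by norm_num)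
      have h2 : L ^ 4 * L ^ 28 = L ^ 16 * L ^ 16 := by ring
      have h3 : L ^ 16 * L ^ 16 ≤ (L ^ 16 + 1) * (L ^ 16 + 2) := by
        apply Nat.mul_le_mul <;> omega
      omega)
  have hd1 : 1 ≤ L ^ 16 := Nat.one_le_pow _ _ (by omega)
  have hH : ∀ j i, |(Φ.coeff j).coeff i| ≤ (L : ℤ) ^ (52 * b * L ^ 16) := by
    intro j i
    refine (hΦH j i).trans ?_
    have := local_height b L (L ^ 16) hb (by omega) hd1
    push_cast at this ⊢
    exact this
  have hΦV0 : ∀ w ∈ V0, Van Φ w := fun w hw =>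
    (van_iff (L ^ 16) Φ hΦd w (hadm.ynz w (hV0V hw))).2 (hΦv w hw)
  have hpr : L ^ 20 ≤ (PrS L).card := by
    have h := hL4 L (by omega) (L ^ 20) (Nat.one_le_pow _ _ (by omega)) le_rfl
    have h2 : L * L ^ 20 = L ^ 21 := by ring
    rw [h2] at h
    unfold PrS
    exact h
  have hL0 : 0 < L := hLpos
  have hprpos : 0 < (PrS L).card := lt_of_lt_of_le (pow_pos hL0 20) hpr
  have hex := Walsh_exch (PrS L) G V0 Φ hprpos hcov (by
    intro e he hne
    by_contra hge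
    rw [not_lt] at hge
    apply hne
    exact hL2 L (by omega) V hadm V0 hV0V (L ^ 16) Φ hd1 le_rfl hΦd hH hΦV0 e.1
      (hS.s1 (hS.edge e he).1) (hpr.trans hge))
  have hndvd : ¬ Ψ ∣ Φ := by
    rintro ⟨R, rfl⟩
    have hR : R ≠ 0 := by
      rintro rfl
      exact hΦ0 (mul_zero _)
    rw [tdg_mul Ψ R hΨ.ne_zero hR] at hΦd
    omega
  have hedge := Walsh_edges b L V U1 U2 G g1 g2 hS Ψ Φ hΨ hdeg hndvd hv1 hΦd
  obtain ⟨-, hsz⟩ := hL3 L (by omega) V U1 U2 G g1 g2 hS Ψ hΨ hdeg htdg hv1 hv2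
  have hg1 : 0 < g1 := lt_of_lt_of_le (pow_pos hL0 (b + 500)) hS.big1
  have hE : 0 < tdg Ψ := by omega
  -- `|U1| ≤ 4 E L ^ 30`
  have hU1 : U1.card ≤ 4 * tdg Ψ * L ^ 30 := by
    have h1 : g1 * U1.card ≤ g1 * (4 * tdg Ψ * L ^ 30) := by
      calc g1 * U1.card = U1.card * g1 := by ring
        _ ≤ L ^ 2 * G.card := hS.lo1
        _ ≤ L ^ 2 * (2 * (2 * (tdg Ψ * L ^ 16) * L ^ 10 * (g1 * L ^ 2))) := by
            apply Nat.mul_le_mul_left
            exact hex.trans (Nat.mul_le_mul_left _ hedge)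
        _ = g1 * (4 * tdg Ψ * L ^ 30) := by ring
    exact Nat.le_of_mul_le_mul_left h1 hg1
  have hg2 : g2 ≤ 4 * L ^ 70 := by
    have h1 : tdg Ψ * g2 ≤ tdg Ψ * (4 * L ^ 70) := by
      calc tdg Ψ * g2 ≤ L ^ 40 * U1.card := hsz
        _ ≤ L ^ 40 * (4 * tdg Ψ * L ^ 30) := Nat.mul_le_mul_left _ hU1
        _ = tdg Ψ * (4 * L ^ 70) := by ring
    exact Nat.le_of_mul_le_mul_left h1 hE
  have hbig : L * L ^ 70 ≤ g2 := by
    calc L * L ^ 70 = L ^ 71 := by ring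
      _ ≤ L ^ (b + 500) := Nat.pow_le_pow_right hLpos (by omega)
      _ ≤ g2 := hS.big2
  have h4 : 4 * L ^ 70 < L * L ^ 70 :=
    Nat.mul_lt_mul_of_pos_right (by omega) (pow_pos hL0 70)
  omega

end FDP
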