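import Pool.Agent.W_fd120a_h8.Reg
import Pool.Agent.W_fd120a_h8.Comp
import Pool.Agent.W_fd120a_h8.Walsh
import Pool.Agent.W_fd120a_h8.Case1
import Pool.Agent.W_fd120a_h8.BForm

set_option autoImplicit false

open Finset Polynomial
open scoped Classical

namespace FDP

/-- the number of edges as a sum of degrees -/
theorem local2_card (U1 U2 : Finset Ln) (G : Finset (Ln × Ln))
    (hG : ∀ e ∈ G, e.1 ∈ U1 ∧ e.2 ∈ U2) :
    G.card ≤ ∑ v ∈ U1, (U2.filter (fun w => (v, w) ∈ G)).card := by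
  rw [Finset.card_eq_sum_card_fiberwise (f := Prod.fst) (s := G) (t := U1)
    (fun e he => (hG e he).1)]
  refine Finset.sum_le_sum fun v _ => ?_
  refine Finset.card_le_card_of_injOn (fun e => e.2) ?_ ?_
  · intro e he
    have he' := Finset.mem_filter.1 (Finset.mem_coe.1 he)
    refine Finset.mem_coe.2 (Finset.mem_filter.2 ⟨(hG e he'.1).2, ?_⟩)
    have h1 : ((v, e.2) : Ln × Ln) = e := by
      rw [← he'.2]
    rw [h1]
    exact he'.1
  · intro e he e' he' h
    have h1 := (Finset.mem_filter.1 (Finset.mem_coe.1 he)).2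
    have h2 := (Finset.mem_filter.1 (Finset.mem_coe.1 he')).2
    exact Prod.ext (h1.trans h2.symm) h

/-- The local theorem, second form.
Proof.  `regular` gives a system `V1, V2, G1 ⊆ G, g1, g2` (`lam = 1`, `g1 ≥ L^(2b-q-33)`),
`component` gives `d, F, Ψ, U1, U2, G' ⊆ G1` (`lam = 2`).  `G'` is not empty, so `1 ≤ tdg Ψ`
(`one_le_tdg`).
If `tdg Ψ = 1`: some `v ∈ U1` has degree at least `|G'| / |U1| ≥ g1 / L^2 ≥ L^(2b-q-35)` in `G'`
(if all the degrees were smaller, `|G'| < |U1| g1 / L^2`); let `W` be the set of its neighbours;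
`linear_case` gives `z`, on `v` and on all of `W ⊆ V`; the edge is `(v, w)`, `w ∈ W`.
If `tdg Ψ ≥ 2`: `1 ≤ Ψ.natDegree` (`natDegree_zero_case`), `tdg Ψ ≤ tdg F ≤ d ≤ L^(b-400)`
(`tdg_mul`), `walsh` gives `tdg Ψ ≤ L^16`, `size_lower` gives
`L^40 |U2| ≥ tdg Ψ * g1 ≥ L^(b+500)`, and `U2 ⊆ V.filter (Van Ψ)`.  If `tdg Ψ ≤ 110 b`,
`small_degree` (`PCH`, `d L^2 ≤ L^(b+12)`) gives `|U2| ≤ L^(b+30) + d L^11 ≤ L^(b+31)`, contradiction;
if `tdg Ψ > 110 b`, `medium_degree` gives `|U2| ≤ L^(16*7) L^30`, contradiction. -/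
theorem local2 (b : ℕ) (hb : 1000 ≤ b) : LocalThm b (b - 600) 40 := by
  obtain ⟨L1, h1⟩ := regular b hb
  obtain ⟨L2, h2⟩ := component b hb
  obtain ⟨L3, h3⟩ := walsh b hb
  obtain ⟨L4, h4⟩ := size_lower b hb
  obtain ⟨L5, h5⟩ := small_degree b hb
  obtain ⟨L6, h6⟩ := medium_degree b hb
  refine ⟨L1 + L2 + L3 + L4 + L5 + L6 + 1000, fun L hL q hq V hV G hG hGc => ?_⟩
  have hpos : 0 < L := by omega
  have hL1000 : 1000 ≤ L := by omega
  obtain ⟨V1, V2, G1, g1, g2, hG1, hS1, hg1, -⟩ := h1 L (by omega) q (by omega) V hV G hG hGc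
  obtain ⟨d, F, Ψ, U1, U2, G', hG', hS2, hd1, hd, hF0, hFd, hFH, hΨF, hΨi, hU1, hU2⟩ :=
    h2 L (by omega) V V1 V2 G1 g1 g2 hS1
  have hGG : ∀ e ∈ G', e ∈ G := fun e he => hG1 (hG' he)
  obtain ⟨e0, he0⟩ := hS2.ne
  have he0U := (hS2.edge e0 he0).1
  have he0V := hS2.s1 he0U
  have he0y := hV.ynz e0.1 he0V
  have he0van := hU1 e0.1 he0U
  have ht1 : 1 ≤ tdg Ψ := one_le_tdg Ψ hΨi e0.1 he0van
  rcases Nat.lt_or_ge (tdg Ψ) 2 with he | he
  · have het : tdg Ψ = 1 := by omega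
    -- a vertex of large degree
    have hex : ∃ v ∈ U1, g1 ≤ (U2.filter (fun w => (v, w) ∈ G')).card * L ^ 2 := by
      by_contra hcon
      push Not at hcon
      have hc1 := local2_card U1 U2 G' (fun e he => ⟨(hS2.edge e he).1, (hS2.edge e he).2.1⟩)
      have hc2 : (∑ v ∈ U1, (U2.filter (fun w => (v, w) ∈ G')).card) * L ^ 2 < U1.card * g1 := by
        rw [Finset.sum_mul, ← smul_eq_mul (a := U1.card), ← Finset.sum_const]
        exact Finset.sum_lt_sum_of_nonempty ⟨e0.1, he0U⟩ (fun v hv => hcon v hv)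
      have hc3 := hS2.lo1
      have hc4 : G'.card * L ^ 2 ≤
          (∑ v ∈ U1, (U2.filter (fun w => (v, w) ∈ G')).card) * L ^ 2 :=
        Nat.mul_le_mul_right _ hc1
      rw [Nat.mul_comm (L ^ 2)] at hc3
      omega
    obtain ⟨v, hvU, hvg⟩ := hex
    obtain ⟨W, hW⟩ : ∃ W, W = U2.filter (fun w => (v, w) ∈ G') := ⟨_, rfl⟩
    rw [← hW] at hvg
    have hWc : L ^ (2 * b - q - 35) ≤ W.card := by
      have hc : L ^ (2 * b - q - 35) * L ^ 2 ≤ W.card * L ^ 2 := by
        calc L ^ (2 * b - q - 35) * L ^ 2 = L ^ (2 * b - q - 33) := by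
              rw [← pow_add]
              congr 1
              omega
          _ ≤ g1 := hg1
          _ ≤ W.card * L ^ 2 := hvg
      exact Nat.le_of_mul_le_mul_right hc (Nat.pow_pos hpos)
    have hWne : W.Nonempty := by
      rw [← Finset.card_pos]
      exact lt_of_lt_of_le (Nat.pow_pos hpos) hWc
    have hWm : ∀ w ∈ W, w ∈ U2 ∧ (v, w) ∈ G' := by
      intro w hw
      rw [hW, mem_filter] at hw
      exact hw
    obtain ⟨z, hz1, hz2⟩ := linear_case Ψ het v (hV.ynz v (hS2.s1 hvU)) (hU1 v hvU) W hWne (by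
      intro w hw
      obtain ⟨hw1, hw2⟩ := hWm w hw
      obtain ⟨D, hD1, -, -, hD3, z, hz1, hz2⟩ := (hS2.edge _ hw2).2.2
      refine ⟨hV.ynz w (hS2.s2 hw1), hU2 w hw1, ?_, z, hz1, hz2⟩
      intro h0
      have h7 : |dt v w| = (D : ℤ) := hD3
      rw [h0, abs_zero] at h7
      have h8 := hD1.pos
      omega)
    obtain ⟨w, hw⟩ := hWne
    refine ⟨(v, w), hGG _ (hWm w hw).2, z, hz1, hz2 w hw, ?_⟩
    have hsub : W ⊆ V.filter (fun v => On v z) := by
      intro w' hw'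
      rw [mem_filter]
      exact ⟨hS2.s2 (hWm w' hw').1, hz2 w' hw'⟩
    calc L ^ (2 * b - q - 40) ≤ L ^ (2 * b - q - 35) := Nat.pow_le_pow_right hpos (by omega)
      _ ≤ W.card := hWc
      _ ≤ _ := Finset.card_le_card hsub
  · exfalso
    have hnd : 1 ≤ Ψ.natDegree := by
      by_contra hcon
      have h7 := natDegree_zero_case Ψ hΨi (by omega) e0.1 he0y he0van
      omega
    have htd : tdg Ψ ≤ d := by
      obtain ⟨R, hR⟩ := hΨF
      have hR0 : R ≠ 0 := by
        rintro rfl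
        rw [mul_zero] at hR
        exact hF0 hR
      have h7 := tdg_mul Ψ R hΨi.ne_zero hR0
      rw [← hR] at h7
      omega
    have htL : tdg Ψ ≤ L ^ (b - 400) := htd.trans hd
    have hw := h3 L (by omega) V U1 U2 G' g1 g2 hS2 Ψ hΨi hnd htL hU1 hU2
    have hs := (h4 L (by omega) V U1 U2 G' g1 g2 hS2 Ψ hΨi hnd htL hU1 hU2).1
    have hU2c : L ^ (b + 460) ≤ U2.card := by
      have hc : L ^ 40 * L ^ (b + 460) ≤ L ^ 40 * U2.card := by
        have h7 : 40 + (b + 460) = b + 500 := by omega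
        calc L ^ 40 * L ^ (b + 460) = L ^ (b + 500) := by
              rw [← pow_add, h7]
          _ ≤ g1 := hS2.big1
          _ ≤ tdg Ψ * g1 := Nat.le_mul_of_pos_left _ (by omega)
          _ ≤ L ^ 40 * U2.card := hs
      exact Nat.le_of_mul_le_mul_left hc (Nat.pow_pos hpos)
    have hU2s : U2.card ≤ (V.filter (fun v => Van Ψ v)).card := by
      refine Finset.card_le_card fun w hw => ?_
      rw [mem_filter]
      exact ⟨hS2.s2 hw, hU2 w hw⟩
    rcases Nat.lt_or_ge (110 * b) (tdg Ψ) with ht | ht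
    · have h7 := h6 L (by omega) V hV Ψ hΨi hnd ht
        (hw.trans (Nat.pow_le_pow_right hpos (by norm_num)))
      have h8 : tdg Ψ ^ 7 * L ^ 30 ≤ L ^ 142 := by
        calc tdg Ψ ^ 7 * L ^ 30 ≤ (L ^ 16) ^ 7 * L ^ 30 := by gcongr
          _ = L ^ 142 := by
              rw [← pow_mul, ← pow_add]
      have h9 : L ^ 142 < L ^ (b + 460) := Nat.pow_lt_pow_right (by omega) (by omega)
      omega
    · have hPCH : PCH b L V d F Ψ :=
        { adm := hV
          hd1 := hd1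
          hdL := hd.trans (Nat.pow_le_pow_right hpos (by omega))
          F0 := hF0
          Fd := hFd
          FH := hFH
          dvd := hΨF
          irr := hΨi
          e2 := he }
      have h7 := h5 L (by omega) V d F Ψ hPCH (by
        calc d * L ^ 2 ≤ L ^ (b - 400) * L ^ 2 := Nat.mul_le_mul_right _ hd
          _ = L ^ (b - 400 + 2) := by rw [← pow_add]
          _ ≤ L ^ (b + 12) := Nat.pow_le_pow_right hpos (by omega)) ht
      have h8 : d * L ^ 11 ≤ L ^ (b + 30) := by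
        calc d * L ^ 11 ≤ L ^ (b - 400) * L ^ 11 := Nat.mul_le_mul_right _ hd
          _ = L ^ (b - 400 + 11) := by rw [← pow_add]
          _ ≤ L ^ (b + 30) := Nat.pow_le_pow_right hpos (by omega)
      have h9 : L ^ (b + 30) * L ≤ L ^ (b + 460) := by
        rw [← pow_succ]
        exact Nat.pow_le_pow_right hpos (by omega)
      have h10 : L ^ (b + 30) * 1000 ≤ L ^ (b + 30) * L := Nat.mul_le_mul_left _ hL1000
      have h11 : 0 < L ^ (b + 30) := Nat.pow_pos hpos
      omega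

end FDP
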