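import Pool.Agent.W_fd120a_h8.EdgeVV

set_option autoImplicit false

open Finset
open scoped Classical

namespace FDP

open FD120

/-- Two lines with non-zero determinant have at most one common point. -/
theorem manyGood_point {v w : Ln} {z z' : ℤ × ℤ} (h1 : On v z) (h2 : On w z) (h3 : On v z')
    (h4 : On w z') (hd : dt v w ≠ 0) : z = z' := by
  unfold On at h1 h2 h3 h4
  unfold dt at hd
  have e1 : v.2.1 * (z.1 - z'.1) = v.1 * (z.2 - z'.2) := by linarith
  have e2 : w.2.1 * (z.1 - z'.1) = w.1 * (z.2 - z'.2) := by linarith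
  have ha : (v.1 * w.2.1 - w.1 * v.2.1) * (z.1 - z'.1) = 0 := by
    linear_combination v.1 * e2 - w.1 * e1
  have hb : (v.1 * w.2.1 - w.1 * v.2.1) * (z.2 - z'.2) = 0 := by
    linear_combination v.2.1 * e2 - w.2.1 * e1
  have ha' := (mul_eq_zero.1 ha).resolve_left hd
  have hb' := (mul_eq_zero.1 hb).resolve_left hd
  exact Prod.ext (by linarith) (by linarith)

/-- The lower bound for the number of triples. -/
theorem manyGood_TR (b L : ℕ) (N P : ℤ) (res : ℤ → ℤ) (q0 i q : ℕ) (hP : Par b L N P)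
    (hl : Lev b L N P res q0 i q) :
    L ^ (104 * b - q - 5) ≤ 2 * (TR b L N P res i).card := by
  have hb := hP.hb
  have hqb := hl.hqb
  have hmem : ∀ τ ∈ TR b L N P res i, τ.1 ∈ EL N P res L i := by
    intro τ hτ
    unfold TR at hτ
    rw [mem_filter, mem_product] at hτ
    exact hτ.1.1
  have h1 : (TR b L N P res i).card =
      ∑ e ∈ EL N P res L i, ((TR b L N P res i).filter (fun τ => τ.1 = e)).card :=
    Finset.card_eq_sum_card_fiberwise (f := Prod.fst) hmem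
  have h2 : ∀ e ∈ EL N P res L i, L ^ (2 * b - 1) ≤
      2 * ((TR b L N P res i).filter (fun τ => τ.1 = e)).card := by
    intro e he
    have he' := he
    unfold EL at he'
    rw [mem_filter, mem_product] at he'
    have h3 := GD_card b L N P hP e.1 e.2 he'.1.1 he'.1.2 he'.2.1
    refine h3.trans (Nat.mul_le_mul_left _ ?_)
    refine Finset.card_le_card_of_injOn (fun D => (e, D)) ?_ ?_
    · intro D hD
      have hD' : D ∈ GD b L P e.1 e.2 := hD
      have hD2 := hD'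
      unfold GD at hD2
      rw [mem_filter, mem_filter] at hD2
      rw [Finset.mem_coe, mem_filter]
      refine ⟨?_, rfl⟩
      unfold TR
      rw [mem_filter, mem_product]
      exact ⟨⟨he, hD2.1.1⟩, hD'⟩
    · intro D _ D' _ h
      exact (Prod.mk.inj h).2
  have h3 := EL_card b L N P res q0 i q hP hl
  calc L ^ (104 * b - q - 5) = L ^ (102 * b - q - 4) * L ^ (2 * b - 1) := by
        rw [← pow_add]
        congr 1
        omega
    _ ≤ (EL N P res L i).card * L ^ (2 * b - 1) := Nat.mul_le_mul_right _ h3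
    _ = ∑ _e ∈ EL N P res L i, L ^ (2 * b - 1) := by rw [Finset.sum_const, smul_eq_mul]
    _ ≤ ∑ e ∈ EL N P res L i, 2 * ((TR b L N P res i).filter (fun τ => τ.1 = e)).card :=
        Finset.sum_le_sum h2
    _ = 2 * (TR b L N P res i).card := by rw [h1, Finset.mul_sum]

/-- The unpopular triples over one chart `(U, V)`. -/
theorem manyGood_fib (b q1 C0 L0 : ℕ) (hloc : ∀ L, L0 ≤ L → ∀ q, q ≤ q1 → ∀ V : Finset Ln,
      Adm b L V → ∀ G : Finset (Ln × Ln),
      (∀ e ∈ G, e.1 ∈ V ∧ e.2 ∈ V ∧ IsEdge b L e.1 e.2) → L ^ (4 * b - q) ≤ G.card →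
      ∃ e ∈ G, ∃ z : ℤ × ℤ, On e.1 z ∧ On e.2 z ∧
        L ^ (2 * b - q - C0) ≤ (V.filter (fun v => On v z)).card)
    (L : ℕ) (hL : L0 ≤ L) (N P : ℤ) (res : ℤ → ℤ) (i q : ℕ) (hP : Par b L N P)
    (hq : q + 12 ≤ q1) (U V : ℤ) (F : Finset ((ℤ × ℤ) × ℕ)) (hF : F ⊆ TR b L N P res i)
    (hU : ∀ τ ∈ F, (ch b L P τ).1 = U ∧ (ch b L P τ).2.1 = V)
    (hB : ∀ τ ∈ F, (PT b L N P res i τ).card < L ^ (2 * b - q - 12 - C0)) :
    F.card ≤ L ^ (4 * b - (q + 12)) := by
  by_contra hcon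
  push Not at hcon
  have hne : F.Nonempty := by
    rw [← Finset.card_pos]
    exact lt_of_le_of_lt (Nat.zero_le _) hcon
  have hex : ∀ τ : (ℤ × ℤ) × ℕ, ∃ d : (ℤ × ℤ) × Ln × Ln, τ ∈ F →
      d.2.1 ∈ VV b L P res U V ∧ d.2.2 ∈ VV b L P res U V ∧
      IsEdge b L d.2.1 d.2.2 ∧ On d.2.1 d.1 ∧ On d.2.2 d.1 ∧ dt d.2.1 d.2.2 = (τ.2 : ℤ) ∧
      d.2.1.1 * U + d.2.1.2.1 * V = τ.1.1 ∧ d.2.2.1 * U + d.2.2.2.1 * V = τ.1.2 ∧
      ((VV b L P res U V).filter (fun v => On v d.1)).card ≤ (PT b L N P res i τ).card := by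
    intro τ
    by_cases hτ : τ ∈ F
    · obtain ⟨z, ν, ω, h⟩ := edge_VV b L N P hP res i τ (hF hτ)
      rw [(hU τ hτ).1, (hU τ hτ).2] at h
      exact ⟨(z, ν, ω), fun _ => h⟩
    · exact ⟨0, fun h => absurd h hτ⟩
  choose d hd using hex
  have hinj : Set.InjOn (fun τ => (d τ).2) (F : Set ((ℤ × ℤ) × ℕ)) := by
    intro τ hτ τ' hτ' h
    have h' : (d τ).2 = (d τ').2 := h
    obtain ⟨_, _, _, _, _, a1, a2, a3, _⟩ := hd τ hτ
    obtain ⟨_, _, _, _, _, b1, b2, b3, _⟩ := hd τ' hτ'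
    rw [h'] at a1 a2 a3
    have c1 : (τ.2 : ℤ) = τ'.2 := a1.symm.trans b1
    have c2 : τ.1.1 = τ'.1.1 := a2.symm.trans b2
    have c3 : τ.1.2 = τ'.1.2 := a3.symm.trans b3
    exact Prod.ext (Prod.ext c2 c3) (by exact_mod_cast c1)
  have hcard : (F.image (fun τ => (d τ).2)).card = F.card := Finset.card_image_of_injOn hinj
  obtain ⟨τ0, hτ0⟩ := hne
  have hch := ch_spec b L N P res i τ0 (hF hτ0)
  unfold HasChart at hch
  rw [(hU τ0 hτ0).1, (hU τ0 hτ0).2] at hch
  have hadm : Adm b L (VV b L P res U V) :=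
    adm_VV b L N P hP res U V hch.U1 hch.V0 hch.VU hch.Ulow hch.Uup
  obtain ⟨e, he, z', hz1, hz2, hz3⟩ := hloc L hL (q + 12) hq (VV b L P res U V) hadm
    (F.image (fun τ => (d τ).2)) (by
      intro e he
      obtain ⟨τ, hτ, rfl⟩ := mem_image.1 he
      obtain ⟨a1, a2, a3, _⟩ := hd τ hτ
      exact ⟨a1, a2, a3⟩) (by rw [hcard]; exact hcon.le)
  obtain ⟨τ, hτ, rfl⟩ := mem_image.1 he
  obtain ⟨_, _, _, a4, a5, a6, _, _, a9⟩ := hd τ hτ
  have hD : (τ.2 : ℤ) ≠ 0 := by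
    have h1 := hF hτ
    unfold TR at h1
    rw [mem_filter, mem_product, mem_Ioc] at h1
    have h2 : 0 < τ.2 := lt_of_le_of_lt (Nat.zero_le _) h1.1.2.1
    exact_mod_cast h2.ne'
  have hzz : (d τ).1 = z' := manyGood_point a4 a5 hz1 hz2 (by rw [a6]; exact hD)
  rw [hzz] at a9
  have h1 := hB τ hτ
  have h2 := hz3.trans a9
  have h3 : 2 * b - (q + 12) - C0 = 2 * b - q - 12 - C0 := by omega
  rw [h3] at h2
  exact absurd h1 (not_lt.2 h2)

/-- Most triples are popular.  Proof.  `|TR| ≥ |EL| * L^(2b-1) / 2 ≥ L ^ (104b-q-6)` (`EL_card`,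
`GD_card`).  Let `κ = L ^ (2b-q-12-C0)` and let `𝓑` be the set of `τ ∈ TR` with `|PT τ| < κ`.  For every
`(U, V)` let `G` be the set of the pairs `(ν, ω)` of `edge_VV` for the `τ ∈ 𝓑` whose chart is over
`(U, V)`; the map `τ ↦ (ν, ω)` is injective on these `τ` (`τ.1.1`, `τ.1.2`, `τ.2` are determined).  If
`|G| ≥ L ^ (4b-(q+12))` the local theorem (for `VV`, admissible by `adm_VV`) gives an edge
`(ν, ω) ∈ G` and a common point `z'` with at least `κ` lines through it; `z'` is the point `z` of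
`edge_VV`, as `dt ν ω ≠ 0`; so `κ ≤ |PT τ|`, a contradiction.  The number of `(U, V)` is at most
`L ^ (100b+4)` (`1 ≤ U ≤ L^(50b+2)`, `0 ≤ V < U`), so
`|𝓑| ≤ L ^ (100b+4) L ^ (4b-q-12) = L ^ (104b-q-8)`. -/
theorem many_good (b q1 C0 : ℕ) (hloc : LocalThm b q1 C0) : ∃ L0 : ℕ, ∀ L, L0 ≤ L →
    ∀ (N P : ℤ) (res : ℤ → ℤ) (q0 i q : ℕ), Par b L N P → Lev b L N P res q0 i q →
    q + 12 ≤ q1 →
    L ^ (104 * b - q - 7) ≤ ((TR b L N P res i).filter (fun τ =>
      L ^ (2 * b - q - 12 - C0) ≤ (PT b L N P res i τ).card)).card := by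
  obtain ⟨L0, hL0⟩ := hloc
  refine ⟨L0, fun L hL N P res q0 i q hP hl hq => ?_⟩
  have hb := hP.hb
  have hqb := hl.hqb
  have hL6 := hP.hL
  set T := TR b L N P res i with hT
  set κ := L ^ (2 * b - q - 12 - C0) with hκ
  set B := T.filter (fun τ => ¬ κ ≤ (PT b L N P res i τ).card) with hBdef
  have hsplit : (T.filter (fun τ => κ ≤ (PT b L N P res i τ).card)).card + B.card = T.card :=
    Finset.card_filter_add_card_filter_not _
  have hTR := manyGood_TR b L N P res q0 i q hP hl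
  -- the bound for the bad triples
  have hBcard : B.card ≤ L ^ (4 * b - (q + 12)) * (L ^ (50 * b + 2) * L ^ (50 * b + 2)) := by
    have hM : (L ^ (50 * b + 2) * L ^ (50 * b + 2) : ℕ) =
        ((Finset.Icc (1 : ℤ) ((L ^ (50 * b + 2) : ℕ) : ℤ)) ×ˢ
          (Finset.Ico (0 : ℤ) ((L ^ (50 * b + 2) : ℕ) : ℤ))).card := by
      rw [card_product, Int.card_Icc, Int.card_Ico, add_sub_cancel_right, sub_zero,
        Int.toNat_natCast]
    rw [hM]
    refine Finset.card_le_mul_card_image_of_maps_to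
      (f := fun τ => ((ch b L P τ).1, (ch b L P τ).2.1)) ?_ _ ?_
    · intro τ hτ
      rw [hBdef, mem_filter] at hτ
      have hch := ch_spec b L N P res i τ hτ.1
      unfold HasChart at hch
      rw [mem_product, mem_Icc, mem_Ico]
      have h1 := hch.U1
      have h2 := hch.V0
      have h3 := hch.VU
      have h4 : (ch b L P τ).1 ≤ ((L ^ (50 * b + 2) : ℕ) : ℤ) := by
        push_cast
        exact hch.Uup
      exact ⟨⟨h1, h4⟩, h2, h3.trans_le h4⟩
    · rintro ⟨U, V⟩ _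
      refine manyGood_fib b q1 C0 L0 hL0 L hL N P res i q hP hq U V _ ?_ ?_ ?_
      · intro τ hτ
        rw [mem_filter, hBdef, mem_filter] at hτ
        exact hτ.1.1
      · intro τ hτ
        rw [mem_filter, Prod.mk.injEq] at hτ
        exact hτ.2
      · intro τ hτ
        rw [mem_filter, hBdef, mem_filter] at hτ
        exact not_le.1 hτ.1.2
  have hBcard' : B.card ≤ L ^ (104 * b - q - 8) := by
    refine hBcard.trans (le_of_eq ?_)
    rw [← pow_add, ← pow_add]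
    congr 1
    omega
  set X := L ^ (104 * b - q - 8) with hX
  have e1 : L ^ (104 * b - q - 5) = L ^ 3 * X := by
    rw [hX, ← pow_add]
    congr 1
    omega
  have e2 : L ^ (104 * b - q - 7) = L * X := by
    rw [hX, ← pow_succ']
    congr 1
    omega
  rw [e1] at hTR
  rw [e2]
  have h5 : 2 * L + 2 ≤ L ^ 3 := by
    have h6 : 4 ≤ L * L := by nlinarith
    calc 2 * L + 2 ≤ 4 * L := by omega
      _ ≤ (L * L) * L := Nat.mul_le_mul_right _ h6
      _ = L ^ 3 := by ring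
  have h7 : (2 * L + 2) * X ≤ 2 * T.card := (Nat.mul_le_mul_right _ h5).trans hTR
  have h8 : (2 * L + 2) * X = 2 * (L * X) + 2 * X := by ring
  rw [h8] at h7
  omega

end FDP
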