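import Pool.Agent.W_fd120a_h8.S2Defs
import Pool.Agent.W_fd120a_h8.Basic

set_option autoImplicit false

open Finset Polynomial
open scoped Classical

namespace FDP

theorem Mult_ev_X {k : Type*} [CommRing k] (u g : k) : ev u g (X : ℤ[X][X]) = g := by
  unfold ev
  rw [coe_eval₂RingHom, eval₂_X]

theorem Mult_ev_CX {k : Type*} [CommRing k] (u g : k) : ev u g (C X : ℤ[X][X]) = u := by
  unfold ev
  rw [coe_eval₂RingHom, eval₂_C, coe_eval₂RingHom, eval₂_X]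

theorem Mult_ev_CC {k : Type*} [CommRing k] (u g : k) (n : ℤ) :
    ev u g (C (C n) : ℤ[X][X]) = (n : k) := by
  unfold ev
  rw [coe_eval₂RingHom, eval₂_C, coe_eval₂RingHom, eval₂_C, eq_intCast]

theorem Mult_ext {k : Type*} [CommRing k] (A B : ℤ[X][X] →+* k) (h1 : A X = B X)
    (h2 : A (C X) = B (C X)) : A = B := by
  apply Polynomial.ringHom_ext
  · intro a
    have h3 : A.comp C = B.comp C := by
      apply Polynomial.ringHom_ext
      · intro n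
        have h4 : ((A.comp C).comp C : ℤ →+* k) = (B.comp C).comp C := RingHom.ext_int _ _
        exact RingHom.congr_fun h4 n
      · exact h2
    exact RingHom.congr_fun h3 a
  · exact h1

theorem sh_ev {k : Type*} [CommRing k] (u0 g0 : ℤ) (Ψ : ℤ[X][X]) (s t : k) :
    ev s t (sh u0 g0 Ψ) = ev ((u0 : k) + s) ((g0 : k) + t) Ψ := by
  have h : (ev s t).comp (ev (k := ℤ[X][X]) (C X + C (C u0)) (X + C (C g0))) =
      ev ((u0 : k) + s) ((g0 : k) + t) := by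
    apply Mult_ext
    · rw [RingHom.comp_apply, Mult_ev_X, Mult_ev_X, map_add, Mult_ev_X, Mult_ev_CC, add_comm]
    · rw [RingHom.comp_apply, Mult_ev_CX, Mult_ev_CX, map_add, Mult_ev_CX, Mult_ev_CC, add_comm]
  exact RingHom.congr_fun h Ψ

theorem sh_sh (u0 g0 : ℤ) (Ψ : ℤ[X][X]) : sh (-u0) (-g0) (sh u0 g0 Ψ) = Ψ := by
  have h1 : sh (-u0) (-g0) (sh u0 g0 Ψ) =
      ev (k := ℤ[X][X]) (C X + C (C (-u0))) (X + C (C (-g0))) (sh u0 g0 Ψ) := rfl
  rw [h1, sh_ev]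
  have e1 : ((u0 : ℤ[X][X]) + (C X + C (C (-u0)))) = C X := by
    have e : (u0 : ℤ[X][X]) = C (C u0) := by simp
    rw [e, C_neg, C_neg]
    ring
  have e2 : ((g0 : ℤ[X][X]) + (X + C (C (-g0)))) = X := by
    have e : (g0 : ℤ[X][X]) = C (C g0) := by simp
    rw [e, C_neg, C_neg]
    ring
  rw [e1, e2]
  have h2 : ev (k := ℤ[X][X]) (C X) X = RingHom.id _ := by
    apply Mult_ext
    · rw [Mult_ev_X, RingHom.id_apply]
    · rw [Mult_ev_CX, RingHom.id_apply]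
  rw [h2, RingHom.id_apply]

theorem Mult_dvd (p : ℕ) (Ψ : ℤ[X][X]) (h : ∀ j i, (p : ℤ) ∣ (Ψ.coeff j).coeff i) :
    C (C (p : ℤ)) ∣ Ψ := by
  rw [Polynomial.C_dvd_iff_dvd_coeff]
  intro j
  rw [Polynomial.C_dvd_iff_dvd_coeff]
  exact h j

theorem Mult_dvd' (p : ℕ) (Ψ : ℤ[X][X]) (h : C (C (p : ℤ)) ∣ Ψ) (j i : ℕ) :
    (p : ℤ) ∣ (Ψ.coeff j).coeff i := by
  rw [Polynomial.C_dvd_iff_dvd_coeff] at h
  have h1 := h j
  rw [Polynomial.C_dvd_iff_dvd_coeff] at h1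
  exact h1 i

/-- An irreducible polynomial of positive `natDegree` is not divisible by a prime number. -/
theorem prim (Ψ : ℤ[X][X]) (hΨ : Irreducible Ψ) (h1 : 1 ≤ Ψ.natDegree) (p : ℕ) (hp : p.Prime) :
    ∃ j i, ¬ (p : ℤ) ∣ (Ψ.coeff j).coeff i := by
  by_contra hcon
  push Not at hcon
  obtain ⟨Q, hQ⟩ := Mult_dvd p Ψ hcon
  rcases hΨ.isUnit_or_isUnit hQ with h | h
  · rw [isUnit_C, isUnit_C] at h
    exact (Nat.prime_iff_prime_int.1 hp).not_isUnit h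
  · have h2 : (C (C (p : ℤ)) : ℤ[X][X]) ≠ 0 := by
      rw [ne_eq, C_eq_zero, C_eq_zero]
      exact_mod_cast hp.ne_zero
    have h3 := natDegree_mul h2 h.ne_zero
    rw [← hQ, natDegree_C, zero_add, natDegree_eq_zero_of_isUnit h] at h3
    omega

/-- The multiplicity `m = mlt p u0 g0 Ψ`: the coefficients of `S^a T^b`, `a + b < m`, of
`Ψ(u0 + S, g0 + T)` are divisible by `p`, and one with `a + b = m` is not (the set in the definition
of `mlt` is not empty: otherwise `p` divides `sh u0 g0 Ψ`, hence `Ψ = sh (-u0) (-g0) (sh u0 g0 Ψ)`);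
choose the one with the largest `a`. -/
theorem mlt_spec (p : ℕ) (hp : p.Prime) (u0 g0 : ℤ) (Ψ : ℤ[X][X])
    (h : ∃ j i, ¬ (p : ℤ) ∣ (Ψ.coeff j).coeff i) :
    ∃ a0 b0, a0 + b0 = mlt p u0 g0 Ψ ∧ ¬ (p : ℤ) ∣ ((sh u0 g0 Ψ).coeff b0).coeff a0 ∧
      (∀ a b, a + b < mlt p u0 g0 Ψ → (p : ℤ) ∣ ((sh u0 g0 Ψ).coeff b).coeff a) ∧
      (∀ a b, a + b = mlt p u0 g0 Ψ → a0 < a → (p : ℤ) ∣ ((sh u0 g0 Ψ).coeff b).coeff a) := by
  have hne : {m | ∃ i j, i + j = m ∧ ¬ (p : ℤ) ∣ ((sh u0 g0 Ψ).coeff j).coeff i}.Nonempty := by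
    by_contra hcon
    rw [Set.not_nonempty_iff_eq_empty] at hcon
    have h1 : ∀ j i, (p : ℤ) ∣ ((sh u0 g0 Ψ).coeff j).coeff i := by
      intro j i
      by_contra h2
      have h3 : i + j ∈ {m | ∃ i j, i + j = m ∧ ¬ (p : ℤ) ∣ ((sh u0 g0 Ψ).coeff j).coeff i} :=
        ⟨i, j, rfl, h2⟩
      rw [hcon] at h3
      exact h3
    obtain ⟨Q, hQ⟩ := Mult_dvd p _ h1
    obtain ⟨j, i, hji⟩ := h
    apply hji
    apply Mult_dvd' p Ψ
    rw [← sh_sh u0 g0 Ψ, hQ]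
    unfold sh
    rw [map_mul, Mult_ev_CC]
    refine Dvd.intro _ (congrArg (fun z => z * _) ?_)
    simp
  obtain ⟨i, j, hij, hn⟩ := Nat.sInf_mem hne
  change i + j = mlt p u0 g0 Ψ at hij
  obtain ⟨S, hS⟩ : ∃ S : Finset ℕ, S = (Finset.range (mlt p u0 g0 Ψ + 1)).filter (fun a =>
      ¬ (p : ℤ) ∣ ((sh u0 g0 Ψ).coeff (mlt p u0 g0 Ψ - a)).coeff a) := ⟨_, rfl⟩
  have hiS : i ∈ S := by
    rw [hS, Finset.mem_filter, Finset.mem_range]
    refine ⟨by omega, ?_⟩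
    rw [← hij, Nat.add_sub_cancel_left]
    exact hn
  obtain ⟨a0, ha0, hmax⟩ := S.exists_max_image id ⟨i, hiS⟩
  rw [hS, Finset.mem_filter, Finset.mem_range] at ha0
  refine ⟨a0, mlt p u0 g0 Ψ - a0, by omega, ha0.2, ?_, ?_⟩
  · intro a b hab
    by_contra h2
    exact Nat.notMem_of_lt_sInf hab ⟨a, b, rfl, h2⟩
  · intro a b hab hlt
    by_contra h2
    have h3 : a ∈ S := by
      rw [hS, Finset.mem_filter, Finset.mem_range]
      refine ⟨by omega, ?_⟩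
      rw [← hab, Nat.add_sub_cancel_left]
      exact h2
    have h4 := hmax a h3
    simp only [id_eq] at h4
    omega

end FDP
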