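import Pool.Agent.W_fd120a_h8.S2Defs
import Pool.Agent.W_fd120a_h8.Basic

set_option autoImplicit false

open Finset Polynomial
open scoped Classical

namespace FDP

/-- `|{(α, β) : α + β < j, α < a0 or β < b0}| ≤ j (a0 + b0)`. -/
theorem std_card (a0 b0 j : ℕ) : (Std a0 b0 j).card ≤ j * (a0 + b0) := by
  have h1 : Std a0 b0 j ⊆ (Finset.range a0 ×ˢ Finset.range j) ∪
      (Finset.range j ×ˢ Finset.range b0) := by
    intro σ hσ
    rw [Std, Finset.mem_filter, Finset.mem_product, Finset.mem_range, Finset.mem_range] at hσ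
    rw [Finset.mem_union, Finset.mem_product, Finset.mem_product, Finset.mem_range,
      Finset.mem_range, Finset.mem_range, Finset.mem_range]
    omega
  refine (Finset.card_le_card h1).trans ((Finset.card_union_le _ _).trans ?_)
  rw [Finset.card_product, Finset.card_product, Finset.card_range, Finset.card_range,
    Finset.card_range]
  apply le_of_eq
  ring

/-- the monomial functions -/
def RedM_mon {R : Type*} [CommRing R] {ι : Type*} (s t : ι → R) (α β : ℕ) : ι → R :=
  fun i => s i ^ α * t i ^ β

theorem RedM_zero (p j : ℕ) {ι : Type*}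
    (s t : ι → ZMod (p ^ j)) (hs : ∀ i, ∃ a, s i = p * a) (ht : ∀ i, ∃ a, t i = p * a)
    (c α β : ℕ) (h : j ≤ c + (α + β)) :
    ((p : ZMod (p ^ j)) ^ c) • RedM_mon s t α β = 0 := by
  funext i
  obtain ⟨a, ha⟩ := hs i
  obtain ⟨b, hb⟩ := ht i
  have h0 : (p : ZMod (p ^ j)) ^ j = 0 := by
    have := ZMod.natCast_self (p ^ j)
    push_cast at this
    exact this
  obtain ⟨k, hk⟩ := Nat.exists_eq_add_of_le h
  have h1 : (p : ZMod (p ^ j)) ^ (c + (α + β)) = 0 := by
    rw [hk, pow_add, h0, zero_mul]
  rw [Pi.smul_apply, RedM_mon, ha, hb, smul_eq_mul, Pi.zero_apply]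
  calc (p : ZMod (p ^ j)) ^ c * ((p * a) ^ α * (p * b) ^ β)
      = (p : ZMod (p ^ j)) ^ (c + (α + β)) * (a ^ α * b ^ β) := by ring
    _ = 0 := by rw [h1, zero_mul]

/-- Reduction of the monomials.  `Ψ' = Σ ψ_{ab} S^a T^b` vanishes at the points `(s i, t i)` of
`(p R)^2`, `R = ZMod (p ^ j)`; `ψ_{a0 b0}` is prime to `p`, and `p` divides `ψ_{ab}` if
`a + b < a0 + b0` or if `a + b = a0 + b0` and `a > a0`.  Then all the monomial functions
`i ↦ (s i)^α (t i)^β` are `R`-linear combinations of the standard ones (`α + β < j`, and `α < a0` or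
`β < b0`).
Proof.  Let `N` be the span of the standard monomial functions, `mon α β` the monomial functions.
Show `(p ^ c) • mon α β ∈ N` for all `c, α, β`, by induction on `j - c`, then on `j - (α + β)`, then on
`α`.  If `c ≥ j` it is zero.  If `α + β ≥ j` it is zero.  If `(α, β)` is standard it is in `N`.
Otherwise `α ≥ a0`, `β ≥ b0`, and the relation times `S^(α-a0) T^(β-b0)` gives, `ψ_{a0 b0}` being a
unit of `R`, `mon α β = - ψ_{a0b0}⁻¹ Σ_{(a,b) ≠ (a0,b0)} ψ_{ab} mon (α-a0+a) (β-b0+b)`.  In this sum
the terms with `p ∣ ψ_{ab}` are multiples of `p • mon _ _` (induction on `j - c`); the others have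
`a + b > a0 + b0` (induction on `j - (α+β)`), or `a + b = a0 + b0` and `a < a0` (induction on `α`). -/
theorem red_monomial (p j a0 b0 : ℕ) (hp : p.Prime) (Ψ' : ℤ[X][X]) {ι : Type*}
    (s t : ι → ZMod (p ^ j)) (hs : ∀ i, ∃ a, s i = p * a) (ht : ∀ i, ∃ a, t i = p * a)
    (hΨ : ∀ i, ev (s i) (t i) Ψ' = 0) (h0 : ¬ (p : ℤ) ∣ (Ψ'.coeff b0).coeff a0)
    (hlow : ∀ a b, a + b < a0 + b0 → (p : ℤ) ∣ (Ψ'.coeff b).coeff a)
    (hmax : ∀ a b, a + b = a0 + b0 → a0 < a → (p : ℤ) ∣ (Ψ'.coeff b).coeff a) (α β : ℕ) :
    (fun i => s i ^ α * t i ^ β) ∈ Submodule.span (ZMod (p ^ j))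
      ((fun σ : ℕ × ℕ => fun i : ι => s i ^ σ.1 * t i ^ σ.2) '' (Std a0 b0 j : Set (ℕ × ℕ))) := by
  set N := Submodule.span (ZMod (p ^ j))
      ((fun σ : ℕ × ℕ => fun i : ι => s i ^ σ.1 * t i ^ σ.2) '' (Std a0 b0 j : Set (ℕ × ℕ)))
    with hN
  set D := tdg Ψ' with hD
  -- the inverse of the coefficient
  obtain ⟨w, hw⟩ : ∃ w : ZMod (p ^ j), w * (((Ψ'.coeff b0).coeff a0 : ℤ) : ZMod (p ^ j)) = 1 := by
    have h1 : IsCoprime ((Ψ'.coeff b0).coeff a0) ((p ^ j : ℕ) : ℤ) := by
      push_cast
      apply IsCoprime.pow_right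
      rw [isCoprime_comm]
      exact (Prime.coprime_iff_not_dvd (Nat.prime_iff_prime_int.1 hp)).2 h0
    obtain ⟨x, y, hxy⟩ := h1
    refine ⟨(x : ZMod (p ^ j)), ?_⟩
    have h2 := congrArg (fun z : ℤ => (z : ZMod (p ^ j))) hxy
    simp only [Int.cast_add, Int.cast_mul, Int.cast_one, Int.cast_natCast,
      ZMod.natCast_self, mul_zero, add_zero] at h2
    exact h2
  have hmem : ∀ α β : ℕ, α + β < j → ¬ (a0 ≤ α ∧ b0 ≤ β) → RedM_mon s t α β ∈ N := by
    intro α β h1 h2
    apply Submodule.subset_span
    refine ⟨(α, β), ?_, rfl⟩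
    rw [Finset.mem_coe, Std, Finset.mem_filter, Finset.mem_product, Finset.mem_range,
      Finset.mem_range]
    refine ⟨⟨?_, ?_⟩, h1, h2⟩ <;> simp only <;> omega
  -- the relation
  have hrel : ∀ α β : ℕ, a0 ≤ α → b0 ≤ β → RedM_mon s t α β =
      - (w • ∑ b ∈ Finset.range (D + 1), ∑ a ∈ Finset.range (D + 1 - b),
        (if (a, b) = (a0, b0) then (0 : ι → ZMod (p ^ j)) else
          (((Ψ'.coeff b).coeff a : ℤ) : ZMod (p ^ j)) • RedM_mon s t (α - a0 + a) (β - b0 + b))) := by
    intro α β ha hb
    have hc0 : (Ψ'.coeff b0).coeff a0 ≠ 0 := by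
      intro h
      rw [h] at h0
      exact h0 (dvd_zero _)
    have hd0 : a0 + b0 ≤ D := (tdg_le_iff Ψ' D).1 le_rfl b0 a0 hc0
    have h1 : ∑ b ∈ Finset.range (D + 1), ∑ a ∈ Finset.range (D + 1 - b),
        (((Ψ'.coeff b).coeff a : ℤ) : ZMod (p ^ j)) •
          RedM_mon s t (α - a0 + a) (β - b0 + b) = 0 := by
      funext i
      have h2 := hΨ i
      rw [Basic_ev D Ψ' le_rfl] at h2
      rw [Finset.sum_apply, Pi.zero_apply]
      calc ∑ b ∈ Finset.range (D + 1), (∑ a ∈ Finset.range (D + 1 - b),
            (((Ψ'.coeff b).coeff a : ℤ) : ZMod (p ^ j)) •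
              RedM_mon s t (α - a0 + a) (β - b0 + b)) i
          = s i ^ (α - a0) * t i ^ (β - b0) * ∑ b ∈ Finset.range (D + 1),
            ∑ a ∈ Finset.range (D + 1 - b),
            (((Ψ'.coeff b).coeff a : ℤ) : ZMod (p ^ j)) * s i ^ a * t i ^ b := by
            rw [Finset.mul_sum]
            refine Finset.sum_congr rfl fun b _ => ?_
            rw [Finset.sum_apply, Finset.mul_sum]
            refine Finset.sum_congr rfl fun a _ => ?_
            rw [Pi.smul_apply, RedM_mon, smul_eq_mul]
            ring
        _ = 0 := by rw [h2, mul_zero]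
    have h3 : ∑ b ∈ Finset.range (D + 1), ∑ a ∈ Finset.range (D + 1 - b),
        (if (a, b) = (a0, b0) then
          (((Ψ'.coeff b).coeff a : ℤ) : ZMod (p ^ j)) • RedM_mon s t (α - a0 + a) (β - b0 + b)
          else (0 : ι → ZMod (p ^ j))) =
        (((Ψ'.coeff b0).coeff a0 : ℤ) : ZMod (p ^ j)) • RedM_mon s t α β := by
      rw [Finset.sum_eq_single b0]
      · rw [Finset.sum_eq_single a0]
        · rw [if_pos rfl, Nat.sub_add_cancel ha, Nat.sub_add_cancel hb]
        · intro a _ ha'
          rw [if_neg]
          intro h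
          exact ha' (Prod.ext_iff.1 h).1
        · intro h
          exfalso
          apply h
          rw [Finset.mem_range]
          omega
      · intro b _ hb'
        apply Finset.sum_eq_zero
        intro a _
        rw [if_neg]
        intro h
        exact hb' (Prod.ext_iff.1 h).2
      · intro h
        exfalso
        apply h
        rw [Finset.mem_range]
        omega
    have h4 : ∑ b ∈ Finset.range (D + 1), ∑ a ∈ Finset.range (D + 1 - b),
        (if (a, b) = (a0, b0) then (0 : ι → ZMod (p ^ j)) else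
          (((Ψ'.coeff b).coeff a : ℤ) : ZMod (p ^ j)) • RedM_mon s t (α - a0 + a) (β - b0 + b)) =
        - ((((Ψ'.coeff b0).coeff a0 : ℤ) : ZMod (p ^ j)) • RedM_mon s t α β) := by
      rw [eq_neg_iff_add_eq_zero, ← h3, ← Finset.sum_add_distrib]
      refine Eq.trans ?_ h1
      refine Finset.sum_congr rfl fun b _ => ?_
      rw [← Finset.sum_add_distrib]
      refine Finset.sum_congr rfl fun a _ => ?_
      split_ifs
      · rw [zero_add]
      · rw [add_zero]
    rw [h4, smul_neg, neg_neg, smul_smul, hw, one_smul]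
  -- the induction
  have main : ∀ e c : ℕ, j ≤ c + e → ∀ α β : ℕ, ((p : ZMod (p ^ j)) ^ c) • RedM_mon s t α β ∈ N := by
    intro e
    induction e with
    | zero =>
      intro c hc α β
      rw [RedM_zero p j s t hs ht c α β (by omega)]
      exact N.zero_mem
    | succ e ihe =>
      intro c hc
      have ihc : ∀ α β : ℕ, ((p : ZMod (p ^ j)) ^ (c + 1)) • RedM_mon s t α β ∈ N :=
        ihe (c + 1) (by omega)
      have key : ∀ m α β : ℕ, j ≤ α + β + m → ((p : ZMod (p ^ j)) ^ c) • RedM_mon s t α β ∈ N := by
        intro m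
        induction m with
        | zero =>
          intro α β h
          rw [RedM_zero p j s t hs ht c α β (by omega)]
          exact N.zero_mem
        | succ m ihm =>
          intro α
          induction α using Nat.strong_induction_on with
          | _ α ihα =>
            intro β h
            by_cases hj : j ≤ α + β + m
            · exact ihm α β hj
            by_cases hstd : a0 ≤ α ∧ b0 ≤ β
            swap
            · exact N.smul_mem _ (hmem α β (by omega) hstd)
            rw [hrel α β hstd.1 hstd.2, smul_neg, smul_smul, mul_comm, ← smul_smul]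
            apply N.neg_mem
            apply N.smul_mem
            rw [Finset.smul_sum]
            apply N.sum_mem
            intro b hb
            rw [Finset.smul_sum]
            apply N.sum_mem
            intro a ha
            split_ifs with hab
            · rw [smul_zero]
              exact N.zero_mem
            by_cases hdvd : (p : ℤ) ∣ (Ψ'.coeff b).coeff a
            · obtain ⟨x, hx⟩ := hdvd
              rw [hx, smul_smul]
              have : (p : ZMod (p ^ j)) ^ c * (((p : ℤ) * x : ℤ) : ZMod (p ^ j)) =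
                  (x : ZMod (p ^ j)) * (p : ZMod (p ^ j)) ^ (c + 1) := by
                push_cast
                ring
              rw [this, ← smul_smul]
              exact N.smul_mem _ (ihc _ _)
            · rw [smul_smul, mul_comm, ← smul_smul]
              apply N.smul_mem
              have h1 : ¬ (a + b < a0 + b0) := fun h => hdvd (hlow a b h)
              by_cases h2 : a0 + b0 < a + b
              · apply ihm
                omega
              · have h3 : a + b = a0 + b0 := by omega
                have h4 : ¬ (a0 < a) := fun h => hdvd (hmax a b h3 h)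
                have h5 : a ≠ a0 := by
                  intro h5
                  apply hab
                  rw [Prod.mk.injEq]
                  omega
                apply ihα
                · omega
                · omega
      exact fun α β => key j α β (by omega)
  have := main j 0 (by omega) α β
  rw [pow_zero, one_smul] at this
  exact this

end FDP
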