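import Pool.Agent.W_fd120a_h8.Mult
import Pool.Agent.W_fd120a_h8.RedM
import Pool.Agent.W_fd120a_h8.DetAB

set_option autoImplicit false

open Finset Polynomial
open scoped Classical

namespace FDP

/-- If all monomial functions `s^α t^β` lie in a submodule, so do all `(s+a)^e (t+b)^f s^α t^β`. -/
theorem MultDet_shift {R : Type*} [CommRing R] {ι : Type*} (s t u g : ι → R) (a b : R)
    (hu : ∀ i, u i = s i + a) (hg : ∀ i, g i = t i + b) (N : Submodule R (ι → R))
    (hN : ∀ α β : ℕ, (fun i => s i ^ α * t i ^ β) ∈ N) (e f : ℕ) :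
    (fun i => u i ^ e * g i ^ f) ∈ N := by
  have h1 : ∀ f α β : ℕ, (fun i => g i ^ f * (s i ^ α * t i ^ β)) ∈ N := by
    intro f
    induction f with
    | zero =>
      intro α β
      simpa using hN α β
    | succ f ih =>
      intro α β
      have h2 : (fun i => g i ^ (f + 1) * (s i ^ α * t i ^ β)) =
          (fun i => g i ^ f * (s i ^ α * t i ^ (β + 1))) +
            b • (fun i => g i ^ f * (s i ^ α * t i ^ β)) := by
        funext i
        rw [Pi.add_apply, Pi.smul_apply, smul_eq_mul, pow_succ (g i), hg i]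
        ring
      rw [h2]
      exact N.add_mem (ih α (β + 1)) (N.smul_mem _ (ih α β))
  have h3 : ∀ e f α β : ℕ, (fun i => u i ^ e * (g i ^ f * (s i ^ α * t i ^ β))) ∈ N := by
    intro e
    induction e with
    | zero =>
      intro f α β
      simpa using h1 f α β
    | succ e ih =>
      intro f α β
      have h2 : (fun i => u i ^ (e + 1) * (g i ^ f * (s i ^ α * t i ^ β))) =
          (fun i => u i ^ e * (g i ^ f * (s i ^ (α + 1) * t i ^ β))) +
            a • (fun i => u i ^ e * (g i ^ f * (s i ^ α * t i ^ β))) := by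
        funext i
        rw [Pi.add_apply, Pi.smul_apply, smul_eq_mul, pow_succ (u i), hu i]
        ring
      rw [h2]
      exact N.add_mem (ih f (α + 1) β) (N.smul_mem _ (ih f α β))
  have h4 := h3 e f 0 0
  simpa using h4

/-- Divisibility of the determinant of `r` monomials at `r` points of the curve in one class mod `p`,
in terms of the multiplicity of the curve at this class (bad reduction allowed).
Proof.  For `j = 0` trivial.  `R = ZMod (p ^ j)`: the `y i` are units, `u i = x i / y i`,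
`g i = c i / y i`, `s i = u i - a.1`, `t i = g i - a.2`; `s i`, `t i` are in `p R` (the class of `v i`
is `a`: `y i * s i = x i - a.1 * y i` and `p` divides `x i - a.1 y i`).  `Ψ' = sh a.1 a.2 Ψ` vanishes
at `(s i, t i)` (`sh_ev`, `hm_cast`, `van_iff`).  With `a0`, `b0` from `mlt_spec`, `red_monomial` and the
binomial formula, for every `k` there are `κ k σ ∈ R`, `σ ∈ Std a0 b0 j`, with
`(u i)^(m k).1 (g i)^(m k).2 = Σ_σ κ k σ (s i)^σ.1 (t i)^σ.2` for all `i`.  Hence the matrix of the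
statement is `A * B + p ^ j • E`, `A k σ` a lift of `κ k σ`, `B σ i` a lift of
`(y i)^q (s i)^σ.1 (t i)^σ.2`; apply `det_AB` and `std_card`. -/
theorem mult_det (p : ℕ) (hp : p.Prime) (Ψ : ℤ[X][X])
    (h : ∃ j i, ¬ (p : ℤ) ∣ (Ψ.coeff j).coeff i) (a : ℕ × ℕ) (r : ℕ) (v : Fin r → Ln) (q : ℕ)
    (m : Fin r → ℕ × ℕ) (hmq : ∀ k, (m k).1 + (m k).2 ≤ q)
    (hy : ∀ i, ¬ (p : ℤ) ∣ (v i).2.1) (hcl : ∀ i, cls p (v i) = a)
    (hvan : ∀ i, Van Ψ (v i)) (j : ℕ) :
    (p : ℤ) ^ (j * (r - j * mlt p a.1 a.2 Ψ)) ∣ Matrix.det (Matrix.of fun k i =>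
      (v i).1 ^ (m k).1 * (v i).2.2 ^ (m k).2 * (v i).2.1 ^ (q - (m k).1 - (m k).2)) := by
  have : Fact p.Prime := ⟨hp⟩
  obtain ⟨a0, b0, hab, h0, hlow, hmax⟩ := mlt_spec p hp a.1 a.2 Ψ h
  rw [← hab] at hlow hmax ⊢
  -- units
  have hunit : ∀ i, ∃ w : ZMod (p ^ j), w * (((v i).2.1 : ℤ) : ZMod (p ^ j)) = 1 := by
    intro i
    have h1 : IsCoprime ((v i).2.1) ((p ^ j : ℕ) : ℤ) := by
      push_cast
      apply IsCoprime.pow_right
      rw [isCoprime_comm]
      exact (Prime.coprime_iff_not_dvd (Nat.prime_iff_prime_int.1 hp)).2 (hy i)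
    obtain ⟨x, y, hxy⟩ := h1
    refine ⟨(x : ZMod (p ^ j)), ?_⟩
    have h2 := congrArg (fun z : ℤ => (z : ZMod (p ^ j))) hxy
    simp only [Int.cast_add, Int.cast_mul, Int.cast_one, Int.cast_natCast,
      ZMod.natCast_self, mul_zero, add_zero] at h2
    exact h2
  choose w hw using hunit
  -- the classes
  have hcl1 : ∀ i, (p : ℤ) ∣ (v i).1 - a.1 * (v i).2.1 := by
    intro i
    rw [← ZMod.intCast_zmod_eq_zero_iff_dvd]
    have hy' : (((v i).2.1 : ℤ) : ZMod p) ≠ 0 := by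
      rw [Ne, ZMod.intCast_zmod_eq_zero_iff_dvd]
      exact hy i
    have h1 : a.1 = (((v i).1 : ZMod p) * ((v i).2.1 : ZMod p)⁻¹).val := by
      rw [← hcl i]
      rfl
    have h2 : (a.1 : ZMod p) = ((v i).1 : ZMod p) * ((v i).2.1 : ZMod p)⁻¹ := by
      rw [h1, ZMod.natCast_zmod_val]
    push_cast
    rw [h2, inv_mul_cancel_right₀ hy', sub_self]
  have hcl2 : ∀ i, (p : ℤ) ∣ (v i).2.2 - a.2 * (v i).2.1 := by
    intro i
    rw [← ZMod.intCast_zmod_eq_zero_iff_dvd]
    have hy' : (((v i).2.1 : ℤ) : ZMod p) ≠ 0 := by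
      rw [Ne, ZMod.intCast_zmod_eq_zero_iff_dvd]
      exact hy i
    have h1 : a.2 = (((v i).2.2 : ZMod p) * ((v i).2.1 : ZMod p)⁻¹).val := by
      rw [← hcl i]
      rfl
    have h2 : (a.2 : ZMod p) = ((v i).2.2 : ZMod p) * ((v i).2.1 : ZMod p)⁻¹ := by
      rw [h1, ZMod.natCast_zmod_val]
    push_cast
    rw [h2, inv_mul_cancel_right₀ hy', sub_self]
  -- the coordinates
  set u : Fin r → ZMod (p ^ j) := fun i => ((v i).1 : ZMod (p ^ j)) * w i with hu
  set g : Fin r → ZMod (p ^ j) := fun i => ((v i).2.2 : ZMod (p ^ j)) * w i with hg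
  set s : Fin r → ZMod (p ^ j) := fun i => u i - (a.1 : ZMod (p ^ j)) with hs
  set t : Fin r → ZMod (p ^ j) := fun i => g i - (a.2 : ZMod (p ^ j)) with ht
  have hsp : ∀ i, ∃ e, s i = p * e := by
    intro i
    obtain ⟨e, he⟩ := hcl1 i
    refine ⟨(e : ZMod (p ^ j)) * w i, ?_⟩
    have h1 := congrArg (fun z : ℤ => (z : ZMod (p ^ j))) he
    simp only [Int.cast_sub, Int.cast_mul, Int.cast_natCast] at h1
    calc s i = (((v i).1 : ZMod (p ^ j)) - a.1 * ((v i).2.1 : ZMod (p ^ j))) * w i := by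
          rw [hs, hu]
          simp only
          rw [sub_mul, mul_assoc (a.1 : ZMod (p ^ j)), mul_comm ((v i).2.1 : ZMod (p ^ j)),
            hw i, mul_one]
      _ = p * (e * w i) := by
          rw [h1]
          ring
  have htp : ∀ i, ∃ e, t i = p * e := by
    intro i
    obtain ⟨e, he⟩ := hcl2 i
    refine ⟨(e : ZMod (p ^ j)) * w i, ?_⟩
    have h1 := congrArg (fun z : ℤ => (z : ZMod (p ^ j))) he
    simp only [Int.cast_sub, Int.cast_mul, Int.cast_natCast] at h1
    calc t i = (((v i).2.2 : ZMod (p ^ j)) - a.2 * ((v i).2.1 : ZMod (p ^ j))) * w i := by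
          rw [ht, hg]
          simp only
          rw [sub_mul, mul_assoc (a.2 : ZMod (p ^ j)), mul_comm ((v i).2.1 : ZMod (p ^ j)),
            hw i, mul_one]
      _ = p * (e * w i) := by
          rw [h1]
          ring
  have huy : ∀ i, u i * ((v i).2.1 : ZMod (p ^ j)) = ((v i).1 : ZMod (p ^ j)) := by
    intro i
    rw [hu]
    simp only
    rw [mul_assoc, hw i, mul_one]
  have hgy : ∀ i, g i * ((v i).2.1 : ZMod (p ^ j)) = ((v i).2.2 : ZMod (p ^ j)) := by
    intro i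
    rw [hg]
    simp only
    rw [mul_assoc, hw i, mul_one]
  -- the curve vanishes
  have hΨ : ∀ i, ev (s i) (t i) (sh a.1 a.2 Ψ) = 0 := by
    intro i
    rw [sh_ev]
    have h1 : ((a.1 : ℤ) : ZMod (p ^ j)) + s i = u i := by
      rw [hs]
      simp
    have h2 : ((a.2 : ℤ) : ZMod (p ^ j)) + t i = g i := by
      rw [ht]
      simp
    rw [h1, h2]
    have hy0 : (v i).2.1 ≠ 0 := by
      intro h
      have := hy i
      rw [h] at this
      exact this (dvd_zero _)
    have h3 := (van_iff (tdg Ψ) Ψ le_rfl (v i) hy0).1 (hvan i)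
    have h4 := hm_cast (k := ZMod (p ^ j)) (tdg Ψ) Ψ le_rfl (v i) (u i) (g i) (huy i) (hgy i)
    rw [h3, Int.cast_zero] at h4
    have h5 : (w i) ^ (tdg Ψ) * (((v i).2.1 : ZMod (p ^ j)) ^ (tdg Ψ) * ev (u i) (g i) Ψ) = 0 := by
      rw [← h4, mul_zero]
    rwa [← mul_assoc, ← mul_pow, hw i, one_pow, one_mul] at h5
  have hmon := red_monomial p j a0 b0 hp (sh a.1 a.2 Ψ) s t hsp htp hΨ h0 hlow hmax
  have hcomb : ∀ k, ∃ c : (Std a0 b0 j) → ZMod (p ^ j),
      ∑ σ, c σ • (fun i => s i ^ σ.1.1 * t i ^ σ.1.2) = fun i => u i ^ (m k).1 * g i ^ (m k).2 := by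
    intro k
    have h1 := MultDet_shift s t u g (a.1 : ZMod (p ^ j)) (a.2 : ZMod (p ^ j))
      (fun i => by rw [hs]; simp) (fun i => by rw [ht]; simp) _ hmon (m k).1 (m k).2
    exact (Submodule.mem_span_image_finset_iff_exists_fun (ZMod (p ^ j))).1 h1
  choose κ hκ using hcomb
  -- lifts
  set lf : ZMod (p ^ j) → ℤ := Function.surjInv ZMod.intCast_surjective with hlf
  have hlf' : ∀ x, ((lf x : ℤ) : ZMod (p ^ j)) = x :=
    fun x => Function.surjInv_eq ZMod.intCast_surjective x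
  set A : Matrix (Fin r) (Std a0 b0 j) ℤ := fun k σ => lf (κ k σ) with hA
  set B : Matrix (Std a0 b0 j) (Fin r) ℤ := fun σ i =>
    lf (((v i).2.1 : ZMod (p ^ j)) ^ q * (s i ^ σ.1.1 * t i ^ σ.1.2)) with hB
  set M : Matrix (Fin r) (Fin r) ℤ := Matrix.of fun k i =>
      (v i).1 ^ (m k).1 * (v i).2.2 ^ (m k).2 * (v i).2.1 ^ (q - (m k).1 - (m k).2) with hM
  have hdiff : ∀ k i, ((p ^ j : ℕ) : ℤ) ∣ M k i - (A * B) k i := by
    intro k i
    rw [← ZMod.intCast_zmod_eq_zero_iff_dvd]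
    push_cast
    have h1 : (((A * B) k i : ℤ) : ZMod (p ^ j)) =
        ((v i).2.1 : ZMod (p ^ j)) ^ q * (u i ^ (m k).1 * g i ^ (m k).2) := by
      rw [Matrix.mul_apply]
      push_cast
      have h2 := congrFun (hκ k) i
      rw [Finset.sum_apply] at h2
      rw [← h2, Finset.mul_sum]
      refine Finset.sum_congr rfl fun σ _ => ?_
      rw [hA, hB]
      simp only
      rw [hlf', hlf', Pi.smul_apply, smul_eq_mul]
      ring
    have h3 : ((M k i : ℤ) : ZMod (p ^ j)) =
        ((v i).2.1 : ZMod (p ^ j)) ^ q * (u i ^ (m k).1 * g i ^ (m k).2) := by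
      rw [hM, Matrix.of_apply]
      push_cast
      rw [← huy i, ← hgy i]
      have h4 : ((v i).2.1 : ZMod (p ^ j)) ^ q = ((v i).2.1 : ZMod (p ^ j)) ^ (m k).1 *
          ((v i).2.1 : ZMod (p ^ j)) ^ (m k).2 *
          ((v i).2.1 : ZMod (p ^ j)) ^ (q - (m k).1 - (m k).2) := by
        rw [← pow_add, ← pow_add]
        congr 1
        have := hmq k
        omega
      rw [h4, mul_pow, mul_pow]
      ring
    rw [h1, h3, sub_self]
  choose E hE using hdiff
  have hdec : M = A * B + ((p ^ j : ℕ) : ℤ) • (Matrix.of E) := by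
    ext k i
    rw [Matrix.add_apply, Matrix.smul_apply, Matrix.of_apply, smul_eq_mul, ← hE k i]
    ring
  have h1 := det_AB r ((p ^ j : ℕ) : ℤ) A B (Matrix.of E)
  rw [← hdec] at h1
  refine dvd_trans ?_ h1
  push_cast
  rw [← pow_mul]
  apply pow_dvd_pow
  apply Nat.mul_le_mul_left
  rw [Fintype.card_coe]
  have := std_card a0 b0 j
  omega

end FDP
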