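import Pool.Agent.W_fd120a_h8.S2Defs
import Pool.Agent.W_fd120a_h8.Local

set_option autoImplicit false

open Finset Polynomial
open scoped Classical

namespace FDP

theorem IsEdge.symm {b L : ℕ} {v w : Ln} (h : IsEdge b L v w) : IsEdge b L w v := by
  obtain ⟨D, h1, h2, h3, h4, z, hz1, hz2⟩ := h
  refine ⟨D, h1, h2, h3, ?_, z, hz2, hz1⟩
  rw [← h4, ← abs_neg]
  congr 1
  unfold dt
  ring

/-- the number of lines `v` such that the large prime `|dt v w|` divides a given integer -/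
theorem Nbr_card (b L d : ℕ) (hL : 1000 ≤ L) (V : Finset Ln) (hV : Adm b L V)
    (w : Ln) (hw : w ∈ V) (A : ℤ) (hA : A ≠ 0)
    (hAl : |A| < ((L ^ (2 * b - 1) : ℕ) : ℤ) ^ (60 * d + 1)) (T : Finset Ln) (hTV : T ⊆ V)
    (hT : ∀ v ∈ T, IsEdge b L v w ∧ ((dt v w).natAbs : ℤ) ∣ A) :
    T.card ≤ d * (L ^ 10 * 120) := by
  set f : Ln → ℕ := fun v => (dt v w).natAbs with hf
  have h1 : T.card ≤ (2 * L ^ 10) * (T.image f).card := by
    refine Finset.card_le_mul_card_image _ _ ?_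
    intro p _
    have hsub : T.filter (fun v => f v = p) ⊆
        V.filter (fun v => dt v w = (p : ℤ)) ∪ V.filter (fun v => dt v w = -(p : ℤ)) := by
      intro v hv
      rw [mem_filter] at hv
      have h2 : v ∈ V := hTV hv.1
      have h3 : (dt v w).natAbs = p := hv.2
      rw [mem_union, mem_filter, mem_filter]
      rcases Int.natAbs_eq (dt v w) with h4 | h4
      · left
        exact ⟨h2, by rw [h4, h3]⟩
      · right
        exact ⟨h2, by rw [h4, h3]⟩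
    refine (Finset.card_le_card hsub).trans ((Finset.card_union_le _ _).trans ?_)
    have h4 := hV.inj w hw (p : ℤ)
    have h5 := hV.inj w hw (-(p : ℤ))
    omega
  have h2 : (T.image f).card ≤ 60 * d := by
    have h3 := primeDiv_card_nat A hA (L ^ (2 * b - 1)) (60 * d) (Nat.one_le_pow _ _ (by omega))
      hAl (T.image f) (by
        intro p hp
        obtain ⟨v, hv, rfl⟩ := mem_image.1 hp
        obtain ⟨D, hD1, hD2, -, hD3, -⟩ := (hT v hv).1
        have h4 : (dt v w).natAbs = D := by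
          have h5 : |dt v w| = (D : ℤ) := hD3
          rw [Int.abs_eq_natAbs] at h5
          exact_mod_cast h5
        show (dt v w).natAbs.Prime ∧ L ^ (2 * b - 1) < (dt v w).natAbs
        rw [h4]
        exact ⟨hD1, hD2⟩)
    have h4 : (T.image f).filter (fun p : ℕ => (p : ℤ) ∣ A) = T.image f := by
      refine Finset.filter_true_of_mem ?_
      intro p hp
      obtain ⟨v, hv, rfl⟩ := mem_image.1 hp
      exact (hT v hv).2
    rwa [h4] at h3
  calc T.card ≤ (2 * L ^ 10) * (T.image f).card := h1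
    _ ≤ (2 * L ^ 10) * (60 * d) := Nat.mul_le_mul_left _ h2
    _ = d * (L ^ 10 * 120) := by ring

/-- the sizes of the coordinates -/
theorem Nbr_size (b L : ℕ) (hL : 1 ≤ L) (V : Finset Ln) (hV : Adm b L V) (w : Ln) (hw : w ∈ V) :
    (1 : ℤ) ≤ (L : ℤ) ^ (51 * b + 10) ∧ |w.1| ≤ (L : ℤ) ^ (51 * b + 10) ∧
      |w.2.1| ≤ (L : ℤ) ^ (51 * b + 10) ∧ |w.2.2| ≤ (L : ℤ) ^ (51 * b + 10) := by
  have hLZ : (1 : ℤ) ≤ L := by exact_mod_cast hL
  have h1 : (L : ℤ) ^ (b + 10) ≤ (L : ℤ) ^ (51 * b + 10) :=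
    pow_le_pow_right₀ hLZ (by omega)
  exact ⟨one_le_pow₀ hLZ, (hV.bx w hw).trans h1, (hV.bdy w hw).trans h1, hV.bc w hw⟩

/-- Extrapolation along the edges.  If `F`, of degree at most `d` and small height, vanishes at
`d L ^ 11` neighbours of `w` then it vanishes at `w`.
Proof.  The primes `D = |dt v w|` of the edges divide `hm d F w` (`edge_dvd`); each occurs for at most
`2 L ^ 10` of the `v` (`Adm.inj`, signs), so there are more than `60 d` of them, all larger than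
`L ^ (2b-1)`, and `|hm d F w| ≤ (d+1)^2 L^(52bd) L^((51b+10)d) < (L^(2b-1))^(60d+1)` (`hm_abs_le`,
`local_A`); so `hm d F w = 0` (compare `local_bad` in Local.lean, `primeDiv_card_nat`). -/
theorem nbrs_van (b : ℕ) (hb : 1000 ≤ b) : ∃ L0 : ℕ, ∀ L, L0 ≤ L → ∀ V : Finset Ln, Adm b L V →
    ∀ (d : ℕ) (F : ℤ[X][X]), 1 ≤ d → tdg F ≤ d →
    (∀ j i, |(F.coeff j).coeff i| ≤ (L : ℤ) ^ (52 * b * d)) → ∀ w ∈ V, ∀ A : Finset Ln, A ⊆ V →
    (∀ v ∈ A, IsEdge b L v w ∧ Van F v) → d * L ^ 11 ≤ A.card → Van F w := by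
  refine ⟨1000, fun L hL V hV d F hd hFd hFH w hw A hAV hA hAc => ?_⟩
  by_contra hcon
  obtain ⟨hM1, hx, hy, hc⟩ := Nbr_size b L (by omega) V hV w hw
  have hwy := hV.ynz w hw
  have hne : hm d F w ≠ 0 := fun h => hcon ((van_iff d F hFd w hwy).2 h)
  have hsz : |hm d F w| < ((L ^ (2 * b - 1) : ℕ) : ℤ) ^ (60 * d + 1) := by
    refine lt_of_le_of_lt ?_ (local_A b L d hb hL hd)
    refine (hm_abs_le d F w ((L : ℤ) ^ (52 * b * d)) ((L : ℤ) ^ (51 * b + 10)) hM1
      (fun j i => hFH j i) hx hy hc).trans ?_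
    refine mul_le_mul_of_nonneg_right ?_ (by positivity)
    refine mul_le_mul_of_nonneg_left ?_ (by positivity)
    refine le_mul_of_one_le_left (by positivity) ?_
    exact one_le_pow₀ (by norm_num)
  have hcard := Nbr_card b L d hL V hV w hw (hm d F w) hne hsz A hAV (by
    intro v hv
    refine ⟨(hA v hv).1, ?_⟩
    obtain ⟨D, hD1, hD2, -, hD3, z, hz1, hz2⟩ := (hA v hv).1
    have h2 : (dt v w).natAbs = D := by
      have h5 : |dt v w| = (D : ℤ) := hD3
      rw [Int.abs_eq_natAbs] at h5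
      exact_mod_cast h5
    rw [h2]
    exact edge_dvd b L (by omega) (by omega) v w (hV.ynz v (hAV hv)) hwy (hV.bdy v (hAV hv))
      (hV.bdy w hw) D hD1 hD2 hD3 z hz1 hz2 F (hA v hv).2 d hFd)
  have h3 : d * (L ^ 10 * 120) < d * L ^ 11 := by
    refine Nat.mul_lt_mul_of_pos_left ?_ hd
    rw [pow_succ]
    exact (Nat.mul_lt_mul_left (show 0 < L ^ 10 from Nat.pow_pos (by omega))).2 (by omega)
  omega

/-- Divisibility of `A w` by the prime of an edge happens for few edges (see `exists_A`).  If `F ≠ 0`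
is of degree at most `d` and small height and `w` is not exceptional for `F`, then for all but
`d L ^ 11` of the neighbours `v` of `w` in `V` every divisor of `F` that vanishes at `v` vanishes
at `w`.
Proof.  Let `A w` be given by `exists_A` (`local_A` for its size); by `local_bad` at most `d L ^ 11` of
the neighbours `v` have `|dt v w|` dividing `A w`; if `D = |dt v w|` does not divide `A w`, `Ψ ∣ F`
and `Ψ` vanishes at `v`, then `D ∣ hm (tdg Ψ) Ψ w` (`edge_dvd`), so this integer does not divide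
`A w` and `Ψ` vanishes at `w` (`exists_A`). -/
theorem bad_nbrs (b : ℕ) (hb : 1000 ≤ b) : ∃ L0 : ℕ, ∀ L, L0 ≤ L → ∀ V : Finset Ln, Adm b L V →
    ∀ (d : ℕ) (F : ℤ[X][X]), 1 ≤ d → F ≠ 0 → tdg F ≤ d →
    (∀ j i, |(F.coeff j).coeff i| ≤ (L : ℤ) ^ (52 * b * d)) → ∀ w ∈ V, ¬ Exc F w →
    (V.filter (fun v => IsEdge b L v w ∧ ∃ Ψ : ℤ[X][X], Ψ ∣ F ∧ Van Ψ v ∧ ¬ Van Ψ w)).card ≤
      d * L ^ 11 := by
  refine ⟨1000, fun L hL V hV d F hd hF0 hFd hFH w hw hexc => ?_⟩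
  obtain ⟨hM1, hx, hy, hc⟩ := Nbr_size b L (by omega) V hV w hw
  have hwy := hV.ynz w hw
  obtain ⟨A, hA0, hA1, hA2⟩ := exists_A d F hF0 hFd ((L : ℤ) ^ (52 * b * d))
    ((L : ℤ) ^ (51 * b + 10)) hM1 hFH w hwy hx hy hc hexc
  have hsz : |A| < ((L ^ (2 * b - 1) : ℕ) : ℤ) ^ (60 * d + 1) :=
    lt_of_le_of_lt hA1 (local_A b L d hb hL hd)
  have hcard := Nbr_card b L d hL V hV w hw A hA0 hsz
    (V.filter (fun v => IsEdge b L v w ∧ ∃ Ψ : ℤ[X][X], Ψ ∣ F ∧ Van Ψ v ∧ ¬ Van Ψ w))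
    (Finset.filter_subset _ _) (by
    intro v hv
    obtain ⟨hvV, hE, Ψ, hΨ1, hΨ2, hΨ3⟩ := mem_filter.1 hv
    refine ⟨hE, ?_⟩
    obtain ⟨D, hD1, hD2, -, hD3, z, hz1, hz2⟩ := hE
    have h2 : (dt v w).natAbs = D := by
      have h5 : |dt v w| = (D : ℤ) := hD3
      rw [Int.abs_eq_natAbs] at h5
      exact_mod_cast h5
    rw [h2]
    exact (edge_dvd b L (by omega) (by omega) v w (hV.ynz v hvV) hwy (hV.bdy v hvV)
      (hV.bdy w hw) D hD1 hD2 hD3 z hz1 hz2 Ψ hΨ2 (tdg Ψ) le_rfl).trans ((hA2 Ψ hΨ1).1 hΨ3))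
  refine hcard.trans ?_
  refine Nat.mul_le_mul_left _ ?_
  rw [pow_succ]
  exact Nat.mul_le_mul_left _ (by omega)

end FDP
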