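import Pool.Agent.W_fd120a_h8.ClassDet

set_option autoImplicit false

open Finset Polynomial
open scoped Classical

namespace FDP

/-- the polynomial with coefficients `β` on `I` -/
noncomputable def rk_pol (I : Finset (ℕ × ℕ)) (β : ℕ × ℕ → ℤ) : ℤ[X][X] :=
  ∑ m ∈ I, monomial m.2 (monomial m.1 (β m))

theorem rk_coeff (I : Finset (ℕ × ℕ)) (β : ℕ × ℕ → ℤ) (j i : ℕ) :
    ((rk_pol I β).coeff j).coeff i = if (i, j) ∈ I then β (i, j) else 0 := by
  unfold rk_pol
  rw [finsetSum_coeff, finsetSum_coeff]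
  rw [← Finset.sum_filter_add_sum_filter_not I (fun m => m = (i, j))]
  have h2 : ∑ m ∈ I.filter (fun m => ¬ m = (i, j)),
      ((monomial m.2 (monomial m.1 (β m)) : ℤ[X][X]).coeff j).coeff i = 0 := by
    apply Finset.sum_eq_zero
    intro m hm
    have hm' := (Finset.mem_filter.1 hm).2
    rw [coeff_monomial]
    split_ifs with h
    · rw [coeff_monomial]
      split_ifs with h'
      · exact absurd (Prod.ext h' h) hm'
      · rfl
    · rw [coeff_zero]
  rw [h2, add_zero]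
  split_ifs with h
  · have h3 : I.filter (fun m => m = (i, j)) = {(i, j)} := by
      ext m
      rw [Finset.mem_filter, Finset.mem_singleton]
      constructor
      · exact fun hm => hm.2
      · rintro rfl
        exact ⟨h, rfl⟩
    rw [h3, Finset.sum_singleton]
    simp
  · apply Finset.sum_eq_zero
    intro m hm
    have hm' := Finset.mem_filter.1 hm
    exact absurd (hm'.2 ▸ hm'.1) h

theorem rk_hm (I : Finset (ℕ × ℕ)) (β : ℕ × ℕ → ℤ) (q : ℕ) (hI : ∀ m ∈ I, m.1 + m.2 ≤ q)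
    (v : Ln) : hm q (rk_pol I β) v =
      ∑ m ∈ I, β m * (v.1 ^ m.1 * v.2.2 ^ m.2 * v.2.1 ^ (q - m.1 - m.2)) := by
  unfold hm
  simp only [rk_coeff]
  rw [Finset.sum_sigma']
  symm
  refine Finset.sum_of_injOn (fun m => (⟨m.2, m.1⟩ : Σ _ : ℕ, ℕ)) ?_ ?_ ?_ ?_
  · rintro m - m' - h
    simp only [Sigma.mk.injEq, heq_eq_eq] at h
    exact Prod.ext h.2 h.1
  · intro m hm
    have h := hI m hm
    simp only [Finset.coe_sigma, Set.mem_sigma_iff, Finset.coe_range, Set.mem_Iio]
    omega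
  · rintro ⟨j, i⟩ - h
    have : (i, j) ∉ I := fun h' => h ⟨(i, j), h', rfl⟩
    simp only [if_neg this, zero_mul]
  · intro m hm
    simp only [if_pos hm]
    ring

/-- Linear algebra: if all the determinants of the monomials of `I` at `|I|` points of `C` vanish
then a non-zero combination of these monomials vanishes on `C`.
Proof.  The vectors `(monomial k at v)_k ∈ ℚ^I`, `v ∈ C`, do not span `ℚ^I` (otherwise a basis could be
extracted from them, with non-zero determinant); so some non-zero linear form kills all of them;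
clear the denominators. -/
theorem exists_vanish_of_det (I : Finset (ℕ × ℕ)) (hI0 : I.Nonempty) (q : ℕ)
    (hI : ∀ m ∈ I, m.1 + m.2 ≤ q) (C : Finset Ln)
    (hdet : ∀ (v : Fin I.card → Ln) (m : Fin I.card → ℕ × ℕ), (∀ i, v i ∈ C) → (∀ k, m k ∈ I) →
      Matrix.det (Matrix.of fun k i =>
        (v i).1 ^ (m k).1 * (v i).2.2 ^ (m k).2 * (v i).2.1 ^ (q - (m k).1 - (m k).2)) = 0) :
    ∃ Φ : ℤ[X][X], Φ ≠ 0 ∧ (∀ j i, (Φ.coeff j).coeff i ≠ 0 → (i, j) ∈ I) ∧
      ∀ v ∈ C, hm q Φ v = 0 := by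
  obtain ⟨e⟩ : Nonempty (Fin I.card ≃ I) := ⟨I.equivFin.symm⟩
  obtain ⟨M, hM⟩ : ∃ M : Ln → (Fin I.card → ℚ), M = fun v k =>
      (v.1 : ℚ) ^ (e k).1.1 * (v.2.2 : ℚ) ^ (e k).1.2 *
        (v.2.1 : ℚ) ^ (q - (e k).1.1 - (e k).1.2) := ⟨_, rfl⟩
  by_cases hspan : Submodule.span ℚ (M '' (C : Set Ln)) = ⊤
  · exfalso
    obtain ⟨b, hb1, hb2, hb3⟩ := exists_linearIndependent ℚ (M '' (C : Set Ln))
    have hbas : Nonempty (Module.Basis b ℚ (Fin I.card → ℚ)) :=
      ⟨Module.Basis.mk hb3 (by rw [Subtype.range_coe, hb2, hspan])⟩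
    obtain ⟨bas⟩ := hbas
    have eq1 : Fin I.card ≃ b := (Pi.basisFun ℚ (Fin I.card)).indexEquiv bas
    have hch : ∀ x : b, ∃ v ∈ C, M v = x.1 := fun x => by
      obtain ⟨v, hv, hvx⟩ := hb1 x.2
      exact ⟨v, hv, hvx⟩
    choose w hw1 hw2 using hch
    have hli : LinearIndependent ℚ (fun i : Fin I.card => M (w (eq1 i))) := by
      have h1 := hb3.comp eq1 eq1.injective
      have h2 : (fun i : Fin I.card => M (w (eq1 i))) = (fun x : b => (x : Fin I.card → ℚ)) ∘ eq1 := by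
        funext i
        exact hw2 _
      rw [h2]
      exact h1
    have hdet0 := hdet (fun i => w (eq1 i)) (fun k => (e k).1) (fun i => hw1 _) (fun k => (e k).2)
    have hunit : IsUnit (Matrix.of fun (k i : Fin I.card) => M (w (eq1 i)) k) := by
      rw [← Matrix.linearIndependent_cols_iff_isUnit]
      exact hli
    rw [Matrix.isUnit_iff_isUnit_det] at hunit
    apply hunit.ne_zero
    have h3 : (Matrix.of fun (k i : Fin I.card) => M (w (eq1 i)) k) =
        (Matrix.of fun (k i : Fin I.card) => (w (eq1 i)).1 ^ (e k).1.1 * (w (eq1 i)).2.2 ^ (e k).1.2 *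
          (w (eq1 i)).2.1 ^ (q - (e k).1.1 - (e k).1.2)).map (Int.castRingHom ℚ) := by
      ext k i
      rw [hM]
      simp
    rw [h3, ← RingHom.mapMatrix_apply, ← RingHom.map_det, hdet0, map_zero]
  · obtain ⟨f, hf0, hf⟩ := Submodule.exists_le_ker_of_lt_top _ (lt_top_iff_ne_top.2 hspan)
    obtain ⟨⟨N, hN⟩, hNb⟩ := IsLocalization.exist_integer_multiples_of_finite (nonZeroDivisors ℤ)
      (fun k : Fin I.card => f (Pi.single k 1))
    have hN0 : N ≠ 0 := nonZeroDivisors.ne_zero hN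
    choose b hb using hNb
    have hb' : ∀ k, (b k : ℚ) = N * f (Pi.single k 1) := by
      intro k
      have := hb k
      simpa using this
    obtain ⟨β, hβ⟩ : ∃ β : ℕ × ℕ → ℤ, β = fun m => if h : m ∈ I then b (e.symm ⟨m, h⟩) else 0 :=
      ⟨_, rfl⟩
    have hβe : ∀ k, β (e k).1 = b k := by
      intro k
      rw [hβ]
      simp
    refine ⟨rk_pol I β, ?_, ?_, ?_⟩
    · intro h0
      apply hf0
      apply (Pi.basisFun ℚ (Fin I.card)).ext
      intro k
      rw [Pi.basisFun_apply, LinearMap.zero_apply]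
      have h1 := rk_coeff I β (e k).1.2 (e k).1.1
      rw [h0, coeff_zero, coeff_zero, if_pos (e k).2] at h1
      have h2 : b k = 0 := by
        rw [← hβe k]
        exact h1.symm
      have h3 := hb' k
      rw [h2, Int.cast_zero] at h3
      have h4 : (N : ℚ) ≠ 0 := by exact_mod_cast hN0
      rcases mul_eq_zero.1 h3.symm with h5 | h5
      · exact absurd h5 h4
      · exact h5
    · intro j i hij
      rw [rk_coeff] at hij
      by_contra h
      exact hij (if_neg h)
    · intro v hv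
      rw [rk_hm I β q hI]
      have h1 : M v ∈ LinearMap.ker f := hf (Submodule.subset_span ⟨v, hv, rfl⟩)
      rw [LinearMap.mem_ker] at h1
      have h2 : f (M v) = ∑ k, M v k * f (Pi.single k 1) := by
        conv_lhs => rw [← (Pi.basisFun ℚ (Fin I.card)).sum_repr (M v)]
        rw [map_sum]
        apply Finset.sum_congr rfl
        intro k _
        rw [map_smul, Pi.basisFun_apply, Pi.basisFun_repr, smul_eq_mul]
      have h3 : ((∑ m ∈ I, β m * (v.1 ^ m.1 * v.2.2 ^ m.2 * v.2.1 ^ (q - m.1 - m.2)) : ℤ) : ℚ) =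
          N * f (M v) := by
        rw [h2, Finset.mul_sum, ← Finset.sum_coe_sort I]
        rw [← e.sum_comp]
        rw [Int.cast_sum]
        apply Finset.sum_congr rfl
        intro k _
        rw [hβe, Int.cast_mul, hb', hM]
        push_cast
        ring
      rw [h1, mul_zero] at h3
      exact_mod_cast h3

/-- The points of an irreducible curve in one class mod `p` (good reduction) lie on an auxiliary
curve with monomials in `I`, as soon as `p` is large compared with the size of the monomials.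
Proof.  By `exists_vanish_of_det` and `class_det`: a determinant as in `class_det` with `r = |I|` is
divisible by `p ^ (r (r-1)/2)` and at most `r! * Bd ^ r` in absolute value, so it vanishes. -/
theorem class_curve (p : ℕ) (hp : p.Prime) (Ψ : ℤ[X][X]) (I : Finset (ℕ × ℕ)) (hI0 : I.Nonempty)
    (q : ℕ) (hI : ∀ m ∈ I, m.1 + m.2 ≤ q) (C : Finset Ln)
    (hy : ∀ v ∈ C, ¬ (p : ℤ) ∣ v.2.1) (hcl : ∀ v ∈ C, ∀ w ∈ C, SameCl p v w)
    (hvan : ∀ v ∈ C, Van Ψ v)
    (hns : ∀ v ∈ C, ¬ (p : ℤ) ∣ hm (tdg Ψ - 1) (derivative Ψ) v)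
    (Bd : ℤ) (hBd : ∀ v ∈ C, ∀ m ∈ I,
      |v.1 ^ m.1 * v.2.2 ^ m.2 * v.2.1 ^ (q - m.1 - m.2)| ≤ Bd)
    (hlarge : (I.card.factorial : ℤ) * Bd ^ I.card < (p : ℤ) ^ (I.card * (I.card - 1) / 2)) :
    ∃ Φ : ℤ[X][X], Φ ≠ 0 ∧ (∀ j i, (Φ.coeff j).coeff i ≠ 0 → (i, j) ∈ I) ∧
      ∀ v ∈ C, Van Φ v := by
  obtain ⟨Φ, hΦ0, hΦI, hΦ⟩ := exists_vanish_of_det I hI0 q hI C (by
    intro v m hv hm
    have h1 := class_det p hp Ψ I.card v q m (fun k => hI _ (hm k)) (fun i => hy _ (hv i))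
      (fun i j => hcl _ (hv i) _ (hv j)) (fun i => hvan _ (hv i)) (fun i => hns _ (hv i))
    apply Int.eq_zero_of_abs_lt_dvd h1
    refine lt_of_le_of_lt ?_ hlarge
    have h2 := Matrix.det_le (A := Matrix.of fun k i =>
      (v i).1 ^ (m k).1 * (v i).2.2 ^ (m k).2 * (v i).2.1 ^ (q - (m k).1 - (m k).2))
      (abv := (AbsoluteValue.abs : AbsoluteValue ℤ ℤ)) (x := Bd)
      (fun k i => hBd _ (hv i) _ (hm k))
    rw [Fintype.card_fin, nsmul_eq_mul] at h2
    exact h2)
  refine ⟨Φ, hΦ0, hΦI, fun v hv => ?_⟩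
  have h3 : tdg Φ ≤ q := by
    rw [tdg_le_iff]
    intro j i hij
    exact hI _ (hΦI j i hij)
  have h4 : v.2.1 ≠ 0 := by
    intro h
    apply hy v hv
    rw [h]
    exact dvd_zero _
  exact (van_iff q Φ h3 v h4).2 (hΦ v hv)

end FDP
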