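import Pool.Agent.W_fd120a_h8.Red
import Pool.Agent.W_fd120a_h8.Rank

set_option autoImplicit false

open Finset Polynomial
open scoped Classical

namespace FDP

/-- the exponents `(i, j)` with `j < l` and `i + j ≤ q` -/
noncomputable def PCB_set (q l : ℕ) : Finset (ℕ × ℕ) :=
  ((Finset.range l).sigma (fun j => Finset.range (q + 1 - j))).image
    (fun x : Σ _ : ℕ, ℕ => (x.2, x.1))

theorem PCB_mem_set (q l : ℕ) (m : ℕ × ℕ) : m ∈ PCB_set q l ↔ m.2 < l ∧ m.1 + m.2 ≤ q := by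
  unfold PCB_set
  rw [Finset.mem_image]
  constructor
  · rintro ⟨x, hx, rfl⟩
    rw [Finset.mem_sigma, Finset.mem_range, Finset.mem_range] at hx
    dsimp only
    omega
  · rintro ⟨h1, h2⟩
    refine ⟨⟨m.2, m.1⟩, ?_, rfl⟩
    rw [Finset.mem_sigma, Finset.mem_range, Finset.mem_range]
    dsimp only
    omega

theorem PCB_card_set (q l : ℕ) (h : l ≤ q + 1) :
    2 * (PCB_set q l).card + l * l = 2 * l * (q + 1) + l := by
  unfold PCB_set
  rw [Finset.card_image_of_injective, Finset.card_sigma]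
  · simp only [Finset.card_range]
    induction l with
    | zero => simp
    | succ n ih =>
      have h1 := ih (by omega)
      rw [Finset.sum_range_succ]
      have h2 : q + 1 - n + n = q + 1 := by omega
      nlinarith
  · rintro ⟨a, b⟩ ⟨c, d⟩ h
    simp only [Prod.mk.injEq] at h
    obtain ⟨rfl, rfl⟩ := h
    rfl

/-- the numerical condition of `class_curve` -/
theorem PCB_large (s B L P p : ℕ) (hs2 : 2 ≤ s) (hsL : s ≤ L) (hB : 2 * (B + 1) ≤ P * (s - 1))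
    (hp : L ^ P < p) :
    ((s.factorial : ℕ) : ℤ) * ((L : ℤ) ^ B) ^ s < (p : ℤ) ^ (s * (s - 1) / 2) := by
  have hL1 : 1 ≤ L := by omega
  have h1 : s.factorial * (L ^ B) ^ s ≤ L ^ (s * (B + 1)) := by
    calc s.factorial * (L ^ B) ^ s ≤ s ^ s * (L ^ B) ^ s :=
          Nat.mul_le_mul_right _ (Nat.factorial_le_pow s)
      _ = (s * L ^ B) ^ s := (mul_pow _ _ _).symm
      _ ≤ (L ^ (B + 1)) ^ s := by
          apply Nat.pow_le_pow_left
          calc s * L ^ B ≤ L * L ^ B := Nat.mul_le_mul_right _ hsL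
            _ = L ^ (B + 1) := by rw [pow_succ, mul_comm]
      _ = L ^ (s * (B + 1)) := by rw [← pow_mul, mul_comm s]
  have h2 : 2 * (s * (s - 1) / 2) = (s - 1) * s := by
    have h3 : 2 ∣ s * (s - 1) := by
      have := Nat.even_mul_pred_self s
      exact this.two_dvd
    rw [Nat.mul_div_cancel' h3, mul_comm]
  have h5 : s * (s - 1) / 2 ≠ 0 := by
    intro h0
    rw [h0, mul_zero] at h2
    have h6 : 0 < (s - 1) * s := Nat.mul_pos (by omega) (by omega)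
    omega
  have h6 : s * (B + 1) ≤ P * (s * (s - 1) / 2) := by
    have h7 : 2 * (s * (B + 1)) ≤ 2 * (P * (s * (s - 1) / 2)) := by
      calc 2 * (s * (B + 1)) = s * (2 * (B + 1)) := by ring
        _ ≤ s * (P * (s - 1)) := Nat.mul_le_mul_left _ hB
        _ = P * ((s - 1) * s) := by ring
        _ = P * (2 * (s * (s - 1) / 2)) := by rw [h2]
        _ = 2 * (P * (s * (s - 1) / 2)) := by ring
    omega
  have h7 : (L ^ P) ^ (s * (s - 1) / 2) < p ^ (s * (s - 1) / 2) := Nat.pow_lt_pow_left hp h5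
  have h8 : s.factorial * (L ^ B) ^ s < p ^ (s * (s - 1) / 2) := by
    refine lt_of_le_of_lt (h1.trans ?_) h7
    rw [← pow_mul]
    exact Nat.pow_le_pow_right hL1 h6
  exact_mod_cast h8

/-- the arithmetic of the exponents -/
theorem PCB_arith (c l s : ℕ) (hc : 250 ≤ c) (hl : 2 ≤ l)
    (hs : 2 * s + l * l = 2 * l * (220 * l + 1) + l) :
    2 * (((4 * c + 10) * (220 * l) + 50 * (4 * c) * (l - 1)) + 1) ≤ 5 * c * (s - 1) := by
  obtain ⟨l', rfl⟩ : ∃ l', l = l' + 2 := ⟨l - 2, by omega⟩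
  have hs1 : 1 ≤ s := by
    by_contra h0
    have h1 : s = 0 := by omega
    subst h1
    nlinarith
  obtain ⟨s', rfl⟩ : ∃ s', s = s' + 1 := ⟨s - 1, by omega⟩
  obtain ⟨c', rfl⟩ : ∃ c', c = c' + 250 := ⟨c - 250, by omega⟩
  have e1 : l' + 2 - 1 = l' + 1 := by omega
  have e2 : s' + 1 - 1 = s' := by omega
  rw [e1, e2]
  have h3 : 2 * s' = 439 * (l' * l') + 1759 * l' + 1760 := by
    have : 2 * (s' + 1) + (l' + 2) * (l' + 2) = 2 * (l' + 2) * (220 * (l' + 2) + 1) + (l' + 2) := hs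
    nlinarith
  have h4 : 2 * (2 * ((4 * (c' + 250) + 10) * (220 * (l' + 2)) + 50 * (4 * (c' + 250)) * (l' + 1) + 1)) ≤
      2 * (5 * (c' + 250) * s') := by
    have h5 : 2 * (5 * (c' + 250) * s') = 5 * (c' + 250) * (439 * (l' * l') + 1759 * l' + 1760) := by
      rw [← h3]
      ring
    rw [h5]
    nlinarith [Nat.zero_le (c' * (l' * l')), Nat.zero_le (c' * l'), Nat.zero_le (l' * l')]
  exact Nat.le_of_mul_le_mul_left h4 (by norm_num)

/-- One class, bounded degree, `l = deg_Γ Ψ ≥ 2`.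
Proof.  `class_curve` with `q = 220 l`, `I = {(i, j) : j < l, i + j ≤ q}`,
`s = |I| = l (q + 1) - l (l - 1) / 2` and `Bd = L ^ ((b + 10) q + 50 b (l - 1))` (a monomial
`x^i c^j y^(q-i-j)`, `j ≤ l - 1`, is at most `(L^(b+10))^(q-j) (L^(51b+10))^j`).  One needs
`s! * Bd ^ s < p ^ (s (s-1)/2)`, with `p > L ^ (5 b / 4)`: it suffices that
`s * Bd < L ^ ((5 b / 4) (s - 1) / 2)`, true for `L` large because
`(5 b / 4) (s - 1) / 2 ≥ (b + 10) q + 50 b (l - 1) + 1`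
(with `s - 1 ≥ l q - l ^ 2 / 2`, `q = 220 l`, `l ≥ 2`, `b ≥ 1000`; `4 ∣ b`).
The curve `Φ` has `deg_Γ Φ < l`, so `Ψ ∤ Φ`, and `tdg Φ ≤ 220 l ≤ 220 tdg Ψ`; apply `bezout_card`. -/
theorem classB (b : ℕ) (hb : 1000 ≤ b) (h4 : 4 ∣ b) : ∃ L0 : ℕ, ∀ L, L0 ≤ L →
    ∀ (V : Finset Ln) (d : ℕ)
    (F Ψ : ℤ[X][X]), PCH b L V d F Ψ → 2 ≤ Ψ.natDegree → tdg Ψ ≤ 110 * b →
    ∀ p : ℕ, p.Prime → L ^ (b + b / 4) < p → ∀ C : Finset Ln, C ⊆ V →
    (∀ v ∈ C, ¬ (p : ℤ) ∣ v.2.1) → (∀ v ∈ C, ∀ w ∈ C, SameCl p v w) → (∀ v ∈ C, Van Ψ v) →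
    (∀ v ∈ C, ¬ (p : ℤ) ∣ hm (tdg Ψ - 1) (derivative Ψ) v) →
    C.card ≤ L ^ 11 := by
  refine ⟨440 * (110 * b) ^ 2 + 110 * b * (220 * (110 * b) + 1) + 1, ?_⟩
  intro L hL V d F Ψ h h2 hdeg p hp hLp C hCV hy hcl hvan hns
  have hL1 : 1 ≤ L := by omega
  obtain ⟨l, hl⟩ : ∃ l, l = Ψ.natDegree := ⟨_, rfl⟩
  rw [← hl] at h2
  have hlt : l ≤ tdg Ψ := by
    rw [hl]
    exact natDegree_le_tdg Ψ
  obtain ⟨c, rfl⟩ := h4
  have hc : 250 ≤ c := by omega
  have hP : 4 * c + 4 * c / 4 = 5 * c := by omega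
  rw [hP] at hLp
  have hcard := PCB_card_set (220 * l) l (by omega)
  have harith := PCB_arith c l (PCB_set (220 * l) l).card hc h2 hcard
  obtain ⟨s, hs⟩ : ∃ s, s = (PCB_set (220 * l) l).card := ⟨_, rfl⟩
  rw [← hs] at hcard harith
  have hs2 : 2 ≤ s := by nlinarith
  have hsL : s ≤ L := by
    have h3 : s ≤ l * (220 * l + 1) := by nlinarith
    have h5 : l * (220 * l + 1) ≤ 110 * (4 * c) * (220 * (110 * (4 * c)) + 1) := by
      have h6 : l ≤ 110 * (4 * c) := hlt.trans hdeg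
      gcongr
    omega
  obtain ⟨Φ, hΦ0, hΦI, hΦv⟩ := class_curve p hp Ψ (PCB_set (220 * l) l)
    (Finset.card_pos.1 (by omega)) (220 * l) (fun m hm => ((PCB_mem_set _ _ m).1 hm).2) C hy hcl
    hvan hns ((L : ℤ) ^ ((4 * c + 10) * (220 * l) + 50 * (4 * c) * (l - 1))) (by
      intro v hv m hm
      obtain ⟨hm1, hmq⟩ := (PCB_mem_set _ _ m).1 hm
      have a1 : |v.1| ≤ (L : ℤ) ^ (4 * c + 10) := h.adm.bx v (hCV hv)
      have a2 : |v.2.1| ≤ (L : ℤ) ^ (4 * c + 10) := h.adm.bdy v (hCV hv)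
      have a3 : |v.2.2| ≤ (L : ℤ) ^ (51 * (4 * c) + 10) := h.adm.bc v (hCV hv)
      rw [abs_mul, abs_mul, abs_pow, abs_pow, abs_pow]
      have e1 : ((L : ℤ) ^ (4 * c + 10)) ^ m.1 * ((L : ℤ) ^ (51 * (4 * c) + 10)) ^ m.2 *
            ((L : ℤ) ^ (4 * c + 10)) ^ (220 * l - m.1 - m.2) =
            (L : ℤ) ^ ((4 * c + 10) * (220 * l) + 50 * (4 * c) * m.2) := by
        rw [← pow_mul, ← pow_mul, ← pow_mul, ← pow_add, ← pow_add]
        congr 1
        have e2 : 220 * l = m.1 + m.2 + (220 * l - m.1 - m.2) := by omega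
        obtain ⟨t, ht⟩ : ∃ t, t = 220 * l - m.1 - m.2 := ⟨_, rfl⟩
        rw [← ht] at e2 ⊢
        rw [e2]
        ring
      have e3 : (L : ℤ) ^ ((4 * c + 10) * (220 * l) + 50 * (4 * c) * m.2) ≤
          (L : ℤ) ^ ((4 * c + 10) * (220 * l) + 50 * (4 * c) * (l - 1)) := by
        refine pow_le_pow_right₀ (by exact_mod_cast hL1) ?_
        have e4 : m.2 ≤ l - 1 := by omega
        gcongr
      refine le_trans ?_ (e1.le.trans e3)
      refine mul_le_mul (mul_le_mul (pow_le_pow_left₀ (abs_nonneg _) a1 _)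
        (pow_le_pow_left₀ (abs_nonneg _) a3 _) (by positivity) (by positivity))
        (pow_le_pow_left₀ (abs_nonneg _) a2 _) (by positivity) (by positivity))
    (by
      rw [← hs]
      exact PCB_large s _ L (5 * c) p hs2 hsL harith hLp)
  have hΦd : tdg Φ ≤ 220 * l := by
    rw [tdg_le_iff]
    intro j i hij
    exact ((PCB_mem_set _ _ _).1 (hΦI j i hij)).2
  have hnd : ¬ Ψ ∣ Φ := by
    intro hdv
    have h3 := natDegree_le_of_dvd hdv hΦ0
    have h5 : Φ.coeff Φ.natDegree ≠ 0 := by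
      rw [coeff_natDegree, ne_eq, leadingCoeff_eq_zero]
      exact hΦ0
    have h6 : ∃ i, (Φ.coeff Φ.natDegree).coeff i ≠ 0 := by
      by_contra hcon
      push Not at hcon
      apply h5
      ext i
      rw [hcon i, coeff_zero]
    obtain ⟨i, hi⟩ := h6
    have h7 := ((PCB_mem_set _ _ _).1 (hΦI _ _ hi)).1
    dsimp only at h7
    omega
  have hbz := bezout_card (4 * c) L V h.adm Ψ Φ h.irr (by omega) hnd
  have hsub : C ⊆ V.filter (fun v => Van Ψ v ∧ Van Φ v) := by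
    intro v hv
    rw [Finset.mem_filter]
    exact ⟨hCV hv, hvan v hv, hΦv v hv⟩
  refine (Finset.card_le_card hsub).trans (hbz.trans ?_)
  have h8 : tdg Ψ * tdg Φ ≤ 220 * (110 * (4 * c)) ^ 2 := by
    calc tdg Ψ * tdg Φ ≤ tdg Ψ * (220 * l) := Nat.mul_le_mul_left _ hΦd
      _ ≤ (110 * (4 * c)) * (220 * (110 * (4 * c))) := by
          have h9 : l ≤ 110 * (4 * c) := hlt.trans hdeg
          gcongr
      _ = 220 * (110 * (4 * c)) ^ 2 := by ring
  calc 2 * (tdg Ψ * tdg Φ) * L ^ 10 ≤ 2 * (220 * (110 * (4 * c)) ^ 2) * L ^ 10 := by gcongr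
    _ ≤ L * L ^ 10 := Nat.mul_le_mul_right _ (by omega)
    _ = L ^ 11 := by ring

/-- the class of a point modulo `p` -/
noncomputable def PCB_cl (p : ℕ) [Fact p.Prime] (v : Ln) : ZMod p × ZMod p :=
  ((v.1 : ZMod p) / (v.2.1 : ZMod p), (v.2.2 : ZMod p) / (v.2.1 : ZMod p))

theorem PCB_same (p : ℕ) [Fact p.Prime] (v w : Ln) (hv : ¬ (p : ℤ) ∣ v.2.1)
    (hw : ¬ (p : ℤ) ∣ w.2.1) (h : PCB_cl p v = PCB_cl p w) : SameCl p v w := by
  have hv' : (v.2.1 : ZMod p) ≠ 0 := by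
    rw [ne_eq, ZMod.intCast_zmod_eq_zero_iff_dvd]
    exact hv
  have hw' : (w.2.1 : ZMod p) ≠ 0 := by
    rw [ne_eq, ZMod.intCast_zmod_eq_zero_iff_dvd]
    exact hw
  unfold PCB_cl at h
  rw [Prod.mk.injEq, div_eq_div_iff hv' hw', div_eq_div_iff hv' hw'] at h
  constructor
  · rw [← ZMod.intCast_zmod_eq_zero_iff_dvd]
    push_cast
    rw [h.1, sub_self]
  · rw [← ZMod.intCast_zmod_eq_zero_iff_dvd]
    push_cast
    rw [h.2, sub_self]

theorem PCB_ev {k : Type*} [CommRing k] (u g : k) (F : ℤ[X][X]) :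
    ev u g F = (F.map (eval₂RingHom (Int.castRingHom k) u)).eval g := by
  unfold ev
  rw [coe_eval₂RingHom, eval_map]

/-- the possible classes -/
noncomputable def PCB_T (p : ℕ) [Fact p.Prime] (Ψ : ℤ[X][X]) : Finset (ZMod p × ZMod p) :=
  (Finset.univ : Finset (ZMod p)).biUnion (fun u =>
    ((Ψ.map (eval₂RingHom (Int.castRingHom (ZMod p)) u)).roots.toFinset).image (fun g => (u, g)))

theorem PCB_T_card (p : ℕ) [Fact p.Prime] (Ψ : ℤ[X][X]) :
    (PCB_T p Ψ).card ≤ p * Ψ.natDegree := by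
  unfold PCB_T
  refine (Finset.card_biUnion_le_card_mul _ _ Ψ.natDegree ?_).trans (le_of_eq ?_)
  · intro u _
    refine Finset.card_image_le.trans ?_
    refine (Multiset.toFinset_card_le _).trans ?_
    exact (Polynomial.card_roots' _).trans natDegree_map_le
  · rw [Finset.card_univ, ZMod.card]

theorem PCB_cl_mem (p : ℕ) [Fact p.Prime] (Ψ : ℤ[X][X]) (v : Ln) (hy0 : v.2.1 ≠ 0)
    (hv : ¬ (p : ℤ) ∣ v.2.1)
    (hvan : Van Ψ v) (hns : ¬ (p : ℤ) ∣ hm (tdg Ψ - 1) (derivative Ψ) v) :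
    PCB_cl p v ∈ PCB_T p Ψ := by
  have hv' : (v.2.1 : ZMod p) ≠ 0 := by
    rw [ne_eq, ZMod.intCast_zmod_eq_zero_iff_dvd]
    exact hv
  obtain ⟨u, hu⟩ : ∃ u : ZMod p, u = (v.1 : ZMod p) / (v.2.1 : ZMod p) := ⟨_, rfl⟩
  obtain ⟨g, hg⟩ : ∃ g : ZMod p, g = (v.2.2 : ZMod p) / (v.2.1 : ZMod p) := ⟨_, rfl⟩
  have hu' : u * (v.2.1 : ZMod p) = (v.1 : ZMod p) := by
    rw [hu]
    exact div_mul_cancel₀ _ hv'
  have hg' : g * (v.2.1 : ZMod p) = (v.2.2 : ZMod p) := by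
    rw [hg]
    exact div_mul_cancel₀ _ hv'
  have h1 := hm_cast (k := ZMod p) (tdg Ψ) Ψ le_rfl v u g hu' hg'
  rw [(van_iff (tdg Ψ) Ψ le_rfl v hy0).1 hvan, Int.cast_zero] at h1
  have h2 : ev u g Ψ = 0 := by
    rcases mul_eq_zero.1 h1.symm with h3 | h3
    · exact absurd h3 (pow_ne_zero _ hv')
    · exact h3
  have h4 := hm_cast (k := ZMod p) (tdg Ψ - 1) (derivative Ψ) (tdg_derivative_le Ψ) v u g hu' hg'
  have h5 : ev u g (derivative Ψ) ≠ 0 := by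
    intro h0
    rw [h0, mul_zero, ZMod.intCast_zmod_eq_zero_iff_dvd] at h4
    exact hns h4
  rw [PCB_ev] at h2 h5
  have h6 : Ψ.map (eval₂RingHom (Int.castRingHom (ZMod p)) u) ≠ 0 := by
    intro h0
    apply h5
    rw [← Polynomial.derivative_map, h0, derivative_zero, eval_zero]
  unfold PCB_T PCB_cl
  rw [← hu, ← hg, Finset.mem_biUnion]
  refine ⟨u, Finset.mem_univ _, ?_⟩
  rw [Finset.mem_image]
  refine ⟨g, ?_, rfl⟩
  rw [Multiset.mem_toFinset, Polynomial.mem_roots h6]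
  exact h2

/-- Point count, bounded degree, `deg_Γ Ψ ≥ 2`.
Proof.  `good_prime` with `y = L ^ (b + b / 4)`.  The good points fall into at most `p * deg_Γ Ψ`
classes: for every value `u` of `x / y` in `ZMod p` the polynomial `Ψ(u, Γ)` over `ZMod p` is non-zero
(its derivative does not vanish at the point), so it has at most `deg_Γ Ψ` roots.  Each class has at
most `L ^ 11` elements (`classB`).  Add `van_card_le`. -/
theorem pcB (b : ℕ) (hb : 1000 ≤ b) (h4 : 4 ∣ b) : ∃ L0 : ℕ, ∀ L, L0 ≤ L →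
    ∀ (V : Finset Ln) (d : ℕ) (F Ψ : ℤ[X][X]), PCH b L V d F Ψ → d * L ^ 2 ≤ L ^ (b + b / 4) →
    2 ≤ Ψ.natDegree → tdg Ψ ≤ 110 * b →
    (V.filter (fun v => Van Ψ v)).card ≤ L ^ (b + b / 4 + 14) + d * L ^ 11 := by
  obtain ⟨LA, hA⟩ := classB b hb h4
  obtain ⟨LG, hG⟩ := good_prime b (by omega)
  refine ⟨LA + LG + (220 * b * 2 + 2 * (110 * b * (110 * b)) + 2), ?_⟩
  intro L hL V d F Ψ h hdy h2 hdeg
  have hL1 : 1 ≤ L := by omega
  obtain ⟨p, hp, hyp, hpy, hZZ⟩ := hG L (by omega) V d F Ψ h (L ^ (b + b / 4)) hdy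
    (Nat.pow_le_pow_right hL1 (by omega))
  have : Fact p.Prime := ⟨hp⟩
  obtain ⟨Gd, hGd⟩ : ∃ Gd, Gd = (ZZ V F Ψ).filter (fun v => ¬ (p : ℤ) ∣ v.2.1 ∧
      ¬ (p : ℤ) ∣ hm (tdg Ψ - 1) (derivative Ψ) v) := ⟨_, rfl⟩
  rw [← hGd] at hZZ
  have hGdm : ∀ v ∈ Gd, v ∈ V ∧ Van Ψ v ∧ ¬ (p : ℤ) ∣ v.2.1 ∧
      ¬ (p : ℤ) ∣ hm (tdg Ψ - 1) (derivative Ψ) v := by
    intro v hv
    rw [hGd, Finset.mem_filter] at hv
    have h3 := hv.1
    unfold ZZ at h3
    rw [Finset.mem_filter] at h3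
    exact ⟨h3.1, h3.2.1, hv.2.1, hv.2.2⟩
  have hGc : Gd.card ≤ L ^ 11 * (PCB_T p Ψ).card := by
    refine Finset.card_le_mul_card_image_of_maps_to (f := PCB_cl p) (s := Gd)
      (t := PCB_T p Ψ) (fun v hv => ?_) (L ^ 11) (by
        intro c _
        refine hA L (by omega) V d F Ψ h h2 hdeg p hp hyp _ ?_ ?_ ?_ ?_ ?_
        · intro v hv
          exact (hGdm v (Finset.mem_filter.1 hv).1).1
        · intro v hv
          exact (hGdm v (Finset.mem_filter.1 hv).1).2.2.1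
        · intro v hv w hw
          rw [Finset.mem_filter] at hv hw
          exact PCB_same p v w (hGdm v hv.1).2.2.1 (hGdm w hw.1).2.2.1 (hv.2.trans hw.2.symm)
        · intro v hv
          exact (hGdm v (Finset.mem_filter.1 hv).1).2.1
        · intro v hv
          exact (hGdm v (Finset.mem_filter.1 hv).1).2.2.2)
    obtain ⟨a1, a2, a3, a4⟩ := hGdm v hv
    exact PCB_cl_mem p Ψ v (h.adm.ynz v a1) a3 a2 a4
  have hl : Ψ.natDegree ≤ 110 * b := (natDegree_le_tdg Ψ).trans hdeg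
  have hvc := van_card_le b L V d F Ψ h (by omega)
  have e1 : (ZZ V F Ψ).card ≤ (220 * b) * L ^ (b + b / 4 + 12) := by
    calc (ZZ V F Ψ).card ≤ 2 * Gd.card := hZZ
      _ ≤ 2 * (L ^ 11 * (PCB_T p Ψ).card) := Nat.mul_le_mul_left _ hGc
      _ ≤ 2 * (L ^ 11 * (p * Ψ.natDegree)) :=
          Nat.mul_le_mul_left _ (Nat.mul_le_mul_left _ (PCB_T_card p Ψ))
      _ ≤ 2 * (L ^ 11 * ((L * L ^ (b + b / 4)) * (110 * b))) := by gcongr
      _ = (220 * b) * L ^ (b + b / 4 + 12) := by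
          rw [show b + b / 4 + 12 = 11 + (1 + (b + b / 4)) by omega, pow_add L 11, pow_add L 1,
            pow_one]
          ring
  have e2 : 2 * (tdg Ψ * tdg Ψ) * L ^ 10 ≤
      (2 * (110 * b * (110 * b))) * L ^ (b + b / 4 + 12) := by
    have h5 : L ^ 10 ≤ L ^ (b + b / 4 + 12) := Nat.pow_le_pow_right hL1 (by omega)
    gcongr
  have e3 : 2 * d * L ^ 10 ≤ d * L ^ 11 := by
    calc 2 * d * L ^ 10 = d * (2 * L ^ 10) := by ring
      _ ≤ d * (L * L ^ 10) := Nat.mul_le_mul_left _ (Nat.mul_le_mul_right _ (by omega))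
      _ = d * L ^ 11 := by ring
  have e4 : (220 * b) * L ^ (b + b / 4 + 12) + (2 * (110 * b * (110 * b))) * L ^ (b + b / 4 + 12) ≤
      L ^ (b + b / 4 + 14) := by
    calc (220 * b) * L ^ (b + b / 4 + 12) + (2 * (110 * b * (110 * b))) * L ^ (b + b / 4 + 12)
        = (220 * b + 2 * (110 * b * (110 * b))) * L ^ (b + b / 4 + 12) := by ring
      _ ≤ (L * L) * L ^ (b + b / 4 + 12) := by
          refine Nat.mul_le_mul_right _ ?_
          have h5 : 220 * b + 2 * (110 * b * (110 * b)) ≤ L := by omega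
          exact h5.trans (Nat.le_mul_of_pos_left _ hL1)
      _ = L ^ (b + b / 4 + 14) := by
          rw [show b + b / 4 + 14 = (b + b / 4 + 12) + 2 by omega, pow_add L (b + b / 4 + 12)]
          ring
  omega

end FDP
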