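import Pool.Agent.W_fd120a_h8.PCA
import Pool.Agent.W_fd120a_h8.PCB
import Pool.Agent.W_fd120a_h8.PCC2
import Pool.Agent.W_fd120a_h8.Lin

set_option autoImplicit false

open Finset Polynomial
open scoped Classical

namespace FDP

/-- The point count: combine `pcA`, `pcB`, `pcC` and `natDegree_zero_case`. -/
theorem point_count (b : ℕ) (hb : 1000 ≤ b) (h4 : 4 ∣ b) : ∃ L0 : ℕ, ∀ L, L0 ≤ L →
    ∀ (V : Finset Ln) (d : ℕ) (F Ψ : ℤ[X][X]), PCH b L V d F Ψ → d * L ^ 2 ≤ L ^ (b + b / 4) →
    (V.filter (fun v => Van Ψ v)).card ≤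
      d ^ 2 * tdg Ψ * L ^ 18 + L ^ (b + b / 4 + 14) + d * L ^ 11 := by
  obtain ⟨L1, h1⟩ := pcA b (by omega)
  obtain ⟨L2, h2⟩ := pcB b hb h4
  obtain ⟨L3, h3⟩ := pcC b (by omega)
  refine ⟨L1 + L2 + L3 + 1, fun L hL V d F Ψ h hd => ?_⟩
  rcases Nat.lt_or_ge (110 * b) (tdg Ψ) with ht | ht
  · rcases Nat.eq_zero_or_pos Ψ.natDegree with h0 | h0
    · have hemp : V.filter (fun v => Van Ψ v) = ∅ := by
        rw [Finset.filter_eq_empty_iff]
        intro v hv hvan
        have h5 := natDegree_zero_case Ψ h.irr h0 v (h.adm.ynz v hv) hvan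
        have h6 := h.e2
        omega
      rw [hemp]
      simp
    · have h5 := h1 L (by omega) V d F Ψ h h0 ht
      omega
  · rcases Nat.lt_or_ge 1 Ψ.natDegree with h0 | h0
    · have h5 := h2 L (by omega) V d F Ψ h hd h0 ht
      omega
    · rcases Nat.lt_or_ge 0 Ψ.natDegree with h7 | h7
      · have h5 := h3 L (by omega) V d F Ψ h (by omega) ht
        have h8 : L ^ (b + 14) ≤ L ^ (b + b / 4 + 14) :=
          Nat.pow_le_pow_right (by omega) (by omega)
        omega
      · have hemp : V.filter (fun v => Van Ψ v) = ∅ := by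
          rw [Finset.filter_eq_empty_iff]
          intro v hv hvan
          have h5 := natDegree_zero_case Ψ h.irr (by omega) v (h.adm.ynz v hv) hvan
          have h6 := h.e2
          omega
        rw [hemp]
        simp

end FDP
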