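import Pool.Agent.W_fd120a_h8.Red
import Pool.Agent.W_fd120a_h8.Rank

set_option autoImplicit false

open Finset Polynomial
open scoped Classical

namespace FDP

/-- the exponents of total degree at most `q` -/
noncomputable def PCA_tri (q : ℕ) : Finset (ℕ × ℕ) :=
  (Finset.range (q + 1)).biUnion (fun n => Finset.HasAntidiagonal.antidiagonal n)

theorem PCA_mem_tri (q : ℕ) (m : ℕ × ℕ) : m ∈ PCA_tri q ↔ m.1 + m.2 ≤ q := by
  unfold PCA_tri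
  rw [Finset.mem_biUnion]
  constructor
  · rintro ⟨n, hn, hm⟩
    rw [Finset.mem_range] at hn
    rw [Finset.HasAntidiagonal.mem_antidiagonal] at hm
    omega
  · intro h
    exact ⟨m.1 + m.2, Finset.mem_range.2 (by omega), Finset.HasAntidiagonal.mem_antidiagonal.2 rfl⟩

theorem PCA_card_tri (q : ℕ) : 2 * (PCA_tri q).card = (q + 1) * (q + 2) := by
  unfold PCA_tri
  rw [Finset.card_biUnion]
  · simp only [Finset.Nat.card_antidiagonal]
    induction q with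
    | zero => simp
    | succ n ih =>
      rw [Finset.sum_range_succ, mul_add, ih]
      ring
  · intro i _ j _ hij
    simp only [Function.onFun]
    rw [Finset.disjoint_left]
    intro m hm hm'
    rw [Finset.HasAntidiagonal.mem_antidiagonal] at hm hm'
    omega

/-- the numerical condition of `class_curve` -/
theorem PCA_large (s B L p : ℕ) (hs2 : 2 ≤ s) (hsL : s ≤ L) (hB : B + 1 ≤ s - 1)
    (hp : L ^ 2 < p) :
    ((s.factorial : ℕ) : ℤ) * ((L : ℤ) ^ B) ^ s < (p : ℤ) ^ (s * (s - 1) / 2) := by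
  have hL1 : 1 ≤ L := by omega
  have h1 : s.factorial * (L ^ B) ^ s ≤ (L ^ (s - 1)) ^ s := by
    calc s.factorial * (L ^ B) ^ s ≤ s ^ s * (L ^ B) ^ s :=
          Nat.mul_le_mul_right _ (Nat.factorial_le_pow s)
      _ = (s * L ^ B) ^ s := (mul_pow _ _ _).symm
      _ ≤ (L ^ (s - 1)) ^ s := by
          apply Nat.pow_le_pow_left
          calc s * L ^ B ≤ L * L ^ B := Nat.mul_le_mul_right _ hsL
            _ = L ^ (B + 1) := by rw [pow_succ, mul_comm]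
            _ ≤ L ^ (s - 1) := Nat.pow_le_pow_right hL1 hB
  have h2 : 2 * (s * (s - 1) / 2) = (s - 1) * s := by
    have h3 : 2 ∣ s * (s - 1) := by
      have := Nat.even_mul_pred_self s
      exact this.two_dvd
    rw [Nat.mul_div_cancel' h3, mul_comm]
  have h4 : (L ^ (s - 1)) ^ s = (L ^ 2) ^ (s * (s - 1) / 2) := by
    rw [← pow_mul, ← pow_mul, h2]
  have h5 : s * (s - 1) / 2 ≠ 0 := by
    intro h0
    rw [h0, mul_zero] at h2
    have h6 : 0 < (s - 1) * s := Nat.mul_pos (by omega) (by omega)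
    omega
  have h7 : (L ^ 2) ^ (s * (s - 1) / 2) < p ^ (s * (s - 1) / 2) := Nat.pow_lt_pow_left hp h5
  have h8 : s.factorial * (L ^ B) ^ s < p ^ (s * (s - 1) / 2) := by
    rw [h4] at h1
    exact lt_of_le_of_lt h1 h7
  exact_mod_cast h8

/-- One class, large degree.  Let `C ⊆ V` be a set of points of the curve `Ψ`, of degree
`> 110 b`, in one class modulo a prime `p > L ^ 2` of good reduction for all of them.  Then
`|C| ≤ 2 (tdg Ψ * (110 b)) L ^ 10`.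
Proof.  `class_curve` with `q = 110 b`, `I = {(i, j) : i + j ≤ q}`, `s = |I| = (q+1)(q+2)/2`,
`Bd = L ^ ((51 b + 10) q)`: one needs `s! * Bd ^ s < p ^ (s (s-1)/2)`, which follows from
`s * L ^ ((51 b + 10) q) ≤ L ^ (s - 1) ≤ p ^ ((s-1)/2)`, as `s - 1 ≥ (51 b + 10) q + 1` and `L` is
large.  The curve `Φ` has `tdg Φ ≤ 110 b < tdg Ψ`, so `Ψ ∤ Φ` (`tdg_mul`); apply `bezout_card`. -/
theorem classA (b : ℕ) (hb : 12 ≤ b) : ∃ L0 : ℕ, ∀ L, L0 ≤ L → ∀ (V : Finset Ln) (d : ℕ)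
    (F Ψ : ℤ[X][X]), PCH b L V d F Ψ → 1 ≤ Ψ.natDegree → 110 * b < tdg Ψ →
    ∀ p : ℕ, p.Prime → L ^ 2 < p → ∀ C : Finset Ln, C ⊆ V →
    (∀ v ∈ C, ¬ (p : ℤ) ∣ v.2.1) → (∀ v ∈ C, ∀ w ∈ C, SameCl p v w) → (∀ v ∈ C, Van Ψ v) →
    (∀ v ∈ C, ¬ (p : ℤ) ∣ hm (tdg Ψ - 1) (derivative Ψ) v) →
    C.card ≤ 2 * (tdg Ψ * (110 * b)) * L ^ 10 := by
  refine ⟨(PCA_tri (110 * b)).card + 1, ?_⟩
  intro L hL V d F Ψ h h1 hdeg p hp hLp C hCV hy hcl hvan hns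
  have hL1 : 1 ≤ L := by omega
  have hcard := PCA_card_tri (110 * b)
  have hs1 : (51 * b + 10) * (110 * b) + 1 ≤ (PCA_tri (110 * b)).card - 1 := by
    have h2 : 2 * ((51 * b + 10) * (110 * b) + 2) ≤ 2 * (PCA_tri (110 * b)).card := by
      rw [hcard]
      nlinarith
    omega
  have hs2 : 2 ≤ (PCA_tri (110 * b)).card := by omega
  have hM1 : (1 : ℤ) ≤ (L : ℤ) ^ (51 * b + 10) := by
    have h2 : 1 ≤ L ^ (51 * b + 10) := Nat.one_le_pow _ _ hL1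
    exact_mod_cast h2
  have hLM : (L : ℤ) ^ (b + 10) ≤ (L : ℤ) ^ (51 * b + 10) := by
    have h2 : L ^ (b + 10) ≤ L ^ (51 * b + 10) := Nat.pow_le_pow_right hL1 (by omega)
    exact_mod_cast h2
  obtain ⟨Φ, hΦ0, hΦI, hΦv⟩ := class_curve p hp Ψ (PCA_tri (110 * b))
    (Finset.card_pos.1 (by omega)) (110 * b) (fun m hm => (PCA_mem_tri _ m).1 hm) C hy hcl hvan hns
    ((L : ℤ) ^ ((51 * b + 10) * (110 * b))) (by
      intro v hv m hm
      have hmq := (PCA_mem_tri _ m).1 hm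
      have a1 : |v.1| ≤ (L : ℤ) ^ (51 * b + 10) := (h.adm.bx v (hCV hv)).trans hLM
      have a2 : |v.2.1| ≤ (L : ℤ) ^ (51 * b + 10) := (h.adm.bdy v (hCV hv)).trans hLM
      have a3 : |v.2.2| ≤ (L : ℤ) ^ (51 * b + 10) := h.adm.bc v (hCV hv)
      have hM0 : (0 : ℤ) ≤ (L : ℤ) ^ (51 * b + 10) := by positivity
      rw [abs_mul, abs_mul, abs_pow, abs_pow, abs_pow, pow_mul]
      have e1 : ((L : ℤ) ^ (51 * b + 10)) ^ (110 * b) =
          ((L : ℤ) ^ (51 * b + 10)) ^ m.1 * ((L : ℤ) ^ (51 * b + 10)) ^ m.2 *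
            ((L : ℤ) ^ (51 * b + 10)) ^ (110 * b - m.1 - m.2) := by
        rw [← pow_add, ← pow_add]
        congr 1
        omega
      rw [e1]
      refine mul_le_mul (mul_le_mul (pow_le_pow_left₀ (abs_nonneg _) a1 _)
        (pow_le_pow_left₀ (abs_nonneg _) a3 _) (by positivity) (by positivity))
        (pow_le_pow_left₀ (abs_nonneg _) a2 _) (by positivity) (by positivity))
    (PCA_large _ _ L p hs2 (by omega) hs1 hLp)
  have hΦd : tdg Φ ≤ 110 * b := by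
    rw [tdg_le_iff]
    intro j i hij
    exact (PCA_mem_tri _ _).1 (hΦI j i hij)
  have hnd : ¬ Ψ ∣ Φ := by
    rintro ⟨R, hR⟩
    have hΨ0 : Ψ ≠ 0 := h.irr.ne_zero
    have hR0 : R ≠ 0 := by
      intro h0
      rw [h0, mul_zero] at hR
      exact hΦ0 hR
    have h2 := tdg_mul Ψ R hΨ0 hR0
    rw [← hR] at h2
    omega
  have hbz := bezout_card b L V h.adm Ψ Φ h.irr h1 hnd
  have hsub : C ⊆ V.filter (fun v => Van Ψ v ∧ Van Φ v) := by
    intro v hv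
    rw [Finset.mem_filter]
    exact ⟨hCV hv, hvan v hv, hΦv v hv⟩
  refine (Finset.card_le_card hsub).trans (hbz.trans ?_)
  gcongr

/-- the class of a point modulo `p` -/
noncomputable def PCA_cl (p : ℕ) [Fact p.Prime] (v : Ln) : ZMod p × ZMod p :=
  ((v.1 : ZMod p) / (v.2.1 : ZMod p), (v.2.2 : ZMod p) / (v.2.1 : ZMod p))

theorem PCA_same (p : ℕ) [Fact p.Prime] (v w : Ln) (hv : ¬ (p : ℤ) ∣ v.2.1)
    (hw : ¬ (p : ℤ) ∣ w.2.1) (h : PCA_cl p v = PCA_cl p w) : SameCl p v w := by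
  have hv' : (v.2.1 : ZMod p) ≠ 0 := by
    rw [ne_eq, ZMod.intCast_zmod_eq_zero_iff_dvd]
    exact hv
  have hw' : (w.2.1 : ZMod p) ≠ 0 := by
    rw [ne_eq, ZMod.intCast_zmod_eq_zero_iff_dvd]
    exact hw
  unfold PCA_cl at h
  rw [Prod.mk.injEq, div_eq_div_iff hv' hw', div_eq_div_iff hv' hw'] at h
  constructor
  · rw [← ZMod.intCast_zmod_eq_zero_iff_dvd]
    push_cast
    rw [h.1, sub_self]
  · rw [← ZMod.intCast_zmod_eq_zero_iff_dvd]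
    push_cast
    rw [h.2, sub_self]

/-- Point count, degree `> 110 b`.
Proof.  `good_prime` with `y = d L ^ 2` gives `p ≤ d L ^ 3` good for half of `ZZ`.  The good points fall
into at most `p ^ 2` classes (the class of `v` is `(x / y, c / y) ∈ (ZMod p) ^ 2`, `p ∤ y`), each with at
most `2 (tdg Ψ * (110 b)) L ^ 10` elements by `classA`.  Add `van_card_le`. -/
theorem pcA (b : ℕ) (hb : 12 ≤ b) : ∃ L0 : ℕ, ∀ L, L0 ≤ L → ∀ (V : Finset Ln) (d : ℕ)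
    (F Ψ : ℤ[X][X]), PCH b L V d F Ψ → 1 ≤ Ψ.natDegree → 110 * b < tdg Ψ →
    (V.filter (fun v => Van Ψ v)).card ≤ d ^ 2 * tdg Ψ * L ^ 18 := by
  obtain ⟨LA, hA⟩ := classA b hb
  obtain ⟨LG, hG⟩ := good_prime b hb
  refine ⟨LA + LG + (440 * b + 4), ?_⟩
  intro L hL V d F Ψ h h1 hdeg
  have hL1 : 1 ≤ L := by omega
  have hd1 := h.hd1
  have hy1 : d * L ^ 2 ≤ L ^ (2 * b + 5) := by
    calc d * L ^ 2 ≤ L ^ b * L ^ 2 := Nat.mul_le_mul_right _ h.hdL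
      _ = L ^ (b + 2) := (pow_add _ _ _).symm
      _ ≤ L ^ (2 * b + 5) := Nat.pow_le_pow_right hL1 (by omega)
  obtain ⟨p, hp, hyp, hpy, hZZ⟩ := hG L (by omega) V d F Ψ h (d * L ^ 2) le_rfl hy1
  have : Fact p.Prime := ⟨hp⟩
  have hLp : L ^ 2 < p := by
    have h2 : 1 * L ^ 2 ≤ d * L ^ 2 := Nat.mul_le_mul_right _ hd1
    omega
  obtain ⟨Gd, hGd⟩ : ∃ Gd, Gd = (ZZ V F Ψ).filter (fun v => ¬ (p : ℤ) ∣ v.2.1 ∧
      ¬ (p : ℤ) ∣ hm (tdg Ψ - 1) (derivative Ψ) v) := ⟨_, rfl⟩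
  rw [← hGd] at hZZ
  have hGdm : ∀ v ∈ Gd, v ∈ V ∧ Van Ψ v ∧ ¬ (p : ℤ) ∣ v.2.1 ∧
      ¬ (p : ℤ) ∣ hm (tdg Ψ - 1) (derivative Ψ) v := by
    intro v hv
    rw [hGd, Finset.mem_filter] at hv
    have h2 := hv.1
    unfold ZZ at h2
    rw [Finset.mem_filter] at h2
    exact ⟨h2.1, h2.2.1, hv.2.1, hv.2.2⟩
  have hGc : Gd.card ≤ (2 * (tdg Ψ * (110 * b)) * L ^ 10) * p ^ 2 := by
    have h2 := Finset.card_le_mul_card_image_of_maps_to (f := PCA_cl p) (s := Gd)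
      (t := Finset.univ) (fun v _ => Finset.mem_univ _) (2 * (tdg Ψ * (110 * b)) * L ^ 10) (by
        intro c _
        refine hA L (by omega) V d F Ψ h h1 hdeg p hp hLp _ ?_ ?_ ?_ ?_ ?_
        · intro v hv
          exact (hGdm v (Finset.mem_filter.1 hv).1).1
        · intro v hv
          exact (hGdm v (Finset.mem_filter.1 hv).1).2.2.1
        · intro v hv w hw
          rw [Finset.mem_filter] at hv hw
          exact PCA_same p v w (hGdm v hv.1).2.2.1 (hGdm w hw.1).2.2.1 (hv.2.trans hw.2.symm)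
        · intro v hv
          exact (hGdm v (Finset.mem_filter.1 hv).1).2.1
        · intro v hv
          exact (hGdm v (Finset.mem_filter.1 hv).1).2.2.2)
    refine h2.trans (le_of_eq ?_)
    rw [Finset.card_univ, Fintype.card_prod, ZMod.card, sq]
  have hvc := van_card_le b L V d F Ψ h h1
  have htd : tdg Ψ ≤ d := by
    obtain ⟨R, hR⟩ := h.dvd
    have hΨ0 : Ψ ≠ 0 := h.irr.ne_zero
    have hR0 : R ≠ 0 := by
      intro h0
      rw [h0, mul_zero] at hR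
      exact h.F0 hR
    have h2 := tdg_mul Ψ R hΨ0 hR0
    rw [← hR] at h2
    have h3 := h.Fd
    omega
  have hp2 : p ^ 2 ≤ d ^ 2 * L ^ 6 := by
    calc p ^ 2 ≤ (L * (d * L ^ 2)) ^ 2 := Nat.pow_le_pow_left hpy 2
      _ = d ^ 2 * L ^ 6 := by ring
  have ht1 : 1 ≤ tdg Ψ := by omega
  have hL6 : 1 ≤ L ^ 6 := Nat.one_le_pow _ _ hL1
  have e1 : (ZZ V F Ψ).card ≤ 440 * b * (d ^ 2 * tdg Ψ * L ^ 16) := by
    calc (ZZ V F Ψ).card ≤ 2 * Gd.card := hZZ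
      _ ≤ 2 * ((2 * (tdg Ψ * (110 * b)) * L ^ 10) * p ^ 2) := Nat.mul_le_mul_left _ hGc
      _ ≤ 2 * ((2 * (tdg Ψ * (110 * b)) * L ^ 10) * (d ^ 2 * L ^ 6)) := by gcongr
      _ = 440 * b * (d ^ 2 * tdg Ψ * L ^ 16) := by ring
  have e2 : 2 * (tdg Ψ * tdg Ψ) * L ^ 10 ≤ 2 * (d ^ 2 * tdg Ψ * L ^ 16) := by
    calc 2 * (tdg Ψ * tdg Ψ) * L ^ 10 ≤ 2 * (d * tdg Ψ) * L ^ 10 := by gcongr
      _ = 2 * ((d * 1) * tdg Ψ * (L ^ 10 * 1)) := by ring
      _ ≤ 2 * ((d * d) * tdg Ψ * (L ^ 10 * L ^ 6)) := by gcongr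
      _ = 2 * (d ^ 2 * tdg Ψ * L ^ 16) := by ring
  have e3 : 2 * d * L ^ 10 ≤ 2 * (d ^ 2 * tdg Ψ * L ^ 16) := by
    calc 2 * d * L ^ 10 = 2 * ((d * 1) * 1 * (L ^ 10 * 1)) := by ring
      _ ≤ 2 * ((d * d) * tdg Ψ * (L ^ 10 * L ^ 6)) := by gcongr
      _ = 2 * (d ^ 2 * tdg Ψ * L ^ 16) := by ring
  calc (V.filter (fun v => Van Ψ v)).card
      ≤ (ZZ V F Ψ).card + 2 * (tdg Ψ * tdg Ψ) * L ^ 10 + 2 * d * L ^ 10 := hvc
    _ ≤ 440 * b * (d ^ 2 * tdg Ψ * L ^ 16) + 2 * (d ^ 2 * tdg Ψ * L ^ 16) +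
        2 * (d ^ 2 * tdg Ψ * L ^ 16) := by omega
    _ = (440 * b + 4) * (d ^ 2 * tdg Ψ * L ^ 16) := by ring
    _ ≤ L * (d ^ 2 * tdg Ψ * L ^ 16) := Nat.mul_le_mul_right _ (by omega)
    _ = (d ^ 2 * tdg Ψ * L ^ 17) := by ring
    _ ≤ d ^ 2 * tdg Ψ * L ^ 18 :=
        Nat.mul_le_mul_left _ (Nat.pow_le_pow_right hL1 (by norm_num))

end FDP
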