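import Pool.Agent.W_fd120a_h8.PCB

set_option autoImplicit false

open Finset Polynomial
open scoped Classical

namespace FDP

/-- the arithmetic of the exponents -/
theorem PCB2_arith (b l s : ℕ) (hb : 1000 ≤ b) (hl : 2 ≤ l)
    (hs : 2 * s + l * l = 2 * l * (60 * b * l + 1) + l) :
    2 * (((b + 10) * (60 * b * l) + 50 * b * (l - 1)) + 1) ≤ (b + 12) * (s - 1) := by
  obtain ⟨l', rfl⟩ : ∃ l', l = l' + 2 := ⟨l - 2, by omega⟩
  have hs1 : 1 ≤ s := by
    by_contra h0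
    have h1 : s = 0 := by omega
    subst h1
    nlinarith [Nat.mul_le_mul hb (Nat.mul_le_mul hl hl)]
  obtain ⟨s', rfl⟩ : ∃ s', s = s' + 1 := ⟨s - 1, by omega⟩
  obtain ⟨c, rfl⟩ : ∃ c, b = c + 1000 := ⟨b - 1000, by omega⟩
  have e1 : l' + 2 - 1 = l' + 1 := by omega
  have e2 : s' + 1 - 1 = s' := by omega
  rw [e1, e2]
  have h3 : 2 * s' = (120 * c + 119999) * (l' * l') + (480 * c + 479999) * l' +
      480 * (c + 1000) := by
    nlinarith
  have h4 : 2 * (2 * (((c + 1000 + 10) * (60 * (c + 1000) * (l' + 2)) +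
      50 * (c + 1000) * (l' + 1)) + 1)) ≤ 2 * ((c + 1000 + 12) * s') := by
    have h5 : 2 * ((c + 1000 + 12) * s') = (c + 1012) * ((120 * c + 119999) * (l' * l') +
        (480 * c + 479999) * l' + 480 * (c + 1000)) := by
      rw [← h3]
      ring
    rw [h5]
    have h6 : (c + 1012) * ((120 * c + 119999) * (l' * l') +
        (480 * c + 479999) * l' + 480 * (c + 1000)) =
        (c + 1012) * (120 * c + 119999) * (l' * l') + (c + 1012) * (480 * c + 479999) * l' +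
        (c + 1012) * (480 * (c + 1000)) := by ring
    rw [h6]
    have h7 : 2 * (2 * (((c + 1000 + 10) * (60 * (c + 1000) * (l' + 2)) +
        50 * (c + 1000) * (l' + 1)) + 1)) = (240 * (c + 1010) * (c + 1000) +
        200 * (c + 1000)) * l' + (480 * (c + 1010) * (c + 1000) + 200 * (c + 1000) + 4) := by ring
    rw [h7]
    have h8 : 240 * (c + 1010) * (c + 1000) + 200 * (c + 1000) ≤ (c + 1012) * (480 * c + 479999) := by
      nlinarith
    have h9 : 480 * (c + 1010) * (c + 1000) + 200 * (c + 1000) + 4 ≤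
        (c + 1012) * (480 * (c + 1000)) := by
      nlinarith
    have h10 := Nat.mul_le_mul_right l' h8
    calc (240 * (c + 1010) * (c + 1000) + 200 * (c + 1000)) * l' +
          (480 * (c + 1010) * (c + 1000) + 200 * (c + 1000) + 4)
        ≤ (c + 1012) * (480 * c + 479999) * l' + (c + 1012) * (480 * (c + 1000)) :=
          Nat.add_le_add h10 h9
      _ ≤ (c + 1012) * (120 * c + 119999) * (l' * l') +
          ((c + 1012) * (480 * c + 479999) * l' + (c + 1012) * (480 * (c + 1000))) :=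
          Nat.le_add_left _ _
      _ = _ := by rw [add_assoc]
  exact Nat.le_of_mul_le_mul_left h4 (by norm_num)

/-- One class, bounded degree, `l = deg_Γ Ψ ≥ 2`.  (The analogue of `classB` in PCB.lean, with
`p > L ^ (b + 12)` and larger auxiliary degree; copy its proof.)
Proof.  `class_curve` with `q = 60 b l`, `I = {(i, j) : j < l, i + j ≤ q}`,
`s = |I| = l (q + 1) - l (l - 1) / 2` and `Bd = L ^ ((b + 10) q + 50 b (l - 1))` (a monomial
`x^i c^j y^(q-i-j)`, `j ≤ l - 1`, is at most `(L^(b+10))^(q-j) (L^(51b+10))^j`).  One needs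
`s! * Bd ^ s < p ^ (s (s-1)/2)`; as `p > L ^ (b + 12)` it suffices that
`s * Bd < L ^ ((b + 12) (s - 1) / 2)`, which holds for `L` large because
`(b + 12) (s - 1) ≥ 2 (b + 10) q + 100 b (l - 1) + 2`:
for `l = 2`, `s - 1 = 240 b`, this is `240 b^2 + 2880 b ≥ 240 b^2 + 2500 b + 2`; for `l ≥ 3` use
`s - 1 ≥ 60 b l^2 - l^2 / 2` and `l - 2 ≥ l / 3`.
The curve `Φ` has `deg_Γ Φ < l`, so `Ψ ∤ Φ`, and `tdg Φ ≤ 60 b l ≤ 60 b tdg Ψ`; apply `bezout_card`. -/
theorem classB2 (b : ℕ) (hb : 1000 ≤ b) : ∃ L0 : ℕ, ∀ L, L0 ≤ L →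
    ∀ (V : Finset Ln) (d : ℕ)
    (F Ψ : ℤ[X][X]), PCH b L V d F Ψ → 2 ≤ Ψ.natDegree → tdg Ψ ≤ 110 * b →
    ∀ p : ℕ, p.Prime → L ^ (b + 12) < p → ∀ C : Finset Ln, C ⊆ V →
    (∀ v ∈ C, ¬ (p : ℤ) ∣ v.2.1) → (∀ v ∈ C, ∀ w ∈ C, SameCl p v w) → (∀ v ∈ C, Van Ψ v) →
    (∀ v ∈ C, ¬ (p : ℤ) ∣ hm (tdg Ψ - 1) (derivative Ψ) v) →
    C.card ≤ L ^ 11 := by
  refine ⟨120 * b * (110 * b) ^ 2 + 110 * b * (60 * b * (110 * b) + 1) + 1, ?_⟩
  intro L hL V d F Ψ h h2 hdeg p hp hLp C hCV hy hcl hvan hns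
  have hL1 : 1 ≤ L := by omega
  obtain ⟨l, hl⟩ : ∃ l, l = Ψ.natDegree := ⟨_, rfl⟩
  rw [← hl] at h2
  have hlt : l ≤ tdg Ψ := by
    rw [hl]
    exact natDegree_le_tdg Ψ
  have hlq : l ≤ 60 * b * l := Nat.le_mul_of_pos_left l (by omega)
  have hcard := PCB_card_set (60 * b * l) l (by omega)
  have harith := PCB2_arith b l (PCB_set (60 * b * l) l).card hb h2 hcard
  obtain ⟨s, hs⟩ : ∃ s, s = (PCB_set (60 * b * l) l).card := ⟨_, rfl⟩
  rw [← hs] at hcard harith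
  have hs2 : 2 ≤ s := by nlinarith
  have hsL : s ≤ L := by
    have h3 : s ≤ l * (60 * b * l + 1) := by nlinarith
    have h5 : l * (60 * b * l + 1) ≤ 110 * b * (60 * b * (110 * b) + 1) := by
      have h6 : l ≤ 110 * b := hlt.trans hdeg
      gcongr
    omega
  obtain ⟨Φ, hΦ0, hΦI, hΦv⟩ := class_curve p hp Ψ (PCB_set (60 * b * l) l)
    (Finset.card_pos.1 (by omega)) (60 * b * l) (fun m hm => ((PCB_mem_set _ _ m).1 hm).2) C hy hcl
    hvan hns ((L : ℤ) ^ ((b + 10) * (60 * b * l) + 50 * b * (l - 1))) (by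
      intro v hv m hm
      obtain ⟨hm1, hmq⟩ := (PCB_mem_set _ _ m).1 hm
      have a1 : |v.1| ≤ (L : ℤ) ^ (b + 10) := h.adm.bx v (hCV hv)
      have a2 : |v.2.1| ≤ (L : ℤ) ^ (b + 10) := h.adm.bdy v (hCV hv)
      have a3 : |v.2.2| ≤ (L : ℤ) ^ (51 * b + 10) := h.adm.bc v (hCV hv)
      rw [abs_mul, abs_mul, abs_pow, abs_pow, abs_pow]
      have e1 : ((L : ℤ) ^ (b + 10)) ^ m.1 * ((L : ℤ) ^ (51 * b + 10)) ^ m.2 *
            ((L : ℤ) ^ (b + 10)) ^ (60 * b * l - m.1 - m.2) =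
            (L : ℤ) ^ ((b + 10) * (60 * b * l) + 50 * b * m.2) := by
        rw [← pow_mul, ← pow_mul, ← pow_mul, ← pow_add, ← pow_add]
        congr 1
        have e2 : 60 * b * l = m.1 + m.2 + (60 * b * l - m.1 - m.2) := by omega
        obtain ⟨t, ht⟩ : ∃ t, t = 60 * b * l - m.1 - m.2 := ⟨_, rfl⟩
        rw [← ht] at e2 ⊢
        rw [e2]
        ring
      have e3 : (L : ℤ) ^ ((b + 10) * (60 * b * l) + 50 * b * m.2) ≤
          (L : ℤ) ^ ((b + 10) * (60 * b * l) + 50 * b * (l - 1)) := by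
        refine pow_le_pow_right₀ (by exact_mod_cast hL1) ?_
        have e4 : m.2 ≤ l - 1 := by omega
        gcongr
      refine le_trans ?_ (e1.le.trans e3)
      refine mul_le_mul (mul_le_mul (pow_le_pow_left₀ (abs_nonneg _) a1 _)
        (pow_le_pow_left₀ (abs_nonneg _) a3 _) (by positivity) (by positivity))
        (pow_le_pow_left₀ (abs_nonneg _) a2 _) (by positivity) (by positivity))
    (by
      rw [← hs]
      exact PCB_large s _ L (b + 12) p hs2 hsL harith hLp)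
  have hΦd : tdg Φ ≤ 60 * b * l := by
    rw [tdg_le_iff]
    intro j i hij
    exact ((PCB_mem_set _ _ _).1 (hΦI j i hij)).2
  have hnd : ¬ Ψ ∣ Φ := by
    intro hdv
    have h3 := natDegree_le_of_dvd hdv hΦ0
    have h5 : Φ.coeff Φ.natDegree ≠ 0 := by
      rw [coeff_natDegree, ne_eq, leadingCoeff_eq_zero]
      exact hΦ0
    have h6 : ∃ i, (Φ.coeff Φ.natDegree).coeff i ≠ 0 := by
      by_contra hcon
      push Not at hcon
      apply h5
      ext i
      rw [hcon i, coeff_zero]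
    obtain ⟨i, hi⟩ := h6
    have h7 := ((PCB_mem_set _ _ _).1 (hΦI _ _ hi)).1
    dsimp only at h7
    omega
  have hbz := bezout_card b L V h.adm Ψ Φ h.irr (by omega) hnd
  have hsub : C ⊆ V.filter (fun v => Van Ψ v ∧ Van Φ v) := by
    intro v hv
    rw [Finset.mem_filter]
    exact ⟨hCV hv, hvan v hv, hΦv v hv⟩
  refine (Finset.card_le_card hsub).trans (hbz.trans ?_)
  have h8 : tdg Ψ * tdg Φ ≤ 60 * b * (110 * b) ^ 2 := by
    calc tdg Ψ * tdg Φ ≤ tdg Ψ * (60 * b * l) := Nat.mul_le_mul_left _ hΦd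
      _ ≤ (110 * b) * (60 * b * (110 * b)) := by
          have h9 : l ≤ 110 * b := hlt.trans hdeg
          gcongr
      _ = 60 * b * (110 * b) ^ 2 := by ring
  calc 2 * (tdg Ψ * tdg Φ) * L ^ 10 ≤ 2 * (60 * b * (110 * b) ^ 2) * L ^ 10 := by gcongr
    _ ≤ L * L ^ 10 := by
        refine Nat.mul_le_mul_right _ ?_
        have h9 : 2 * (60 * b * (110 * b) ^ 2) = 120 * b * (110 * b) ^ 2 := by ring
        omega
    _ = L ^ 11 := by ring

/-- Point count, bounded degree, `deg_Γ Ψ ≥ 2`.  (The analogue of `pcB` in PCB.lean; copy its proof.)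
Proof.  `good_prime` with `y = L ^ (b + 12)`.  The good points fall into at most `p * deg_Γ Ψ`
classes: for every value `u` of `x / y` in `ZMod p` the polynomial `Ψ(u, Γ)` over `ZMod p` is non-zero
(its derivative does not vanish at the point), so it has at most `deg_Γ Ψ` roots.  Each class has at
most `L ^ 11` elements (`classB2`); `2 * L ^ (b+13) * 110 b * L ^ 11 ≤ L ^ (b+25)`.  Add
`van_card_le`. -/
theorem pcB2 (b : ℕ) (hb : 1000 ≤ b) : ∃ L0 : ℕ, ∀ L, L0 ≤ L →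
    ∀ (V : Finset Ln) (d : ℕ) (F Ψ : ℤ[X][X]), PCH b L V d F Ψ → d * L ^ 2 ≤ L ^ (b + 12) →
    2 ≤ Ψ.natDegree → tdg Ψ ≤ 110 * b →
    (V.filter (fun v => Van Ψ v)).card ≤ L ^ (b + 30) + d * L ^ 11 := by
  obtain ⟨LA, hA⟩ := classB2 b hb
  obtain ⟨LG, hG⟩ := good_prime b (by omega)
  refine ⟨LA + LG + (220 * b * 2 + 2 * (110 * b * (110 * b)) + 2), ?_⟩
  intro L hL V d F Ψ h hdy h2 hdeg
  have hL1 : 1 ≤ L := by omega
  obtain ⟨p, hp, hyp, hpy, hZZ⟩ := hG L (by omega) V d F Ψ h (L ^ (b + 12)) hdy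
    (Nat.pow_le_pow_right hL1 (by omega))
  have : Fact p.Prime := ⟨hp⟩
  obtain ⟨Gd, hGd⟩ : ∃ Gd, Gd = (ZZ V F Ψ).filter (fun v => ¬ (p : ℤ) ∣ v.2.1 ∧
      ¬ (p : ℤ) ∣ hm (tdg Ψ - 1) (derivative Ψ) v) := ⟨_, rfl⟩
  rw [← hGd] at hZZ
  have hGdm : ∀ v ∈ Gd, v ∈ V ∧ Van Ψ v ∧ ¬ (p : ℤ) ∣ v.2.1 ∧
      ¬ (p : ℤ) ∣ hm (tdg Ψ - 1) (derivative Ψ) v := by
    intro v hv
    rw [hGd, Finset.mem_filter] at hv
    have h3 := hv.1
    unfold ZZ at h3
    rw [Finset.mem_filter] at h3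
    exact ⟨h3.1, h3.2.1, hv.2.1, hv.2.2⟩
  have hGc : Gd.card ≤ L ^ 11 * (PCB_T p Ψ).card := by
    refine Finset.card_le_mul_card_image_of_maps_to (f := PCB_cl p) (s := Gd)
      (t := PCB_T p Ψ) (fun v hv => ?_) (L ^ 11) (by
        intro c _
        refine hA L (by omega) V d F Ψ h h2 hdeg p hp hyp _ ?_ ?_ ?_ ?_ ?_
        · intro v hv
          exact (hGdm v (Finset.mem_filter.1 hv).1).1
        · intro v hv
          exact (hGdm v (Finset.mem_filter.1 hv).1).2.2.1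
        · intro v hv w hw
          rw [Finset.mem_filter] at hv hw
          exact PCB_same p v w (hGdm v hv.1).2.2.1 (hGdm w hw.1).2.2.1 (hv.2.trans hw.2.symm)
        · intro v hv
          exact (hGdm v (Finset.mem_filter.1 hv).1).2.1
        · intro v hv
          exact (hGdm v (Finset.mem_filter.1 hv).1).2.2.2)
    obtain ⟨a1, a2, a3, a4⟩ := hGdm v hv
    exact PCB_cl_mem p Ψ v (h.adm.ynz v a1) a3 a2 a4
  have hl : Ψ.natDegree ≤ 110 * b := (natDegree_le_tdg Ψ).trans hdeg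
  have hvc := van_card_le b L V d F Ψ h (by omega)
  have e1 : (ZZ V F Ψ).card ≤ (220 * b) * L ^ (b + 24) := by
    calc (ZZ V F Ψ).card ≤ 2 * Gd.card := hZZ
      _ ≤ 2 * (L ^ 11 * (PCB_T p Ψ).card) := Nat.mul_le_mul_left _ hGc
      _ ≤ 2 * (L ^ 11 * (p * Ψ.natDegree)) :=
          Nat.mul_le_mul_left _ (Nat.mul_le_mul_left _ (PCB_T_card p Ψ))
      _ ≤ 2 * (L ^ 11 * ((L * L ^ (b + 12)) * (110 * b))) := by gcongr
      _ = (220 * b) * L ^ (b + 24) := by
          rw [show b + 24 = 11 + (1 + (b + 12)) by omega, pow_add L 11, pow_add L 1,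
            pow_one]
          ring
  have e2 : 2 * (tdg Ψ * tdg Ψ) * L ^ 10 ≤
      (2 * (110 * b * (110 * b))) * L ^ (b + 24) := by
    have h5 : L ^ 10 ≤ L ^ (b + 24) := Nat.pow_le_pow_right hL1 (by omega)
    gcongr
  have e3 : 2 * d * L ^ 10 ≤ d * L ^ 11 := by
    calc 2 * d * L ^ 10 = d * (2 * L ^ 10) := by ring
      _ ≤ d * (L * L ^ 10) := Nat.mul_le_mul_left _ (Nat.mul_le_mul_right _ (by omega))
      _ = d * L ^ 11 := by ring
  have e4 : (220 * b) * L ^ (b + 24) + (2 * (110 * b * (110 * b))) * L ^ (b + 24) ≤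
      L ^ (b + 26) := by
    calc (220 * b) * L ^ (b + 24) + (2 * (110 * b * (110 * b))) * L ^ (b + 24)
        = (220 * b + 2 * (110 * b * (110 * b))) * L ^ (b + 24) := by ring
      _ ≤ (L * L) * L ^ (b + 24) := by
          refine Nat.mul_le_mul_right _ ?_
          have h5 : 220 * b + 2 * (110 * b * (110 * b)) ≤ L := by omega
          exact h5.trans (Nat.le_mul_of_pos_left _ hL1)
      _ = L ^ (b + 26) := by
          rw [show b + 26 = (b + 24) + 2 by omega, pow_add L (b + 24)]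
          ring
  have e5 : L ^ (b + 26) ≤ L ^ (b + 30) := Nat.pow_le_pow_right hL1 (by omega)
  omega

end FDP
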