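import Pool.Agent.W_fd120a_h8.Siegel
import Pool.Agent.W_fd120a_h8.Bez
import Pool.Agent.W_fd120a_h34.Sie2
import Pool.Agent.W_fd120a_h34.Div
import Pool.Agent.W_fd120a_h34.Hom

set_option autoImplicit false

open Finset Polynomial
open scoped Classical

namespace FDP

/-- `y ^ n * P (x / y)` -/
def hx (n : ℕ) (P : ℤ[X]) (x y : ℤ) : ℤ := ∑ i ∈ Finset.range (n + 1), P.coeff i * x ^ i * y ^ (n - i)

theorem pcc_hx_eq (n : ℕ) (P : ℤ[X]) (x y : ℤ) : hx n P x y = FD120.hom n P y x := by
  unfold hx FD120.hom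
  refine Finset.sum_congr rfl fun i _ => ?_
  ring

theorem pcc_swap (n : ℕ) (P : ℤ[X]) (x y : ℤ) : hx n (reflect n P) y x = hx n P x y := by
  unfold hx
  rw [← Finset.sum_range_reflect (fun i => P.coeff i * x ^ i * y ^ (n - i))]
  refine Finset.sum_congr rfl fun i hi => ?_
  have hi' : i ≤ n := Nat.lt_succ_iff.1 (Finset.mem_range.1 hi)
  rw [coeff_reflect, revAt_le hi']
  have h1 : n + 1 - 1 - i = n - i := by omega
  have h2 : n - (n - i) = i := by omega
  simp only [h1, h2]
  ring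

theorem pcc_dvd (e : ℕ) (he : 2 ≤ e) (H : ℤ) (hH : 1 ≤ H) (E A : ℤ[X]) (hE : E ≠ 0) (hA : A ≠ 0)
    (hEd : E.natDegree ≤ e - 1) (hAd : A.natDegree ≤ e) (hcop : IsRelPrime E A)
    (hD1 : 1 ≤ max A.natDegree E.natDegree)
    (hEH : ∀ i, |E.coeff i| ≤ H) (hAH : ∀ i, |A.coeff i| ≤ H) :
    ∃ M : ℤ, M ≠ 0 ∧ |M| ≤ (2 * e * H) ^ (2 * e) ∧
      ∀ x y : ℤ, y ≠ 0 → hx (e - 1) E x y ∣ hx e A x y →
        hx (e - 1) E x y ∣ M * y ^ (e - 1 + e) := by
  obtain ⟨U, V, M, hM0, hMle, hU, hV, hUV⟩ := FD120.siegel2 e H hH A E A E 1 (one_mul A)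
    (one_mul E) hcop one_ne_zero hA hE hAd (by omega) hAH hEH _ rfl hD1
  refine ⟨M, hM0, hMle, fun x y hy hd => ?_⟩
  have hm : max A.natDegree E.natDegree ≤ e := max_le hAd (by omega)
  have h1 := FD120.hom_mul (e - 1) e U A (by omega) hAd y x hy
  have h2 := FD120.hom_mul e (e - 1) V E (by omega) hEd y x hy
  have h3 := FD120.hom_add (e - 1 + e) (U * A) (V * E) y x
  have h4 : e + (e - 1) = e - 1 + e := by omega
  rw [h4] at h2
  rw [hUV, FD120.hom_C, h1, h2] at h3
  rw [h3, ← pcc_hx_eq, ← pcc_hx_eq, ← pcc_hx_eq, ← pcc_hx_eq]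
  exact dvd_add (hd.mul_left _) (dvd_mul_left _ _)

/-- the reversed polynomials are coprime -/
theorem pcc_rel (e : ℕ) (E A : ℤ[X]) (hE : E ≠ 0) (hA : A ≠ 0)
    (hEd : E.natDegree ≤ e - 1) (hAd : A.natDegree ≤ e) (hcop : IsRelPrime E A)
    (htop : E.coeff (e - 1) ≠ 0 ∨ A.coeff e ≠ 0) :
    IsRelPrime (reflect (e - 1) E) (reflect e A) := by
  have key : ∀ (n : ℕ) (P d : ℤ[X]), P ≠ 0 → P.natDegree ≤ n → d ∣ reflect n P →
      d.reverse ∣ P := by
    intro n P d hP hPn hd
    obtain ⟨q, hq⟩ := hd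
    have hR : reflect n P ≠ 0 := by
      rw [Ne, reflect_eq_zero_iff]
      exact hP
    have hd0 : d ≠ 0 := by
      rintro rfl
      rw [zero_mul] at hq
      exact hR hq
    have hq0 : q ≠ 0 := by
      rintro rfl
      rw [mul_zero] at hq
      exact hR hq
    have hdeg : d.natDegree + q.natDegree ≤ n := by
      rw [← natDegree_mul hd0 hq0, ← hq]
      rw [natDegree_le_iff_coeff_eq_zero]
      intro i hi
      rw [coeff_reflect, revAt_eq_self_of_lt hi]
      exact coeff_eq_zero_of_natDegree_lt (by omega)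
    have h1 : P = reflect (d.natDegree + (n - d.natDegree)) (d * q) := by
      rw [← hq, Nat.add_sub_cancel' (by omega), reflect_reflect]
    rw [reflect_mul d q le_rfl (by omega)] at h1
    rw [h1]
    exact dvd_mul_right _ _
  intro d hd1 hd2
  have h0 : d.coeff 0 ≠ 0 := by
    intro h0
    have hX : X ∣ d := X_dvd_iff.2 h0
    have h1 := X_dvd_iff.1 (hX.trans hd1)
    have h2 := X_dvd_iff.1 (hX.trans hd2)
    rw [coeff_reflect, revAt_le (Nat.zero_le _), Nat.sub_zero] at h1 h2
    rcases htop with h | h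
    · exact h h1
    · exact h h2
  have hu : IsUnit d.reverse := hcop (key _ E d hE hEd hd1) (key _ A d hA hAd hd2)
  have h1 := natDegree_eq_zero_of_isUnit hu
  rw [reverse_natDegree] at h1
  have h2 : d.natTrailingDegree = 0 := by
    rw [natTrailingDegree_eq_zero]
    exact Or.inr h0
  have h3 : d.natDegree = 0 := by omega
  rw [eq_C_of_natDegree_eq_zero h3, reverse_C] at hu
  rw [eq_C_of_natDegree_eq_zero h3]
  exact hu

/-- Rational functions that take integral values at coprime pairs.  Let `E ≠ 0` be of degree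
at most `e - 1`, `A` of degree at most `e`, `e ≥ 2`, without common factor, not both of smaller
degree, with coefficients at most `H`.  There is `R ≠ 0`, `|R| ≤ (2 (e+1) H) ^ (4 (e+1))`, such that
`hx (e-1) E x y ∣ R` and `hx (e-1) E x y ≠ 0` for all coprime `x`, `y ≠ 0` with
`hx (e-1) E x y ∣ hx e A x y`.
Proof.  `u E + v A = M1 ≠ 0` with `|M1| ≤ (2 (e+1) H) ^ (2 (e+1))` by `FD120.siegel2` (with `G = 1`);
homogenising, `hx (e-1) E x y ∣ M1 y ^ n` for some `n`.  The reversed polynomials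
`E' (T) = T ^ (e-1) E (1/T)`, `A' (T) = T ^ e A (1/T)` are coprime too (a common factor `T` is excluded
by the hypothesis on the degrees), so `hx (e-1) E x y ∣ M2 x ^ n'`.  Take `R = M1 M2`; as `x`, `y` are
coprime, `hx (e-1) E x y ∣ M1 M2`.  If `hx (e-1) E x y = 0` then `0 ∣ M1 y ^ n ≠ 0`, impossible
(`y ≠ 0`).  If one of `E`, `A` is constant treat it directly (`siegel2` needs
`1 ≤ max (deg E) (deg A)`; `A ≠ 0` because `E` and `A` are coprime and `E` ... if `A = 0` then `E` is a
non-zero constant and the degree hypothesis fails as `e ≥ 2`). -/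
theorem ratio_bound (e : ℕ) (he : 2 ≤ e) (H : ℤ) (hH : 1 ≤ H) (E A : ℤ[X]) (hE : E ≠ 0)
    (hEd : E.natDegree ≤ e - 1) (hAd : A.natDegree ≤ e) (hcop : IsRelPrime E A)
    (htop : E.coeff (e - 1) ≠ 0 ∨ A.coeff e ≠ 0)
    (hEH : ∀ i, |E.coeff i| ≤ H) (hAH : ∀ i, |A.coeff i| ≤ H) :
    ∃ R : ℤ, R ≠ 0 ∧ |R| ≤ (2 * (e + 1) * H) ^ (4 * (e + 1)) ∧
      ∀ x y : ℤ, IsCoprime x y → y ≠ 0 → hx (e - 1) E x y ∣ hx e A x y →
        hx (e - 1) E x y ∣ R ∧ hx (e - 1) E x y ≠ 0 := by
  have hA : A ≠ 0 := by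
    rintro rfl
    have hu : IsUnit E := by
      have := hcop (dvd_refl E) (dvd_zero E)
      exact this
    have h1 := natDegree_eq_zero_of_isUnit hu
    rcases htop with h | h
    · exact h (coeff_eq_zero_of_natDegree_lt (by omega))
    · exact h (coeff_zero e)
  have hD1 : 1 ≤ max A.natDegree E.natDegree := by
    rcases htop with h | h
    · have := le_natDegree_of_ne_zero h
      exact (by omega : 1 ≤ E.natDegree).trans (le_max_right _ _)
    · have := le_natDegree_of_ne_zero h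
      exact (by omega : 1 ≤ A.natDegree).trans (le_max_left _ _)
  obtain ⟨M1, hM1, hM1le, hM1d⟩ := pcc_dvd e he H hH E A hE hA hEd hAd hcop hD1 hEH hAH
  -- the reversed polynomials
  have hdegr : ∀ (n : ℕ) (P : ℤ[X]), P.natDegree ≤ n → (reflect n P).natDegree ≤ n := by
    intro n P hP
    rw [natDegree_le_iff_coeff_eq_zero]
    intro i hi
    rw [coeff_reflect, revAt_eq_self_of_lt hi]
    exact coeff_eq_zero_of_natDegree_lt (by omega)
  have hD1' : 1 ≤ max (reflect e A).natDegree (reflect (e - 1) E).natDegree := by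
    by_contra hcon
    have h1 : (reflect e A).natDegree = 0 := by
      have := le_max_left (reflect e A).natDegree (reflect (e - 1) E).natDegree
      omega
    have h2 : (reflect (e - 1) E).natDegree = 0 := by
      have := le_max_right (reflect e A).natDegree (reflect (e - 1) E).natDegree
      omega
    have h3 : A.coeff 0 = 0 := by
      have h4 : (reflect e A).coeff e = 0 := coeff_eq_zero_of_natDegree_lt (by omega)
      rwa [coeff_reflect, revAt_le le_rfl, Nat.sub_self] at h4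
    have h5 : E.coeff 0 = 0 := by
      have h4 : (reflect (e - 1) E).coeff (e - 1) = 0 := coeff_eq_zero_of_natDegree_lt (by omega)
      rwa [coeff_reflect, revAt_le le_rfl, Nat.sub_self] at h4
    have h6 : IsUnit (X : ℤ[X]) := hcop (X_dvd_iff.2 h5) (X_dvd_iff.2 h3)
    exact not_isUnit_X h6
  obtain ⟨M2, hM2, hM2le, hM2d⟩ := pcc_dvd e he H hH (reflect (e - 1) E) (reflect e A)
    (by rw [Ne, reflect_eq_zero_iff]; exact hE) (by rw [Ne, reflect_eq_zero_iff]; exact hA)
    (hdegr _ _ hEd) (hdegr _ _ hAd) (pcc_rel e E A hE hA hEd hAd hcop htop) hD1'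
    (fun i => by rw [coeff_reflect]; exact hEH _) (fun i => by rw [coeff_reflect]; exact hAH _)
  refine ⟨M1 * M2, mul_ne_zero hM1 hM2, ?_, ?_⟩
  · have hb : (1 : ℤ) ≤ 2 * e * H := by
      have : (2 : ℤ) ≤ e := by exact_mod_cast he
      nlinarith
    have hb0 : (0 : ℤ) ≤ 2 * e * H := by linarith
    rw [abs_mul]
    calc |M1| * |M2| ≤ (2 * e * H) ^ (2 * e) * (2 * e * H) ^ (2 * e) :=
          mul_le_mul hM1le hM2le (abs_nonneg _) (pow_nonneg hb0 _)
      _ = (2 * e * H) ^ (4 * e) := by rw [← pow_add]; congr 1; ring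
      _ ≤ (2 * e * H) ^ (4 * (e + 1)) := pow_le_pow_right₀ hb (by omega)
      _ ≤ (2 * (e + 1) * H) ^ (4 * (e + 1)) := by
          refine pow_le_pow_left₀ hb0 ?_ _
          nlinarith
  · intro x y hxy hy hd
    have h1 := hM1d x y hy hd
    refine ⟨?_, ?_⟩
    · by_cases hx0 : x = 0
      · subst hx0
        have hu : IsUnit y := isCoprime_zero_left.1 hxy
        have h2 : hx (e - 1) E 0 y ∣ M1 := by
          have h3 : IsUnit (y ^ (e - 1 + e)) := hu.pow _
          exact (h3.dvd_mul_right).1 h1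
        exact h2.mul_right _
      · have h2 := hM2d y x hx0
        rw [pcc_swap, pcc_swap] at h2
        have h3 := h2 hd
        have h4 : IsCoprime (x ^ (e - 1 + e)) (y ^ (e - 1 + e)) := hxy.pow
        obtain ⟨u, v, huv⟩ := h4
        have h5 : M1 * M2 = M1 * u * (M2 * x ^ (e - 1 + e)) + M2 * v * (M1 * y ^ (e - 1 + e)) := by
          calc M1 * M2 = M1 * M2 * (u * x ^ (e - 1 + e) + v * y ^ (e - 1 + e)) := by
                rw [huv, mul_one]
            _ = _ := by ring
        rw [h5]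
        exact dvd_add (h3.mul_left _) (h1.mul_left _)
    · intro h0
      rw [h0, zero_dvd_iff] at h1
      exact (mul_ne_zero hM1 (pow_ne_zero _ hy)) h1

/-- A binary form of degree `n ≥ 1` takes a given non-zero value at most `2 (n + 1) (2 B + 1)`
times in the box. -/
theorem hx_fibre (n : ℕ) (hn : 1 ≤ n) (E : ℤ[X]) (hE : E ≠ 0) (hEd : E.natDegree ≤ n) (B : ℕ)
    (δ : ℤ) (hδ : δ ≠ 0) (S : Finset (ℤ × ℤ))
    (hS : ∀ w ∈ S, |w.1| ≤ B ∧ |w.2| ≤ B ∧ w.2 ≠ 0 ∧ hx n E w.1 w.2 = δ) :
    S.card ≤ 2 * (n + 1) * (2 * B + 1) := by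
  have hbox : ∀ T : Finset ℤ, (∀ t ∈ T, |t| ≤ (B : ℤ)) → T.card ≤ 2 * B + 1 := by
    intro T hT
    have hsub : T ⊆ Finset.Icc (-(B : ℤ)) B := by
      intro t ht
      rw [Finset.mem_Icc]
      exact abs_le.1 (hT t ht)
    have h1 := Finset.card_le_card hsub
    rw [Int.card_Icc] at h1
    omega
  have hfin : n * (2 * B + 1) ≤ 2 * (n + 1) * (2 * B + 1) := Nat.mul_le_mul_right _ (by omega)
  rcases Nat.eq_zero_or_pos E.natDegree with h0 | h1
  · -- `E` is constant
    have hEc := eq_C_of_natDegree_eq_zero h0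
    have hc : E.coeff 0 ≠ 0 := by
      intro h
      rw [h, C_0] at hEc
      exact hE hEc
    have hval : ∀ w ∈ S, E.coeff 0 * w.2 ^ n = δ := by
      intro w hw
      obtain ⟨-, -, -, h4⟩ := hS w hw
      rw [pcc_hx_eq, hEc, FD120.hom_C] at h4
      exact h4
    have hY : (S.image Prod.snd).card ≤ n := by
      set F : ℤ[X] := C (E.coeff 0) * X ^ n - C δ with hF
      have hFc : F.coeff n = E.coeff 0 := by
        rw [hF, coeff_sub, coeff_C_mul, coeff_X_pow, if_pos rfl, mul_one,
          coeff_C_of_ne_zero (by omega), sub_zero]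
      have hF0 : F ≠ 0 := by
        intro h
        rw [h, coeff_zero] at hFc
        exact hc hFc.symm
      have hFd : F.natDegree ≤ n := by
        rw [hF]
        refine (natDegree_sub_le _ _).trans (max_le ?_ ?_)
        · exact natDegree_C_mul_X_pow_le _ _
        · rw [natDegree_C]
          exact Nat.zero_le _
      have hsub : S.image Prod.snd ⊆ F.roots.toFinset := by
        intro y hy
        obtain ⟨w, hw, rfl⟩ := Finset.mem_image.1 hy
        rw [Multiset.mem_toFinset, mem_roots hF0, IsRoot.def, hF, eval_sub, eval_mul, eval_C,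
          eval_pow, eval_X, eval_C, hval w hw, sub_self]
      exact (Finset.card_le_card hsub).trans ((Multiset.toFinset_card_le _).trans
        ((card_roots' F).trans hFd))
    have hX : (S.image Prod.fst).card ≤ 2 * B + 1 := by
      refine hbox _ fun t ht => ?_
      obtain ⟨w, hw, rfl⟩ := Finset.mem_image.1 ht
      exact (hS w hw).1
    have hsub : S ⊆ (S.image Prod.fst) ×ˢ (S.image Prod.snd) := by
      intro w hw
      rw [Finset.mem_product]
      exact ⟨Finset.mem_image_of_mem _ hw, Finset.mem_image_of_mem _ hw⟩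
    have h2 := Finset.card_le_card hsub
    rw [Finset.card_product] at h2
    refine (h2.trans (Nat.mul_le_mul hX hY)).trans ?_
    rw [mul_comm]
    exact hfin
  · have hfib : ∀ y ∈ S.image Prod.snd, (S.filter (fun w => w.2 = y)).card ≤ n := by
      intro y hy
      obtain ⟨w0, hw0, rfl⟩ := Finset.mem_image.1 hy
      have hinj : Set.InjOn (Prod.fst : ℤ × ℤ → ℤ)
          ((S.filter (fun w => w.2 = w0.2) : Finset (ℤ × ℤ)) : Set (ℤ × ℤ)) := by
        intro w hw v hv hwv
        rw [Finset.mem_coe, Finset.mem_filter] at hw hv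
        exact Prod.ext hwv (hw.2.trans hv.2.symm)
      rw [← Finset.card_image_of_injOn hinj]
      refine FD120.hom_fibre n E h1 hEd w0.2 δ (hS w0 hw0).2.2.1 _ ?_
      intro x hx'
      obtain ⟨w, hw, rfl⟩ := Finset.mem_image.1 hx'
      rw [Finset.mem_filter] at hw
      rw [← hw.2, ← pcc_hx_eq]
      exact (hS w hw.1).2.2.2
    have h2 : S.card ≤ n * (S.image Prod.snd).card := Finset.card_le_mul_card_image S n hfib
    have h3 : (S.image Prod.snd).card ≤ 2 * B + 1 := by
      refine hbox _ fun t ht => ?_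
      obtain ⟨w, hw, rfl⟩ := Finset.mem_image.1 ht
      exact (hS w hw).2.1
    exact (h2.trans (Nat.mul_le_mul_left n h3)).trans hfin

end FDP
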