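import Pool.Agent.W_fd120a_h8.Defs

set_option autoImplicit false

open Finset
open scoped Classical

namespace FDP

/-- The version with natural numbers. -/
theorem primeDiv_card_nat (A : ℤ) (hA : A ≠ 0) (y m : ℕ) (hy : 1 ≤ y)
    (hlog : |A| < (y : ℤ) ^ (m + 1)) (S : Finset ℕ) (hS : ∀ p ∈ S, p.Prime ∧ y < p) :
    (S.filter (fun p : ℕ => (p : ℤ) ∣ A)).card ≤ m := by
  by_contra hcon
  push Not at hcon
  set T : Finset ℕ := S.filter (fun p : ℕ => (p : ℤ) ∣ A) with hT
  have h1 : (∏ p ∈ T, p : ℕ) ∣ A.natAbs := by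
    refine Finset.prod_primes_dvd (A.natAbs : ℕ) (fun p hp => ?_) (fun p hp => ?_)
    · exact (hS p (Finset.mem_filter.1 hp).1).1.prime
    · exact Int.natCast_dvd.1 (Finset.mem_filter.1 hp).2
  have h2 : (∏ p ∈ T, p : ℕ) ≤ A.natAbs := Nat.le_of_dvd (Int.natAbs_pos.2 hA) h1
  have h3 : y ^ T.card ≤ (∏ p ∈ T, p : ℕ) :=
    Finset.pow_card_le_prod _ _ _ fun p hp => (hS p (Finset.mem_filter.1 hp).1).2.le
  have h4 : y ^ (m + 1) ≤ y ^ T.card := Nat.pow_le_pow_right hy hcon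
  have h5 : (A.natAbs : ℤ) < (y : ℤ) ^ (m + 1) := by rwa [Int.natCast_natAbs]
  have h6 : A.natAbs < y ^ (m + 1) := by exact_mod_cast h5
  omega

/-- A non-zero integer of absolute value less than `y ^ (m + 1)` has at most `m` prime divisors
larger than `y` (in a finite set `S` of such primes). -/
theorem primeDiv_card (A : ℤ) (hA : A ≠ 0) (y m : ℕ) (hy : 1 ≤ y)
    (hlog : |A| < (y : ℤ) ^ (m + 1)) (S : Finset ℕ) (hS : ∀ p ∈ S, p.Prime ∧ y < p) :
    (S.filter (fun p => (p : ℤ) ∣ A)).card ≤ m := by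
  refine le_trans ?_ (primeDiv_card_nat A hA y m hy hlog S hS)
  refine (Finset.card_le_card ?_).trans
    (Finset.card_image_le (s := S.filter (fun p : ℕ => (p : ℤ) ∣ A)) (f := fun p : ℕ => (p : ℤ)))
  intro x hx
  rw [Finset.mem_filter] at hx
  obtain ⟨hx1, hx2⟩ := hx
  simp only [Finset.bind_def, Finset.mem_sup, Finset.pure_def, Finset.mem_singleton] at hx1
  obtain ⟨a, ha, hax⟩ := hx1
  rw [Finset.mem_image]
  refine ⟨a, Finset.mem_filter.2 ⟨ha, ?_⟩, hax.symm⟩
  rw [← hax]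
  exact hx2

/-- Choice of a prime of good reduction for half of the elements (double counting). -/
theorem prime_pick {α : Type*} (Z : Finset α) (A : α → ℤ) (hA : ∀ v ∈ Z, A v ≠ 0) (y m : ℕ)
    (hy : 1 ≤ y) (hlog : ∀ v ∈ Z, |A v| < (y : ℤ) ^ (m + 1)) (S : Finset ℕ)
    (hS : ∀ p ∈ S, p.Prime ∧ y < p) (hm : 2 * m ≤ S.card) (hSne : S.Nonempty) :
    ∃ p ∈ S, Z.card ≤ 2 * (Z.filter (fun v => ¬ (p : ℤ) ∣ A v)).card := by
  by_contra hcon
  push Not at hcon
  have h1 : ∑ p ∈ S, (Z.filter (fun v => (p : ℤ) ∣ A v)).card =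
      ∑ v ∈ Z, (S.filter (fun p : ℕ => (p : ℤ) ∣ A v)).card := by
    simp only [Finset.card_filter]
    exact Finset.sum_comm
  have h2 : ∑ v ∈ Z, (S.filter (fun p : ℕ => (p : ℤ) ∣ A v)).card ≤ Z.card * m := by
    calc _ ≤ ∑ _v ∈ Z, m := Finset.sum_le_sum fun v hv =>
          primeDiv_card_nat (A v) (hA v hv) y m hy (hlog v hv) S hS
      _ = _ := by rw [Finset.sum_const, smul_eq_mul]
  have h3 : ∀ p ∈ S, Z.card + 1 ≤ 2 * (Z.filter (fun v => (p : ℤ) ∣ A v)).card := by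
    intro p hp
    have h4 := hcon p hp
    have h5 := Finset.card_filter_add_card_filter_not (s := Z) (fun v => (p : ℤ) ∣ A v)
    omega
  have h4 : S.card * (Z.card + 1) ≤ 2 * (Z.card * m) := by
    calc S.card * (Z.card + 1) = ∑ _p ∈ S, (Z.card + 1) := by rw [Finset.sum_const, smul_eq_mul]
      _ ≤ ∑ p ∈ S, 2 * (Z.filter (fun v => (p : ℤ) ∣ A v)).card := Finset.sum_le_sum h3
      _ = 2 * ∑ p ∈ S, (Z.filter (fun v => (p : ℤ) ∣ A v)).card := by rw [Finset.mul_sum]
      _ ≤ 2 * (Z.card * m) := by rw [h1]; exact Nat.mul_le_mul_left _ h2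
  have h5 : 0 < S.card := hSne.card_pos
  have h6 : Z.card * (2 * m) ≤ Z.card * S.card := Nat.mul_le_mul_left _ hm
  nlinarith

/-- Selection of a vertex of `V0` with many good neighbours.  `Σ_{v ∈ V0} #{w : (v,w) ∈ G} ≥ |V0| g`,
the bad pairs are at most `|V| β ≤ |V0| g / 4`, the pairs with `w ∈ X0` at most `|V0| |X0| ≤ |V0| g / 4`;
so some `v ∈ V0` has at least `g / 2` neighbours left. -/
theorem select {α : Type*} (V : Finset α) (G : Finset (α × α)) (hG : ∀ e ∈ G, e.2 ∈ V)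
    (V0 : Finset α) (hV0 : V0.Nonempty) (g β : ℕ)
    (hdeg : ∀ v ∈ V0, g ≤ (V.filter (fun w => (v, w) ∈ G)).card) (Bad : α → α → Prop)
    (hbad : ∀ w ∈ V, (V0.filter (fun v => (v, w) ∈ G ∧ Bad v w)).card ≤ β) (X0 : Finset α)
    (hX0 : 4 * X0.card ≤ g) (hβ : 4 * (V.card * β) ≤ V0.card * g) :
    ∃ v ∈ V0, g ≤ 2 * (V.filter (fun w => (v, w) ∈ G ∧ ¬ Bad v w ∧ w ∉ X0)).card := by
  by_contra hcon
  push Not at hcon
  have h1 : ∀ v, (V.filter (fun w => (v, w) ∈ G)).card ≤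
      (V.filter (fun w => (v, w) ∈ G ∧ ¬ Bad v w ∧ w ∉ X0)).card +
        (V.filter (fun w => (v, w) ∈ G ∧ Bad v w)).card + X0.card := by
    intro v
    have h2 : V.filter (fun w => (v, w) ∈ G) ⊆
        (V.filter (fun w => (v, w) ∈ G ∧ ¬ Bad v w ∧ w ∉ X0) ∪
          V.filter (fun w => (v, w) ∈ G ∧ Bad v w)) ∪ X0 := by
      intro w hw
      rw [Finset.mem_filter] at hw
      simp only [Finset.mem_union, Finset.mem_filter]
      by_cases hb : Bad v w
      · exact Or.inl (Or.inr ⟨hw.1, hw.2, hb⟩)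
      · by_cases hx : w ∈ X0
        · exact Or.inr hx
        · exact Or.inl (Or.inl ⟨hw.1, hw.2, hb, hx⟩)
    calc _ ≤ _ := Finset.card_le_card h2
      _ ≤ _ := Finset.card_union_le _ _
      _ ≤ _ := Nat.add_le_add_right (Finset.card_union_le _ _) _
  have h2 : ∑ v ∈ V0, (V.filter (fun w => (v, w) ∈ G ∧ Bad v w)).card ≤ V.card * β := by
    have h3 : ∑ v ∈ V0, (V.filter (fun w => (v, w) ∈ G ∧ Bad v w)).card =
        ∑ w ∈ V, (V0.filter (fun v => (v, w) ∈ G ∧ Bad v w)).card := by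
      simp only [Finset.card_filter]
      exact Finset.sum_comm
    rw [h3]
    calc _ ≤ ∑ _w ∈ V, β := Finset.sum_le_sum hbad
      _ = _ := by rw [Finset.sum_const, smul_eq_mul]
  have h3 : ∀ v ∈ V0, 2 * g + 2 ≤
      (g + 1) + 2 * (V.filter (fun w => (v, w) ∈ G ∧ Bad v w)).card + 2 * X0.card + 1 := by
    intro v hv
    have h4 := hcon v hv
    have h5 := hdeg v hv
    have h6 := h1 v
    omega
  have h4 : ∀ v ∈ V0, g + 1 ≤
      2 * (V.filter (fun w => (v, w) ∈ G ∧ Bad v w)).card + 2 * X0.card := by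
    intro v hv
    have h4 := hcon v hv
    have h5 := hdeg v hv
    have h6 := h1 v
    omega
  have h5 : V0.card * (g + 1) ≤ 2 * (V.card * β) + V0.card * (2 * X0.card) := by
    calc V0.card * (g + 1) = ∑ _v ∈ V0, (g + 1) := by rw [Finset.sum_const, smul_eq_mul]
      _ ≤ ∑ v ∈ V0, (2 * (V.filter (fun w => (v, w) ∈ G ∧ Bad v w)).card + 2 * X0.card) :=
          Finset.sum_le_sum h4
      _ = 2 * (∑ v ∈ V0, (V.filter (fun w => (v, w) ∈ G ∧ Bad v w)).card) +
            V0.card * (2 * X0.card) := by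
          rw [Finset.sum_add_distrib, Finset.sum_const, smul_eq_mul, Finset.mul_sum]
      _ ≤ _ := Nat.add_le_add_right (Nat.mul_le_mul_left _ h2) _
  have h6 : 0 < V0.card := hV0.card_pos
  have h7 : V0.card * (4 * X0.card) ≤ V0.card * g := Nat.mul_le_mul_left _ hX0
  nlinarith

/-- Vertices of large degree: if `G ⊆ V × V` has at least `2 g |V|` pairs then at least
`|G| / (2 |V|)` vertices have degree at least `g`. -/
theorem high_degree {α : Type*} (V : Finset α) (G : Finset (α × α))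
    (hG : ∀ e ∈ G, e.1 ∈ V ∧ e.2 ∈ V) (g : ℕ) (h : 2 * g * V.card ≤ G.card) :
    G.card ≤ 2 * V.card *
      (V.filter (fun v => g ≤ (V.filter (fun w => (v, w) ∈ G)).card)).card := by
  have h1 : G.card = ∑ v ∈ V, (G.filter (fun e => e.1 = v)).card :=
    Finset.card_eq_sum_card_fiberwise fun e he => (hG e he).1
  have h2 : ∀ v, (G.filter (fun e => e.1 = v)).card ≤ (V.filter (fun w => (v, w) ∈ G)).card := by
    intro v
    refine Finset.card_le_card_of_injOn (fun e => e.2) ?_ ?_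
    · intro e he
      have he' := Finset.mem_filter.1 (Finset.mem_coe.1 he)
      refine Finset.mem_coe.2 (Finset.mem_filter.2 ⟨(hG e he'.1).2, ?_⟩)
      rw [← he'.2]
      exact he'.1
    · intro e he e' he' hee
      have h3 := (Finset.mem_filter.1 (Finset.mem_coe.1 he)).2
      have h4 := (Finset.mem_filter.1 (Finset.mem_coe.1 he')).2
      exact Prod.ext (h3.trans h4.symm) hee
  have h3 : G.card ≤ ∑ v ∈ V, (V.filter (fun w => (v, w) ∈ G)).card := by
    rw [h1]
    exact Finset.sum_le_sum fun v _ => h2 v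
  have h4 : ∑ v ∈ V, (V.filter (fun w => (v, w) ∈ G)).card ≤
      V.card * (V.filter (fun v => g ≤ (V.filter (fun w => (v, w) ∈ G)).card)).card +
        V.card * g := by
    rw [← Finset.sum_filter_add_sum_filter_not V
      (fun v => g ≤ (V.filter (fun w => (v, w) ∈ G)).card)]
    refine Nat.add_le_add ?_ ?_
    · calc _ ≤ ∑ _v ∈ V.filter (fun v => g ≤ (V.filter (fun w => (v, w) ∈ G)).card), V.card :=
            Finset.sum_le_sum fun v _ => Finset.card_filter_le _ _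
        _ = _ := by rw [Finset.sum_const, smul_eq_mul, mul_comm]
    · calc _ ≤ ∑ _v ∈ V.filter (fun v => ¬ g ≤ (V.filter (fun w => (v, w) ∈ G)).card), g :=
            Finset.sum_le_sum fun v hv => (not_le.1 (Finset.mem_filter.1 hv).2).le
        _ = (V.filter (fun v => ¬ g ≤ (V.filter (fun w => (v, w) ∈ G)).card)).card * g := by
            rw [Finset.sum_const, smul_eq_mul]
        _ ≤ _ := Nat.mul_le_mul_right _ (Finset.card_filter_le _ _)
  nlinarith

end FDP
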