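import Pool.Agent.W_fd120a_h8.S2Defs

set_option autoImplicit false

open Finset Polynomial
open scoped Classical

namespace FDP

theorem RankF_card (k : ℕ) : 2 * (Mon k).card ≤ (k + 1) * (k + 2) := by
  have h1 : Mon k ⊆ (Finset.range (k + 1)).biUnion (fun n : ℕ => Finset.HasAntidiagonal.antidiagonal n) := by
    intro m hm
    unfold Mon at hm
    rw [Finset.mem_filter] at hm
    rw [Finset.mem_biUnion]
    exact ⟨m.1 + m.2, Finset.mem_range.2 (by omega), Finset.HasAntidiagonal.mem_antidiagonal.2 rfl⟩
  have h2 : (Mon k).card ≤ ∑ n ∈ Finset.range (k + 1), (n + 1) := by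
    refine (Finset.card_le_card h1).trans (Finset.card_biUnion_le.trans (le_of_eq ?_))
    exact Finset.sum_congr rfl (fun n _ => Finset.Nat.card_antidiagonal n)
  have h3 : ∀ k : ℕ, 2 * ∑ n ∈ Finset.range (k + 1), (n + 1) = (k + 1) * (k + 2) := by
    intro k
    induction k with
    | zero => simp
    | succ k ih =>
      rw [Finset.sum_range_succ, mul_add, ih]
      ring
  calc 2 * (Mon k).card ≤ 2 * ∑ n ∈ Finset.range (k + 1), (n + 1) := Nat.mul_le_mul_left 2 h2
    _ = (k + 1) * (k + 2) := h3 k

theorem rk_le (k : ℕ) (C : Finset Ln) : 2 * rk k C ≤ (k + 1) * (k + 2) := by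
  have h1 : rk k C ≤ (Mon k).card := by
    unfold rk
    refine (Submodule.finrank_le _).trans (le_of_eq ?_)
    rw [Module.finrank_fintype_fun_eq_card, Fintype.card_coe]
  exact (Nat.mul_le_mul_left 2 h1).trans (RankF_card k)

theorem rk_mono (k : ℕ) (C D : Finset Ln) (h : C ⊆ D) : rk k C ≤ rk k D := by
  unfold rk
  apply Submodule.finrank_mono
  apply Submodule.span_mono
  apply Set.image_mono
  exact_mod_cast h

theorem RankF_union (k : ℕ) (C D : Finset Ln) : rk k (C ∪ D) ≤ rk k C + rk k D := by
  unfold rk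
  rw [Finset.coe_union, Set.image_union, Submodule.span_union]
  exact Submodule.finrank_add_le_finrank_add_finrank _ _

theorem rk_biUnion {ι : Type*} (k : ℕ) (s : Finset ι) (f : ι → Finset Ln) :
    rk k (s.biUnion f) ≤ ∑ i ∈ s, rk k (f i) := by
  induction s using Finset.induction_on with
  | empty =>
    rw [Finset.biUnion_empty, Finset.sum_empty]
    unfold rk
    simp
  | insert i s hi ih =>
    rw [Finset.biUnion_insert, Finset.sum_insert hi]
    exact (RankF_union k _ _).trans (Nat.add_le_add_left ih _)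

end FDP
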