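import Pool.Agent.W_fd120a_h8.Acoef
import Pool.Agent.W_fd120a_h8.Bez
import Pool.Agent.W_fd120a_h8.PrimePick
import Pool.Agent.W_fd120a_h8.PrimeRange

set_option autoImplicit false

open Finset Polynomial
open scoped Classical

namespace FDP

/-- the points of the curve that are neither singular (in the direction of `Γ`) nor exceptional -/
noncomputable def ZZ (V : Finset Ln) (F Ψ : ℤ[X][X]) : Finset Ln :=
  V.filter (fun v => Van Ψ v ∧ ¬ Van (derivative Ψ) v ∧ ¬ Exc F v)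

theorem Red_not_dvd (Ψ : ℤ[X][X]) (h1 : 1 ≤ Ψ.natDegree) : ¬ Ψ ∣ derivative Ψ := by
  intro h
  have h2 : derivative Ψ ≠ 0 := by
    intro h0
    have := Polynomial.derivative_eq_zero.1 h0
    omega
  have h3 := natDegree_le_of_dvd h h2
  have h4 := natDegree_derivative_lt (p := Ψ) (by omega)
  omega

/-- All the points of the curve, except few, are in `ZZ`: Bezout for `Ψ` and its derivative
(`Ψ ∤ Ψ_Γ` because `Ψ_Γ ≠ 0` has smaller degree in `Γ`), and `exc_card`. -/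
theorem van_card_le (b L : ℕ) (V : Finset Ln) (d : ℕ) (F Ψ : ℤ[X][X]) (h : PCH b L V d F Ψ)
    (h1 : 1 ≤ Ψ.natDegree) :
    (V.filter (fun v => Van Ψ v)).card ≤
      (ZZ V F Ψ).card + 2 * (tdg Ψ * tdg Ψ) * L ^ 10 + 2 * d * L ^ 10 := by
  have hsub : V.filter (fun v => Van Ψ v) ⊆ (ZZ V F Ψ ∪
      V.filter (fun v => Van Ψ v ∧ Van (derivative Ψ) v)) ∪ V.filter (fun v => Exc F v) := by
    intro v hv
    rw [mem_filter] at hv
    simp only [ZZ, mem_union, mem_filter]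
    by_cases hd : Van (derivative Ψ) v
    · exact Or.inl (Or.inr ⟨hv.1, hv.2, hd⟩)
    · by_cases he : Exc F v
      · exact Or.inr ⟨hv.1, he⟩
      · exact Or.inl (Or.inl ⟨hv.1, hv.2, hd, he⟩)
  have hb := bezout_card b L V h.adm Ψ (derivative Ψ) h.irr h1 (Red_not_dvd Ψ h1)
  have he := exc_card b L V h.adm F h.F0
  have hb' : 2 * (tdg Ψ * tdg (derivative Ψ)) * L ^ 10 ≤ 2 * (tdg Ψ * tdg Ψ) * L ^ 10 :=
    Nat.mul_le_mul_right _ (Nat.mul_le_mul_left _ (Nat.mul_le_mul_left _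
      ((tdg_derivative_le Ψ).trans (Nat.sub_le _ _))))
  have he' : 2 * tdg F * L ^ 10 ≤ 2 * d * L ^ 10 :=
    Nat.mul_le_mul_right _ (Nat.mul_le_mul_left _ h.Fd)
  have h2 := (card_le_card hsub).trans (card_union_le _ _)
  have h3 := card_union_le (ZZ V F Ψ) (V.filter (fun v => Van Ψ v ∧ Van (derivative Ψ) v))
  omega

theorem Red_size (b : ℕ) (hb : 12 ≤ b) (L d : ℕ) (hL : 8 ≤ L) (hd : 1 ≤ d) :
    ((d : ℤ) + 1) ^ 2 * (2 ^ d * (L : ℤ) ^ (52 * b * d)) * ((L : ℤ) ^ (51 * b + 10)) ^ d ≤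
      (L : ℤ) ^ (104 * b * d) := by
  have h1 : (d : ℤ) + 1 ≤ 2 ^ d := by
    have : d + 1 ≤ 2 ^ d := Nat.lt_two_pow_self
    exact_mod_cast this
  have h2 : ((d : ℤ) + 1) ^ 2 ≤ (2 ^ d) ^ 2 := pow_le_pow_left₀ (by positivity) h1 2
  have h3 : (2 ^ d) ^ 2 * (2 : ℤ) ^ d ≤ (L : ℤ) ^ d := by
    have e : (2 ^ d) ^ 2 * (2 : ℤ) ^ d = 8 ^ d := by
      rw [show (8 : ℤ) = 2 ^ 3 by norm_num, ← pow_mul, ← pow_mul, ← pow_add]
      congr 1
      ring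
    rw [e]
    exact pow_le_pow_left₀ (by norm_num) (by exact_mod_cast hL) d
  have hL1 : (1 : ℤ) ≤ L := by
    have : 1 ≤ L := by omega
    exact_mod_cast this
  calc ((d : ℤ) + 1) ^ 2 * (2 ^ d * (L : ℤ) ^ (52 * b * d)) * ((L : ℤ) ^ (51 * b + 10)) ^ d
      ≤ (2 ^ d) ^ 2 * (2 ^ d * (L : ℤ) ^ (52 * b * d)) * ((L : ℤ) ^ (51 * b + 10)) ^ d := by
        gcongr
    _ = ((2 ^ d) ^ 2 * (2 : ℤ) ^ d) * ((L : ℤ) ^ (52 * b * d) * ((L : ℤ) ^ (51 * b + 10)) ^ d) := by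
        ring
    _ ≤ (L : ℤ) ^ d * ((L : ℤ) ^ (52 * b * d) * ((L : ℤ) ^ (51 * b + 10)) ^ d) := by
        gcongr
    _ = (L : ℤ) ^ (d + (52 * b * d + (51 * b + 10) * d)) := by
        rw [pow_add _ d, pow_add _ (52 * b * d), pow_mul _ (51 * b + 10) d]
    _ ≤ (L : ℤ) ^ (104 * b * d) := by
        refine pow_le_pow_right₀ hL1 ?_
        nlinarith [Nat.mul_le_mul_right d hb]

/-- Good reduction.  For `v ∈ ZZ` let `A v` be given by `exists_A` (with `H = L ^ (52 b d)`,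
`M = L ^ (51 b + 10)`), and consider `A v * y v`, non-zero, of absolute value at most
`L ^ (104 b d) * L ^ (b + 10) < (L ^ 2) ^ (106 b d + 1) / L`.  Every prime not dividing `A v * y v`
divides neither `y v` nor `hm (tdg Ψ - 1) (derivative Ψ) v`.  The primes of `(y, L y]` are at least
`y ≥ d L ^ 2 ≥ 2 * (106 b d)` in number (`primes_range (3 b + 10)`): apply `prime_pick` with
`m = 106 b d` (or smaller). -/
theorem good_prime (b : ℕ) (hb : 12 ≤ b) : ∃ L0 : ℕ, ∀ L, L0 ≤ L → ∀ (V : Finset Ln) (d : ℕ)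
    (F Ψ : ℤ[X][X]), PCH b L V d F Ψ → ∀ y : ℕ, d * L ^ 2 ≤ y → y ≤ L ^ (2 * b + 5) →
    ∃ p : ℕ, p.Prime ∧ y < p ∧ p ≤ L * y ∧
      (ZZ V F Ψ).card ≤ 2 * ((ZZ V F Ψ).filter (fun v => ¬ (p : ℤ) ∣ v.2.1 ∧
        ¬ (p : ℤ) ∣ hm (tdg Ψ - 1) (derivative Ψ) v)).card := by
  obtain ⟨L1, hL1⟩ := primes_range (2 * b + 5)
  refine ⟨L1 + 106 * b + 8, fun L hL V d F Ψ h y hy hy2 => ?_⟩
  have hLL1 : L1 ≤ L := by omega
  have hL8 : 8 ≤ L := by omega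
  have hLb : 106 * b ≤ L := by omega
  have hLpos : (1 : ℤ) ≤ L := by
    have : 1 ≤ L := by omega
    exact_mod_cast this
  have hLy : L ^ 2 ≤ y := le_trans (Nat.le_mul_of_pos_left _ h.hd1) hy
  have hy1 : 1 ≤ y := le_trans (Nat.one_le_pow _ _ (by omega)) hLy
  have hcard := hL1 L hLL1 y hy1 hy2
  -- the integers `A v`
  have hA : ∀ v : Ln, ∃ A : ℤ, v ∈ ZZ V F Ψ → A ≠ 0 ∧ |A| ≤ (L : ℤ) ^ (104 * b * d) ∧
      hm (tdg Ψ - 1) (derivative Ψ) v ∣ A := by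
    intro v
    by_cases hv : v ∈ ZZ V F Ψ
    · simp only [ZZ, mem_filter] at hv
      obtain ⟨hvV, hv1, hv2, hv3⟩ := hv
      have hM : (1 : ℤ) ≤ (L : ℤ) ^ (51 * b + 10) := one_le_pow₀ hLpos
      have hmono : (L : ℤ) ^ (b + 10) ≤ (L : ℤ) ^ (51 * b + 10) :=
        pow_le_pow_right₀ hLpos (by omega)
      obtain ⟨A, hA0, hA1, hA2⟩ := exists_A d F h.F0 h.Fd ((L : ℤ) ^ (52 * b * d))
        ((L : ℤ) ^ (51 * b + 10)) hM h.FH v (h.adm.ynz v hvV) ((h.adm.bx v hvV).trans hmono)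
        ((h.adm.bdy v hvV).trans hmono) (h.adm.bc v hvV) hv3
      exact ⟨A, fun _ => ⟨hA0, hA1.trans (Red_size b hb L d hL8 h.hd1),
        (hA2 Ψ h.dvd).2 hv1 hv2⟩⟩
    · exact ⟨0, fun hv' => absurd hv' hv⟩
  choose A hA using hA
  have hyv : ∀ v ∈ ZZ V F Ψ, v.2.1 ≠ 0 ∧ |v.2.1| ≤ (L : ℤ) ^ (b + 10) := by
    intro v hv
    simp only [ZZ, mem_filter] at hv
    exact ⟨h.adm.ynz v hv.1, h.adm.bdy v hv.1⟩
  have k1 : ∀ v ∈ ZZ V F Ψ, |A v * v.2.1| < (y : ℤ) ^ (53 * b * d + 1) := by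
    intro v hv
    rw [abs_mul]
    have h1 : |A v| * |v.2.1| ≤ (L : ℤ) ^ (104 * b * d) * (L : ℤ) ^ (b + 10) :=
      mul_le_mul (hA v hv).2.1 (hyv v hv).2 (abs_nonneg _) (by positivity)
    refine h1.trans_lt ?_
    rw [← pow_add]
    have h2 : (L : ℤ) ^ (104 * b * d + (b + 10)) < (L : ℤ) ^ (2 * (53 * b * d + 1)) := by
      refine pow_lt_pow_right₀ (by exact_mod_cast (show 1 < L by omega)) ?_
      have h3 : b ≤ b * d := Nat.le_mul_of_pos_right b h.hd1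
      have e1 : 104 * b * d = 104 * (b * d) := by ring
      have e2 : 53 * b * d = 53 * (b * d) := by ring
      rw [e1, e2]
      omega
    refine h2.trans_le ?_
    rw [pow_mul]
    exact pow_le_pow_left₀ (by positivity) (by exact_mod_cast hLy) _
  have k2 : ∀ p ∈ (Finset.Ioc y (L * y)).filter Nat.Prime, p.Prime ∧ y < p := by
    intro p hp
    rw [mem_filter, Finset.mem_Ioc] at hp
    exact ⟨hp.2, hp.1.1⟩
  have k3 : 2 * (53 * b * d) ≤ ((Finset.Ioc y (L * y)).filter Nat.Prime).card := by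
    refine le_trans ?_ hcard
    refine le_trans ?_ hy
    have h1 : 106 * b ≤ L ^ 2 := hLb.trans (by nlinarith)
    calc 2 * (53 * b * d) = d * (106 * b) := by ring
      _ ≤ d * L ^ 2 := Nat.mul_le_mul_left _ h1
  have k4 : ((Finset.Ioc y (L * y)).filter Nat.Prime).Nonempty := by
    rw [← card_pos]
    omega
  obtain ⟨p, hpS, hp⟩ := prime_pick (ZZ V F Ψ) (fun v => A v * v.2.1)
    (fun v hv => mul_ne_zero (hA v hv).1 (hyv v hv).1) y (53 * b * d) hy1 k1 _ k2 k3 k4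
  rw [mem_filter, Finset.mem_Ioc] at hpS
  refine ⟨p, hpS.2, hpS.1.1, hpS.1.2, hp.trans (Nat.mul_le_mul_left 2 (card_le_card ?_))⟩
  intro v hv
  rw [mem_filter] at hv ⊢
  refine ⟨hv.1, fun h1 => hv.2 (dvd_mul_of_dvd_right h1 _), fun h1 => hv.2 ?_⟩
  exact dvd_mul_of_dvd_left (h1.trans (hA v hv.1).2.2) _

end FDP
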