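import Pool.Agent.W_fd120a_h8.S2Defs
import Pool.Agent.W_fd120a_h8.Roots

set_option autoImplicit false

open Finset Polynomial
open scoped Classical

namespace FDP

/-- pigeonhole for the levels -/
theorem reg_pigeon {α β : Type*} [DecidableEq β] (s : Finset α) (t : Finset β) (f : α → β)
    (hf : ∀ a ∈ s, f a ∈ t) (hs : s.Nonempty) (L : ℕ) (hL : t.card ≤ L) :
    ∃ y ∈ t, s.card ≤ L * (s.filter (fun a => f a = y)).card := by
  by_contra hcon
  push Not at hcon
  have ht : t.Nonempty := by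
    obtain ⟨a, ha⟩ := hs
    exact ⟨f a, hf a ha⟩
  have h1 : s.card = ∑ y ∈ t, (s.filter (fun a => f a = y)).card :=
    Finset.card_eq_sum_card_fiberwise hf
  have h2 : ∑ y ∈ t, L * (s.filter (fun a => f a = y)).card < ∑ _y ∈ t, s.card :=
    Finset.sum_lt_sum_of_nonempty ht hcon
  rw [← Finset.mul_sum, ← h1, Finset.sum_const, smul_eq_mul] at h2
  have h3 : t.card * s.card ≤ L * s.card := Nat.mul_le_mul_right _ hL
  omega

/-- the out-degree -/
noncomputable def regOut (G : Finset (Ln × Ln)) (v : Ln) : ℕ := (G.filter (fun e => e.1 = v)).card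

/-- the in-degree -/
noncomputable def regIn (G : Finset (Ln × Ln)) (w : Ln) : ℕ := (G.filter (fun e => e.2 = w)).card

theorem reg_out_le {V : Finset Ln} {G : Finset (Ln × Ln)} (hG : ∀ e ∈ G, e.1 ∈ V ∧ e.2 ∈ V)
    (v : Ln) : regOut G v ≤ V.card := by
  unfold regOut
  refine Finset.card_le_card_of_injOn (fun e => e.2) ?_ ?_
  · intro e he
    exact (hG e (Finset.mem_filter.1 he).1).2
  · intro e he e' he' h
    have h1 := (Finset.mem_filter.1 he).2
    have h2 := (Finset.mem_filter.1 he').2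
    exact Prod.ext (h1.trans h2.symm) h

theorem reg_in_le {V : Finset Ln} {G : Finset (Ln × Ln)} (hG : ∀ e ∈ G, e.1 ∈ V ∧ e.2 ∈ V)
    (w : Ln) : regIn G w ≤ V.card := by
  unfold regIn
  refine Finset.card_le_card_of_injOn (fun e => e.1) ?_ ?_
  · intro e he
    exact (hG e (Finset.mem_filter.1 he).1).1
  · intro e he e' he' h
    have h1 := (Finset.mem_filter.1 he).2
    have h2 := (Finset.mem_filter.1 he').2
    exact Prod.ext h (h1.trans h2.symm)

theorem reg_sum_out (G : Finset (Ln × Ln)) (W : Finset Ln) :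
    ∑ v ∈ W, regOut G v = (G.filter (fun e => e.1 ∈ W)).card := by
  unfold regOut
  rw [Finset.card_eq_sum_card_fiberwise (f := fun e : Ln × Ln => e.1) (t := W)
    (s := G.filter (fun e => e.1 ∈ W)) (fun e he => (Finset.mem_filter.1 he).2)]
  refine Finset.sum_congr rfl fun v hv => ?_
  congr 1
  ext e
  simp only [Finset.mem_filter]
  constructor
  · rintro ⟨h1, h2⟩
    exact ⟨⟨h1, by rw [h2]; exact hv⟩, h2⟩
  · rintro ⟨⟨h1, -⟩, h2⟩
    exact ⟨h1, h2⟩

theorem reg_sum_in (G : Finset (Ln × Ln)) (W : Finset Ln) :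
    ∑ v ∈ W, regIn G v = (G.filter (fun e => e.2 ∈ W)).card := by
  unfold regIn
  rw [Finset.card_eq_sum_card_fiberwise (f := fun e : Ln × Ln => e.2) (t := W)
    (s := G.filter (fun e => e.2 ∈ W)) (fun e he => (Finset.mem_filter.1 he).2)]
  refine Finset.sum_congr rfl fun v hv => ?_
  congr 1
  ext e
  simp only [Finset.mem_filter]
  constructor
  · rintro ⟨h1, h2⟩
    exact ⟨⟨h1, by rw [h2]; exact hv⟩, h2⟩
  · rintro ⟨⟨h1, -⟩, h2⟩
    exact ⟨h1, h2⟩

/-- Regularisation of the degrees.  For `v ∈ V` let `i v` be the integer with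
`L ^ i ≤ outdeg v < L ^ (i+1)` (out-degree in `G`), and `j w` the same for the in-degree.  All degrees
are at most `|V| ≤ L ^ (2b+31)` (`adm_card`), so there are at most `(2b+32) ^ 2 ≤ L` pairs `(i, j)`,
and for one of them the set `G'` of the edges `(v, w)` with `i v = i`, `j w = j` has at least
`|G| / L ≥ L ^ (4b-q-1)` elements.  `V1 = {v : i v = i}`, `V2 = {w : j w = j}`, `g1 = L ^ i`,
`g2 = L ^ j`: `|V1| g1 ≤ |G| ≤ L |G'|`; `L ^ (4b-q-1) ≤ |G'| ≤ |V| L ^ (i+1)` gives
`i ≥ 2b-q-33 ≥ b + 567`, same for `j`. -/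
theorem regular (b : ℕ) (hb : 1000 ≤ b) : ∃ L0 : ℕ, ∀ L, L0 ≤ L → ∀ q, q + 600 ≤ b →
    ∀ V : Finset Ln, Adm b L V → ∀ G : Finset (Ln × Ln),
    (∀ e ∈ G, e.1 ∈ V ∧ e.2 ∈ V ∧ IsEdge b L e.1 e.2) → L ^ (4 * b - q) ≤ G.card →
    ∃ (V1 V2 : Finset Ln) (G' : Finset (Ln × Ln)) (g1 g2 : ℕ), G' ⊆ G ∧
      Sys b L 1 V V1 V2 G' g1 g2 ∧ L ^ (2 * b - q - 33) ≤ g1 ∧ L ^ (2 * b - q - 33) ≤ g2 := by
  refine ⟨(2 * b + 32) ^ 2 + 10, fun L hL q hq V hV G hG hcard => ?_⟩
  have hL10 : 10 ≤ L := le_trans (Nat.le_add_left _ _) hL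
  have hGV : ∀ e ∈ G, e.1 ∈ V ∧ e.2 ∈ V := fun e he => ⟨(hG e he).1, (hG e he).2.1⟩
  have hVc := adm_card b L hL10 V hV
  have hL1 : 1 < L := by omega
  have hLpos : 0 < L := by omega
  have hGne : G.Nonempty := by
    rw [← Finset.card_pos]
    exact lt_of_lt_of_le (pow_pos hLpos _) hcard
  -- the levels
  obtain ⟨t, ht⟩ : ∃ t : Finset (ℕ × ℕ),
      t = Finset.range (2 * b + 32) ×ˢ Finset.range (2 * b + 32) := ⟨_, rfl⟩
  have htc : t.card ≤ L := by
    rw [ht, Finset.card_product, Finset.card_range, ← sq]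
    exact le_trans (Nat.le_add_right _ _) hL
  have hlog : ∀ m, m ≤ V.card → Nat.log L m < 2 * b + 32 := by
    intro m hm
    rcases Nat.eq_zero_or_pos m with h0 | h0
    · rw [h0, Nat.log_zero_right]
      omega
    · apply Nat.log_lt_of_lt_pow h0.ne'
      calc m ≤ L ^ (2 * b + 31) := hm.trans hVc
        _ < L ^ (2 * b + 32) := Nat.pow_lt_pow_right hL1 (by omega)
  obtain ⟨⟨i, j⟩, -, hpg⟩ := reg_pigeon G t
    (fun e => (Nat.log L (regOut G e.1), Nat.log L (regIn G e.2))) (fun e he => by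
      rw [ht, Finset.mem_product, Finset.mem_range, Finset.mem_range]
      exact ⟨hlog _ (reg_out_le hGV e.1), hlog _ (reg_in_le hGV e.2)⟩) hGne L htc
  obtain ⟨G', hG'⟩ : ∃ G', G' = G.filter (fun e =>
    (Nat.log L (regOut G e.1), Nat.log L (regIn G e.2)) = (i, j)) := ⟨_, rfl⟩
  rw [← hG'] at hpg
  obtain ⟨V1, hV1⟩ : ∃ V1, V1 = V.filter (fun v => L ^ i ≤ regOut G v ∧
    regOut G v < L ^ (i + 1)) := ⟨_, rfl⟩
  obtain ⟨V2, hV2⟩ : ∃ V2, V2 = V.filter (fun w => L ^ j ≤ regIn G w ∧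
    regIn G w < L ^ (j + 1)) := ⟨_, rfl⟩
  have hsub : G' ⊆ G := by
    rw [hG']
    exact Finset.filter_subset _ _
  have hmem : ∀ e ∈ G', e.1 ∈ V1 ∧ e.2 ∈ V2 := by
    intro e he
    rw [hG', Finset.mem_filter] at he
    obtain ⟨he1, he2⟩ := he
    have h1 : Nat.log L (regOut G e.1) = i := congrArg Prod.fst he2
    have h2 : Nat.log L (regIn G e.2) = j := congrArg Prod.snd he2
    have h3 : regOut G e.1 ≠ 0 := by
      unfold regOut
      rw [Finset.card_ne_zero]
      exact ⟨e, Finset.mem_filter.2 ⟨he1, rfl⟩⟩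
    have h4 : regIn G e.2 ≠ 0 := by
      unfold regIn
      rw [Finset.card_ne_zero]
      exact ⟨e, Finset.mem_filter.2 ⟨he1, rfl⟩⟩
    rw [hV1, hV2, Finset.mem_filter, Finset.mem_filter]
    refine ⟨⟨(hGV e he1).1, ?_, ?_⟩, ⟨(hGV e he1).2, ?_, ?_⟩⟩
    · rw [← h1]
      exact Nat.pow_log_le_self L h3
    · rw [← h1]
      exact Nat.lt_pow_succ_log_self hL1 _
    · rw [← h2]
      exact Nat.pow_log_le_self L h4
    · rw [← h2]
      exact Nat.lt_pow_succ_log_self hL1 _
  have hcG' : L ^ (4 * b - q - 1) ≤ G'.card := by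
    have h1 : L * L ^ (4 * b - q - 1) ≤ L * G'.card := by
      calc L * L ^ (4 * b - q - 1) = L ^ (4 * b - q) := by
            rw [← pow_succ']
            congr 1
            omega
        _ ≤ G.card := hcard
        _ ≤ L * G'.card := hpg
    exact Nat.le_of_mul_le_mul_left h1 hLpos
  have hV1c : V1.card ≤ L ^ (2 * b + 31) := by
    rw [hV1]
    exact (Finset.card_le_card (Finset.filter_subset _ _)).trans hVc
  have hV2c : V2.card ≤ L ^ (2 * b + 31) := by
    rw [hV2]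
    exact (Finset.card_le_card (Finset.filter_subset _ _)).trans hVc
  have hd1 : ∀ v ∈ V1, L ^ i ≤ regOut G v ∧ regOut G v < L ^ (i + 1) := by
    intro v hv
    rw [hV1] at hv
    exact (Finset.mem_filter.1 hv).2
  have hd2 : ∀ v ∈ V2, L ^ j ≤ regIn G v ∧ regIn G v < L ^ (j + 1) := by
    intro v hv
    rw [hV2] at hv
    exact (Finset.mem_filter.1 hv).2
  have hs1 := reg_sum_out G V1
  have hs2 := reg_sum_in G V2
  have hi : 2 * b - q - 33 ≤ i := by
    have h1 : G'.card ≤ ∑ v ∈ V1, regOut G v := by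
      rw [hs1]
      exact Finset.card_le_card fun e he => Finset.mem_filter.2 ⟨hsub he, (hmem e he).1⟩
    have h2 : ∑ v ∈ V1, regOut G v ≤ V1.card * L ^ (i + 1) := by
      rw [← smul_eq_mul]
      exact Finset.sum_le_card_nsmul _ _ _ fun v hv => (hd1 v hv).2.le
    have h3 : L ^ (4 * b - q - 1) ≤ L ^ (2 * b + 31 + (i + 1)) := by
      rw [pow_add L (2 * b + 31)]
      exact hcG'.trans (h1.trans (h2.trans (Nat.mul_le_mul_right _ hV1c)))
    have h4 := (Nat.pow_le_pow_iff_right hL1).1 h3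
    omega
  have hj : 2 * b - q - 33 ≤ j := by
    have h1 : G'.card ≤ ∑ v ∈ V2, regIn G v := by
      rw [hs2]
      exact Finset.card_le_card fun e he => Finset.mem_filter.2 ⟨hsub he, (hmem e he).2⟩
    have h2 : ∑ v ∈ V2, regIn G v ≤ V2.card * L ^ (j + 1) := by
      rw [← smul_eq_mul]
      exact Finset.sum_le_card_nsmul _ _ _ fun v hv => (hd2 v hv).2.le
    have h3 : L ^ (4 * b - q - 1) ≤ L ^ (2 * b + 31 + (j + 1)) := by
      rw [pow_add L (2 * b + 31)]
      exact hcG'.trans (h1.trans (h2.trans (Nat.mul_le_mul_right _ hV2c)))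
    have h4 := (Nat.pow_le_pow_iff_right hL1).1 h3
    omega
  refine ⟨V1, V2, G', L ^ i, L ^ j, hsub, ⟨hV, ?_, ?_, ?_, ?_, ?_, ?_, ?_, ?_, ?_, ?_⟩, ?_, ?_⟩
  · rw [hV1]
    exact Finset.filter_subset _ _
  · rw [hV2]
    exact Finset.filter_subset _ _
  · intro e he
    exact ⟨(hmem e he).1, (hmem e he).2, (hG e (hsub he)).2.2⟩
  · intro v hv
    have h1 : (V2.filter (fun w => (v, w) ∈ G')).card ≤ regOut G v := by
      unfold regOut
      refine Finset.card_le_card_of_injOn (fun w => (v, w)) ?_ ?_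
      · intro w hw
        exact Finset.mem_filter.2 ⟨hsub (Finset.mem_filter.1 hw).2, rfl⟩
      · intro w _ w' _ h
        exact congrArg Prod.snd h
    rw [pow_one, ← pow_succ]
    exact h1.trans (hd1 v hv).2.le
  · intro w hw
    have h1 : (V1.filter (fun v => (v, w) ∈ G')).card ≤ regIn G w := by
      unfold regIn
      refine Finset.card_le_card_of_injOn (fun v => (v, w)) ?_ ?_
      · intro v hv
        exact Finset.mem_filter.2 ⟨hsub (Finset.mem_filter.1 hv).2, rfl⟩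
      · intro v _ v' _ h
        exact congrArg Prod.fst h
    rw [pow_one, ← pow_succ]
    exact h1.trans (hd2 w hw).2.le
  · have h1 : V1.card * L ^ i ≤ ∑ v ∈ V1, regOut G v := by
      rw [← smul_eq_mul]
      exact Finset.card_nsmul_le_sum _ _ _ fun v hv => (hd1 v hv).1
    rw [hs1] at h1
    rw [pow_one]
    exact h1.trans ((Finset.card_le_card (Finset.filter_subset _ _)).trans hpg)
  · have h1 : V2.card * L ^ j ≤ ∑ v ∈ V2, regIn G v := by
      rw [← smul_eq_mul]
      exact Finset.card_nsmul_le_sum _ _ _ fun v hv => (hd2 v hv).1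
    rw [hs2] at h1
    rw [pow_one]
    exact h1.trans ((Finset.card_le_card (Finset.filter_subset _ _)).trans hpg)
  · exact Nat.pow_le_pow_right hLpos (by omega)
  · exact Nat.pow_le_pow_right hLpos (by omega)
  · rw [← Finset.card_pos]
    exact lt_of_lt_of_le (pow_pos hLpos _) hcG'
  · exact Nat.pow_le_pow_right hLpos hi
  · exact Nat.pow_le_pow_right hLpos hj

end FDP
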