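import Pool.Agent.W_fd120a_h8.Defs

set_option autoImplicit false

/-!
Stage 2 (`N ^ (0.99 - ε)`): definitions.
-/

open Finset Polynomial
open scoped Classical

namespace FDP

/-- a system of edges between `V1` and `V2`, with degrees about `g1` and `g2` up to `L ^ lam` -/
structure Sys (b L lam : ℕ) (V V1 V2 : Finset Ln) (G : Finset (Ln × Ln)) (g1 g2 : ℕ) : Prop where
  adm : Adm b L V
  s1 : V1 ⊆ V
  s2 : V2 ⊆ V
  edge : ∀ e ∈ G, e.1 ∈ V1 ∧ e.2 ∈ V2 ∧ IsEdge b L e.1 e.2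
  up1 : ∀ v ∈ V1, (V2.filter (fun w => (v, w) ∈ G)).card ≤ g1 * L ^ lam
  up2 : ∀ w ∈ V2, (V1.filter (fun v => (v, w) ∈ G)).card ≤ g2 * L ^ lam
  lo1 : V1.card * g1 ≤ L ^ lam * G.card
  lo2 : V2.card * g2 ≤ L ^ lam * G.card
  big1 : L ^ (b + 500) ≤ g1
  big2 : L ^ (b + 500) ≤ g2
  ne : G.Nonempty

/-- `Ψ (u0 + S, g0 + T)`, a polynomial in `S` (inner variable) and `T` (outer variable) -/
noncomputable def sh (u0 g0 : ℤ) (Ψ : ℤ[X][X]) : ℤ[X][X] :=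
  ev (k := ℤ[X][X]) (C X + C (C u0)) (X + C (C g0)) Ψ

/-- the multiplicity modulo `p` of the curve `Ψ` at the point `(u0, g0)` -/
noncomputable def mlt (p : ℕ) (u0 g0 : ℤ) (Ψ : ℤ[X][X]) : ℕ :=
  sInf {m | ∃ i j, i + j = m ∧ ¬ (p : ℤ) ∣ ((sh u0 g0 Ψ).coeff j).coeff i}

/-- the class of the line modulo `p`: representatives in `[0, p)` of `x / y` and `c / y` -/
noncomputable def cls (p : ℕ) (v : Ln) : ℕ × ℕ :=
  (((v.1 : ZMod p) * (v.2.1 : ZMod p)⁻¹).val, ((v.2.2 : ZMod p) * (v.2.1 : ZMod p)⁻¹).val)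

/-- the multiplicity of `Ψ` at the class of `v` -/
noncomputable def mltv (p : ℕ) (Ψ : ℤ[X][X]) (v : Ln) : ℕ := mlt p (cls p v).1 (cls p v).2 Ψ

/-- the class of the line `v` modulo `p` contains an element of `V0` -/
def Cov (p : ℕ) (V0 : Finset Ln) (v : Ln) : Prop :=
  ¬ (p : ℤ) ∣ v.2.1 ∧ ∃ w ∈ V0, ¬ (p : ℤ) ∣ w.2.1 ∧ cls p w = cls p v

/-- the primes of `(L ^ 20, L ^ 21]` -/
noncomputable def PrS (L : ℕ) : Finset ℕ := (Finset.Ioc (L ^ 20) (L ^ 21)).filter Nat.Prime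

/-- the monomials of degree at most `k` -/
def Mon (k : ℕ) : Finset (ℕ × ℕ) :=
  (Finset.range (k + 1) ×ˢ Finset.range (k + 1)).filter (fun m => m.1 + m.2 ≤ k)

/-- the vector of the monomials of degree at most `k` at a line -/
noncomputable def evv (k : ℕ) (v : Ln) : Mon k → ℚ := fun m =>
  (v.1 : ℚ) ^ m.1.1 * (v.2.2 : ℚ) ^ m.1.2 * (v.2.1 : ℚ) ^ (k - m.1.1 - m.1.2)

/-- the rank of a set of lines for the polynomials of total degree at most `k` -/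
noncomputable def rk (k : ℕ) (C : Finset Ln) : ℕ :=
  Module.finrank ℚ (Submodule.span ℚ (evv k '' (C : Set Ln)))

/-- the standard monomials -/
def Std (a0 b0 j : ℕ) : Finset (ℕ × ℕ) :=
  (Finset.range j ×ˢ Finset.range j).filter (fun σ => σ.1 + σ.2 < j ∧ ¬ (a0 ≤ σ.1 ∧ b0 ≤ σ.2))

end FDP
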