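import Mathlib

set_option autoImplicit false

open Finset
open scoped Classical

namespace FDP

theorem SampHit_pow (n c M s0 : ℕ) (h1 : n ≤ M * c) (hc : c ≤ n) (hM : 1 ≤ M)
    (hs : 5 * M ≤ s0) : 100 * (n - c) ^ s0 ≤ n ^ s0 := by
  have hMR : (1 : ℝ) ≤ (M : ℝ) := by exact_mod_cast hM
  have hM0 : (0 : ℝ) < (M : ℝ) := by linarith
  have hcn : ((n - c : ℕ) : ℝ) = (n : ℝ) - (c : ℝ) := by
    push_cast [Nat.cast_sub hc]
    ring
  have h1R : (n : ℝ) ≤ (M : ℝ) * (c : ℝ) := by exact_mod_cast h1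
  have hsR : (5 : ℝ) * (M : ℝ) ≤ (s0 : ℝ) := by exact_mod_cast hs
  have hle : (n : ℝ) - (c : ℝ) ≤ (n : ℝ) * (1 - 1 / (M : ℝ)) := by
    have : (n : ℝ) / (M : ℝ) ≤ (c : ℝ) := by
      rw [div_le_iff₀ hM0]
      linarith
    have h2 : (n : ℝ) * (1 - 1 / (M : ℝ)) = (n : ℝ) - (n : ℝ) / (M : ℝ) := by
      field_simp
    rw [h2]
    linarith
  have h0 : (0 : ℝ) ≤ (n : ℝ) - (c : ℝ) := by
    have : (c : ℝ) ≤ (n : ℝ) := by exact_mod_cast hc
    linarith
  have hfrac : (0 : ℝ) ≤ 1 - 1 / (M : ℝ) := by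
    have : 1 / (M : ℝ) ≤ 1 := by
      rw [div_le_one hM0]
      exact hMR
    linarith
  have hexp5 : (100 : ℝ) ≤ Real.exp 5 := by
    have h1 := Real.exp_one_gt_d9
    have h2 : Real.exp 5 = Real.exp 1 ^ 5 := by
      rw [← Real.exp_nat_mul]
      norm_num
    rw [h2]
    have h3 : (2.7 : ℝ) ^ 5 ≤ Real.exp 1 ^ 5 := by
      apply pow_le_pow_left₀ (by norm_num)
      linarith
    refine le_trans ?_ h3
    norm_num
  have hpow : (1 - 1 / (M : ℝ)) ^ s0 ≤ 1 / 100 := by
    have h2 : 1 - 1 / (M : ℝ) ≤ Real.exp (-(1 / (M : ℝ))) := by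
      have := Real.add_one_le_exp (-(1 / (M : ℝ)))
      linarith
    have h3 : (1 - 1 / (M : ℝ)) ^ s0 ≤ Real.exp (-(1 / (M : ℝ))) ^ s0 :=
      pow_le_pow_left₀ hfrac h2 s0
    have h4 : Real.exp (-(1 / (M : ℝ))) ^ s0 = Real.exp (-((s0 : ℝ) / (M : ℝ))) := by
      rw [← Real.exp_nat_mul]
      congr 1
      ring
    have h5 : Real.exp (-((s0 : ℝ) / (M : ℝ))) ≤ Real.exp (-5) := by
      apply Real.exp_le_exp.2
      have : (5 : ℝ) ≤ (s0 : ℝ) / (M : ℝ) := by
        rw [le_div_iff₀ hM0]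
        exact hsR
      linarith
    have h6 : Real.exp (-5) ≤ 1 / 100 := by
      rw [Real.exp_neg, ← one_div]
      exact one_div_le_one_div_of_le (by norm_num) hexp5
    rw [h4] at h3
    linarith
  have hmain : (100 : ℝ) * ((n : ℝ) - (c : ℝ)) ^ s0 ≤ (n : ℝ) ^ s0 := by
    have h2 : ((n : ℝ) - (c : ℝ)) ^ s0 ≤ ((n : ℝ) * (1 - 1 / (M : ℝ))) ^ s0 :=
      pow_le_pow_left₀ h0 hle s0
    rw [mul_pow] at h2
    have h3 : (n : ℝ) ^ s0 * (1 - 1 / (M : ℝ)) ^ s0 ≤ (n : ℝ) ^ s0 * (1 / 100) :=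
      mul_le_mul_of_nonneg_left hpow (by positivity)
    linarith
  have : ((100 * (n - c) ^ s0 : ℕ) : ℝ) ≤ ((n ^ s0 : ℕ) : ℝ) := by
    rw [Nat.cast_mul, Nat.cast_pow, Nat.cast_pow, hcn]
    simpa using hmain
  exact_mod_cast this

/-- the weight of `v` if its class is popular and not hit by `V0` -/
noncomputable def SampHitG {α ι γ : Type*} (U : Finset α) (cl : ι → α → γ) (wt : α → ℕ)
    (M : ℕ) (V0 : Finset α) (p : ι) (v : α) : ℕ :=
  if (U.card ≤ M * (U.filter (fun w => cl p w = cl p v)).card ∧ ∀ w ∈ V0, cl p w ≠ cl p v)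
    then wt v else 0

theorem SampHitG_pos {α ι γ : Type*} (U : Finset α) (cl : ι → α → γ) (wt : α → ℕ)
    (M : ℕ) (V0 : Finset α) (p : ι) (v : α)
    (h : U.card ≤ M * (U.filter (fun w => cl p w = cl p v)).card ∧ ∀ w ∈ V0, cl p w ≠ cl p v) :
    SampHitG U cl wt M V0 p v = wt v := by
  unfold SampHitG
  exact if_pos h

theorem SampHitG_neg {α ι γ : Type*} (U : Finset α) (cl : ι → α → γ) (wt : α → ℕ)
    (M : ℕ) (V0 : Finset α) (p : ι) (v : α)
    (h : ¬ (U.card ≤ M * (U.filter (fun w => cl p w = cl p v)).card ∧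
      ∀ w ∈ V0, cl p w ≠ cl p v)) :
    SampHitG U cl wt M V0 p v = 0 := by
  unfold SampHitG
  exact if_neg h

theorem SampHitG_sum {α ι γ : Type*} (U : Finset α) (cl : ι → α → γ) (wt : α → ℕ)
    (M : ℕ) (V0 : Finset α) (p : ι) :
    ∑ v ∈ U.filter (fun v =>
        U.card ≤ M * (U.filter (fun w => cl p w = cl p v)).card ∧ ∀ w ∈ V0, cl p w ≠ cl p v),
          wt v = ∑ v ∈ U, SampHitG U cl wt M V0 p v := by
  rw [Finset.sum_filter]
  apply Finset.sum_congr rfl
  intro v _
  by_cases h : (U.card ≤ M * (U.filter (fun w => cl p w = cl p v)).card ∧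
      ∀ w ∈ V0, cl p w ≠ cl p v)
  · rw [if_pos h, SampHitG_pos U cl wt M V0 p v h]
  · rw [if_neg h, SampHitG_neg U cl wt M V0 p v h]

theorem SampHitG_avg {α ι γ : Type*} (U : Finset α) (cl : ι → α → γ) (wt : α → ℕ)
    (M s0 : ℕ) (hM : 1 ≤ M) (hs : 5 * M ≤ s0) (p : ι) (v : α) :
    100 * ∑ f ∈ Fintype.piFinset (fun _ : Fin s0 => U),
      SampHitG U cl wt M (Finset.univ.image f) p v ≤ U.card ^ s0 * wt v := by
  by_cases hpop : U.card ≤ M * (U.filter (fun w => cl p w = cl p v)).card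
  · have hle : ∑ f ∈ Fintype.piFinset (fun _ : Fin s0 => U),
        SampHitG U cl wt M (Finset.univ.image f) p v ≤
        ∑ f ∈ Fintype.piFinset (fun _ : Fin s0 => U \ U.filter (fun w => cl p w = cl p v)),
          wt v := by
      have h1 : ∀ f ∈ Fintype.piFinset (fun _ : Fin s0 => U), f ∉ Fintype.piFinset
          (fun _ : Fin s0 => U \ U.filter (fun w => cl p w = cl p v)) →
          SampHitG U cl wt M (Finset.univ.image f) p v = 0 := by
        intro f hf hf2
        apply SampHitG_neg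
        rintro ⟨_, h2⟩
        apply hf2
        rw [Fintype.mem_piFinset] at hf ⊢
        intro i
        rw [Finset.mem_sdiff, Finset.mem_filter]
        exact ⟨hf i, fun h => h2 (f i) (Finset.mem_image_of_mem f (Finset.mem_univ i)) h.2⟩
      have hsub : Fintype.piFinset
          (fun _ : Fin s0 => U \ U.filter (fun w => cl p w = cl p v)) ⊆
          Fintype.piFinset (fun _ : Fin s0 => U) :=
        Fintype.piFinset_subset _ _ (fun _ => Finset.sdiff_subset)
      rw [← Finset.sum_subset hsub h1]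
      apply Finset.sum_le_sum
      intro f _
      unfold SampHitG
      split_ifs
      · exact le_rfl
      · exact Nat.zero_le _
    refine le_trans (Nat.mul_le_mul_left 100 hle) ?_
    rw [Finset.sum_const, Fintype.card_piFinset_const,
      Finset.card_sdiff_of_subset (Finset.filter_subset _ _), smul_eq_mul, ← mul_assoc]
    apply Nat.mul_le_mul_right
    exact SampHit_pow U.card _ M s0 hpop (Finset.card_le_card (Finset.filter_subset _ _)) hM hs
  · have h0 : ∀ f ∈ Fintype.piFinset (fun _ : Fin s0 => U),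
        SampHitG U cl wt M (Finset.univ.image f) p v = 0 := by
      intro f _
      apply SampHitG_neg
      intro h
      exact hpop h.1
    rw [Finset.sum_congr rfl h0]
    simp

/-- Hitting popular classes.  Proof: take a uniformly random `f : Fin s0 → U` and `V0` its image.  For
a pair `(p, v)` whose class has at least `|U| / M` elements the probability that no `f i` is in the
class is at most `(1 - 1/M) ^ s0 ≤ exp (-s0 / M) ≤ exp (-5) ≤ 1 / 100`; take the expectation. -/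
theorem sample_hit {α ι γ : Type*} (U : Finset α) (S : Finset ι) (cl : ι → α → γ) (wt : α → ℕ)
    (M s0 : ℕ) (hM : 1 ≤ M) (hs : 5 * M ≤ s0) :
    ∃ V0 ⊆ U, V0.card ≤ s0 ∧
      100 * ∑ p ∈ S, ∑ v ∈ U.filter (fun v =>
        U.card ≤ M * (U.filter (fun w => cl p w = cl p v)).card ∧ ∀ w ∈ V0, cl p w ≠ cl p v), wt v ≤
        S.card * ∑ v ∈ U, wt v := by
  rcases U.eq_empty_or_nonempty with hU | hU
  · subst hU
    refine ⟨∅, Finset.Subset.refl _, by simp, ?_⟩
    simp
  · have hFne : (Fintype.piFinset (fun _ : Fin s0 => U)).Nonempty := by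
      rw [Fintype.piFinset_nonempty]
      exact fun _ => hU
    have hsum : ∑ f ∈ Fintype.piFinset (fun _ : Fin s0 => U), 100 * ∑ p ∈ S, ∑ v ∈ U,
        SampHitG U cl wt M (Finset.univ.image f) p v ≤
        ∑ f ∈ Fintype.piFinset (fun _ : Fin s0 => U), S.card * ∑ v ∈ U, wt v := by
      have h1 : ∑ f ∈ Fintype.piFinset (fun _ : Fin s0 => U), 100 * ∑ p ∈ S, ∑ v ∈ U,
          SampHitG U cl wt M (Finset.univ.image f) p v =
          ∑ p ∈ S, ∑ v ∈ U, 100 * ∑ f ∈ Fintype.piFinset (fun _ : Fin s0 => U),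
            SampHitG U cl wt M (Finset.univ.image f) p v := by
        simp only [Finset.mul_sum]
        rw [Finset.sum_comm]
        apply Finset.sum_congr rfl
        intro p _
        rw [Finset.sum_comm]
      have h2 : ∑ p ∈ S, ∑ v ∈ U, 100 * ∑ f ∈ Fintype.piFinset (fun _ : Fin s0 => U),
            SampHitG U cl wt M (Finset.univ.image f) p v ≤
          ∑ p ∈ S, ∑ v ∈ U, U.card ^ s0 * wt v :=
        Finset.sum_le_sum (fun p _ => Finset.sum_le_sum
          (fun v _ => SampHitG_avg U cl wt M s0 hM hs p v))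
      rw [h1]
      refine le_trans h2 (le_of_eq ?_)
      rw [Finset.sum_const, Finset.sum_const, Fintype.card_piFinset_const, ← Finset.mul_sum,
        smul_eq_mul, smul_eq_mul]
      ring
    obtain ⟨f, hf, hle⟩ := Finset.exists_le_of_sum_le hFne hsum
    refine ⟨Finset.univ.image f, ?_, ?_, ?_⟩
    · intro w hw
      rw [Finset.mem_image] at hw
      obtain ⟨i, _, rfl⟩ := hw
      rw [Fintype.mem_piFinset] at hf
      exact hf i
    · refine le_trans Finset.card_image_le ?_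
      simp
    · refine le_trans (le_of_eq ?_) hle
      congr 1
      apply Finset.sum_congr rfl
      intro p _
      exact SampHitG_sum U cl wt M _ p

end FDP
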