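import Pool.Agent.W_fd120a_h8.Final
import Pool.Agent.W_fd120a_h8.Local2

set_option autoImplicit false

open Finset Filter Topology

namespace FDP

/-- `|S_N(a)| ≥ N ^ (0.99 - ε)`. -/
theorem stage2 (ε : ℝ) (hε : 0 < ε) :
    ∀ᶠ N : ℕ in atTop, ∀ (a : ℕ → ℤ) (hi : ℝ), 2 * (N : ℝ) ^ (0.51 : ℝ) ≤ hi →
      (N : ℝ) ^ (0.99 - ε) ≤ (N7c497599.sievedCard N a ((N : ℝ) ^ (0.51 : ℝ)) hi : ℝ) := by
  have h := asym 1 600 (by norm_num) (by norm_num) 40 (by norm_num) (fun b0 => by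
    refine ⟨b0 + 1000, b0 + 1000 - 600, by omega, ?_, local2 _ (by omega)⟩
    have h1 : b0 + 1000 - 600 = b0 + 400 := by omega
    rw [h1]
    push_cast
    linarith) ε hε
  have h2 : (0.98 + (1 : ℝ) / 100 - ε) = 0.99 - ε := by norm_num
  rw [h2] at h
  exact h

end FDP
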