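import Pool.Agent.W_fd120a_h8.LightSum
import Pool.Agent.W_fd120a_h8.PrimeRange
import Pool.Agent.W_fd120a_h8.PrimePick
import Pool.Agent.W_fd120a_h8.SampHit
import Pool.Agent.W_fd120a_h8.Heavy

set_option autoImplicit false

open Finset Polynomial
open scoped Classical

namespace FDP

/-- the weight of a vertex: the number of its edges -/
noncomputable def WalshA_wt (U2 : Finset Ln) (G : Finset (Ln × Ln)) (v : Ln) : ℕ :=
  (U2.filter (fun w => (v, w) ∈ G)).card

/-- the class of a vertex modulo `p`, `none` when `p` divides `y` -/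
noncomputable def WalshA_cl (p : ℕ) (v : Ln) : Option (ℕ × ℕ) :=
  if (p : ℤ) ∣ v.2.1 then none else some (cls p v)

/-- `p` divides `y` -/
def WalshA_P1 (p : ℕ) (v : Ln) : Prop := (p : ℤ) ∣ v.2.1

/-- small multiplicity -/
def WalshA_P2 (L : ℕ) (Ψ : ℤ[X][X]) (p : ℕ) (v : Ln) : Prop :=
  ¬ (p : ℤ) ∣ v.2.1 ∧ mltv p Ψ v * L ^ 2 ≤ tdg Ψ

/-- large multiplicity and small class -/
def WalshA_P3 (L M : ℕ) (Ψ : ℤ[X][X]) (U1 : Finset Ln) (p : ℕ) (v : Ln) : Prop :=
  ¬ (p : ℤ) ∣ v.2.1 ∧ tdg Ψ < mltv p Ψ v * L ^ 2 ∧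
    M * (U1.filter (fun w => WalshA_cl p w = WalshA_cl p v)).card < U1.card

/-- large class not met by `V0` -/
def WalshA_P4 (M : ℕ) (U1 V0 : Finset Ln) (p : ℕ) (v : Ln) : Prop :=
  U1.card ≤ M * (U1.filter (fun w => WalshA_cl p w = WalshA_cl p v)).card ∧
    ∀ w ∈ V0, WalshA_cl p w ≠ WalshA_cl p v

theorem WalshA_mem {α : Type*} (s : Finset α) (P : α → Prop) (d : DecidablePred P) (a : α)
    (h1 : a ∈ s) (h2 : P a) : a ∈ @Finset.filter α P d s :=
  Finset.mem_filter.2 ⟨h1, h2⟩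

theorem WalshA_sub {α : Type*} (s : Finset α) (P : α → Prop) (d : DecidablePred P) :
    @Finset.filter α P d s ⊆ s :=
  Finset.filter_subset _ _

theorem WalshA_card (U1 U2 : Finset Ln) (G : Finset (Ln × Ln))
    (hG : ∀ e ∈ G, e.1 ∈ U1 ∧ e.2 ∈ U2) (P : Ln → Prop) :
    (G.filter (fun e => P e.1)).card = ∑ v ∈ U1.filter P, WalshA_wt U2 G v := by
  rw [Finset.card_eq_sum_card_fiberwise (f := fun e : Ln × Ln => e.1) (t := U1.filter P)]
  · refine Finset.sum_congr rfl fun v hv => ?_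
    unfold WalshA_wt
    have hPv : P v := (Finset.mem_filter.1 hv).2
    have h1 : (G.filter (fun e => P e.1)).filter (fun e => e.1 = v) =
        (U2.filter (fun w => (v, w) ∈ G)).image (fun w => (v, w)) := by
      ext e
      simp only [Finset.mem_filter, Finset.mem_image]
      constructor
      · rintro ⟨⟨he, _⟩, rfl⟩
        exact ⟨e.2, ⟨(hG e he).2, he⟩, rfl⟩
      · rintro ⟨w, ⟨_, hw2⟩, rfl⟩
        exact ⟨⟨hw2, hPv⟩, rfl⟩
    rw [h1, Finset.card_image_of_injective]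
    intro w w' h
    exact (Prod.mk.inj h).2
  · intro e he
    have he' := Finset.mem_filter.1 (Finset.mem_coe.1 he)
    exact Finset.mem_coe.2 (Finset.mem_filter.2 ⟨(hG e he'.1).1, he'.2⟩)

/-- the third part: heavy multiplicity, small class -/
theorem WalshA_heavy (L M : ℕ) (Ψ : ℤ[X][X]) (hΨ : Irreducible Ψ)
    (h1 : 1 ≤ Ψ.natDegree) (p : ℕ) (hp : p.Prime) (U1 : Finset Ln) :
    M * (U1.filter (WalshA_P3 L M Ψ U1 p)).card ≤ p * L ^ 2 * U1.card := by
  set B := U1.filter (WalshA_P3 L M Ψ U1 p) with hB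
  set I := (U1.filter (fun v => tdg Ψ < mltv p Ψ v * L ^ 2)).image (cls p) with hI
  have hIc : I.card ≤ p * L ^ 2 := heavy_classes L Ψ hΨ h1 p hp U1
  have h2 : B.card = ∑ a ∈ I, (B.filter (fun v => cls p v = a)).card := by
    apply Finset.card_eq_sum_card_fiberwise
    intro v hv
    have hv' := Finset.mem_filter.1 (Finset.mem_coe.1 hv)
    exact Finset.mem_coe.2 (Finset.mem_image.2 ⟨v, Finset.mem_filter.2 ⟨hv'.1, hv'.2.2.1⟩, rfl⟩)
  have h3 : ∀ a ∈ I, M * (B.filter (fun v => cls p v = a)).card ≤ U1.card := by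
    intro a _
    by_cases hne : (B.filter (fun v => cls p v = a)).Nonempty
    · obtain ⟨v, hv⟩ := hne
      obtain ⟨hvB, hva⟩ := Finset.mem_filter.1 hv
      obtain ⟨hvU, hvy, hvm, hvc⟩ := Finset.mem_filter.1 hvB
      refine le_trans (Nat.mul_le_mul_left M (Finset.card_le_card ?_)) hvc.le
      intro w hw
      obtain ⟨hwB, hwa⟩ := Finset.mem_filter.1 hw
      obtain ⟨hwU, hwy, _, _⟩ := Finset.mem_filter.1 hwB
      refine Finset.mem_filter.2 ⟨hwU, ?_⟩
      unfold WalshA_cl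
      rw [if_neg hwy, if_neg hvy, hwa, hva]
    · rw [Finset.not_nonempty_iff_eq_empty.1 hne, Finset.card_empty, mul_zero]
      exact Nat.zero_le _
  rw [h2, Finset.mul_sum]
  calc ∑ a ∈ I, M * (B.filter (fun v => cls p v = a)).card ≤ ∑ _a ∈ I, U1.card :=
        Finset.sum_le_sum h3
    _ = I.card * U1.card := by rw [Finset.sum_const, smul_eq_mul]
    _ ≤ p * L ^ 2 * U1.card := Nat.mul_le_mul_right _ hIc

/-- the decomposition into the four parts -/
theorem WalshA_split (L M : ℕ) (Ψ : ℤ[X][X]) (p : ℕ) (U1 V0 : Finset Ln)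
    (G : Finset (Ln × Ln)) :
    (G.filter (fun e => ¬ Cov p V0 e.1)).card ≤
      (G.filter (fun e => WalshA_P1 p e.1)).card + (G.filter (fun e => WalshA_P2 L Ψ p e.1)).card +
      (G.filter (fun e => WalshA_P3 L M Ψ U1 p e.1)).card +
      (G.filter (fun e => WalshA_P4 M U1 V0 p e.1)).card := by
  have hsub : G.filter (fun e => ¬ Cov p V0 e.1) ⊆
      ((G.filter (fun e => WalshA_P1 p e.1) ∪ G.filter (fun e => WalshA_P2 L Ψ p e.1)) ∪
        G.filter (fun e => WalshA_P3 L M Ψ U1 p e.1)) ∪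
        G.filter (fun e => WalshA_P4 M U1 V0 p e.1) := by
    intro e he
    obtain ⟨heG, heC⟩ := Finset.mem_filter.1 he
    by_cases hy : (p : ℤ) ∣ e.1.2.1
    · exact Finset.mem_union_left _ (Finset.mem_union_left _ (Finset.mem_union_left _
        (Finset.mem_filter.2 ⟨heG, hy⟩)))
    · by_cases hm : mltv p Ψ e.1 * L ^ 2 ≤ tdg Ψ
      · exact Finset.mem_union_left _ (Finset.mem_union_left _ (Finset.mem_union_right _
          (Finset.mem_filter.2 ⟨heG, hy, hm⟩)))
      · by_cases hc : M * (U1.filter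
            (fun w => WalshA_cl p w = WalshA_cl p e.1)).card < U1.card
        · exact Finset.mem_union_left _ (Finset.mem_union_right _
            (Finset.mem_filter.2 ⟨heG, hy, not_le.1 hm, hc⟩))
        · refine Finset.mem_union_right _ (Finset.mem_filter.2 ⟨heG, not_lt.1 hc, ?_⟩)
          intro w hw hcl
          apply heC
          unfold WalshA_cl at hcl
          rw [if_neg hy] at hcl
          by_cases hwy : (p : ℤ) ∣ w.2.1
          · rw [if_pos hwy] at hcl
            exact absurd hcl (by simp)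
          · rw [if_neg hwy] at hcl
            exact ⟨hy, w, hw, hwy, Option.some.inj hcl⟩
  refine (Finset.card_le_card hsub).trans ?_
  refine (Finset.card_union_le _ _).trans (add_le_add ?_ (le_refl _))
  refine (Finset.card_union_le _ _).trans (add_le_add ?_ (le_refl _))
  exact Finset.card_union_le _ _

/-- Walsh's argument, first part: a small set that meets the classes of most vertices, for most primes.
Proof.  `E = tdg Ψ`.  `S = PrS L`, `|S| ≥ L^20` (`primes_range` with `y = L^20`).  `U = U1`,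
`wt v = #{w ∈ U2 : (v, w) ∈ G} ≤ g1 L^2`, total weight `|G|`, `|U| g1 ≤ L^2 |G|`.  Put
`cl p v = none` if `p ∣ y` and `some (cls p v)` if not (values in `Option (ℕ × ℕ)`), `M = L^28`,
`s0 = 5 M`; `sample_hit` gives `V0 ⊆ U`, `|V0| ≤ 5 L^28`.  The pairs `(p, v)` with `¬ Cov p V0 v`,
weighted by `wt v`:
(1) `p ∣ y(v)`: at most `b + 10` primes for every `v` (`|y| ≤ L^(b+10)`, `y ≠ 0`,
`primeDiv_card_nat`), weight `≤ (b + 10) |G|`;
(2) `p ∤ y(v)`, `mltv p Ψ v * L^2 ≤ E`: weight `≤ |S| |G| / 100` (`light_edges` for every `p`);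
(3) `p ∤ y(v)`, `mltv p Ψ v * L^2 > E`, and the class has less than `|U| / M` elements: by
`heavy_classes` at most `p L^2 ≤ L^23` classes, so at most `L^23 |U| / L^28` vertices, weight
`≤ |U| g1 L^2 / L^5 ≤ |G| / L` for every `p`;
(4) the class has at least `|U| / M` elements and no element of `V0`: weight `≤ |S| |G| / 100`.
Together at most `3 |S| |G| / 100`. -/
theorem walsh_cover (b : ℕ) (hb : 1000 ≤ b) : ∃ L0 : ℕ, ∀ L, L0 ≤ L →
    ∀ (V U1 U2 : Finset Ln) (G : Finset (Ln × Ln)) (g1 g2 : ℕ), Sys b L 2 V U1 U2 G g1 g2 →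
    ∀ Ψ : ℤ[X][X], Irreducible Ψ → 1 ≤ Ψ.natDegree → L ^ 16 < tdg Ψ → tdg Ψ ≤ L ^ (b - 400) →
    (∀ v ∈ U1, Van Ψ v) → (∀ v ∈ U2, Van Ψ v) →
    ∃ V0 : Finset Ln, V0 ⊆ U1 ∧ V0.card ≤ 5 * L ^ 28 ∧
      100 * ∑ p ∈ PrS L, (G.filter (fun e => ¬ Cov p V0 e.1)).card ≤
        3 * (PrS L).card * G.card := by
  obtain ⟨L1, hL1⟩ := light_edges b hb
  obtain ⟨L2, hL2⟩ := primes_range 20
  refine ⟨L1 + L2 + 200 * (b + 10), fun L hL => ?_⟩
  have hLL1 : L1 ≤ L := by omega
  have hLL2 : L2 ≤ L := by omega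
  have hLb : 200 * (b + 10) ≤ L := le_trans (Nat.le_add_left _ _) hL
  have hL1' : 1 ≤ L := by omega
  have hL200 : 200 ≤ L := by omega
  -- the number of primes
  have hScard : L ^ 20 ≤ (PrS L).card := by
    have h := hL2 L hLL2 (L ^ 20) (Nat.one_le_pow _ _ hL1') le_rfl
    have h2 : L * L ^ 20 = L ^ 21 := by ring
    rw [h2] at h
    exact h
  have hSb : 200 * (b + 10) ≤ (PrS L).card :=
    (hLb.trans (Nat.le_self_pow (by norm_num) L)).trans hScard
  have hPrS : ∀ p ∈ PrS L, p.Prime ∧ L ^ 20 < p ∧ p ≤ L ^ 21 := by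
    intro p hp
    unfold PrS at hp
    rw [Finset.mem_filter, Finset.mem_Ioc] at hp
    exact ⟨hp.2, hp.1.1, hp.1.2⟩
  intro V U1 U2 G g1 g2 hS Ψ hΨ hΨ1 hE1 hE2 hV1 hV2
  have hG : ∀ e ∈ G, e.1 ∈ U1 ∧ e.2 ∈ U2 := fun e he => ⟨(hS.edge e he).1, (hS.edge e he).2.1⟩
  obtain ⟨V0, hV0, hV0c, hhit⟩ := sample_hit U1 (PrS L) WalshA_cl (WalshA_wt U2 G) (L ^ 28)
    (5 * L ^ 28) (Nat.one_le_pow _ _ hL1') (le_refl _)
  refine ⟨V0, hV0, hV0c, ?_⟩
  -- total weight
  have htot : ∑ v ∈ U1, WalshA_wt U2 G v ≤ G.card := by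
    have h := WalshA_card U1 U2 G hG (fun _ => True)
    refine le_trans ?_ (h.symm.le.trans (Finset.card_le_card (WalshA_sub _ _ _)))
    exact Finset.sum_le_sum_of_subset (fun v hv => WalshA_mem _ _ _ v hv trivial)
  -- part 1
  have hT1 : 200 * ∑ p ∈ PrS L, (G.filter (fun e => WalshA_P1 p e.1)).card ≤
      (PrS L).card * G.card := by
    have h1 : ∑ p ∈ PrS L, (G.filter (fun e => WalshA_P1 p e.1)).card =
        ∑ e ∈ G, ((PrS L).filter (fun p : ℕ => WalshA_P1 p e.1)).card := by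
      simp only [Finset.card_filter]
      exact Finset.sum_comm
    have h2 : ∀ e ∈ G, ((PrS L).filter (fun p : ℕ => WalshA_P1 p e.1)).card ≤ b + 10 := by
      intro e he
      have hv : e.1 ∈ V := hS.s1 (hG e he).1
      have hlt : |e.1.2.1| < ((L ^ 20 : ℕ) : ℤ) ^ (b + 10 + 1) := by
        refine lt_of_le_of_lt (hS.adm.bdy _ hv) ?_
        push_cast
        rw [← pow_mul]
        have hL2' : (1 : ℤ) < (L : ℤ) := by exact_mod_cast (show 1 < L by omega)
        exact pow_lt_pow_right₀ hL2' (by omega)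
      refine le_trans (Finset.card_le_card ?_)
        (primeDiv_card_nat e.1.2.1 (hS.adm.ynz _ hv) (L ^ 20) (b + 10)
          (Nat.one_le_pow _ _ hL1') hlt (PrS L) (fun p hp => ⟨(hPrS p hp).1, (hPrS p hp).2.1⟩))
      intro p hp
      exact Finset.mem_filter.2 ⟨(Finset.mem_filter.1 hp).1, (Finset.mem_filter.1 hp).2⟩
    have h3 : ∑ p ∈ PrS L, (G.filter (fun e => WalshA_P1 p e.1)).card ≤ G.card * (b + 10) := by
      rw [h1]
      calc _ ≤ ∑ _e ∈ G, (b + 10) := Finset.sum_le_sum h2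
        _ = G.card * (b + 10) := by rw [Finset.sum_const, smul_eq_mul]
    calc 200 * ∑ p ∈ PrS L, (G.filter (fun e => WalshA_P1 p e.1)).card
        ≤ 200 * (G.card * (b + 10)) := Nat.mul_le_mul_left _ h3
      _ = (200 * (b + 10)) * G.card := by ring
      _ ≤ (PrS L).card * G.card := Nat.mul_le_mul_right _ hSb
  -- part 2
  have hT2 : 100 * ∑ p ∈ PrS L, (G.filter (fun e => WalshA_P2 L Ψ p e.1)).card ≤
      (PrS L).card * G.card := by
    rw [Finset.mul_sum]
    calc ∑ p ∈ PrS L, 100 * (G.filter (fun e => WalshA_P2 L Ψ p e.1)).card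
        ≤ ∑ _p ∈ PrS L, G.card := by
          refine Finset.sum_le_sum fun p hp => ?_
          obtain ⟨hpp, hpl, hpu⟩ := hPrS p hp
          refine le_trans (Nat.mul_le_mul_left 100 (Finset.card_le_card ?_))
            (hL1 L hLL1 V U1 U2 G g1 g2 hS Ψ hΨ hΨ1 hE1 hE2 hV1 hV2 p hpp
            (lt_of_le_of_lt (Nat.le_self_pow (by norm_num) L) hpl)
            (hpu.trans (Nat.pow_le_pow_right hL1' (by norm_num))))
          intro e he
          exact Finset.mem_filter.2 ⟨(Finset.mem_filter.1 he).1, (Finset.mem_filter.1 he).2⟩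
      _ = (PrS L).card * G.card := by rw [Finset.sum_const, smul_eq_mul]
  -- part 3
  have hT3 : 200 * ∑ p ∈ PrS L, (G.filter (fun e => WalshA_P3 L (L ^ 28) Ψ U1 p e.1)).card ≤
      (PrS L).card * G.card := by
    rw [Finset.mul_sum]
    calc ∑ p ∈ PrS L, 200 * (G.filter (fun e => WalshA_P3 L (L ^ 28) Ψ U1 p e.1)).card
        ≤ ∑ _p ∈ PrS L, G.card := by
          refine Finset.sum_le_sum fun p hp => ?_
          obtain ⟨hpp, hpl, hpu⟩ := hPrS p hp
          have hB := WalshA_heavy L (L ^ 28) Ψ hΨ hΨ1 p hpp U1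
          have hn : (G.filter (fun e => WalshA_P3 L (L ^ 28) Ψ U1 p e.1)).card ≤
              (U1.filter (WalshA_P3 L (L ^ 28) Ψ U1 p)).card * (g1 * L ^ 2) := by
            rw [WalshA_card U1 U2 G hG (WalshA_P3 L (L ^ 28) Ψ U1 p)]
            calc _ ≤ ∑ _v ∈ U1.filter (WalshA_P3 L (L ^ 28) Ψ U1 p), (g1 * L ^ 2) := by
                  refine Finset.sum_le_sum fun v hv => ?_
                  exact hS.up1 v (Finset.mem_filter.1 hv).1
              _ = _ := by rw [Finset.sum_const, smul_eq_mul]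
          set n3 := (G.filter (fun e => WalshA_P3 L (L ^ 28) Ψ U1 p e.1)).card with hn3
          set B := (U1.filter (WalshA_P3 L (L ^ 28) Ψ U1 p)).card with hBdef
          have h28 : L ^ 28 * n3 ≤ L ^ 27 * G.card := by
            calc L ^ 28 * n3 ≤ L ^ 28 * (B * (g1 * L ^ 2)) := Nat.mul_le_mul_left _ hn
              _ = (L ^ 28 * B) * (g1 * L ^ 2) := by ring
              _ ≤ (p * L ^ 2 * U1.card) * (g1 * L ^ 2) := Nat.mul_le_mul_right _ hB
              _ = p * L ^ 4 * (U1.card * g1) := by ring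
              _ ≤ p * L ^ 4 * (L ^ 2 * G.card) := Nat.mul_le_mul_left _ hS.lo1
              _ ≤ L ^ 21 * L ^ 4 * (L ^ 2 * G.card) :=
                  Nat.mul_le_mul_right _ (Nat.mul_le_mul_right _ hpu)
              _ = L ^ 27 * G.card := by ring
          have h27 : 0 < L ^ 27 := Nat.pow_pos (by omega)
          have h1 : L * n3 ≤ G.card := by
            have h2 : L ^ 27 * (L * n3) ≤ L ^ 27 * G.card := by
              calc L ^ 27 * (L * n3) = L ^ 28 * n3 := by ring
                _ ≤ _ := h28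
            exact Nat.le_of_mul_le_mul_left h2 h27
          exact (Nat.mul_le_mul_right _ hL200).trans h1
      _ = (PrS L).card * G.card := by rw [Finset.sum_const, smul_eq_mul]
  -- part 4
  have hT4 : 100 * ∑ p ∈ PrS L, (G.filter (fun e => WalshA_P4 (L ^ 28) U1 V0 p e.1)).card ≤
      (PrS L).card * G.card := by
    refine le_trans (Nat.mul_le_mul_left 100 (Finset.sum_le_sum fun p _ => ?_))
      (hhit.trans (Nat.mul_le_mul_left _ htot))
    rw [WalshA_card U1 U2 G hG (WalshA_P4 (L ^ 28) U1 V0 p)]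
    refine Finset.sum_le_sum_of_subset ?_
    intro v hv
    rw [Finset.mem_filter] at hv
    refine WalshA_mem _ _ _ v hv.1 ?_
    have h4 := hv.2
    unfold WalshA_P4 at h4
    convert h4
  have hsum : ∑ p ∈ PrS L, (G.filter (fun e => ¬ Cov p V0 e.1)).card ≤
      ∑ p ∈ PrS L, (G.filter (fun e => WalshA_P1 p e.1)).card +
      ∑ p ∈ PrS L, (G.filter (fun e => WalshA_P2 L Ψ p e.1)).card +
      ∑ p ∈ PrS L, (G.filter (fun e => WalshA_P3 L (L ^ 28) Ψ U1 p e.1)).card +
      ∑ p ∈ PrS L, (G.filter (fun e => WalshA_P4 (L ^ 28) U1 V0 p e.1)).card := by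
    rw [← Finset.sum_add_distrib, ← Finset.sum_add_distrib, ← Finset.sum_add_distrib]
    exact Finset.sum_le_sum fun p _ => WalshA_split L (L ^ 28) Ψ p U1 V0 G
  have hfin : 3 * (PrS L).card * G.card = 3 * ((PrS L).card * G.card) := by ring
  rw [hfin]
  clear hE1 hE2
  generalize ∑ p ∈ PrS L, (G.filter (fun e => WalshA_P1 p e.1)).card = T1 at *
  generalize ∑ p ∈ PrS L, (G.filter (fun e => WalshA_P2 L Ψ p e.1)).card = T2 at *
  generalize ∑ p ∈ PrS L, (G.filter (fun e => WalshA_P3 L (L ^ 28) Ψ U1 p e.1)).card = T3 at *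
  generalize ∑ p ∈ PrS L, (G.filter (fun e => WalshA_P4 (L ^ 28) U1 V0 p e.1)).card = T4 at *
  generalize ∑ p ∈ PrS L, (G.filter (fun e => ¬ Cov p V0 e.1)).card = T at *
  generalize (PrS L).card * G.card = X at *
  clear hScard hSb
  omega

end FDP
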